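import Pool.Agent.H17.Omega.CtmM

/-!
# Countable transitive models of ZFC: choice and maximal elements
-/

set_option autoImplicit false
set_option linter.unusedVariables false
set_option linter.unusedSectionVars false
set_option linter.unusedSimpArgs false
set_option linter.deprecated false

universe u v w

namespace Pool.Agent.H17.Omega

namespace CTM

variable {N : Set ZFSet.{u}} (hN : CTM N)

include hN in
/-- Choice functions. -/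
theorem exists_choice {p : ZFSet.{u}} (hp : p ∈ N) : ∃ c ∈ N, ∀ b ∈ p, b ≠ ∅ →
    ∃ y ∈ b, ZFSet.pair b y ∈ c ∧ ∀ y' ∈ b, ZFSet.pair b y' ∈ c → y' = y := by
  have hd : hN.Dfn (fun v : Fin 1 → N => ¬ (v 0).1 = ∅) := Dfn.not (Dfn.isEmpty (DT.var _))
  obtain ⟨p', hp', hp2⟩ := hN.exists_sep (P := fun x => ¬ x.1 = ∅) hd hp
  have hF : hN.Dfn (fun v : Fin 2 → N => (∀ z : N, (z.1 ∈ (v 1).1 ↔ (∃ y : N, (y.1 ∈ (v 0).1 ∧ z.1 = ZFSet.pair (v 0).1 y.1))))) := (Dfn.all (P := fun v z => (z.1 ∈ (v 1).1 ↔ (∃ y : N, (y.1 ∈ (v 0).1 ∧ z.1 = ZFSet.pair (v 0).1 y.1))))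
  (Dfn.iff (Dfn.mem (DT.var _) (DT.var _))
  (Dfn.ex (P := fun v y => (y.1 ∈ (v 0).1 ∧ (v 2).1 = ZFSet.pair (v 0).1 y.1))
  (Dfn.and (Dfn.mem (DT.var _) (DT.var _))
  (Dfn.isPair (DT.var _) (DT.var _) (DT.var _))))))
  obtain ⟨a, ha, ha'⟩ := hN.exists_repl (F := fun x w : N => (∀ z : N, (z.1 ∈ w.1 ↔ (∃ y : N, (y.1 ∈ x.1 ∧ z.1 = ZFSet.pair x.1 y.1))))) hF hp' (by
    intro x _ y y' h1 h2
    exact Subtype.ext (hN.ext' y.2 y'.2 fun z => (h1 z).trans (h2 z).symm))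
  have hfam : ∀ b ∈ p, b ≠ ∅ → ∃ w : N, w.1 ∈ a ∧ ∀ z : ZFSet.{u}, z ∈ w.1 ↔ ∃ y ∈ b, z = ZFSet.pair b y := by
    intro b hb hb0
    have hbN := hN.mem_of_mem hp hb
    have h1 : ∀ z, z ∈ ZFSet.prod {b} b ↔ ∃ y ∈ b, z = ZFSet.pair b y := by
      intro z
      rw [ZFSet.mem_prod]
      constructor
      · rintro ⟨x, hx, y, hy, rfl⟩
        rw [ZFSet.mem_singleton] at hx
        exact ⟨y, hy, by rw [hx]⟩
      · rintro ⟨y, hy, rfl⟩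
        exact ⟨b, ZFSet.mem_singleton.2 rfl, y, hy, rfl⟩
    refine ⟨⟨_, hN.prod_mem (hN.singleton_mem hbN) hbN⟩, ?_, h1⟩
    refine (ha' _).2 ⟨⟨b, hbN⟩, (hp2 _).2 ⟨hb, hbN, hb0⟩, fun z => ?_⟩
    rw [h1]
    constructor
    · rintro ⟨y, hy, h2⟩; exact ⟨⟨y, hN.mem_of_mem hbN hy⟩, hy, h2⟩
    · rintro ⟨y, hy, h2⟩; exact ⟨y.1, hy, h2⟩
  have hof : ∀ w : N, w.1 ∈ a → ∃ b : ZFSet.{u}, b ∈ p ∧ b ≠ ∅ ∧
      ∀ z : ZFSet.{u}, z ∈ w.1 ↔ ∃ y ∈ b, z = ZFSet.pair b y := by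
    intro w hw
    obtain ⟨b, hb, h1⟩ := (ha' w).1 hw
    obtain ⟨h2, _, h3⟩ := (hp2 _).1 hb
    refine ⟨b.1, h2, h3, fun z => ?_⟩
    constructor
    · intro hz
      obtain ⟨y, hy, h4⟩ := (h1 ⟨z, hN.mem_of_mem w.2 hz⟩).1 hz
      exact ⟨y.1, hy, h4⟩
    · rintro ⟨y, hy, h4⟩
      have hyN := hN.mem_of_mem b.2 hy
      have hz : z ∈ N := by rw [h4]; exact hN.pair_mem b.2 hyN
      exact (h1 ⟨z, hz⟩).2 ⟨⟨y, hyN⟩, hy, h4⟩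
  have hch := hN.zfc _ ZFC.choice (fun _ => ⟨a, ha⟩) ⟨a, ha⟩
  obtain ⟨c, hc⟩ := hch (by
    refine ⟨fun w hw => ?_, fun w w' hh => ?_⟩
    · obtain ⟨b, hb, hb0, h1⟩ := hof w hw
      obtain ⟨y, hy⟩ : ∃ y, y ∈ b := by
        by_contra hcon
        push Not at hcon
        exact hb0 ((ZFSet.eq_empty b).2 hcon)
      have hbN := hN.mem_of_mem hp hb
      exact ⟨⟨ZFSet.pair b y, hN.pair_mem hbN (hN.mem_of_mem hbN hy)⟩, (h1 _).2 ⟨y, hy, rfl⟩⟩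
    · obtain ⟨hw, hw', z, hz, hz'⟩ := hh
      obtain ⟨b, hb, hb0, h1⟩ := hof w hw
      obtain ⟨b', hb', hb0', h1'⟩ := hof w' hw'
      obtain ⟨y, hy, h2⟩ := (h1 _).1 hz
      obtain ⟨y', hy', h2'⟩ := (h1' _).1 hz'
      have h3 : b = b' := (ZFSet.pair_inj.1 (h2.symm.trans h2')).1
      subst h3
      exact Subtype.ext (ZFSet.ext fun z => (h1 z).trans (h1' z).symm))
  refine ⟨c.1, c.2, fun b hb hb0 => ?_⟩
  obtain ⟨w, hw, h1⟩ := hfam b hb hb0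
  obtain ⟨z, hz⟩ := hc w hw
  have h2 : z.1 ∈ w.1 ∧ z.1 ∈ c.1 := (hz z).2 rfl
  obtain ⟨y, hy, h3⟩ := (h1 _).1 h2.1
  refine ⟨y, hy, ?_, fun y' hy' h4 => ?_⟩
  · rw [← h3]; exact h2.2
  · have h5 : ZFSet.pair b y' ∈ N := hN.mem_of_mem c.2 h4
    have h6 := (hz ⟨_, h5⟩).1 ⟨(h1 _).2 ⟨y', hy', rfl⟩, h4⟩
    have h7 : ZFSet.pair b y' = z.1 := congrArg Subtype.val h6
    rw [h3, ZFSet.pair_inj] at h7
    exact h7.2

/-- A maximal element of a family of subsets of a set that is closed under unions of chains. -/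
theorem exists_maximal {b : ZFSet.{u}} (hb : b ∈ N) {S : N → Prop}
    (hS : hN.Dfn (fun v : Fin 1 → N => S (v 0)))
    (hch : ∀ C : N, (∀ s : N, s.1 ∈ C.1 → S s ∧ s.1 ⊆ b) →
      (∀ s ∈ C.1, ∀ t ∈ C.1, s ⊆ t ∨ t ⊆ s) → ∀ U : N, U.1 = ZFSet.sUnion C.1 → S U) :
    ∃ s : N, s.1 ⊆ b ∧ S s ∧ ∀ a ∈ b, ∀ s' : N, s'.1 = insert a s.1 → S s' → a ∈ s.1 := by
  obtain ⟨p, hp, hp'⟩ := hN.exists_pow hb
  obtain ⟨c, hc, hc'⟩ := hN.exists_choice hp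
  obtain ⟨F, hF, hF'⟩ := recursion (hN := hN) (R := fun x y : N => x.1 ∈ y.1)
    (𝒢 := fun x rel v0 => ∃ s X : N, (∀ a : N, (a.1 ∈ s.1 ↔ (a.1 ∈ b ∧ (∃ y : N, rel y a)))) ∧
      (∀ a : N, (a.1 ∈ X.1 ↔ (a.1 ∈ b ∧ (¬ (a.1 ∈ s.1)) ∧
        (∃ s' : N, (s'.1 = insert a.1 s.1 ∧ S s'))))) ∧
      ((X.1 = ∅ ∧ v0.1 = b) ∨ (v0.1 ∈ X.1 ∧ ZFSet.pair X.1 v0.1 ∈ c)))
    (Dfn.mem (DT.var _) (DT.var _)) (by
      exact (Dfn.ex (P := fun v s => (∃ X : N, (((∀ a : N, (a.1 ∈ s.1 ↔ (a.1 ∈ b ∧ ((∃ y : N, (y.1 ∈ (v 0).1 ∧ ZFSet.pair y.1 a.1 ∈ (v 1).1))))))) ∧ ((∀ a : N, (a.1 ∈ X.1 ↔ (a.1 ∈ b ∧ (¬ (a.1 ∈ s.1)) ∧ ((∃ s' : N, (s'.1 = insert a.1 s.1 ∧ S s'))))))) ∧ ((((X.1 = ∅ ∧ (v 2).1 = b)) ∨ (((v 2).1 ∈ X.1 ∧ ZFSet.pair X.1 (v 2).1 ∈ c)))))))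
  (Dfn.ex (P := fun v X => (((∀ a : N, (a.1 ∈ (v 3).1 ↔ (a.1 ∈ b ∧ ((∃ y : N, (y.1 ∈ (v 0).1 ∧ ZFSet.pair y.1 a.1 ∈ (v 1).1))))))) ∧ ((∀ a : N, (a.1 ∈ X.1 ↔ (a.1 ∈ b ∧ (¬ (a.1 ∈ (v 3).1)) ∧ ((∃ s' : N, (s'.1 = insert a.1 (v 3).1 ∧ S s'))))))) ∧ ((((X.1 = ∅ ∧ (v 2).1 = b)) ∨ (((v 2).1 ∈ X.1 ∧ ZFSet.pair X.1 (v 2).1 ∈ c))))))
  (Dfn.and (Dfn.all (P := fun v a => (a.1 ∈ (v 3).1 ↔ (a.1 ∈ b ∧ ((∃ y : N, (y.1 ∈ (v 0).1 ∧ ZFSet.pair y.1 a.1 ∈ (v 1).1))))))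
  (Dfn.iff (Dfn.mem (DT.var _) (DT.var _))
  (Dfn.and (Dfn.mem (DT.var _) (DT.const ⟨b, hb⟩))
  (Dfn.ex (P := fun v y => (y.1 ∈ (v 0).1 ∧ ZFSet.pair y.1 (v 5).1 ∈ (v 1).1))
  (Dfn.and (Dfn.mem (DT.var _) (DT.var _))
  (Dfn.pairMem (DT.var _) (DT.var _) (DT.var _)))))))
  (Dfn.and (Dfn.all (P := fun v a => (a.1 ∈ (v 4).1 ↔ (a.1 ∈ b ∧ (¬ (a.1 ∈ (v 3).1)) ∧ ((∃ s' : N, (s'.1 = insert a.1 (v 3).1 ∧ S s'))))))
  (Dfn.iff (Dfn.mem (DT.var _) (DT.var _))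
  (Dfn.and (Dfn.mem (DT.var _) (DT.const ⟨b, hb⟩))
  (Dfn.and (Dfn.not (Dfn.mem (DT.var _) (DT.var _)))
  (Dfn.ex (P := fun v s' => (s'.1 = insert (v 5).1 (v 3).1 ∧ S s'))
  (Dfn.and (Dfn.isInsert (DT.var _) (DT.var _) (DT.var _))
  (Dfn.subst1 (P := S) hS (DT.var _))))))))
  (Dfn.or (Dfn.and (Dfn.isEmpty (DT.var _))
  (Dfn.eqv (DT.var _) (DT.const ⟨b, hb⟩)))
  (Dfn.and (Dfn.mem (DT.var _) (DT.var _))
  (Dfn.pairMem (DT.var _) (DT.var _) (DT.const ⟨c, hc⟩)))))))))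
    (fun x => ⟨x.1, x.2, fun y => Iff.rfl⟩) mem_membership_wf (by
      rintro x r v v' ⟨s, X, h1, h2, h3⟩ ⟨s', X', h1', h2', h3'⟩
      have e1 : s = s' := Subtype.ext (hN.ext' s.2 s'.2 fun z => (h1 z).trans (h1' z).symm)
      subst e1
      have e2 : X = X' := Subtype.ext (hN.ext' X.2 X'.2 fun z => (h2 z).trans (h2' z).symm)
      subst e2
      have hXp : X.1 ∈ p := (hp' _).2 ⟨X.2, fun a ha => ((h2 ⟨a, hN.mem_of_mem X.2 ha⟩).1 ha).1⟩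
      rcases h3 with ⟨h3, h4⟩ | ⟨h3, h4⟩ <;> rcases h3' with ⟨h3', h4'⟩ | ⟨h3', h4'⟩
      · exact Subtype.ext (h4.trans h4'.symm)
      · rw [h3] at h3'; exact (ZFSet.notMem_empty _ h3').elim
      · rw [h3'] at h3; exact (ZFSet.notMem_empty _ h3).elim
      · obtain ⟨y, hy, h5, h6⟩ := hc' X.1 hXp (fun h0 => by rw [h0] at h3; exact ZFSet.notMem_empty _ h3)
        exact Subtype.ext ((h6 _ h3 h4).trans (h6 _ h3' h4').symm)) (by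
      intro x h hd hu
      obtain ⟨s, hs, hs'⟩ := hN.exists_sep (P := fun a => ∃ y : N, y.1 ∈ x.1 ∧ ZFSet.pair y.1 a.1 ∈ h.1)
        (Dfn.ex (P := fun v y => y.1 ∈ x.1 ∧ ZFSet.pair y.1 (v 0).1 ∈ h.1)
          (Dfn.and (Dfn.mem (DT.var _) (DT.const x)) (Dfn.pairMem (DT.var _) (DT.var _) (DT.const h)))) hb
      have hXd : hN.Dfn (fun v : Fin 1 → N => ((¬ ((v 0).1 ∈ s)) ∧
          (∃ s' : N, (s'.1 = insert (v 0).1 s ∧ S s')))) := by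
        refine Dfn.and (Dfn.not (Dfn.mem (DT.var _) (DT.const ⟨s, hs⟩))) ?_
        exact Dfn.ex (P := fun v s' => s'.1 = insert (v 0).1 s ∧ S s') (Dfn.and
          (Dfn.isInsert (DT.var _) (DT.var _) (DT.const ⟨s, hs⟩)) (Dfn.subst1 (P := S) hS (DT.var _)))
      obtain ⟨X, hX, hX'⟩ := hN.exists_sep (P := fun a => (¬ (a.1 ∈ s)) ∧
        (∃ s' : N, (s'.1 = insert a.1 s ∧ S s'))) hXd hb
      have g1 : ∀ a : N, (a.1 ∈ s ↔ (a.1 ∈ b ∧ (∃ y : N, y.1 ∈ x.1 ∧ ZFSet.pair y.1 a.1 ∈ h.1))) := by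
        intro a; rw [hs']; exact and_congr_right fun _ => ⟨fun ⟨_, h⟩ => h, fun h => ⟨a.2, h⟩⟩
      have g2 : ∀ a : N, (a.1 ∈ X ↔ (a.1 ∈ b ∧ (¬ (a.1 ∈ s)) ∧
        (∃ s' : N, (s'.1 = insert a.1 s ∧ S s')))) := by
        intro a; rw [hX']; exact and_congr_right fun _ => ⟨fun ⟨_, h⟩ => h, fun h => ⟨a.2, h⟩⟩
      by_cases h0 : X = ∅
      · exact ⟨⟨b, hb⟩, ⟨s, hs⟩, ⟨X, hX⟩, g1, g2, Or.inl ⟨h0, rfl⟩⟩
      · have hXp : X ∈ p := (hp' _).2 ⟨hX, fun a ha => ((g2 ⟨a, hN.mem_of_mem hX ha⟩).1 ha).1⟩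
        obtain ⟨y, hy, h5, h6⟩ := hc' X hXp h0
        exact ⟨⟨y, hN.mem_of_mem hX hy⟩, ⟨s, hs⟩, ⟨X, hX⟩, g1, g2, Or.inr ⟨hy, h5⟩⟩)
  choose sz Xz h1 h2 h3 using hF'
  have h1' : ∀ x a : N, a.1 ∈ (sz x).1 ↔ a.1 ∈ b ∧ ∃ y : N, y.1 ∈ x.1 ∧ F y = a := h1
  have hszb : ∀ x : N, (sz x).1 ⊆ b := fun x a ha => ((h1' x ⟨a, hN.mem_of_mem (sz x).2 ha⟩).1 ha).1
  have hne : ∀ x : N, (Xz x).1 ≠ ∅ → (F x).1 ∈ b ∧ (F x).1 ∉ (sz x).1 ∧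
      ∃ s' : N, s'.1 = insert (F x).1 (sz x).1 ∧ S s' := by
    intro x hx
    rcases h3 x with ⟨h4, _⟩ | ⟨h4, _⟩
    · exact (hx h4).elim
    · exact (h2 x (F x)).1 h4
  have hmono : ∀ x y : N, y.1.IsOrdinal → x.1 ∈ y.1 → (sz x).1 ⊆ (sz y).1 := by
    intro x y hy hxy a ha
    have haN := hN.mem_of_mem (sz x).2 ha
    obtain ⟨h4, z, h5, h6⟩ := (h1' x ⟨a, haN⟩).1 ha
    exact (h1' y ⟨a, haN⟩).2 ⟨h4, z, hy.mem_trans h5 hxy, h6⟩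
  -- the key property
  have key : ∀ α : N, α.1.IsOrdinal → (∀ γ : N, γ.1 ∈ α.1 → (Xz γ).1 ≠ ∅) → S (sz α) := by
    intro α hα hγ
    have hHd : hN.Dfn (fun v : Fin 2 → N => (∃ a : N, (∃ s : N, ((fun x y => F x = y) (v 0) a ∧ ((∀ a' : N, (a'.1 ∈ s.1 ↔ (a'.1 ∈ b ∧ ((∃ y : N, (y.1 ∈ (v 0).1 ∧ (fun x y => F x = y) y a'))))))) ∧ (v 1).1 = insert a.1 s.1)))) := (Dfn.ex (P := fun v a => (∃ s : N, ((fun x y => F x = y) (v 0) a ∧ ((∀ a' : N, (a'.1 ∈ s.1 ↔ (a'.1 ∈ b ∧ ((∃ y : N, (y.1 ∈ (v 0).1 ∧ (fun x y => F x = y) y a'))))))) ∧ (v 1).1 = insert a.1 s.1)))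
  (Dfn.ex (P := fun v s => ((fun x y => F x = y) (v 0) (v 2) ∧ ((∀ a' : N, (a'.1 ∈ s.1 ↔ (a'.1 ∈ b ∧ ((∃ y : N, (y.1 ∈ (v 0).1 ∧ (fun x y => F x = y) y a'))))))) ∧ (v 1).1 = insert (v 2).1 s.1))
  (Dfn.and (Dfn.subst2 (P := (fun x y => F x = y)) hF (DT.var _) (DT.var _))
  (Dfn.and (Dfn.all (P := fun v a' => (a'.1 ∈ (v 3).1 ↔ (a'.1 ∈ b ∧ ((∃ y : N, (y.1 ∈ (v 0).1 ∧ (fun x y => F x = y) y a'))))))
  (Dfn.iff (Dfn.mem (DT.var _) (DT.var _))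
  (Dfn.and (Dfn.mem (DT.var _) (DT.const ⟨b, hb⟩))
  (Dfn.ex (P := fun v y => (y.1 ∈ (v 0).1 ∧ (fun x y => F x = y) y (v 4)))
  (Dfn.and (Dfn.mem (DT.var _) (DT.var _))
  (Dfn.subst2 (P := (fun x y => F x = y)) hF (DT.var _) (DT.var _)))))))
  (Dfn.isInsert (DT.var _) (DT.var _) (DT.var _))))))
    have hsz : ∀ g s : N, (∀ a' : N, (a'.1 ∈ s.1 ↔ (a'.1 ∈ b ∧ (∃ y : N, (y.1 ∈ g.1 ∧ F y = a'))))) →
        s = sz g := fun g s h => Subtype.ext (hN.ext' s.2 (sz g).2 fun z => (h z).trans (h1' g z).symm)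
    obtain ⟨C, hC, hC'⟩ := hN.exists_repl (F := fun g w : N => (∃ a : N, (∃ s : N, ((fun x y => F x = y) g a ∧ ((∀ a' : N, (a'.1 ∈ s.1 ↔ (a'.1 ∈ b ∧ ((∃ y : N, (y.1 ∈ g.1 ∧ (fun x y => F x = y) y a'))))))) ∧ w.1 = insert a.1 s.1)))) hHd α.2 (by
      rintro g _ w w' ⟨a, s, h4, h5, h6⟩ ⟨a', s', h4', h5', h6'⟩
      have e1 := hsz g s h5
      have e2 := hsz g s' h5'
      subst e1; subst e2
      have h4 : F g = a := h4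
      have h4' : F g = a' := h4'
      subst h4; subst h4'
      exact Subtype.ext (h6.trans h6'.symm))
    have hC2 : ∀ w : N, w.1 ∈ C ↔ ∃ g : N, g.1 ∈ α.1 ∧ w.1 = insert (F g).1 (sz g).1 := by
      intro w
      rw [hC']
      refine exists_congr fun g => and_congr_right fun hg => ?_
      constructor
      · rintro ⟨a, s, h4, h5, h6⟩
        have e1 := hsz g s h5
        subst e1
        have h4 : F g = a := h4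
        subst h4
        exact h6
      · intro h4
        exact ⟨F g, sz g, rfl, h1' g, h4⟩
    refine hch ⟨C, hC⟩ ?_ ?_ (sz α) ?_
    · intro s hs
      obtain ⟨g, hg, h4⟩ := (hC2 s).1 hs
      obtain ⟨h5, h6, s', h7, h8⟩ := hne g (hγ g hg)
      have e1 : s = s' := Subtype.ext (h4.trans h7.symm)
      subst e1
      refine ⟨h8, fun z hz => ?_⟩
      rw [h4, ZFSet.mem_insert_iff] at hz
      rcases hz with rfl | hz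
      · exact h5
      · exact hszb g hz
    · have hsub : ∀ g g' : N, g.1 ∈ g'.1 → g'.1 ∈ α.1 → insert (F g).1 (sz g).1 ⊆
          insert (F g').1 (sz g').1 := by
        intro g g' hgg hg' z hz
        rw [ZFSet.mem_insert_iff] at hz
        apply ZFSet.mem_insert_of_mem
        rcases hz with rfl | hz
        · have hg : g.1 ∈ α.1 := hα.mem_trans hgg hg'
          exact (h1' g' (F g)).2 ⟨(hne g (hγ g hg)).1, g, hgg, rfl⟩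
        · exact hmono g g' (hα.mem hg') hgg hz
      intro s hs t ht
      have hsN := hN.mem_of_mem hC hs
      have htN := hN.mem_of_mem hC ht
      obtain ⟨g, hg, h4⟩ := (hC2 ⟨s, hsN⟩).1 hs
      obtain ⟨g', hg', h4'⟩ := (hC2 ⟨t, htN⟩).1 ht
      have h4 : s = insert (F g).1 (sz g).1 := h4
      have h4' : t = insert (F g').1 (sz g').1 := h4'
      rcases (hα.mem hg).mem_trichotomous (hα.mem hg') with h5 | h5 | h5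
      · left; rw [h4, h4']; exact hsub g g' h5 hg'
      · left
        have e1 : g = g' := Subtype.ext h5
        subst e1
        rw [h4, h4']
      · right; rw [h4, h4']; exact hsub g' g h5 hg
    · apply hN.ext' (sz α).2 (hN.sUnion_mem hC)
      intro z
      rw [h1', ZFSet.mem_sUnion]
      constructor
      · rintro ⟨h4, y, h5, h6⟩
        have h7 : insert (F y).1 (sz y).1 ∈ N := hN.insert_mem (F y).2 (sz y).2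
        refine ⟨_, (hC2 ⟨_, h7⟩).2 ⟨y, h5, rfl⟩, ?_⟩
        rw [← h6]; exact ZFSet.mem_insert _ _
      · rintro ⟨w, hw, hz⟩
        have hwN := hN.mem_of_mem hC hw
        obtain ⟨g, hg, h4⟩ := (hC2 ⟨w, hwN⟩).1 hw
        have h4 : w = insert (F g).1 (sz g).1 := h4
        rw [h4, ZFSet.mem_insert_iff] at hz
        rcases hz with hz | hz
        · refine ⟨hz ▸ (hne g (hγ g hg)).1, g, hg, (Subtype.ext hz).symm⟩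
        · obtain ⟨h5, y, h6, h7⟩ := (h1' g z).1 hz
          exact ⟨h5, y, hα.mem_trans h6 hg, h7⟩
  -- some ordinal has an empty set of candidates
  have hex : ∃ α : N, α.1.IsOrdinal ∧ (Xz α).1 = ∅ := by
    by_contra hcon
    push Not at hcon
    have hOd : hN.Dfn (fun v : Fin 2 → N => (v 1).1.IsOrdinal ∧ F (v 1) = v 0) :=
      Dfn.and (Dfn.isOrd (DT.var _)) (Dfn.subst2 (P := fun x y => F x = y) hF (DT.var _) (DT.var _))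
    obtain ⟨O, hO, hO'⟩ := hN.exists_repl (F := fun a γ : N => γ.1.IsOrdinal ∧ F γ = a) hOd hb (by
      rintro a _ γ γ' ⟨h4, h5⟩ ⟨h4', h5'⟩
      rcases h4.mem_trichotomous h4' with h6 | h6 | h6
      · have h7 := hne γ' (hcon γ' h4')
        exact (h7.2.1 ((h1' γ' (F γ')).2 ⟨h7.1, γ, h6, h5.trans h5'.symm⟩)).elim
      · exact Subtype.ext h6
      · have h7 := hne γ (hcon γ h4)
        exact (h7.2.1 ((h1' γ (F γ)).2 ⟨h7.1, γ', h6, h5'.trans h5.symm⟩)).elim)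
    have hO2 : ∀ γ : N, γ.1 ∈ O ↔ γ.1.IsOrdinal := by
      intro γ
      rw [hO']
      constructor
      · rintro ⟨_, _, h4, _⟩; exact h4
      · intro h4; exact ⟨F γ, (hne γ (hcon γ h4)).1, h4, rfl⟩
    have hOo : O.IsOrdinal := by
      rw [ZFSet.isOrdinal_iff_forall_mem_isOrdinal]
      refine ⟨fun y hy z hz => ?_, fun y hy => (hO2 ⟨y, hN.mem_of_mem hO hy⟩).1 hy⟩
      have hyN := hN.mem_of_mem hO hy
      have h4 := (hO2 ⟨y, hyN⟩).1 hy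
      exact (hO2 ⟨z, hN.mem_of_mem hyN hz⟩).2 (h4.mem hz)
    exact ZFSet.mem_irrefl _ ((hO2 ⟨O, hO⟩).2 hOo)
  obtain ⟨α, hα, hmin⟩ := (mem_membership_wf (N := N)).has_min {α : N | α.1.IsOrdinal ∧ (Xz α).1 = ∅} hex
  refine ⟨sz α, hszb α, key α hα.1 fun γ hγ h0 => hmin γ ⟨hα.1.mem hγ, h0⟩ hγ, ?_⟩
  intro a ha s' hs' hSs
  by_contra hc2
  have haN := hN.mem_of_mem hb ha
  have h4 : a ∈ (Xz α).1 := (h2 α ⟨a, haN⟩).2 ⟨ha, hc2, s', hs', hSs⟩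
  rw [hα.2] at h4
  exact ZFSet.notMem_empty _ h4

end CTM

end Pool.Agent.H17.Omega
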