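import Pool.Agent.H17.Omega.CtmW
import Pool.Agent.H17.Omega.Tukey

/-!
# Countable transitive models of ZFC: the cumulative hierarchy and closure points
-/

set_option autoImplicit false
set_option linter.unusedVariables false
set_option linter.unusedSectionVars false
set_option linter.unusedSimpArgs false
set_option linter.deprecated false

universe u v w

namespace Pool.Agent.H17.Omega

namespace CTM

variable {N : Set ZFSet.{u}} (hN : CTM N)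

include hN in
/-- The rank function is definable in the model. -/
theorem exists_rankF : ∃ F : N → N, hN.Dfn (fun v : Fin 2 → N => F (v 0) = v 1) ∧
    ∀ x : N, (F x).1 = x.1.rank.toZFSet := by
  refine Exists.elim (recursion (hN := hN) (R := fun x y : N => x.1 ∈ y.1) (𝒢 := fun x r v =>
    ∀ z : N, z.1 ∈ v.1 ↔ ∃ y w, r y w ∧ (z = w ∨ z.1 ∈ w.1)) (Dfn.mem (DT.var _) (DT.var _)) ?_
    (fun x => ⟨x.1, x.2, fun y => Iff.rfl⟩) mem_membership_wf ?_ ?_) ?_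
  · exact (Dfn.all (P := fun v z => (z.1 ∈ (v 2).1 ↔ (∃ y : N, (∃ w : N, (((y.1 ∈ (v 0).1 ∧ ZFSet.pair y.1 w.1 ∈ (v 1).1)) ∧ ((z = w ∨ z.1 ∈ w.1)))))))
  (Dfn.iff (Dfn.mem (DT.var _) (DT.var _))
  (Dfn.ex (P := fun v y => (∃ w : N, (((y.1 ∈ (v 0).1 ∧ ZFSet.pair y.1 w.1 ∈ (v 1).1)) ∧ (((v 3) = w ∨ (v 3).1 ∈ w.1)))))
  (Dfn.ex (P := fun v w => ((((v 4).1 ∈ (v 0).1 ∧ ZFSet.pair (v 4).1 w.1 ∈ (v 1).1)) ∧ (((v 3) = w ∨ (v 3).1 ∈ w.1))))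
  (Dfn.and (Dfn.and (Dfn.mem (DT.var _) (DT.var _))
  (Dfn.pairMem (DT.var _) (DT.var _) (DT.var _)))
  (Dfn.or (Dfn.eq (DT.var _) (DT.var _))
  (Dfn.mem (DT.var _) (DT.var _))))))))
  · intro x r v v' h h'
    exact Subtype.ext (hN.ext' v.2 v'.2 fun z => (h z).trans (h' z).symm)
  · intro x h hd hu
    have hUN : ZFSet.sUnion (ZFSet.sUnion h.1) ∈ N := hN.sUnion_mem (hN.sUnion_mem h.2)
    have hVN := hN.union_mem hUN (hN.sUnion_mem hUN)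
    have hd' : hN.Dfn (fun v : Fin 1 → N => (∃ y : N, (∃ w : N, (((y.1 ∈ x.1 ∧ ZFSet.pair y.1 w.1 ∈ h.1)) ∧ (((v 0) = w ∨ (v 0).1 ∈ w.1)))))) := by
      exact (Dfn.ex (P := fun v y => (∃ w : N, (((y.1 ∈ x.1 ∧ ZFSet.pair y.1 w.1 ∈ h.1)) ∧ (((v 0) = w ∨ (v 0).1 ∈ w.1)))))
  (Dfn.ex (P := fun v w => ((((v 1).1 ∈ x.1 ∧ ZFSet.pair (v 1).1 w.1 ∈ h.1)) ∧ (((v 0) = w ∨ (v 0).1 ∈ w.1))))
  (Dfn.and (Dfn.and (Dfn.mem (DT.var _) (DT.const x))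
  (Dfn.pairMem (DT.var _) (DT.var _) (DT.const h)))
  (Dfn.or (Dfn.eq (DT.var _) (DT.var _))
  (Dfn.mem (DT.var _) (DT.var _))))))
    obtain ⟨b, hb, hb'⟩ := hN.exists_sep (P := fun z => (∃ y : N, (∃ w : N, (((y.1 ∈ x.1 ∧ ZFSet.pair y.1 w.1 ∈ h.1)) ∧ ((z = w ∨ z.1 ∈ w.1)))))) hd' hVN
    refine ⟨⟨b, hb⟩, fun z => ?_⟩
    rw [hb']
    constructor
    · rintro ⟨_, _, h1⟩; exact h1
    · rintro ⟨y, w, ⟨h1, h2⟩, h3⟩
      refine ⟨?_, z.2, y, w, ⟨h1, h2⟩, h3⟩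
      have h4 := (mem_sUnion_sUnion_pair h2).2
      rw [ZFSet.mem_union]
      rcases h3 with rfl | h3
      · exact Or.inl h4
      · exact Or.inr (ZFSet.mem_sUnion.2 ⟨_, h4, h3⟩)
  rintro F ⟨hF, hF'⟩
  refine ⟨F, hF, fun x => ?_⟩
  induction x using mem_membership_wf.induction with
  | _ x ih =>
    apply hN.ext' (F x).2 (hN.rank_mem x.2)
    intro z
    rw [hF' x z, Ordinal.mem_toZFSet_iff]
    constructor
    · rintro ⟨y, w, ⟨h1, rfl⟩, h2⟩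
      have h3 := ih y h1
      have h4 := ZFSet.rank_lt_of_mem h1
      rcases h2 with h2 | h2
      · exact ⟨_, h4, by rw [h2, h3]⟩
      · rw [h3, Ordinal.mem_toZFSet_iff] at h2
        obtain ⟨β, hβ, h5⟩ := h2
        exact ⟨β, hβ.trans h4, h5⟩
    · rintro ⟨β, hβ, h1⟩
      have h2 : ∃ y ∈ x.1, β ≤ y.rank := by
        by_contra hc
        push Not at hc
        exact absurd (ZFSet.rank_le_iff.2 fun {y} hy => hc y hy) (not_le.2 hβ)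
      obtain ⟨y, hy, h3⟩ := h2
      have hyN := hN.mem_of_mem x.2 hy
      refine ⟨⟨y, hyN⟩, F ⟨y, hyN⟩, ⟨hy, rfl⟩, ?_⟩
      have h4 := ih ⟨y, hyN⟩ hy
      rcases h3.lt_or_eq with h3 | h3
      · right
        rw [h4, Ordinal.mem_toZFSet_iff]
        exact ⟨β, h3, h1⟩
      · left
        apply Subtype.ext
        rw [h4, ← h3, h1]

include hN in
/-- The levels of the cumulative hierarchy of the model. -/
theorem exists_level (o : Ordinal.{u}) : o.toZFSet ∈ N → ∃ w ∈ N, ∀ z, z ∈ w ↔ z ∈ N ∧ z.rank < o := by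
  obtain ⟨F, hF, hF'⟩ := hN.exists_rankF
  induction o using WellFoundedLT.induction with
  | _ o ih =>
    intro ho
    have hd : hN.Dfn (fun v : Fin 2 → N => (∀ z : N, (z.1 ∈ (v 1).1 ↔ (∃ g : N, ((fun x y => F x = y) z g ∧ ((g.1 ∈ (v 0).1 ∨ g = (v 0)))))))) := by
      exact (Dfn.all (P := fun v z => (z.1 ∈ (v 1).1 ↔ (∃ g : N, ((fun x y => F x = y) z g ∧ ((g.1 ∈ (v 0).1 ∨ g = (v 0)))))))
  (Dfn.iff (Dfn.mem (DT.var _) (DT.var _))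
  (Dfn.ex (P := fun v g => ((fun x y => F x = y) (v 2) g ∧ ((g.1 ∈ (v 0).1 ∨ g = (v 0)))))
  (Dfn.and (Dfn.subst2 (P := (fun x y => F x = y)) hF (DT.var _) (DT.var _))
  (Dfn.or (Dfn.mem (DT.var _) (DT.var _))
  (Dfn.eq (DT.var _) (DT.var _)))))))
    obtain ⟨b, hb, hb'⟩ := hN.exists_repl (F := fun β p : N => (∀ z : N, (z.1 ∈ p.1 ↔ (∃ g : N, ((fun x y => F x = y) z g ∧ ((g.1 ∈ β.1 ∨ g = β))))))) hd ho (by
      intro β _ p p' h1 h2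
      exact Subtype.ext (hN.ext' p.2 p'.2 fun z => (h1 z).trans (h2 z).symm))
    have hPB : ∀ (γ : Ordinal.{u}) (β p : N), β.1 = γ.toZFSet → (((∀ z : N, (z.1 ∈ p.1 ↔ (∃ g : N, ((fun x y => F x = y) z g ∧ ((g.1 ∈ β.1 ∨ g = β))))))) ↔
        ∀ z : N, z.1 ∈ p.1 ↔ z.1.rank ≤ γ) := by
      intro γ β p hβ
      refine forall_congr' fun z => iff_congr Iff.rfl ?_
      constructor
      · rintro ⟨g, h1, h2⟩
        have h1 : F z = g := h1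
        subst h1
        rcases h2 with h2 | h2
        · rw [hF', hβ, Ordinal.toZFSet_mem_toZFSet_iff] at h2
          exact h2.le
        · have h3 := congrArg Subtype.val h2
          rw [hF', hβ] at h3
          exact (Ordinal.toZFSet_injective h3).le
      · intro h1
        refine ⟨F z, rfl, ?_⟩
        rcases h1.lt_or_eq with h1 | h1
        · left; rw [hF', hβ, Ordinal.toZFSet_mem_toZFSet_iff]; exact h1
        · right; apply Subtype.ext; rw [hF', hβ, h1]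
    refine ⟨ZFSet.sUnion b, hN.sUnion_mem hb, fun z => ?_⟩
    rw [ZFSet.mem_sUnion]
    constructor
    · rintro ⟨p, hp, hz⟩
      have hpN := hN.mem_of_mem hb hp
      obtain ⟨β, hβ, h1⟩ := (hb' ⟨p, hpN⟩).1 hp
      obtain ⟨γ, hγ, h2⟩ := Ordinal.mem_toZFSet_iff.1 hβ
      have hzN := hN.mem_of_mem hpN hz
      have h3 := ((hPB γ β ⟨p, hpN⟩ h2.symm).1 h1 ⟨z, hzN⟩).1 hz
      exact ⟨hzN, h3.trans_lt hγ⟩
    · rintro ⟨hzN, hz⟩
      obtain ⟨w, hw, hw'⟩ := ih _ hz (hN.toZFSet_mem_of_le hz.le ho)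
      obtain ⟨p, hp, hp'⟩ := hN.exists_pow hw
      have h1 : ∀ y, y ∈ p ↔ y ∈ N ∧ y.rank ≤ z.rank := by
        intro y
        rw [hp']
        refine and_congr_right fun hy => ?_
        rw [ZFSet.rank_le_iff]
        constructor
        · intro h t ht; exact ((hw' t).1 (h ht)).2
        · intro h t ht; exact (hw' t).2 ⟨hN.mem_of_mem hy ht, h ht⟩
      refine ⟨p, ?_, (h1 z).2 ⟨hzN, le_rfl⟩⟩
      refine (hb' ⟨p, hp⟩).2 ⟨⟨_, hN.rank_mem hzN⟩, Ordinal.toZFSet_mem_toZFSet_iff.2 hz, ?_⟩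
      refine (hPB z.rank ⟨_, hN.rank_mem hzN⟩ ⟨p, hp⟩ rfl).2 fun y => ?_
      rw [h1]
      exact ⟨fun h => h.2, fun h => ⟨y.2, h⟩⟩

include hN in
/-- Closure points: if every `z` in the model has some `w` with `Φ z w`, then there is a limit level
of the cumulative hierarchy of the model that is closed under this. -/
theorem exists_closed {Φ : N → N → Prop} (hΦ : hN.Dfn (fun v : Fin 2 → N => Φ (v 0) (v 1)))
    (htot : ∀ z, ∃ w, Φ z w) (x0 : N) : ∃ o : Ordinal.{u}, o.toZFSet ∈ N ∧ x0.1.rank < o ∧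
      (∀ γ < o, Order.succ γ < o) ∧ ∀ z : N, z.1.rank < o → ∃ w : N, w.1.rank < o ∧ Φ z w := by
  obtain ⟨F, hF, hF'⟩ := hN.exists_rankF
  have hFord : ∀ x : N, (F x).1.IsOrdinal := fun x => by
    rw [hF']; exact ZFSet.isOrdinal_toZFSet _
  let LW : N → N → Prop := fun z β => (((∃ w : N, ((fun x y => F x = y) w β ∧ Φ z w))) ∧ ((∀ β' : N, (β'.1 ∈ β.1 → (∀ w : N, ((fun x y => F x = y) w β' → ¬ (Φ z w)))))))
  have hLW : hN.Dfn (fun v : Fin 2 → N => LW (v 0) (v 1)) := by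
    exact (Dfn.and (Dfn.ex (P := fun v w => ((fun x y => F x = y) w (v 1) ∧ Φ (v 0) w))
  (Dfn.and (Dfn.subst2 (P := (fun x y => F x = y)) hF (DT.var _) (DT.var _))
  (Dfn.subst2 (P := Φ) hΦ (DT.var _) (DT.var _))))
  (Dfn.all (P := fun v β' => (β'.1 ∈ (v 1).1 → (∀ w : N, ((fun x y => F x = y) w β' → ¬ (Φ (v 0) w)))))
  (Dfn.imp (Dfn.mem (DT.var _) (DT.var _))
  (Dfn.all (P := fun v w => ((fun x y => F x = y) w (v 2) → ¬ (Φ (v 0) w)))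
  (Dfn.imp (Dfn.subst2 (P := (fun x y => F x = y)) hF (DT.var _) (DT.var _))
  (Dfn.not (Dfn.subst2 (P := Φ) hΦ (DT.var _) (DT.var _))))))))
  have hLWu : ∀ z β β' : N, LW z β → LW z β' → β = β' := by
    rintro z β β' ⟨⟨w, h1, h2⟩, h3⟩ ⟨⟨w', h1', h2'⟩, h3'⟩
    have o1 : β.1.IsOrdinal := by rw [← (h1 : F w = β)]; exact hFord w
    have o2 : β'.1.IsOrdinal := by rw [← (h1' : F w' = β')]; exact hFord w'
    rcases o1.mem_trichotomous o2 with h | h | h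
    · exact (h3' β h w h1 h2).elim
    · exact Subtype.ext h
    · exact (h3 β' h w' h1' h2').elim
  have hLWe : ∀ z : N, ∃ β, LW z β := by
    intro z
    obtain ⟨w, hw⟩ := htot z
    obtain ⟨β, ⟨w', h1, h2⟩, h3⟩ := (mem_membership_wf (N := N)).has_min
      {β : N | ∃ w, F w = β ∧ Φ z w} ⟨F w, w, rfl, hw⟩
    exact ⟨β, ⟨w', h1, h2⟩, fun β' hβ' w'' h4 h5 => h3 β' ⟨w'', h4, h5⟩ hβ'⟩
  have hLWo : ∀ z β : N, LW z β → β.1.IsOrdinal := by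
    rintro z β ⟨⟨w, h1, _⟩, _⟩
    rw [← (h1 : F w = β)]; exact hFord w
  let GR : N → N → Prop := fun α v0 => (∀ γ : N, (γ.1 ∈ v0.1 ↔ (γ.1 ∈ α.1 ∨ γ = α ∨ ((∃ z : N, (∃ g : N, (∃ β : N, ((fun x y => F x = y) z g ∧ g.1 ∈ α.1 ∧ LW z β ∧ ((γ.1 ∈ β.1 ∨ γ = β))))))))))
  have hGR : hN.Dfn (fun v : Fin 2 → N => GR (v 0) (v 1)) := by
    exact (Dfn.all (P := fun v γ => (γ.1 ∈ (v 1).1 ↔ (γ.1 ∈ (v 0).1 ∨ γ = (v 0) ∨ ((∃ z : N, (∃ g : N, (∃ β : N, ((fun x y => F x = y) z g ∧ g.1 ∈ (v 0).1 ∧ LW z β ∧ ((γ.1 ∈ β.1 ∨ γ = β))))))))))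
  (Dfn.iff (Dfn.mem (DT.var _) (DT.var _))
  (Dfn.or (Dfn.mem (DT.var _) (DT.var _))
  (Dfn.or (Dfn.eq (DT.var _) (DT.var _))
  (Dfn.ex (P := fun v z => (∃ g : N, (∃ β : N, ((fun x y => F x = y) z g ∧ g.1 ∈ (v 0).1 ∧ LW z β ∧ (((v 2).1 ∈ β.1 ∨ (v 2) = β))))))
  (Dfn.ex (P := fun v g => (∃ β : N, ((fun x y => F x = y) (v 3) g ∧ g.1 ∈ (v 0).1 ∧ LW (v 3) β ∧ (((v 2).1 ∈ β.1 ∨ (v 2) = β)))))
  (Dfn.ex (P := fun v β => ((fun x y => F x = y) (v 3) (v 4) ∧ (v 4).1 ∈ (v 0).1 ∧ LW (v 3) β ∧ (((v 2).1 ∈ β.1 ∨ (v 2) = β))))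
  (Dfn.and (Dfn.subst2 (P := (fun x y => F x = y)) hF (DT.var _) (DT.var _))
  (Dfn.and (Dfn.mem (DT.var _) (DT.var _))
  (Dfn.and (Dfn.subst2 (P := LW) hLW (DT.var _) (DT.var _))
  (Dfn.or (Dfn.mem (DT.var _) (DT.var _))
  (Dfn.eq (DT.var _) (DT.var _)))))))))))))
  have hGRu : ∀ α v v' : N, GR α v → GR α v' → v = v' := fun α v v' h h' =>
    Subtype.ext (hN.ext' v.2 v'.2 fun z => (h z).trans (h' z).symm)
  have hGRe : ∀ α : N, α.1.IsOrdinal → ∃ v, GR α v := by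
    intro α hα
    obtain ⟨w, hw, hw'⟩ := hN.exists_level α.1.rank (by rw [hα.toZFSet_rank_eq]; exact α.2)
    have hFα : ∀ z : N, (F z).1 ∈ α.1 ↔ z.1 ∈ w := by
      intro z
      rw [hw', hF', ← hα.toZFSet_rank_eq, Ordinal.toZFSet_mem_toZFSet_iff]
      simp [z.2, Ordinal.rank_toZFSet]
    obtain ⟨b, hb, hb'⟩ := hN.exists_repl (F := LW) hLW hw (fun z _ β β' => hLWu z β β')
    have hc : ∀ z, z ∈ ZFSet.sUnion b ∪ b ∪ insert α.1 α.1 ↔ z ∈ ZFSet.sUnion b ∨ z ∈ b ∨ z = α.1 ∨ z ∈ α.1 := by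
      intro z
      rw [ZFSet.mem_union, ZFSet.mem_union, ZFSet.mem_insert_iff, or_assoc]
    refine ⟨⟨ZFSet.sUnion b ∪ b ∪ insert α.1 α.1, hN.union_mem (hN.union_mem (hN.sUnion_mem hb) hb)
      (hN.insert_mem α.2 α.2)⟩, fun γ => ?_⟩
    rw [hc]
    constructor
    · rintro (h | h | h | h)
      · right; right
        obtain ⟨β, hβ, h1⟩ := ZFSet.mem_sUnion.1 h
        obtain ⟨z, hz, h2⟩ := (hb' ⟨β, hN.mem_of_mem hb hβ⟩).1 hβ
        exact ⟨z, F z, ⟨β, hN.mem_of_mem hb hβ⟩, rfl, (hFα z).2 hz, h2, Or.inl h1⟩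
      · right; right
        obtain ⟨z, hz, h2⟩ := (hb' γ).1 h
        exact ⟨z, F z, γ, rfl, (hFα z).2 hz, h2, Or.inr rfl⟩
      · right; left; exact Subtype.ext h
      · left; exact h
    · rintro (h | h | ⟨z, g, β, h1, h2, h3, h4⟩)
      · exact Or.inr (Or.inr (Or.inr h))
      · exact Or.inr (Or.inr (Or.inl (congrArg Subtype.val h)))
      · have h1 : F z = g := h1
        subst h1
        have h5 : β.1 ∈ b := (hb' β).2 ⟨z, (hFα z).1 h2, h3⟩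
        rcases h4 with h4 | h4
        · exact Or.inl (ZFSet.mem_sUnion.2 ⟨_, h5, h4⟩)
        · exact Or.inr (Or.inl (by rw [h4]; exact h5))
  have hGRo : ∀ α v : N, α.1.IsOrdinal → GR α v → v.1.IsOrdinal := by
    intro α v hα hv
    rw [ZFSet.isOrdinal_iff_forall_mem_isOrdinal]
    constructor
    · intro y hy z hz
      have hyN := hN.mem_of_mem v.2 hy
      have hzN := hN.mem_of_mem hyN hz
      refine (hv ⟨z, hzN⟩).2 ?_
      rcases (hv ⟨y, hyN⟩).1 hy with h | h | ⟨z', g, β, h1, h2, h3, h4⟩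
      · exact Or.inl (hα.mem_trans hz h)
      · have h : y = α.1 := congrArg Subtype.val h
        exact Or.inl (h ▸ hz)
      · refine Or.inr (Or.inr ⟨z', g, β, h1, h2, h3, Or.inl ?_⟩)
        rcases h4 with h4 | h4
        · exact (hLWo z' β h3).mem_trans hz h4
        · have h4 : y = β.1 := congrArg Subtype.val h4
          rw [← h4]; exact hz
    · intro y hy
      have hyN := hN.mem_of_mem v.2 hy
      rcases (hv ⟨y, hyN⟩).1 hy with h | h | ⟨z', g, β, h1, h2, h3, h4⟩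
      · exact hα.mem h
      · have h : y = α.1 := congrArg Subtype.val h
        rw [h]; exact hα
      · rcases h4 with h4 | h4
        · exact (hLWo z' β h3).mem h4
        · have h4 : y = β.1 := congrArg Subtype.val h4
          rw [h4]; exact hLWo z' β h3
  -- iteration
  let α0 : N := ⟨insert (F x0).1 (F x0).1, hN.insert_mem (F x0).2 (F x0).2⟩
  have hα0 : α0.1.IsOrdinal := ZFSet.isOrdinal_succ (hFord x0)
  obtain ⟨L, hL, hL'⟩ := recursion (hN := hN) (R := fun x y : N => x.1 ∈ y.1) (𝒢 := fun x r v0 =>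
    (∀ γ : N, (γ.1 ∈ v0.1 ↔ (γ.1 ∈ α0.1 ∨ (∃ y : N, (∃ w : N, (∃ t : N, (r y w ∧
      GR w t ∧ γ.1 ∈ t.1)))))))) (Dfn.mem (DT.var _) (DT.var _)) (by
      exact (Dfn.all (P := fun v γ => (γ.1 ∈ (v 2).1 ↔ (γ.1 ∈ α0.1 ∨ ((∃ y : N, (∃ w : N, (∃ t : N, (((y.1 ∈ (v 0).1 ∧ ZFSet.pair y.1 w.1 ∈ (v 1).1)) ∧ GR w t ∧ γ.1 ∈ t.1))))))))
  (Dfn.iff (Dfn.mem (DT.var _) (DT.var _))
  (Dfn.or (Dfn.mem (DT.var _) (DT.const α0))
  (Dfn.ex (P := fun v y => (∃ w : N, (∃ t : N, (((y.1 ∈ (v 0).1 ∧ ZFSet.pair y.1 w.1 ∈ (v 1).1)) ∧ GR w t ∧ (v 3).1 ∈ t.1))))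
  (Dfn.ex (P := fun v w => (∃ t : N, ((((v 4).1 ∈ (v 0).1 ∧ ZFSet.pair (v 4).1 w.1 ∈ (v 1).1)) ∧ GR w t ∧ (v 3).1 ∈ t.1)))
  (Dfn.ex (P := fun v t => ((((v 4).1 ∈ (v 0).1 ∧ ZFSet.pair (v 4).1 (v 5).1 ∈ (v 1).1)) ∧ GR (v 5) t ∧ (v 3).1 ∈ t.1))
  (Dfn.and (Dfn.and (Dfn.mem (DT.var _) (DT.var _))
  (Dfn.pairMem (DT.var _) (DT.var _) (DT.var _)))
  (Dfn.and (Dfn.subst2 (P := GR) hGR (DT.var _) (DT.var _))
  (Dfn.mem (DT.var _) (DT.var _)))))))))))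
    (fun x => ⟨x.1, x.2, fun y => Iff.rfl⟩) mem_membership_wf (by
      intro x r v v' h h'
      exact Subtype.ext (hN.ext' v.2 v'.2 fun z => (h z).trans (h' z).symm)) (by
      intro x h hd hu
      have hd0 : hN.Dfn (fun v : Fin 2 → N => (ZFSet.pair (v 0).1 (v 1).1 ∈ h.1)) :=
        Dfn.pairMem (DT.var _) (DT.var _) (DT.const h)
      obtain ⟨c, hc, hc'⟩ := hN.exists_repl (F := fun y w : N => ZFSet.pair y.1 w.1 ∈ h.1) hd0 x.2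
        (fun y hy w w' => hu y hy w w')
      obtain ⟨d, hd, hd'⟩ := hN.exists_repl (F := GR) hGR hc (fun w _ t t' => hGRu w t t')
      have key : ∀ γ : N, γ.1 ∈ ZFSet.sUnion d ↔ ∃ y w t : N, (y.1 ∈ x.1 ∧ ZFSet.pair y.1 w.1 ∈ h.1) ∧
          GR w t ∧ γ.1 ∈ t.1 := by
        intro γ
        rw [ZFSet.mem_sUnion]
        constructor
        · rintro ⟨t, ht, h1⟩
          obtain ⟨w, hw, h2⟩ := (hd' ⟨t, hN.mem_of_mem hd ht⟩).1 ht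
          obtain ⟨y, hy, h3⟩ := (hc' w).1 hw
          exact ⟨y, w, ⟨t, hN.mem_of_mem hd ht⟩, ⟨hy, h3⟩, h2, h1⟩
        · rintro ⟨y, w, t, ⟨h1, h2⟩, h3, h4⟩
          exact ⟨t.1, (hd' t).2 ⟨w, (hc' w).2 ⟨y, h1, h2⟩, h3⟩, h4⟩
      refine ⟨⟨α0.1 ∪ ZFSet.sUnion d, hN.union_mem α0.2 (hN.sUnion_mem hd)⟩, fun γ => ?_⟩
      rw [ZFSet.mem_union]
      exact or_congr Iff.rfl (key γ))
  have hL2 : ∀ x γ : N, γ.1 ∈ (L x).1 ↔ γ.1 ∈ α0.1 ∨ ∃ y : N, y.1 ∈ x.1 ∧ ∃ t, GR (L y) t ∧ γ.1 ∈ t.1 := by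
    intro x γ
    rw [hL' x γ]
    refine or_congr Iff.rfl ?_
    constructor
    · rintro ⟨y, w, t, ⟨h1, rfl⟩, h2, h3⟩; exact ⟨y, h1, t, h2, h3⟩
    · rintro ⟨y, h1, t, h2, h3⟩; exact ⟨y, L y, t, ⟨h1, rfl⟩, h2, h3⟩
  have hLo : ∀ x : N, (L x).1.IsOrdinal := by
    intro x
    induction x using mem_membership_wf.induction with
    | _ x ih =>
      rw [ZFSet.isOrdinal_iff_forall_mem_isOrdinal]
      constructor
      · intro y hy z hz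
        have hyN := hN.mem_of_mem (L x).2 hy
        have hzN := hN.mem_of_mem hyN hz
        refine (hL2 x ⟨z, hzN⟩).2 ?_
        rcases (hL2 x ⟨y, hyN⟩).1 hy with h | ⟨y', h1, t, h2, h3⟩
        · exact Or.inl (hα0.mem_trans hz h)
        · exact Or.inr ⟨y', h1, t, h2, (hGRo _ _ (ih y' h1) h2).mem_trans hz h3⟩
      · intro y hy
        have hyN := hN.mem_of_mem (L x).2 hy
        rcases (hL2 x ⟨y, hyN⟩).1 hy with h | ⟨y', h1, t, h2, h3⟩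
        · exact hα0.mem h
        · exact (hGRo _ _ (ih y' h1) h2).mem h3
  let ω : N := ⟨omZ, hN.omZ_mem⟩
  have hLω : ∀ γ : N, γ.1 ∈ (L ω).1 ↔ ∃ n : ℕ, γ.1 ∈ (L ⟨natZ n, hN.natZ_mem_N n⟩).1 := by
    intro γ
    rw [hL2]
    constructor
    · rintro (h | ⟨y, h1, t, h2, h3⟩)
      · exact ⟨0, (hL2 _ _).2 (Or.inl h)⟩
      · obtain ⟨n, hn⟩ := mem_omZ.1 h1
        refine ⟨n + 1, (hL2 _ _).2 (Or.inr ⟨y, ?_, t, h2, h3⟩)⟩
        rw [hn]; exact natZ_mem.2 (Nat.lt_succ_self n)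
    · rintro ⟨n, hn⟩
      rcases (hL2 _ _).1 hn with h | ⟨y, h1, t, h2, h3⟩
      · exact Or.inl h
      · refine Or.inr ⟨y, ?_, t, h2, h3⟩
        obtain ⟨m, _, hm⟩ := mem_natZ.1 h1
        rw [hm]; exact natZ_mem_omZ m
  have hinL : ∀ (n : ℕ) (γ t : N), GR (L ⟨natZ n, hN.natZ_mem_N n⟩) t → γ.1 ∈ t.1 → γ.1 ∈ (L ω).1 := by
    intro n γ t ht hγ
    exact (hL2 _ _).2 (Or.inr ⟨⟨natZ n, hN.natZ_mem_N n⟩, natZ_mem_omZ n, t, ht, hγ⟩)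
  have hrk : ∀ z : N, z.1.rank < (L ω).1.rank ↔ (F z).1 ∈ (L ω).1 := by
    intro z
    conv_rhs => rw [hF', ← (hLo ω).toZFSet_rank_eq]
    rw [Ordinal.toZFSet_mem_toZFSet_iff]
  refine ⟨(L ω).1.rank, by rw [(hLo ω).toZFSet_rank_eq]; exact (L ω).2, ?_, ?_, ?_⟩
  · rw [hrk]
    exact (hL2 _ _).2 (Or.inl (ZFSet.mem_insert _ _))
  · intro γ hγ
    have h1 : γ.toZFSet ∈ (L ω).1 := by
      rw [← (hLo ω).toZFSet_rank_eq, Ordinal.toZFSet_mem_toZFSet_iff]; exact hγ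
    have hγN : γ.toZFSet ∈ N := hN.mem_of_mem (L ω).2 h1
    obtain ⟨n, hn⟩ := (hLω ⟨_, hγN⟩).1 h1
    obtain ⟨t, ht⟩ := hGRe _ (hLo ⟨natZ n, hN.natZ_mem_N n⟩)
    have h2 := hinL n _ t ht ((ht (L ⟨natZ n, hN.natZ_mem_N n⟩)).2 (Or.inr (Or.inl rfl)))
    have h3 : (L ⟨natZ n, hN.natZ_mem_N n⟩).1.rank < (L ω).1.rank := ZFSet.rank_lt_of_mem h2
    have h4 : γ < (L ⟨natZ n, hN.natZ_mem_N n⟩).1.rank := by
      have := ZFSet.rank_lt_of_mem hn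
      rwa [Ordinal.rank_toZFSet] at this
    exact (Order.succ_le_of_lt h4).trans_lt h3
  · intro z hz
    rw [hrk] at hz
    obtain ⟨n, hn⟩ := (hLω (F z)).1 hz
    obtain ⟨t, ht⟩ := hGRe _ (hLo ⟨natZ n, hN.natZ_mem_N n⟩)
    obtain ⟨β, hβ⟩ := hLWe z
    obtain ⟨⟨w, h1, h2⟩, _⟩ := id hβ
    refine ⟨w, ?_, h2⟩
    rw [hrk]
    have h1 : F w = β := h1
    rw [h1]
    exact hinL n β t ht ((ht β).2 (Or.inr (Or.inr ⟨z, F z, β, rfl, hn, hβ, Or.inr rfl⟩)))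

end CTM

end Pool.Agent.H17.Omega
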