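import Pool.Agent.H17.Omega.CtmN

/-!
# Countable transitive models contain transitive closures and the pairing function
-/

set_option autoImplicit false
set_option linter.unusedVariables false
set_option linter.unusedSectionVars false
set_option linter.unusedSimpArgs false
set_option linter.deprecated false

universe u v w

namespace Pool.Agent.H17.Omega

/-- The order of pairs of natural numbers. -/
def sqN (a' b' a b : ℕ) : Prop :=
  ((a' < a ∨ a' < b) ∧ (b' < a ∨ b' < b)) ∨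
  (¬ ((a' < a ∨ a' < b) ∧ (b' < a ∨ b' < b)) ∧ ¬ ((a < a' ∨ a < b') ∧ (b < a' ∨ b < b')) ∧
    ((a' < b' ∧ ¬ a < b) ∨ (a' < b' ∧ a < b ∧ a' < a) ∨ (¬ a' < b' ∧ ¬ a < b ∧ b' < b)))

theorem sqN_iff (a' b' a b : ℕ) : sqN a' b' a b ↔ Nat.pair a' b' < Nat.pair a b := by
  have h1 : ∀ a b : ℕ, max a b * max a b ≤ Nat.pair a b := by
    intro a b
    unfold Nat.pair
    split_ifs with h
    · rw [max_eq_right h.le]; omega
    · rw [max_eq_left (not_lt.1 h)]; omega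
  have h2 : ∀ a b : ℕ, Nat.pair a b < (max a b + 1) * (max a b + 1) := by
    intro a b
    unfold Nat.pair
    split_ifs with h
    · rw [max_eq_right h.le]; nlinarith
    · rw [max_eq_left (not_lt.1 h)]; nlinarith
  rcases lt_trichotomy (max a' b') (max a b) with h | h | h
  · have h3 : Nat.pair a' b' < Nat.pair a b := by
      have := h2 a' b'
      have := h1 a b
      have h4 : (max a' b' + 1) * (max a' b' + 1) ≤ max a b * max a b :=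
        Nat.mul_le_mul h h
      omega
    refine ⟨fun _ => h3, fun _ => Or.inl ?_⟩
    rw [max_lt_iff, lt_max_iff, lt_max_iff] at h
    exact h
  · have h3 : ¬ ((a' < a ∨ a' < b) ∧ (b' < a ∨ b' < b)) := by
      intro h'
      rw [← lt_max_iff, ← lt_max_iff, ← max_lt_iff] at h'
      omega
    have h4 : ¬ ((a < a' ∨ a < b') ∧ (b < a' ∨ b < b')) := by
      intro h'
      rw [← lt_max_iff, ← lt_max_iff, ← max_lt_iff] at h'
      omega
    unfold sqN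
    simp only [h3, h4, false_or, not_false_eq_true, true_and]
    unfold Nat.pair
    split_ifs with h5 h6 h6
    · rw [max_eq_right h5.le, max_eq_right h6.le] at h
      subst h
      omega
    · rw [max_eq_right h5.le, max_eq_left (not_lt.1 h6)] at h
      subst h
      constructor
      · intro _; omega
      · intro _; omega
    · rw [max_eq_left (not_lt.1 h5), max_eq_right h6.le] at h
      subst h
      constructor
      · intro _; omega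
      · intro _; omega
    · rw [max_eq_left (not_lt.1 h5), max_eq_left (not_lt.1 h6)] at h
      subst h
      omega
  · have h3 : Nat.pair a b < Nat.pair a' b' := by
      have := h2 a b
      have := h1 a' b'
      have h4 : (max a b + 1) * (max a b + 1) ≤ max a' b' * max a' b' :=
        Nat.mul_le_mul h h
      omega
    have h5 : (a < a' ∨ a < b') ∧ (b < a' ∨ b < b') := by
      rw [max_lt_iff, lt_max_iff, lt_max_iff] at h
      exact h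
    have h6 : ¬ ((a' < a ∨ a' < b) ∧ (b' < a ∨ b' < b)) := by
      intro h'
      rw [← lt_max_iff, ← lt_max_iff, ← max_lt_iff] at h'
      omega
    constructor
    · rintro (h7 | h7)
      · exact (h6 h7).elim
      · exact (h7.2.1 h5).elim
    · intro h7; omega

/-- The same for sets. -/
def sqZ (a' b' a b : ZFSet.{u}) : Prop :=
  ((a' ∈ a ∨ a' ∈ b) ∧ (b' ∈ a ∨ b' ∈ b)) ∨
  (¬ ((a' ∈ a ∨ a' ∈ b) ∧ (b' ∈ a ∨ b' ∈ b)) ∧ ¬ ((a ∈ a' ∨ a ∈ b') ∧ (b ∈ a' ∨ b ∈ b')) ∧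
    ((a' ∈ b' ∧ ¬ a ∈ b) ∨ (a' ∈ b' ∧ a ∈ b ∧ a' ∈ a) ∨ (¬ a' ∈ b' ∧ ¬ a ∈ b ∧ b' ∈ b)))

theorem sqZ_iff (a' b' a b : ℕ) : sqZ (natZ.{u} a') (natZ b') (natZ a) (natZ b) ↔
    Nat.pair a' b' < Nat.pair a b := by
  rw [← sqN_iff]
  unfold sqZ sqN
  simp only [natZ_mem]

namespace CTM

variable {N : Set ZFSet.{u}} (hN : CTM N)

/-- The order on pairs in the model. -/
def sqR (y x : N) : Prop := ∃ a' b' : N, y.1 = ZFSet.pair a'.1 b'.1 ∧
  ∃ a b : N, x.1 = ZFSet.pair a.1 b.1 ∧ a'.1 ∈ omZ ∧ b'.1 ∈ omZ ∧ a.1 ∈ omZ ∧ b.1 ∈ omZ ∧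
    sqZ a'.1 b'.1 a.1 b.1

theorem sqR_dfn : hN.Dfn (fun v : Fin 2 → N => sqR (v 0) (v 1)) := by
  have hom : omZ ∈ N := hN.omZ_mem
  refine Dfn.exPair (P := fun v a' b' => ∃ a b : N, (v 1).1 = ZFSet.pair a.1 b.1 ∧ a'.1 ∈ omZ ∧
    b'.1 ∈ omZ ∧ a.1 ∈ omZ ∧ b.1 ∈ omZ ∧ sqZ a'.1 b'.1 a.1 b.1) (DT.var _) ?_
  refine Dfn.exPair (P := fun v a b => (v 2).1 ∈ omZ ∧
    (v 3).1 ∈ omZ ∧ a.1 ∈ omZ ∧ b.1 ∈ omZ ∧ sqZ (v 2).1 (v 3).1 a.1 b.1) (DT.var _) ?_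
  have hm : ∀ i : Fin 6, hN.Dfn (fun v : Fin 6 → N => (v i).1 ∈ omZ) := fun i =>
    Dfn.mem (t := fun _ => ⟨omZ, hom⟩) (DT.var i) (DT.const _)
  have hmm : ∀ i j : Fin 6, hN.Dfn (fun v : Fin 6 → N => (v i).1 ∈ (v j).1) := fun i j =>
    Dfn.mem (DT.var i) (DT.var j)
  refine Dfn.and (hm _) (Dfn.and (hm _) (Dfn.and (hm _) (Dfn.and (hm _) ?_)))
  unfold sqZ
  exact Dfn.or (Dfn.and (Dfn.or (hmm _ _) (hmm _ _)) (Dfn.or (hmm _ _) (hmm _ _)))
    (Dfn.and (Dfn.not (Dfn.and (Dfn.or (hmm _ _) (hmm _ _)) (Dfn.or (hmm _ _) (hmm _ _))))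
    (Dfn.and (Dfn.not (Dfn.and (Dfn.or (hmm _ _) (hmm _ _)) (Dfn.or (hmm _ _) (hmm _ _))))
    (Dfn.or (Dfn.and (hmm _ _) (Dfn.not (hmm _ _)))
    (Dfn.or (Dfn.and (hmm _ _) (Dfn.and (hmm _ _) (hmm _ _)))
      (Dfn.and (Dfn.not (hmm _ _)) (Dfn.and (Dfn.not (hmm _ _)) (hmm _ _)))))))

/-- Collapse recursion on a definable well-founded set-like relation. -/
theorem exists_collapse {R : N → N → Prop}
    (hR : hN.Dfn (fun v : Fin 2 → N => R (v 0) (v 1)))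
    (hset : ∀ x : N, ∃ e ∈ N, ∀ y : N, y.1 ∈ e ↔ R y x) (wf : WellFounded R) :
    ∃ F : N → N, hN.Dfn (fun v : Fin 2 → N => F (v 0) = v 1) ∧
      ∀ x z : N, z.1 ∈ (F x).1 ↔ ∃ y, R y x ∧ F y = z := by
  refine recursion (hN := hN) (R := R) (𝒢 := fun x r v => ∀ z : N, z.1 ∈ v.1 ↔ ∃ y, r y z)
    hR ?_ hset wf ?_ ?_
  · refine Dfn.all (P := fun v z => z.1 ∈ (v 2).1 ↔ ∃ y : N,
      (R y (v 0) ∧ ZFSet.pair y.1 z.1 ∈ (v 1).1)) ?_
    refine Dfn.iff (Dfn.mem (DT.var _) (DT.var _)) ?_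
    refine Dfn.ex (P := fun v y => (R y (v 0) ∧ ZFSet.pair y.1 (v 3).1 ∈ (v 1).1)) ?_
    exact Dfn.and (Dfn.subst2 (P := R) hR (DT.var _) (DT.var _))
      (Dfn.pairMem (DT.var _) (DT.var _) (DT.var _))
  · intro x r v v' h h'
    exact Subtype.ext (hN.ext' v.2 v'.2 fun z => (h z).trans (h' z).symm)
  · intro x h hd hu
    have hUN : ZFSet.sUnion (ZFSet.sUnion h.1) ∈ N := hN.sUnion_mem (hN.sUnion_mem h.2)
    have hd' : hN.Dfn (fun v : Fin 1 → N => ∃ y : N,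
        (R y x ∧ ZFSet.pair y.1 (v 0).1 ∈ h.1)) := by
      refine Dfn.ex (P := fun v y => (R y x ∧ ZFSet.pair y.1 (v 0).1 ∈ h.1)) ?_
      exact Dfn.and (Dfn.subst2 (P := R) hR (DT.var _) (DT.const x))
        (Dfn.pairMem (DT.var _) (DT.var _) (DT.const h))
    obtain ⟨b, hb, hb'⟩ := hN.exists_sep (P := fun z => ∃ y : N,
      (R y x ∧ ZFSet.pair y.1 z.1 ∈ h.1)) hd' hUN
    refine ⟨⟨b, hb⟩, fun z => ?_⟩
    rw [hb']
    constructor
    · rintro ⟨_, _, h1⟩; exact h1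
    · rintro ⟨y, h1, h2⟩
      exact ⟨(mem_sUnion_sUnion_pair h2).2, z.2, y, h1, h2⟩

include hN in
/-- The graph of the pairing function belongs to the model. -/
theorem pairGraph_mem : relThreeZ.{u} (fun k i j => k = Nat.pair i j) ∈ N := by
  have hom : omZ ∈ N := hN.omZ_mem
  have hoo : ZFSet.prod omZ omZ ∈ N := hN.prod_mem hom hom
  have hset : ∀ x : N, ∃ e ∈ N, ∀ y : N, y.1 ∈ e ↔ sqR y x := by
    intro x
    obtain ⟨e, he, he'⟩ := hN.exists_sep (P := fun y => sqR y x)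
      (Dfn.subst2 (P := sqR) hN.sqR_dfn (DT.var _) (DT.const x)) hoo
    refine ⟨e, he, fun y => ?_⟩
    rw [he']
    constructor
    · rintro ⟨_, _, h⟩; exact h
    · intro h
      refine ⟨?_, y.2, h⟩
      obtain ⟨a', b', h1, a, b, h2, h3, h4, _⟩ := h
      exact ZFSet.mem_prod.2 ⟨_, h3, _, h4, h1⟩
  have hpair : ∀ m n : ℕ, ZFSet.pair (natZ.{u} m) (natZ n) ∈ N := fun m n =>
    hN.pair_mem (hN.natZ_mem_N m) (hN.natZ_mem_N n)
  have hsqR : ∀ y : N, ∀ a b : ℕ, sqR y ⟨_, hpair a b⟩ ↔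
      ∃ a' b', y.1 = ZFSet.pair (natZ a') (natZ b') ∧ Nat.pair a' b' < Nat.pair a b := by
    intro y a b
    constructor
    · rintro ⟨a', b', h1, a1, b1, h2, h3, h4, h5, h6, h7⟩
      obtain ⟨m', hm'⟩ := mem_omZ.1 h3
      obtain ⟨n', hn'⟩ := mem_omZ.1 h4
      have h2' : ZFSet.pair (natZ a) (natZ b) = ZFSet.pair a1.1 b1.1 := h2
      rw [ZFSet.pair_inj] at h2'
      rw [← h2'.1, ← h2'.2, hm', hn', sqZ_iff] at h7
      exact ⟨m', n', by rw [h1, hm', hn'], h7⟩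
    · rintro ⟨a', b', h1, h2⟩
      exact ⟨⟨_, hN.natZ_mem_N a'⟩, ⟨_, hN.natZ_mem_N b'⟩, h1, ⟨_, hN.natZ_mem_N a⟩,
        ⟨_, hN.natZ_mem_N b⟩, rfl, natZ_mem_omZ _, natZ_mem_omZ _, natZ_mem_omZ _, natZ_mem_omZ _,
        (sqZ_iff _ _ _ _).2 h2⟩
  have hacc : ∀ k a b : ℕ, Nat.pair a b = k → Acc (sqR (N := N)) ⟨_, hpair a b⟩ := by
    intro k
    induction k using Nat.strong_induction_on with
    | _ k ih =>
      intro a b hk
      refine Acc.intro _ fun y hy => ?_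
      obtain ⟨a', b', h1, h2⟩ := (hsqR y a b).1 hy
      have : y = ⟨_, hpair a' b'⟩ := Subtype.ext h1
      rw [this]
      exact ih _ (hk ▸ h2) a' b' rfl
  have wf : WellFounded (sqR (N := N)) := by
    refine ⟨fun x => Acc.intro _ fun y hy => ?_⟩
    obtain ⟨a', b', h1, a, b, h2, h3, h4, _⟩ := hy
    obtain ⟨m', hm'⟩ := mem_omZ.1 h3
    obtain ⟨n', hn'⟩ := mem_omZ.1 h4
    have : y = ⟨_, hpair m' n'⟩ := Subtype.ext (by rw [h1, hm', hn'])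
    rw [this]
    exact hacc _ _ _ rfl
  obtain ⟨F, hF, hF'⟩ := hN.exists_collapse hN.sqR_dfn hset wf
  have key : ∀ k a b : ℕ, Nat.pair a b = k → (F ⟨_, hpair a b⟩).1 = natZ k := by
    intro k
    induction k using Nat.strong_induction_on with
    | _ k ih =>
      intro a b hk
      apply hN.ext' (F _).2 (hN.natZ_mem_N k)
      intro z
      rw [hF', mem_natZ]
      constructor
      · rintro ⟨y, hy, rfl⟩
        obtain ⟨a', b', h1, h2⟩ := (hsqR y a b).1 hy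
        have : y = ⟨_, hpair a' b'⟩ := Subtype.ext h1
        rw [this]
        exact ⟨_, hk ▸ h2, ih _ (hk ▸ h2) a' b' rfl⟩
      · rintro ⟨m, hm, hz⟩
        refine ⟨⟨_, hpair m.unpair.1 m.unpair.2⟩, (hsqR _ _ _).2 ⟨_, _, rfl, ?_⟩, ?_⟩
        · rw [Nat.pair_unpair, hk]; exact hm
        · apply Subtype.ext
          rw [hz]
          exact ih m hm _ _ (Nat.pair_unpair m)
  have hdef : hN.Dfn (fun v : Fin 1 → N => ∃ k x : N, (v 0).1 = ZFSet.pair k.1 x.1 ∧ F x = k) := by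
    refine Dfn.exPair (P := fun v k x => F x = k) (DT.var _) ?_
    exact Dfn.subst2 (P := fun x k => F x = k) hF (DT.var _) (DT.var _)
  obtain ⟨e, he, he'⟩ := hN.exists_sep (P := fun z => ∃ k x : N, z.1 = ZFSet.pair k.1 x.1 ∧ F x = k)
    hdef (hN.prod_mem hom hoo)
  have : relThreeZ.{u} (fun k i j => k = Nat.pair i j) = e := by
    ext z
    rw [mem_relThreeZ, he']
    constructor
    · rintro ⟨k, i, j, rfl, rfl⟩
      have hz : ZFSet.pair (natZ.{u} (Nat.pair i j)) (ZFSet.pair (natZ i) (natZ j)) ∈ N :=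
        hN.pair_mem (hN.natZ_mem_N _) (hpair i j)
      refine ⟨ZFSet.mem_prod.2 ⟨_, natZ_mem_omZ _, _, ZFSet.mem_prod.2 ⟨_, natZ_mem_omZ _, _,
        natZ_mem_omZ _, rfl⟩, rfl⟩, hz, ⟨_, hN.natZ_mem_N _⟩, ⟨_, hpair i j⟩, rfl, ?_⟩
      exact Subtype.ext (key _ i j rfl)
    · rintro ⟨h1, hzN, k, x, h2, h3⟩
      obtain ⟨k', hk', x', hx', h4⟩ := ZFSet.mem_prod.1 h1
      obtain ⟨i', hi', j', hj', h5⟩ := ZFSet.mem_prod.1 hx'
      obtain ⟨i, rfl⟩ := mem_omZ.1 hi'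
      obtain ⟨j, rfl⟩ := mem_omZ.1 hj'
      have h6 : z = ZFSet.pair k.1 x.1 := h2
      rw [h4, ZFSet.pair_inj] at h6
      have hx : x = ⟨_, hpair i j⟩ := Subtype.ext (h6.2.symm.trans h5)
      refine ⟨Nat.pair i j, i, j, rfl, ?_⟩
      rw [h4, h5, h6.1, ← h3, hx, key _ i j rfl]
  rw [this]
  exact he

include hN in
/-- Every element of the model is an element of a transitive set of the model. -/
theorem exists_transitive {x : ZFSet.{u}} (hx : x ∈ N) : ∃ t ∈ N, t.IsTransitive ∧ x ∈ t := by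
  refine Exists.elim (recursion (hN := hN) (R := fun x y : N => x.1 ∈ y.1) (𝒢 := fun x r v =>
    ∀ z : N, z.1 ∈ v.1 ↔ z = x ∨ ∃ y w, r y w ∧ z.1 ∈ w.1) (Dfn.mem (DT.var _) (DT.var _)) ?_
    (fun x => ⟨x.1, x.2, fun y => Iff.rfl⟩) mem_membership_wf ?_ ?_) ?_
  · refine Dfn.all (P := fun v z => z.1 ∈ (v 2).1 ↔ z = v 0 ∨ ∃ y w : N,
      (y.1 ∈ (v 0).1 ∧ ZFSet.pair y.1 w.1 ∈ (v 1).1) ∧ z.1 ∈ w.1) ?_
    refine Dfn.iff (Dfn.mem (DT.var _) (DT.var _)) (Dfn.or (Dfn.eq (DT.var _) (DT.var _)) ?_)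
    refine Dfn.ex (P := fun v y => ∃ w : N,
      (y.1 ∈ (v 0).1 ∧ ZFSet.pair y.1 w.1 ∈ (v 1).1) ∧ (v 3).1 ∈ w.1) ?_
    refine Dfn.ex (P := fun v w =>
      ((v 4).1 ∈ (v 0).1 ∧ ZFSet.pair (v 4).1 w.1 ∈ (v 1).1) ∧ (v 3).1 ∈ w.1) ?_
    exact Dfn.and (Dfn.and (Dfn.mem (DT.var _) (DT.var _))
      (Dfn.pairMem (DT.var _) (DT.var _) (DT.var _))) (Dfn.mem (DT.var _) (DT.var _))
  · intro x r v v' h h'
    exact Subtype.ext (hN.ext' v.2 v'.2 fun z => (h z).trans (h' z).symm)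
  · intro x h hd hu
    have hUN : ZFSet.sUnion (ZFSet.sUnion h.1) ∈ N := hN.sUnion_mem (hN.sUnion_mem h.2)
    have hVN := hN.insert_mem x.2 (hN.sUnion_mem hUN)
    have hd' : hN.Dfn (fun v : Fin 1 → N => v 0 = x ∨ ∃ y w : N,
      (y.1 ∈ x.1 ∧ ZFSet.pair y.1 w.1 ∈ h.1) ∧ (v 0).1 ∈ w.1) := by
      refine Dfn.or (Dfn.eq (DT.var _) (DT.const x)) ?_
      refine Dfn.ex (P := fun v y => ∃ w : N,
        (y.1 ∈ x.1 ∧ ZFSet.pair y.1 w.1 ∈ h.1) ∧ (v 0).1 ∈ w.1) ?_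
      refine Dfn.ex (P := fun v w =>
        ((v 1).1 ∈ x.1 ∧ ZFSet.pair (v 1).1 w.1 ∈ h.1) ∧ (v 0).1 ∈ w.1) ?_
      exact Dfn.and (Dfn.and (Dfn.mem (DT.var _) (DT.const x))
        (Dfn.pairMem (DT.var _) (DT.var _) (DT.const h))) (Dfn.mem (DT.var _) (DT.var _))
    obtain ⟨b, hb, hb'⟩ := hN.exists_sep (P := fun z => z = x ∨ ∃ y w : N,
      (y.1 ∈ x.1 ∧ ZFSet.pair y.1 w.1 ∈ h.1) ∧ z.1 ∈ w.1) hd' hVN
    refine ⟨⟨b, hb⟩, fun z => ?_⟩
    rw [hb']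
    constructor
    · rintro ⟨_, _, h1⟩; exact h1
    · intro h1
      refine ⟨?_, z.2, h1⟩
      rw [ZFSet.mem_insert_iff]
      rcases h1 with rfl | ⟨y, w, ⟨h1, h2⟩, h3⟩
      · exact Or.inl rfl
      · exact Or.inr (ZFSet.mem_sUnion.2 ⟨_, (mem_sUnion_sUnion_pair h2).2, h3⟩)
  rintro F ⟨hF, hF'⟩
  have hself : ∀ x : N, x.1 ∈ (F x).1 := fun x => (hF' x x).2 (Or.inl rfl)
  have htr : ∀ x : N, (F x).1.IsTransitive := by
    intro x
    induction x using mem_membership_wf.induction with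
    | _ x ih =>
      intro z hz w hw
      have hzN := hN.mem_of_mem (F x).2 hz
      have hwN := hN.mem_of_mem hzN hw
      rcases (hF' x ⟨z, hzN⟩).1 hz with h1 | ⟨y, w', ⟨h1, rfl⟩, h2⟩
      · have h1' : z = x.1 := congrArg Subtype.val h1
        refine (hF' x ⟨w, hwN⟩).2 (Or.inr ⟨⟨w, hwN⟩, F ⟨w, hwN⟩, ⟨h1' ▸ hw, rfl⟩, hself _⟩)
      · exact (hF' x ⟨w, hwN⟩).2 (Or.inr ⟨y, F y, ⟨h1, rfl⟩, ih y h1 z h2 hw⟩)
  exact ⟨(F ⟨x, hx⟩).1, (F _).2, htr _, hself _⟩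

end CTM

end Pool.Agent.H17.Omega
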