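import Pool.Agent.H17.Omega.CtmC

/-!
# Countable transitive models of ZFC: definable predicates
-/

set_option autoImplicit false
set_option linter.unusedVariables false
set_option linter.unusedSectionVars false
set_option linter.unusedSimpArgs false
set_option linter.deprecated false

universe u v w

namespace Pool.Agent.H17.Omega

theorem pair_eq_upair (x y : ZFSet.{u}) : ZFSet.pair x y = {{x, x}, {x, y}} := by
  rw [ZFSet.pair]; congr 1; ext z; simp

theorem mem_sUnion_sUnion_pair {x y h : ZFSet.{u}} (H : ZFSet.pair x y ∈ h) :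
    x ∈ ZFSet.sUnion (ZFSet.sUnion h) ∧ y ∈ ZFSet.sUnion (ZFSet.sUnion h) := by
  have h1 : ({x, y} : ZFSet.{u}) ∈ ZFSet.sUnion h :=
    ZFSet.mem_sUnion.2 ⟨_, H, by rw [ZFSet.pair, ZFSet.mem_pair]; exact Or.inr rfl⟩
  exact ⟨ZFSet.mem_sUnion.2 ⟨_, h1, by simp⟩, ZFSet.mem_sUnion.2 ⟨_, h1, by simp⟩⟩

theorem natZ_eq (n : ℕ) : natZ n = (n : Ordinal.{u}).toZFSet := by
  induction n with
  | zero => simp [natZ]
  | succ n ih =>
    rw [natZ, ih]
    push_cast
    rw [Ordinal.toZFSet_add_one]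

theorem natZ_inj {m n : ℕ} : natZ.{u} m = natZ n ↔ m = n := by
  rw [natZ_eq, natZ_eq, Ordinal.toZFSet_injective.eq_iff, Nat.cast_inj]

theorem natZ_mem {m n : ℕ} : natZ.{u} m ∈ natZ n ↔ m < n := by
  rw [natZ_eq, natZ_eq, Ordinal.toZFSet_mem_toZFSet_iff, Nat.cast_lt]

theorem mem_natZ {n : ℕ} {x : ZFSet.{u}} : x ∈ natZ n ↔ ∃ m < n, x = natZ m := by
  constructor
  · intro h
    rw [natZ_eq, Ordinal.mem_toZFSet_iff] at h
    obtain ⟨a, ha, rfl⟩ := h
    obtain ⟨m, rfl⟩ := Ordinal.lt_omega0.1 (ha.trans (Ordinal.natCast_lt_omega0 n))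
    exact ⟨m, by exact_mod_cast ha, (natZ_eq m).symm⟩
  · rintro ⟨m, hm, rfl⟩; exact natZ_mem.2 hm

/-- The set of natural numbers. -/
noncomputable def omZ : ZFSet.{u} := ZFSet.range natZ.{u}

theorem mem_omZ {x : ZFSet.{u}} : x ∈ omZ ↔ ∃ n, x = natZ n := by
  rw [omZ, ZFSet.mem_range]
  exact exists_congr fun n => eq_comm

theorem natZ_mem_omZ (n : ℕ) : natZ.{u} n ∈ omZ := mem_omZ.2 ⟨n, rfl⟩

/-- A first-order characterization of the natural numbers. -/
def IsNatZ (x : ZFSet.{u}) : Prop :=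
  (x = ∅ ∨ ∃ y ∈ x, x = insert y y) ∧ (∀ y ∈ x, y = ∅ ∨ ∃ z ∈ y, y = insert z z) ∧ x.IsTransitive

theorem isNatZ_iff {x : ZFSet.{u}} : IsNatZ x ↔ ∃ n, x = natZ n := by
  constructor
  · induction x using ZFSet.inductionOn with
    | _ x ih =>
      rintro ⟨h1, h2, h3⟩
      rcases h1 with rfl | ⟨y, hy, rfl⟩
      · exact ⟨0, rfl⟩
      · have hyt : y.IsTransitive := by
          intro z hz w hw
          have h4 : w ∈ insert y y := h3 z (ZFSet.mem_insert_of_mem _ hz) hw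
          rw [ZFSet.mem_insert_iff] at h4
          rcases h4 with rfl | h4
          · exact (ZFSet.mem_asymm hz hw).elim
          · exact h4
        obtain ⟨n, rfl⟩ := ih y hy ⟨h2 y hy, fun z hz => h2 z (ZFSet.mem_insert_of_mem _ hz), hyt⟩
        exact ⟨n + 1, rfl⟩
  · rintro ⟨n, rfl⟩
    refine ⟨?_, ?_, ?_⟩
    · cases n with
      | zero => exact Or.inl rfl
      | succ n => exact Or.inr ⟨natZ n, natZ_mem.2 (Nat.lt_succ_self n), rfl⟩
    · intro y hy
      obtain ⟨m, hm, rfl⟩ := mem_natZ.1 hy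
      cases m with
      | zero => exact Or.inl rfl
      | succ m => exact Or.inr ⟨natZ m, natZ_mem.2 (Nat.lt_succ_self m), rfl⟩
    · intro y hy z hz
      obtain ⟨m, hm, rfl⟩ := mem_natZ.1 hy
      obtain ⟨k, hk, rfl⟩ := mem_natZ.1 hz
      exact natZ_mem.2 (hk.trans hm)

namespace CTM

variable {N : Set ZFSet.{u}} {hN : CTM N}

namespace Dfn

variable {n : ℕ} {s t r : (Fin n → N) → N}

theorem eqv (hs : hN.DT s) (ht : hN.DT t) : hN.Dfn (fun v => (s v).1 = (t v).1) :=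
  (eq hs ht).congr fun v => Subtype.ext_iff

theorem ballZ {p : (Fin n → N) → ZFSet.{u} → Prop} (hs : hN.DT s)
    (h : hN.Dfn (fun v : Fin (n + 1) → N => p (fun i => v i.castSucc) (v (Fin.last n)).1)) :
    hN.Dfn (fun v => ∀ z ∈ (s v).1, p v z) :=
  (ball (P := fun v x => p v x.1) hs h).congr fun v =>
    ⟨fun h z hz => h ⟨z, hN.mem_of_mem (s v).2 hz⟩ hz, fun h z hz => h _ hz⟩

theorem bexZ {p : (Fin n → N) → ZFSet.{u} → Prop} (hs : hN.DT s)
    (h : hN.Dfn (fun v : Fin (n + 1) → N => p (fun i => v i.castSucc) (v (Fin.last n)).1)) :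
    hN.Dfn (fun v => ∃ z ∈ (s v).1, p v z) :=
  (bex (P := fun v x => p v x.1) hs h).congr fun v =>
    ⟨fun ⟨z, hz, h⟩ => ⟨z.1, hz, h⟩, fun ⟨z, hz, h⟩ => ⟨⟨z, hN.mem_of_mem (s v).2 hz⟩, hz, h⟩⟩

theorem subset (hs : hN.DT s) (ht : hN.DT t) : hN.Dfn (fun v => (s v).1 ⊆ (t v).1) :=
  (ballZ (p := fun v z => z ∈ (t v).1) hs (mem DT.last ht.lift)).congr fun v =>
    ⟨fun h z hz => h z hz, fun h z hz => h hz⟩

theorem isEmpty (hs : hN.DT s) : hN.Dfn (fun v => (s v).1 = ∅) :=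
  (ballZ (p := fun v z => False) hs false').congr fun v => (ZFSet.eq_empty _).symm

theorem isUpair (hr : hN.DT r) (hs : hN.DT s) (ht : hN.DT t) :
    hN.Dfn (fun v => (r v).1 = {(s v).1, (t v).1}) := by
  refine (((mem hs hr).and (mem ht hr)).and (ballZ (p := fun v z => z = (s v).1 ∨ z = (t v).1) hr
    ((eqv DT.last hs.lift).or (eqv DT.last ht.lift)))).congr fun v => ?_
  constructor
  · rintro ⟨⟨h1, h2⟩, h3⟩
    ext z
    rw [ZFSet.mem_pair]
    constructor
    · exact h3 z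
    · rintro (rfl | rfl) <;> assumption
  · intro h
    rw [h]
    simp

theorem isPair (hr : hN.DT r) (hs : hN.DT s) (ht : hN.DT t) :
    hN.Dfn (fun v => (r v).1 = ZFSet.pair (s v).1 (t v).1) := by
  refine (ex (P := fun v a => ∃ b : N, a.1 = {(s v).1, (s v).1} ∧ b.1 = {(s v).1, (t v).1} ∧
    (r v).1 = {a.1, b.1}) (ex ((isUpair (DT.var _) hs.lift.lift hs.lift.lift).and
    ((isUpair (DT.var _) hs.lift.lift ht.lift.lift).and
      (isUpair hr.lift.lift (DT.var _) (DT.var _)))))).congr fun v => ?_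
  rw [pair_eq_upair]
  constructor
  · rintro ⟨a, b, h1, h2, h3⟩
    rw [h3, h1, h2]
  · intro h
    exact ⟨⟨_, hN.upair_mem (s v).2 (s v).2⟩, ⟨_, hN.upair_mem (s v).2 (t v).2⟩, rfl, rfl, h⟩

theorem pairMem (hs : hN.DT s) (ht : hN.DT t) (hr : hN.DT r) :
    hN.Dfn (fun v => ZFSet.pair (s v).1 (t v).1 ∈ (r v).1) := by
  refine (bexZ (p := fun v z => z = ZFSet.pair (s v).1 (t v).1) hr
    (isPair DT.last hs.lift ht.lift)).congr fun v => ?_
  simp

/-- `∃ x y, r = (x, y) ∧ P x y`. -/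
theorem exPair {P : (Fin n → N) → N → N → Prop} (hr : hN.DT r)
    (h : hN.Dfn (fun v : Fin (n + 2) → N => P (fun i => v i.castSucc.castSucc)
      (v (Fin.last n).castSucc) (v (Fin.last (n + 1))))) :
    hN.Dfn (fun v => ∃ x y : N, (r v).1 = ZFSet.pair x.1 y.1 ∧ P v x y) :=
  ex (ex ((isPair hr.lift.lift (DT.var _) (DT.var _)).and h))

theorem isTrans (hs : hN.DT s) : hN.Dfn (fun v => (s v).1.IsTransitive) :=
  (ballZ (p := fun v y => y ⊆ (s v).1) hs (subset DT.last hs.lift)).congr fun v => Iff.rfl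

theorem isOrd (hs : hN.DT s) : hN.Dfn (fun v => (s v).1.IsOrdinal) :=
  ((isTrans hs).and (ballZ (p := fun v y => y.IsTransitive) hs (isTrans DT.last))).congr fun v =>
    ZFSet.isOrdinal_iff_forall_mem_isTransitive.symm

theorem isInsert (hr : hN.DT r) (hs : hN.DT s) (ht : hN.DT t) :
    hN.Dfn (fun v => (r v).1 = insert (s v).1 (t v).1) := by
  refine (((mem hs hr).and (subset ht hr)).and (ballZ (p := fun v z => z = (s v).1 ∨ z ∈ (t v).1) hr
    ((eqv DT.last hs.lift).or (mem DT.last ht.lift)))).congr fun v => ?_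
  constructor
  · rintro ⟨⟨h1, h2⟩, h3⟩
    ext z
    rw [ZFSet.mem_insert_iff]
    constructor
    · exact h3 z
    · rintro (rfl | h)
      · exact h1
      · exact h2 h
  · intro h
    rw [h]
    exact ⟨⟨ZFSet.mem_insert _ _, fun z hz => ZFSet.mem_insert_of_mem _ hz⟩, fun z hz => by
      rwa [ZFSet.mem_insert_iff] at hz⟩

theorem isNat (hs : hN.DT s) : hN.Dfn (fun v => IsNatZ (s v).1) :=
  ((isEmpty hs).or (bexZ (p := fun v y => (s v).1 = insert y y) hs
    (isInsert hs.lift DT.last DT.last))).and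
    ((ballZ (p := fun v y => y = ∅ ∨ ∃ z ∈ y, y = insert z z) hs
      ((isEmpty DT.last).or (bexZ (p := fun v z => (v (Fin.last n)).1 = insert z z) DT.last
        (isInsert (DT.var _) (DT.var _) (DT.var _))))).and (isTrans hs))

end Dfn

variable (hN)

include hN

theorem empty_mem : (∅ : ZFSet.{u}) ∈ N := by
  obtain ⟨a, ha⟩ := hN.nonempty
  have := hN.sep_mem (p := fun _ => False) Dfn.false' ha
  rwa [show ZFSet.sep (fun _ => False) a = ∅ from by ext z; simp] at this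

theorem natZ_mem_N (n : ℕ) : natZ n ∈ N := by
  induction n with
  | zero => exact hN.empty_mem
  | succ n ih => exact hN.insert_mem ih ih

theorem omZ_mem : omZ ∈ N := by
  obtain ⟨a, ⟨z, hz, hz'⟩, ha⟩ := hN.zfc _ ZFC.inf (fun _ => ⟨∅, hN.empty_mem⟩)
  have h0 : (∅ : ZFSet.{u}) ∈ a.1 := by
    have : z.1 = ∅ := by
      rw [ZFSet.eq_empty]
      intro y hy
      exact hz' ⟨y, hN.mem_of_mem z.2 hy⟩ hy
    rw [← this]; exact hz
  have hs : ∀ y ∈ a.1, insert y y ∈ a.1 := by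
    intro y hy
    have hyN := hN.mem_of_mem a.2 hy
    obtain ⟨w, hw, hw'⟩ := ha ⟨y, hyN⟩ hy
    have : w.1 = insert y y := by
      apply hN.ext' w.2 (hN.insert_mem hyN hyN)
      intro x
      rw [ZFSet.mem_insert_iff]
      constructor
      · intro hx
        rcases (hw' x).1 hx with h | h
        · exact Or.inr h
        · exact Or.inl (congrArg Subtype.val h)
      · rintro (h | h)
        · exact (hw' x).2 (Or.inr (Subtype.ext h))
        · exact (hw' x).2 (Or.inl h)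
    rw [← this]; exact hw
  have hn : ∀ n, natZ n ∈ a.1 := by
    intro n
    induction n with
    | zero => exact h0
    | succ n ih => exact hs _ ih
  have h1 := hN.sep_mem (p := IsNatZ) (Dfn.isNat (DT.var _)) a.2
  have h2 : ZFSet.sep IsNatZ a.1 = omZ := by
    ext z
    rw [ZFSet.mem_sep, mem_omZ, isNatZ_iff]
    constructor
    · exact fun h => h.2
    · rintro ⟨n, rfl⟩; exact ⟨hn n, n, rfl⟩
  rw [← h2]; exact h1

theorem prod_mem {a b : ZFSet.{u}} (ha : a ∈ N) (hb : b ∈ N) : ZFSet.prod a b ∈ N := by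
  obtain ⟨p1, hp1, h1⟩ := hN.exists_pow (hN.union_mem ha hb)
  obtain ⟨p2, hp2, h2⟩ := hN.exists_pow hp1
  have h3 := hN.sep_mem (p := fun z => ∃ x ∈ a, ∃ y ∈ b, z = ZFSet.pair x y)
    (Dfn.bexZ (DT.const ⟨a, ha⟩) (p := fun v x => ∃ y ∈ b, (v 0).1 = ZFSet.pair x y)
    (Dfn.bexZ (DT.const ⟨b, hb⟩) (p := fun v y => (v 0).1 = ZFSet.pair (v 1).1 y)
    (Dfn.isPair (DT.var _) (DT.var _) (DT.var _)))) hp2
  have h4 : ZFSet.sep (fun z => ∃ x ∈ a, ∃ y ∈ b, z = ZFSet.pair x y) p2 = ZFSet.prod a b := by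
    ext z
    rw [ZFSet.mem_sep, ZFSet.mem_prod]
    constructor
    · exact fun h => h.2
    · rintro ⟨x, hx, y, hy, rfl⟩
      refine ⟨(h2 _).2 ⟨hN.pair_mem (hN.mem_of_mem ha hx) (hN.mem_of_mem hb hy), ?_⟩,
        x, hx, y, hy, rfl⟩
      intro w hw
      rw [h1]
      have hxN := hN.mem_of_mem ha hx
      have hyN := hN.mem_of_mem hb hy
      rw [ZFSet.pair, ZFSet.mem_pair] at hw
      rcases hw with rfl | rfl
      · refine ⟨hN.singleton_mem hxN, fun w hw => ?_⟩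
        rw [ZFSet.mem_singleton] at hw
        subst hw
        exact ZFSet.mem_union.2 (Or.inl hx)
      · refine ⟨hN.upair_mem hxN hyN, fun w hw => ?_⟩
        rw [ZFSet.mem_pair] at hw
        rcases hw with rfl | rfl
        · exact ZFSet.mem_union.2 (Or.inl hx)
        · exact ZFSet.mem_union.2 (Or.inr hy)
  rw [← h4]; exact h3

end CTM

end Pool.Agent.H17.Omega
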