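import Pool.Agent.H17.Omega.CtmR

/-!
# Countable transitive models of ZFC: collapse of well-founded relations, ranks
-/

set_option autoImplicit false
set_option linter.unusedVariables false
set_option linter.unusedSectionVars false
set_option linter.unusedSimpArgs false
set_option linter.deprecated false

universe u v w

namespace Pool.Agent.H17.Omega

theorem isVal_iff {E : ℕ → ℕ → Prop} {x : ZFSet.{u}} {n : ℕ} : IsVal E x n ↔
    (∀ m, E m n → ∃ y ∈ x, IsVal E y m) ∧ ∀ y ∈ x, ∃ m, E m n ∧ IsVal E y m := by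
  rw [IsVal]
  simp

theorem IsVal.unique {E : ℕ → ℕ → Prop} {x : ZFSet.{u}} : ∀ {x' : ZFSet.{u}} {n : ℕ},
    IsVal E x n → IsVal E x' n → x = x' := by
  induction x using ZFSet.inductionOn with
  | _ x ih =>
    intro x' n h h'
    rw [isVal_iff] at h h'
    ext z
    constructor
    · intro hz
      obtain ⟨m, hm, hm'⟩ := h.2 z hz
      obtain ⟨y, hy, hy'⟩ := h'.1 m hm
      rw [ih z hz hm' hy']; exact hy
    · intro hz
      obtain ⟨m, hm, hm'⟩ := h'.2 z hz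
      obtain ⟨y, hy, hy'⟩ := h.1 m hm
      rw [← ih y hy hy' hm']; exact hy

namespace CTM

variable {N : Set ZFSet.{u}} (hN : CTM N)

include hN in
/-- The ordinals of `N`. -/
theorem toZFSet_mem_of_le {o o' : Ordinal.{u}} (h : o ≤ o') (ho : o'.toZFSet ∈ N) :
    o.toZFSet ∈ N := by
  rcases h.lt_or_eq with h | rfl
  · exact hN.mem_of_mem ho (Ordinal.toZFSet_mem_toZFSet_iff.2 h)
  · exact ho

theorem mem_membership_wf : WellFounded (fun x y : N => x.1 ∈ y.1) :=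
  InvImage.wf (fun x : N => x.1) ZFSet.mem_wf

/-- Every definable set-like well-founded relation of the model has a rank function with values in
the ordinals of the model. -/
theorem exists_rank {R : N → N → Prop}
    (hR : hN.Dfn (fun v : Fin 2 → N => R (v 0) (v 1)))
    (hset : ∀ x : N, ∃ e ∈ N, ∀ y : N, y.1 ∈ e ↔ R y x) (wf : WellFounded R) :
    ∃ F : N → Ordinal.{u}, (∀ x, (F x).toZFSet ∈ N) ∧ ∀ x y, R y x → F y < F x := by
  refine Exists.elim (recursion (hN := hN) (R := R) (𝒢 := fun x r v =>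
    ∀ z : N, z.1 ∈ v.1 ↔ ∃ y w, r y w ∧ (z = w ∨ z.1 ∈ w.1)) hR ?_ hset wf ?_ ?_) ?_
  · refine Dfn.all (P := fun v z => z.1 ∈ (v 2).1 ↔ ∃ y w : N,
      (R y (v 0) ∧ ZFSet.pair y.1 w.1 ∈ (v 1).1) ∧ (z = w ∨ z.1 ∈ w.1)) ?_
    refine Dfn.iff (Dfn.mem (DT.var _) (DT.var _)) ?_
    refine Dfn.ex (P := fun v y => ∃ w : N,
      (R y (v 0) ∧ ZFSet.pair y.1 w.1 ∈ (v 1).1) ∧ (v 3 = w ∨ (v 3).1 ∈ w.1)) ?_
    refine Dfn.ex (P := fun v w =>
      (R (v 4) (v 0) ∧ ZFSet.pair (v 4).1 w.1 ∈ (v 1).1) ∧ (v 3 = w ∨ (v 3).1 ∈ w.1)) ?_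
    refine Dfn.and (Dfn.and ?_ (Dfn.pairMem (DT.var _) (DT.var _) (DT.var _)))
      (Dfn.or (Dfn.eq (DT.var _) (DT.var _)) (Dfn.mem (DT.var _) (DT.var _)))
    exact Dfn.subst2 (P := R) hR (DT.var _) (DT.var _)
  · intro x r v v' h h'
    exact Subtype.ext (hN.ext' v.2 v'.2 fun z => (h z).trans (h' z).symm)
  · intro x h hd hu
    -- existence: a subset of a union
    have hUN : ZFSet.sUnion (ZFSet.sUnion h.1) ∈ N := hN.sUnion_mem (hN.sUnion_mem h.2)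
    have hVN := hN.union_mem hUN (hN.sUnion_mem hUN)
    have hd' : hN.Dfn (fun v : Fin 1 → N => ∃ y w : N,
      (R y x ∧ ZFSet.pair y.1 w.1 ∈ h.1) ∧ (v 0 = w ∨ (v 0).1 ∈ w.1)) := by
      refine Dfn.ex (P := fun v y => ∃ w : N,
        (R y x ∧ ZFSet.pair y.1 w.1 ∈ h.1) ∧ (v 0 = w ∨ (v 0).1 ∈ w.1)) ?_
      refine Dfn.ex (P := fun v w =>
        (R (v 1) x ∧ ZFSet.pair (v 1).1 w.1 ∈ h.1) ∧ (v 0 = w ∨ (v 0).1 ∈ w.1)) ?_
      refine Dfn.and (Dfn.and ?_ (Dfn.pairMem (DT.var _) (DT.var _) (DT.const h)))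
        (Dfn.or (Dfn.eq (DT.var _) (DT.var _)) (Dfn.mem (DT.var _) (DT.var _)))
      exact Dfn.subst2 (P := R) hR (DT.var _) (DT.const x)
    obtain ⟨b, hb, hb'⟩ := hN.exists_sep (P := fun z => ∃ y w : N,
      (R y x ∧ ZFSet.pair y.1 w.1 ∈ h.1) ∧ (z = w ∨ z.1 ∈ w.1)) hd' hVN
    refine ⟨⟨b, hb⟩, fun z => ?_⟩
    rw [hb']
    constructor
    · rintro ⟨_, _, h1⟩; exact h1
    · rintro ⟨y, w, ⟨h1, h2⟩, h3⟩
      refine ⟨?_, z.2, y, w, ⟨h1, h2⟩, h3⟩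
      have h4 := (mem_sUnion_sUnion_pair h2).2
      rw [ZFSet.mem_union]
      rcases h3 with rfl | h3
      · exact Or.inl h4
      · exact Or.inr (ZFSet.mem_sUnion.2 ⟨_, h4, h3⟩)
  rintro F ⟨hF, hF'⟩
  have hord : ∀ x, (F x).1.IsOrdinal := by
    intro x
    induction x using wf.induction with
    | _ x ih =>
      rw [ZFSet.isOrdinal_iff_forall_mem_isOrdinal]
      constructor
      · intro y hy z hz
        have hyN := hN.mem_of_mem (F x).2 hy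
        have hzN := hN.mem_of_mem hyN hz
        obtain ⟨a, w, ⟨h1, rfl⟩, h2⟩ := (hF' x ⟨y, hyN⟩).1 hy
        refine (hF' x ⟨z, hzN⟩).2 ⟨a, F a, ⟨h1, rfl⟩, Or.inr ?_⟩
        rcases h2 with h2 | h2
        · rw [← h2]; exact hz
        · exact (ih a h1).mem_trans hz h2
      · intro y hy
        have hyN := hN.mem_of_mem (F x).2 hy
        obtain ⟨a, w, ⟨h1, rfl⟩, h2⟩ := (hF' x ⟨y, hyN⟩).1 hy
        rcases h2 with h2 | h2
        · have : y = (F a).1 := congrArg Subtype.val h2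
          rw [this]; exact ih a h1
        · exact (ih a h1).mem h2
  refine ⟨fun x => (F x).1.rank, fun x => ?_, fun x y h => ?_⟩
  · rw [(hord x).toZFSet_rank_eq]; exact (F x).2
  · exact ZFSet.rank_lt_of_mem ((hF' x (F y)).2 ⟨y, F y, ⟨h, rfl⟩, Or.inl rfl⟩)

include hN in
/-- The rank of an element of the model is an ordinal of the model. -/
theorem rank_mem {x : ZFSet.{u}} (hx : x ∈ N) : x.rank.toZFSet ∈ N := by
  obtain ⟨F, hF, hF'⟩ := hN.exists_rank (R := fun x y => x.1 ∈ y.1)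
    (Dfn.mem (DT.var _) (DT.var _)) (fun x => ⟨x.1, x.2, fun y => Iff.rfl⟩) mem_membership_wf
  have : ∀ x : ZFSet.{u}, ∀ hx : x ∈ N, x.rank ≤ F ⟨x, hx⟩ := by
    intro x
    induction x using ZFSet.inductionOn with
    | _ x ih =>
      intro hx
      rw [ZFSet.rank_le_iff]
      intro y hy
      exact (ih y hy (hN.mem_of_mem hx hy)).trans_lt (hF' _ _ hy)
  exact hN.toZFSet_mem_of_le (this x hx) (hF _)

/-- The graph of a relation on `ℕ`. -/
noncomputable def relZ (E : ℕ → ℕ → Prop) : ZFSet.{u} :=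
  ZFSet.range (fun t : {t : ℕ × ℕ // E t.1 t.2} => ZFSet.pair (natZ t.1.1) (natZ t.1.2))

theorem mem_relZ {E : ℕ → ℕ → Prop} {z : ZFSet.{u}} :
    z ∈ relZ E ↔ ∃ m n, E m n ∧ z = ZFSet.pair (natZ m) (natZ n) := by
  rw [relZ, ZFSet.mem_range]
  constructor
  · rintro ⟨⟨⟨m, n⟩, h⟩, rfl⟩; exact ⟨m, n, h, rfl⟩
  · rintro ⟨m, n, h, rfl⟩; exact ⟨⟨⟨m, n⟩, h⟩, rfl⟩

theorem pair_mem_relZ {E : ℕ → ℕ → Prop} {m n : ℕ} :
    ZFSet.pair (natZ.{u} m) (natZ n) ∈ relZ E ↔ E m n := by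
  rw [mem_relZ]
  constructor
  · rintro ⟨a, b, h, h'⟩
    rw [ZFSet.pair_inj, natZ_inj, natZ_inj] at h'
    rw [h'.1, h'.2]; exact h
  · intro h; exact ⟨m, n, h, rfl⟩

include hN in
/-- Mostowski collapse of a well-founded relation on `ℕ` in a model. -/
theorem exists_isVal {E : ℕ → ℕ → Prop} (wf : WellFounded E) (hE : relZ.{u} E ∈ N) (n : ℕ) :
    ∃ x ∈ N, IsVal E x n := by
  have hset : ∀ x : N, ∃ e ∈ N, ∀ y : N, y.1 ∈ e ↔ ZFSet.pair y.1 x.1 ∈ relZ.{u} E := by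
    intro x
    refine ⟨_, hN.sep_mem (p := fun y => ZFSet.pair y x.1 ∈ relZ.{u} E)
      (Dfn.pairMem (DT.var _) (DT.const x) (DT.const ⟨_, hE⟩)) hN.omZ_mem, fun y => ?_⟩
    rw [ZFSet.mem_sep]
    refine ⟨fun h => h.2, fun h => ⟨?_, h⟩⟩
    obtain ⟨m, n, _, h'⟩ := mem_relZ.1 h
    rw [ZFSet.pair_inj] at h'
    rw [h'.1]; exact natZ_mem_omZ m
  have hacc : ∀ n, Acc (fun y x : N => ZFSet.pair y.1 x.1 ∈ relZ.{u} E) ⟨natZ n, hN.natZ_mem_N n⟩ := by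
    intro n
    induction n using wf.induction with
    | _ n ih =>
      refine Acc.intro _ fun y hy => ?_
      obtain ⟨m, k, hmk, h'⟩ := mem_relZ.1 hy
      rw [ZFSet.pair_inj] at h'
      have h1 := natZ_inj.1 h'.2
      subst h1
      have : y = ⟨natZ m, hN.natZ_mem_N m⟩ := Subtype.ext h'.1
      rw [this]
      exact ih m hmk
  have hwf : WellFounded (fun y x : N => ZFSet.pair y.1 x.1 ∈ relZ.{u} E) := by
    refine ⟨fun x => Acc.intro _ fun y hy => ?_⟩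
    obtain ⟨m, k, hmk, h'⟩ := mem_relZ.1 hy
    rw [ZFSet.pair_inj] at h'
    have : y = ⟨natZ m, hN.natZ_mem_N m⟩ := Subtype.ext h'.1
    rw [this]; exact hacc m
  have hRd : hN.Dfn (fun v : Fin 2 → N => ZFSet.pair (v 0).1 (v 1).1 ∈ relZ.{u} E) :=
    Dfn.pairMem (DT.var _) (DT.var _) (DT.const ⟨_, hE⟩)
  refine Exists.elim (recursion (hN := hN) (R := fun y x => ZFSet.pair y.1 x.1 ∈ relZ.{u} E)
    (𝒢 := fun x r v => ∀ z : N, z.1 ∈ v.1 ↔ ∃ y, r y z) hRd ?_ hset hwf ?_ ?_) ?_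
  · refine Dfn.all (P := fun v z => z.1 ∈ (v 2).1 ↔ ∃ y : N,
      (ZFSet.pair y.1 (v 0).1 ∈ relZ.{u} E ∧ ZFSet.pair y.1 z.1 ∈ (v 1).1)) ?_
    refine Dfn.iff (Dfn.mem (DT.var _) (DT.var _)) ?_
    refine Dfn.ex (P := fun v y =>
      (ZFSet.pair y.1 (v 0).1 ∈ relZ.{u} E ∧ ZFSet.pair y.1 (v 3).1 ∈ (v 1).1)) ?_
    exact Dfn.and (Dfn.pairMem (DT.var _) (DT.var _) (DT.const ⟨_, hE⟩))
      (Dfn.pairMem (DT.var _) (DT.var _) (DT.var _))
  · intro x r v v' h h'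
    exact Subtype.ext (hN.ext' v.2 v'.2 fun z => (h z).trans (h' z).symm)
  · intro x h hd hu
    have hUN : ZFSet.sUnion (ZFSet.sUnion h.1) ∈ N := hN.sUnion_mem (hN.sUnion_mem h.2)
    have hd' : hN.Dfn (fun v : Fin 1 → N => ∃ y : N,
        (ZFSet.pair y.1 x.1 ∈ relZ.{u} E ∧ ZFSet.pair y.1 (v 0).1 ∈ h.1)) := by
      refine Dfn.ex (P := fun v y =>
        (ZFSet.pair y.1 x.1 ∈ relZ.{u} E ∧ ZFSet.pair y.1 (v 0).1 ∈ h.1)) ?_
      exact Dfn.and (Dfn.pairMem (DT.var _) (DT.const x) (DT.const ⟨_, hE⟩))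
        (Dfn.pairMem (DT.var _) (DT.var _) (DT.const h))
    obtain ⟨b, hb, hb'⟩ := hN.exists_sep (P := fun z => ∃ y : N,
      (ZFSet.pair y.1 x.1 ∈ relZ.{u} E ∧ ZFSet.pair y.1 z.1 ∈ h.1)) hd' hUN
    refine ⟨⟨b, hb⟩, fun z => ?_⟩
    rw [hb']
    constructor
    · rintro ⟨_, _, h1⟩; exact h1
    · rintro ⟨y, h1, h2⟩
      exact ⟨(mem_sUnion_sUnion_pair h2).2, z.2, y, h1, h2⟩
  rintro F ⟨hF, hF'⟩
  have key : ∀ n, IsVal E (F ⟨natZ n, hN.natZ_mem_N n⟩).1 n := by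
    intro n
    induction n using wf.induction with
    | _ n ih =>
      rw [isVal_iff]
      constructor
      · intro m hm
        refine ⟨_, ?_, ih m hm⟩
        exact (hF' _ _).2 ⟨_, pair_mem_relZ.2 hm, rfl⟩
      · intro y hy
        have hyN := hN.mem_of_mem (F _).2 hy
        obtain ⟨a, ha, h2⟩ := (hF' _ ⟨y, hyN⟩).1 hy
        obtain ⟨m, k, hmk, h'⟩ := mem_relZ.1 ha
        rw [ZFSet.pair_inj] at h'
        have h3 := natZ_inj.1 h'.2
        subst h3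
        have h4 : a = ⟨natZ m, hN.natZ_mem_N m⟩ := Subtype.ext h'.1
        refine ⟨m, hmk, ?_⟩
        have h5 : y = (F ⟨natZ m, hN.natZ_mem_N m⟩).1 := by
          rw [← h4, h2]
        rw [h5]
        exact ih m hmk
  exact ⟨_, (F _).2, key n⟩

end CTM

end Pool.Agent.H17.Omega
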