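import Pool.Agent.H17.Omega.MPair

/-!
# Forcing in a countable transitive model
-/

set_option autoImplicit false
set_option linter.unusedVariables false
set_option linter.unusedSectionVars false
set_option linter.unusedSimpArgs false
set_option linter.deprecated false

universe u v w

namespace Pool.Agent.H17.Omega

open Name

section nm

variable {Q : Type u} (c : Q → ZFSet.{u})

theorem nm_def (τ : ZFSet.{u}) : nm c τ =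
    Name.mk (Shrink.{u} {t : ZFSet.{u} × Q // ZFSet.pair t.1 (c t.2) ∈ τ})
    (fun i => nm c ((equivShrink _).symm i).1.1)
    (fun i => ((equivShrink _).symm i).1.2) := by
  rw [nm]

theorem nm_el (τ : ZFSet.{u}) (i : (nm c τ).ι) :
    ∃ a, ZFSet.pair a (c ((nm c τ).cd i)) ∈ τ ∧ (nm c τ).el i = nm c a := by
  revert i
  rw [nm_def]
  intro i
  exact ⟨_, ((equivShrink _).symm i).2, rfl⟩

theorem nm_exists {τ a : ZFSet.{u}} {p : Q} (h : ZFSet.pair a (c p) ∈ τ) :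
    ∃ i, (nm c τ).el i = nm c a ∧ (nm c τ).cd i = p := by
  rw [nm_def]
  refine ⟨equivShrink _ ⟨(a, p), h⟩, ?_, ?_⟩
  · simp [Equiv.symm_apply_apply]
  · simp [Equiv.symm_apply_apply]

variable [Preorder Q]

theorem feq_nm {a b : ZFSet.{u}} {q : Q} : feq (nm c a) (nm c b) q ↔
    (∀ a' p, ZFSet.pair a' (c p) ∈ a → ∀ q' ≤ q, q' ≤ p → ∃ q'' ≤ q', ∃ b' r,
      ZFSet.pair b' (c r) ∈ b ∧ q'' ≤ r ∧ feq (nm c a') (nm c b') q'') ∧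
    (∀ b' r, ZFSet.pair b' (c r) ∈ b → ∀ q' ≤ q, q' ≤ r → ∃ q'' ≤ q', ∃ a' p,
      ZFSet.pair a' (c p) ∈ a ∧ q'' ≤ p ∧ feq (nm c a') (nm c b') q'') := by
  rw [feq_def]
  refine and_congr ⟨fun h a' p hp q' hq' hqp => ?_, fun h i q' hq' hi => ?_⟩
    ⟨fun h a' p hp q' hq' hqp => ?_, fun h i q' hq' hi => ?_⟩
  · obtain ⟨i, h1, h2⟩ := nm_exists c hp
    obtain ⟨q'', h3, j, h4, h5⟩ := h i q' hq' (by rw [h2]; exact hqp)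
    obtain ⟨b', h6, h7⟩ := nm_el c b j
    exact ⟨q'', h3, b', _, h6, h4, by rw [← h1, ← h7]; exact h5⟩
  · obtain ⟨a', h1, h2⟩ := nm_el c a i
    obtain ⟨q'', h3, b', r, h4, h5, h6⟩ := h a' _ h1 q' hq' hi
    obtain ⟨j, h7, h8⟩ := nm_exists c h4
    exact ⟨q'', h3, j, by rw [h8]; exact h5, by rw [h2, h7]; exact h6⟩
  · obtain ⟨i, h1, h2⟩ := nm_exists c hp
    obtain ⟨q'', h3, j, h4, h5⟩ := h i q' hq' (by rw [h2]; exact hqp)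
    obtain ⟨b', h6, h7⟩ := nm_el c a j
    exact ⟨q'', h3, b', _, h6, h4, by rw [← h1, ← h7]; exact h5⟩
  · obtain ⟨a', h1, h2⟩ := nm_el c b i
    obtain ⟨q'', h3, b', r, h4, h5, h6⟩ := h a' _ h1 q' hq' hi
    obtain ⟨j, h7, h8⟩ := nm_exists c h4
    exact ⟨q'', h3, j, by rw [h8]; exact h5, by rw [h2, h7]; exact h6⟩

theorem fmem_nm {X : Name Q} {b : ZFSet.{u}} {q : Q} : fmem X (nm c b) q ↔
    ∀ q' ≤ q, ∃ q'' ≤ q', ∃ b' r, ZFSet.pair b' (c r) ∈ b ∧ q'' ≤ r ∧ feq X (nm c b') q'' := by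
  refine ⟨fun h q' hq' => ?_, fun h q' hq' => ?_⟩
  · obtain ⟨q'', h1, j, h2, h3⟩ := h q' hq'
    obtain ⟨b', h4, h5⟩ := nm_el c b j
    exact ⟨q'', h1, b', _, h4, h2, h5 ▸ h3⟩
  · obtain ⟨q'', h1, b', r, h2, h3, h4⟩ := h q' hq'
    obtain ⟨j, h5, h6⟩ := nm_exists c h2
    exact ⟨q'', h1, j, by rw [h6]; exact h3, by rw [h5]; exact h4⟩

end nm

namespace CTM

variable {N : Set ZFSet.{u}} {hN : CTM N}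

namespace Dfn

variable {n : ℕ} {s t r s4 s5 : (Fin n → N) → N}

theorem subst4 {P : N → N → N → N → Prop}
    (h : hN.Dfn (fun v : Fin 4 → N => P (v 0) (v 1) (v 2) (v 3)))
    (hs : hN.DT s) (ht : hN.DT t) (hr : hN.DT r) (h4 : hN.DT s4) :
    hN.Dfn (fun v => P (s v) (t v) (r v) (s4 v)) := by
  have h1 := h.shift n
  refine (ex (P := fun v x => ∃ y, ∃ z, ∃ w, x = s v ∧ y = t v ∧ z = r v ∧ w = s4 v ∧ P x y z w)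
    (ex (ex (ex ((eq (DT.var _) hs.lift.lift.lift.lift).and
    ((eq (DT.var _) ht.lift.lift.lift.lift).and
    ((eq (DT.var _) hr.lift.lift.lift.lift).and
    ((eq (DT.var _) h4.lift.lift.lift.lift).and ?_)))))))).congr fun v => ?_
  · exact h1
  · constructor
    · rintro ⟨x, y, z, w, rfl, rfl, rfl, rfl, h⟩; exact h
    · intro h; exact ⟨_, _, _, _, rfl, rfl, rfl, rfl, h⟩

theorem subst5 {P : N → N → N → N → N → Prop}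
    (h : hN.Dfn (fun v : Fin 5 → N => P (v 0) (v 1) (v 2) (v 3) (v 4)))
    (hs : hN.DT s) (ht : hN.DT t) (hr : hN.DT r) (h4 : hN.DT s4) (h5 : hN.DT s5) :
    hN.Dfn (fun v => P (s v) (t v) (r v) (s4 v) (s5 v)) := by
  have h1 := h.shift n
  refine (ex (P := fun v x => ∃ y, ∃ z, ∃ w, ∃ w', x = s v ∧ y = t v ∧ z = r v ∧ w = s4 v ∧
      w' = s5 v ∧ P x y z w w')
    (ex (ex (ex (ex ((eq (DT.var _) hs.lift.lift.lift.lift.lift).and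
    ((eq (DT.var _) ht.lift.lift.lift.lift.lift).and
    ((eq (DT.var _) hr.lift.lift.lift.lift.lift).and
    ((eq (DT.var _) h4.lift.lift.lift.lift.lift).and
    ((eq (DT.var _) h5.lift.lift.lift.lift.lift).and ?_)))))))))).congr fun v => ?_
  · exact h1
  · constructor
    · rintro ⟨x, y, z, w, w', rfl, rfl, rfl, rfl, rfl, h⟩; exact h
    · intro h; exact ⟨_, _, _, _, _, rfl, rfl, rfl, rfl, rfl, h⟩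

end Dfn

section Forcing

variable {P R : ZFSet.{u}} (hP : P ∈ N) (hR : R ∈ N)

/-- The relation used to define the forcing relation for equality. -/
def RD (P : ZFSet.{u}) (y x : N) : Prop :=
  ∃ a1 b1 : N, y.1 = ZFSet.pair a1.1 b1.1 ∧ ∃ a b : N, x.1 = ZFSet.pair a.1 b.1 ∧
    (∃ p ∈ P, ZFSet.pair a1.1 p ∈ a.1) ∧ (∃ p ∈ P, ZFSet.pair b1.1 p ∈ b.1)

include hP in
theorem RD_dfn : hN.Dfn (fun v : Fin 2 → N => RD P (v 0) (v 1)) := by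
  show hN.Dfn (fun v : Fin 2 → N => (∃ a1 : N, (∃ b1 : N, ((v 0).1 = ZFSet.pair a1.1 b1.1 ∧ ((∃ a : N, (∃ b : N, ((v 1).1 = ZFSet.pair a.1 b.1 ∧ ((∃ p ∈ P, ZFSet.pair a1.1 p ∈ a.1)) ∧ ((∃ p ∈ P, ZFSet.pair b1.1 p ∈ b.1))))))))))
  exact (Dfn.ex (P := fun v a1 => (∃ b1 : N, ((v 0).1 = ZFSet.pair a1.1 b1.1 ∧ ((∃ a : N, (∃ b : N, ((v 1).1 = ZFSet.pair a.1 b.1 ∧ ((∃ p ∈ P, ZFSet.pair a1.1 p ∈ a.1)) ∧ ((∃ p ∈ P, ZFSet.pair b1.1 p ∈ b.1)))))))))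
  (Dfn.ex (P := fun v b1 => ((v 0).1 = ZFSet.pair (v 2).1 b1.1 ∧ ((∃ a : N, (∃ b : N, ((v 1).1 = ZFSet.pair a.1 b.1 ∧ ((∃ p ∈ P, ZFSet.pair (v 2).1 p ∈ a.1)) ∧ ((∃ p ∈ P, ZFSet.pair b1.1 p ∈ b.1))))))))
  (Dfn.and (Dfn.isPair (DT.var _) (DT.var _) (DT.var _))
  (Dfn.ex (P := fun v a => (∃ b : N, ((v 1).1 = ZFSet.pair a.1 b.1 ∧ ((∃ p ∈ P, ZFSet.pair (v 2).1 p ∈ a.1)) ∧ ((∃ p ∈ P, ZFSet.pair (v 3).1 p ∈ b.1)))))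
  (Dfn.ex (P := fun v b => ((v 1).1 = ZFSet.pair (v 4).1 b.1 ∧ ((∃ p ∈ P, ZFSet.pair (v 2).1 p ∈ (v 4).1)) ∧ ((∃ p ∈ P, ZFSet.pair (v 3).1 p ∈ b.1))))
  (Dfn.and (Dfn.isPair (DT.var _) (DT.var _) (DT.var _))
  (Dfn.and (Dfn.bexZ (s := fun _ => ⟨P, hP⟩) (p := fun v p => ZFSet.pair (v 2).1 p ∈ (v 4).1) (DT.const ⟨P, hP⟩)
  (Dfn.pairMem (DT.var _) (DT.var _) (DT.var _)))
  (Dfn.bexZ (s := fun _ => ⟨P, hP⟩) (p := fun v p => ZFSet.pair (v 3).1 p ∈ (v 5).1) (DT.const ⟨P, hP⟩)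
  (Dfn.pairMem (DT.var _) (DT.var _) (DT.var _))))))))))

/-- The clauses of the definition. -/
def KD (P R : ZFSet.{u}) (x h w : N) : Prop :=
  ∃ a b : N, x.1 = ZFSet.pair a.1 b.1 ∧
    (∀ a1 p : N, ZFSet.pair a1.1 p.1 ∈ a.1 → p.1 ∈ P → ∀ q1 : N, ZFSet.pair q1.1 w.1 ∈ R →
      ZFSet.pair q1.1 p.1 ∈ R → ∃ q2 : N, ZFSet.pair q2.1 q1.1 ∈ R ∧ ∃ b1 r : N,
      ZFSet.pair b1.1 r.1 ∈ b.1 ∧ ZFSet.pair q2.1 r.1 ∈ R ∧ ∃ e s : N,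
      e.1 = ZFSet.pair a1.1 b1.1 ∧ (RD P e x ∧ ZFSet.pair e.1 s.1 ∈ h.1) ∧ q2.1 ∈ s.1) ∧
    (∀ b1 r : N, ZFSet.pair b1.1 r.1 ∈ b.1 → r.1 ∈ P → ∀ q1 : N, ZFSet.pair q1.1 w.1 ∈ R →
      ZFSet.pair q1.1 r.1 ∈ R → ∃ q2 : N, ZFSet.pair q2.1 q1.1 ∈ R ∧ ∃ a1 p : N,
      ZFSet.pair a1.1 p.1 ∈ a.1 ∧ ZFSet.pair q2.1 p.1 ∈ R ∧ ∃ e s : N,
      e.1 = ZFSet.pair a1.1 b1.1 ∧ (RD P e x ∧ ZFSet.pair e.1 s.1 ∈ h.1) ∧ q2.1 ∈ s.1)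

include hP hR in
theorem KD_dfn : hN.Dfn (fun v : Fin 3 → N => KD P R (v 0) (v 1) (v 2)) := by
  show hN.Dfn (fun v : Fin 3 → N => (∃ a : N, (∃ b : N, ((v 0).1 = ZFSet.pair a.1 b.1 ∧ ((∀ a1 : N, (∀ p : N, (ZFSet.pair a1.1 p.1 ∈ a.1 → (p.1 ∈ P → (∀ q1 : N, (ZFSet.pair q1.1 (v 2).1 ∈ R → (ZFSet.pair q1.1 p.1 ∈ R → (∃ q2 : N, (ZFSet.pair q2.1 q1.1 ∈ R ∧ ((∃ b1 : N, (∃ r : N, (ZFSet.pair b1.1 r.1 ∈ b.1 ∧ ZFSet.pair q2.1 r.1 ∈ R ∧ ((∃ e : N, (∃ s : N, (e.1 = ZFSet.pair a1.1 b1.1 ∧ ((RD P e (v 0) ∧ ZFSet.pair e.1 s.1 ∈ (v 1).1)) ∧ q2.1 ∈ s.1)))))))))))))))))) ∧ ((∀ b1 : N, (∀ r : N, (ZFSet.pair b1.1 r.1 ∈ b.1 → (r.1 ∈ P → (∀ q1 : N, (ZFSet.pair q1.1 (v 2).1 ∈ R → (ZFSet.pair q1.1 r.1 ∈ R → (∃ q2 : N, (ZFSet.pair q2.1 q1.1 ∈ R ∧ ((∃ a1 : N, (∃ p : N, (ZFSet.pair a1.1 p.1 ∈ a.1 ∧ ZFSet.pair q2.1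 p.1 ∈ R ∧ ((∃ e : N, (∃ s : N, (e.1 = ZFSet.pair a1.1 b1.1 ∧ ((RD P e (v 0) ∧ ZFSet.pair e.1 s.1 ∈ (v 1).1)) ∧ q2.1 ∈ s.1))))))))))))))))))))))
  exact (Dfn.ex (P := fun v a => (∃ b : N, ((v 0).1 = ZFSet.pair a.1 b.1 ∧ ((∀ a1 : N, (∀ p : N, (ZFSet.pair a1.1 p.1 ∈ a.1 → (p.1 ∈ P → (∀ q1 : N, (ZFSet.pair q1.1 (v 2).1 ∈ R → (ZFSet.pair q1.1 p.1 ∈ R → (∃ q2 : N, (ZFSet.pair q2.1 q1.1 ∈ R ∧ ((∃ b1 : N, (∃ r : N, (ZFSet.pair b1.1 r.1 ∈ b.1 ∧ ZFSet.pair q2.1 r.1 ∈ R ∧ ((∃ e : N, (∃ s : N, (e.1 = ZFSet.pair a1.1 b1.1 ∧ ((RD P e (v 0) ∧ ZFSet.pair e.1 s.1 ∈ (v 1).1)) ∧ q2.1 ∈ s.1)))))))))))))))))) ∧ ((∀ b1 : N, (∀ r : N, (ZFSet.pair b1.1 r.1 ∈ b.1 → (r.1 ∈ P → (∀ q1 : N, (ZFSet.pair q1.1 (v 2).1 ∈ R → (ZFSet.pair q1.1 r.1 ∈ R → (∃ q2 : N, (ZFSet.pair q2.1 q1.1 ∈ R ∧ ((∃ a1 : N, (∃ p : N, (ZFSet.pair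 a1.1 p.1 ∈ a.1 ∧ ZFSet.pair q2.1 p.1 ∈ R ∧ ((∃ e : N, (∃ s : N, (e.1 = ZFSet.pair a1.1 b1.1 ∧ ((RD P e (v 0) ∧ ZFSet.pair e.1 s.1 ∈ (v 1).1)) ∧ q2.1 ∈ s.1)))))))))))))))))))))
  (Dfn.ex (P := fun v b => ((v 0).1 = ZFSet.pair (v 3).1 b.1 ∧ ((∀ a1 : N, (∀ p : N, (ZFSet.pair a1.1 p.1 ∈ (v 3).1 → (p.1 ∈ P → (∀ q1 : N, (ZFSet.pair q1.1 (v 2).1 ∈ R → (ZFSet.pair q1.1 p.1 ∈ R → (∃ q2 : N, (ZFSet.pair q2.1 q1.1 ∈ R ∧ ((∃ b1 : N, (∃ r : N, (ZFSet.pair b1.1 r.1 ∈ b.1 ∧ ZFSet.pair q2.1 r.1 ∈ R ∧ ((∃ e : N, (∃ s : N, (e.1 = ZFSet.pair a1.1 b1.1 ∧ ((RD P e (v 0) ∧ ZFSet.pair e.1 s.1 ∈ (v 1).1)) ∧ q2.1 ∈ s.1)))))))))))))))))) ∧ ((∀ b1 : N, (∀ r : N, (ZFSet.pair b1.1 r.1 ∈ b.1 → (r.1 ∈ P → (∀ q1 : N, (ZFSet.pair q1.1 (v 2).1 ∈ R → (ZFSet.pair q1.1 r.1 ∈ R → (∃ q2 : N, (ZFSet.pair q2.1 q1.1 ∈ R ∧ ((∃ a1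 : N, (∃ p : N, (ZFSet.pair a1.1 p.1 ∈ (v 3).1 ∧ ZFSet.pair q2.1 p.1 ∈ R ∧ ((∃ e : N, (∃ s : N, (e.1 = ZFSet.pair a1.1 b1.1 ∧ ((RD P e (v 0) ∧ ZFSet.pair e.1 s.1 ∈ (v 1).1)) ∧ q2.1 ∈ s.1))))))))))))))))))))
  (Dfn.and (Dfn.isPair (DT.var _) (DT.var _) (DT.var _))
  (Dfn.and (Dfn.all (P := fun v a1 => (∀ p : N, (ZFSet.pair a1.1 p.1 ∈ (v 3).1 → (p.1 ∈ P → (∀ q1 : N, (ZFSet.pair q1.1 (v 2).1 ∈ R → (ZFSet.pair q1.1 p.1 ∈ R → (∃ q2 : N, (ZFSet.pair q2.1 q1.1 ∈ R ∧ ((∃ b1 : N, (∃ r : N, (ZFSet.pair b1.1 r.1 ∈ (v 4).1 ∧ ZFSet.pair q2.1 r.1 ∈ R ∧ ((∃ e : N, (∃ s : N, (e.1 = ZFSet.pair a1.1 b1.1 ∧ ((RD P e (v 0) ∧ ZFSet.pair e.1 s.1 ∈ (v 1).1)) ∧ q2.1 ∈ s.1)))))))))))))))))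
  (Dfn.all (P := fun v p => (ZFSet.pair (v 5).1 p.1 ∈ (v 3).1 → (p.1 ∈ P → (∀ q1 : N, (ZFSet.pair q1.1 (v 2).1 ∈ R → (ZFSet.pair q1.1 p.1 ∈ R → (∃ q2 : N, (ZFSet.pair q2.1 q1.1 ∈ R ∧ ((∃ b1 : N, (∃ r : N, (ZFSet.pair b1.1 r.1 ∈ (v 4).1 ∧ ZFSet.pair q2.1 r.1 ∈ R ∧ ((∃ e : N, (∃ s : N, (e.1 = ZFSet.pair (v 5).1 b1.1 ∧ ((RD P e (v 0) ∧ ZFSet.pair e.1 s.1 ∈ (v 1).1)) ∧ q2.1 ∈ s.1))))))))))))))))
  (Dfn.imp (Dfn.pairMem (DT.var _) (DT.var _) (DT.var _))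
  (Dfn.imp (Dfn.mem (DT.var _) (DT.const ⟨P, hP⟩))
  (Dfn.all (P := fun v q1 => (ZFSet.pair q1.1 (v 2).1 ∈ R → (ZFSet.pair q1.1 (v 6).1 ∈ R → (∃ q2 : N, (ZFSet.pair q2.1 q1.1 ∈ R ∧ ((∃ b1 : N, (∃ r : N, (ZFSet.pair b1.1 r.1 ∈ (v 4).1 ∧ ZFSet.pair q2.1 r.1 ∈ R ∧ ((∃ e : N, (∃ s : N, (e.1 = ZFSet.pair (v 5).1 b1.1 ∧ ((RD P e (v 0) ∧ ZFSet.pair e.1 s.1 ∈ (v 1).1)) ∧ q2.1 ∈ s.1)))))))))))))
  (Dfn.imp (Dfn.pairMem (DT.var _) (DT.var _) (DT.const ⟨R, hR⟩))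
  (Dfn.imp (Dfn.pairMem (DT.var _) (DT.var _) (DT.const ⟨R, hR⟩))
  (Dfn.ex (P := fun v q2 => (ZFSet.pair q2.1 (v 7).1 ∈ R ∧ ((∃ b1 : N, (∃ r : N, (ZFSet.pair b1.1 r.1 ∈ (v 4).1 ∧ ZFSet.pair q2.1 r.1 ∈ R ∧ ((∃ e : N, (∃ s : N, (e.1 = ZFSet.pair (v 5).1 b1.1 ∧ ((RD P e (v 0) ∧ ZFSet.pair e.1 s.1 ∈ (v 1).1)) ∧ q2.1 ∈ s.1))))))))))
  (Dfn.and (Dfn.pairMem (DT.var _) (DT.var _) (DT.const ⟨R, hR⟩))
  (Dfn.ex (P := fun v b1 => (∃ r : N, (ZFSet.pair b1.1 r.1 ∈ (v 4).1 ∧ ZFSet.pair (v 8).1 r.1 ∈ R ∧ ((∃ e : N, (∃ s : N, (e.1 = ZFSet.pair (v 5).1 b1.1 ∧ ((RD P e (v 0) ∧ ZFSet.pair e.1 s.1 ∈ (v 1).1)) ∧ (v 8).1 ∈ s.1)))))))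
  (Dfn.ex (P := fun v r => (ZFSet.pair (v 9).1 r.1 ∈ (v 4).1 ∧ ZFSet.pair (v 8).1 r.1 ∈ R ∧ ((∃ e : N, (∃ s : N, (e.1 = ZFSet.pair (v 5).1 (v 9).1 ∧ ((RD P e (v 0) ∧ ZFSet.pair e.1 s.1 ∈ (v 1).1)) ∧ (v 8).1 ∈ s.1))))))
  (Dfn.and (Dfn.pairMem (DT.var _) (DT.var _) (DT.var _))
  (Dfn.and (Dfn.pairMem (DT.var _) (DT.var _) (DT.const ⟨R, hR⟩))
  (Dfn.ex (P := fun v e => (∃ s : N, (e.1 = ZFSet.pair (v 5).1 (v 9).1 ∧ ((RD P e (v 0) ∧ ZFSet.pair e.1 s.1 ∈ (v 1).1)) ∧ (v 8).1 ∈ s.1)))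
  (Dfn.ex (P := fun v s => ((v 11).1 = ZFSet.pair (v 5).1 (v 9).1 ∧ ((RD P (v 11) (v 0) ∧ ZFSet.pair (v 11).1 s.1 ∈ (v 1).1)) ∧ (v 8).1 ∈ s.1))
  (Dfn.and (Dfn.isPair (DT.var _) (DT.var _) (DT.var _))
  (Dfn.and (Dfn.and (Dfn.subst2 (P := RD P) (RD_dfn hP) (DT.var _) (DT.var _))
  (Dfn.pairMem (DT.var _) (DT.var _) (DT.var _)))
  (Dfn.mem (DT.var _) (DT.var _)))))))))))))))))))
  (Dfn.all (P := fun v b1 => (∀ r : N, (ZFSet.pair b1.1 r.1 ∈ (v 4).1 → (r.1 ∈ P → (∀ q1 : N, (ZFSet.pair q1.1 (v 2).1 ∈ R → (ZFSet.pair q1.1 r.1 ∈ R → (∃ q2 : N, (ZFSet.pair q2.1 q1.1 ∈ R ∧ ((∃ a1 : N, (∃ p : N, (ZFSet.pair a1.1 p.1 ∈ (v 3).1 ∧ ZFSet.pair q2.1 p.1 ∈ R ∧ ((∃ e : N, (∃ s : N, (e.1 = ZFSet.pair a1.1 b1.1 ∧ ((RD P e (v 0) ∧ ZFSet.pair e.1 s.1 ∈ (v 1).1)) ∧ q2.1 ∈ s.1)))))))))))))))))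
  (Dfn.all (P := fun v r => (ZFSet.pair (v 5).1 r.1 ∈ (v 4).1 → (r.1 ∈ P → (∀ q1 : N, (ZFSet.pair q1.1 (v 2).1 ∈ R → (ZFSet.pair q1.1 r.1 ∈ R → (∃ q2 : N, (ZFSet.pair q2.1 q1.1 ∈ R ∧ ((∃ a1 : N, (∃ p : N, (ZFSet.pair a1.1 p.1 ∈ (v 3).1 ∧ ZFSet.pair q2.1 p.1 ∈ R ∧ ((∃ e : N, (∃ s : N, (e.1 = ZFSet.pair a1.1 (v 5).1 ∧ ((RD P e (v 0) ∧ ZFSet.pair e.1 s.1 ∈ (v 1).1)) ∧ q2.1 ∈ s.1))))))))))))))))
  (Dfn.imp (Dfn.pairMem (DT.var _) (DT.var _) (DT.var _))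
  (Dfn.imp (Dfn.mem (DT.var _) (DT.const ⟨P, hP⟩))
  (Dfn.all (P := fun v q1 => (ZFSet.pair q1.1 (v 2).1 ∈ R → (ZFSet.pair q1.1 (v 6).1 ∈ R → (∃ q2 : N, (ZFSet.pair q2.1 q1.1 ∈ R ∧ ((∃ a1 : N, (∃ p : N, (ZFSet.pair a1.1 p.1 ∈ (v 3).1 ∧ ZFSet.pair q2.1 p.1 ∈ R ∧ ((∃ e : N, (∃ s : N, (e.1 = ZFSet.pair a1.1 (v 5).1 ∧ ((RD P e (v 0) ∧ ZFSet.pair e.1 s.1 ∈ (v 1).1)) ∧ q2.1 ∈ s.1)))))))))))))
  (Dfn.imp (Dfn.pairMem (DT.var _) (DT.var _) (DT.const ⟨R, hR⟩))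
  (Dfn.imp (Dfn.pairMem (DT.var _) (DT.var _) (DT.const ⟨R, hR⟩))
  (Dfn.ex (P := fun v q2 => (ZFSet.pair q2.1 (v 7).1 ∈ R ∧ ((∃ a1 : N, (∃ p : N, (ZFSet.pair a1.1 p.1 ∈ (v 3).1 ∧ ZFSet.pair q2.1 p.1 ∈ R ∧ ((∃ e : N, (∃ s : N, (e.1 = ZFSet.pair a1.1 (v 5).1 ∧ ((RD P e (v 0) ∧ ZFSet.pair e.1 s.1 ∈ (v 1).1)) ∧ q2.1 ∈ s.1))))))))))
  (Dfn.and (Dfn.pairMem (DT.var _) (DT.var _) (DT.const ⟨R, hR⟩))
  (Dfn.ex (P := fun v a1 => (∃ p : N, (ZFSet.pair a1.1 p.1 ∈ (v 3).1 ∧ ZFSet.pair (v 8).1 p.1 ∈ R ∧ ((∃ e : N, (∃ s : N, (e.1 = ZFSet.pair a1.1 (v 5).1 ∧ ((RD P e (v 0) ∧ ZFSet.pair e.1 s.1 ∈ (v 1).1)) ∧ (v 8).1 ∈ s.1)))))))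
  (Dfn.ex (P := fun v p => (ZFSet.pair (v 9).1 p.1 ∈ (v 3).1 ∧ ZFSet.pair (v 8).1 p.1 ∈ R ∧ ((∃ e : N, (∃ s : N, (e.1 = ZFSet.pair (v 9).1 (v 5).1 ∧ ((RD P e (v 0) ∧ ZFSet.pair e.1 s.1 ∈ (v 1).1)) ∧ (v 8).1 ∈ s.1))))))
  (Dfn.and (Dfn.pairMem (DT.var _) (DT.var _) (DT.var _))
  (Dfn.and (Dfn.pairMem (DT.var _) (DT.var _) (DT.const ⟨R, hR⟩))
  (Dfn.ex (P := fun v e => (∃ s : N, (e.1 = ZFSet.pair (v 9).1 (v 5).1 ∧ ((RD P e (v 0) ∧ ZFSet.pair e.1 s.1 ∈ (v 1).1)) ∧ (v 8).1 ∈ s.1)))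
  (Dfn.ex (P := fun v s => ((v 11).1 = ZFSet.pair (v 9).1 (v 5).1 ∧ ((RD P (v 11) (v 0) ∧ ZFSet.pair (v 11).1 s.1 ∈ (v 1).1)) ∧ (v 8).1 ∈ s.1))
  (Dfn.and (Dfn.isPair (DT.var _) (DT.var _) (DT.var _))
  (Dfn.and (Dfn.and (Dfn.subst2 (P := RD P) (RD_dfn hP) (DT.var _) (DT.var _))
  (Dfn.pairMem (DT.var _) (DT.var _) (DT.var _)))
  (Dfn.mem (DT.var _) (DT.var _)))))))))))))))))))))))

end Forcing

section Forcing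

variable (hN)

variable {Q : Type u} [PartialOrder Q] {c : Q → ZFSet.{u}}

/-- The order of the poset in the model. -/
structure PR (N : Set ZFSet.{u}) (c : Q → ZFSet.{u}) (P R : ZFSet.{u}) : Prop where
  hP : P ∈ N
  hR : R ∈ N
  inj : Function.Injective c
  memP : ∀ z, z ∈ P ↔ ∃ q, z = c q
  memR : ∀ z, z ∈ R ↔ ∃ p q, p ≤ q ∧ z = ZFSet.pair (c p) (c q)

theorem _root_.Pool.Agent.H17.Omega.PosetIn.exists_PR (h : PosetIn N Q c) : ∃ P R, PR N c P R := by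
  obtain ⟨P, hP, hP'⟩ := h.carrier
  obtain ⟨R, hR, hR'⟩ := h.order
  exact ⟨P, R, hP, hR, h.inj, hP', hR'⟩

namespace PR

variable {P R : ZFSet.{u}} (h : PR N c P R)

include h

theorem le_iff {p q : Q} : ZFSet.pair (c p) (c q) ∈ R ↔ p ≤ q := by
  rw [h.memR]
  constructor
  · rintro ⟨p', q', h1, h2⟩
    rw [ZFSet.pair_inj] at h2
    rw [h.inj h2.1, h.inj h2.2]; exact h1
  · intro h1; exact ⟨p, q, h1, rfl⟩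

theorem of_pair_mem {a b : ZFSet.{u}} (hab : ZFSet.pair a b ∈ R) : ∃ p q, p ≤ q ∧ a = c p ∧ b = c q := by
  obtain ⟨p, q, h1, h2⟩ := (h.memR _).1 hab
  rw [ZFSet.pair_inj] at h2
  exact ⟨p, q, h1, h2⟩

theorem c_mem_P (q : Q) : c q ∈ P := (h.memP _).2 ⟨q, rfl⟩

include hN in
theorem c_mem_N (q : Q) : c q ∈ N := hN.mem_of_mem h.hP (h.c_mem_P q)

end PR

/-- The forcing relation for equality is definable in the model. -/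
theorem exists_feq {P R : ZFSet.{u}} (h : PR N c P R) :
    ∃ F : N → N, hN.Dfn (fun v : Fin 2 → N => F (v 0) = v 1) ∧
      ∀ a b e : N, e.1 = ZFSet.pair a.1 b.1 → (∀ z ∈ (F e).1, z ∈ P) ∧
        ∀ q, c q ∈ (F e).1 ↔ feq (nm c a.1) (nm c b.1) q := by
  have hRD : hN.Dfn (fun v : Fin 2 → N => RD P (v 0) (v 1)) := RD_dfn h.hP
  have hKD : hN.Dfn (fun v : Fin 3 → N => KD P R (v 0) (v 1) (v 2)) := KD_dfn h.hP h.hR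
  have hRDmem : ∀ y x : N, RD P y x → ∃ a1 b1 a b : N, y.1 = ZFSet.pair a1.1 b1.1 ∧
      x.1 = ZFSet.pair a.1 b.1 ∧ a1.1.rank < a.1.rank ∧
      a1.1 ∈ ZFSet.sUnion (ZFSet.sUnion a.1) ∧ b1.1 ∈ ZFSet.sUnion (ZFSet.sUnion b.1) := by
    rintro y x ⟨a1, b1, h1, a, b, h2, ⟨p, hp, h3⟩, ⟨p', hp', h4⟩⟩
    exact ⟨a1, b1, a, b, h1, h2, rank_fst_lt h3, (mem_sUnion_sUnion_pair h3).1,
      (mem_sUnion_sUnion_pair h4).1⟩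
  have wf : WellFounded (RD (N := N) P) := by
    let m : N → Ordinal.{u} := fun x => ⨆ a : {a : ZFSet.{u} // ∃ b, x.1 = ZFSet.pair a b}, a.1.rank
    have hm : ∀ x : N, ∀ a b : ZFSet.{u}, x.1 = ZFSet.pair a b → m x = a.rank := by
      intro x a b hx
      have hsub : ∀ a' : {a : ZFSet.{u} // ∃ b, x.1 = ZFSet.pair a b}, a'.1 = a := by
        rintro ⟨a', b', h'⟩
        rw [hx, ZFSet.pair_inj] at h'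
        exact h'.1.symm
      have hne : Nonempty {a : ZFSet.{u} // ∃ b, x.1 = ZFSet.pair a b} := ⟨⟨a, b, hx⟩⟩
      show (⨆ a : {a : ZFSet.{u} // ∃ b, x.1 = ZFSet.pair a b}, a.1.rank) = a.rank
      have : (fun a' : {a : ZFSet.{u} // ∃ b, x.1 = ZFSet.pair a b} => a'.1.rank) =
          fun _ => a.rank := by
        funext a'; rw [hsub a']
      rw [this, ciSup_const]
    refine Subrelation.wf (r := InvImage (· < ·) m) ?_ (InvImage.wf _ wellFounded_lt)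
    intro y x hyx
    obtain ⟨a1, b1, a, b, h1, h2, h3, _⟩ := hRDmem y x hyx
    show m y < m x
    rw [hm _ _ _ h1, hm _ _ _ h2]; exact h3
  have hset : ∀ x : N, ∃ e ∈ N, ∀ y : N, y.1 ∈ e ↔ RD P y x := by
    intro x
    by_cases hx : ∃ a b : N, x.1 = ZFSet.pair a.1 b.1
    · obtain ⟨a, b, hx⟩ := hx
      have h1 := hN.prod_mem (hN.sUnion_mem (hN.sUnion_mem a.2)) (hN.sUnion_mem (hN.sUnion_mem b.2))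
      obtain ⟨e, he, he'⟩ := hN.exists_sep (P := fun y => RD P y x)
        (Dfn.subst2 (P := RD P) hRD (DT.var _) (DT.const x)) h1
      refine ⟨e, he, fun y => ?_⟩
      rw [he']
      constructor
      · rintro ⟨_, _, h2⟩; exact h2
      · intro h2
        refine ⟨?_, y.2, h2⟩
        obtain ⟨a1, b1, a', b', h3, h4, _, h5, h6⟩ := hRDmem y x h2
        rw [hx, ZFSet.pair_inj] at h4
        rw [h4.1, h4.2]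
        exact ZFSet.mem_prod.2 ⟨_, h5, _, h6, h3⟩
    · refine ⟨∅, hN.empty_mem, fun y => ?_⟩
      constructor
      · intro h1; exact (ZFSet.notMem_empty _ h1).elim
      · intro h1
        obtain ⟨_, _, a, b, _, h2, _⟩ := hRDmem y x h1
        exact (hx ⟨a, b, h2⟩).elim
  refine Exists.elim (recursion (hN := hN) (R := RD P) (𝒢 := fun x r v => ∀ w : N, w.1 ∈ v.1 ↔
    w.1 ∈ P ∧ ∃ a b : N, x.1 = ZFSet.pair a.1 b.1 ∧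
    (∀ a1 p : N, ZFSet.pair a1.1 p.1 ∈ a.1 → p.1 ∈ P → ∀ q1 : N, ZFSet.pair q1.1 w.1 ∈ R →
      ZFSet.pair q1.1 p.1 ∈ R → ∃ q2 : N, ZFSet.pair q2.1 q1.1 ∈ R ∧ ∃ b1 r' : N,
      ZFSet.pair b1.1 r'.1 ∈ b.1 ∧ ZFSet.pair q2.1 r'.1 ∈ R ∧ ∃ e s : N,
      e.1 = ZFSet.pair a1.1 b1.1 ∧ (r e s) ∧ q2.1 ∈ s.1) ∧
    (∀ b1 r' : N, ZFSet.pair b1.1 r'.1 ∈ b.1 → r'.1 ∈ P → ∀ q1 : N, ZFSet.pair q1.1 w.1 ∈ R →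
      ZFSet.pair q1.1 r'.1 ∈ R → ∃ q2 : N, ZFSet.pair q2.1 q1.1 ∈ R ∧ ∃ a1 p : N,
      ZFSet.pair a1.1 p.1 ∈ a.1 ∧ ZFSet.pair q2.1 p.1 ∈ R ∧ ∃ e s : N,
      e.1 = ZFSet.pair a1.1 b1.1 ∧ (r e s) ∧ q2.1 ∈ s.1)) hRD ?_ hset wf ?_ ?_) ?_
  · have h1 : hN.Dfn (fun v : Fin 3 → N => ∀ w : N, w.1 ∈ (v 2).1 ↔ w.1 ∈ P ∧
        KD P R (v 0) (v 1) w) := by
      refine Dfn.all (P := fun v w => w.1 ∈ (v 2).1 ↔ w.1 ∈ P ∧ KD P R (v 0) (v 1) w) ?_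
      exact Dfn.iff (Dfn.mem (DT.var _) (DT.var _)) (Dfn.and
        (Dfn.mem (t := fun _ => ⟨P, h.hP⟩) (DT.var _) (DT.const _))
        (Dfn.subst3 (P := KD P R) hKD (DT.var _) (DT.var _) (DT.var _)))
    exact h1
  · intro x r v v' h1 h2
    exact Subtype.ext (hN.ext' v.2 v'.2 fun z => (h1 z).trans (h2 z).symm)
  · intro x g hd hu
    have hd' : hN.Dfn (fun v : Fin 1 → N => KD P R x g (v 0)) :=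
      Dfn.subst3 (P := KD P R) hKD (DT.const x) (DT.const g) (DT.var _)
    obtain ⟨b, hb, hb'⟩ := hN.exists_sep (P := fun w => KD P R x g w) hd' h.hP
    refine ⟨⟨b, hb⟩, fun z => ?_⟩
    rw [hb']
    constructor
    · rintro ⟨h1, _, h2⟩; exact ⟨h1, h2⟩
    · rintro ⟨h1, h2⟩; exact ⟨h1, z.2, h2⟩
  rintro F ⟨hF, hF'⟩
  refine ⟨F, hF, fun a b e he => ⟨fun z hz => ?_, ?_⟩⟩
  · exact ((hF' e ⟨z, hN.mem_of_mem (F e).2 hz⟩).1 hz).1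
  have key : ∀ o : Ordinal.{u}, ∀ a b e : N, a.1.rank = o → e.1 = ZFSet.pair a.1 b.1 →
      ∀ q, c q ∈ (F e).1 ↔ feq (nm c a.1) (nm c b.1) q := by
    intro o
    induction o using WellFoundedLT.induction with
    | ind o ih =>
      intro a b e ho he q
      have h1 := hF' e ⟨c q, h.c_mem_N hN q⟩
      rw [feq_nm]
      rw [h1]
      constructor
      · rintro ⟨_, a0, b0, h2, h3, h4⟩
        rw [he, ZFSet.pair_inj] at h2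
        have ha0 : a0 = a := Subtype.ext h2.1.symm
        have hb0 : b0 = b := Subtype.ext h2.2.symm
        subst ha0 hb0
        constructor
        · intro a1 p hp q1 hq1 hq1p
          have ha1 : a1 ∈ N := (hN.of_pair_mem (hN.mem_of_mem a0.2 hp)).1
          obtain ⟨q2, h5, b1, r, h6, h7, e1, s, h8, ⟨h9, h10⟩, h11⟩ :=
            h3 ⟨a1, ha1⟩ ⟨c p, h.c_mem_N hN p⟩ hp (h.c_mem_P p) ⟨c q1, h.c_mem_N hN q1⟩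
              (h.le_iff.2 hq1) (h.le_iff.2 hq1p)
          obtain ⟨p2, p1, h12, h13, h14⟩ := h.of_pair_mem h5
          obtain ⟨p2', r', h15, h16, h17⟩ := h.of_pair_mem h7
          have hp1 := h.inj h14
          subst hp1
          have hp2 : p2 = p2' := h.inj (h13.symm.trans h16)
          subst hp2
          refine ⟨p2, h12, b1.1, r', by rw [← h17]; exact h6, h15, ?_⟩
          rw [← ih _ (by rw [← ho]; exact rank_fst_lt hp) ⟨a1, ha1⟩ b1 e1 rfl h8, h10, ← h13]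
          exact h11
        · intro b1 r hr q1 hq1 hq1r
          have hb1 : b1 ∈ N := (hN.of_pair_mem (hN.mem_of_mem b0.2 hr)).1
          obtain ⟨q2, h5, a1, p, h6, h7, e1, s, h8, ⟨h9, h10⟩, h11⟩ :=
            h4 ⟨b1, hb1⟩ ⟨c r, h.c_mem_N hN r⟩ hr (h.c_mem_P r) ⟨c q1, h.c_mem_N hN q1⟩
              (h.le_iff.2 hq1) (h.le_iff.2 hq1r)
          obtain ⟨p2, p1, h12, h13, h14⟩ := h.of_pair_mem h5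
          obtain ⟨p2', r', h15, h16, h17⟩ := h.of_pair_mem h7
          have hp1 := h.inj h14
          subst hp1
          have hp2 : p2 = p2' := h.inj (h13.symm.trans h16)
          subst hp2
          refine ⟨p2, h12, a1.1, r', by rw [← h17]; exact h6, h15, ?_⟩
          rw [← ih _ (by rw [← ho]; exact rank_fst_lt (h17 ▸ h6)) a1 ⟨b1, hb1⟩ e1 rfl h8, h10, ← h13]
          exact h11
      · rintro ⟨h3, h4⟩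
        refine ⟨h.c_mem_P q, a, b, he, ?_, ?_⟩
        · intro a1 p hp hpP q1 hq1 hq1p
          obtain ⟨p', hp'⟩ := (h.memP _).1 hpP
          obtain ⟨q1', q', h5, h6, h7⟩ := h.of_pair_mem hq1
          have h7 := h.inj h7
          subst h7
          rw [hp'] at hp hq1p
          rw [h6] at hq1p
          obtain ⟨q2, h8, b1, r, h9, h10, h11⟩ := h3 a1.1 p' hp q1' h5 (h.le_iff.1 hq1p)
          have hb1 : b1 ∈ N := (hN.of_pair_mem (hN.mem_of_mem b.2 h9)).1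
          refine ⟨⟨c q2, h.c_mem_N hN q2⟩, by rw [h6]; exact h.le_iff.2 h8, ⟨b1, hb1⟩,
            ⟨c r, h.c_mem_N hN r⟩, h9, h.le_iff.2 h10, ⟨_, hN.pair_mem a1.2 hb1⟩, F _, rfl,
            ⟨⟨a1, ⟨b1, hb1⟩, rfl, a, b, he, ⟨c p', h.c_mem_P p', hp⟩, ⟨c r, h.c_mem_P r, h9⟩⟩, rfl⟩, ?_⟩
          exact (ih _ (by rw [← ho]; exact rank_fst_lt hp) a1 ⟨b1, hb1⟩ _ rfl rfl q2).2 h11
        · intro b1 r hr hrP q1 hq1 hq1r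
          obtain ⟨r', hr'⟩ := (h.memP _).1 hrP
          obtain ⟨q1', q', h5, h6, h7⟩ := h.of_pair_mem hq1
          have h7 := h.inj h7
          subst h7
          rw [hr'] at hr hq1r
          rw [h6] at hq1r
          obtain ⟨q2, h8, a1, p, h9, h10, h11⟩ := h4 b1.1 r' hr q1' h5 (h.le_iff.1 hq1r)
          have ha1 : a1 ∈ N := (hN.of_pair_mem (hN.mem_of_mem a.2 h9)).1
          refine ⟨⟨c q2, h.c_mem_N hN q2⟩, by rw [h6]; exact h.le_iff.2 h8, ⟨a1, ha1⟩,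
            ⟨c p, h.c_mem_N hN p⟩, h9, h.le_iff.2 h10, ⟨_, hN.pair_mem ha1 b1.2⟩, F _, rfl,
            ⟨⟨⟨a1, ha1⟩, b1, rfl, a, b, he, ⟨c p, h.c_mem_P p, h9⟩, ⟨c r', h.c_mem_P r', hr⟩⟩, rfl⟩, ?_⟩
          exact (ih _ (by rw [← ho]; exact rank_fst_lt h9) ⟨a1, ha1⟩ b1 _ rfl rfl q2).2 h11
  exact key _ a b e rfl he

/-- The forcing relation for membership is definable in the model. -/
theorem exists_fmem {P R : ZFSet.{u}} (h : PR N c P R) :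
    ∃ MF : N → N → N → Prop, hN.Dfn (fun v : Fin 3 → N => MF (v 0) (v 1) (v 2)) ∧
      ∀ (q : Q) (w a b : N), w.1 = c q → (MF w a b ↔ fmem (nm c a.1) (nm c b.1) q) := by
  obtain ⟨F, hF, hF'⟩ := hN.exists_feq h
  have hP := h.hP
  have hR := h.hR
  refine ⟨fun w a b => (∀ q1 : N, (ZFSet.pair q1.1 w.1 ∈ R → (∃ q2 : N, (ZFSet.pair q2.1 q1.1 ∈ R ∧ ((∃ b1 : N, (∃ r : N, (ZFSet.pair b1.1 r.1 ∈ b.1 ∧ ZFSet.pair q2.1 r.1 ∈ R ∧ ((∃ e : N, (∃ s : N, (e.1 = ZFSet.pair a.1 b1.1 ∧ (fun e s => F e = s) e s ∧ q2.1 ∈ s.1)))))))))))), ?_, ?_⟩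
  · exact (Dfn.all (P := fun v q1 => (ZFSet.pair q1.1 (v 0).1 ∈ R → (∃ q2 : N, (ZFSet.pair q2.1 q1.1 ∈ R ∧ ((∃ b1 : N, (∃ r : N, (ZFSet.pair b1.1 r.1 ∈ (v 2).1 ∧ ZFSet.pair q2.1 r.1 ∈ R ∧ ((∃ e : N, (∃ s : N, (e.1 = ZFSet.pair (v 1).1 b1.1 ∧ (fun e s => F e = s) e s ∧ q2.1 ∈ s.1))))))))))))
  (Dfn.imp (Dfn.pairMem (DT.var _) (DT.var _) (DT.const ⟨R, hR⟩))
  (Dfn.ex (P := fun v q2 => (ZFSet.pair q2.1 (v 3).1 ∈ R ∧ ((∃ b1 : N, (∃ r : N, (ZFSet.pair b1.1 r.1 ∈ (v 2).1 ∧ ZFSet.pair q2.1 r.1 ∈ R ∧ ((∃ e : N, (∃ s : N, (e.1 = ZFSet.pair (v 1).1 b1.1 ∧ (fun e s => F e = s) e s ∧ q2.1 ∈ s.1))))))))))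
  (Dfn.and (Dfn.pairMem (DT.var _) (DT.var _) (DT.const ⟨R, hR⟩))
  (Dfn.ex (P := fun v b1 => (∃ r : N, (ZFSet.pair b1.1 r.1 ∈ (v 2).1 ∧ ZFSet.pair (v 4).1 r.1 ∈ R ∧ ((∃ e : N, (∃ s : N, (e.1 = ZFSet.pair (v 1).1 b1.1 ∧ (fun e s => F e = s) e s ∧ (v 4).1 ∈ s.1)))))))
  (Dfn.ex (P := fun v r => (ZFSet.pair (v 5).1 r.1 ∈ (v 2).1 ∧ ZFSet.pair (v 4).1 r.1 ∈ R ∧ ((∃ e : N, (∃ s : N, (e.1 = ZFSet.pair (v 1).1 (v 5).1 ∧ (fun e s => F e = s) e s ∧ (v 4).1 ∈ s.1))))))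
  (Dfn.and (Dfn.pairMem (DT.var _) (DT.var _) (DT.var _))
  (Dfn.and (Dfn.pairMem (DT.var _) (DT.var _) (DT.const ⟨R, hR⟩))
  (Dfn.ex (P := fun v e => (∃ s : N, (e.1 = ZFSet.pair (v 1).1 (v 5).1 ∧ (fun e s => F e = s) e s ∧ (v 4).1 ∈ s.1)))
  (Dfn.ex (P := fun v s => ((v 7).1 = ZFSet.pair (v 1).1 (v 5).1 ∧ (fun e s => F e = s) (v 7) s ∧ (v 4).1 ∈ s.1))
  (Dfn.and (Dfn.isPair (DT.var _) (DT.var _) (DT.var _))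
  (Dfn.and (Dfn.subst2 (P := (fun e s => F e = s)) hF (DT.var _) (DT.var _))
  (Dfn.mem (DT.var _) (DT.var _))))))))))))))
  · intro q w a b hw
    rw [fmem_nm]
    constructor
    · intro h1 q1 hq1
      obtain ⟨q2, h2, b1, r, h3, h4, e, s, h5, h6, h7⟩ := h1 ⟨c q1, h.c_mem_N hN q1⟩
        (by rw [hw]; exact h.le_iff.2 hq1)
      obtain ⟨p2, p1, h12, h13, h14⟩ := h.of_pair_mem h2
      obtain ⟨p2', r', h15, h16, h17⟩ := h.of_pair_mem h4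
      have hp1 := h.inj h14
      subst hp1
      have hp2 : p2 = p2' := h.inj (h13.symm.trans h16)
      subst hp2
      refine ⟨p2, h12, b1.1, r', by rw [← h17]; exact h3, h15, ?_⟩
      rw [← (hF' a b1 e h5).2, h6, ← h13]
      exact h7
    · intro h1 q1 hq1
      obtain ⟨q1', q', h5, h6, h7⟩ := h.of_pair_mem hq1
      rw [hw] at h7
      have h7 := h.inj h7
      subst h7
      obtain ⟨q2, h8, b1, r, h9, h10, h11⟩ := h1 q1' h5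
      have hb1 : b1 ∈ N := (hN.of_pair_mem (hN.mem_of_mem b.2 h9)).1
      refine ⟨⟨c q2, h.c_mem_N hN q2⟩, by rw [h6]; exact h.le_iff.2 h8, ⟨b1, hb1⟩,
        ⟨c r, h.c_mem_N hN r⟩, h9, h.le_iff.2 h10, ⟨_, hN.pair_mem a.2 hb1⟩, F _, rfl, rfl, ?_⟩
      exact ((hF' a ⟨b1, hb1⟩ _ rfl).2 q2).2 h11

end Forcing

end CTM

end Pool.Agent.H17.Omega
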