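import Pool.Agent.H17.Omega.Kr

/-!
# Certificates exist in countable transitive models
-/

set_option autoImplicit false
set_option linter.unusedVariables false
set_option linter.unusedSectionVars false
set_option linter.unusedSimpArgs false
set_option linter.deprecated false

universe u v w

namespace Pool.Agent.H17.Omega

/-- The finite sequence with code `k`. -/
noncomputable def Ls (k : ℕ) : List ℕ := Denumerable.ofNat (List ℕ) k

theorem Ls_ini (x : ℕ → ℕ) (n : ℕ) : Ls (ini x n) = (List.range n).map x := by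
  unfold Ls ini; exact Denumerable.ofNat_encode _

theorem getD_Ls_ini (x : ℕ → ℕ) {n i : ℕ} (h : i < n) : (Ls (ini x n)).getD i 0 = x i := by
  rw [Ls_ini, List.getD_eq_getElem _ _ (by simpa using h)]
  simp

theorem length_Ls_ini (x : ℕ → ℕ) (n : ℕ) : (Ls (ini x n)).length = n := by
  rw [Ls_ini]; simp

/-- One step extension of codes of digits. -/
def Pone (Kr : (ℕ → ℕ) → (ℕ → ℕ) → Prop) (c : ℕ → ℕ) (k' k : ℕ) : Prop :=
  ∃ a, Ls k' = Ls k ++ [a] ∧ ∃ c' w', Agree (Ls k').length c' c ∧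
    Agree (Ls k').length w' (fun i => (Ls k').getD i 0) ∧ Kr c' w'

/-- The constraints. -/
def Ttwo (k i j : ℕ) : Prop := ∃ a b, i = a + 1 ∧ j = b + 1 ∧ i < (Ls k).length ∧
  j < (Ls k).length ∧ Nat.pair a b < (Ls k).length ∧ ((Ls k).getD (Nat.pair a b) 0).unpair.1 ≠ 0

/-- The domain. -/
def Tthree (k i : ℕ) : Prop := i < (Ls k).length

/-- Extension of codes of digits. -/
def Tfour (k k0 : ℕ) : Prop := Ls k0 <+: Ls k

/-- A ternary relation on `ℕ` as a set. -/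
noncomputable def relThreeZ (T : ℕ → ℕ → ℕ → Prop) : ZFSet.{u} :=
  ZFSet.range (fun t : {t : ℕ × ℕ × ℕ // T t.1 t.2.1 t.2.2} =>
    ZFSet.pair (natZ t.1.1) (ZFSet.pair (natZ t.1.2.1) (natZ t.1.2.2)))

theorem mem_relThreeZ {T : ℕ → ℕ → ℕ → Prop} {z : ZFSet.{u}} :
    z ∈ relThreeZ T ↔ ∃ k i j, T k i j ∧
      z = ZFSet.pair (natZ k) (ZFSet.pair (natZ i) (natZ j)) := by
  rw [relThreeZ, ZFSet.mem_range]
  constructor
  · rintro ⟨⟨⟨k, i, j⟩, h⟩, rfl⟩; exact ⟨k, i, j, h, rfl⟩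
  · rintro ⟨k, i, j, h, rfl⟩; exact ⟨⟨⟨k, i, j⟩, h⟩, rfl⟩

theorem pair_mem_relThreeZ {T : ℕ → ℕ → ℕ → Prop} {k i j : ℕ} :
    ZFSet.pair (natZ.{u} k) (ZFSet.pair (natZ i) (natZ j)) ∈ relThreeZ T ↔ T k i j := by
  rw [mem_relThreeZ]
  constructor
  · rintro ⟨a, b, d, h, h'⟩
    rw [ZFSet.pair_inj, ZFSet.pair_inj, natZ_inj, natZ_inj, natZ_inj] at h'
    rw [h'.1, h'.2.1, h'.2.2]; exact h
  · intro h; exact ⟨k, i, j, h, rfl⟩

/-- The ordinals of a node. -/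
noncomputable def oset (n : ℕ) (b : ℕ → ℕ × Ordinal.{u}) : ZFSet.{u} :=
  ZFSet.range (fun i : Fin n => ZFSet.pair (natZ i.1) (b i.1).2.toZFSet)

theorem mem_oset {n : ℕ} {b : ℕ → ℕ × Ordinal.{u}} {z : ZFSet.{u}} :
    z ∈ oset n b ↔ ∃ i < n, z = ZFSet.pair (natZ i) (b i).2.toZFSet := by
  rw [oset, ZFSet.mem_range]
  constructor
  · rintro ⟨i, rfl⟩; exact ⟨i.1, i.2, rfl⟩
  · rintro ⟨i, hi, rfl⟩; exact ⟨⟨i, hi⟩, rfl⟩

theorem pair_mem_oset {n : ℕ} {b : ℕ → ℕ × Ordinal.{u}} {i : ℕ} {p : ZFSet.{u}} :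
    ZFSet.pair (natZ i) p ∈ oset n b ↔ i < n ∧ p = (b i).2.toZFSet := by
  rw [mem_oset]
  constructor
  · rintro ⟨j, hj, h⟩
    rw [ZFSet.pair_inj, natZ_inj] at h
    obtain ⟨rfl, rfl⟩ := h
    exact ⟨hj, rfl⟩
  · rintro ⟨h, rfl⟩; exact ⟨i, h, rfl⟩

theorem oset_congr {n : ℕ} {b b' : ℕ → ℕ × Ordinal.{u}} (h : Agree n b b') :
    oset n b = oset n b' := by
  ext z
  rw [mem_oset, mem_oset]
  constructor
  · rintro ⟨i, hi, rfl⟩; exact ⟨i, hi, by rw [h i hi]⟩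
  · rintro ⟨i, hi, rfl⟩; exact ⟨i, hi, by rw [h i hi]⟩

/-- The code of a node. -/
noncomputable def enc (n : ℕ) (b : ℕ → ℕ × Ordinal.{u}) : ZFSet.{u} :=
  ZFSet.pair (natZ (ini (fun i => (b i).1) n)) (oset n b)

theorem enc_congr {n : ℕ} {b b' : ℕ → ℕ × Ordinal.{u}} (h : Agree n b b') :
    enc n b = enc n b' := by
  unfold enc
  rw [oset_congr h, ini_congr (fun i hi => congrArg Prod.fst (h i hi))]

namespace CTM

variable {N : Set ZFSet.{u}} (hN : CTM N)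

include hN in
theorem oset_mem {n : ℕ} {b : ℕ → ℕ × Ordinal.{u}} (h : ∀ i < n, (b i).2.toZFSet ∈ N) :
    oset n b ∈ N := by
  induction n with
  | zero =>
    have : oset 0 b = ∅ := by
      rw [ZFSet.eq_empty]; intro z hz; rw [mem_oset] at hz; obtain ⟨i, hi, _⟩ := hz; omega
    rw [this]; exact hN.empty_mem
  | succ n ih =>
    have : oset (n + 1) b = insert (ZFSet.pair (natZ n) (b n).2.toZFSet) (oset n b) := by
      ext z
      rw [ZFSet.mem_insert_iff, mem_oset, mem_oset]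
      constructor
      · rintro ⟨i, hi, rfl⟩
        rcases Nat.lt_succ_iff_lt_or_eq.1 hi with h1 | rfl
        · exact Or.inr ⟨i, h1, rfl⟩
        · exact Or.inl rfl
      · rintro (rfl | ⟨i, hi, rfl⟩)
        · exact ⟨n, Nat.lt_succ_self n, rfl⟩
        · exact ⟨i, hi.trans (Nat.lt_succ_self n), rfl⟩
    rw [this]
    exact hN.insert_mem (hN.pair_mem (hN.natZ_mem_N n) (h n (Nat.lt_succ_self n)))
      (ih fun i hi => h i (hi.trans (Nat.lt_succ_self n)))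

include hN in
theorem enc_mem {n : ℕ} {b : ℕ → ℕ × Ordinal.{u}} (h : ∀ i < n, (b i).2.toZFSet ∈ N) :
    enc n b ∈ N := hN.pair_mem (hN.natZ_mem_N _) (hN.oset_mem h)

/-- Validity of a node. -/
def Valid (δ k o T2 T3 : ZFSet.{u}) : Prop :=
  (∀ i ∈ omZ, ZFSet.pair k i ∈ T3 → ∃ p ∈ δ, ZFSet.pair i p ∈ o) ∧
  (∀ i ∈ omZ, ∀ p ∈ δ, ∀ p' ∈ δ, ZFSet.pair i p ∈ o → ZFSet.pair i p' ∈ o → p = p') ∧
  (∀ i ∈ omZ, ∀ j ∈ omZ, ∀ p ∈ δ, ∀ p' ∈ δ, (∃ ij ∈ ZFSet.prod omZ omZ, ij = ZFSet.pair i j ∧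
    ZFSet.pair k ij ∈ T2) → ZFSet.pair i p ∈ o → ZFSet.pair j p' ∈ o → p ∈ p') ∧
  (∀ i ∈ omZ, ∀ p ∈ δ, ∀ p' ∈ δ, (∃ z ∈ omZ, z = ∅ ∧ ZFSet.pair z p' ∈ o) →
    ZFSet.pair i p ∈ o → p ∈ p' ∨ p = p')

theorem Valid.dfn {n : ℕ} {k o : (Fin n → N) → N} (hk : hN.DT k) (ho : hN.DT o) (δ T2 T3 : N) :
    hN.Dfn (fun v => Valid δ.1 (k v).1 (o v).1 T2.1 T3.1) := by
  have hom : omZ ∈ N := hN.omZ_mem
  have hoo : ZFSet.prod omZ omZ ∈ N := hN.prod_mem hom hom
  unfold Valid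
  refine Dfn.and ?_ (Dfn.and ?_ (Dfn.and ?_ ?_))
  · refine Dfn.ballZ (s := fun _ => ⟨omZ, hom⟩) (p := fun v i => ZFSet.pair (k v).1 i ∈ T3.1 →
      ∃ p ∈ δ.1, ZFSet.pair i p ∈ (o v).1) (DT.const _) ?_
    refine Dfn.imp (Dfn.pairMem hk.lift (DT.var _) (DT.const _)) ?_
    refine Dfn.bexZ (s := fun _ => δ) (p := fun v p =>
      ZFSet.pair (v (Fin.last n)).1 p ∈ (o (fun i => v i.castSucc)).1) (DT.const _) ?_
    exact Dfn.pairMem (DT.var _) (DT.var _) ho.lift.lift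
  · refine Dfn.ballZ (s := fun _ => ⟨omZ, hom⟩) (p := fun v i => ∀ p ∈ δ.1, ∀ p' ∈ δ.1,
      ZFSet.pair i p ∈ (o v).1 → ZFSet.pair i p' ∈ (o v).1 → p = p') (DT.const _) ?_
    refine Dfn.ballZ (s := fun _ => δ) (p := fun v p => ∀ p' ∈ δ.1,
      ZFSet.pair (v (Fin.last n)).1 p ∈ (o (fun i => v i.castSucc)).1 →
      ZFSet.pair (v (Fin.last n)).1 p' ∈ (o (fun i => v i.castSucc)).1 → p = p') (DT.const _) ?_
    refine Dfn.ballZ (s := fun _ => δ) (p := fun v p' =>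
      ZFSet.pair (v (Fin.last n).castSucc).1 (v (Fin.last (n + 1))).1 ∈
        (o (fun i => v i.castSucc.castSucc)).1 →
      ZFSet.pair (v (Fin.last n).castSucc).1 p' ∈ (o (fun i => v i.castSucc.castSucc)).1 →
      (v (Fin.last (n + 1))).1 = p') (DT.const _) ?_
    exact Dfn.imp (Dfn.pairMem (DT.var _) (DT.var _) ho.lift.lift.lift)
      (Dfn.imp (Dfn.pairMem (DT.var _) (DT.var _) ho.lift.lift.lift)
      (Dfn.eqv (DT.var _) (DT.var _)))
  · refine Dfn.ballZ (s := fun _ => ⟨omZ, hom⟩) (p := fun v i => ∀ j ∈ omZ, ∀ p ∈ δ.1, ∀ p' ∈ δ.1,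
      (∃ ij ∈ ZFSet.prod omZ omZ, ij = ZFSet.pair i j ∧ ZFSet.pair (k v).1 ij ∈ T2.1) →
      ZFSet.pair i p ∈ (o v).1 → ZFSet.pair j p' ∈ (o v).1 → p ∈ p') (DT.const _) ?_
    refine Dfn.ballZ (s := fun _ => ⟨omZ, hom⟩) (p := fun v j => ∀ p ∈ δ.1, ∀ p' ∈ δ.1,
      (∃ ij ∈ ZFSet.prod omZ omZ, ij = ZFSet.pair (v (Fin.last n)).1 j ∧
        ZFSet.pair (k (fun i => v i.castSucc)).1 ij ∈ T2.1) →
      ZFSet.pair (v (Fin.last n)).1 p ∈ (o (fun i => v i.castSucc)).1 →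
      ZFSet.pair j p' ∈ (o (fun i => v i.castSucc)).1 → p ∈ p') (DT.const _) ?_
    refine Dfn.ballZ (s := fun _ => δ) (p := fun v p => ∀ p' ∈ δ.1,
      (∃ ij ∈ ZFSet.prod omZ omZ, ij = ZFSet.pair (v (Fin.last n).castSucc).1
        (v (Fin.last (n + 1))).1 ∧ ZFSet.pair (k (fun i => v i.castSucc.castSucc)).1 ij ∈ T2.1) →
      ZFSet.pair (v (Fin.last n).castSucc).1 p ∈ (o (fun i => v i.castSucc.castSucc)).1 →
      ZFSet.pair (v (Fin.last (n + 1))).1 p' ∈ (o (fun i => v i.castSucc.castSucc)).1 →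
      p ∈ p') (DT.const _) ?_
    refine Dfn.ballZ (s := fun _ => δ) (p := fun v p' =>
      (∃ ij ∈ ZFSet.prod omZ omZ, ij = ZFSet.pair (v (Fin.last n).castSucc.castSucc).1
        (v (Fin.last (n + 1)).castSucc).1 ∧
        ZFSet.pair (k (fun i => v i.castSucc.castSucc.castSucc)).1 ij ∈ T2.1) →
      ZFSet.pair (v (Fin.last n).castSucc.castSucc).1 (v (Fin.last (n + 2))).1 ∈
        (o (fun i => v i.castSucc.castSucc.castSucc)).1 →
      ZFSet.pair (v (Fin.last (n + 1)).castSucc).1 p' ∈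
        (o (fun i => v i.castSucc.castSucc.castSucc)).1 →
      (v (Fin.last (n + 2))).1 ∈ p') (DT.const _) ?_
    refine Dfn.imp ?_ (Dfn.imp (Dfn.pairMem (DT.var _) (DT.var _) ho.lift.lift.lift.lift)
      (Dfn.imp (Dfn.pairMem (DT.var _) (DT.var _) ho.lift.lift.lift.lift)
      (Dfn.mem (DT.var _) (DT.var _))))
    refine Dfn.bexZ (s := fun _ => ⟨_, hoo⟩) (p := fun v ij =>
      ij = ZFSet.pair (v (Fin.last n).castSucc.castSucc.castSucc).1
        (v (Fin.last (n + 1)).castSucc.castSucc).1 ∧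
        ZFSet.pair (k (fun i => v i.castSucc.castSucc.castSucc.castSucc)).1 ij ∈ T2.1)
        (DT.const _) ?_
    exact Dfn.and (Dfn.isPair (DT.var _) (DT.var _) (DT.var _))
      (Dfn.pairMem hk.lift.lift.lift.lift.lift (DT.var _) (DT.const _))
  · refine Dfn.ballZ (s := fun _ => ⟨omZ, hom⟩) (p := fun v i => ∀ p ∈ δ.1, ∀ p' ∈ δ.1,
      (∃ z ∈ omZ, z = ∅ ∧ ZFSet.pair z p' ∈ (o v).1) →
      ZFSet.pair i p ∈ (o v).1 → p ∈ p' ∨ p = p') (DT.const _) ?_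
    refine Dfn.ballZ (s := fun _ => δ) (p := fun v p => ∀ p' ∈ δ.1,
      (∃ z ∈ omZ, z = ∅ ∧ ZFSet.pair z p' ∈ (o (fun i => v i.castSucc)).1) →
      ZFSet.pair (v (Fin.last n)).1 p ∈ (o (fun i => v i.castSucc)).1 → p ∈ p' ∨ p = p')
      (DT.const _) ?_
    refine Dfn.ballZ (s := fun _ => δ) (p := fun v p' =>
      (∃ z ∈ omZ, z = ∅ ∧ ZFSet.pair z p' ∈ (o (fun i => v i.castSucc.castSucc)).1) →
      ZFSet.pair (v (Fin.last n).castSucc).1 (v (Fin.last (n + 1))).1 ∈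
        (o (fun i => v i.castSucc.castSucc)).1 →
      (v (Fin.last (n + 1))).1 ∈ p' ∨ (v (Fin.last (n + 1))).1 = p') (DT.const _) ?_
    refine Dfn.imp ?_ (Dfn.imp (Dfn.pairMem (DT.var _) (DT.var _) ho.lift.lift.lift)
      (Dfn.or (Dfn.mem (DT.var _) (DT.var _)) (Dfn.eqv (DT.var _) (DT.var _))))
    refine Dfn.bexZ (s := fun _ => ⟨omZ, hom⟩) (p := fun v z =>
      z = ∅ ∧ ZFSet.pair z (v (Fin.last (n + 2))).1 ∈
        (o (fun i => v i.castSucc.castSucc.castSucc)).1) (DT.const _) ?_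
    exact Dfn.and (Dfn.isEmpty (DT.var _)) (Dfn.pairMem (DT.var _) (DT.var _) ho.lift.lift.lift.lift)

/-- The relation `one step extension` on nodes above `(k0, o0)`. -/
def NodeRel (δ P1 T2 T3 T4 k0 o0 B : N) (y x : N) : Prop :=
  ∃ k' o' : N, y.1 = ZFSet.pair k'.1 o'.1 ∧ ∃ k o : N, x.1 = ZFSet.pair k.1 o.1 ∧
    ZFSet.pair k'.1 k.1 ∈ P1.1 ∧ o.1 ⊆ o'.1 ∧ ZFSet.pair k.1 k0.1 ∈ T4.1 ∧ o0.1 ⊆ o.1 ∧
    Valid δ.1 k'.1 o'.1 T2.1 T3.1 ∧ y.1 ∈ B.1

theorem NodeRel.dfn (δ P1 T2 T3 T4 k0 o0 B : N) :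
    hN.Dfn (fun v : Fin 2 → N => NodeRel δ P1 T2 T3 T4 k0 o0 B (v 0) (v 1)) := by
  refine Dfn.ex (P := fun v k' => ∃ o' : N, (v 0).1 = ZFSet.pair k'.1 o'.1 ∧ ∃ k o : N,
    (v 1).1 = ZFSet.pair k.1 o.1 ∧
    ZFSet.pair k'.1 k.1 ∈ P1.1 ∧ o.1 ⊆ o'.1 ∧ ZFSet.pair k.1 k0.1 ∈ T4.1 ∧ o0.1 ⊆ o.1 ∧
    Valid δ.1 k'.1 o'.1 T2.1 T3.1 ∧ (v 0).1 ∈ B.1) ?_
  refine Dfn.ex (P := fun v o' => (v 0).1 = ZFSet.pair (v 2).1 o'.1 ∧ ∃ k o : N,
    (v 1).1 = ZFSet.pair k.1 o.1 ∧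
    ZFSet.pair (v 2).1 k.1 ∈ P1.1 ∧ o.1 ⊆ o'.1 ∧ ZFSet.pair k.1 k0.1 ∈ T4.1 ∧ o0.1 ⊆ o.1 ∧
    Valid δ.1 (v 2).1 o'.1 T2.1 T3.1 ∧ (v 0).1 ∈ B.1) ?_
  refine Dfn.and (Dfn.isPair (DT.var _) (DT.var _) (DT.var _)) ?_
  refine Dfn.ex (P := fun v k => ∃ o : N,
    (v 1).1 = ZFSet.pair k.1 o.1 ∧
    ZFSet.pair (v 2).1 k.1 ∈ P1.1 ∧ o.1 ⊆ (v 3).1 ∧ ZFSet.pair k.1 k0.1 ∈ T4.1 ∧ o0.1 ⊆ o.1 ∧
    Valid δ.1 (v 2).1 (v 3).1 T2.1 T3.1 ∧ (v 0).1 ∈ B.1) ?_
  refine Dfn.ex (P := fun v o =>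
    (v 1).1 = ZFSet.pair (v 4).1 o.1 ∧
    ZFSet.pair (v 2).1 (v 4).1 ∈ P1.1 ∧ o.1 ⊆ (v 3).1 ∧ ZFSet.pair (v 4).1 k0.1 ∈ T4.1 ∧
    o0.1 ⊆ o.1 ∧ Valid δ.1 (v 2).1 (v 3).1 T2.1 T3.1 ∧ (v 0).1 ∈ B.1) ?_
  exact Dfn.and (Dfn.isPair (DT.var _) (DT.var _) (DT.var _)) (Dfn.and
    (Dfn.pairMem (DT.var _) (DT.var _) (DT.const _)) (Dfn.and
    (Dfn.subset (DT.var _) (DT.var _)) (Dfn.and
    (Dfn.pairMem (DT.var _) (DT.const _) (DT.const _)) (Dfn.and
    (Dfn.subset (DT.const _) (DT.var _)) (Dfn.and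
    (Valid.dfn hN (DT.var _) (DT.var _) _ _ _) (Dfn.mem (DT.var _) (DT.const _)))))))

include hN in
/-- Rank function for the nodes above a node without branches. -/
theorem exists_rank_below {Kr : (ℕ → ℕ) → (ℕ → ℕ) → Prop} {c : ℕ → ℕ}
    (h1 : relZ.{u} (Pone Kr c) ∈ N) (h2 : relThreeZ.{u} Ttwo ∈ N) (h3 : relZ.{u} Tthree ∈ N)
    (h4 : relZ.{u} Tfour ∈ N) {δ : Ordinal.{u}} (hδ : δ.toZFSet ∈ N) (q : ℕ)
    (t : ℕ → ℕ × Ordinal.{u}) (ht : ∀ i < q, (t i).2 < δ)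
    (hno : ∀ b, UB' Kr c b → ¬ Agree q b t) :
    ∃ F : ℕ → (ℕ → ℕ × Ordinal.{u}) → Ordinal.{u}, (∀ n b, (F n b).toZFSet ∈ N) ∧
      (∀ n b b', Agree n b b' → F n b = F n b') ∧
      ∀ n b, q ≤ n → Agree q b t → (∀ i < n + 1, (b i).2 < δ) → TU Kr c (n + 1) b →
        F (n + 1) b < F n b := by
  classical
  have hsub : ∀ o : Ordinal.{u}, o < δ → o.toZFSet ∈ N := fun o ho => hN.toZFSet_mem_of_le ho.le hδ
  obtain ⟨pw, hpw, hpw'⟩ := hN.exists_pow (hN.prod_mem hN.omZ_mem hδ)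
  let B : N := ⟨ZFSet.prod omZ pw, hN.prod_mem hN.omZ_mem hpw⟩
  let δ' : N := ⟨δ.toZFSet, hδ⟩
  let P1 : N := ⟨_, h1⟩
  let T2 : N := ⟨_, h2⟩
  let T3 : N := ⟨_, h3⟩
  let T4 : N := ⟨_, h4⟩
  let k0 : N := ⟨natZ (ini (fun i => (t i).1) q), hN.natZ_mem_N _⟩
  let o0 : N := ⟨oset q t, hN.oset_mem fun i hi => hsub _ (ht i hi)⟩
  let R : N → N → Prop := NodeRel δ' P1 T2 T3 T4 k0 o0 B
  have hRd : hN.Dfn (fun v : Fin 2 → N => R (v 0) (v 1)) := NodeRel.dfn hN _ _ _ _ _ _ _ _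
  have hset : ∀ x : N, ∃ e ∈ N, ∀ y : N, y.1 ∈ e ↔ R y x := by
    intro x
    obtain ⟨e, he, he'⟩ := hN.exists_sep (P := fun y => R y x)
      (Dfn.subst2 (P := R) hRd (DT.var _) (DT.const x)) B.2
    refine ⟨e, he, fun y => ?_⟩
    rw [he']
    constructor
    · rintro ⟨_, _, h⟩; exact h
    · intro h
      refine ⟨?_, y.2, h⟩
      obtain ⟨_, _, _, _, _, _, _, _, _, _, _, h⟩ := h
      exact h
  have wf : WellFounded R := by
    rw [wellFounded_iff_isEmpty_descending_chain]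
    refine ⟨?_⟩
    rintro ⟨x, hx⟩
    choose k' o' hy k o hxx hP ho hT ho0 hV hB using hx
    have hk : ∀ m, k' m = k (m + 1) ∧ o' m = o (m + 1) := by
      intro m
      have := (hy m).symm.trans (hxx (m + 1))
      rw [ZFSet.pair_inj] at this
      exact ⟨Subtype.ext this.1, Subtype.ext this.2⟩
    have hκ : ∀ m, ∃ κ κ' : ℕ, Pone Kr c κ' κ ∧ (k m).1 = natZ κ ∧ (k (m + 1)).1 = natZ κ' := by
      intro m
      obtain ⟨a, b, h, h'⟩ := mem_relZ.1 (hP m)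
      rw [ZFSet.pair_inj] at h'
      exact ⟨b, a, h, h'.2, by rw [← (hk m).1]; exact h'.1⟩
    choose κ κ' hκ1 hκ2 hκ3 using hκ
    have hκ' : ∀ m, κ' m = κ (m + 1) := fun m => natZ_inj.1 ((hκ3 m).symm.trans (hκ2 (m + 1)))
    have hP1 : ∀ m, Pone Kr c (κ (m + 1)) (κ m) := fun m => by rw [← hκ' m]; exact hκ1 m
    have hlen : ∀ m, (Ls (κ (m + 1))).length = (Ls (κ m)).length + 1 := by
      intro m
      obtain ⟨a, ha, _⟩ := hP1 m
      rw [ha]; simp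
    have hlen' : ∀ m, m ≤ (Ls (κ m)).length := by
      intro m
      induction m with
      | zero => exact Nat.zero_le _
      | succ m ih => rw [hlen]; omega
    have hget : ∀ m j i, i < (Ls (κ m)).length →
        (Ls (κ (m + j))).getD i 0 = (Ls (κ m)).getD i 0 := by
      intro m j i hi
      have hle : ∀ j, (Ls (κ m)).length ≤ (Ls (κ (m + j))).length := by
        intro j
        induction j with
        | zero => exact le_rfl
        | succ j ih => rw [← add_assoc, hlen]; omega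
      induction j with
      | zero => rfl
      | succ j ih =>
        rw [← ih, ← add_assoc]
        obtain ⟨a, ha, _⟩ := hP1 (m + j)
        rw [ha, List.getD_append _ _ _ _ (lt_of_lt_of_le hi (hle j))]
    let w : ℕ → ℕ := fun i => (Ls (κ (i + 1))).getD i 0
    have hw : ∀ m i, i < (Ls (κ m)).length → (Ls (κ m)).getD i 0 = w i := by
      intro m i hi
      rcases le_total m (i + 1) with h | h
      · obtain ⟨j, hj⟩ := Nat.exists_eq_add_of_le h
        show _ = (Ls (κ (i + 1))).getD i 0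
        rw [hj, hget m j i hi]
      · obtain ⟨j, hj⟩ := Nat.exists_eq_add_of_le h
        show _ = (Ls (κ (i + 1))).getD i 0
        rw [hj, hget (i + 1) j i (lt_of_lt_of_le (Nat.lt_succ_self i) (hlen' _))]
    -- ordinals
    have hoo : ∀ m, (o m).1 ⊆ (o (m + 1)).1 := fun m => by rw [← (hk m).2]; exact ho m
    have homono : ∀ m j, (o m).1 ⊆ (o (m + j)).1 := by
      intro m j
      induction j with
      | zero => exact fun _ h => h
      | succ j ih => exact fun z hz => hoo _ (ih hz)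
    have hVV : ∀ m, Valid δ.toZFSet (natZ (κ (m + 1))) (o (m + 1)).1 (relThreeZ.{u} Ttwo)
        (relZ.{u} Tthree) := by
      intro m
      have := hV m
      rw [(hk m).1, (hk m).2, hκ2 (m + 1)] at this
      exact this
    have hp : ∀ i, ∃ p, p < δ ∧ ZFSet.pair (natZ i) p.toZFSet ∈ (o (i + 1)).1 := by
      intro i
      obtain ⟨p, hp, hp'⟩ := (hVV i).1 (natZ i) (natZ_mem_omZ i)
        (pair_mem_relZ.2 (lt_of_lt_of_le (Nat.lt_succ_self i) (hlen' (i + 1))))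
      rw [Ordinal.mem_toZFSet_iff] at hp
      obtain ⟨a, ha, rfl⟩ := hp
      exact ⟨a, ha, hp'⟩
    choose r hr1 hr2 using hp
    have hr3 : ∀ i m, i < m → ZFSet.pair (natZ i) (r i).toZFSet ∈ (o m).1 := by
      intro i m h
      obtain ⟨j, hj⟩ := Nat.exists_eq_add_of_le (Nat.succ_le_of_lt h)
      have := homono (i + 1) j (hr2 i)
      rw [hj]; exact this
    have hmem : ∀ i, (r i).toZFSet ∈ δ.toZFSet := fun i =>
      Ordinal.toZFSet_mem_toZFSet_iff.2 (hr1 i)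
    let b : ℕ → ℕ × Ordinal.{u} := fun i => (w i, r i)
    have hb : UB' Kr c b := by
      intro n
      obtain ⟨a, _, c', w', hc', hw', hKr⟩ := hP1 n
      have hn : n + 1 ≤ (Ls (κ (n + 1))).length := hlen' _
      refine ⟨⟨c', w', hc'.mono (by omega), fun i hi => ?_, hKr⟩, fun i hi => ?_,
        fun i j hi hj hij hne => ?_⟩
      · rw [hw' i (by omega)]
        exact hw (n + 1) i (by omega)
      · have h5 := (hVV n).2.2.2 (natZ i) (natZ_mem_omZ i) _ (hmem i) _ (hmem 0)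
          ⟨∅, natZ_mem_omZ 0, rfl, hr3 0 _ (by omega)⟩ (hr3 i _ (by omega))
        rcases h5 with h5 | h5
        · exact (Ordinal.toZFSet_mem_toZFSet_iff.1 h5).le
        · exact (Ordinal.toZFSet_injective h5).le
      · have h5 := (hVV n).2.2.1 (natZ (i + 1)) (natZ_mem_omZ _) (natZ (j + 1)) (natZ_mem_omZ _) _
          (hmem (i + 1)) _ (hmem (j + 1)) ⟨_, ZFSet.mem_prod.2 ⟨_, natZ_mem_omZ _, _,
          natZ_mem_omZ _, rfl⟩, rfl, pair_mem_relThreeZ.2 ⟨i, j, rfl, rfl, by omega, by omega,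
          by omega, ?_⟩⟩ (hr3 _ _ (by omega)) (hr3 _ _ (by omega))
        · exact Ordinal.toZFSet_mem_toZFSet_iff.1 h5
        · rw [hw (n + 1) _ (by omega)]; exact hne
    refine hno b hb fun i hi => ?_
    have hT0 := hT q
    rw [hκ2 q] at hT0
    have hT1 : Tfour (κ q) (ini (fun i => (t i).1) q) := pair_mem_relZ.1 hT0
    have hqlen := hlen' q
    obtain ⟨l, hl⟩ := hT1
    have e1 : w i = (t i).1 := by
      rw [← hw q i (by omega), ← hl, List.getD_append _ _ _ _ (by rw [length_Ls_ini]; exact hi),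
        getD_Ls_ini _ hi]
    have e2 : r i = (t i).2 := by
      have h5 : ZFSet.pair (natZ i) (t i).2.toZFSet ∈ (o (q + 1)).1 :=
        hoo q (ho0 q (pair_mem_oset.2 ⟨hi, rfl⟩))
      have h6 := (hVV q).2.1 (natZ i) (natZ_mem_omZ i) _ (hmem i) _
        (Ordinal.toZFSet_mem_toZFSet_iff.2 (ht i hi)) (hr3 i (q + 1) (by omega)) h5
      exact Ordinal.toZFSet_injective h6
    exact Prod.ext e1 e2
  obtain ⟨F, hF1, hF2⟩ := hN.exists_rank hRd hset wf
  have hle0 : (0 : Ordinal.{u}).toZFSet ∈ N := by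
    rw [Ordinal.toZFSet_zero]; exact hN.empty_mem
  refine ⟨fun n b => if h : enc n b ∈ N then F ⟨_, h⟩ else 0, fun n b => ?_, fun n b b' h => ?_,
    fun n b hqn hbt hbδ hTU => ?_⟩
  · dsimp only
    split_ifs with h
    · exact hF1 _
    · exact hle0
  · simp only [enc_congr h]
  · have hm1 : enc (n + 1) b ∈ N := hN.enc_mem fun i hi => hsub _ (hbδ i hi)
    have hm0 : enc n b ∈ N := hN.enc_mem fun i hi => hsub _ (hbδ i (by omega))
    dsimp only
    rw [dif_pos hm1, dif_pos hm0]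
    apply hF2
    obtain ⟨⟨c', w', hc', hw', hKr⟩, h5, h6⟩ := hTU
    refine ⟨⟨natZ (ini (fun i => (b i).1) (n + 1)), hN.natZ_mem_N _⟩,
      ⟨oset (n + 1) b, hN.oset_mem fun i hi => hsub _ (hbδ i hi)⟩, rfl,
      ⟨natZ (ini (fun i => (b i).1) n), hN.natZ_mem_N _⟩,
      ⟨oset n b, hN.oset_mem fun i hi => hsub _ (hbδ i (by omega))⟩, rfl, ?_, ?_, ?_, ?_, ?_, ?_⟩
    · refine pair_mem_relZ.2 ⟨(b n).1, ?_, c', w', ?_, ?_, hKr⟩
      · rw [Ls_ini, Ls_ini, List.range_succ]; simp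
      · rw [length_Ls_ini]; exact hc'
      · rw [length_Ls_ini]
        intro i hi
        rw [hw' i hi]
        exact (getD_Ls_ini (fun i => (b i).1) hi).symm
    · intro z hz
      rw [mem_oset] at hz ⊢
      obtain ⟨i, hi, rfl⟩ := hz
      exact ⟨i, by omega, rfl⟩
    · refine pair_mem_relZ.2 ?_
      show Ls (ini (fun i => (t i).1) q) <+: Ls (ini (fun i => (b i).1) n)
      rw [Ls_ini, Ls_ini]
      obtain ⟨j, rfl⟩ := Nat.exists_eq_add_of_le hqn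
      have : (List.range q).map (fun i => (t i).1) = (List.range q).map (fun i => (b i).1) := by
        apply List.map_congr_left
        intro i hi
        rw [hbt i (List.mem_range.1 hi)]
      rw [this, List.range_add, List.map_append]
      exact ⟨_, rfl⟩
    · intro z hz
      rw [mem_oset] at hz ⊢
      obtain ⟨i, hi, rfl⟩ := hz
      exact ⟨i, by omega, by rw [hbt i hi]⟩
    · refine ⟨fun i hi hT => ?_, fun i hi p hp p' hp' hip hip' => ?_,
        fun i hi j hj p hp p' hp' hij hip hjp => ?_, fun i hi p hp p' hp' hz hip => ?_⟩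
      · obtain ⟨i, rfl⟩ := mem_omZ.1 hi
        have hi' : i < n + 1 := by
          have := pair_mem_relZ.1 hT
          unfold Tthree at this
          rwa [length_Ls_ini] at this
        exact ⟨_, Ordinal.toZFSet_mem_toZFSet_iff.2 (hbδ i hi'), pair_mem_oset.2 ⟨hi', rfl⟩⟩
      · obtain ⟨i, rfl⟩ := mem_omZ.1 hi
        rw [(pair_mem_oset.1 hip).2, (pair_mem_oset.1 hip').2]
      · obtain ⟨i, rfl⟩ := mem_omZ.1 hi
        obtain ⟨j, rfl⟩ := mem_omZ.1 hj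
        obtain ⟨ij, _, rfl, hT⟩ := hij
        obtain ⟨a, a', rfl, rfl, ha, ha', haa, hne⟩ := pair_mem_relThreeZ.1 hT
        rw [length_Ls_ini] at ha ha' haa
        rw [getD_Ls_ini _ haa] at hne
        rw [(pair_mem_oset.1 hip).2, (pair_mem_oset.1 hjp).2, Ordinal.toZFSet_mem_toZFSet_iff]
        exact h6 a a' ha ha' haa hne
      · obtain ⟨i, rfl⟩ := mem_omZ.1 hi
        obtain ⟨z, _, rfl, hz⟩ := hz
        have hz' : ZFSet.pair (natZ 0) p' ∈ oset (n + 1) b := hz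
        rw [(pair_mem_oset.1 hip).2, (pair_mem_oset.1 hz').2, Ordinal.toZFSet_mem_toZFSet_iff,
          Ordinal.toZFSet_injective.eq_iff]
        exact (h5 i (pair_mem_oset.1 hip).1).lt_or_eq
    · refine ZFSet.mem_prod.2 ⟨_, natZ_mem_omZ _, oset (n + 1) b, (hpw' _).2 ⟨hN.oset_mem
        fun i hi => hsub _ (hbδ i hi), fun z hz => ?_⟩, rfl⟩
      obtain ⟨i, hi, rfl⟩ := mem_oset.1 hz
      exact ZFSet.mem_prod.2 ⟨_, natZ_mem_omZ _, _,
        Ordinal.toZFSet_mem_toZFSet_iff.2 (hbδ i hi), rfl⟩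

include hN in
/-- A countable transitive model that contains the height of a branch contains (the ordinals of)
a certificate. -/
theorem exists_cert {Kr : (ℕ → ℕ) → (ℕ → ℕ) → Prop} {c : ℕ → ℕ}
    (h1 : relZ.{u} (Pone Kr c) ∈ N) (h2 : relThreeZ.{u} Ttwo ∈ N) (h3 : relZ.{u} Tthree ∈ N)
    (h4 : relZ.{u} Tfour ∈ N) (hb : ∃ b, UB' Kr c b ∧ (b 0).2.toZFSet ∈ N) :
    ∃ h, Cert Kr c h ∧ ∀ n, (h n).2.toZFSet ∈ N := by
  classical
  obtain ⟨b1, hb1, hb1N⟩ := hb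
  obtain ⟨b, hbl⟩ := exists_leftmost (𝒰 := UB' Kr c) (UB'.closed c) ⟨b1, hb1⟩
  have hb0 : (b 0).2 ≤ (b1 0).2 := le_of_ky_le (hbl.2 0 b1 hb1 (agree_zero _ _))
  have hb0N : (b 0).2.toZFSet ∈ N := hN.toZFSet_mem_of_le hb0 hb1N
  set δ := Order.succ (b 0).2 with hδ
  have hδN : δ.toZFSet ∈ N := by
    rw [hδ, Ordinal.toZFSet_succ]; exact hN.insert_mem hb0N hb0N
  have hbδ : ∀ i, (b i).2 < δ := fun i => Order.lt_succ_iff.2 (hbl.1.le i)
  have hsub : ∀ o : Ordinal.{u}, o < δ → o.toZFSet ∈ N := fun o ho => hN.toZFSet_mem_of_le ho.le hδN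
  -- enumeration of the ordinals below `δ`
  have hcount : (Set.Iio δ).Countable := by
    have := hN.countable.to_subtype
    refine Set.countable_coe_iff.1 ?_
    exact (Function.Injective.countable (f := fun o : Set.Iio δ => (⟨o.1.toZFSet, hsub _ o.2⟩ : N))
      (fun x y h => Subtype.ext (Ordinal.toZFSet_injective (congrArg Subtype.val h))))
  have hne : (Set.Iio δ).Nonempty := ⟨(b 0).2, hbδ 0⟩
  obtain ⟨a, ha⟩ := hcount.exists_eq_range hne
  have haδ : ∀ n, a n < δ := fun n => by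
    have : a n ∈ Set.Iio δ := by rw [ha]; exact ⟨n, rfl⟩
    exact this
  have hsurj : ∀ o < δ, ∃ n, a n = o := fun o ho => by
    have : o ∈ Set.Iio δ := ho
    rw [ha] at this; exact this
  choose e he using fun i => hsurj _ (hbδ i)
  -- lists of indices
  let tl : List (ℕ × ℕ) → ℕ → ℕ × Ordinal.{u} := fun l i => ((l.getD i (0, 0)).1, a (l.getD i (0, 0)).2)
  -- rank functions
  have hF : ∀ l : List (ℕ × ℕ), ∃ F : ℕ → (ℕ → ℕ × Ordinal.{u}) → Ordinal.{u},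
      (∀ n b, (F n b).toZFSet ∈ N) ∧ (∀ n b b', Agree n b b' → F n b = F n b') ∧
      (∀ q, l.length = q + 1 → Agree q (tl l) b → ky (tl l q) < ky (b q) →
        ∀ n b', q + 1 ≤ n → Agree (q + 1) b' (tl l) → (∀ i < n + 1, (b' i).2 < δ) →
        TU Kr c (n + 1) b' → F (n + 1) b' < F n b') := by
    intro l
    by_cases hl : ∃ q, l.length = q + 1 ∧ Agree q (tl l) b ∧ ky (tl l q) < ky (b q)
    · obtain ⟨q, hq1, hq2, hq3⟩ := hl
      obtain ⟨F, hF1, hF2, hF3⟩ := hN.exists_rank_below h1 h2 h3 h4 hδN (q + 1) (tl l)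
        (fun i _ => haδ _) (fun b' hb' hag => by
          have h5 := hbl.2 q b' hb' ((hag.mono (Nat.le_succ q)).trans hq2)
          rw [hag q (Nat.lt_succ_self q)] at h5
          exact absurd h5 (not_le.2 hq3))
      refine ⟨F, hF1, hF2, fun q' hq' _ _ => ?_⟩
      have : q' = q := by omega
      subst this
      exact hF3
    · exact ⟨fun _ _ => 0, fun _ _ => by rw [Ordinal.toZFSet_zero]; exact hN.empty_mem,
        fun _ _ _ _ => rfl, fun q h5 h6 h7 => (hl ⟨q, h5, h6, h7⟩).elim⟩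
  choose FF hFF1 hFF2 hFF3 using hF
  let ρ : ℕ → Ordinal.{u} := fun k =>
    let l : List (ℕ × ℕ) := Denumerable.ofNat _ k
    if h : ∃ q, q < l.length ∧ Agree q (tl l) b ∧ ky (tl l q) < ky (b q) then
      FF (l.take (h.choose + 1)) l.length (tl l) else 0
  let h : ℕ → ℕ × Ordinal.{u} := fun k =>
    if k % 2 = 0 then ((b (k / 2)).1, a (k / 2)) else (e (k / 2), ρ (k / 2))
  have e1 : ∀ n, ca h n = a n := fun n => by
    have : 2 * n % 2 = 0 := by omega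
    simp only [ca, h, if_pos this]; congr 1; omega
  have e2 : ∀ n, cr h n = ρ n := fun n => by
    have : ¬ (2 * n + 1) % 2 = 0 := by omega
    simp only [cr, h, if_neg this]; congr 1; omega
  have e3 : ∀ n, cw h n = (b n).1 := fun n => by
    have h5 : 2 * n % 2 = 0 := by omega
    have h6 : 2 * n / 2 = n := by omega
    simp only [cw, h, if_pos h5, h6]
  have e4 : ∀ n, ce h n = e n := fun n => by
    have : ¬ (2 * n + 1) % 2 = 0 := by omega
    simp only [ce, h, if_neg this]; congr 1; omega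
  have ecb : cb h = b := by
    funext n
    unfold cb
    rw [e3, e4, e1, he]
  refine ⟨h, ⟨fun n => by rw [ecb]; exact hbl.1 n, fun x n hl hTU => ?_⟩, fun n => ?_⟩
  · rw [ecb] at hl
    rw [e2, e2]
    have ho : ∀ m, Denumerable.ofNat (List (ℕ × ℕ)) (ini x m) = (List.range m).map x := fun m =>
      Denumerable.ofNat_encode _
    have htl : ∀ m, Agree m (tl ((List.range m).map x)) (ct h x) := by
      intro m i hi
      have : ((List.range m).map x).getD i (0, 0) = x i := by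
        rw [List.getD_eq_getElem _ _ (by simpa using hi)]; simp
      show ((((List.range m).map x).getD i (0, 0)).1, a (((List.range m).map x).getD i (0, 0)).2) = _
      rw [this]
      unfold ct
      rw [e1]
    obtain ⟨q, hq, hq1, hq2⟩ := hl
    have huniq : ∀ q' (t' : ℕ → ℕ × Ordinal.{u}), Agree q' t' b → ky (t' q') < ky (b q') →
        ∀ m, q < m → q' < m → Agree m t' (ct h x) → q' = q := by
      intro q' t' h5 h6 m hm hm' hag
      rcases lt_trichotomy q' q with h7 | h7 | h7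
      · rw [hag q' hm', hq1 q' h7] at h6
        exact absurd h6 (lt_irrefl _)
      · exact h7
      · rw [← hag q hm, h5 q h7] at hq2
        exact absurd hq2 (lt_irrefl _)
    have hρ : ∀ m, q < m → ρ (ini x m) = FF ((List.range (q + 1)).map x) m (ct h x) := by
      intro m hm
      simp only [ρ, ho]
      have hex : ∃ q, q < ((List.range m).map x).length ∧
          Agree q (tl ((List.range m).map x)) b ∧
          ky (tl ((List.range m).map x) q) < ky (b q) :=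
        ⟨q, by simpa using hm, ((htl m).mono hm.le).trans hq1, by rw [htl m q hm]; exact hq2⟩
      rw [dif_pos hex]
      obtain ⟨h5, h6, h7⟩ := hex.choose_spec
      have h8 : hex.choose = q := huniq _ _ h6 h7 m hm (by simpa using h5) (htl m)
      rw [h8]
      have h9 : ((List.range m).map x).take (q + 1) = (List.range (q + 1)).map x := by
        rw [← List.map_take, List.take_range]
        congr 2; omega
      have h10 : ((List.range m).map x).length = m := by simp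
      rw [h9, h10]
      exact hFF2 _ _ _ _ (htl m)
    rw [hρ (n + 1) (by omega), hρ n hq]
    refine hFF3 _ q (by simp) ?_ ?_ n (ct h x) (by omega) (htl (q + 1)).symm (fun i hi => ?_) hTU
    · exact ((htl (q + 1)).mono (by omega)).trans hq1
    · rw [htl (q + 1) q (by omega)]; exact hq2
    · show ca h (x i).2 < δ
      rw [e1]; exact haδ _
  · simp only [h]
    split_ifs with h5
    · exact hsub _ (haδ _)
    · simp only [ρ]
      split_ifs with h6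
      · exact hFF1 _ _ _
      · rw [Ordinal.toZFSet_zero]; exact hN.empty_mem

end CTM

/-- The relation coded by `c` with a new top element. -/
def Ep (c : ℕ → ℕ) (m n : ℕ) : Prop :=
  (n = 0 ∧ m ≠ 0) ∨ ∃ m' n', m = m' + 1 ∧ n = n' + 1 ∧ Ec c m' n'

theorem Ep_succ {c : ℕ → ℕ} {m n : ℕ} : Ep c m (n + 1) ↔ ∃ m', m = m' + 1 ∧ Ec c m' n := by
  constructor
  · rintro (⟨h, _⟩ | ⟨m', n', h1, h2, h3⟩)
    · omega
    · have : n' = n := by omega
      subst this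
      exact ⟨m', h1, h3⟩
  · rintro ⟨m', h1, h2⟩
    exact Or.inr ⟨m', n, h1, rfl, h2⟩

theorem Ep_wf {c : ℕ → ℕ} (wf : WellFounded (Ec c)) : WellFounded (Ep c) := by
  have h1 : ∀ n, Acc (Ep c) (n + 1) := by
    intro n
    induction n using wf.induction with
    | _ n ih =>
      refine Acc.intro _ fun m hm => ?_
      obtain ⟨m', rfl, h⟩ := Ep_succ.1 hm
      exact ih m' h
  refine ⟨fun n => ?_⟩
  cases n with
  | zero =>
    refine Acc.intro _ fun m hm => ?_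
    rcases hm with ⟨_, h⟩ | ⟨m', n', h, h', _⟩
    · cases m with
      | zero => exact (h rfl).elim
      | succ m => exact h1 m
    · omega
  | succ n => exact h1 n

theorem isVal_Ep {c : ℕ → ℕ} {x : ZFSet.{u}} : ∀ {n : ℕ}, IsVal (Ep c) x (n + 1) ↔
    IsVal (Ec c) x n := by
  induction x using ZFSet.inductionOn with
  | _ x ih =>
    intro n
    rw [isVal_iff, isVal_iff]
    constructor
    · rintro ⟨h1, h2⟩
      refine ⟨fun m hm => ?_, fun y hy => ?_⟩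
      · obtain ⟨y, hy, hy'⟩ := h1 (m + 1) (Ep_succ.2 ⟨m, rfl, hm⟩)
        exact ⟨y, hy, (ih y hy).1 hy'⟩
      · obtain ⟨m, hm, hm'⟩ := h2 y hy
        obtain ⟨m', rfl, h⟩ := Ep_succ.1 hm
        exact ⟨m', h, (ih y hy).1 hm'⟩
    · rintro ⟨h1, h2⟩
      refine ⟨fun m hm => ?_, fun y hy => ?_⟩
      · obtain ⟨m', rfl, h⟩ := Ep_succ.1 hm
        obtain ⟨y, hy, hy'⟩ := h1 m' h
        exact ⟨y, hy, (ih y hy).2 hy'⟩
      · obtain ⟨m, hm, hm'⟩ := h2 y hy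
        exact ⟨m + 1, Ep_succ.2 ⟨m, rfl, hm⟩, (ih y hy).2 hm'⟩

theorem rank_lt_pair (x y : ZFSet.{u}) : x.rank < (ZFSet.pair x y).rank ∧
    y.rank < (ZFSet.pair x y).rank := by
  have h1 : ({x, y} : ZFSet.{u}) ∈ ZFSet.pair x y := by
    rw [ZFSet.pair, ZFSet.mem_pair]; exact Or.inr rfl
  have h2 := ZFSet.rank_lt_of_mem h1
  exact ⟨(ZFSet.rank_lt_of_mem (by simp)).trans h2, (ZFSet.rank_lt_of_mem (by simp)).trans h2⟩

namespace CTM

variable {N : Set ZFSet.{u}} (hN : CTM N)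

include hN in
/-- If a countable transitive model satisfies `∀ x ∃ y ψ(x, y)` with `ψ` being `Δ₀`, then it has
witnesses. -/
theorem exists_witness {ψ : Fml} (hψ : ψ.Delta0) (hfree : ∀ n, ψ.Free n → n = 0 ∨ n = 1)
    (hφ : Models N (piTwo ψ)) {x : ZFSet.{u}} (hx : x ∈ N) : ∃ y ∈ N, Tr ψ x y := by
  obtain ⟨y, hy⟩ := hφ (fun _ => ⟨x, hx⟩) ⟨x, hx⟩
  refine ⟨y.1, y.2, ?_⟩
  have h1 : Sat (SMem N) ψ (asg ⟨x, hx⟩ y) := by
    refine (Sat.congr_free fun i hi => ?_).1 hy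
    rcases hfree i hi with rfl | rfl
    · simp [upd, asg]
    · simp [upd, asg]
  rw [hψ.absolute hN.trans] at h1
  rw [Tr]
  have : asg x y.1 = fun i => (asg (⟨x, hx⟩ : N) y i).1 := by
    funext i; simp only [asg]; split_ifs <;> rfl
  rw [this]; exact h1

include hN in
/-- Conversely, witnesses in the model for all elements of the model. -/
theorem models_of_witness {ψ : Fml} (hψ : ψ.Delta0) (hfree : ∀ n, ψ.Free n → n = 0 ∨ n = 1)
    (h : ∀ x ∈ N, ∃ y ∈ N, Tr ψ x y) : Models N (piTwo ψ) := by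
  intro f x
  obtain ⟨y, hy, hy'⟩ := h x.1 x.2
  refine ⟨⟨y, hy⟩, ?_⟩
  have h1 : Sat (SMem N) ψ (asg x ⟨y, hy⟩) := by
    rw [hψ.absolute hN.trans]
    rw [Tr] at hy'
    have : asg x.1 y = fun i => (asg x (⟨y, hy⟩ : N) i).1 := by
      funext i; simp only [asg]; split_ifs <;> rfl
    rw [← this]; exact hy'
  refine (Sat.congr_free fun i hi => ?_).1 h1
  rcases hfree i hi with rfl | rfl
  · simp [upd, asg]
  · simp [upd, asg]

include hN in
/-- In a countable transitive model of the sentence, every code has a branch. -/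
theorem exists_branch {ψ : Fml} (hψ : ψ.Delta0) (hfree : ∀ n, ψ.Free n → n = 0 ∨ n = 1)
    {Kr : (ℕ → ℕ) → (ℕ → ℕ) → Prop} (hK : KrClosed Kr)
    (hKP : ∀ c ε, Pr ψ c ε ↔ ∃ w, Kr c w ∧ ∀ n, (w n).unpair.1 = ε n)
    (hφ : Models N (piTwo ψ)) {c : ℕ → ℕ} (hc : relZ.{u} (Ep c) ∈ N) :
    ∃ b, UB' Kr c b ∧ (b 0).2.toZFSet ∈ N := by
  by_cases wf : WellFounded (Ec c)
  · have hv : ∀ n, ∃ v ∈ N, IsVal (Ep c) v (n + 1) := fun n => hN.exists_isVal (Ep_wf wf) hc (n + 1)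
    choose v hvN hv using hv
    obtain ⟨X, hX, hX'⟩ := hN.exists_isVal (Ep_wf wf) hc 0
    obtain ⟨y, hy, hty⟩ := hN.exists_witness hψ hfree hφ (hvN 0)
    set Z := ZFSet.pair X (ZFSet.pair y omZ) with hZ
    have hZN : Z ∈ N := hN.pair_mem hX (hN.pair_mem hy hN.omZ_mem)
    have r1 : X.rank < Z.rank := (rank_lt_pair _ _).1
    have r2 : y.rank < Z.rank := (rank_lt_pair _ _).1.trans (rank_lt_pair _ _).2
    have r3 : (omZ.{u}).rank < Z.rank := (rank_lt_pair _ _).2.trans (rank_lt_pair _ _).2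
    have t1 : {z | z ∈ N ∧ z.rank < Z.rank}.Infinite :=
      Set.infinite_of_injective_forall_mem (f := natZ.{u}) (fun m n h => natZ_inj.1 h)
        fun n => ⟨hN.natZ_mem_N n, (ZFSet.rank_lt_of_mem (natZ_mem_omZ n)).trans r3⟩
    have t2 : ∀ x ∈ {z | z ∈ N ∧ z.rank < Z.rank}, ∀ y ∈ x, y ∈ {z | z ∈ N ∧ z.rank < Z.rank} := by
      rintro x ⟨hx, hx'⟩ z hz
      exact ⟨hN.mem_of_mem hx hz, (ZFSet.rank_lt_of_mem hz).trans hx'⟩
    have t3 : ∀ n, v n ∈ {z | z ∈ N ∧ z.rank < Z.rank} := by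
      intro n
      obtain ⟨z, hz, hz'⟩ := (isVal_iff.1 hX').1 (n + 1) (Or.inl ⟨rfl, Nat.succ_ne_zero n⟩)
      refine ⟨hvN n, ?_⟩
      rw [(hv n).unique hz']
      exact (ZFSet.rank_lt_of_mem hz).trans r1
    obtain ⟨b, hb, hb0⟩ := branch_of_witness hψ hK hKP (c := c) (v := v)
      (fun n => isVal_Ep.1 (hv n)) (T := {z | z ∈ N ∧ z.rank < Z.rank})
      (hN.countable.mono fun z hz => hz.1) t1 t2 t3 ⟨hy, r2⟩ hty (β := Z.rank) (fun z hz => hz.2)
    exact ⟨b, hb, by rw [hb0]; exact hN.rank_mem hZN⟩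
  · obtain ⟨b, hb, hb0⟩ := branch_of_illFounded hψ hK hKP wf
    exact ⟨b, hb, by rw [hb0, Ordinal.toZFSet_zero]; exact hN.empty_mem⟩

end CTM

end Pool.Agent.H17.Omega
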