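import Pool.Agent.H17.Omega.CtmV
import Pool.Agent.H17.Omega.CtmN

/-!
# Countable transitive models of ZFC: definability of satisfaction, coded assignments
-/

set_option autoImplicit false
set_option linter.unusedVariables false
set_option linter.unusedSectionVars false
set_option linter.unusedSimpArgs false
set_option linter.deprecated false

universe u v w

namespace Pool.Agent.H17.Omega

open Classical in
/-- First component. -/
noncomputable def zfst (z : ZFSet.{u}) : ZFSet.{u} :=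
  if h : ∃ a b, z = ZFSet.pair a b then h.choose else ∅

open Classical in
/-- Second component. -/
noncomputable def zsnd (z : ZFSet.{u}) : ZFSet.{u} :=
  if h : ∃ a b, z = ZFSet.pair a b then h.choose_spec.choose else ∅

theorem zfst_pair (a b : ZFSet.{u}) : zfst (ZFSet.pair a b) = a := by
  have h : ∃ a' b', ZFSet.pair a b = ZFSet.pair a' b' := ⟨a, b, rfl⟩
  have h1 := h.choose_spec.choose_spec
  rw [ZFSet.pair_inj] at h1
  rw [zfst, dif_pos h]; exact h1.1.symm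

theorem zsnd_pair (a b : ZFSet.{u}) : zsnd (ZFSet.pair a b) = b := by
  have h : ∃ a' b', ZFSet.pair a b = ZFSet.pair a' b' := ⟨a, b, rfl⟩
  have h1 := h.choose_spec.choose_spec
  rw [ZFSet.pair_inj] at h1
  rw [zsnd, dif_pos h]; exact h1.2.symm

theorem zfst_of_not {z : ZFSet.{u}} (h : ¬ ∃ a b, z = ZFSet.pair a b) : zfst z = ∅ := by
  rw [zfst, dif_neg h]

theorem zsnd_of_not {z : ZFSet.{u}} (h : ¬ ∃ a b, z = ZFSet.pair a b) : zsnd z = ∅ := by
  rw [zsnd, dif_neg h]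

namespace CTM

variable {N : Set ZFSet.{u}} (hN : CTM N)

include hN in
theorem zfst_mem {z : ZFSet.{u}} (hz : z ∈ N) : zfst z ∈ N := by
  by_cases h : ∃ a b, z = ZFSet.pair a b
  · obtain ⟨a, b, rfl⟩ := h
    rw [zfst_pair]; exact (hN.of_pair_mem hz).1
  · rw [zfst_of_not h]; exact hN.empty_mem

include hN in
theorem zsnd_mem {z : ZFSet.{u}} (hz : z ∈ N) : zsnd z ∈ N := by
  by_cases h : ∃ a b, z = ZFSet.pair a b
  · obtain ⟨a, b, rfl⟩ := h
    rw [zsnd_pair]; exact (hN.of_pair_mem hz).2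
  · rw [zsnd_of_not h]; exact hN.empty_mem

/-- The `i`-th entry of a coded sequence. -/
noncomputable def dec (hN : CTM N) : N → ℕ → N
  | e, 0 => ⟨zfst e.1, hN.zfst_mem e.2⟩
  | e, i + 1 => dec hN ⟨zsnd e.1, hN.zsnd_mem e.2⟩ i

variable {hN}

theorem fst_dfn : hN.Dfn (fun v : Fin 2 → N => (⟨zfst (v 0).1, hN.zfst_mem (v 0).2⟩ : N) = v 1) := by
  have h1 : hN.Dfn (fun v : Fin 2 → N => ∃ b : N, (v 0).1 = ZFSet.pair (v 1).1 b.1) :=
    Dfn.ex (P := fun v b => (v 0).1 = ZFSet.pair (v 1).1 b.1) (Dfn.isPair (DT.var _) (DT.var _) (DT.var _))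
  have h2 : hN.Dfn (fun v : Fin 2 → N => ∃ a b : N, (v 0).1 = ZFSet.pair a.1 b.1) :=
    Dfn.ex (P := fun v a => ∃ b : N, (v 0).1 = ZFSet.pair a.1 b.1)
    (Dfn.ex (P := fun v b => (v 0).1 = ZFSet.pair (v 2).1 b.1) (Dfn.isPair (DT.var _) (DT.var _) (DT.var _)))
  refine (Dfn.or h1 (Dfn.and (Dfn.not h2) (Dfn.isEmpty (s := fun v => v 1) (DT.var _)))).congr fun v => ?_
  rw [Subtype.ext_iff]
  by_cases h : ∃ a b, (v 0).1 = ZFSet.pair a b
  · obtain ⟨a, b, hab⟩ := h
    have hN' : a ∈ N ∧ b ∈ N := hN.of_pair_mem (by rw [← hab]; exact (v 0).2)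
    show _ ↔ zfst (v 0).1 = (v 1).1
    rw [hab, zfst_pair]
    constructor
    · rintro (⟨b', hb⟩ | ⟨h3, _⟩)
      · exact (ZFSet.pair_inj.1 hb).1
      · exact (h3 ⟨⟨a, hN'.1⟩, ⟨b, hN'.2⟩, rfl⟩).elim
    · rintro rfl
      exact Or.inl ⟨⟨b, hN'.2⟩, rfl⟩
  · show _ ↔ zfst (v 0).1 = (v 1).1
    rw [zfst_of_not h]
    constructor
    · rintro (⟨b', hb⟩ | ⟨_, h3⟩)
      · exact (h ⟨_, _, hb⟩).elim
      · exact h3.symm
    · intro h3
      exact Or.inr ⟨fun ⟨a, b, hab⟩ => h ⟨_, _, hab⟩, h3.symm⟩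

theorem snd_dfn : hN.Dfn (fun v : Fin 2 → N => (⟨zsnd (v 0).1, hN.zsnd_mem (v 0).2⟩ : N) = v 1) := by
  have h1 : hN.Dfn (fun v : Fin 2 → N => ∃ b : N, (v 0).1 = ZFSet.pair b.1 (v 1).1) :=
    Dfn.ex (P := fun v b => (v 0).1 = ZFSet.pair b.1 (v 1).1) (Dfn.isPair (DT.var _) (DT.var _) (DT.var _))
  have h2 : hN.Dfn (fun v : Fin 2 → N => ∃ a b : N, (v 0).1 = ZFSet.pair a.1 b.1) :=
    Dfn.ex (P := fun v a => ∃ b : N, (v 0).1 = ZFSet.pair a.1 b.1)
    (Dfn.ex (P := fun v b => (v 0).1 = ZFSet.pair (v 2).1 b.1) (Dfn.isPair (DT.var _) (DT.var _) (DT.var _)))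
  refine (Dfn.or h1 (Dfn.and (Dfn.not h2) (Dfn.isEmpty (s := fun v => v 1) (DT.var _)))).congr fun v => ?_
  rw [Subtype.ext_iff]
  by_cases h : ∃ a b, (v 0).1 = ZFSet.pair a b
  · obtain ⟨a, b, hab⟩ := h
    have hN' : a ∈ N ∧ b ∈ N := hN.of_pair_mem (by rw [← hab]; exact (v 0).2)
    show _ ↔ zsnd (v 0).1 = (v 1).1
    rw [hab, zsnd_pair]
    constructor
    · rintro (⟨b', hb⟩ | ⟨h3, _⟩)
      · exact (ZFSet.pair_inj.1 hb).2
      · exact (h3 ⟨⟨a, hN'.1⟩, ⟨b, hN'.2⟩, rfl⟩).elim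
    · rintro rfl
      exact Or.inl ⟨⟨a, hN'.1⟩, rfl⟩
  · show _ ↔ zsnd (v 0).1 = (v 1).1
    rw [zsnd_of_not h]
    constructor
    · rintro (⟨b', hb⟩ | ⟨_, h3⟩)
      · exact (h ⟨_, _, hb⟩).elim
      · exact h3.symm
    · intro h3
      exact Or.inr ⟨fun ⟨a, b, hab⟩ => h ⟨_, _, hab⟩, h3.symm⟩

theorem dec_dfn (i : ℕ) : hN.Dfn (fun v : Fin 2 → N => hN.dec (v 0) i = v 1) := by
  induction i with
  | zero => exact fst_dfn
  | succ i ih =>
    refine (Dfn.ex (P := fun v e => (⟨zsnd (v 0).1, hN.zsnd_mem (v 0).2⟩ : N) = e ∧ hN.dec e i = v 1)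
      (Dfn.and ?_ ?_)).congr fun v => ?_
    · exact Dfn.subst2 (P := fun x y => (⟨zsnd x.1, hN.zsnd_mem x.2⟩ : N) = y) snd_dfn (DT.var _) (DT.var _)
    · exact Dfn.subst2 (P := fun x y => hN.dec x i = y) ih (DT.var _) (DT.var _)
    · constructor
      · rintro ⟨e, rfl, h⟩; exact h
      · intro h; exact ⟨_, rfl, h⟩

/-- Terms: variables, parameters and entries of coded sequences. -/
def DTD {n : ℕ} (t : (Fin n → N) → N) : Prop :=
  hN.DT t ∨ ∃ (s : (Fin n → N) → N) (j : ℕ), hN.DT s ∧ ∀ v, t v = hN.dec (s v) j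

theorem DTD.lift {n : ℕ} {t : (Fin n → N) → N} (h : DTD (hN := hN) t) :
    DTD (hN := hN) (fun v : Fin (n + 1) → N => t (fun i => v i.castSucc)) := by
  rcases h with h | ⟨s, j, hs, h⟩
  · exact Or.inl h.lift
  · exact Or.inr ⟨_, j, hs.lift, fun v => h _⟩

theorem DTD.eq {n : ℕ} {t s : (Fin n → N) → N} (h : DTD (hN := hN) t) (hs : hN.DT s) :
    hN.Dfn (fun v => t v = s v) := by
  rcases h with h | ⟨s', j, hs', h⟩
  · exact Dfn.eq h hs
  · refine Dfn.congr (fun v => by rw [h v]) (Dfn.subst2 (P := fun x y => hN.dec x j = y) (dec_dfn j) hs' hs)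

theorem Dfn.memD {n : ℕ} {t t' : (Fin n → N) → N} (h : DTD (hN := hN) t) (h' : DTD (hN := hN) t') :
    hN.Dfn (fun v => (t v).1 ∈ (t' v).1) := by
  refine (Dfn.ex (P := fun v a => ∃ b : N, t v = a ∧ t' v = b ∧ a.1 ∈ b.1)
    (Dfn.ex (P := fun v b => t (fun i => v i.castSucc) = v (Fin.last n) ∧
      t' (fun i => v i.castSucc) = b ∧ (v (Fin.last n)).1 ∈ b.1)
      (Dfn.and (h.lift.lift.eq (DT.var _)) (Dfn.and (h'.lift.lift.eq (DT.var _))
        (Dfn.mem (DT.var _) (DT.var _)))))).congr fun v => ?_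
  constructor
  · rintro ⟨a, b, rfl, rfl, h⟩; exact h
  · intro h; exact ⟨_, _, rfl, rfl, h⟩

theorem Dfn.eqD {n : ℕ} {t t' : (Fin n → N) → N} (h : DTD (hN := hN) t) (h' : DTD (hN := hN) t') :
    hN.Dfn (fun v => t v = t' v) := by
  refine (Dfn.ex (P := fun v a => t v = a ∧ t' v = a)
      (Dfn.and (h.lift.eq (DT.var _)) (h'.lift.eq (DT.var _)))).congr fun v => ?_
  constructor
  · rintro ⟨a, rfl, h⟩; exact h.symm
  · intro h; exact ⟨_, rfl, h.symm⟩

/-- Satisfaction of a fixed formula is definable. -/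
theorem Dfn.satD (χ : Fml) : ∀ {n : ℕ} (g : (Fin n → N) → ℕ → N),
    (∀ i, DTD (hN := hN) (fun v => g v i)) → hN.Dfn (fun v => Sat (SMem N) χ (g v)) := by
  have hupd : ∀ {n : ℕ} (g : (Fin n → N) → ℕ → N) (k : ℕ), (∀ i, DTD (hN := hN) (fun v => g v i)) →
      ∀ i, DTD (hN := hN) (fun v : Fin (n + 1) → N =>
        upd (g (fun i => v i.castSucc)) k (v (Fin.last n)) i) := by
    intro n g k hg i
    by_cases hik : i = k
    · left
      obtain ⟨j, hj⟩ := DT.last (hN := hN) (n := n)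
      refine ⟨j, fun v f hf => ?_⟩
      rw [hj v f hf]
      beta_reduce
      rw [hik, upd_same]
    · rcases (hg i).lift with ⟨j, hj⟩ | ⟨s, j, hs, h⟩
      · left
        refine ⟨j, fun v f hf => ?_⟩
        rw [hj v f hf]
        beta_reduce
        rw [upd_ne _ _ hik]
      · right
        refine ⟨s, j, hs, fun v => ?_⟩
        beta_reduce
        rw [upd_ne _ _ hik]; exact h v
  induction χ with
  | mem i j => intro n g hg; exact Dfn.memD (hg i) (hg j)
  | eq i j => intro n g hg; exact Dfn.eqD (hg i) (hg j)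
  | bot => intro n g hg; exact Dfn.false'
  | imp φ ψ ih1 ih2 => intro n g hg; exact Dfn.imp (ih1 g hg) (ih2 g hg)
  | and φ ψ ih1 ih2 => intro n g hg; exact Dfn.and (ih1 g hg) (ih2 g hg)
  | or φ ψ ih1 ih2 => intro n g hg; exact Dfn.or (ih1 g hg) (ih2 g hg)
  | all k φ ih =>
    intro n g hg
    exact Dfn.all (P := fun v x => Sat (SMem N) φ (upd (g v) k x)) (ih _ (hupd g k hg))
  | ex k φ ih =>
    intro n g hg
    exact Dfn.ex (P := fun v x => Sat (SMem N) φ (upd (g v) k x)) (ih _ (hupd g k hg))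

/-- `b` is a witness for the formula with the tag `g` in the list, for the coded assignment `e`. -/
def WW (hN : CTM N) (x : N) : List (Fml × ℕ) → N → N → N → Prop
  | [], _, _, _ => False
  | p :: L, g, e, b => (g = x ∧ Sat (SMem N) p.1 (upd (hN.dec e) p.2 b)) ∨
      ∃ g' : N, g.1 = ZFSet.pair g'.1 x.1 ∧ WW hN x L g' e b

theorem WW_dfn (x : N) (L : List (Fml × ℕ)) :
    hN.Dfn (fun v : Fin 3 → N => WW hN x L (v 0) (v 1) (v 2)) := by
  induction L with
  | nil => exact Dfn.false'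
  | cons p L ih =>
    refine Dfn.or (Dfn.and (Dfn.eq (DT.var _) (DT.const x)) ?_) ?_
    · refine Dfn.satD p.1 (fun v : Fin 3 → N => upd (hN.dec (v 1)) p.2 (v 2)) fun i => ?_
      by_cases hi : i = p.2
      · left
        obtain ⟨j, hj⟩ := DT.var (hN := hN) (2 : Fin 3)
        refine ⟨j, fun v f hf => ?_⟩
        rw [hj v f hf]
        beta_reduce
        rw [hi, upd_same]
      · right
        exact ⟨fun v => v 1, i, DT.var _, fun v => upd_ne _ _ hi⟩
    · exact Dfn.ex (P := fun v g' => (v 0).1 = ZFSet.pair g'.1 x.1 ∧ WW hN x L g' (v 1) (v 2))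
        (Dfn.and (Dfn.isPair (DT.var _) (DT.var _) (DT.const x))
          (Dfn.subst3 (P := WW hN x L) ih (DT.var _) (DT.var _) (DT.var _)))

end CTM

/-- The tags. -/
noncomputable def tg (x : ZFSet.{u}) : ℕ → ZFSet.{u}
  | 0 => x
  | i + 1 => ZFSet.pair (tg x i) x

theorem ne_pair_right (x g : ZFSet.{u}) : x ≠ ZFSet.pair g x := by
  intro h
  have h1 := (rank_lt_pair g x).2
  rw [← h] at h1
  exact lt_irrefl _ h1

namespace CTM

variable {N : Set ZFSet.{u}} {hN : CTM N}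

theorem WW_iff (x : N) : ∀ (L : List (Fml × ℕ)) (i : ℕ) (h : i < L.length) (g e b : N),
    g.1 = tg x.1 i → (WW hN x L g e b ↔ Sat (SMem N) L[i].1 (upd (hN.dec e) L[i].2 b)) := by
  intro L
  induction L with
  | nil => intro i h; simp at h
  | cons p L ih =>
    intro i h g e b hg
    cases i with
    | zero =>
      have hgx : g = x := Subtype.ext hg
      constructor
      · rintro (⟨_, h1⟩ | ⟨g', h1, _⟩)
        · exact h1
        · exact (ne_pair_right x.1 g'.1 (by rw [← h1, hgx])).elim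
      · intro h1; exact Or.inl ⟨hgx, h1⟩
    | succ i =>
      have h' : i < L.length := by simpa using h
      have hg : g.1 = ZFSet.pair (tg x.1 i) x.1 := hg
      constructor
      · rintro (⟨h1, _⟩ | ⟨g', h1, h2⟩)
        · exact (ne_pair_right x.1 (tg x.1 i) (by rw [← hg, h1])).elim
        · rw [hg, ZFSet.pair_inj] at h1
          exact (ih i h' g' e b h1.1.symm).1 h2
      · intro h1
        have h3 : tg x.1 i ∈ N := (hN.of_pair_mem (by rw [← hg]; exact g.2)).1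
        exact Or.inr ⟨⟨_, h3⟩, hg, (ih i h' ⟨_, h3⟩ e b rfl).2 h1⟩

end CTM

/-- The code of a sequence of length `n`. -/
noncomputable def tup (x : ZFSet.{u}) : ℕ → (ℕ → ZFSet.{u}) → ZFSet.{u}
  | 0, _ => x
  | n + 1, f => ZFSet.pair (f 0) (tup x n fun i => f (i + 1))

theorem CTM.dec_tup {N : Set ZFSet.{u}} (hN : CTM N) (x : ZFSet.{u}) : ∀ (n : ℕ) (f : ℕ → ZFSet.{u})
    (e : N), e.1 = tup x n f → ∀ i < n, (hN.dec e i).1 = f i := by
  intro n
  induction n with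
  | zero => intro f e he i hi; omega
  | succ n ih =>
    intro f e he i hi
    have he : e.1 = ZFSet.pair (f 0) (tup x n fun i => f (i + 1)) := he
    cases i with
    | zero =>
      show zfst e.1 = f 0
      rw [he, zfst_pair]
    | succ i =>
      show (hN.dec ⟨zsnd e.1, _⟩ i).1 = f (i + 1)
      exact ih (fun i => f (i + 1)) ⟨zsnd e.1, hN.zsnd_mem e.2⟩ (by
        show zsnd e.1 = _
        rw [he, zsnd_pair]) i (by omega)

end Pool.Agent.H17.Omega
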