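import Pool.Agent.H17.Omega.Defs

/-!
# Basic facts about names and forcing
-/

set_option autoImplicit false
set_option linter.unusedVariables false
set_option linter.unusedSectionVars false

universe u v w

namespace Pool.Agent.H17.Omega

@[simp] theorem upd_same {N : Type v} (f : ℕ → N) (k : ℕ) (x : N) : upd f k x k = x := by
  simp [upd]

theorem upd_ne {N : Type v} (f : ℕ → N) {k j : ℕ} (x : N) (h : j ≠ k) : upd f k x j = f j := by
  simp [upd, h]

/-- Membership as a relation on a set of sets. -/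
abbrev SMem (N : Set ZFSet.{u}) : N → N → Prop := fun x y => x.1 ∈ y.1

/-- `comp` of an update. -/
theorem upd_comp {N : Type v} {M : Type w} (F : N → M) (f : ℕ → N) (k : ℕ) (x : N) :
    (fun i => F (upd f k x i)) = upd (fun i => F (f i)) k (F x) := by
  funext j
  by_cases hj : j = k <;> simp [upd, hj]

namespace Name

variable {Q : Type u}

@[simp] theorem mk_ι (ι : Type u) (x : ι → Name Q) (p : ι → Q) : (mk ι x p).ι = ι := rfl
@[simp] theorem mk_el (ι : Type u) (x : ι → Name Q) (p : ι → Q) : (mk ι x p).el = x := rfl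
@[simp] theorem mk_cd (ι : Type u) (x : ι → Name Q) (p : ι → Q) : (mk ι x p).cd = p := rfl

@[elab_as_elim]
theorem ind {C : Name Q → Prop} (h : ∀ X : Name Q, (∀ i, C (X.el i)) → C X) : ∀ X, C X := by
  intro X
  induction X with
  | mk ι x p ih => exact h _ ih

theorem InV_def (X : Name Q) (α : Ordinal.{u}) : X.InV α ↔ ∃ β < α, ∀ i, (X.el i).InV β := by
  cases X; rw [InV]; rfl

theorem InV.mono {X : Name Q} {α β : Ordinal.{u}} (h : X.InV α) (hab : α ≤ β) : X.InV β := by
  rw [InV_def] at h ⊢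
  obtain ⟨γ, hγ, h⟩ := h
  exact ⟨γ, hγ.trans_le hab, h⟩

theorem InV.el {X : Name Q} {α : Ordinal.{u}} (h : X.InV α) (i : X.ι) : (X.el i).InV α := by
  rw [InV_def] at h
  obtain ⟨γ, hγ, h⟩ := h
  exact (h i).mono hγ.le

/-- The rank of a name. -/
noncomputable def rk : Name Q → Ordinal.{u}
  | ⟨_, x, _⟩ => ⨆ i, Order.succ (rk (x i))

theorem rk_def (X : Name Q) : X.rk = ⨆ i, Order.succ (X.el i).rk := by
  cases X; rw [rk]; rfl

theorem rk_el_lt (X : Name Q) (i : X.ι) : (X.el i).rk < X.rk := by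
  rw [rk_def X]
  exact (Order.lt_succ _).trans_le (Ordinal.le_iSup (fun i => Order.succ (X.el i).rk) i)

theorem InV_iff {X : Name Q} : ∀ {α : Ordinal.{u}}, X.InV α ↔ X.rk < α := by
  induction X using ind with
  | h X ih =>
    intro α
    rw [InV_def]
    constructor
    · rintro ⟨β, hβ, h⟩
      refine lt_of_le_of_lt ?_ hβ
      rw [rk_def]
      exact Ordinal.iSup_le fun i => Order.succ_le_of_lt ((ih i).1 (h i))
    · intro h
      exact ⟨X.rk, h, fun i => (ih i).2 (rk_el_lt X i)⟩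

variable [Preorder Q]

theorem feq_def (X Y : Name Q) (q : Q) :
    feq X Y q ↔
    (∀ i : X.ι, ∀ q' ≤ q, q' ≤ X.cd i →
      ∃ q'' ≤ q', ∃ j : Y.ι, q'' ≤ Y.cd j ∧ feq (X.el i) (Y.el j) q'') ∧
    (∀ j : Y.ι, ∀ q' ≤ q, q' ≤ Y.cd j →
      ∃ q'' ≤ q', ∃ i : X.ι, q'' ≤ X.cd i ∧ feq (X.el i) (Y.el j) q'') := by
  cases X; cases Y
  rw [feq]; rfl

theorem feq_mono {X Y : Name Q} {q r : Q} (h : r ≤ q) (hf : feq X Y q) : feq X Y r := by
  rw [feq_def] at hf ⊢
  exact ⟨fun i q' hq' => hf.1 i q' (hq'.trans h), fun j q' hq' => hf.2 j q' (hq'.trans h)⟩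

theorem feq_reg {X Y : Name Q} {q : Q} (h : ∀ q' ≤ q, ∃ q'' ≤ q', feq X Y q'') : feq X Y q := by
  rw [feq_def]
  refine ⟨fun i q' hq' hi => ?_, fun j q' hq' hj => ?_⟩
  · obtain ⟨q1, h1, h2⟩ := h q' hq'
    rw [feq_def] at h2
    obtain ⟨q2, h3, j, h4⟩ := h2.1 i q1 le_rfl (h1.trans hi)
    exact ⟨q2, h3.trans h1, j, h4⟩
  · obtain ⟨q1, h1, h2⟩ := h q' hq'
    rw [feq_def] at h2
    obtain ⟨q2, h3, j, h4⟩ := h2.2 j q1 le_rfl (h1.trans hj)
    exact ⟨q2, h3.trans h1, j, h4⟩

theorem fmem_mono {X Y : Name Q} {q r : Q} (h : r ≤ q) (hf : fmem X Y q) : fmem X Y r :=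
  fun q' hq' => hf q' (hq'.trans h)

theorem fmem_reg {X Y : Name Q} {q : Q} (h : ∀ q' ≤ q, ∃ q'' ≤ q', fmem X Y q'') :
    fmem X Y q := by
  intro q' hq'
  obtain ⟨q1, h1, h2⟩ := h q' hq'
  obtain ⟨q2, h3, j, h4⟩ := h2 q1 le_rfl
  exact ⟨q2, h3.trans h1, j, h4⟩

theorem feq_refl (X : Name Q) : ∀ q, feq X X q := by
  induction X using ind with
  | h X ih =>
    intro q
    rw [feq_def]
    exact ⟨fun i q' _ hi => ⟨q', le_rfl, i, hi, ih i q'⟩,
      fun i q' _ hi => ⟨q', le_rfl, i, hi, ih i q'⟩⟩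

theorem feq_symm : ∀ {X Y : Name Q} {q : Q}, feq X Y q → feq Y X q := by
  intro X
  induction X using ind with
  | h X ih =>
    intro Y q h
    rw [feq_def] at h ⊢
    refine ⟨fun j q' hq' hj => ?_, fun i q' hq' hi => ?_⟩
    · obtain ⟨q2, h3, i, h4, h5⟩ := h.2 j q' hq' hj
      exact ⟨q2, h3, i, h4, ih i h5⟩
    · obtain ⟨q2, h3, i, h4, h5⟩ := h.1 i q' hq' hi
      exact ⟨q2, h3, i, h4, ih _ h5⟩

theorem feq_trans : ∀ {X Y Z : Name Q} {q : Q}, feq X Y q → feq Y Z q → feq X Z q := by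
  intro X
  induction X using ind with
  | h X ih =>
    intro Y Z q h1 h2
    rw [feq_def] at h1 h2 ⊢
    refine ⟨fun i q' hq' hi => ?_, fun k q' hq' hk => ?_⟩
    · obtain ⟨q1, a1, j, a2, a3⟩ := h1.1 i q' hq' hi
      obtain ⟨q2, b1, k, b2, b3⟩ := h2.1 j q1 (a1.trans hq') a2
      exact ⟨q2, b1.trans a1, k, b2, ih i (feq_mono b1 a3) b3⟩
    · obtain ⟨q1, a1, j, a2, a3⟩ := h2.2 k q' hq' hk
      obtain ⟨q2, b1, i, b2, b3⟩ := h1.2 j q1 (a1.trans hq') a2
      exact ⟨q2, b1.trans a1, i, b2, ih i b3 (feq_mono b1 a3)⟩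

theorem fmem_congr_left {X X' Y : Name Q} {q : Q} (h : feq X X' q) (hm : fmem X Y q) :
    fmem X' Y q := by
  intro q' hq'
  obtain ⟨q1, a1, j, a2, a3⟩ := hm q' hq'
  exact ⟨q1, a1, j, a2, feq_trans (feq_symm (feq_mono (a1.trans hq') h)) a3⟩

theorem fmem_el {X : Name Q} {i : X.ι} {q : Q} (h : q ≤ X.cd i) : fmem (X.el i) X q :=
  fun q' hq' => ⟨q', le_rfl, i, hq'.trans h, feq_refl _ _⟩

theorem feq_iff_mem (X Y : Name Q) (q : Q) :
    feq X Y q ↔
    (∀ i : X.ι, ∀ q' ≤ q, q' ≤ X.cd i → fmem (X.el i) Y q') ∧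
    (∀ j : Y.ι, ∀ q' ≤ q, q' ≤ Y.cd j → fmem (Y.el j) X q') := by
  rw [feq_def]
  constructor
  · rintro ⟨h1, h2⟩
    refine ⟨fun i q' hq' hi q1 hq1 => h1 i q1 (hq1.trans hq') (hq1.trans hi),
      fun j q' hq' hj q1 hq1 => ?_⟩
    obtain ⟨q2, a1, i, a2, a3⟩ := h2 j q1 (hq1.trans hq') (hq1.trans hj)
    exact ⟨q2, a1, i, a2, feq_symm a3⟩
  · rintro ⟨h1, h2⟩
    refine ⟨fun i q' hq' hi => h1 i q' hq' hi q' le_rfl, fun j q' hq' hj => ?_⟩
    obtain ⟨q2, a1, i, a2, a3⟩ := h2 j q' hq' hj q' le_rfl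
    exact ⟨q2, a1, i, a2, feq_symm a3⟩

theorem fmem_congr_right {X Y Y' : Name Q} {q : Q} (h : feq Y Y' q) (hm : fmem X Y q) :
    fmem X Y' q := by
  intro q' hq'
  obtain ⟨q1, a1, j, a2, a3⟩ := hm q' hq'
  rw [feq_iff_mem] at h
  have := h.1 j q1 (a1.trans hq') a2
  exact fmem_congr_left (feq_symm a3) this q1 le_rfl |>.imp fun q2 ⟨b1, b2⟩ => ⟨b1.trans a1, b2⟩

theorem not_fmem_self (X : Name Q) : ∀ q, ¬ fmem X X q := by
  induction X using ind with
  | h X ih =>
    intro q h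
    obtain ⟨q1, a1, j, a2, a3⟩ := h q le_rfl
    have h1 : fmem (X.el j) X q1 := fmem_el a2
    exact ih j q1 (fmem_congr_right a3 h1)

/-- If not forced then some extension refutes. -/
theorem exists_not_fmem {X Y : Name Q} {q : Q} (h : ¬ fmem X Y q) :
    ∃ r ≤ q, ∀ s ≤ r, ¬ fmem X Y s := by
  by_contra hc
  push Not at hc
  exact h (fmem_reg fun q' hq' => hc q' hq')

theorem exists_not_feq {X Y : Name Q} {q : Q} (h : ¬ feq X Y q) :
    ∃ r ≤ q, ∀ s ≤ r, ¬ feq X Y s := by
  by_contra hc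
  push Not at hc
  exact h (feq_reg fun q' hq' => hc q' hq')

/-- If `X = Y` is not decided positively below, then there is a difference. -/
theorem exists_diff {X Y : Name Q} {q : Q} (h : ¬ feq X Y q) :
    ∃ r ≤ q, (∃ i : X.ι, r ≤ X.cd i ∧ ∀ s ≤ r, ¬ fmem (X.el i) Y s) ∨
      (∃ j : Y.ι, r ≤ Y.cd j ∧ ∀ s ≤ r, ¬ fmem (Y.el j) X s) := by
  rw [feq_iff_mem] at h
  rw [not_and_or] at h
  rcases h with h | h
  · push Not at h
    obtain ⟨i, q', hq', hi, h1⟩ := h
    obtain ⟨r, hr, h2⟩ := exists_not_fmem h1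
    exact ⟨r, hr.trans hq', Or.inl ⟨i, hr.trans hi, h2⟩⟩
  · push Not at h
    obtain ⟨i, q', hq', hi, h1⟩ := h
    obtain ⟨r, hr, h2⟩ := exists_not_fmem h1
    exact ⟨r, hr.trans hq', Or.inr ⟨i, hr.trans hi, h2⟩⟩

end Name

section Forces

variable {Q : Type u} [Preorder Q] {D : Name Q → Prop}

theorem Forces.mono {φ : Fml} : ∀ {f : ℕ → {X : Name Q // D X}} {p q : Q}, q ≤ p →
    Forces D φ f p → Forces D φ f q := by
  induction φ with
  | mem i j => intro f p q h hf; exact Name.fmem_mono h hf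
  | eq i j => intro f p q h hf; exact Name.feq_mono h hf
  | bot => intro f p q h hf; exact hf
  | imp φ ψ ih1 ih2 => intro f p q h hf r hr; exact hf r (hr.trans h)
  | and φ ψ ih1 ih2 => intro f p q h hf; exact ⟨ih1 h hf.1, ih2 h hf.2⟩
  | or φ ψ ih1 ih2 => intro f p q h hf r hr; exact hf r (hr.trans h)
  | all k φ ih => intro f p q h hf x; exact ih h (hf x)
  | ex k φ ih => intro f p q h hf r hr; exact hf r (hr.trans h)

theorem Forces.reg {φ : Fml} : ∀ {f : ℕ → {X : Name Q // D X}} {p : Q},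
    (∀ q ≤ p, ∃ r ≤ q, Forces D φ f r) → Forces D φ f p := by
  induction φ with
  | mem i j => intro f p h; exact Name.fmem_reg h
  | eq i j => intro f p h; exact Name.feq_reg h
  | bot => intro f p h; obtain ⟨r, _, h'⟩ := h p le_rfl; exact h'
  | imp φ ψ ih1 ih2 =>
    intro f p h q hq ha
    refine ih2 fun r hr => ?_
    obtain ⟨s, hs, h'⟩ := h r (hr.trans hq)
    exact ⟨s, hs, h' s le_rfl (Forces.mono (hs.trans hr) ha)⟩
  | and φ ψ ih1 ih2 =>
    intro f p h
    exact ⟨ih1 fun q hq => (h q hq).imp fun r hr => ⟨hr.1, hr.2.1⟩,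
      ih2 fun q hq => (h q hq).imp fun r hr => ⟨hr.1, hr.2.2⟩⟩
  | or φ ψ ih1 ih2 =>
    intro f p h q hq
    obtain ⟨r, hr, h'⟩ := h q hq
    obtain ⟨s, hs, h''⟩ := h' r le_rfl
    exact ⟨s, hs.trans hr, h''⟩
  | all k φ ih =>
    intro f p h x
    exact ih fun q hq => (h q hq).imp fun r hr => ⟨hr.1, hr.2 x⟩
  | ex k φ ih =>
    intro f p h q hq
    obtain ⟨r, hr, h'⟩ := h q hq
    obtain ⟨s, hs, h''⟩ := h' r le_rfl
    exact ⟨s, hs.trans hr, h''⟩

/-- If not forced then some extension forces the negation. -/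
theorem Forces.exists_not {φ : Fml} {f : ℕ → {X : Name Q // D X}} {p : Q}
    (h : ¬ Forces D φ f p) : ∃ q ≤ p, Forces D (.imp φ .bot) f q := by
  by_contra hc
  push Not at hc
  apply h
  apply Forces.reg
  intro q hq
  by_contra hr
  push Not at hr
  exact hc q hq fun r hr1 hr2 => hr r hr1 hr2

theorem Forces.congr {φ : Fml} : ∀ {f g : ℕ → {X : Name Q // D X}} {p : Q},
    (∀ i < φ.bd, f i = g i) → (Forces D φ f p ↔ Forces D φ g p) := by
  induction φ with
  | mem i j =>
    intro f g p h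
    simp only [Forces]
    rw [h i (by simp [Fml.bd]), h j (by simp [Fml.bd])]
  | eq i j =>
    intro f g p h
    simp only [Forces]
    rw [h i (by simp [Fml.bd]), h j (by simp [Fml.bd])]
  | bot => intro f g p h; rfl
  | imp φ ψ ih1 ih2 =>
    intro f g p h
    have h1 := fun q => @ih1 f g q (fun i hi => h i (lt_of_lt_of_le hi (le_max_left _ _)))
    have h2 := fun q => @ih2 f g q (fun i hi => h i (lt_of_lt_of_le hi (le_max_right _ _)))
    simp only [Forces, h1, h2]
  | and φ ψ ih1 ih2 =>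
    intro f g p h
    have h1 := fun q => @ih1 f g q (fun i hi => h i (lt_of_lt_of_le hi (le_max_left _ _)))
    have h2 := fun q => @ih2 f g q (fun i hi => h i (lt_of_lt_of_le hi (le_max_right _ _)))
    simp only [Forces, h1, h2]
  | or φ ψ ih1 ih2 =>
    intro f g p h
    have h1 := fun q => @ih1 f g q (fun i hi => h i (lt_of_lt_of_le hi (le_max_left _ _)))
    have h2 := fun q => @ih2 f g q (fun i hi => h i (lt_of_lt_of_le hi (le_max_right _ _)))
    simp only [Forces, h1, h2]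
  | all k φ ih =>
    intro f g p h
    have h1 : ∀ x q, Forces D φ (upd f k x) q ↔ Forces D φ (upd g k x) q := by
      intro x q
      apply ih
      intro i hi
      by_cases hk : i = k
      · subst hk; simp
      · rw [upd_ne _ _ hk, upd_ne _ _ hk]; exact h i (lt_of_lt_of_le hi (le_max_right _ _))
    simp only [Forces, h1]
  | ex k φ ih =>
    intro f g p h
    have h1 : ∀ x q, Forces D φ (upd f k x) q ↔ Forces D φ (upd g k x) q := by
      intro x q
      apply ih
      intro i hi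
      by_cases hk : i = k
      · subst hk; simp
      · rw [upd_ne _ _ hk, upd_ne _ _ hk]; exact h i (lt_of_lt_of_le hi (le_max_right _ _))
    simp only [Forces, h1]

/-- Forced equalities can be substituted in formulas. -/
theorem Forces.eq_iff (φ : Fml) : ∀ {f f' : ℕ → {X : Name Q // D X}} {p : Q},
    (∀ i < φ.bd, (f i).1.feq (f' i).1 p) → (Forces D φ f p ↔ Forces D φ f' p) := by
  induction φ with
  | mem i j =>
    intro f f' p h
    have hi := h i (by simp [Fml.bd])
    have hj := h j (by simp [Fml.bd])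
    constructor
    · intro h1
      exact Name.fmem_congr_left hi (Name.fmem_congr_right hj h1)
    · intro h1
      exact Name.fmem_congr_left (Name.feq_symm hi) (Name.fmem_congr_right (Name.feq_symm hj) h1)
  | eq i j =>
    intro f f' p h
    have hi := h i (by simp [Fml.bd])
    have hj := h j (by simp [Fml.bd])
    constructor
    · intro h1
      exact Name.feq_trans (Name.feq_symm hi) (Name.feq_trans h1 hj)
    · intro h1
      exact Name.feq_trans hi (Name.feq_trans h1 (Name.feq_symm hj))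
  | bot => intro f f' p h; exact Iff.rfl
  | imp φ ψ ih1 ih2 =>
    intro f f' p h
    have h1 : ∀ q ≤ p, (Forces D φ f q ↔ Forces D φ f' q) := fun q hq =>
      ih1 fun i hi => Name.feq_mono hq (h i (lt_of_lt_of_le hi (le_max_left _ _)))
    have h2 : ∀ q ≤ p, (Forces D ψ f q ↔ Forces D ψ f' q) := fun q hq =>
      ih2 fun i hi => Name.feq_mono hq (h i (lt_of_lt_of_le hi (le_max_right _ _)))
    exact ⟨fun h3 q hq hq' => (h2 q hq).1 (h3 q hq ((h1 q hq).2 hq')),
      fun h3 q hq hq' => (h2 q hq).2 (h3 q hq ((h1 q hq).1 hq'))⟩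
  | and φ ψ ih1 ih2 =>
    intro f f' p h
    exact and_congr (ih1 fun i hi => h i (lt_of_lt_of_le hi (le_max_left _ _)))
      (ih2 fun i hi => h i (lt_of_lt_of_le hi (le_max_right _ _)))
  | or φ ψ ih1 ih2 =>
    intro f f' p h
    have h1 : ∀ q ≤ p, (Forces D φ f q ↔ Forces D φ f' q) := fun q hq =>
      ih1 fun i hi => Name.feq_mono hq (h i (lt_of_lt_of_le hi (le_max_left _ _)))
    have h2 : ∀ q ≤ p, (Forces D ψ f q ↔ Forces D ψ f' q) := fun q hq =>
      ih2 fun i hi => Name.feq_mono hq (h i (lt_of_lt_of_le hi (le_max_right _ _)))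
    constructor
    · intro h3 q hq
      obtain ⟨r, hr, h4⟩ := h3 q hq
      exact ⟨r, hr, h4.imp (h1 r (hr.trans hq)).1 (h2 r (hr.trans hq)).1⟩
    · intro h3 q hq
      obtain ⟨r, hr, h4⟩ := h3 q hq
      exact ⟨r, hr, h4.imp (h1 r (hr.trans hq)).2 (h2 r (hr.trans hq)).2⟩
  | all k φ ih =>
    intro f f' p h
    refine forall_congr' fun x => ih fun i hi => ?_
    by_cases hk : i = k
    · subst hk; simpa using Name.feq_refl _ _
    · rw [upd_ne _ _ hk, upd_ne _ _ hk]; exact h i (lt_of_lt_of_le hi (le_max_right _ _))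
  | ex k φ ih =>
    intro f f' p h
    have h1 : ∀ x, ∀ q ≤ p, (Forces D φ (upd f k x) q ↔ Forces D φ (upd f' k x) q) :=
      fun x q hq => ih fun i hi => by
        by_cases hk : i = k
        · subst hk; simpa using Name.feq_refl _ _
        · rw [upd_ne _ _ hk, upd_ne _ _ hk]
          exact Name.feq_mono hq (h i (lt_of_lt_of_le hi (le_max_right _ _)))
    constructor
    · intro h3 q hq
      obtain ⟨r, hr, x, h4⟩ := h3 q hq
      exact ⟨r, hr, x, (h1 x r (hr.trans hq)).1 h4⟩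
    · intro h3 q hq
      obtain ⟨r, hr, x, h4⟩ := h3 q hq
      exact ⟨r, hr, x, (h1 x r (hr.trans hq)).2 h4⟩

end Forces

/-! ## Satisfaction only depends on the variables that occur -/

theorem Sat.congr {M : Type v} {E : M → M → Prop} {φ : Fml} : ∀ {f g : ℕ → M},
    (∀ i < φ.bd, f i = g i) → (Sat E φ f ↔ Sat E φ g) := by
  induction φ with
  | mem i j =>
    intro f g h
    simp only [Sat]
    rw [h i (by simp [Fml.bd]), h j (by simp [Fml.bd])]
  | eq i j =>
    intro f g h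
    simp only [Sat]
    rw [h i (by simp [Fml.bd]), h j (by simp [Fml.bd])]
  | bot => intro f g h; rfl
  | imp φ ψ ih1 ih2 =>
    intro f g h
    exact imp_congr (ih1 fun i hi => h i (lt_of_lt_of_le hi (le_max_left _ _)))
      (ih2 fun i hi => h i (lt_of_lt_of_le hi (le_max_right _ _)))
  | and φ ψ ih1 ih2 =>
    intro f g h
    exact and_congr (ih1 fun i hi => h i (lt_of_lt_of_le hi (le_max_left _ _)))
      (ih2 fun i hi => h i (lt_of_lt_of_le hi (le_max_right _ _)))
  | or φ ψ ih1 ih2 =>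
    intro f g h
    exact or_congr (ih1 fun i hi => h i (lt_of_lt_of_le hi (le_max_left _ _)))
      (ih2 fun i hi => h i (lt_of_lt_of_le hi (le_max_right _ _)))
  | all k φ ih =>
    intro f g h
    refine forall_congr' fun x => ih fun i hi => ?_
    by_cases hk : i = k
    · subst hk; simp
    · rw [upd_ne _ _ hk, upd_ne _ _ hk]; exact h i (lt_of_lt_of_le hi (le_max_right _ _))
  | ex k φ ih =>
    intro f g h
    refine exists_congr fun x => ih fun i hi => ?_
    by_cases hk : i = k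
    · subst hk; simp
    · rw [upd_ne _ _ hk, upd_ne _ _ hk]; exact h i (lt_of_lt_of_le hi (le_max_right _ _))

theorem Sat.congr_free {M : Type v} {E : M → M → Prop} {φ : Fml} : ∀ {f g : ℕ → M},
    (∀ i, φ.Free i → f i = g i) → (Sat E φ f ↔ Sat E φ g) := by
  induction φ with
  | mem i j =>
    intro f g h
    simp only [Sat]
    rw [h i (Or.inl rfl), h j (Or.inr rfl)]
  | eq i j =>
    intro f g h
    simp only [Sat]
    rw [h i (Or.inl rfl), h j (Or.inr rfl)]
  | bot => intro f g h; rfl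
  | imp φ ψ ih1 ih2 =>
    intro f g h
    exact imp_congr (ih1 fun i hi => h i (Or.inl hi)) (ih2 fun i hi => h i (Or.inr hi))
  | and φ ψ ih1 ih2 =>
    intro f g h
    exact and_congr (ih1 fun i hi => h i (Or.inl hi)) (ih2 fun i hi => h i (Or.inr hi))
  | or φ ψ ih1 ih2 =>
    intro f g h
    exact or_congr (ih1 fun i hi => h i (Or.inl hi)) (ih2 fun i hi => h i (Or.inr hi))
  | all k φ ih =>
    intro f g h
    refine forall_congr' fun x => ih fun i hi => ?_
    by_cases hk : i = k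
    · subst hk; simp
    · rw [upd_ne _ _ hk, upd_ne _ _ hk]; exact h i ⟨hk, hi⟩
  | ex k φ ih =>
    intro f g h
    refine exists_congr fun x => ih fun i hi => ?_
    by_cases hk : i = k
    · subst hk; simp
    · rw [upd_ne _ _ hk, upd_ne _ _ hk]; exact h i ⟨hk, hi⟩

/-- Isomorphism invariance of satisfaction. -/
theorem Sat.iso {M : Type v} {N : Type w} {E : M → M → Prop} {F : N → N → Prop} (e : M → N)
    (hs : Function.Surjective e) (hi : Function.Injective e) (he : ∀ x y, F (e x) (e y) ↔ E x y)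
    {φ : Fml} : ∀ {f : ℕ → M}, Sat F φ (fun i => e (f i)) ↔ Sat E φ f := by
  induction φ with
  | mem i j => intro f; exact he _ _
  | eq i j => intro f; exact hi.eq_iff
  | bot => intro f; rfl
  | imp φ ψ ih1 ih2 => intro f; exact imp_congr ih1 ih2
  | and φ ψ ih1 ih2 => intro f; exact and_congr ih1 ih2
  | or φ ψ ih1 ih2 => intro f; exact or_congr ih1 ih2
  | all k φ ih =>
    intro f
    have : Sat F (.all k φ) (fun i => e (f i)) ↔ ∀ x, Sat F φ (upd (fun i => e (f i)) k (e x)) :=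
      hs.forall
    rw [this]
    refine forall_congr' fun x => ?_
    rw [← upd_comp]; exact ih
  | ex k φ ih =>
    intro f
    have : Sat F (.ex k φ) (fun i => e (f i)) ↔ ∃ x, Sat F φ (upd (fun i => e (f i)) k (e x)) :=
      hs.exists
    rw [this]
    refine exists_congr fun x => ?_
    rw [← upd_comp]; exact ih

end Pool.Agent.H17.Omega
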