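import Pool.Agent.H17.Omega.Tree

/-!
# Alive and dead nodes
-/

set_option autoImplicit false
set_option linter.unusedVariables false
set_option linter.unusedSectionVars false
set_option linter.unusedSimpArgs false
set_option linter.deprecated false

universe u v w

namespace Pool.Agent.H17.Omega

/-- `bb i j p`: the condition `p` forces that `c(i) = j`, for a name `c` of a real. -/
structure RName {P : Type u} [Preorder P] (bb : ℕ → ℕ → P → Prop) : Prop where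
  mono : ∀ i j p q, q ≤ p → bb i j p → bb i j q
  uniq : ∀ i j j' p, bb i j p → bb i j' p → j = j'
  dense : ∀ i p, ∃ q ≤ p, ∃ j, bb i j q

section Alive

variable {P : Type u} [Preorder P] (bb : ℕ → ℕ → P → Prop) (Kr : (ℕ → ℕ) → (ℕ → ℕ) → Prop)

/-- The condition `r` decides `c` below `n` such that `t` below `n` is a node of the tree of
certificates for `c`. -/
def OK (r : P) (n : ℕ) (t : ℕ → ℕ × Ordinal.{u}) : Prop :=
  ∃ c' h', (∀ i < n, bb i (c' i) r) ∧ Agree n h' t ∧ Cert Kr c' h'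

/-- Dead nodes. -/
def Dead (ξ : Ordinal.{u + 1}) : P → ℕ → (ℕ → ℕ × Ordinal.{u}) → Prop := fun r n t =>
  ∀ r1 ≤ r, ∃ r2 ≤ r1, (∀ r3 ≤ r2, ¬ OK bb Kr r3 n t) ∨
    ∀ a, ∃ η : {η : Ordinal.{u + 1} // η < ξ}, Dead η.1 r2 (n + 1) (Function.update t n a)
termination_by ξ
decreasing_by exact η.2

variable {bb Kr}

theorem dead_iff {ξ : Ordinal.{u + 1}} {r : P} {n : ℕ} {t : ℕ → ℕ × Ordinal.{u}} :
    Dead bb Kr ξ r n t ↔ ∀ r1 ≤ r, ∃ r2 ≤ r1, (∀ r3 ≤ r2, ¬ OK bb Kr r3 n t) ∨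
    ∀ a, ∃ η < ξ, Dead bb Kr η r2 (n + 1) (Function.update t n a) := by
  rw [Dead]; simp

theorem OK.mono (hb : RName bb) {r r' : P} {n : ℕ} {t : ℕ → ℕ × Ordinal.{u}} (h : r' ≤ r)
    (hO : OK bb Kr r n t) : OK bb Kr r' n t := by
  obtain ⟨c', h', h1, h2, h3⟩ := hO
  exact ⟨c', h', fun i hi => hb.mono _ _ _ _ h (h1 i hi), h2, h3⟩

theorem OK.congr {r : P} {n : ℕ} {t t' : ℕ → ℕ × Ordinal.{u}} (h : Agree n t t')
    (hO : OK bb Kr r n t) : OK bb Kr r n t' := by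
  obtain ⟨c', h', h1, h2, h3⟩ := hO
  exact ⟨c', h', h1, h2.trans h, h3⟩

theorem agree_update {n : ℕ} {t t' : ℕ → ℕ × Ordinal.{u}} (h : Agree n t t') (a : ℕ × Ordinal.{u}) :
    Agree (n + 1) (Function.update t n a) (Function.update t' n a) := by
  intro i hi
  by_cases hin : i = n
  · subst hin; simp
  · rw [Function.update_of_ne hin, Function.update_of_ne hin]; exact h i (by omega)

theorem Dead.mono {ξ : Ordinal.{u + 1}} {r r' : P} {n : ℕ} {t : ℕ → ℕ × Ordinal.{u}} (h : r' ≤ r)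
    (hD : Dead bb Kr ξ r n t) : Dead bb Kr ξ r' n t := by
  rw [dead_iff] at hD ⊢
  exact fun r1 hr1 => hD r1 (hr1.trans h)

theorem Dead.reg {ξ : Ordinal.{u + 1}} {r : P} {n : ℕ} {t : ℕ → ℕ × Ordinal.{u}}
    (h : ∀ r' ≤ r, ∃ r'' ≤ r', Dead bb Kr ξ r'' n t) : Dead bb Kr ξ r n t := by
  rw [dead_iff]
  intro r1 hr1
  obtain ⟨r2, hr2, h2⟩ := h r1 hr1
  rw [dead_iff] at h2
  obtain ⟨r3, hr3, h3⟩ := h2 r2 le_rfl
  exact ⟨r3, hr3.trans hr2, h3⟩

theorem Dead.mono_ord {ξ ξ' : Ordinal.{u + 1}} (hξ : ξ ≤ ξ') {r : P} {n : ℕ}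
    {t : ℕ → ℕ × Ordinal.{u}} (hD : Dead bb Kr ξ r n t) : Dead bb Kr ξ' r n t := by
  rw [dead_iff] at hD ⊢
  intro r1 hr1
  obtain ⟨r2, hr2, h2⟩ := hD r1 hr1
  refine ⟨r2, hr2, h2.imp id fun h a => ?_⟩
  obtain ⟨η, hη, h3⟩ := h a
  exact ⟨η, hη.trans_le hξ, h3⟩

theorem Dead.congr {ξ : Ordinal.{u + 1}} : ∀ {r : P} {n : ℕ} {t t' : ℕ → ℕ × Ordinal.{u}},
    Agree n t t' → Dead bb Kr ξ r n t → Dead bb Kr ξ r n t' := by
  induction ξ using WellFoundedLT.induction with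
  | ind ξ ih =>
    intro r n t t' h hD
    rw [dead_iff] at hD ⊢
    intro r1 hr1
    obtain ⟨r2, hr2, h2⟩ := hD r1 hr1
    refine ⟨r2, hr2, h2.imp (fun h3 r3 hr3 hO => h3 r3 hr3 (hO.congr h.symm)) fun h3 a => ?_⟩
    obtain ⟨η, hη, h4⟩ := h3 a
    exact ⟨η, hη, ih η hη (agree_update h a) h4⟩

variable (bb Kr) in
/-- Alive nodes. -/
def Alive (r : P) (n : ℕ) (t : ℕ → ℕ × Ordinal.{u}) : Prop :=
  ∀ ξ, ∀ r' ≤ r, ¬ Dead bb Kr ξ r' n t

theorem Alive.congr {r : P} {n : ℕ} {t t' : ℕ → ℕ × Ordinal.{u}} (h : Agree n t t')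
    (hA : Alive bb Kr r n t) : Alive bb Kr r n t' :=
  fun ξ r' hr' hD => hA ξ r' hr' (hD.congr h.symm)

theorem Alive.mono {r r' : P} (h : r' ≤ r) {n : ℕ} {t : ℕ → ℕ × Ordinal.{u}}
    (hA : Alive bb Kr r n t) : Alive bb Kr r' n t :=
  fun ξ r'' hr'' => hA ξ r'' (hr''.trans h)

/-- Alive nodes can be extended. -/
theorem Alive.step (hb : RName bb) {r : P} {n : ℕ} {t : ℕ → ℕ × Ordinal.{u}}
    (hA : Alive bb Kr r n t) {r1 : P} (hr1 : r1 ≤ r) : ∃ r2 ≤ r1, OK bb Kr r2 n t ∧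
      ∃ a, Alive bb Kr r2 (n + 1) (Function.update t n a) := by
  by_contra hc
  push Not at hc
  -- bounds
  have hex : ∀ (a : ℕ × Ordinal.{u}) (r2 : P), ∃ ξ : Ordinal.{u + 1}, r2 ≤ r1 → OK bb Kr r2 n t →
      ∃ r3 ≤ r2, Dead bb Kr ξ r3 (n + 1) (Function.update t n a) := by
    intro a r2
    by_cases h : r2 ≤ r1 ∧ OK bb Kr r2 n t
    · have h1 := hc r2 h.1 h.2 a
      unfold Alive at h1
      push Not at h1
      obtain ⟨ξ, r3, h3, h4⟩ := h1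
      exact ⟨ξ, fun _ _ => ⟨r3, h3, h4⟩⟩
    · exact ⟨0, fun h1 h2 => (h ⟨h1, h2⟩).elim⟩
  choose Ξ hΞ using hex
  let B : Ordinal.{u + 1} := ⨆ p : (ℕ × Ordinal.{u}) × P, Ξ p.1 p.2
  have hB : ∀ a r2, Ξ a r2 ≤ B := fun a r2 =>
    Ordinal.le_iSup (fun p : (ℕ × Ordinal.{u}) × P => Ξ p.1 p.2) (a, r2)
  refine hA (Order.succ B) r1 hr1 ?_
  rw [dead_iff]
  intro r2 hr2
  by_cases h : ∃ r3 ≤ r2, OK bb Kr r3 n t
  · obtain ⟨r3, hr3, h3⟩ := h
    refine ⟨r3, hr3, Or.inr fun a => ⟨B, Order.lt_succ B, Dead.reg fun r4 hr4 => ?_⟩⟩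
    obtain ⟨r5, hr5, h5⟩ := hΞ a r4 (hr4.trans (hr3.trans hr2)) (h3.mono hb hr4)
    exact ⟨r5, hr5, h5.mono_ord (hB a r4)⟩
  · push Not at h
    exact ⟨r2, le_rfl, Or.inl h⟩

variable (bb Kr) in
/-- The dense set attached to a node. -/
def DSet (n : ℕ) (t : ℕ → ℕ × Ordinal.{u}) : Set P :=
  {r | Alive bb Kr r n t ∨ ∃ ξ, Dead bb Kr ξ r n t ∧ (∀ η < ξ, ∀ r' ≤ r, ¬ Dead bb Kr η r' n t) ∧
    ((∀ r' ≤ r, ¬ OK bb Kr r' n t) ∨
      ∀ a, ∃ η < ξ, Dead bb Kr η r (n + 1) (Function.update t n a))}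

theorem DSet_dense (n : ℕ) (t : ℕ → ℕ × Ordinal.{u}) (r : P) : ∃ r' ≤ r, r' ∈ DSet bb Kr n t := by
  by_cases h : ∃ ξ, ∃ r' ≤ r, Dead bb Kr ξ r' n t
  · obtain ⟨ξ, ⟨r1, hr1, h1⟩, hmin⟩ := (wellFounded_lt (α := Ordinal.{u + 1})).has_min
      {ξ | ∃ r' ≤ r, Dead bb Kr ξ r' n t} h
    have h1' := h1
    rw [dead_iff] at h1'
    obtain ⟨r2, hr2, h2⟩ := h1' r1 le_rfl
    refine ⟨r2, hr2.trans hr1, Or.inr ⟨ξ, h1.mono hr2, fun η hη r' hr' hD => ?_, h2⟩⟩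
    exact hmin η ⟨r', hr'.trans (hr2.trans hr1), hD⟩ hη
  · push Not at h
    exact ⟨r, le_rfl, Or.inl h⟩

theorem DSet_congr {n : ℕ} {t t' : ℕ → ℕ × Ordinal.{u}} (h : Agree n t t') {r : P}
    (hr : r ∈ DSet bb Kr n t) : r ∈ DSet bb Kr n t' := by
  rcases hr with hr | ⟨ξ, h1, h2, h3⟩
  · exact Or.inl (hr.congr h)
  · refine Or.inr ⟨ξ, h1.congr h, fun η hη r' hr' hD => h2 η hη r' hr' (hD.congr h.symm), ?_⟩
    refine h3.imp (fun h4 r' hr' hO => h4 r' hr' (hO.congr h.symm)) fun h4 a => ?_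
    obtain ⟨η, hη, h5⟩ := h4 a
    exact ⟨η, hη, h5.congr (agree_update h a)⟩

/-- If a generic real has a certificate that is met generically, then the root is alive. -/
theorem exists_alive_of_generic (hb : RName bb) {q : ℕ → P} (hq : Antitone q) {c : ℕ → ℕ}
    (hc : ∀ i, ∃ k, bb i (c i) (q k)) {h : ℕ → ℕ × Ordinal.{u}} (hh : Cert Kr c h)
    (hD : ∀ n, ∃ k, q k ∈ DSet bb Kr n h) : ∃ k, Alive bb Kr (q k) 0 h := by
  have key : ∀ ξ : Ordinal.{u + 1}, ∀ k n, ¬ Dead bb Kr ξ (q k) n h := by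
    intro ξ
    induction ξ using WellFoundedLT.induction with
    | ind ξ ih =>
      intro k n hdead
      obtain ⟨m, hm⟩ := hD n
      have hle1 : q (max k m) ≤ q k := hq (le_max_left _ _)
      have hle2 : q (max k m) ≤ q m := hq (le_max_right _ _)
      rcases hm with hm | ⟨ξ', h1, h2, h3⟩
      · exact hm ξ _ hle2 (hdead.mono hle1)
      · have hξ : ξ' ≤ ξ := by
          by_contra hlt
          exact h2 ξ (not_le.1 hlt) _ hle2 (hdead.mono hle1)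
        rcases h3 with h3 | h3
        · -- contradiction since `h` itself is fine
          have : ∃ k', m ≤ k' ∧ ∀ i < n, bb i (c i) (q k') := by
            clear h3 h2 h1 hdead ih hle1 hle2
            induction n with
            | zero => exact ⟨m, le_rfl, fun i hi => (Nat.not_lt_zero _ hi).elim⟩
            | succ n ih =>
              obtain ⟨k1, hk1, h1⟩ := ih
              obtain ⟨k2, hk2⟩ := hc n
              refine ⟨max k1 k2, hk1.trans (le_max_left _ _), fun i hi => ?_⟩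
              rcases Nat.lt_succ_iff_lt_or_eq.1 hi with h | rfl
              · exact hb.mono _ _ _ _ (hq (le_max_left _ _)) (h1 i h)
              · exact hb.mono _ _ _ _ (hq (le_max_right _ _)) hk2
          obtain ⟨k', hk', h4⟩ := this
          exact h3 (q k') (hq hk') ⟨c, h, h4, Agree.refl _ _, hh⟩
        · obtain ⟨η, hη, h4⟩ := h3 (h n)
          rw [Function.update_eq_self] at h4
          exact ih η (hη.trans_le hξ) m (n + 1) h4
  obtain ⟨m, hm⟩ := hD 0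
  rcases hm with hm | ⟨ξ, h1, _⟩
  · exact ⟨m, hm⟩
  · exact (key ξ m 0 h1).elim

end Alive

end Pool.Agent.H17.Omega
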