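import Pool.Agent.H17.Omega.Collapse

/-!
# Countable generic models for arbitrary preorders
-/

set_option autoImplicit false
set_option linter.unusedVariables false
set_option linter.unusedSectionVars false
set_option linter.unusedSimpArgs false
set_option linter.deprecated false

universe u v w

namespace Pool.Agent.H17.Omega

open Name

section GenModelB

variable {Q : Type u} [Preorder Q]

/-- A countable generic model (for arbitrary preorders). -/
structure GenModelB (Q : Type u) [Preorder Q] (α : Ordinal.{u}) (p : Q) where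
  /-- the generic sequence -/
  q : ℕ → Q
  anti : Antitone q
  q0 : q 0 = p
  /-- the names -/
  g : ℕ → NmV Q α
  /-- the value of names -/
  val : ℕ → ZFSet.{u}
  mem_val : ∀ z j, z ∈ val j ↔ ∃ i, (∃ n, fmem (g i).1 (g j).1 (q n)) ∧ val i = z
  val_eq : ∀ i j, val i = val j ↔ ∃ n, feq (g i).1 (g j).1 (q n)
  truth : ∀ (θ : Fml) (f : ℕ → ℕ), Sat (SMem (Set.range val)) θ (fun i => ⟨val (f i), _, rfl⟩) ↔
    ∃ n, Forces (fun X : Name Q => X.InV α) θ (fun i => g (f i)) (q n)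
  el : ∀ i j n, fmem (g i).1 (g j).1 (q n) → ∃ m k a, (g k).1 = (g j).1.el a ∧
    q m ≤ (g j).1.cd a ∧ feq (g i).1 (g k).1 (q m)

/-- Existence of countable generic models. -/
theorem exists_genModelB (α : Ordinal.{u}) (p : Q) (S : ℕ → NmV Q α)
    (𝒟 : ℕ → List (NmV Q α) → Set Q) (h𝒟 : ∀ k l, ∀ q, ∃ r ≤ q, r ∈ 𝒟 k l) :
    ∃ G : GenModelB Q α p, (∀ n, ∃ j, G.g j = S n) ∧
      ∀ k (l : List ℕ), ∃ n, G.q n ∈ 𝒟 k (l.map G.g) := by
  classical
  set D : Name Q → Prop := fun X => X.InV α with hD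
  let d : NmV Q α := S 0
  let asg : List (NmV Q α) → ℕ → NmV Q α := fun l i => l.getD i d
  let T : ((ℕ × Fml) ⊕ Bool ⊕ ℕ) → List (NmV Q α) → Q → NmV Q α → Prop := fun t l r w =>
    match t with
    | .inl (k, θ) => Forces D (.imp (.ex k θ) .bot) (asg l) r ∨ Forces D θ (upd (asg l) k w) r
    | .inr (.inl true) => (∀ s ≤ r, ¬ fmem (asg l 0).1 (asg l 1).1 s) ∨
        ∃ i, r ≤ (asg l 1).1.cd i ∧ feq (asg l 0).1 ((asg l 1).1.el i) r ∧ w.1 = (asg l 1).1.el i
    | .inr (.inl false) => True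
    | .inr (.inr k) => r ∈ 𝒟 k l
  have hT : ∀ t l q, ∃ r ≤ q, ∃ w, T t l r w := by
    intro t l q
    rcases t with ⟨k, θ⟩ | b | k
    · by_cases h : Forces D (.ex k θ) (asg l) q
      · obtain ⟨r, hr, x, hx⟩ := h q le_rfl
        exact ⟨r, hr, x, Or.inr hx⟩
      · obtain ⟨r, hr, h1⟩ := Forces.exists_not h
        exact ⟨r, hr, d, Or.inl h1⟩
    · rcases b with _ | _
      · exact ⟨q, le_rfl, d, trivial⟩
      · by_cases h : fmem (asg l 0).1 (asg l 1).1 q
        · obtain ⟨r, hr, i, h1, h2⟩ := h q le_rfl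
          exact ⟨r, hr, ⟨_, (asg l 1).2.el i⟩, Or.inr ⟨i, h1, h2, rfl⟩⟩
        · obtain ⟨r, hr, h1⟩ := exists_not_fmem h
          exact ⟨r, hr, d, Or.inl h1⟩
    · obtain ⟨r, hr, h⟩ := h𝒟 k l q
      exact ⟨r, hr, d, h⟩
  obtain ⟨q, g, hanti, hq0, hS, hgen⟩ := exists_generic_seq p T hT S
  -- facts
  have hle : ∀ n m, q (max n m) ≤ q n := fun n m => hanti (le_max_left _ _)
  have hle' : ∀ n m, q (max n m) ≤ q m := fun n m => hanti (le_max_right _ _)
  -- witness property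
  have wit : ∀ (k : ℕ) (θ : Fml) (f : ℕ → ℕ), ∃ n,
      Forces D (.imp (.ex k θ) .bot) (fun i => g (f i)) (q n) ∨
      ∃ j, Forces D θ (upd (fun i => g (f i)) k (g j)) (q n) := by
    intro k θ f
    obtain ⟨n, j, h⟩ := hgen (.inl (k, θ)) ((List.range (max (k + 1) θ.bd)).map f)
    have hasg : ∀ i < max (k + 1) θ.bd,
        asg (((List.range (max (k + 1) θ.bd)).map f).map g) i = g (f i) := by
      intro i hi
      simp only [asg, List.map_map]
      rw [List.getD_eq_getElem _ _ (by simpa using hi)]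
      simp
    refine ⟨n, ?_⟩
    rcases h with h | h
    · left
      refine (Forces.congr ?_).1 h
      intro i hi
      apply hasg
      simpa [Fml.bd] using hi
    · right
      refine ⟨j, (Forces.congr ?_).1 h⟩
      intro i hi
      by_cases hik : i = k
      · subst hik; simp
      · rw [upd_ne _ _ hik, upd_ne _ _ hik]
        exact hasg i (lt_of_lt_of_le hi (le_max_right _ _))
  have dec : ∀ (θ : Fml) (f : ℕ → ℕ), ∃ n,
      Forces D (.imp θ .bot) (fun i => g (f i)) (q n) ∨ Forces D θ (fun i => g (f i)) (q n) := by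
    intro θ f
    obtain ⟨n, h⟩ := wit θ.bd θ f
    have hc : ∀ x r, Forces D θ (upd (fun i => g (f i)) θ.bd x) r ↔
        Forces D θ (fun i => g (f i)) r := by
      intro x r
      apply Forces.congr
      intro i hi
      rw [upd_ne _ _ (by omega)]
    refine ⟨n, h.imp ?_ ?_⟩
    · intro h r hr h1
      refine h r hr ?_
      intro s hs
      exact ⟨s, le_rfl, d, (hc _ _).2 (Forces.mono hs h1)⟩
    · rintro ⟨j, h⟩
      exact (hc _ _).1 h
  -- truth
  have th_congr : ∀ (k : ℕ) (f : ℕ → ℕ) (j : ℕ), (fun i => g ((upd f k j) i)) =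
      upd (fun i => g (f i)) k (g j) := fun k f j => upd_comp g f k j
  have th_imp : ∀ (φ ψ : Fml) (f : ℕ → ℕ), (∃ n, Forces D (.imp φ ψ) (fun i => g (f i)) (q n)) ↔
      ((∃ n, Forces D φ (fun i => g (f i)) (q n)) → ∃ n, Forces D ψ (fun i => g (f i)) (q n)) := by
    intro φ ψ f
    constructor
    · rintro ⟨n, hn⟩ ⟨m, hm⟩
      exact ⟨max n m, hn _ (hle n m) (Forces.mono (hle' n m) hm)⟩
    · intro h
      obtain ⟨n, hn | hn⟩ := dec φ f
      · exact ⟨n, fun r hr h1 => (hn r hr h1).elim⟩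
      · obtain ⟨m, hm⟩ := h ⟨n, hn⟩
        exact ⟨m, fun r hr _ => Forces.mono hr hm⟩
  have th_and : ∀ (φ ψ : Fml) (f : ℕ → ℕ), (∃ n, Forces D (.and φ ψ) (fun i => g (f i)) (q n)) ↔
      ((∃ n, Forces D φ (fun i => g (f i)) (q n)) ∧ ∃ n, Forces D ψ (fun i => g (f i)) (q n)) := by
    intro φ ψ f
    constructor
    · rintro ⟨n, hn⟩
      exact ⟨⟨n, hn.1⟩, ⟨n, hn.2⟩⟩
    · rintro ⟨⟨n, hn⟩, ⟨m, hm⟩⟩
      exact ⟨max n m, Forces.mono (hle n m) hn, Forces.mono (hle' n m) hm⟩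
  have th_or : ∀ (φ ψ : Fml) (f : ℕ → ℕ), (∃ n, Forces D (.or φ ψ) (fun i => g (f i)) (q n)) ↔
      ((∃ n, Forces D φ (fun i => g (f i)) (q n)) ∨ ∃ n, Forces D ψ (fun i => g (f i)) (q n)) := by
    intro φ ψ f
    constructor
    · rintro ⟨n, hn⟩
      obtain ⟨m, hm | hm⟩ := dec φ f
      · obtain ⟨k, hk | hk⟩ := dec ψ f
        · exfalso
          set N := max n (max m k)
          obtain ⟨r, hr, h | h⟩ := hn (q N) (hanti (le_max_left _ _))
          · exact hm r (hr.trans (hanti ((le_max_left _ _).trans (le_max_right _ _)))) h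
          · exact hk r (hr.trans (hanti ((le_max_right _ _).trans (le_max_right _ _)))) h
        · exact Or.inr ⟨k, hk⟩
      · exact Or.inl ⟨m, hm⟩
    · rintro (⟨n, hn⟩ | ⟨n, hn⟩)
      · exact ⟨n, fun r hr => ⟨r, le_rfl, Or.inl (Forces.mono hr hn)⟩⟩
      · exact ⟨n, fun r hr => ⟨r, le_rfl, Or.inr (Forces.mono hr hn)⟩⟩
  have th_ex : ∀ (k : ℕ) (φ : Fml) (f : ℕ → ℕ),
      (∃ n, Forces D (.ex k φ) (fun i => g (f i)) (q n)) ↔
      ∃ j, ∃ n, Forces D φ (fun i => g ((upd f k j) i)) (q n) := by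
    intro k φ f
    simp only [th_congr]
    constructor
    · rintro ⟨n, hn⟩
      obtain ⟨m, hm | ⟨j, hj⟩⟩ := wit k φ f
      · exact (hm _ (hle' n m) (Forces.mono (hle n m) hn)).elim
      · exact ⟨j, m, hj⟩
    · rintro ⟨j, n, hn⟩
      exact ⟨n, fun r hr => ⟨r, le_rfl, g j, Forces.mono hr hn⟩⟩
  have th_all : ∀ (k : ℕ) (φ : Fml) (f : ℕ → ℕ),
      (∃ n, Forces D (.all k φ) (fun i => g (f i)) (q n)) ↔
      ∀ j, ∃ n, Forces D φ (fun i => g ((upd f k j) i)) (q n) := by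
    intro k φ f
    simp only [th_congr]
    constructor
    · rintro ⟨n, hn⟩ j
      exact ⟨n, hn (g j)⟩
    · intro h
      obtain ⟨m, hm | ⟨j, hj⟩⟩ := wit k (.imp φ .bot) f
      · refine ⟨m, fun x => ?_⟩
        refine Forces.reg fun r hr => ?_
        by_contra hc
        push Not at hc
        refine hm r hr fun s hs => ⟨s, le_rfl, x, fun t ht h1 => hc t (ht.trans hs) h1⟩
      · obtain ⟨n, hn⟩ := h j
        exact (hj _ (hle' n m) (Forces.mono (hle n m) hn)).elim
  -- membership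
  let R : ℕ → ℕ → Prop := fun i j => ∃ n, fmem (g i).1 (g j).1 (q n)
  let Eqv : ℕ → ℕ → Prop := fun i j => ∃ n, feq (g i).1 (g j).1 (q n)
  have Eqv_refl : ∀ i, Eqv i i := fun i => ⟨0, feq_refl _ _⟩
  have Eqv_symm : ∀ {i j}, Eqv i j → Eqv j i := fun ⟨n, h⟩ => ⟨n, feq_symm h⟩
  have Eqv_trans : ∀ {i j k}, Eqv i j → Eqv j k → Eqv i k := fun ⟨n, h⟩ ⟨m, h'⟩ =>
    ⟨max n m, feq_trans (feq_mono (hle n m) h) (feq_mono (hle' n m) h')⟩
  have R_congr_right : ∀ {i j k}, Eqv j k → R i j → R i k := fun ⟨n, h⟩ ⟨m, h'⟩ =>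
    ⟨max n m, fmem_congr_right (feq_mono (hle n m) h) (fmem_mono (hle' n m) h')⟩
  have R_congr_left : ∀ {i j k}, Eqv i j → R i k → R j k := fun ⟨n, h⟩ ⟨m, h'⟩ =>
    ⟨max n m, fmem_congr_left (feq_mono (hle n m) h) (fmem_mono (hle' n m) h')⟩
  have hel : ∀ i j n, fmem (g i).1 (g j).1 (q n) → ∃ m k a, (g k).1 = (g j).1.el a ∧
      q m ≤ (g j).1.cd a ∧ feq (g i).1 (g k).1 (q m) := by
    intro i j n h
    obtain ⟨m, k, hm⟩ := hgen (.inr (.inl true)) [i, j]
    have hm' : (∀ s ≤ q m, ¬ fmem (g i).1 (g j).1 s) ∨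
        ∃ a, q m ≤ (g j).1.cd a ∧ feq (g i).1 ((g j).1.el a) (q m) ∧ (g k).1 = (g j).1.el a := hm
    rcases hm' with h1 | ⟨a, h1, h2, h3⟩
    · exact (h1 _ (hle' n m) (fmem_mono (hle n m) h)).elim
    · exact ⟨m, k, a, h3, h1, by rw [h3]; exact h2⟩
  -- well-foundedness
  let μ : ℕ → Ordinal.{u} := fun i => sInf {o | ∃ j, Eqv i j ∧ (rk (g j).1) = o}
  have μ_mem : ∀ i, ∃ j, Eqv i j ∧ rk (g j).1 = μ i := fun i =>
    csInf_mem (⟨_, i, Eqv_refl i, rfl⟩ : {o | ∃ j, Eqv i j ∧ (rk (g j).1) = o}.Nonempty)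
  have μ_lt : ∀ i j, R i j → μ i < μ j := by
    intro i j hij
    obtain ⟨j', hj', hμ⟩ := μ_mem j
    obtain ⟨n, hn⟩ := R_congr_right hj' hij
    obtain ⟨m, k, a, hk, h1, h2⟩ := hel i j' n hn
    have h3 : μ i ≤ rk (g k).1 := csInf_le' ⟨k, ⟨m, h2⟩, rfl⟩
    refine lt_of_le_of_lt h3 ?_
    rw [← hμ, hk]
    exact rk_el_lt _ _
  have wf : WellFounded R := Subrelation.wf (fun {i j} h => μ_lt i j h)
    (InvImage.wf μ (wellFounded_lt (α := Ordinal.{u})))
  let val : ℕ → ZFSet.{u} := wf.fix fun j ih => ZFSet.range (fun i : {i // R i j} => ih i.1 i.2)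
  have val_def : ∀ j, val j = ZFSet.range (fun i : {i // R i j} => val i.1) := fun j => wf.fix_eq _ j
  have mem_val : ∀ z j, z ∈ val j ↔ ∃ i, R i j ∧ val i = z := by
    intro z j
    rw [val_def, ZFSet.mem_range]
    constructor
    · rintro ⟨⟨i, hi⟩, rfl⟩; exact ⟨i, hi, rfl⟩
    · rintro ⟨i, hi, rfl⟩; exact ⟨⟨i, hi⟩, rfl⟩
  have val_congr : ∀ i j, Eqv i j → val i = val j := by
    intro i j h
    apply ZFSet.ext
    intro z
    rw [mem_val, mem_val]
    exact exists_congr fun k => and_congr_left fun _ =>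
      ⟨R_congr_right h, R_congr_right (Eqv_symm h)⟩
  have val_inj : ∀ i j, val i = val j → Eqv i j := by
    intro i
    induction i using wf.induction with
    | _ i ih =>
      intro j h
      let f0 : ℕ → ℕ := fun a => if a = 0 then i else j
      have hext : ∃ n, Forces D (.imp (.all 2 (.iff (.mem 2 0) (.mem 2 1))) (.eq 0 1))
          (fun a => g (f0 a)) (q n) := by
        refine ⟨0, ?_⟩
        have h1 := vforces_ext α (q 0) (fun a => g (f0 a)) (g i) (g j)
        have h2 : upd (upd (fun a => g (f0 a)) 0 (g i)) 1 (g j) = fun a => g (f0 a) := by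
          funext a
          by_cases h1 : a = 1
          · subst h1; simp [f0]
          · by_cases h0 : a = 0
            · subst h0; simp [f0, upd]
            · simp [upd, h0, h1]
        rw [h2] at h1
        exact h1
      rw [th_imp] at hext
      refine hext ?_
      rw [th_all]
      intro k
      have e0 : upd f0 2 k 0 = i := by simp [upd, f0]
      have e1 : upd f0 2 k 1 = j := by simp [upd, f0]
      have e2 : upd f0 2 k 2 = k := by simp [upd, f0]
      have hiff : R k i ↔ R k j := by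
        constructor
        · intro hk
          have h1 : val k ∈ val j := h ▸ (mem_val _ _).2 ⟨k, hk, rfl⟩
          obtain ⟨k', hk', h2⟩ := (mem_val _ _).1 h1
          exact R_congr_left (Eqv_symm (ih k hk k' h2.symm)) hk'
        · intro hk
          have h1 : val k ∈ val i := h ▸ (mem_val _ _).2 ⟨k, hk, rfl⟩
          obtain ⟨k', hk', h2⟩ := (mem_val _ _).1 h1
          exact R_congr_left (ih k' hk' k h2) hk'
      simp only [Fml.iff]
      rw [th_and, th_imp, th_imp]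
      have a0 : (∃ n, Forces D (.mem 2 0) (fun a => g (upd f0 2 k a)) (q n)) ↔ R k i := by
        show (∃ n, fmem (g (upd f0 2 k 2)).1 (g (upd f0 2 k 0)).1 (q n)) ↔ _
        rw [e0, e2]
      have a1 : (∃ n, Forces D (.mem 2 1) (fun a => g (upd f0 2 k a)) (q n)) ↔ R k j := by
        show (∃ n, fmem (g (upd f0 2 k 2)).1 (g (upd f0 2 k 1)).1 (q n)) ↔ _
        rw [e1, e2]
      rw [a0, a1]
      exact ⟨hiff.1, hiff.2⟩
  have val_eq : ∀ i j, val i = val j ↔ Eqv i j := fun i j => ⟨val_inj i j, val_congr i j⟩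
  have val_mem : ∀ i j, val i ∈ val j ↔ R i j := by
    intro i j
    rw [mem_val]
    constructor
    · rintro ⟨k, hk, h⟩
      exact R_congr_left ((val_eq _ _).1 h) hk
    · intro h; exact ⟨i, h, rfl⟩
  have truth : ∀ (θ : Fml) (f : ℕ → ℕ),
      Sat (SMem (Set.range val)) θ (fun i => ⟨val (f i), _, rfl⟩) ↔
      ∃ n, Forces D θ (fun i => g (f i)) (q n) := by
    intro θ
    induction θ with
    | mem i j => intro f; exact val_mem _ _
    | eq i j =>
      intro f
      show (⟨val (f i), _⟩ : Set.range val) = ⟨val (f j), _⟩ ↔ _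
      rw [Subtype.mk.injEq]
      exact val_eq _ _
    | bot =>
      intro f
      exact ⟨fun h => h.elim, fun ⟨n, h⟩ => h⟩
    | imp φ ψ ih1 ih2 => intro f; rw [th_imp, ← ih1, ← ih2]; rfl
    | and φ ψ ih1 ih2 => intro f; rw [th_and, ← ih1, ← ih2]; rfl
    | or φ ψ ih1 ih2 => intro f; rw [th_or, ← ih1, ← ih2]; rfl
    | all k φ ih =>
      intro f
      rw [th_all]
      have hs : ∀ j, (fun i => (⟨val (upd f k j i), _, rfl⟩ : Set.range val)) =
          upd (fun i => ⟨val (f i), _, rfl⟩) k ⟨val j, j, rfl⟩ := fun j =>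
        upd_comp (fun i => (⟨val i, _, rfl⟩ : Set.range val)) f k j
      constructor
      · intro h j
        rw [← ih, hs]
        exact h _
      · rintro h ⟨_, j, rfl⟩
        rw [← hs, ih]
        exact h j
    | ex k φ ih =>
      intro f
      rw [th_ex]
      have hs : ∀ j, (fun i => (⟨val (upd f k j i), _, rfl⟩ : Set.range val)) =
          upd (fun i => ⟨val (f i), _, rfl⟩) k ⟨val j, j, rfl⟩ := fun j =>
        upd_comp (fun i => (⟨val i, _, rfl⟩ : Set.range val)) f k j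
      constructor
      · rintro ⟨⟨_, j, rfl⟩, h⟩
        refine ⟨j, ?_⟩
        rw [← ih, hs]
        exact h
      · rintro ⟨j, h⟩
        refine ⟨⟨_, j, rfl⟩, ?_⟩
        rw [← hs, ih]
        exact h
  refine ⟨⟨q, hanti, hq0, g, val, mem_val, val_eq, truth, hel⟩,
    fun n => ⟨2 * n, hS n⟩, fun k l => ?_⟩
  obtain ⟨n, j, h⟩ := hgen (.inr (.inr k)) l
  exact ⟨n, h⟩

end GenModelB

namespace GenModelB

variable {Q : Type u} [Preorder Q] {α : Ordinal.{u}} {p : Q} (G : GenModelB Q α p)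

/-- The model. -/
def N : Set ZFSet.{u} := Set.range G.val

theorem val_mem_N (i : ℕ) : G.val i ∈ G.N := ⟨i, rfl⟩

theorem trans {x : ZFSet.{u}} (hx : x ∈ G.N) {y : ZFSet.{u}} (hy : y ∈ x) : y ∈ G.N := by
  obtain ⟨i, rfl⟩ := hx
  obtain ⟨j, _, rfl⟩ := (G.mem_val _ _).1 hy
  exact ⟨j, rfl⟩

theorem models_of_vforces {φ : Fml} (h : VForces α φ p) : Models G.N φ := by
  intro f
  choose k hk using fun i => (f i).2
  have hf : f = fun i => (⟨G.val (k i), _, rfl⟩ : Set.range G.val) := by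
    funext i; exact Subtype.ext (hk i).symm
  rw [hf]
  exact (G.truth φ k).2 ⟨0, by rw [G.q0]; exact h _⟩

theorem ctm (h : ∀ ψ, ZFC ψ → VForces α ψ p) : CTM G.N where
  nonempty := ⟨_, G.val_mem_N 0⟩
  countable := Set.countable_range _
  trans := fun x hx y hy => G.trans hx hy
  zfc := fun ψ hψ => G.models_of_vforces (h ψ hψ)

end GenModelB

/-- A sentence that holds in all countable transitive models in which another one holds: the same for
the forcing extensions. -/
theorem validStar_of_ctm {φ φ' : Fml} (h : ∀ N : Set ZFSet.{u}, CTM N → Models N φ → Models N φ')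
    (hφ : ValidStar.{u} φ) : ValidStar.{u} φ' := by
  intro α Q _ p hz f
  by_contra hc
  obtain ⟨q, hq, h1⟩ := Forces.exists_not hc
  obtain ⟨G, hG, _⟩ := exists_genModelB α q f (fun _ _ => Set.univ) (fun _ _ q => ⟨q, le_rfl, trivial⟩)
  have hz' : ∀ ψ, ZFC ψ → VForces α ψ q := fun ψ hψ g => Forces.mono hq (hz ψ hψ g)
  have h2 : Models G.N φ' := h _ (G.ctm hz') (G.models_of_vforces (hφ α Q q hz'))
  choose j hj using hG
  have h3 := h2 (fun i => ⟨G.val (j i), _, rfl⟩)
  obtain ⟨n, hn⟩ := (G.truth φ' j).1 h3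
  have hjf : (fun i => G.g (j i)) = f := funext hj
  rw [hjf] at hn
  have h4 : G.q n ≤ q := by
    have := G.anti (Nat.zero_le n)
    rwa [G.q0] at this
  exact h1 _ h4 hn

end Pool.Agent.H17.Omega
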