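import Pool.Agent.H17.Omega.Defs

/-!
# Omega-logic: two kinds of families of witnesses
-/

set_option autoImplicit false

universe u

namespace Pool.Agent.H17.Omega

/-- The set `y` is the subset of `t` with the characteristic function `χ`. -/
def IsSub {t : ZFSet.{u}} (χ : {a : ZFSet.{u} // a ∈ t} → Bool) (y : ZFSet.{u}) : Prop :=
  ∀ a, a ∈ y ↔ ∃ h : a ∈ t, χ ⟨a, h⟩ = true

/-- The hereditarily countable `y` with `ψ(x, y)` are the members of countably many compact families:
closed sets (in the Cantor topology) of subsets of hereditarily countable sets `t n`. -/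
def SigmaCompactWitnesses (ψ : Fml) (x : ZFSet.{u}) : Prop :=
  ∃ (t : ℕ → ZFSet.{u}) (K : (n : ℕ) → Set ({a : ZFSet.{u} // a ∈ t n} → Bool)),
    (∀ n, HC (t n)) ∧ (∀ n, IsClosed (K n)) ∧
      ∀ y, HC y → (Tr ψ x y ↔ ∃ n, ∃ χ ∈ K n, IsSub χ y)

/-- All `y` with `ψ(x, y)` are subsets of `x`, and all but countably many subsets `y` of `x`
satisfy `ψ(x, y)`. -/
def CocountableWitnesses (ψ : Fml) (x : ZFSet.{u}) : Prop :=
  (∀ y, Tr ψ x y → y ⊆ x) ∧ {y : ZFSet.{u} | y ⊆ x ∧ ¬ Tr ψ x y}.Countable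

end Pool.Agent.H17.Omega
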