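import Pool.Agent.H17.Omega.Norm
import Pool.Agent.H17.Omega.DefsB
import Pool.Agent.H17.Omega.CollapseB

/-!
# The Omega conjecture reduces to sentences with co-countable sets of witnesses
-/

set_option autoImplicit false
set_option linter.unusedVariables false
set_option linter.unusedSectionVars false
set_option linter.unusedSimpArgs false
set_option linter.deprecated false

universe u v w

namespace Pool.Agent.H17.Omega

theorem HC.countable {x : ZFSet.{u}} (h : HC x) : {y | y ∈ x}.Countable := by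
  obtain ⟨T, hT, hT', hx⟩ := h
  exact hT.mono fun y hy => hT' x hx y hy

theorem HC.mem {x y : ZFSet.{u}} (h : HC x) (hy : y ∈ x) : HC y := by
  obtain ⟨T, hT, hT', hx⟩ := h
  exact ⟨T, hT, hT', hT' x hx y hy⟩

theorem countable_not_nf {ψ : Fml} {x : ZFSet.{u}} (hx : HC x) :
    {w : ZFSet.{u} | w ⊆ x ∧ ¬ NF ψ x w}.Countable := by
  classical
  let g : ZFSet.{u} → ZFSet.{u} → Prop → ZFSet.{u} := fun u b P =>
    ZFSet.sep (fun c => (c ≠ u ∧ c ∈ b) ∨ (c = u ∧ P)) x
  have h : {w : ZFSet.{u} | w ⊆ x ∧ ¬ NF ψ x w} ⊆ ⋃ u ∈ {u | u ∈ x}, ⋃ b ∈ {b | b ∈ u},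
      Set.range (g u b) := by
    rintro w ⟨hwx, hw⟩
    unfold NF at hw
    push Not at hw
    obtain ⟨u, hu, hS, _, b, hb, h1⟩ := hw hwx
    simp only [Set.mem_iUnion]
    refine ⟨u, hu, b, hb, u ∈ w, ?_⟩
    ext c
    simp only [g, ZFSet.mem_sep]
    constructor
    · rintro ⟨h2, ⟨h3, h4⟩ | ⟨rfl, h4⟩⟩
      · exact (h1 c h2 h3).2 h4
      · exact h4
    · intro h2
      refine ⟨hwx h2, ?_⟩
      by_cases h3 : c = u
      · subst h3; exact Or.inr ⟨rfl, h2⟩
      · exact Or.inl ⟨h3, (h1 c (hwx h2) h3).1 h2⟩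
  refine Set.Countable.mono h ?_
  refine hx.countable.biUnion fun u hu => ?_
  exact (HC.mem hx hu).countable.biUnion fun b _ => Set.countable_range _

/-- Every `Π₂` sentence is equivalent (in all countable transitive models of ZFC) to one with
co-countable sets of witnesses. -/
theorem exists_cocountable {ψ : Fml} (hψ : ψ.Delta0) (hfree : ∀ n, ψ.Free n → n = 0 ∨ n = 1) :
    ∃ θ : Fml, θ.Delta0 ∧ (∀ n, θ.Free n → n = 0 ∨ n = 1) ∧
      (∀ x : ZFSet.{u}, HC x → CocountableWitnesses θ x) ∧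
      ∀ N : Set ZFSet.{u}, CTM N → (Models N (piTwo ψ) ↔ Models N (piTwo θ)) := by
  obtain ⟨θ, h1, h2, h3⟩ := D0.exists_fml (d0_NF.{u} hψ hfree)
  refine ⟨θ, h1, h2, fun x hx => ⟨fun y hy => ((h3 x y).1 hy).1, ?_⟩, fun N hN => ⟨fun h => ?_, fun h => ?_⟩⟩
  · simp only [h3]
    exact countable_not_nf hx
  · apply hN.models_of_witness h1 h2
    simp only [h3]
    exact hN.nf_of_witness hψ hfree fun x hx => hN.exists_witness hψ hfree h hx
  · apply hN.models_of_witness hψ hfree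
    apply hN.witness_of_nf
    intro x hx
    obtain ⟨y, hy, hy'⟩ := hN.exists_witness h1 h2 h hx
    exact ⟨y, hy, (h3 x y).1 hy'⟩

/-- The reduction to sentences with co-countable sets of witnesses. -/
theorem omega_reduction (h : ∀ θ : Fml, θ.Delta0 → (∀ n, θ.Free n → n = 0 ∨ n = 1) →
      (∀ x : ZFSet.{u}, HC x → CocountableWitnesses θ x) →
      ValidStar.{u} (piTwo θ) → ProvOmega.{u} (piTwo θ)) {ψ : Fml} (hψ : ψ.Delta0)
    (hfree : ∀ n, ψ.Free n → n = 0 ∨ n = 1) (hφ : ValidStar.{u} (piTwo ψ)) :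
    ProvOmega.{u} (piTwo ψ) := by
  obtain ⟨θ, h1, h2, h3, h4⟩ := exists_cocountable.{u} hψ hfree
  obtain ⟨A, hA, hA'⟩ := h θ h1 h2 h3 (validStar_of_ctm (fun N hN => (h4 N hN).1) hφ)
  exact ⟨A, hA, fun M hM hcl => (h4 M hM).2 (hA' M hM hcl)⟩

end Pool.Agent.H17.Omega
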