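import Pool.Agent.H17.Omega.KL
import Pool.Agent.H17.Omega.MPair

/-!
# The collapsing poset in a countable transitive model
-/

set_option autoImplicit false
set_option linter.unusedVariables false
set_option linter.unusedSectionVars false
set_option linter.unusedSimpArgs false
set_option linter.deprecated false

universe u v w

namespace Pool.Agent.H17.Omega

/-- Continuous preimages of universally Baire sets in the Baire space. -/
theorem UB.bp {A : Set (ℕ → ℕ)} (hA : UB.{u} A) {a : (ℕ → ℕ) → ℕ → ℕ} (ha : Continuous a) :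
    BaireMeasurableSet {g | a g ∈ A} := by
  have h1 := hA (ULift.{u} (ℕ → ℕ)) (fun x => a x.down) (ha.comp continuous_uliftDown)
  have h2 := h1.preimage (f := fun g : ℕ → ℕ => (ULift.up g : ULift.{u} (ℕ → ℕ)))
    continuous_uliftUp (Homeomorph.ulift (X := ℕ → ℕ)).symm.isOpenMap
  exact h2

/-- Almost every element of a set with the property of Baire has a neighbourhood in which the set
is comeager. -/
theorem meagre_undecided {Γ : Set (ℕ → ℕ)} (h : BaireMeasurableSet Γ) :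
    IsMeagre {g | g ∈ Γ ∧ ¬ ∃ k, IsMeagre (cyl (sg g k) \ Γ)} := by
  obtain ⟨O, hO, hOe⟩ := h.residualEq_isOpen
  have h1 : IsMeagre {g | ¬ (g ∈ Γ ↔ g ∈ O)} := by
    have h2 : {g | (g ∈ Γ) = (g ∈ O)} ∈ residual (ℕ → ℕ) := hOe
    rw [IsMeagre]
    refine Filter.mem_of_superset h2 fun g hg hg' => hg' (iff_of_eq hg)
  refine IsMeagre.mono ?_ h1
  rintro g ⟨hg, hk⟩ hiff
  apply hk
  obtain ⟨n, hn⟩ := exists_cyl_subset hO (hiff.1 hg)
  refine ⟨n, IsMeagre.mono ?_ h1⟩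
  rintro h ⟨hh, hh'⟩ hiff'
  exact hh' (hiff'.2 (hn h (mem_cyl_sg_iff.1 hh)))

theorem meagre_wrong (Γ : Set (ℕ → ℕ)) :
    IsMeagre {g | g ∉ Γ ∧ ∃ k, IsMeagre (cyl (sg g k) \ Γ)} := by
  have h1 : IsMeagre (⋃ l : {l : List ℕ // IsMeagre (cyl l \ Γ)}, cyl l.1 \ Γ) :=
    isMeagre_iUnion fun l => l.2
  refine IsMeagre.mono ?_ h1
  rintro g ⟨hg, k, hk⟩
  exact Set.mem_iUnion.2 ⟨⟨_, hk⟩, mem_cyl_sg g k, hg⟩

/-- A transitive infinite set of the model, with an enumeration. -/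
structure Col (M : Set ZFSet.{u}) where
  hM : CTM M
  t : ZFSet.{u}
  ht : t ∈ M
  tr : t.IsTransitive
  ι : ℕ → ZFSet.{u}
  inj : Function.Injective ι
  mem : ∀ n, ι n ∈ t
  surj : ∀ z ∈ t, ∃ n, ι n = z

namespace Col

variable {M : Set ZFSet.{u}}

theorem exists_col (hM : CTM M) {x : ZFSet.{u}} (hx : x ∈ M) : ∃ C : Col M, ∃ n, C.ι n = x := by
  obtain ⟨t, ht, htr, hxt⟩ := hM.exists_transitive (hM.pair_mem hx hM.omZ_mem)
  have h1 : ({x, omZ} : ZFSet.{u}) ∈ t := htr _ hxt (by rw [ZFSet.pair, ZFSet.mem_pair]; exact Or.inr rfl)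
  have hx1 : x ∈ t := htr _ h1 (by simp)
  have ho1 : omZ ∈ t := htr _ h1 (by simp)
  have hn : ∀ n, natZ n ∈ t := fun n => htr _ ho1 (natZ_mem_omZ n)
  have hc : {z : ZFSet.{u} | z ∈ t}.Countable :=
    hM.countable.mono fun z hz => hM.mem_of_mem ht hz
  have hi : {z : ZFSet.{u} | z ∈ t}.Infinite :=
    Set.infinite_of_injective_forall_mem (f := natZ) (fun m n h => natZ_inj.1 h) hn
  have := hc.to_subtype
  have := hi.to_subtype
  obtain ⟨hden⟩ := nonempty_denumerable {z : ZFSet.{u} | z ∈ t}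
  let e : ℕ ≃ {z : ZFSet.{u} | z ∈ t} := (Denumerable.eqv _).symm
  refine ⟨⟨hM, t, ht, htr, fun n => (e n).1, fun m n h => e.injective (Subtype.ext h),
    fun n => (e n).2, fun z hz => ⟨e.symm ⟨z, hz⟩, by simp⟩⟩, e.symm ⟨x, hx1⟩, by simp⟩

variable (C : Col M)

theorem ι_mem (n : ℕ) : C.ι n ∈ M := C.hM.mem_of_mem C.ht (C.mem n)

/-- The code of a condition. -/
noncomputable def cq (l : List ℕ) : ZFSet.{u} :=
  ZFSet.range (fun i : Fin l.length => ZFSet.pair (natZ i.1) (C.ι l[i.1]))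

theorem mem_cq {l : List ℕ} {z : ZFSet.{u}} :
    z ∈ C.cq l ↔ ∃ i, ∃ h : i < l.length, z = ZFSet.pair (natZ i) (C.ι l[i]) := by
  rw [cq, ZFSet.mem_range]
  constructor
  · rintro ⟨i, rfl⟩; exact ⟨i.1, i.2, rfl⟩
  · rintro ⟨i, h, rfl⟩; exact ⟨⟨i, h⟩, rfl⟩

theorem pair_mem_cq {l : List ℕ} {i : ℕ} {z : ZFSet.{u}} :
    ZFSet.pair (natZ i) z ∈ C.cq l ↔ ∃ h : i < l.length, z = C.ι l[i] := by
  rw [mem_cq]
  constructor
  · rintro ⟨j, h, h'⟩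
    rw [ZFSet.pair_inj, natZ_inj] at h'
    obtain ⟨rfl, rfl⟩ := h'
    exact ⟨h, rfl⟩
  · rintro ⟨h, rfl⟩; exact ⟨i, h, rfl⟩

theorem cq_subset {l l' : List ℕ} : C.cq l ⊆ C.cq l' ↔ l <+: l' := by
  constructor
  · intro h
    have h1 : ∀ i (hi : i < l.length), ∃ h' : i < l'.length, l[i] = l'[i] := by
      intro i hi
      obtain ⟨h', h2⟩ := C.pair_mem_cq.1 (h (C.pair_mem_cq.2 ⟨hi, rfl⟩))
      exact ⟨h', C.inj h2⟩
    rw [List.prefix_iff_eq_take]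
    have hlen : l.length ≤ l'.length := by
      by_contra hc
      obtain ⟨h', _⟩ := h1 l'.length (by omega)
      omega
    apply List.ext_getElem (by simp [hlen])
    intro i h2 h3
    obtain ⟨_, h4⟩ := h1 i h2
    simp [h4]
  · rintro ⟨s, rfl⟩ z hz
    obtain ⟨i, hi, rfl⟩ := C.mem_cq.1 hz
    exact C.pair_mem_cq.2 ⟨by simp; omega, by rw [List.getElem_append_left hi]⟩

theorem cq_inj {l l' : List ℕ} (h : C.cq l = C.cq l') : l = l' := by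
  have h1 : l <+: l' := C.cq_subset.1 (by rw [h])
  have h2 : l' <+: l := C.cq_subset.1 (by rw [h])
  exact h1.eq_of_length (le_antisymm h1.length_le h2.length_le)

theorem cq_nil : C.cq [] = ∅ := by
  rw [ZFSet.eq_empty]
  intro z hz
  obtain ⟨i, hi, _⟩ := C.mem_cq.1 hz
  simp at hi

theorem cq_snoc (l : List ℕ) (a : ℕ) :
    C.cq (l ++ [a]) = insert (ZFSet.pair (natZ l.length) (C.ι a)) (C.cq l) := by
  ext z
  rw [ZFSet.mem_insert_iff, mem_cq, mem_cq]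
  constructor
  · rintro ⟨i, hi, rfl⟩
    by_cases h : i < l.length
    · right; exact ⟨i, h, by rw [List.getElem_append_left h]⟩
    · left
      have : i = l.length := by simp at hi; omega
      subst this
      simp
  · rintro (rfl | ⟨i, hi, rfl⟩)
    · exact ⟨l.length, by simp, by simp⟩
    · exact ⟨i, by simp; omega, by rw [List.getElem_append_left hi]⟩

theorem cq_mem (l : List ℕ) : C.cq l ∈ M := by
  induction l using List.reverseRecOn with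
  | nil => rw [cq_nil]; exact C.hM.empty_mem
  | append_singleton l a ih =>
    rw [cq_snoc]
    exact C.hM.insert_mem (C.hM.pair_mem (C.hM.natZ_mem_N _) (C.ι_mem a)) ih

/-- Finite sequences of elements of `t`. -/
def IsFS (t z : ZFSet.{u}) : Prop :=
  ∃ n ∈ omZ, (∀ w ∈ z, ∃ i ∈ n, ∃ x ∈ t, w = ZFSet.pair i x) ∧
    (∀ i ∈ n, ∃ x ∈ t, ZFSet.pair i x ∈ z) ∧
    ∀ i ∈ n, ∀ x ∈ t, ∀ x' ∈ t, ZFSet.pair i x ∈ z → ZFSet.pair i x' ∈ z → x = x'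

open CTM in
theorem isFS_dfn : C.hM.Dfn (fun v : Fin 1 → M => IsFS C.t (v 0).1) := by
  have hom : omZ ∈ M := C.hM.omZ_mem
  unfold IsFS
  refine Dfn.bexZ (s := fun _ => ⟨omZ, hom⟩) (p := fun v n =>
    (∀ w ∈ (v 0).1, ∃ i ∈ n, ∃ x ∈ C.t, w = ZFSet.pair i x) ∧
    (∀ i ∈ n, ∃ x ∈ C.t, ZFSet.pair i x ∈ (v 0).1) ∧
    ∀ i ∈ n, ∀ x ∈ C.t, ∀ x' ∈ C.t, ZFSet.pair i x ∈ (v 0).1 → ZFSet.pair i x' ∈ (v 0).1 →
      x = x') (DT.const _) ?_
  refine Dfn.and ?_ (Dfn.and ?_ ?_)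
  · refine Dfn.ballZ (s := fun v => v 0) (p := fun v w =>
      ∃ i ∈ (v 1).1, ∃ x ∈ C.t, w = ZFSet.pair i x) (DT.var _) ?_
    refine Dfn.bexZ (s := fun v => v 1) (p := fun v i =>
      ∃ x ∈ C.t, (v 2).1 = ZFSet.pair i x) (DT.var _) ?_
    refine Dfn.bexZ (s := fun _ => ⟨C.t, C.ht⟩) (p := fun v x =>
      (v 2).1 = ZFSet.pair (v 3).1 x) (DT.const _) ?_
    exact Dfn.isPair (DT.var _) (DT.var _) (DT.var _)
  · refine Dfn.ballZ (s := fun v => v 1) (p := fun v i =>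
      ∃ x ∈ C.t, ZFSet.pair i x ∈ (v 0).1) (DT.var _) ?_
    refine Dfn.bexZ (s := fun _ => ⟨C.t, C.ht⟩) (p := fun v x =>
      ZFSet.pair (v 2).1 x ∈ (v 0).1) (DT.const _) ?_
    exact Dfn.pairMem (DT.var _) (DT.var _) (DT.var _)
  · refine Dfn.ballZ (s := fun v => v 1) (p := fun v i =>
      ∀ x ∈ C.t, ∀ x' ∈ C.t, ZFSet.pair i x ∈ (v 0).1 → ZFSet.pair i x' ∈ (v 0).1 →
      x = x') (DT.var _) ?_
    refine Dfn.ballZ (s := fun _ => ⟨C.t, C.ht⟩) (p := fun v x =>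
      ∀ x' ∈ C.t, ZFSet.pair (v 2).1 x ∈ (v 0).1 → ZFSet.pair (v 2).1 x' ∈ (v 0).1 →
      x = x') (DT.const _) ?_
    refine Dfn.ballZ (s := fun _ => ⟨C.t, C.ht⟩) (p := fun v x' =>
      ZFSet.pair (v 2).1 (v 3).1 ∈ (v 0).1 → ZFSet.pair (v 2).1 x' ∈ (v 0).1 →
      (v 3).1 = x') (DT.const _) ?_
    exact Dfn.imp (Dfn.pairMem (DT.var _) (DT.var _) (DT.var _))
      (Dfn.imp (Dfn.pairMem (DT.var _) (DT.var _) (DT.var _)) (Dfn.eqv (DT.var _) (DT.var _)))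

theorem isFS_iff {z : ZFSet.{u}} : IsFS C.t z ↔ ∃ l, z = C.cq l := by
  constructor
  · rintro ⟨n, hn, h1, h2, h3⟩
    obtain ⟨k, rfl⟩ := mem_omZ.1 hn
    have h4 : ∀ i : Fin k, ∃ m, ZFSet.pair (natZ i.1) (C.ι m) ∈ z := by
      intro i
      obtain ⟨x, hx, h5⟩ := h2 _ (natZ_mem.2 i.2)
      obtain ⟨m, rfl⟩ := C.surj x hx
      exact ⟨m, h5⟩
    choose m hm using h4
    refine ⟨List.ofFn m, ?_⟩
    ext w
    rw [mem_cq]
    constructor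
    · intro hw
      obtain ⟨i, hi, x, hx, rfl⟩ := h1 w hw
      obtain ⟨j, hj, rfl⟩ := mem_natZ.1 hi
      refine ⟨j, by simpa using hj, ?_⟩
      rw [ZFSet.pair_inj]
      refine ⟨rfl, ?_⟩
      rw [h3 _ hi x hx _ (C.mem (m ⟨j, hj⟩)) hw (hm ⟨j, hj⟩)]
      simp
    · rintro ⟨i, hi, rfl⟩
      have hi' : i < k := by simpa using hi
      have := hm ⟨i, hi'⟩
      simpa using this
  · rintro ⟨l, rfl⟩
    refine ⟨natZ l.length, natZ_mem_omZ _, ?_, ?_, ?_⟩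
    · intro w hw
      obtain ⟨i, hi, rfl⟩ := C.mem_cq.1 hw
      exact ⟨_, natZ_mem.2 hi, _, C.mem _, rfl⟩
    · intro i hi
      obtain ⟨j, hj, rfl⟩ := mem_natZ.1 hi
      exact ⟨_, C.mem l[j], C.pair_mem_cq.2 ⟨hj, rfl⟩⟩
    · intro i hi x hx x' hx' h h'
      obtain ⟨j, hj, rfl⟩ := mem_natZ.1 hi
      obtain ⟨_, rfl⟩ := C.pair_mem_cq.1 h
      obtain ⟨_, rfl⟩ := C.pair_mem_cq.1 h'
      rfl

theorem exists_PZ : ∃ P ∈ M, ∀ z, z ∈ P ↔ ∃ l, z = C.cq l := by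
  have h1 := C.hM.prod_mem C.hM.omZ_mem C.ht
  obtain ⟨p, hp, hp'⟩ := C.hM.exists_pow h1
  refine ⟨_, C.hM.sep_mem (p := fun z => IsFS C.t z) C.isFS_dfn hp, fun z => ?_⟩
  rw [ZFSet.mem_sep, isFS_iff, hp']
  constructor
  · exact fun h => h.2
  · rintro ⟨l, rfl⟩
    refine ⟨⟨C.cq_mem l, fun w hw => ?_⟩, l, rfl⟩
    obtain ⟨i, hi, rfl⟩ := C.mem_cq.1 hw
    exact ZFSet.mem_prod.2 ⟨_, natZ_mem_omZ _, _, C.mem _, rfl⟩

/-- The set of conditions. -/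
noncomputable def PZ : ZFSet.{u} := C.exists_PZ.choose

theorem PZ_mem : C.PZ ∈ M := C.exists_PZ.choose_spec.1

theorem mem_PZ {z : ZFSet.{u}} : z ∈ C.PZ ↔ ∃ l, z = C.cq l := C.exists_PZ.choose_spec.2 z

theorem cq_mem_PZ (l : List ℕ) : C.cq l ∈ C.PZ := C.mem_PZ.2 ⟨l, rfl⟩

/-- The coding of the conditions. -/
noncomputable def c (q : Qs.{u}) : ZFSet.{u} := C.cq q.toL

theorem c_inj : Function.Injective C.c := fun q r h => Qs.ext (C.cq_inj h)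

theorem c_mem (q : Qs.{u}) : C.c q ∈ M := C.cq_mem _

theorem c_subset {q r : Qs.{u}} : C.c q ⊆ C.c r ↔ r ≤ q := C.cq_subset

theorem mem_PZ' {z : ZFSet.{u}} : z ∈ C.PZ ↔ ∃ q : Qs.{u}, z = C.c q := by
  rw [mem_PZ]
  constructor
  · rintro ⟨l, rfl⟩; exact ⟨Qs.mk l, rfl⟩
  · rintro ⟨q, rfl⟩; exact ⟨q.toL, rfl⟩

open CTM in
theorem posetIn : PosetIn M Qs.{u} C.c where
  inj := C.c_inj
  carrier := ⟨C.PZ, C.PZ_mem, fun z => C.mem_PZ'⟩
  order := by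
    have h1 := C.hM.prod_mem C.PZ_mem C.PZ_mem
    refine ⟨_, C.hM.sep_mem (p := fun z => ∃ a ∈ C.PZ, ∃ b ∈ C.PZ, z = ZFSet.pair a b ∧ b ⊆ a)
      ?_ h1, fun z => ?_⟩
    · refine Dfn.bexZ (s := fun _ => ⟨C.PZ, C.PZ_mem⟩) (p := fun v a =>
        ∃ b ∈ C.PZ, (v 0).1 = ZFSet.pair a b ∧ b ⊆ a) (DT.const _) ?_
      refine Dfn.bexZ (s := fun _ => ⟨C.PZ, C.PZ_mem⟩) (p := fun v b =>
        (v 0).1 = ZFSet.pair (v 1).1 b ∧ b ⊆ (v 1).1) (DT.const _) ?_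
      exact Dfn.and (Dfn.isPair (DT.var _) (DT.var _) (DT.var _))
        (Dfn.subset (DT.var _) (DT.var _))
    · rw [ZFSet.mem_sep]
      constructor
      · rintro ⟨_, a, ha, b, hb, rfl, hab⟩
        obtain ⟨p, rfl⟩ := C.mem_PZ'.1 ha
        obtain ⟨q, rfl⟩ := C.mem_PZ'.1 hb
        exact ⟨p, q, C.c_subset.1 hab, rfl⟩
      · rintro ⟨p, q, hpq, rfl⟩
        exact ⟨ZFSet.mem_prod.2 ⟨_, C.mem_PZ'.2 ⟨p, rfl⟩, _, C.mem_PZ'.2 ⟨q, rfl⟩, rfl⟩,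
          _, C.mem_PZ'.2 ⟨p, rfl⟩, _, C.mem_PZ'.2 ⟨q, rfl⟩, rfl, C.c_subset.2 hpq⟩

end Col

end Pool.Agent.H17.Omega
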