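import Pool.Agent.H17.Omega.ZFCV

/-!
# Countable generic models: the transitive collapse of a countable set of names by a sufficiently
generic filter
-/

set_option autoImplicit false
set_option linter.unusedVariables false
set_option linter.unusedSectionVars false
set_option linter.unusedSimpArgs false
set_option linter.deprecated false

universe u v w

namespace Pool.Agent.H17.Omega

/-- A code for a formula. -/
def Fml.code : Fml → ℕ
  | .mem i j => Nat.pair 0 (Nat.pair i j)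
  | .eq i j => Nat.pair 1 (Nat.pair i j)
  | .bot => Nat.pair 2 0
  | .imp φ ψ => Nat.pair 3 (Nat.pair φ.code ψ.code)
  | .and φ ψ => Nat.pair 4 (Nat.pair φ.code ψ.code)
  | .or φ ψ => Nat.pair 5 (Nat.pair φ.code ψ.code)
  | .all k φ => Nat.pair 6 (Nat.pair k φ.code)
  | .ex k φ => Nat.pair 7 (Nat.pair k φ.code)

theorem Fml.code_injective : Function.Injective Fml.code := by
  intro φ
  induction φ with
  | mem i j => intro ψ h; cases ψ <;> simp_all [Fml.code, Nat.pair_eq_pair]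
  | eq i j => intro ψ h; cases ψ <;> simp_all [Fml.code, Nat.pair_eq_pair]
  | bot => intro ψ h; cases ψ <;> simp_all [Fml.code, Nat.pair_eq_pair]
  | imp φ1 φ2 ih1 ih2 =>
    intro ψ h
    cases ψ <;> simp [Fml.code, Nat.pair_eq_pair] at h
    rw [ih1 h.1, ih2 h.2]
  | and φ1 φ2 ih1 ih2 =>
    intro ψ h
    cases ψ <;> simp [Fml.code, Nat.pair_eq_pair] at h
    rw [ih1 h.1, ih2 h.2]
  | or φ1 φ2 ih1 ih2 =>
    intro ψ h
    cases ψ <;> simp [Fml.code, Nat.pair_eq_pair] at h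
    rw [ih1 h.1, ih2 h.2]
  | all k φ ih =>
    intro ψ h
    cases ψ <;> simp [Fml.code, Nat.pair_eq_pair] at h
    rw [h.1, ih h.2]
  | ex k φ ih =>
    intro ψ h
    cases ψ <;> simp [Fml.code, Nat.pair_eq_pair] at h
    rw [h.1, ih h.2]

instance : Countable Fml := Fml.code_injective.countable

/-- Bookkeeping: a descending sequence of conditions and a sequence of objects that meet all
tasks. -/
theorem exists_generic_seq {Q : Type u} [Preorder Q] {Nm : Type v} (p : Q) {τ : Type w}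
    [Countable τ] [Nonempty τ] (T : τ → List Nm → Q → Nm → Prop)
    (hT : ∀ t l q, ∃ r ≤ q, ∃ w, T t l r w) (s₀ : ℕ → Nm) :
    ∃ (q : ℕ → Q) (g : ℕ → Nm), Antitone q ∧ q 0 = p ∧ (∀ n, g (2 * n) = s₀ n) ∧
      ∀ t (l : List ℕ), ∃ n j, T t (l.map g) (q n) (g j) := by
  obtain ⟨e, he⟩ := exists_surjective_nat (τ × List ℕ)
  have step : ∀ (n : ℕ) (st : Q × (ℕ → Nm)), ∃ st' : Q × (ℕ → Nm), st'.1 ≤ st.1 ∧
      (∀ j ≠ 2 * n + 1, st'.2 j = st.2 j) ∧
      T (e (Nat.unpair n).1).1 ((e (Nat.unpair n).1).2.map st.2) st'.1 (st'.2 (2 * n + 1)) := by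
    intro n st
    obtain ⟨r, hr, w, hw⟩ := hT (e (Nat.unpair n).1).1 ((e (Nat.unpair n).1).2.map st.2) st.1
    refine ⟨(r, Function.update st.2 (2 * n + 1) w), hr, fun j hj => ?_, ?_⟩
    · simp [Function.update_of_ne hj]
    · simpa using hw
  choose F hF1 hF2 hF3 using step
  let st : ℕ → Q × (ℕ → Nm) := fun n => Nat.rec (p, fun j => s₀ (j / 2)) (fun n st => F n st) n
  have hst : ∀ n, st (n + 1) = F n (st n) := fun n => rfl
  have stable : ∀ n m j, j ≤ 2 * n → (st (n + m)).2 j = (st n).2 j := by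
    intro n m j hj
    induction m with
    | zero => rfl
    | succ m ih => rw [← add_assoc, hst, hF2 _ _ _ (by omega), ih]
  let g : ℕ → Nm := fun j => (st j).2 j
  have hg : ∀ a j, j ≤ 2 * a → (st a).2 j = g j := by
    intro a j hj
    rcases le_total a j with h | h
    · obtain ⟨m, rfl⟩ := Nat.exists_eq_add_of_le h
      exact (stable a m _ hj).symm
    · obtain ⟨m, rfl⟩ := Nat.exists_eq_add_of_le h
      exact stable j m j (by omega)
  refine ⟨fun n => (st n).1, g, antitone_nat_of_succ_le fun n => ?_, rfl, fun n => ?_, ?_⟩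
  · rw [hst]; exact hF1 _ _
  · have even : ∀ a, (st a).2 (2 * n) = s₀ n := by
      intro a
      induction a with
      | zero => show s₀ (2 * n / 2) = s₀ n; congr 1; omega
      | succ a ih => rw [hst, hF2 _ _ _ (by omega), ih]
    exact even _
  · intro t l
    obtain ⟨c, hc⟩ := he (t, l)
    set n := Nat.pair c l.sum with hn
    have hle : l.sum ≤ n := Nat.right_le_pair _ _
    have h := hF3 n (st n)
    rw [hn, Nat.unpair_pair, ← hn, hc] at h
    refine ⟨n + 1, 2 * n + 1, ?_⟩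
    have h1 : (l.map (st n).2) = l.map g := by
      apply List.map_congr_left
      intro i hi
      apply hg
      have := List.le_sum_of_mem hi
      omega
    rw [← hg (n + 1) (2 * n + 1) (by omega), ← h1]
    exact h

open Name

section GenModel

variable {Q : Type u} [Preorder Q]

/-- The class of names considered. -/
abbrev NmV (Q : Type u) (α : Ordinal.{u}) : Type (u + 1) := {X : Name Q // X.InV α}

/-- A countable generic model. -/
structure GenModel (Q : Type u) [Preorder Q] [OrderTop Q] (α : Ordinal.{u}) (p : Q) where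
  /-- the generic sequence -/
  q : ℕ → Q
  anti : Antitone q
  q0 : q 0 = p
  /-- the names -/
  g : ℕ → NmV Q α
  /-- the value of names -/
  val : ℕ → ZFSet.{u}
  mem_val : ∀ z j, z ∈ val j ↔ ∃ i, (∃ n, fmem (g i).1 (g j).1 (q n)) ∧ val i = z
  val_eq : ∀ i j, val i = val j ↔ ∃ n, feq (g i).1 (g j).1 (q n)
  truth : ∀ (θ : Fml) (f : ℕ → ℕ), Sat (SMem (Set.range val)) θ (fun i => ⟨val (f i), _, rfl⟩) ↔
    ∃ n, Forces (fun X : Name Q => X.InV α) θ (fun i => g (f i)) (q n)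
  el : ∀ i j n, fmem (g i).1 (g j).1 (q n) → ∃ m k a, (g k).1 = (g j).1.el a ∧
    q m ≤ (g j).1.cd a ∧ feq (g i).1 (g k).1 (q m)
  oname : ∀ i, ∃ j, (g j).1 = oName Q (rk (g i).1)

/-- Existence of countable generic models. -/
theorem exists_genModel [OrderTop Q] (α : Ordinal.{u}) (p : Q) (S : ℕ → NmV Q α)
    (𝒟 : ℕ → List (NmV Q α) → Set Q) (h𝒟 : ∀ k l, ∀ q, ∃ r ≤ q, r ∈ 𝒟 k l) :
    ∃ G : GenModel Q α p, (∀ n, ∃ j, G.g j = S n) ∧
      ∀ k (l : List ℕ), ∃ n, G.q n ∈ 𝒟 k (l.map G.g) := by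
  classical
  set D : Name Q → Prop := fun X => X.InV α with hD
  let d : NmV Q α := S 0
  let asg : List (NmV Q α) → ℕ → NmV Q α := fun l i => l.getD i d
  let T : ((ℕ × Fml) ⊕ Bool ⊕ ℕ) → List (NmV Q α) → Q → NmV Q α → Prop := fun t l r w =>
    match t with
    | .inl (k, θ) => Forces D (.imp (.ex k θ) .bot) (asg l) r ∨ Forces D θ (upd (asg l) k w) r
    | .inr (.inl true) => (∀ s ≤ r, ¬ fmem (asg l 0).1 (asg l 1).1 s) ∨
        ∃ i, r ≤ (asg l 1).1.cd i ∧ feq (asg l 0).1 ((asg l 1).1.el i) r ∧ w.1 = (asg l 1).1.el i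
    | .inr (.inl false) => w.1 = oName Q (rk (asg l 0).1)
    | .inr (.inr k) => r ∈ 𝒟 k l
  have hT : ∀ t l q, ∃ r ≤ q, ∃ w, T t l r w := by
    intro t l q
    rcases t with ⟨k, θ⟩ | b | k
    · by_cases h : Forces D (.ex k θ) (asg l) q
      · obtain ⟨r, hr, x, hx⟩ := h q le_rfl
        exact ⟨r, hr, x, Or.inr hx⟩
      · obtain ⟨r, hr, h1⟩ := Forces.exists_not h
        exact ⟨r, hr, d, Or.inl h1⟩
    · rcases b with _ | _
      · refine ⟨q, le_rfl, ⟨oName Q (rk (asg l 0).1), InV_oName _ (InV_iff.1 (asg l 0).2)⟩, rfl⟩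
      · by_cases h : fmem (asg l 0).1 (asg l 1).1 q
        · obtain ⟨r, hr, i, h1, h2⟩ := h q le_rfl
          exact ⟨r, hr, ⟨_, (asg l 1).2.el i⟩, Or.inr ⟨i, h1, h2, rfl⟩⟩
        · obtain ⟨r, hr, h1⟩ := exists_not_fmem h
          exact ⟨r, hr, d, Or.inl h1⟩
    · obtain ⟨r, hr, h⟩ := h𝒟 k l q
      exact ⟨r, hr, d, h⟩
  obtain ⟨q, g, hanti, hq0, hS, hgen⟩ := exists_generic_seq p T hT S
  -- facts
  have hle : ∀ n m, q (max n m) ≤ q n := fun n m => hanti (le_max_left _ _)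
  have hle' : ∀ n m, q (max n m) ≤ q m := fun n m => hanti (le_max_right _ _)
  -- witness property
  have wit : ∀ (k : ℕ) (θ : Fml) (f : ℕ → ℕ), ∃ n,
      Forces D (.imp (.ex k θ) .bot) (fun i => g (f i)) (q n) ∨
      ∃ j, Forces D θ (upd (fun i => g (f i)) k (g j)) (q n) := by
    intro k θ f
    obtain ⟨n, j, h⟩ := hgen (.inl (k, θ)) ((List.range (max (k + 1) θ.bd)).map f)
    have hasg : ∀ i < max (k + 1) θ.bd,
        asg (((List.range (max (k + 1) θ.bd)).map f).map g) i = g (f i) := by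
      intro i hi
      simp only [asg, List.map_map]
      rw [List.getD_eq_getElem _ _ (by simpa using hi)]
      simp
    refine ⟨n, ?_⟩
    rcases h with h | h
    · left
      refine (Forces.congr ?_).1 h
      intro i hi
      apply hasg
      simpa [Fml.bd] using hi
    · right
      refine ⟨j, (Forces.congr ?_).1 h⟩
      intro i hi
      by_cases hik : i = k
      · subst hik; simp
      · rw [upd_ne _ _ hik, upd_ne _ _ hik]
        exact hasg i (lt_of_lt_of_le hi (le_max_right _ _))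
  have dec : ∀ (θ : Fml) (f : ℕ → ℕ), ∃ n,
      Forces D (.imp θ .bot) (fun i => g (f i)) (q n) ∨ Forces D θ (fun i => g (f i)) (q n) := by
    intro θ f
    obtain ⟨n, h⟩ := wit θ.bd θ f
    have hc : ∀ x r, Forces D θ (upd (fun i => g (f i)) θ.bd x) r ↔
        Forces D θ (fun i => g (f i)) r := by
      intro x r
      apply Forces.congr
      intro i hi
      rw [upd_ne _ _ (by omega)]
    refine ⟨n, h.imp ?_ ?_⟩
    · intro h r hr h1
      refine h r hr ?_
      intro s hs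
      exact ⟨s, le_rfl, d, (hc _ _).2 (Forces.mono hs h1)⟩
    · rintro ⟨j, h⟩
      exact (hc _ _).1 h
  -- truth
  have th_congr : ∀ (k : ℕ) (f : ℕ → ℕ) (j : ℕ), (fun i => g ((upd f k j) i)) =
      upd (fun i => g (f i)) k (g j) := fun k f j => upd_comp g f k j
  have th_imp : ∀ (φ ψ : Fml) (f : ℕ → ℕ), (∃ n, Forces D (.imp φ ψ) (fun i => g (f i)) (q n)) ↔
      ((∃ n, Forces D φ (fun i => g (f i)) (q n)) → ∃ n, Forces D ψ (fun i => g (f i)) (q n)) := by
    intro φ ψ f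
    constructor
    · rintro ⟨n, hn⟩ ⟨m, hm⟩
      exact ⟨max n m, hn _ (hle n m) (Forces.mono (hle' n m) hm)⟩
    · intro h
      obtain ⟨n, hn | hn⟩ := dec φ f
      · exact ⟨n, fun r hr h1 => (hn r hr h1).elim⟩
      · obtain ⟨m, hm⟩ := h ⟨n, hn⟩
        exact ⟨m, fun r hr _ => Forces.mono hr hm⟩
  have th_and : ∀ (φ ψ : Fml) (f : ℕ → ℕ), (∃ n, Forces D (.and φ ψ) (fun i => g (f i)) (q n)) ↔
      ((∃ n, Forces D φ (fun i => g (f i)) (q n)) ∧ ∃ n, Forces D ψ (fun i => g (f i)) (q n)) := by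
    intro φ ψ f
    constructor
    · rintro ⟨n, hn⟩
      exact ⟨⟨n, hn.1⟩, ⟨n, hn.2⟩⟩
    · rintro ⟨⟨n, hn⟩, ⟨m, hm⟩⟩
      exact ⟨max n m, Forces.mono (hle n m) hn, Forces.mono (hle' n m) hm⟩
  have th_or : ∀ (φ ψ : Fml) (f : ℕ → ℕ), (∃ n, Forces D (.or φ ψ) (fun i => g (f i)) (q n)) ↔
      ((∃ n, Forces D φ (fun i => g (f i)) (q n)) ∨ ∃ n, Forces D ψ (fun i => g (f i)) (q n)) := by
    intro φ ψ f
    constructor
    · rintro ⟨n, hn⟩
      obtain ⟨m, hm | hm⟩ := dec φ f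
      · obtain ⟨k, hk | hk⟩ := dec ψ f
        · exfalso
          set N := max n (max m k)
          obtain ⟨r, hr, h | h⟩ := hn (q N) (hanti (le_max_left _ _))
          · exact hm r (hr.trans (hanti ((le_max_left _ _).trans (le_max_right _ _)))) h
          · exact hk r (hr.trans (hanti ((le_max_right _ _).trans (le_max_right _ _)))) h
        · exact Or.inr ⟨k, hk⟩
      · exact Or.inl ⟨m, hm⟩
    · rintro (⟨n, hn⟩ | ⟨n, hn⟩)
      · exact ⟨n, fun r hr => ⟨r, le_rfl, Or.inl (Forces.mono hr hn)⟩⟩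
      · exact ⟨n, fun r hr => ⟨r, le_rfl, Or.inr (Forces.mono hr hn)⟩⟩
  have th_ex : ∀ (k : ℕ) (φ : Fml) (f : ℕ → ℕ),
      (∃ n, Forces D (.ex k φ) (fun i => g (f i)) (q n)) ↔
      ∃ j, ∃ n, Forces D φ (fun i => g ((upd f k j) i)) (q n) := by
    intro k φ f
    simp only [th_congr]
    constructor
    · rintro ⟨n, hn⟩
      obtain ⟨m, hm | ⟨j, hj⟩⟩ := wit k φ f
      · exact (hm _ (hle' n m) (Forces.mono (hle n m) hn)).elim
      · exact ⟨j, m, hj⟩
    · rintro ⟨j, n, hn⟩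
      exact ⟨n, fun r hr => ⟨r, le_rfl, g j, Forces.mono hr hn⟩⟩
  have th_all : ∀ (k : ℕ) (φ : Fml) (f : ℕ → ℕ),
      (∃ n, Forces D (.all k φ) (fun i => g (f i)) (q n)) ↔
      ∀ j, ∃ n, Forces D φ (fun i => g ((upd f k j) i)) (q n) := by
    intro k φ f
    simp only [th_congr]
    constructor
    · rintro ⟨n, hn⟩ j
      exact ⟨n, hn (g j)⟩
    · intro h
      obtain ⟨m, hm | ⟨j, hj⟩⟩ := wit k (.imp φ .bot) f
      · refine ⟨m, fun x => ?_⟩
        refine Forces.reg fun r hr => ?_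
        by_contra hc
        push Not at hc
        refine hm r hr fun s hs => ⟨s, le_rfl, x, fun t ht h1 => hc t (ht.trans hs) h1⟩
      · obtain ⟨n, hn⟩ := h j
        exact (hj _ (hle' n m) (Forces.mono (hle n m) hn)).elim
  -- membership
  let R : ℕ → ℕ → Prop := fun i j => ∃ n, fmem (g i).1 (g j).1 (q n)
  let Eqv : ℕ → ℕ → Prop := fun i j => ∃ n, feq (g i).1 (g j).1 (q n)
  have Eqv_refl : ∀ i, Eqv i i := fun i => ⟨0, feq_refl _ _⟩
  have Eqv_symm : ∀ {i j}, Eqv i j → Eqv j i := fun ⟨n, h⟩ => ⟨n, feq_symm h⟩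
  have Eqv_trans : ∀ {i j k}, Eqv i j → Eqv j k → Eqv i k := fun ⟨n, h⟩ ⟨m, h'⟩ =>
    ⟨max n m, feq_trans (feq_mono (hle n m) h) (feq_mono (hle' n m) h')⟩
  have R_congr_right : ∀ {i j k}, Eqv j k → R i j → R i k := fun ⟨n, h⟩ ⟨m, h'⟩ =>
    ⟨max n m, fmem_congr_right (feq_mono (hle n m) h) (fmem_mono (hle' n m) h')⟩
  have R_congr_left : ∀ {i j k}, Eqv i j → R i k → R j k := fun ⟨n, h⟩ ⟨m, h'⟩ =>
    ⟨max n m, fmem_congr_left (feq_mono (hle n m) h) (fmem_mono (hle' n m) h')⟩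
  have hel : ∀ i j n, fmem (g i).1 (g j).1 (q n) → ∃ m k a, (g k).1 = (g j).1.el a ∧
      q m ≤ (g j).1.cd a ∧ feq (g i).1 (g k).1 (q m) := by
    intro i j n h
    obtain ⟨m, k, hm⟩ := hgen (.inr (.inl true)) [i, j]
    have hm' : (∀ s ≤ q m, ¬ fmem (g i).1 (g j).1 s) ∨
        ∃ a, q m ≤ (g j).1.cd a ∧ feq (g i).1 ((g j).1.el a) (q m) ∧ (g k).1 = (g j).1.el a := hm
    rcases hm' with h1 | ⟨a, h1, h2, h3⟩
    · exact (h1 _ (hle' n m) (fmem_mono (hle n m) h)).elim
    · exact ⟨m, k, a, h3, h1, by rw [h3]; exact h2⟩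
  -- well-foundedness
  let μ : ℕ → Ordinal.{u} := fun i => sInf {o | ∃ j, Eqv i j ∧ (rk (g j).1) = o}
  have μ_mem : ∀ i, ∃ j, Eqv i j ∧ rk (g j).1 = μ i := fun i =>
    csInf_mem (⟨_, i, Eqv_refl i, rfl⟩ : {o | ∃ j, Eqv i j ∧ (rk (g j).1) = o}.Nonempty)
  have μ_lt : ∀ i j, R i j → μ i < μ j := by
    intro i j hij
    obtain ⟨j', hj', hμ⟩ := μ_mem j
    obtain ⟨n, hn⟩ := R_congr_right hj' hij
    obtain ⟨m, k, a, hk, h1, h2⟩ := hel i j' n hn
    have h3 : μ i ≤ rk (g k).1 := csInf_le' ⟨k, ⟨m, h2⟩, rfl⟩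
    refine lt_of_le_of_lt h3 ?_
    rw [← hμ, hk]
    exact rk_el_lt _ _
  have wf : WellFounded R := Subrelation.wf (fun {i j} h => μ_lt i j h)
    (InvImage.wf μ (wellFounded_lt (α := Ordinal.{u})))
  let val : ℕ → ZFSet.{u} := wf.fix fun j ih => ZFSet.range (fun i : {i // R i j} => ih i.1 i.2)
  have val_def : ∀ j, val j = ZFSet.range (fun i : {i // R i j} => val i.1) := fun j => wf.fix_eq _ j
  have mem_val : ∀ z j, z ∈ val j ↔ ∃ i, R i j ∧ val i = z := by
    intro z j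
    rw [val_def, ZFSet.mem_range]
    constructor
    · rintro ⟨⟨i, hi⟩, rfl⟩; exact ⟨i, hi, rfl⟩
    · rintro ⟨i, hi, rfl⟩; exact ⟨⟨i, hi⟩, rfl⟩
  have val_congr : ∀ i j, Eqv i j → val i = val j := by
    intro i j h
    apply ZFSet.ext
    intro z
    rw [mem_val, mem_val]
    exact exists_congr fun k => and_congr_left fun _ =>
      ⟨R_congr_right h, R_congr_right (Eqv_symm h)⟩
  have val_inj : ∀ i j, val i = val j → Eqv i j := by
    intro i
    induction i using wf.induction with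
    | _ i ih =>
      intro j h
      let f0 : ℕ → ℕ := fun a => if a = 0 then i else j
      have hext : ∃ n, Forces D (.imp (.all 2 (.iff (.mem 2 0) (.mem 2 1))) (.eq 0 1))
          (fun a => g (f0 a)) (q n) := by
        refine ⟨0, ?_⟩
        have h1 := vforces_ext α (q 0) (fun a => g (f0 a)) (g i) (g j)
        have h2 : upd (upd (fun a => g (f0 a)) 0 (g i)) 1 (g j) = fun a => g (f0 a) := by
          funext a
          by_cases h1 : a = 1
          · subst h1; simp [f0]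
          · by_cases h0 : a = 0
            · subst h0; simp [f0, upd]
            · simp [upd, h0, h1]
        rw [h2] at h1
        exact h1
      rw [th_imp] at hext
      refine hext ?_
      rw [th_all]
      intro k
      have e0 : upd f0 2 k 0 = i := by simp [upd, f0]
      have e1 : upd f0 2 k 1 = j := by simp [upd, f0]
      have e2 : upd f0 2 k 2 = k := by simp [upd, f0]
      have hiff : R k i ↔ R k j := by
        constructor
        · intro hk
          have h1 : val k ∈ val j := h ▸ (mem_val _ _).2 ⟨k, hk, rfl⟩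
          obtain ⟨k', hk', h2⟩ := (mem_val _ _).1 h1
          exact R_congr_left (Eqv_symm (ih k hk k' h2.symm)) hk'
        · intro hk
          have h1 : val k ∈ val i := h ▸ (mem_val _ _).2 ⟨k, hk, rfl⟩
          obtain ⟨k', hk', h2⟩ := (mem_val _ _).1 h1
          exact R_congr_left (ih k' hk' k h2) hk'
      simp only [Fml.iff]
      rw [th_and, th_imp, th_imp]
      have a0 : (∃ n, Forces D (.mem 2 0) (fun a => g (upd f0 2 k a)) (q n)) ↔ R k i := by
        show (∃ n, fmem (g (upd f0 2 k 2)).1 (g (upd f0 2 k 0)).1 (q n)) ↔ _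
        rw [e0, e2]
      have a1 : (∃ n, Forces D (.mem 2 1) (fun a => g (upd f0 2 k a)) (q n)) ↔ R k j := by
        show (∃ n, fmem (g (upd f0 2 k 2)).1 (g (upd f0 2 k 1)).1 (q n)) ↔ _
        rw [e1, e2]
      rw [a0, a1]
      exact ⟨hiff.1, hiff.2⟩
  have val_eq : ∀ i j, val i = val j ↔ Eqv i j := fun i j => ⟨val_inj i j, val_congr i j⟩
  have val_mem : ∀ i j, val i ∈ val j ↔ R i j := by
    intro i j
    rw [mem_val]
    constructor
    · rintro ⟨k, hk, h⟩
      exact R_congr_left ((val_eq _ _).1 h) hk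
    · intro h; exact ⟨i, h, rfl⟩
  have truth : ∀ (θ : Fml) (f : ℕ → ℕ),
      Sat (SMem (Set.range val)) θ (fun i => ⟨val (f i), _, rfl⟩) ↔
      ∃ n, Forces D θ (fun i => g (f i)) (q n) := by
    intro θ
    induction θ with
    | mem i j => intro f; exact val_mem _ _
    | eq i j =>
      intro f
      show (⟨val (f i), _⟩ : Set.range val) = ⟨val (f j), _⟩ ↔ _
      rw [Subtype.mk.injEq]
      exact val_eq _ _
    | bot =>
      intro f
      exact ⟨fun h => h.elim, fun ⟨n, h⟩ => h⟩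
    | imp φ ψ ih1 ih2 => intro f; rw [th_imp, ← ih1, ← ih2]; rfl
    | and φ ψ ih1 ih2 => intro f; rw [th_and, ← ih1, ← ih2]; rfl
    | or φ ψ ih1 ih2 => intro f; rw [th_or, ← ih1, ← ih2]; rfl
    | all k φ ih =>
      intro f
      rw [th_all]
      have hs : ∀ j, (fun i => (⟨val (upd f k j i), _, rfl⟩ : Set.range val)) =
          upd (fun i => ⟨val (f i), _, rfl⟩) k ⟨val j, j, rfl⟩ := fun j =>
        upd_comp (fun i => (⟨val i, _, rfl⟩ : Set.range val)) f k j
      constructor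
      · intro h j
        rw [← ih, hs]
        exact h _
      · rintro h ⟨_, j, rfl⟩
        rw [← hs, ih]
        exact h j
    | ex k φ ih =>
      intro f
      rw [th_ex]
      have hs : ∀ j, (fun i => (⟨val (upd f k j i), _, rfl⟩ : Set.range val)) =
          upd (fun i => ⟨val (f i), _, rfl⟩) k ⟨val j, j, rfl⟩ := fun j =>
        upd_comp (fun i => (⟨val i, _, rfl⟩ : Set.range val)) f k j
      constructor
      · rintro ⟨⟨_, j, rfl⟩, h⟩
        refine ⟨j, ?_⟩
        rw [← ih, hs]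
        exact h
      · rintro ⟨j, h⟩
        refine ⟨⟨_, j, rfl⟩, ?_⟩
        rw [← hs, ih]
        exact h
  refine ⟨⟨q, hanti, hq0, g, val, mem_val, val_eq, truth, hel, fun i => ?_⟩,
    fun n => ⟨2 * n, hS n⟩, fun k l => ?_⟩
  · obtain ⟨n, j, h⟩ := hgen (.inr (.inl false)) [i]
    exact ⟨j, h⟩
  · obtain ⟨n, j, h⟩ := hgen (.inr (.inr k)) l
    exact ⟨n, h⟩

end GenModel

end Pool.Agent.H17.Omega
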