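import Pool.Agent.H17.Omega.Tukey

/-!
# Countable transitive models of ZFC: finite sets and compactness
-/

set_option autoImplicit false
set_option linter.unusedVariables false
set_option linter.unusedSectionVars false
set_option linter.unusedSimpArgs false
set_option linter.deprecated false

universe u v w

namespace Pool.Agent.H17.Omega

namespace CTM

variable {N : Set ZFSet.{u}} {hN : CTM N}

/-- `e` is finite in the model. -/
def FinS (e : N) : Prop := (∃ n : N, (∃ f : N, (n.1 ∈ omZ ∧ ((∀ a : N, (a.1 ∈ e.1 → (∃ i : N, (i.1 ∈ n.1 ∧ ZFSet.pair i.1 a.1 ∈ f.1))))) ∧ ((∀ i : N, (∀ a : N, (∀ a' : N, (ZFSet.pair i.1 a.1 ∈ f.1 → (ZFSet.pair i.1 a'.1 ∈ f.1 → a = a')))))))))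

theorem finS_dfn : hN.Dfn (fun v : Fin 1 → N => FinS (v 0)) := by
  exact (Dfn.ex (P := fun v n => (∃ f : N, (n.1 ∈ omZ ∧ ((∀ a : N, (a.1 ∈ (v 0).1 → (∃ i : N, (i.1 ∈ n.1 ∧ ZFSet.pair i.1 a.1 ∈ f.1))))) ∧ ((∀ i : N, (∀ a : N, (∀ a' : N, (ZFSet.pair i.1 a.1 ∈ f.1 → (ZFSet.pair i.1 a'.1 ∈ f.1 → a = a')))))))))
  (Dfn.ex (P := fun v f => ((v 1).1 ∈ omZ ∧ ((∀ a : N, (a.1 ∈ (v 0).1 → (∃ i : N, (i.1 ∈ (v 1).1 ∧ ZFSet.pair i.1 a.1 ∈ f.1))))) ∧ ((∀ i : N, (∀ a : N, (∀ a' : N, (ZFSet.pair i.1 a.1 ∈ f.1 → (ZFSet.pair i.1 a'.1 ∈ f.1 → a = a'))))))))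
  (Dfn.and (Dfn.mem (DT.var _) (DT.const ⟨omZ, hN.omZ_mem⟩))
  (Dfn.and (Dfn.all (P := fun v a => (a.1 ∈ (v 0).1 → (∃ i : N, (i.1 ∈ (v 1).1 ∧ ZFSet.pair i.1 a.1 ∈ (v 2).1))))
  (Dfn.imp (Dfn.mem (DT.var _) (DT.var _))
  (Dfn.ex (P := fun v i => (i.1 ∈ (v 1).1 ∧ ZFSet.pair i.1 (v 3).1 ∈ (v 2).1))
  (Dfn.and (Dfn.mem (DT.var _) (DT.var _))
  (Dfn.pairMem (DT.var _) (DT.var _) (DT.var _))))))
  (Dfn.all (P := fun v i => (∀ a : N, (∀ a' : N, (ZFSet.pair i.1 a.1 ∈ (v 2).1 → (ZFSet.pair i.1 a'.1 ∈ (v 2).1 → a = a')))))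
  (Dfn.all (P := fun v a => (∀ a' : N, (ZFSet.pair (v 3).1 a.1 ∈ (v 2).1 → (ZFSet.pair (v 3).1 a'.1 ∈ (v 2).1 → a = a'))))
  (Dfn.all (P := fun v a' => (ZFSet.pair (v 3).1 (v 4).1 ∈ (v 2).1 → (ZFSet.pair (v 3).1 a'.1 ∈ (v 2).1 → (v 4) = a')))
  (Dfn.imp (Dfn.pairMem (DT.var _) (DT.var _) (DT.var _))
  (Dfn.imp (Dfn.pairMem (DT.var _) (DT.var _) (DT.var _))
  (Dfn.eq (DT.var _) (DT.var _)))))))))))

include hN in
theorem FinS.finite {e : N} (h : FinS e) : {z : ZFSet.{u} | z ∈ e.1}.Finite := by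
  classical
  obtain ⟨n, f, h1, h2, h3⟩ := h
  obtain ⟨k, hk⟩ := mem_omZ.1 h1
  let g : Fin k → ZFSet.{u} := fun i => if h : ∃ a : N, ZFSet.pair (natZ i) a.1 ∈ f.1 then h.choose.1 else ∅
  refine (Set.finite_range g).subset ?_
  intro z hz
  have hzN : z ∈ N := hN.mem_of_mem e.2 hz
  obtain ⟨i, h4, h5⟩ := h2 ⟨z, hzN⟩ hz
  rw [hk] at h4
  obtain ⟨m, hm, h6⟩ := mem_natZ.1 h4
  refine ⟨⟨m, hm⟩, ?_⟩
  have h7 : ∃ a : N, ZFSet.pair (natZ m) a.1 ∈ f.1 := ⟨⟨z, hzN⟩, by rw [← h6]; exact h5⟩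
  simp only [g, dif_pos h7]
  have h8 := h7.choose_spec
  rw [h6] at h5
  exact congrArg Subtype.val (h3 ⟨natZ m, hN.natZ_mem_N m⟩ _ ⟨z, hzN⟩ h8 h5)

variable (hN)

include hN

theorem exists_seq (l : List N) : ∃ f : N, ∀ z, z ∈ f.1 ↔ ∃ k, ∃ h : k < l.length,
    z = ZFSet.pair (natZ k) (l[k]).1 := by
  induction l using List.reverseRecOn with
  | nil => exact ⟨⟨∅, hN.empty_mem⟩, fun z => ⟨fun h => (ZFSet.notMem_empty _ h).elim,
      fun ⟨k, h, _⟩ => by simp at h⟩⟩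
  | append_singleton l a ih =>
    obtain ⟨f, hf⟩ := ih
    refine ⟨⟨insert (ZFSet.pair (natZ l.length) a.1) f.1, hN.insert_mem
      (hN.pair_mem (hN.natZ_mem_N _) a.2) f.2⟩, fun z => ?_⟩
    rw [ZFSet.mem_insert_iff, hf]
    constructor
    · rintro (rfl | ⟨k, hk, rfl⟩)
      · exact ⟨l.length, by simp, by simp⟩
      · exact ⟨k, by simp; omega, by rw [List.getElem_append_left hk]⟩
    · rintro ⟨k, hk, rfl⟩
      by_cases h : k < l.length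
      · exact Or.inr ⟨k, h, by rw [List.getElem_append_left h]⟩
      · have : k = l.length := by simp at hk; omega
        subst this
        left; simp

theorem exists_of_finite {T : Set ZFSet.{u}} (hT : T.Finite) : T ⊆ N → ∃ e : N, ∀ z, z ∈ e.1 ↔ z ∈ T := by
  induction T, hT using Set.Finite.induction_on with
  | empty => exact fun _ => ⟨⟨∅, hN.empty_mem⟩, fun z => ⟨fun h => (ZFSet.notMem_empty _ h).elim,
      fun h => h.elim⟩⟩
  | @insert a s ha hs ih =>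
    intro hsub
    obtain ⟨e, he⟩ := ih fun z hz => hsub (Set.mem_insert_of_mem _ hz)
    refine ⟨⟨insert a e.1, hN.insert_mem (hsub (Set.mem_insert _ _)) e.2⟩, fun z => ?_⟩
    rw [ZFSet.mem_insert_iff, he, Set.mem_insert_iff]

theorem finS_of_finite {e : N} (h : {z : ZFSet.{u} | z ∈ e.1}.Finite) : FinS e := by
  classical
  have hsub : ∀ z ∈ h.toFinset.toList, z ∈ N := by
    intro z hz
    rw [Finset.mem_toList, Set.Finite.mem_toFinset] at hz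
    exact hN.mem_of_mem e.2 hz
  let l : List N := h.toFinset.toList.pmap (fun z hz => (⟨z, hz⟩ : N)) hsub
  obtain ⟨f, hf⟩ := hN.exists_seq l
  refine ⟨⟨natZ l.length, hN.natZ_mem_N _⟩, f, natZ_mem_omZ _, fun a ha => ?_, fun i a a' h1 h2 => ?_⟩
  · have h3 : a ∈ l := by
      rw [List.mem_pmap]
      exact ⟨a.1, by rw [Finset.mem_toList, Set.Finite.mem_toFinset]; exact ha, rfl⟩
    obtain ⟨k, hk, h4⟩ := List.getElem_of_mem h3
    exact ⟨⟨natZ k, hN.natZ_mem_N _⟩, natZ_mem.2 hk, (hf _).2 ⟨k, hk, by rw [h4]⟩⟩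
  · obtain ⟨k, hk, h3⟩ := (hf _).1 h1
    obtain ⟨k', hk', h3'⟩ := (hf _).1 h2
    rw [ZFSet.pair_inj] at h3 h3'
    have h4 : k = k' := natZ_inj.1 (h3.1.symm.trans h3'.1)
    subst h4
    exact Subtype.ext (h3.2.trans h3'.2.symm)

/-- Compactness: a consistent system of finite conditions has a total solution in the model. -/
theorem exists_total {P d Δ : ZFSet.{u}} (hP : P ∈ N) (hd : d ∈ N) (hΔ : Δ ∈ N) (hne : ∃ r, r ∈ P)
    (hstep : ∀ T : Set ZFSet.{u}, T.Finite → ∀ r ∈ P, (∀ z ∈ T, ZFSet.pair r z ∈ Δ) → ∀ a ∈ d,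
      ∃ r' ∈ P, (∀ z ∈ T, ZFSet.pair r' z ∈ Δ) ∧
        (ZFSet.pair r' (ZFSet.pair a (natZ 0)) ∈ Δ ∨ ZFSet.pair r' (ZFSet.pair a (natZ 1)) ∈ Δ)) :
    ∃ y ∈ N, y ⊆ d ∧ ∀ T : Set ZFSet.{u}, T.Finite → (∀ a ∈ T, a ∈ d) →
      ∃ r ∈ P, ∀ a ∈ T, (a ∈ y → ZFSet.pair r (ZFSet.pair a (natZ 1)) ∈ Δ) ∧
        (a ∉ y → ZFSet.pair r (ZFSet.pair a (natZ 0)) ∈ Δ) := by
  classical
  let S : N → Prop := fun s => (∀ e : N, (FinS e → (e.1 ⊆ s.1 → (∃ r : N, (r.1 ∈ P ∧ ((∀ z : N, (z.1 ∈ e.1 → ZFSet.pair r.1 z.1 ∈ Δ))))))))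
  have hSd : hN.Dfn (fun v : Fin 1 → N => S (v 0)) := by
    exact (Dfn.all (P := fun v e => (FinS e → (e.1 ⊆ (v 0).1 → (∃ r : N, (r.1 ∈ P ∧ ((∀ z : N, (z.1 ∈ e.1 → ZFSet.pair r.1 z.1 ∈ Δ))))))))
  (Dfn.imp (Dfn.subst1 (P := FinS) finS_dfn (DT.var _))
  (Dfn.imp (Dfn.subset (DT.var _) (DT.var _))
  (Dfn.ex (P := fun v r => (r.1 ∈ P ∧ ((∀ z : N, (z.1 ∈ (v 1).1 → ZFSet.pair r.1 z.1 ∈ Δ)))))
  (Dfn.and (Dfn.mem (DT.var _) (DT.const ⟨P, hP⟩))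
  (Dfn.all (P := fun v z => (z.1 ∈ (v 1).1 → ZFSet.pair (v 2).1 z.1 ∈ Δ))
  (Dfn.imp (Dfn.mem (DT.var _) (DT.var _))
  (Dfn.pairMem (DT.var _) (DT.var _) (DT.const ⟨Δ, hΔ⟩)))))))))
  let W : Set ZFSet.{u} → Prop := fun T => ∃ r ∈ P, ∀ z ∈ T, ZFSet.pair r z ∈ Δ
  have hS1 : ∀ s : N, S s → ∀ T : Set ZFSet.{u}, T.Finite → (∀ z ∈ T, z ∈ s.1) → W T := by
    intro s hs T hT hTs
    obtain ⟨e, he⟩ := hN.exists_of_finite hT fun z hz => hN.mem_of_mem s.2 (hTs z hz)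
    obtain ⟨r, hr, h1⟩ := hs e (hN.finS_of_finite (by
      have : {z : ZFSet.{u} | z ∈ e.1} = T := by ext z; exact he z
      rw [this]; exact hT)) (fun z hz => hTs z ((he z).1 hz))
    exact ⟨r.1, hr, fun z hz => h1 ⟨z, hN.mem_of_mem s.2 (hTs z hz)⟩ ((he z).2 hz)⟩
  have hS2 : ∀ s : N, (∀ T : Set ZFSet.{u}, T.Finite → (∀ z ∈ T, z ∈ s.1) → W T) → S s := by
    intro s hs e he hes
    obtain ⟨r, hr, h1⟩ := hs {z | z ∈ e.1} (FinS.finite (hN := hN) he) (fun z hz => hes hz)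
    exact ⟨⟨r, hN.mem_of_mem hP hr⟩, hr, fun z hz => h1 z.1 hz⟩
  let b : ZFSet.{u} := ZFSet.prod d (natZ 2)
  have hb : b ∈ N := hN.prod_mem hd (hN.natZ_mem_N 2)
  obtain ⟨s, hsb, hs, hmax⟩ := hN.exists_maximal hb hSd (by
    intro C hC hchain U hU
    apply hS2
    intro T hT hTU
    have key : ∀ T : Set ZFSet.{u}, T.Finite → (∀ z ∈ T, z ∈ U.1) → T = ∅ ∨ ∃ s ∈ C.1, ∀ z ∈ T, z ∈ s := by
      intro T hT
      induction T, hT using Set.Finite.induction_on with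
      | empty => exact fun _ => Or.inl rfl
      | @insert a T ha hT ih =>
        intro hsub
        right
        obtain ⟨s, hs, has⟩ := ZFSet.mem_sUnion.1 (hU ▸ hsub a (Set.mem_insert _ _))
        rcases ih fun z hz => hsub z (Set.mem_insert_of_mem _ hz) with h0 | ⟨s', hs', h1⟩
        · subst h0
          refine ⟨s, hs, fun z hz => ?_⟩
          rcases hz with rfl | hz
          · exact has
          · exact hz.elim
        · rcases hchain s hs s' hs' with h2 | h2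
          · refine ⟨s', hs', fun z hz => ?_⟩
            rcases hz with rfl | hz
            · exact h2 has
            · exact h1 z hz
          · refine ⟨s, hs, fun z hz => ?_⟩
            rcases hz with rfl | hz
            · exact has
            · exact h2 (h1 z hz)
    rcases key T hT hTU with h0 | ⟨s, hs, h1⟩
    · subst h0
      obtain ⟨r, hr⟩ := hne
      exact ⟨r, hr, fun z hz => hz.elim⟩
    · have hsN := hN.mem_of_mem C.2 hs
      exact hS1 ⟨s, hsN⟩ (hC ⟨s, hsN⟩ hs).1 T hT h1)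
  -- the maximal element is total
  have htot : ∀ a ∈ d, ZFSet.pair a (natZ 0) ∈ s.1 ∨ ZFSet.pair a (natZ 1) ∈ s.1 := by
    intro a ha
    by_contra hcon
    rw [not_or] at hcon
    have haN := hN.mem_of_mem hd ha
    have hbad : ∀ i, i < 2 → ZFSet.pair a (natZ i) ∉ s.1 → ∃ T : Set ZFSet.{u}, T.Finite ∧
        (∀ z ∈ T, z ∈ s.1) ∧ ¬ W (insert (ZFSet.pair a (natZ i)) T) := by
      intro i hi hni
      by_contra hc
      push Not at hc
      apply hni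
      refine hmax _ (ZFSet.pair_mem_prod.2 ⟨ha, natZ_mem.2 hi⟩) ⟨_, hN.insert_mem
        (hN.pair_mem haN (hN.natZ_mem_N i)) s.2⟩ rfl (hS2 _ ?_)
      intro T hT hTs
      have h1 := hc (T \ {ZFSet.pair a (natZ i)}) (hT.subset Set.sdiff_subset) (by
        rintro z ⟨hz, hz'⟩
        have h2 : z ∈ insert (ZFSet.pair a (natZ i)) s.1 := hTs z hz
        rw [ZFSet.mem_insert_iff] at h2
        rcases h2 with h2 | h2
        · exact (hz' h2).elim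
        · exact h2)
      obtain ⟨r, hr, h2⟩ := h1
      refine ⟨r, hr, fun z hz => h2 z ?_⟩
      by_cases h3 : z = ZFSet.pair a (natZ i)
      · exact Or.inl h3
      · exact Or.inr ⟨hz, h3⟩
    obtain ⟨T0, hT0, hs0, hW0⟩ := hbad 0 (by omega) hcon.1
    obtain ⟨T1, hT1, hs1, hW1⟩ := hbad 1 (by omega) hcon.2
    obtain ⟨r, hr, h1⟩ := hS1 s hs (T0 ∪ T1) (hT0.union hT1) (by
      rintro z (hz | hz)
      · exact hs0 z hz
      · exact hs1 z hz)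
    obtain ⟨r', hr', h2, h3⟩ := hstep (T0 ∪ T1) (hT0.union hT1) r hr h1 a ha
    rcases h3 with h3 | h3
    · apply hW0
      refine ⟨r', hr', fun z hz => ?_⟩
      rcases hz with rfl | hz
      · exact h3
      · exact h2 z (Or.inl hz)
    · apply hW1
      refine ⟨r', hr', fun z hz => ?_⟩
      rcases hz with rfl | hz
      · exact h3
      · exact h2 z (Or.inr hz)
  obtain ⟨y, hy, hy'⟩ := hN.exists_sep (P := fun a => ZFSet.pair a.1 (natZ 1) ∈ s.1)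
    (Dfn.pairMem (DT.var _) (DT.const ⟨natZ 1, hN.natZ_mem_N 1⟩) (DT.const s)) hd
  refine ⟨y, hy, fun a ha => ((hy' a).1 ha).1, fun T hT hTd => ?_⟩
  let f : ZFSet.{u} → ZFSet.{u} := fun a => ZFSet.pair a (if a ∈ y then natZ 1 else natZ 0)
  obtain ⟨r, hr, h1⟩ := hS1 s hs (f '' T) (hT.image f) (by
    rintro _ ⟨a, ha, rfl⟩
    by_cases hay : a ∈ y
    · simp only [f, if_pos hay]
      obtain ⟨_, _, h2⟩ := (hy' a).1 hay
      exact h2
    · simp only [f, if_neg hay]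
      rcases htot a (hTd a ha) with h2 | h2
      · exact h2
      · exact (hay ((hy' a).2 ⟨hTd a ha, hN.mem_of_mem hd (hTd a ha), h2⟩)).elim)
  refine ⟨r, hr, fun a ha => ⟨fun hay => ?_, fun hay => ?_⟩⟩
  · have := h1 _ ⟨a, ha, rfl⟩
    simpa only [f, if_pos hay] using this
  · have := h1 _ ⟨a, ha, rfl⟩
    simpa only [f, if_neg hay] using this

end CTM

end Pool.Agent.H17.Omega
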