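import Pool.Agent.H17.Omega.Base

/-!
# Countable transitive models of ZFC: definability with parameters
-/

set_option autoImplicit false
set_option linter.unusedVariables false
set_option linter.unusedSectionVars false
set_option linter.unusedSimpArgs false
set_option linter.deprecated false

universe u v w

namespace Pool.Agent.H17.Omega

/-- Injective renaming of all variables. -/
def Fml.ren (ρ : ℕ → ℕ) : Fml → Fml
  | .mem i j => .mem (ρ i) (ρ j)
  | .eq i j => .eq (ρ i) (ρ j)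
  | .bot => .bot
  | .imp φ ψ => .imp (φ.ren ρ) (ψ.ren ρ)
  | .and φ ψ => .and (φ.ren ρ) (ψ.ren ρ)
  | .or φ ψ => .or (φ.ren ρ) (ψ.ren ρ)
  | .all k φ => .all (ρ k) (φ.ren ρ)
  | .ex k φ => .ex (ρ k) (φ.ren ρ)

theorem Sat.ren {M : Type v} {E : M → M → Prop} {ρ : ℕ → ℕ} (hρ : Function.Injective ρ) {φ : Fml} :
    ∀ {f : ℕ → M}, Sat E (φ.ren ρ) f ↔ Sat E φ (fun i => f (ρ i)) := by
  have hupd : ∀ (f : ℕ → M) (k : ℕ) (x : M), (fun i => upd f (ρ k) x (ρ i)) =
      upd (fun i => f (ρ i)) k x := by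
    intro f k x
    funext i
    by_cases h : i = k
    · subst h; simp
    · rw [upd_ne _ _ h, upd_ne _ _ (fun h' => h (hρ h'))]
  induction φ with
  | mem i j => intro f; rfl
  | eq i j => intro f; rfl
  | bot => intro f; rfl
  | imp φ ψ ih1 ih2 => intro f; exact imp_congr ih1 ih2
  | and φ ψ ih1 ih2 => intro f; exact and_congr ih1 ih2
  | or φ ψ ih1 ih2 => intro f; exact or_congr ih1 ih2
  | all k φ ih =>
    intro f
    refine forall_congr' fun x => ?_
    rw [ih, hupd]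
  | ex k φ ih =>
    intro f
    refine exists_congr fun x => ?_
    rw [ih, hupd]

/-- Position of the context variables. -/
def pos (i : ℕ) : ℕ := if i < 2 then i else 2 * i

theorem pos_inj {i j : ℕ} (h : pos i = pos j) : i = j := by
  unfold pos at h; split_ifs at h <;> omega

theorem pos_ne_param (i j : ℕ) : pos i ≠ 2 * j + 3 := by
  unfold pos; split_ifs <;> omega

@[simp] theorem pos_zero : pos 0 = 0 := rfl
@[simp] theorem pos_one : pos 1 = 1 := rfl

namespace CTM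

variable {N : Set ZFSet.{u}} (hN : CTM N)

/-- An enumeration of the model (used to name the parameters). -/
noncomputable def enum : ℕ → N :=
  have := hN.nonempty.to_subtype
  have := hN.countable.to_subtype
  (exists_surjective_nat N).choose

theorem enum_surj : Function.Surjective hN.enum := by
  have := hN.nonempty.to_subtype
  have := hN.countable.to_subtype
  exact (exists_surjective_nat N).choose_spec

/-- The assignment `f` is compatible with the context `v`. -/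
def Compat {n : ℕ} (v : Fin n → N) (f : ℕ → N) : Prop :=
  (∀ i : Fin n, f (pos i) = v i) ∧ ∀ j, f (2 * j + 3) = hN.enum j

/-- Definable terms: variables and parameters. -/
def DT {n : ℕ} (s : (Fin n → N) → N) : Prop := ∃ k, ∀ v f, hN.Compat v f → f k = s v

/-- Definable predicates. -/
def Dfn {n : ℕ} (P : (Fin n → N) → Prop) : Prop :=
  ∃ θ : Fml, ∀ v f, hN.Compat v f → (Sat (SMem N) θ f ↔ P v)

variable {hN}

theorem DT.var {n : ℕ} (i : Fin n) : hN.DT (fun v => v i) := ⟨pos i, fun v f h => h.1 i⟩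

theorem DT.const {n : ℕ} (a : N) : hN.DT (fun _ : Fin n → N => a) := by
  obtain ⟨j, hj⟩ := hN.enum_surj a
  exact ⟨2 * j + 3, fun v f h => (h.2 j).trans hj⟩

theorem Compat.init {n : ℕ} {v : Fin (n + 1) → N} {f : ℕ → N} (h : hN.Compat v f) :
    hN.Compat (fun i : Fin n => v i.castSucc) f :=
  ⟨fun i => h.1 i.castSucc, h.2⟩

theorem Compat.snoc {n : ℕ} {v : Fin n → N} {f : ℕ → N} (h : hN.Compat v f) (x : N) :
    hN.Compat (Fin.snoc (α := fun _ => N) v x) (upd f (pos n) x) := by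
  refine ⟨fun i => ?_, fun j => ?_⟩
  · refine Fin.lastCases ?_ (fun i => ?_) i
    · simp
    · rw [Fin.snoc_castSucc, upd_ne, ← h.1 i]
      · rfl
      · intro h'
        have := pos_inj h'
        have := i.2
        simp at *
        omega
  · rw [upd_ne _ _ (pos_ne_param _ _).symm, h.2]

theorem DT.lift {n : ℕ} {s : (Fin n → N) → N} (h : hN.DT s) :
    hN.DT (fun v : Fin (n + 1) → N => s (fun i => v i.castSucc)) := by
  obtain ⟨k, hk⟩ := h
  exact ⟨k, fun v f h => hk _ _ h.init⟩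

theorem DT.last {n : ℕ} : hN.DT (fun v : Fin (n + 1) → N => v (Fin.last n)) := DT.var _

namespace Dfn

variable {n : ℕ} {P P' : (Fin n → N) → Prop} {s t r : (Fin n → N) → N}

theorem congr (h : ∀ v, P v ↔ P' v) (hP : hN.Dfn P) : hN.Dfn P' := by
  obtain ⟨θ, hθ⟩ := hP
  exact ⟨θ, fun v f hf => (hθ v f hf).trans (h v)⟩

theorem mem (hs : hN.DT s) (ht : hN.DT t) : hN.Dfn (fun v => (s v).1 ∈ (t v).1) := by
  obtain ⟨i, hi⟩ := hs
  obtain ⟨j, hj⟩ := ht
  refine ⟨.mem i j, fun v f h => ?_⟩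
  show (f i).1 ∈ (f j).1 ↔ _
  rw [hi v f h, hj v f h]

theorem eq (hs : hN.DT s) (ht : hN.DT t) : hN.Dfn (fun v => s v = t v) := by
  obtain ⟨i, hi⟩ := hs
  obtain ⟨j, hj⟩ := ht
  refine ⟨.eq i j, fun v f h => ?_⟩
  show f i = f j ↔ _
  rw [hi v f h, hj v f h]

theorem and (h : hN.Dfn P) (h' : hN.Dfn P') : hN.Dfn (fun v => P v ∧ P' v) := by
  obtain ⟨θ, hθ⟩ := h
  obtain ⟨θ', hθ'⟩ := h'
  exact ⟨.and θ θ', fun v f hf => and_congr (hθ v f hf) (hθ' v f hf)⟩

theorem or (h : hN.Dfn P) (h' : hN.Dfn P') : hN.Dfn (fun v => P v ∨ P' v) := by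
  obtain ⟨θ, hθ⟩ := h
  obtain ⟨θ', hθ'⟩ := h'
  exact ⟨.or θ θ', fun v f hf => or_congr (hθ v f hf) (hθ' v f hf)⟩

theorem imp (h : hN.Dfn P) (h' : hN.Dfn P') : hN.Dfn (fun v => P v → P' v) := by
  obtain ⟨θ, hθ⟩ := h
  obtain ⟨θ', hθ'⟩ := h'
  exact ⟨.imp θ θ', fun v f hf => imp_congr (hθ v f hf) (hθ' v f hf)⟩

theorem false' : hN.Dfn (fun _ : Fin n → N => False) := ⟨.bot, fun v f hf => Iff.rfl⟩

theorem const (p : Prop) : hN.Dfn (fun _ : Fin n → N => p) := by
  by_cases h : p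
  · exact (imp false' false').congr fun v => by simp [h]
  · exact false'.congr fun v => by simp [h]

theorem not (h : hN.Dfn P) : hN.Dfn (fun v => ¬ P v) := h.imp false'

theorem iff (h : hN.Dfn P) (h' : hN.Dfn P') : hN.Dfn (fun v => P v ↔ P' v) :=
  ((h.imp h').and (h'.imp h)).congr fun v => iff_def.symm

theorem all {P : (Fin n → N) → N → Prop}
    (h : hN.Dfn (fun v : Fin (n + 1) → N => P (fun i => v i.castSucc) (v (Fin.last n)))) :
    hN.Dfn (fun v => ∀ x, P v x) := by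
  obtain ⟨θ, hθ⟩ := h
  refine ⟨.all (pos n) θ, fun v f hf => forall_congr' fun x => ?_⟩
  rw [hθ _ _ (hf.snoc x)]
  simp only [Fin.snoc_castSucc, Fin.snoc_last]

theorem ex {P : (Fin n → N) → N → Prop}
    (h : hN.Dfn (fun v : Fin (n + 1) → N => P (fun i => v i.castSucc) (v (Fin.last n)))) :
    hN.Dfn (fun v => ∃ x, P v x) := by
  obtain ⟨θ, hθ⟩ := h
  refine ⟨.ex (pos n) θ, fun v f hf => exists_congr fun x => ?_⟩
  rw [hθ _ _ (hf.snoc x)]
  simp only [Fin.snoc_castSucc, Fin.snoc_last]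

/-- Bounded quantifiers. -/
theorem ball {P : (Fin n → N) → N → Prop} (hs : hN.DT s)
    (h : hN.Dfn (fun v : Fin (n + 1) → N => P (fun i => v i.castSucc) (v (Fin.last n)))) :
    hN.Dfn (fun v => ∀ x : N, x.1 ∈ (s v).1 → P v x) :=
  all ((mem DT.last hs.lift).imp h)

theorem bex {P : (Fin n → N) → N → Prop} (hs : hN.DT s)
    (h : hN.Dfn (fun v : Fin (n + 1) → N => P (fun i => v i.castSucc) (v (Fin.last n)))) :
    hN.Dfn (fun v => ∃ x : N, x.1 ∈ (s v).1 ∧ P v x) :=
  ex ((mem DT.last hs.lift).and h)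

/-- Shift the context. -/
theorem shift {m : ℕ} {P : (Fin m → N) → Prop} (h : hN.Dfn P) (n : ℕ) :
    hN.Dfn (fun v : Fin (n + m) → N => P (fun i => v (Fin.natAdd n i))) := by
  obtain ⟨θ, hθ⟩ := h
  let ρ : ℕ → ℕ := fun k => if k < 2 then pos (n + k) else
    if k % 2 = 0 ∧ 2 < k then pos (n + k / 2) else k
  have hρ1 : ∀ i, ρ (pos i) = pos (n + i) := by
    intro i
    by_cases hi : i < 2
    · have h1 : pos i = i := by simp [pos, hi]
      rw [h1]
      simp only [ρ, if_pos hi]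
    · have h1 : pos i = 2 * i := by simp [pos, hi]
      have h2 : ¬ (2 * i < 2) := by omega
      have h3 : 2 * i % 2 = 0 ∧ 2 < 2 * i := by omega
      simp only [ρ, h1, if_neg h2, if_pos h3]
      congr 2; omega
  have hρ2 : ∀ j, ρ (2 * j + 3) = 2 * j + 3 := by
    intro j
    have h2 : ¬ (2 * j + 3 < 2) := by omega
    have h3 : ¬ ((2 * j + 3) % 2 = 0 ∧ 2 < 2 * j + 3) := by omega
    simp only [ρ, if_neg h2, if_neg h3]
  have hρ3 : ρ 2 = 2 := by simp [ρ]
  have hcases : ∀ k, k = 2 ∨ (∃ i, k = pos i) ∨ ∃ j, k = 2 * j + 3 := by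
    intro k
    by_cases h1 : k < 2
    · exact Or.inr (Or.inl ⟨k, by simp [pos, h1]⟩)
    · by_cases h2 : k = 2
      · exact Or.inl h2
      · rcases Nat.even_or_odd' k with ⟨a, ha | ha⟩
        · refine Or.inr (Or.inl ⟨a, ?_⟩)
          have : ¬ a < 2 := by omega
          simp [pos, this, ha]
        · exact Or.inr (Or.inr ⟨a - 1, by omega⟩)
  have hpos2 : ∀ i, pos i ≠ 2 := by intro i; unfold pos; split_ifs <;> omega
  have hinj : Function.Injective ρ := by
    intro a b hab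
    rcases hcases a with rfl | ⟨i, rfl⟩ | ⟨i, rfl⟩ <;> rcases hcases b with rfl | ⟨j, rfl⟩ | ⟨j, rfl⟩
    · rfl
    · rw [hρ3, hρ1] at hab; exact (hpos2 _ hab.symm).elim
    · rw [hρ3, hρ2] at hab; omega
    · rw [hρ3, hρ1] at hab; exact (hpos2 _ hab).elim
    · rw [hρ1, hρ1] at hab; have := pos_inj hab; congr 1; omega
    · rw [hρ2, hρ1] at hab; exact (pos_ne_param _ _ hab).elim
    · rw [hρ3, hρ2] at hab; omega
    · rw [hρ2, hρ1] at hab; exact (pos_ne_param _ _ hab.symm).elim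
    · rw [hρ2, hρ2] at hab; exact hab
  refine ⟨θ.ren ρ, fun v f hf => ?_⟩
  rw [Sat.ren hinj]
  apply hθ
  refine ⟨fun i => ?_, fun j => ?_⟩
  · show f (ρ (pos i)) = _
    rw [hρ1]
    exact hf.1 (Fin.natAdd n i)
  · show f (ρ (2 * j + 3)) = _
    rw [hρ2]
    exact hf.2 j

theorem subst1 {P : N → Prop} (h : hN.Dfn (fun v : Fin 1 → N => P (v 0))) (hs : hN.DT s) :
    hN.Dfn (fun v => P (s v)) := by
  have h1 := h.shift n
  refine (ex (P := fun v x => x = s v ∧ P x) ((eq DT.last hs.lift).and ?_)).congr fun v => ?_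
  · exact h1
  · simp

theorem subst2 {P : N → N → Prop} (h : hN.Dfn (fun v : Fin 2 → N => P (v 0) (v 1)))
    (hs : hN.DT s) (ht : hN.DT t) : hN.Dfn (fun v => P (s v) (t v)) := by
  have h1 := h.shift n
  refine (ex (P := fun v x => ∃ y, x = s v ∧ y = t v ∧ P x y) (ex ((eq (DT.var _) hs.lift.lift).and
    ((eq (DT.var _) ht.lift.lift).and ?_)))).congr fun v => ?_
  · exact h1
  · constructor
    · rintro ⟨x, y, rfl, rfl, h⟩; exact h
    · intro h; exact ⟨_, _, rfl, rfl, h⟩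

theorem subst3 {P : N → N → N → Prop} (h : hN.Dfn (fun v : Fin 3 → N => P (v 0) (v 1) (v 2)))
    (hs : hN.DT s) (ht : hN.DT t) (hr : hN.DT r) : hN.Dfn (fun v => P (s v) (t v) (r v)) := by
  have h1 := h.shift n
  refine (ex (P := fun v x => ∃ y, ∃ z, x = s v ∧ y = t v ∧ z = r v ∧ P x y z)
    (ex (ex ((eq (DT.var _) hs.lift.lift.lift).and ((eq (DT.var _) ht.lift.lift.lift).and
    ((eq (DT.var _) hr.lift.lift.lift).and ?_)))))).congr fun v => ?_
  · exact h1
  · constructor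
    · rintro ⟨x, y, z, rfl, rfl, rfl, h⟩; exact h
    · intro h; exact ⟨_, _, _, rfl, rfl, rfl, h⟩

end Dfn

end CTM

end Pool.Agent.H17.Omega
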