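import Pool.Agent.H17.Omega.Ctm

/-!
# Countable transitive models of ZFC: closure properties
-/

set_option autoImplicit false
set_option linter.unusedVariables false
set_option linter.unusedSectionVars false
set_option linter.unusedSimpArgs false
set_option linter.deprecated false

universe u v w

namespace Pool.Agent.H17.Omega

namespace CTM

variable {N : Set ZFSet.{u}} (hN : CTM N)

section basic

include hN

theorem mem_of_mem {x y : ZFSet.{u}} (hy : y ∈ N) (h : x ∈ y) : x ∈ N := hN.trans y hy x h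

theorem ext' {a b : ZFSet.{u}} (ha : a ∈ N) (hb : b ∈ N) (h : ∀ z : N, z.1 ∈ a ↔ z.1 ∈ b) :
    a = b := by
  apply ZFSet.ext
  intro z
  exact ⟨fun hz => (h ⟨z, hN.mem_of_mem ha hz⟩).1 hz, fun hz => (h ⟨z, hN.mem_of_mem hb hz⟩).2 hz⟩

theorem upair_mem {x y : ZFSet.{u}} (hx : x ∈ N) (hy : y ∈ N) : ({x, y} : ZFSet.{u}) ∈ N := by
  obtain ⟨z, hz⟩ := hN.zfc _ ZFC.pair (fun _ => ⟨x, hx⟩) ⟨x, hx⟩ ⟨y, hy⟩
  have h1 : z.1 = {x, y} := by
    apply ZFSet.ext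
    intro w
    rw [ZFSet.mem_pair]
    constructor
    · intro hw
      have := (hz ⟨w, hN.mem_of_mem z.2 hw⟩).1 hw
      rcases this with h | h
      · exact Or.inl (congrArg Subtype.val h)
      · exact Or.inr (congrArg Subtype.val h)
    · rintro (rfl | rfl)
      · exact (hz ⟨w, hx⟩).2 (Or.inl rfl)
      · exact (hz ⟨w, hy⟩).2 (Or.inr rfl)
  rw [← h1]; exact z.2

theorem singleton_mem {x : ZFSet.{u}} (hx : x ∈ N) : ({x} : ZFSet.{u}) ∈ N := by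
  have := hN.upair_mem hx hx
  rwa [show ({x, x} : ZFSet.{u}) = {x} from by ext z; simp] at this

theorem pair_mem {x y : ZFSet.{u}} (hx : x ∈ N) (hy : y ∈ N) : ZFSet.pair x y ∈ N :=
  hN.upair_mem (hN.singleton_mem hx) (hN.upair_mem hx hy)

theorem of_pair_mem {x y : ZFSet.{u}} (h : ZFSet.pair x y ∈ N) : x ∈ N ∧ y ∈ N := by
  have h1 : ({x, y} : ZFSet.{u}) ∈ N := hN.mem_of_mem h (by
    rw [ZFSet.pair, ZFSet.mem_pair]; exact Or.inr rfl)
  exact ⟨hN.mem_of_mem h1 (by simp), hN.mem_of_mem h1 (by simp)⟩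

theorem sUnion_mem {x : ZFSet.{u}} (hx : x ∈ N) : ZFSet.sUnion x ∈ N := by
  obtain ⟨z, hz⟩ := hN.zfc _ ZFC.union (fun _ => ⟨x, hx⟩) ⟨x, hx⟩
  have h1 : z.1 = ZFSet.sUnion x := by
    apply ZFSet.ext
    intro w
    rw [ZFSet.mem_sUnion]
    constructor
    · intro hw
      obtain ⟨y, hy1, hy2⟩ := (hz ⟨w, hN.mem_of_mem z.2 hw⟩).1 hw
      exact ⟨y.1, hy1, hy2⟩
    · rintro ⟨y, hy1, hy2⟩
      have hy := hN.mem_of_mem hx hy1
      exact (hz ⟨w, hN.mem_of_mem hy hy2⟩).2 ⟨⟨y, hy⟩, hy1, hy2⟩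
  rw [← h1]; exact z.2

theorem union_mem {x y : ZFSet.{u}} (hx : x ∈ N) (hy : y ∈ N) : x ∪ y ∈ N := by
  have := hN.sUnion_mem (hN.upair_mem hx hy)
  rwa [show ZFSet.sUnion ({x, y} : ZFSet.{u}) = x ∪ y from by ext z; simp] at this

theorem insert_mem {x y : ZFSet.{u}} (hx : x ∈ N) (hy : y ∈ N) : insert x y ∈ N := by
  have := hN.union_mem (hN.singleton_mem hx) hy
  rwa [show ({x} ∪ y : ZFSet.{u}) = insert x y from by ext z; simp] at this

theorem exists_pow {x : ZFSet.{u}} (hx : x ∈ N) : ∃ p ∈ N, ∀ z, z ∈ p ↔ z ∈ N ∧ z ⊆ x := by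
  obtain ⟨p, hp⟩ := hN.zfc _ ZFC.power (fun _ => ⟨x, hx⟩) ⟨x, hx⟩
  refine ⟨p.1, p.2, fun z => ?_⟩
  constructor
  · intro hz
    have hzN := hN.mem_of_mem p.2 hz
    refine ⟨hzN, fun w hw => ?_⟩
    exact (hp ⟨z, hzN⟩).1 hz ⟨w, hN.mem_of_mem hzN hw⟩ hw
  · rintro ⟨hzN, hz⟩
    exact (hp ⟨z, hzN⟩).2 fun w hw => hz hw

/-- Separation. -/
theorem exists_sep {P : N → Prop} (hP : hN.Dfn (fun v : Fin 1 → N => P (v 0))) {a : ZFSet.{u}}
    (ha : a ∈ N) : ∃ b ∈ N, ∀ z, z ∈ b ↔ z ∈ a ∧ ∃ h : z ∈ N, P ⟨z, h⟩ := by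
  obtain ⟨θ, hθ⟩ := hP
  let f : ℕ → N := fun k => if 3 ≤ k then hN.enum ((k - 3) / 2) else ⟨a, ha⟩
  have hf : ∀ x : N, hN.Compat (fun _ : Fin 1 => x) (upd f 0 x) := by
    intro x
    refine ⟨fun i => ?_, fun j => ?_⟩
    · have : i = 0 := Subsingleton.elim _ _
      subst this; simp
    · rw [upd_ne _ _ (by omega)]
      have : 3 ≤ 2 * j + 3 := by omega
      simp only [f, if_pos this]
      congr 1; omega
  have key : ∀ n, θ.bd ≤ n → n ≠ 0 →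
      Models N (.all n (.ex (n + 1) (.all 0 (.iff (.mem 0 (n + 1)) (.and (.mem 0 n) θ))))) →
      ∃ b ∈ N, ∀ z, z ∈ b ↔ z ∈ a ∧ ∃ h : z ∈ N, P ⟨z, h⟩ := by
    intro n hn hn0 hm
    obtain ⟨b, hb⟩ := hm f ⟨a, ha⟩
    refine ⟨b.1, b.2, fun z => ?_⟩
    have hz : ∀ h : z ∈ N, (z ∈ b.1 ↔ z ∈ a ∧ P ⟨z, h⟩) := by
      intro h
      have h1 := hb ⟨z, h⟩
      have e1 : (upd (upd (upd f n ⟨a, ha⟩) (n + 1) b) 0 ⟨z, h⟩) (n + 1) = b := by
        rw [upd_ne _ _ (by omega), upd_same]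
      have e2 : (upd (upd (upd f n ⟨a, ha⟩) (n + 1) b) 0 ⟨z, h⟩) n = ⟨a, ha⟩ := by
        rw [upd_ne _ _ hn0, upd_ne _ _ (by omega), upd_same]
      have e3 : (upd (upd (upd f n ⟨a, ha⟩) (n + 1) b) 0 ⟨z, h⟩) 0 = ⟨z, h⟩ := by rw [upd_same]
      have e4 : Sat (SMem N) θ (upd (upd (upd f n ⟨a, ha⟩) (n + 1) b) 0 ⟨z, h⟩) ↔ P ⟨z, h⟩ := by
        rw [Sat.congr (g := upd f 0 ⟨z, h⟩), hθ _ _ (hf _)]
        intro i hi
        by_cases h0 : i = 0
        · subst h0; simp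
        · rw [upd_ne _ _ h0, upd_ne _ _ h0, upd_ne _ _ (by omega), upd_ne _ _ (by omega)]
      simp only [Fml.iff, Sat, e1, e2, e3] at h1
      constructor
      · intro h2
        have := h1.1 h2
        exact ⟨this.1, e4.1 this.2⟩
      · rintro ⟨h2, h3⟩
        exact h1.2 ⟨h2, e4.2 h3⟩
    constructor
    · intro h2
      have h3 := hN.mem_of_mem b.2 h2
      exact ⟨((hz h3).1 h2).1, h3, ((hz h3).1 h2).2⟩
    · rintro ⟨h2, h3, h4⟩
      exact (hz h3).2 ⟨h2, h4⟩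
  exact key _ (le_max_left _ _) (by have := le_max_right θ.bd 1; omega) (hN.zfc _ (ZFC.sep θ))

theorem sep_mem {p : ZFSet.{u} → Prop} (hp : hN.Dfn (fun v : Fin 1 → N => p (v 0).1))
    {a : ZFSet.{u}} (ha : a ∈ N) : ZFSet.sep p a ∈ N := by
  obtain ⟨b, hb, h⟩ := hN.exists_sep (P := fun x => p x.1) hp ha
  have : ZFSet.sep p a = b := by
    ext z
    rw [ZFSet.mem_sep, h]
    exact and_congr_right fun hz => ⟨fun h1 => ⟨hN.mem_of_mem ha hz, h1⟩, fun ⟨_, h1⟩ => h1⟩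
  rw [this]; exact hb

/-- Replacement for partial functions. -/
theorem exists_repl {F : N → N → Prop} (hF : hN.Dfn (fun v : Fin 2 → N => F (v 0) (v 1)))
    {a : ZFSet.{u}} (ha : a ∈ N) (hu : ∀ x : N, x.1 ∈ a → ∀ y y', F x y → F x y' → y = y') :
    ∃ b ∈ N, ∀ y : N, y.1 ∈ b ↔ ∃ x : N, x.1 ∈ a ∧ F x y := by
  obtain ⟨d, hd, hd'⟩ := hN.exists_sep (P := fun x => ∃ y, F x y)
    (Dfn.ex hF) ha
  obtain ⟨θ, hθ⟩ := hF
  let f : ℕ → N := fun k => if 3 ≤ k then hN.enum ((k - 3) / 2) else ⟨a, ha⟩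
  have hf : ∀ x y : N, hN.Compat (![x, y] : Fin 2 → N) (upd (upd f 0 x) 1 y) := by
    intro x y
    refine ⟨fun i => ?_, fun j => ?_⟩
    · fin_cases i
      · simp [upd]
      · simp
    · rw [upd_ne _ _ (by omega), upd_ne _ _ (by omega)]
      have : 3 ≤ 2 * j + 3 := by omega
      simp only [f, if_pos this]
      congr 1; omega
  have key : ∀ n, θ.bd ≤ n → 2 ≤ n →
      Models N (.all n (.imp
        (.all 0 (.imp (.mem 0 n) (.ex (n + 1) (.all 1 (.iff θ (.eq 1 (n + 1)))))))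
        (.ex (n + 1) (.all 1 (.iff (.mem 1 (n + 1)) (.ex 0 (.and (.mem 0 n) θ))))))) →
      ∃ b ∈ N, ∀ y : N, y.1 ∈ b ↔ ∃ x : N, x.1 ∈ a ∧ F x y := by
    intro n hn hn2 hm
    have h1 := hm f ⟨d, hd⟩
    have h2 : Sat (SMem N) (.all 0 (.imp (.mem 0 n) (.ex (n + 1) (.all 1 (.iff θ (.eq 1 (n + 1)))))))
        (upd f n ⟨d, hd⟩) := by
      intro x hx
      have hx' : x.1 ∈ d := by
        have : upd (upd f n ⟨d, hd⟩) 0 x n = ⟨d, hd⟩ := by rw [upd_ne _ _ (by omega), upd_same]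
        simpa [Sat, this] using hx
      obtain ⟨hxa, hxN, y, hy⟩ := (hd' _).1 hx'
      refine ⟨y, fun z => ?_⟩
      have e1 : (upd (upd (upd (upd f n ⟨d, hd⟩) 0 x) (n + 1) y) 1 z) 1 = z := by rw [upd_same]
      have e2 : (upd (upd (upd (upd f n ⟨d, hd⟩) 0 x) (n + 1) y) 1 z) (n + 1) = y := by
        rw [upd_ne _ _ (by omega), upd_same]
      have e3 : Sat (SMem N) θ (upd (upd (upd (upd f n ⟨d, hd⟩) 0 x) (n + 1) y) 1 z) ↔ F x z := by
        rw [Sat.congr (g := upd (upd f 0 x) 1 z), hθ _ _ (hf _ _)]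
        · rfl
        intro i hi
        by_cases h1 : i = 1
        · subst h1; simp
        · by_cases h0 : i = 0
          · subst h0; simp [upd]
          · rw [upd_ne _ _ h1, upd_ne _ _ h1, upd_ne _ _ h0, upd_ne _ _ (by omega), upd_ne _ _ h0,
              upd_ne _ _ (by omega)]
      constructor
      · intro h3
        show _ = _
        rw [e1, e2]
        exact hu x hxa _ _ (e3.1 h3) hy
      · intro h3
        have h3 : _ = _ := h3
        rw [e1, e2] at h3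
        exact e3.2 (h3 ▸ hy)
    obtain ⟨b, hb⟩ := h1 h2
    refine ⟨b.1, b.2, fun y => ?_⟩
    have h3 := hb y
    have e1 : (upd (upd (upd f n ⟨d, hd⟩) (n + 1) b) 1 y) (n + 1) = b := by
      rw [upd_ne _ _ (by omega), upd_same]
    have e2 : (upd (upd (upd f n ⟨d, hd⟩) (n + 1) b) 1 y) 1 = y := by rw [upd_same]
    have e3 : ∀ x, (upd (upd (upd (upd f n ⟨d, hd⟩) (n + 1) b) 1 y) 0 x) n = ⟨d, hd⟩ := by
      intro x; rw [upd_ne _ _ (by omega), upd_ne _ _ (by omega), upd_ne _ _ (by omega), upd_same]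
    have e4 : ∀ x, (upd (upd (upd (upd f n ⟨d, hd⟩) (n + 1) b) 1 y) 0 x) 0 = x := by
      intro x; rw [upd_same]
    have e5 : ∀ x, Sat (SMem N) θ (upd (upd (upd (upd f n ⟨d, hd⟩) (n + 1) b) 1 y) 0 x) ↔ F x y := by
      intro x
      rw [Sat.congr (g := upd (upd f 0 x) 1 y), hθ _ _ (hf _ _)]
      · rfl
      intro i hi
      by_cases h1 : i = 1
      · subst h1; simp [upd]
      · by_cases h0 : i = 0
        · subst h0; simp [upd]
        · rw [upd_ne _ _ h0, upd_ne _ _ h1, upd_ne _ _ (by omega), upd_ne _ _ (by omega),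
            upd_ne _ _ h1, upd_ne _ _ h0]
    simp only [Fml.iff, Sat, e1, e2, e3, e4] at h3
    constructor
    · intro h4
      obtain ⟨x, h5, h6⟩ := h3.1 h4
      exact ⟨x, ((hd' _).1 h5).1, (e5 x).1 h6⟩
    · rintro ⟨x, h5, h6⟩
      exact h3.2 ⟨x, (hd' _).2 ⟨h5, x.2, y, h6⟩, (e5 x).2 h6⟩
  exact key _ (le_max_left _ _) (le_max_right θ.bd 2) (hN.zfc _ (ZFC.repl θ))

end basic

end CTM

end Pool.Agent.H17.Omega
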