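import Pool.Agent.H17.Omega.CtmD

/-!
# Countable transitive models of ZFC: recursion
-/

set_option autoImplicit false
set_option linter.unusedVariables false
set_option linter.unusedSectionVars false
set_option linter.unusedSimpArgs false
set_option linter.deprecated false

universe u v w

namespace Pool.Agent.H17.Omega

namespace CTM

variable {N : Set ZFSet.{u}} {hN : CTM N}

/-- Approximations of a function defined by recursion. -/
def Appr (R : N → N → Prop) (𝒢 : N → (N → N → Prop) → N → Prop) (h : N) : Prop :=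
  ∀ x v : N, ZFSet.pair x.1 v.1 ∈ h.1 → (∀ y, R y x → ∃ w : N, ZFSet.pair y.1 w.1 ∈ h.1) ∧
    𝒢 x (fun y w => R y x ∧ ZFSet.pair y.1 w.1 ∈ h.1) v

theorem Appr.dfn {R : N → N → Prop} {𝒢 : N → (N → N → Prop) → N → Prop}
    (hR : hN.Dfn (fun v : Fin 2 → N => R (v 0) (v 1)))
    (hG : hN.Dfn (fun v : Fin 3 → N =>
      𝒢 (v 0) (fun y w => R y (v 0) ∧ ZFSet.pair y.1 w.1 ∈ (v 1).1) (v 2))) :
    hN.Dfn (fun v : Fin 1 → N => Appr R 𝒢 (v 0)) := by
  refine Dfn.all (P := fun v x => ∀ u : N, ZFSet.pair x.1 u.1 ∈ (v 0).1 →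
    (∀ y, R y x → ∃ w : N, ZFSet.pair y.1 w.1 ∈ (v 0).1) ∧
    𝒢 x (fun y w => R y x ∧ ZFSet.pair y.1 w.1 ∈ (v 0).1) u) ?_
  refine Dfn.all (P := fun v u => ZFSet.pair (v (Fin.last 1)).1 u.1 ∈ (v 0).1 →
    (∀ y, R y (v (Fin.last 1)) → ∃ w : N, ZFSet.pair y.1 w.1 ∈ (v 0).1) ∧
    𝒢 (v (Fin.last 1)) (fun y w => R y (v (Fin.last 1)) ∧ ZFSet.pair y.1 w.1 ∈ (v 0).1) u) ?_
  refine (Dfn.pairMem (DT.var _) (DT.var _) (DT.var _)).imp (Dfn.and ?_ ?_)
  · refine Dfn.all (P := fun v y => R y (v 1) → ∃ w : N, ZFSet.pair y.1 w.1 ∈ (v 0).1) ?_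
    refine Dfn.imp ?_ ?_
    · exact Dfn.subst2 (P := R) hR (DT.var _) (DT.var _)
    · exact Dfn.ex (P := fun v w => ZFSet.pair (v 3).1 w.1 ∈ (v 0).1)
        (Dfn.pairMem (DT.var _) (DT.var _) (DT.var _))
  · exact Dfn.subst3 (P := fun x h u => 𝒢 x (fun y w => R y x ∧ ZFSet.pair y.1 w.1 ∈ h.1) u) hG
      (DT.var _) (DT.var _) (DT.var _)

/-- Definition by recursion on a definable set-like well-founded relation. -/
theorem recursion {R : N → N → Prop} {𝒢 : N → (N → N → Prop) → N → Prop}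
    (hR : hN.Dfn (fun v : Fin 2 → N => R (v 0) (v 1)))
    (hG : hN.Dfn (fun v : Fin 3 → N =>
      𝒢 (v 0) (fun y w => R y (v 0) ∧ ZFSet.pair y.1 w.1 ∈ (v 1).1) (v 2)))
    (hset : ∀ x : N, ∃ e ∈ N, ∀ y : N, y.1 ∈ e ↔ R y x) (wf : WellFounded R)
    (hG1 : ∀ x r v v', 𝒢 x r v → 𝒢 x r v' → v = v')
    (hG2 : ∀ x h : N, (∀ y, R y x → ∃ w : N, ZFSet.pair y.1 w.1 ∈ h.1) →
      (∀ y, R y x → ∀ w w' : N, ZFSet.pair y.1 w.1 ∈ h.1 → ZFSet.pair y.1 w'.1 ∈ h.1 → w = w') →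
      ∃ v, 𝒢 x (fun y w => R y x ∧ ZFSet.pair y.1 w.1 ∈ h.1) v) :
    ∃ F : N → N, hN.Dfn (fun v : Fin 2 → N => F (v 0) = v 1) ∧
      ∀ x, 𝒢 x (fun y w => R y x ∧ F y = w) (F x) := by
  have happ := Appr.dfn hR hG
  have hirr : ∀ x, ¬ R x x := fun x hx => wf.irrefl.irrefl x hx
  -- uniqueness
  have uniq : ∀ x : N, ∀ h h' : N, Appr R 𝒢 h → Appr R 𝒢 h' → ∀ v v' : N,
      ZFSet.pair x.1 v.1 ∈ h.1 → ZFSet.pair x.1 v'.1 ∈ h'.1 → v = v' := by
    intro x
    induction x using wf.induction with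
    | _ x ih =>
      intro h h' hh hh' v v' hv hv'
      obtain ⟨h1, h2⟩ := hh x v hv
      obtain ⟨h1', h2'⟩ := hh' x v' hv'
      have : (fun y w : N => R y x ∧ ZFSet.pair y.1 w.1 ∈ h.1) =
          (fun y w : N => R y x ∧ ZFSet.pair y.1 w.1 ∈ h'.1) := by
        funext y w
        apply propext
        refine and_congr_right fun hy => ⟨fun hw => ?_, fun hw => ?_⟩
        · obtain ⟨w', hw'⟩ := h1' y hy
          rw [ih y hy h h' hh hh' w w' hw hw']; exact hw'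
        · obtain ⟨w', hw'⟩ := h1 y hy
          rw [ih y hy h' h hh' hh w w' hw hw']; exact hw'
      rw [this] at h2
      exact hG1 _ _ _ _ h2 h2'
  -- existence
  have exist : ∀ x : N, ∃ h : N, Appr R 𝒢 h ∧ ∃ v : N, ZFSet.pair x.1 v.1 ∈ h.1 := by
    intro x
    induction x using wf.induction with
    | _ x ih =>
      obtain ⟨e, he, hex⟩ := hset x
      have hPd : hN.Dfn (fun v : Fin 2 → N => ∀ h : N, Appr R 𝒢 h →
          (∃ u : N, ZFSet.pair (v 0).1 u.1 ∈ h.1) → (v 1).1 ∈ h.1) := by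
        refine Dfn.all (P := fun v h => Appr R 𝒢 h →
          (∃ u : N, ZFSet.pair (v 0).1 u.1 ∈ h.1) → (v 1).1 ∈ h.1) ?_
        refine Dfn.imp (Dfn.subst1 (P := Appr R 𝒢) happ (DT.var _)) (Dfn.imp ?_
          (Dfn.mem (DT.var _) (DT.var _)))
        exact Dfn.ex (P := fun v u => ZFSet.pair (v 0).1 u.1 ∈ (v 2).1)
          (Dfn.pairMem (DT.var _) (DT.var _) (DT.var _))
      have hFd : hN.Dfn (fun v : Fin 2 → N => ∀ z : N, z.1 ∈ (v 1).1 ↔ ∀ h : N, Appr R 𝒢 h →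
          (∃ u : N, ZFSet.pair (v 0).1 u.1 ∈ h.1) → z.1 ∈ h.1) := by
        refine Dfn.all (P := fun v z => z.1 ∈ (v 1).1 ↔ ∀ h : N, Appr R 𝒢 h →
          (∃ u : N, ZFSet.pair (v 0).1 u.1 ∈ h.1) → z.1 ∈ h.1) ?_
        refine Dfn.iff (Dfn.mem (DT.var _) (DT.var _)) ?_
        exact Dfn.subst2 (P := fun y z => ∀ h : N, Appr R 𝒢 h →
          (∃ u : N, ZFSet.pair y.1 u.1 ∈ h.1) → z.1 ∈ h.1) hPd (DT.var _) (DT.var _)
      obtain ⟨b, hb, hb'⟩ := hN.exists_repl (F := fun y H => ∀ z : N, z.1 ∈ H.1 ↔ ∀ h : N,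
        Appr R 𝒢 h → (∃ u : N, ZFSet.pair y.1 u.1 ∈ h.1) → z.1 ∈ h.1) hFd he
        (fun y _ H H' h1 h2 => Subtype.ext (hN.ext' H.2 H'.2 fun z => (h1 z).trans (h2 z).symm))
      have hHy : ∀ y, R y x → ∃ H : N, H.1 ∈ b ∧ ∀ z : N, z.1 ∈ H.1 ↔ ∀ h : N,
          Appr R 𝒢 h → (∃ u : N, ZFSet.pair y.1 u.1 ∈ h.1) → z.1 ∈ h.1 := by
        intro y hy
        obtain ⟨h0, hh0, v, hv⟩ := ih y hy
        obtain ⟨H, hH, hH'⟩ := hN.exists_sep (P := fun z => ∀ h : N,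
          Appr R 𝒢 h → (∃ u : N, ZFSet.pair y.1 u.1 ∈ h.1) → z.1 ∈ h.1)
          (Dfn.subst2 (P := fun y z => ∀ h : N, Appr R 𝒢 h →
          (∃ u : N, ZFSet.pair y.1 u.1 ∈ h.1) → z.1 ∈ h.1) hPd (DT.const y) (DT.var _)) h0.2
        have h1 : ∀ z : N, z.1 ∈ H ↔ ∀ h : N,
            Appr R 𝒢 h → (∃ u : N, ZFSet.pair y.1 u.1 ∈ h.1) → z.1 ∈ h.1 := by
          intro z
          rw [hH']
          constructor
          · rintro ⟨_, _, h⟩; exact h
          · intro h; exact ⟨h h0 hh0 ⟨v, hv⟩, z.2, h⟩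
        exact ⟨⟨H, hH⟩, (hb' ⟨H, hH⟩).2 ⟨y, (hex y).2 hy, h1⟩, h1⟩
      -- the union
      let U : N := ⟨ZFSet.sUnion b, hN.sUnion_mem hb⟩
      have memU : ∀ x' v : N, ZFSet.pair x'.1 v.1 ∈ U.1 → ∃ y, R y x ∧ ∀ h : N,
          Appr R 𝒢 h → (∃ u : N, ZFSet.pair y.1 u.1 ∈ h.1) → ZFSet.pair x'.1 v.1 ∈ h.1 := by
        intro x' v h
        obtain ⟨H, hH, hz⟩ := ZFSet.mem_sUnion.1 h
        have hHN := hN.mem_of_mem hb hH
        obtain ⟨y, hy, h1⟩ := (hb' ⟨H, hHN⟩).1 hH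
        exact ⟨y, (hex y).1 hy, (h1 ⟨_, hN.pair_mem x'.2 v.2⟩).1 hz⟩
      have memU' : ∀ y, R y x → ∀ x' v : N, (∀ h : N,
          Appr R 𝒢 h → (∃ u : N, ZFSet.pair y.1 u.1 ∈ h.1) → ZFSet.pair x'.1 v.1 ∈ h.1) →
          ZFSet.pair x'.1 v.1 ∈ U.1 := by
        intro y hy x' v h
        obtain ⟨H, hH, h1⟩ := hHy y hy
        exact ZFSet.mem_sUnion.2 ⟨H.1, hH, (h1 ⟨_, hN.pair_mem x'.2 v.2⟩).2 h⟩
      have hU : Appr R 𝒢 U := by
        intro x' v hv
        obtain ⟨y, hy, h1⟩ := memU x' v hv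
        obtain ⟨h0, hh0, hd0⟩ := ih y hy
        obtain ⟨h2, h3⟩ := hh0 x' v (h1 h0 hh0 hd0)
        have h4 : ∀ y' w : N, R y' x' → ZFSet.pair y'.1 w.1 ∈ h0.1 →
            ZFSet.pair y'.1 w.1 ∈ U.1 := by
          intro y' w hy' hw
          refine memU' y hy y' w fun h hh hd => ?_
          obtain ⟨w', hw'⟩ := (hh x' v (h1 h hh hd)).1 y' hy'
          rw [uniq y' h0 h hh0 hh w w' hw hw']; exact hw'
        refine ⟨fun y' hy' => ?_, ?_⟩
        · obtain ⟨w, hw⟩ := h2 y' hy'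
          exact ⟨w, h4 y' w hy' hw⟩
        · have : (fun y w : N => R y x' ∧ ZFSet.pair y.1 w.1 ∈ U.1) =
              (fun y w : N => R y x' ∧ ZFSet.pair y.1 w.1 ∈ h0.1) := by
            funext y' w
            apply propext
            refine and_congr_right fun hy' => ⟨fun hw => ?_, h4 y' w hy'⟩
            obtain ⟨y1, hy1, h5⟩ := memU y' w hw
            obtain ⟨h1', hh1, hd1⟩ := ih y1 hy1
            obtain ⟨w', hw'⟩ := h2 y' hy'
            rw [uniq y' h1' h0 hh1 hh0 w w' (h5 h1' hh1 hd1) hw']; exact hw'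
          rw [this]
          exact h3
      have hUd : ∀ y, R y x → ∃ w : N, ZFSet.pair y.1 w.1 ∈ U.1 := by
        intro y hy
        obtain ⟨h0, hh0, v, hv⟩ := ih y hy
        refine ⟨v, memU' y hy y v fun h hh ⟨u, hu⟩ => ?_⟩
        rw [uniq y h0 h hh0 hh v u hv hu]; exact hu
      by_cases hx : ∃ v : N, ZFSet.pair x.1 v.1 ∈ U.1
      · exact ⟨U, hU, hx⟩
      · obtain ⟨v, hv⟩ := hG2 x U hUd fun y hy w w' hw hw' => uniq y U U hU hU w w' hw hw'
        refine ⟨⟨insert (ZFSet.pair x.1 v.1) U.1, hN.insert_mem (hN.pair_mem x.2 v.2) U.2⟩, ?_,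
          v, ZFSet.mem_insert _ _⟩
        intro x' v' hv'
        have hmem : ∀ y w : N, ZFSet.pair y.1 w.1 ∈ insert (ZFSet.pair x.1 v.1) U.1 ↔
            (y = x ∧ w = v) ∨ ZFSet.pair y.1 w.1 ∈ U.1 := by
          intro y w
          rw [ZFSet.mem_insert_iff, ZFSet.pair_inj]
          simp [Subtype.ext_iff]
        rcases (hmem x' v').1 hv' with ⟨rfl, rfl⟩ | h1
        · have hrel : (fun y w : N => R y x' ∧ ZFSet.pair y.1 w.1 ∈
              insert (ZFSet.pair x'.1 v'.1) U.1) =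
              (fun y w : N => R y x' ∧ ZFSet.pair y.1 w.1 ∈ U.1) := by
            funext y w
            apply propext
            refine and_congr_right fun hy => ?_
            rw [hmem]
            constructor
            · rintro (⟨rfl, rfl⟩ | h)
              · exact (hirr _ hy).elim
              · exact h
            · exact Or.inr
          refine ⟨fun y hy => ?_, ?_⟩
          · obtain ⟨w, hw⟩ := hUd y hy
            exact ⟨w, (hmem y w).2 (Or.inr hw)⟩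
          · rw [hrel]; exact hv
        · obtain ⟨h2, h3⟩ := hU x' v' h1
          have hrel : (fun y w : N => R y x' ∧ ZFSet.pair y.1 w.1 ∈
              insert (ZFSet.pair x.1 v.1) U.1) =
              (fun y w : N => R y x' ∧ ZFSet.pair y.1 w.1 ∈ U.1) := by
            funext y w
            apply propext
            refine and_congr_right fun hy => ?_
            rw [hmem]
            constructor
            · rintro (⟨rfl, rfl⟩ | h)
              · exact (hx (h2 _ hy)).elim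
              · exact h
            · exact Or.inr
          refine ⟨fun y hy => ?_, ?_⟩
          · obtain ⟨w, hw⟩ := h2 y hy
            exact ⟨w, (hmem y w).2 (Or.inr hw)⟩
          · rw [hrel]; exact h3
  choose ap hap hd using exist
  choose F hF using hd
  have hFr : ∀ x v : N, F x = v ↔ ∃ h : N, Appr R 𝒢 h ∧ ZFSet.pair x.1 v.1 ∈ h.1 := by
    intro x v
    constructor
    · rintro rfl; exact ⟨ap x, hap x, hF x⟩
    · rintro ⟨h, hh, hv⟩; exact uniq x _ _ (hap x) hh _ _ (hF x) hv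
  refine ⟨F, ?_, fun x => ?_⟩
  · refine Dfn.congr (fun v => (hFr _ _).symm) ?_
    refine Dfn.ex (P := fun v h => Appr R 𝒢 h ∧ ZFSet.pair (v 0).1 (v 1).1 ∈ h.1) ?_
    exact Dfn.and (Dfn.subst1 (P := Appr R 𝒢) happ (DT.var _))
      (Dfn.pairMem (DT.var _) (DT.var _) (DT.var _))
  · obtain ⟨h1, h2⟩ := hap x x _ (hF x)
    have : (fun y w : N => R y x ∧ F y = w) =
        (fun y w : N => R y x ∧ ZFSet.pair y.1 w.1 ∈ (ap x).1) := by
      funext y w
      apply propext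
      refine and_congr_right fun hy => ?_
      rw [hFr]
      constructor
      · rintro ⟨h, hh, hv⟩
        obtain ⟨w', hw'⟩ := h1 y hy
        rw [uniq y h (ap x) hh (hap x) w w' hv hw']; exact hw'
      · intro hw; exact ⟨ap x, hap x, hw⟩
    rw [this]
    exact h2

end CTM

end Pool.Agent.H17.Omega
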