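import Pool.Agent.H17.Omega.CtmD

/-!
# A calculus of `Δ₀` definable predicates
-/

set_option autoImplicit false
set_option linter.unusedVariables false
set_option linter.unusedSectionVars false
set_option linter.unusedSimpArgs false
set_option linter.deprecated false

universe u v w

namespace Pool.Agent.H17.Omega

theorem Fml.Delta0.ren {φ : Fml} (h : φ.Delta0) {ρ : ℕ → ℕ} (hρ : Function.Injective ρ) :
    (φ.ren ρ).Delta0 := by
  induction h with
  | mem i j => exact .mem _ _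
  | eq i j => exact .eq _ _
  | bot => exact .bot
  | imp _ _ ih1 ih2 => exact .imp ih1 ih2
  | and _ _ ih1 ih2 => exact .and ih1 ih2
  | or _ _ ih1 ih2 => exact .or ih1 ih2
  | ball k j hkj _ ih => exact .ball _ _ (fun h => hkj (hρ h)) ih
  | bex k j hkj _ ih => exact .bex _ _ (fun h => hkj (hρ h)) ih

theorem Fml.Free.of_ren {φ : Fml} {ρ : ℕ → ℕ} (hρ : Function.Injective ρ) :
    ∀ {n : ℕ}, (φ.ren ρ).Free n → ∃ m, φ.Free m ∧ n = ρ m := by
  induction φ with
  | mem i j =>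
    rintro n (h | h)
    · exact ⟨i, Or.inl rfl, h⟩
    · exact ⟨j, Or.inr rfl, h⟩
  | eq i j =>
    rintro n (h | h)
    · exact ⟨i, Or.inl rfl, h⟩
    · exact ⟨j, Or.inr rfl, h⟩
  | bot => exact fun h => h.elim
  | imp φ ψ ih1 ih2 =>
    rintro n (h | h)
    · obtain ⟨m, h1, h2⟩ := ih1 h; exact ⟨m, Or.inl h1, h2⟩
    · obtain ⟨m, h1, h2⟩ := ih2 h; exact ⟨m, Or.inr h1, h2⟩
  | and φ ψ ih1 ih2 =>
    rintro n (h | h)
    · obtain ⟨m, h1, h2⟩ := ih1 h; exact ⟨m, Or.inl h1, h2⟩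
    · obtain ⟨m, h1, h2⟩ := ih2 h; exact ⟨m, Or.inr h1, h2⟩
  | or φ ψ ih1 ih2 =>
    rintro n (h | h)
    · obtain ⟨m, h1, h2⟩ := ih1 h; exact ⟨m, Or.inl h1, h2⟩
    · obtain ⟨m, h1, h2⟩ := ih2 h; exact ⟨m, Or.inr h1, h2⟩
  | all k φ ih =>
    rintro n ⟨h0, h⟩
    obtain ⟨m, h1, h2⟩ := ih h
    exact ⟨m, ⟨fun hm => h0 (by rw [h2, hm]), h1⟩, h2⟩
  | ex k φ ih =>
    rintro n ⟨h0, h⟩
    obtain ⟨m, h1, h2⟩ := ih h
    exact ⟨m, ⟨fun hm => h0 (by rw [h2, hm]), h1⟩, h2⟩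

/-- Variables. -/
def D0T {n : ℕ} (s : (Fin n → ZFSet.{u}) → ZFSet.{u}) : Prop := ∃ i : Fin n, ∀ v, s v = v i

/-- `Δ₀` predicates. -/
def D0 {n : ℕ} (P : (Fin n → ZFSet.{u}) → Prop) : Prop :=
  ∃ θ : Fml, θ.Delta0 ∧ (∀ k, θ.Free k → k < n) ∧ ∀ f : ℕ → ZFSet.{u},
    Sat (fun a b : ZFSet.{u} => a ∈ b) θ f ↔ P (fun i => f i)

theorem D0T.var {n : ℕ} (i : Fin n) : D0T (fun v : Fin n → ZFSet.{u} => v i) := ⟨i, fun v => rfl⟩

theorem D0T.lift {n : ℕ} {s : (Fin n → ZFSet.{u}) → ZFSet.{u}} (h : D0T s) :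
    D0T (fun v : Fin (n + 1) → ZFSet.{u} => s (fun i => v i.castSucc)) := by
  obtain ⟨i, hi⟩ := h
  exact ⟨i.castSucc, fun v => hi _⟩

theorem D0T.last {n : ℕ} : D0T (fun v : Fin (n + 1) → ZFSet.{u} => v (Fin.last n)) := D0T.var _

namespace D0

variable {n : ℕ} {P P' : (Fin n → ZFSet.{u}) → Prop} {s t r : (Fin n → ZFSet.{u}) → ZFSet.{u}}

theorem congr (h : ∀ v, P v ↔ P' v) (hP : D0 P) : D0 P' := by
  obtain ⟨θ, h1, h2, h3⟩ := hP
  exact ⟨θ, h1, h2, fun f => (h3 f).trans (h _)⟩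

theorem mem (hs : D0T s) (ht : D0T t) : D0 (fun v => s v ∈ t v) := by
  obtain ⟨i, hi⟩ := hs
  obtain ⟨j, hj⟩ := ht
  refine ⟨.mem i j, .mem _ _, ?_, fun f => ?_⟩
  · rintro k (rfl | rfl)
    · exact i.2
    · exact j.2
  · show f i ∈ f j ↔ s (fun i => f i) ∈ t (fun i => f i)
    rw [hi, hj]

theorem eqv (hs : D0T s) (ht : D0T t) : D0 (fun v => s v = t v) := by
  obtain ⟨i, hi⟩ := hs
  obtain ⟨j, hj⟩ := ht
  refine ⟨.eq i j, .eq _ _, ?_, fun f => ?_⟩
  · rintro k (rfl | rfl)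
    · exact i.2
    · exact j.2
  · show f i = f j ↔ s (fun i => f i) = t (fun i => f i)
    rw [hi, hj]

theorem and (h : D0 P) (h' : D0 P') : D0 (fun v => P v ∧ P' v) := by
  obtain ⟨θ, h1, h2, h3⟩ := h
  obtain ⟨θ', h1', h2', h3'⟩ := h'
  exact ⟨.and θ θ', .and h1 h1', fun k hk => hk.elim (h2 k) (h2' k), fun f => and_congr (h3 f) (h3' f)⟩

theorem or (h : D0 P) (h' : D0 P') : D0 (fun v => P v ∨ P' v) := by
  obtain ⟨θ, h1, h2, h3⟩ := h
  obtain ⟨θ', h1', h2', h3'⟩ := h'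
  exact ⟨.or θ θ', .or h1 h1', fun k hk => hk.elim (h2 k) (h2' k), fun f => or_congr (h3 f) (h3' f)⟩

theorem imp (h : D0 P) (h' : D0 P') : D0 (fun v => P v → P' v) := by
  obtain ⟨θ, h1, h2, h3⟩ := h
  obtain ⟨θ', h1', h2', h3'⟩ := h'
  exact ⟨.imp θ θ', .imp h1 h1', fun k hk => hk.elim (h2 k) (h2' k), fun f => imp_congr (h3 f) (h3' f)⟩

theorem false' : D0 (fun _ : Fin n → ZFSet.{u} => False) :=
  ⟨.bot, .bot, fun k hk => hk.elim, fun f => Iff.rfl⟩

theorem not (h : D0 P) : D0 (fun v => ¬ P v) := h.imp false'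

theorem iff (h : D0 P) (h' : D0 P') : D0 (fun v => P v ↔ P' v) :=
  ((h.imp h').and (h'.imp h)).congr fun v => iff_def.symm

theorem ballZ {p : (Fin n → ZFSet.{u}) → ZFSet.{u} → Prop} (hs : D0T s)
    (h : D0 (fun v : Fin (n + 1) → ZFSet.{u} => p (fun i => v i.castSucc) (v (Fin.last n)))) :
    D0 (fun v => ∀ z ∈ s v, p v z) := by
  obtain ⟨i, hi⟩ := hs
  obtain ⟨θ, h1, h2, h3⟩ := h
  refine ⟨.all n (.imp (.mem n i) θ), .ball n i (by have := i.2; omega) h1, ?_, fun f => ?_⟩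
  · rintro k ⟨hk, (rfl | rfl) | h⟩
    · exact (hk rfl).elim
    · exact i.2
    · have := h2 k h; omega
  · refine forall_congr' fun x => ?_
    have e1 : upd f n x n = x := upd_same _ _ _
    have e2 : upd f n x i = f i := upd_ne _ _ (by have := i.2; omega)
    have e3 := h3 (upd f n x)
    have e4 : (fun i : Fin n => upd f n x (i.castSucc : Fin (n + 1))) = fun i : Fin n => f i := by
      funext j
      exact upd_ne _ _ (by have := j.2; simp only [Fin.val_castSucc]; omega)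
    have e5 : upd f n x (Fin.last n : Fin (n + 1)) = x := by simp
    simp only [Sat, e1, e2, e3, hi]
    rw [e4, e5]

theorem bexZ {p : (Fin n → ZFSet.{u}) → ZFSet.{u} → Prop} (hs : D0T s)
    (h : D0 (fun v : Fin (n + 1) → ZFSet.{u} => p (fun i => v i.castSucc) (v (Fin.last n)))) :
    D0 (fun v => ∃ z ∈ s v, p v z) := by
  obtain ⟨i, hi⟩ := hs
  obtain ⟨θ, h1, h2, h3⟩ := h
  refine ⟨.ex n (.and (.mem n i) θ), .bex n i (by have := i.2; omega) h1, ?_, fun f => ?_⟩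
  · rintro k ⟨hk, (rfl | rfl) | h⟩
    · exact (hk rfl).elim
    · exact i.2
    · have := h2 k h; omega
  · refine exists_congr fun x => ?_
    have e1 : upd f n x n = x := upd_same _ _ _
    have e2 : upd f n x i = f i := upd_ne _ _ (by have := i.2; omega)
    have e3 := h3 (upd f n x)
    have e4 : (fun i : Fin n => upd f n x (i.castSucc : Fin (n + 1))) = fun i : Fin n => f i := by
      funext j
      exact upd_ne _ _ (by have := j.2; simp only [Fin.val_castSucc]; omega)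
    have e5 : upd f n x (Fin.last n : Fin (n + 1)) = x := by simp
    simp only [Sat, e1, e2, e3, hi]
    rw [e4, e5]

theorem subset (hs : D0T s) (ht : D0T t) : D0 (fun v => s v ⊆ t v) :=
  (ballZ (p := fun v z => z ∈ t v) hs (mem D0T.last ht.lift)).congr fun v =>
    ⟨fun h z hz => h z hz, fun h z hz => h hz⟩

theorem isEmpty (hs : D0T s) : D0 (fun v => s v = ∅) :=
  (ballZ (p := fun v z => False) hs false').congr fun v => (ZFSet.eq_empty _).symm

theorem isUpair (hr : D0T r) (hs : D0T s) (ht : D0T t) : D0 (fun v => r v = {s v, t v}) := by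
  refine (((mem hs hr).and (mem ht hr)).and (ballZ (p := fun v z => z = s v ∨ z = t v) hr
    ((eqv D0T.last hs.lift).or (eqv D0T.last ht.lift)))).congr fun v => ?_
  constructor
  · rintro ⟨⟨h1, h2⟩, h3⟩
    ext z
    rw [ZFSet.mem_pair]
    constructor
    · exact h3 z
    · rintro (rfl | rfl) <;> assumption
  · intro h
    rw [h]
    simp

theorem isPair (hr : D0T r) (hs : D0T s) (ht : D0T t) : D0 (fun v => r v = ZFSet.pair (s v) (t v)) := by
  refine (bexZ (p := fun v a => ∃ b ∈ r v, a = {s v, s v} ∧ b = {s v, t v} ∧ r v = {a, b}) hr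
    (bexZ (p := fun v b => v (Fin.last n) = {s (fun i => v i.castSucc), s (fun i => v i.castSucc)} ∧
      b = {s (fun i => v i.castSucc), t (fun i => v i.castSucc)} ∧
        r (fun i => v i.castSucc) = {v (Fin.last n), b}) hr.lift
      ((isUpair (D0T.var _) hs.lift.lift hs.lift.lift).and
    ((isUpair (D0T.var _) hs.lift.lift ht.lift.lift).and
      (isUpair hr.lift.lift (D0T.var _) (D0T.var _)))))).congr fun v => ?_
  rw [pair_eq_upair]
  constructor
  · rintro ⟨a, _, b, _, h1, h2, h3⟩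
    rw [h3, h1, h2]
  · intro h
    exact ⟨_, by rw [h]; simp, _, by rw [h]; simp, rfl, rfl, h⟩

theorem pairMem (hs : D0T s) (ht : D0T t) (hr : D0T r) : D0 (fun v => ZFSet.pair (s v) (t v) ∈ r v) := by
  refine (bexZ (p := fun v z => z = ZFSet.pair (s v) (t v)) hr
    (isPair D0T.last hs.lift ht.lift)).congr fun v => ?_
  simp

theorem isTrans (hs : D0T s) : D0 (fun v => (s v).IsTransitive) :=
  (ballZ (p := fun v y => y ⊆ s v) hs (subset D0T.last hs.lift)).congr fun v => Iff.rfl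

/-- A `Δ₀` formula with the free variables `0` and `1`. -/
theorem tr {ψ : Fml} (hψ : ψ.Delta0) (hfree : ∀ n, ψ.Free n → n = 0 ∨ n = 1) (i j : Fin n)
    (hij : i ≠ j) : D0 (fun v : Fin n → ZFSet.{u} => Tr ψ (v i) (v j)) := by
  let ρ : ℕ → ℕ := fun k => if k = 0 then i else if k = 1 then j else n + k
  have hρ : Function.Injective ρ := by
    have h1 : (i : ℕ) ≠ j := fun h => hij (Fin.ext h)
    have hi := i.2
    have hj := j.2
    intro a b hab
    simp only [ρ] at hab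
    split_ifs at hab <;> omega
  refine ⟨ψ.ren ρ, hψ.ren hρ, ?_, fun f => ?_⟩
  · intro k hk
    obtain ⟨m, hm, rfl⟩ := Fml.Free.of_ren hρ hk
    rcases hfree m hm with rfl | rfl
    · exact i.2
    · exact j.2
  · rw [Sat.ren hρ]
    show _ ↔ Sat (fun a b : ZFSet.{u} => a ∈ b) ψ (asg (f i) (f j))
    apply Sat.congr_free
    intro k hk
    rcases hfree k hk with rfl | rfl <;> simp [ρ, asg]

/-- Extraction of the formula. -/
theorem exists_fml {P : ZFSet.{u} → ZFSet.{u} → Prop}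
    (h : D0 (fun v : Fin 2 → ZFSet.{u} => P (v 0) (v 1))) :
    ∃ θ : Fml, θ.Delta0 ∧ (∀ n, θ.Free n → n = 0 ∨ n = 1) ∧ ∀ x y, Tr θ x y ↔ P x y := by
  obtain ⟨θ, h1, h2, h3⟩ := h
  refine ⟨θ, h1, fun k hk => by have := h2 k hk; omega, fun x y => ?_⟩
  rw [Tr, h3]
  simp [asg]

end D0

end Pool.Agent.H17.Omega
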