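import Mathlib

/-!
# Omega-logic: definitions

The universe of sets is `V = ZFSet.{u}`; small index types are types in `Type u`.
A partial order (in `V`) is a partial order on a type in `Type u`.
-/

set_option autoImplicit false

universe u v w

namespace Pool.Agent.H17.Omega

/-! ## First-order formulas of set theory -/

/-- First-order formulas of the language `{∈, =}`, with variables `0, 1, 2, …`. -/
inductive Fml : Type
  | mem (i j : ℕ) : Fml
  | eq (i j : ℕ) : Fml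
  | bot : Fml
  | imp (φ ψ : Fml) : Fml
  | and (φ ψ : Fml) : Fml
  | or (φ ψ : Fml) : Fml
  | all (k : ℕ) (φ : Fml) : Fml
  | ex (k : ℕ) (φ : Fml) : Fml

namespace Fml

/-- Negation. -/
def not (φ : Fml) : Fml := φ.imp .bot

/-- Biconditional. -/
def iff (φ ψ : Fml) : Fml := (φ.imp ψ).and (ψ.imp φ)

/-- `φ.Free n`: the variable `n` occurs free in `φ`. -/
def Free : Fml → ℕ → Prop
  | .mem i j, n => n = i ∨ n = j
  | .eq i j, n => n = i ∨ n = j
  | .bot, _ => False
  | .imp φ ψ, n => φ.Free n ∨ ψ.Free n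
  | .and φ ψ, n => φ.Free n ∨ ψ.Free n
  | .or φ ψ, n => φ.Free n ∨ ψ.Free n
  | .all k φ, n => n ≠ k ∧ φ.Free n
  | .ex k φ, n => n ≠ k ∧ φ.Free n

/-- A number larger than every variable that occurs in `φ` (free or bound). -/
def bd : Fml → ℕ
  | .mem i j => max i j + 1
  | .eq i j => max i j + 1
  | .bot => 0
  | .imp φ ψ => max φ.bd ψ.bd
  | .and φ ψ => max φ.bd ψ.bd
  | .or φ ψ => max φ.bd ψ.bd
  | .all k φ => max (k + 1) φ.bd
  | .ex k φ => max (k + 1) φ.bd

/-- The `Δ₀` formulas: all quantifiers are bounded, `∀ k ∈ j` or `∃ k ∈ j`. -/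
inductive Delta0 : Fml → Prop
  | mem (i j : ℕ) : Delta0 (.mem i j)
  | eq (i j : ℕ) : Delta0 (.eq i j)
  | bot : Delta0 .bot
  | imp {φ ψ : Fml} : Delta0 φ → Delta0 ψ → Delta0 (.imp φ ψ)
  | and {φ ψ : Fml} : Delta0 φ → Delta0 ψ → Delta0 (.and φ ψ)
  | or {φ ψ : Fml} : Delta0 φ → Delta0 ψ → Delta0 (.or φ ψ)
  | ball {φ : Fml} (k j : ℕ) : k ≠ j → Delta0 φ → Delta0 (.all k (.imp (.mem k j) φ))
  | bex {φ : Fml} (k j : ℕ) : k ≠ j → Delta0 φ → Delta0 (.ex k (.and (.mem k j) φ))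

end Fml

/-- Update of an assignment. -/
def upd {N : Type v} (f : ℕ → N) (k : ℕ) (x : N) : ℕ → N := fun j => if j = k then x else f j

/-- Satisfaction of a formula in the structure `(M, E)` under the assignment `f`. -/
def Sat {M : Type v} (E : M → M → Prop) : Fml → (ℕ → M) → Prop
  | .mem i j, f => E (f i) (f j)
  | .eq i j, f => f i = f j
  | .bot, _ => False
  | .imp φ ψ, f => Sat E φ f → Sat E ψ f
  | .and φ ψ, f => Sat E φ f ∧ Sat E ψ f
  | .or φ ψ, f => Sat E φ f ∨ Sat E ψ f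
  | .all k φ, f => ∀ x, Sat E φ (upd f k x)
  | .ex k φ, f => ∃ x, Sat E φ (upd f k x)

/-! ## The axioms of ZFC (free variables are parameters) -/

section ZFC

open Fml

/-- Extensionality. -/
def axExt : Fml := .all 0 (.all 1 (.imp (.all 2 (.iff (.mem 2 0) (.mem 2 1))) (.eq 0 1)))

/-- Foundation. -/
def axFound : Fml := .all 0 (.imp (.ex 1 (.mem 1 0))
  (.ex 1 (.and (.mem 1 0) (.all 2 (.imp (.mem 2 0) (.not (.mem 2 1)))))))

/-- Pairing. -/
def axPair : Fml := .all 0 (.all 1 (.ex 2 (.all 3 (.iff (.mem 3 2) (.or (.eq 3 0) (.eq 3 1))))))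

/-- Union. -/
def axUnion : Fml := .all 0 (.ex 1 (.all 2 (.iff (.mem 2 1) (.ex 3 (.and (.mem 3 0) (.mem 2 3))))))

/-- Power set. -/
def axPower : Fml := .all 0 (.ex 1 (.all 2 (.iff (.mem 2 1) (.all 3 (.imp (.mem 3 2) (.mem 3 0))))))

/-- Infinity: there is a set containing the empty set and closed under `y ↦ y ∪ {y}`. -/
def axInf : Fml := .ex 0 (.and (.ex 1 (.and (.mem 1 0) (.all 2 (.not (.mem 2 1)))))
  (.all 1 (.imp (.mem 1 0) (.ex 2 (.and (.mem 2 0)
    (.all 3 (.iff (.mem 3 2) (.or (.mem 3 1) (.eq 3 1)))))))))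

/-- Choice: a family of nonempty pairwise disjoint sets has a transversal. -/
def axChoice : Fml := .all 0 (.imp
  (.and (.all 1 (.imp (.mem 1 0) (.ex 2 (.mem 2 1))))
    (.all 1 (.all 2 (.imp (.and (.mem 1 0) (.and (.mem 2 0)
      (.ex 3 (.and (.mem 3 1) (.mem 3 2))))) (.eq 1 2)))))
  (.ex 1 (.all 2 (.imp (.mem 2 0) (.ex 3 (.all 4
    (.iff (.and (.mem 4 2) (.mem 4 1)) (.eq 4 3))))))))

/-- Separation for `φ(0)`: for every `a` the set `{x ∈ a : φ(x)}` exists. -/
def axSep (φ : Fml) : Fml :=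
  let n := max φ.bd 1
  .all n (.ex (n + 1) (.all 0 (.iff (.mem 0 (n + 1)) (.and (.mem 0 n) φ))))

/-- Replacement for `φ(0, 1)`: if for every `x ∈ a` there is exactly one `y` with `φ(x, y)`, then
`{y : ∃ x ∈ a, φ(x, y)}` is a set. -/
def axRepl (φ : Fml) : Fml :=
  let n := max φ.bd 2
  .all n (.imp
    (.all 0 (.imp (.mem 0 n) (.ex (n + 1) (.all 1 (.iff φ (.eq 1 (n + 1)))))))
    (.ex (n + 1) (.all 1 (.iff (.mem 1 (n + 1)) (.ex 0 (.and (.mem 0 n) φ))))))

/-- The theory ZFC. -/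
inductive ZFC : Fml → Prop
  | ext : ZFC axExt
  | found : ZFC axFound
  | pair : ZFC axPair
  | union : ZFC axUnion
  | power : ZFC axPower
  | inf : ZFC axInf
  | choice : ZFC axChoice
  | sep (φ : Fml) : ZFC (axSep φ)
  | repl (φ : Fml) : ZFC (axRepl φ)

end ZFC

/-! ## Forcing over `V` -/

/-- Names over a partial order `Q`: a name is a small family of pairs (name, condition).
In the generic extension by `G`, the name `⟨ι, x, p⟩` denotes `{x i : p i ∈ G}`. -/
inductive Name (Q : Type u) : Type (u + 1)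
  | mk (ι : Type u) (x : ι → Name Q) (p : ι → Q) : Name Q

namespace Name

variable {Q : Type u}

/-- Index type of a name. -/
def ι : Name Q → Type u
  | ⟨ι, _, _⟩ => ι

/-- Elements of a name. -/
def el : (X : Name Q) → X.ι → Name Q
  | ⟨_, x, _⟩ => x

/-- Conditions of a name. -/
def cd : (X : Name Q) → X.ι → Q
  | ⟨_, _, p⟩ => p

/-- The name belongs to the `α`-th level of the cumulative hierarchy of names:
`X ∈ V_α` iff `X ⊆ V_β` for some `β < α`. In the extension, the names with `InV α` denote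
exactly the elements of `V_α` of the extension. -/
def InV : Name Q → Ordinal.{u} → Prop
  | ⟨_, x, _⟩, α => ∃ β < α, ∀ i, InV (x i) β

/-- The usual name of an element of the ground model. -/
noncomputable def check (x : ZFSet.{u}) : Name Q :=
  Name.mk (Shrink.{u} {y : ZFSet.{u} // y ∈ x} × Q)
    (fun i => check ((equivShrink _).symm i.1).1) (fun i => i.2)
termination_by x
decreasing_by exact ((equivShrink _).symm i.1).2

variable [Preorder Q]

/-- `q` forces that `X = Y`. -/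
def feq : Name Q → Name Q → Q → Prop
  | ⟨ι, x, p⟩, ⟨κ, y, r⟩ => fun q =>
    (∀ i : ι, ∀ q' ≤ q, q' ≤ p i → ∃ q'' ≤ q', ∃ j : κ, q'' ≤ r j ∧ feq (x i) (y j) q'') ∧
    (∀ j : κ, ∀ q' ≤ q, q' ≤ r j → ∃ q'' ≤ q', ∃ i : ι, q'' ≤ p i ∧ feq (x i) (y j) q'')

/-- `q` forces that `X ∈ Y`. -/
def fmem (X Y : Name Q) (q : Q) : Prop :=
  ∀ q' ≤ q, ∃ q'' ≤ q', ∃ j : Y.ι, q'' ≤ Y.cd j ∧ feq X (Y.el j) q''

end Name

/-- The forcing relation for the class of names satisfying `D`: `Forces D φ f p` means that `p`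
forces that `φ(f)` holds in the class (of the extension) of all sets that have a name in `D`. -/
def Forces {Q : Type u} [Preorder Q] (D : Name Q → Prop) : Fml → (ℕ → {X : Name Q // D X}) → Q → Prop
  | .mem i j, f, p => (f i).1.fmem (f j).1 p
  | .eq i j, f, p => (f i).1.feq (f j).1 p
  | .bot, _, _ => False
  | .imp φ ψ, f, p => ∀ q ≤ p, Forces D φ f q → Forces D ψ f q
  | .and φ ψ, f, p => Forces D φ f p ∧ Forces D ψ f p
  | .or φ ψ, f, p => ∀ q ≤ p, ∃ r ≤ q, Forces D φ f r ∨ Forces D ψ f r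
  | .all k φ, f, p => ∀ x, Forces D φ (upd f k x) p
  | .ex k φ, f, p => ∀ q ≤ p, ∃ r ≤ q, ∃ x, Forces D φ (upd f k x) r

/-- `p` forces that `V_α` of the extension satisfies `φ` (for all values of the free variables). -/
def VForces {Q : Type u} [Preorder Q] (α : Ordinal.{u}) (φ : Fml) (p : Q) : Prop :=
  ∀ f : ℕ → {X : Name Q // X.InV α}, Forces (fun X => X.InV α) φ f p

/-- `ZFC ⊢_{Ω*} φ`: for every ordinal `α`, every partial order `Q` and every generic `G ⊆ Q`,
if `V_α[G] ⊨ ZFC` then `V_α[G] ⊨ φ`. -/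
def ValidStar (φ : Fml) : Prop :=
  ∀ (α : Ordinal.{u}) (Q : Type u) [PartialOrder Q] (p : Q),
    (∀ ψ, ZFC ψ → VForces α ψ p) → VForces α φ p

/-! ## Universally Baire sets, `A`-closed models and `⊢_Ω` -/

/-- `A ⊆ ℕ^ℕ` is universally Baire: every continuous preimage, in any topological space, has the
property of Baire. -/
def UB (A : Set (ℕ → ℕ)) : Prop :=
  ∀ (X : Type u) [TopologicalSpace X] (F : X → ℕ → ℕ), Continuous F → BaireMeasurableSet (F ⁻¹' A)

/-- A set of finite sequences of elements of `ℕ × K` is a tree if it is closed under initial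
segments. -/
def IsTree {K : Type u} (T : Set (List (ℕ × K))) : Prop :=
  ∀ s t : List (ℕ × K), s ++ t ∈ T → s ∈ T

/-- The projection `p[T]` of a tree `T` on `ℕ × K`. -/
def proj {K : Type u} (T : Set (List (ℕ × K))) : Set (ℕ → ℕ) :=
  {x | ∃ b : ℕ → K, ∀ n, List.ofFn (fun i : Fin n => (x i, b i)) ∈ T}

/-- The von Neumann numeral `n`. -/
noncomputable def natZ : ℕ → ZFSet.{u}
  | 0 => ∅
  | n + 1 => insert (natZ n) (natZ n)

section AG

variable {Q : Type u} [Preorder Q]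

/-- `q` forces that `(i, j) ∈ τ`. -/
noncomputable def ForcesVal (τ : Name Q) (i j : ℕ) (q : Q) : Prop :=
  Name.fmem (Name.check (ZFSet.pair (natZ i) (natZ j))) τ q

/-- `q` forces that `τ` is a function from `ℕ` to `ℕ` (a set of pairs `(i, j)`). -/
def ForcesReal (τ : Name Q) (q : Q) : Prop :=
  (∀ X : Name Q, ∀ r ≤ q, X.fmem τ r →
    ∃ s ≤ r, ∃ i j, X.feq (Name.check (ZFSet.pair (natZ i) (natZ j))) s) ∧
  (∀ i, ∀ r ≤ q, ∃ s ≤ r, ∃ j, ForcesVal τ i j s) ∧
  (∀ i j j', ∀ r ≤ q, ForcesVal τ i j r → ForcesVal τ i j' r → j = j')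

/-- `q` forces that `τ ∈ p[T]`, for a ground model tree `T` on `ℕ × K`: `τ` is a function from
`ℕ` to `ℕ` and there is a `K`-valued sequence `b` in the extension (`B i k r` says that `r`
forces `b(i) = k`) such that `(τ, b)` is a branch of `T`. -/
def ForcesProj {K : Type u} (T : Set (List (ℕ × K))) (τ : Name Q) (q : Q) : Prop :=
  ForcesReal τ q ∧ ∃ B : ℕ → K → Q → Prop,
    (∀ i k, ∀ r, ∀ s ≤ r, B i k r → B i k s) ∧
    (∀ i k k' r, B i k r → B i k' r → k = k') ∧
    ∀ n, ∀ r ≤ q, ∃ s ≤ r, ∃ (x : Fin n → ℕ) (b : Fin n → K),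
      List.ofFn (fun i => (x i, b i)) ∈ T ∧ ∀ i : Fin n, ForcesVal τ i (x i) s ∧ B i (b i) s

/-- `q` forces that `τ ∈ A_G`, where `A_G` is the union of the sets `p[T]` of the extension over
all trees `T` of the ground model with `p[T] = A` in the ground model. -/
def ForcesAG (A : Set (ℕ → ℕ)) (τ : Name Q) (q : Q) : Prop :=
  ∀ r ≤ q, ∃ s ≤ r, ∃ (K : Type u) (T : Set (List (ℕ × K))),
    IsTree T ∧ proj T = A ∧ ForcesProj T τ s

end AG

/-- `(M, ∈)` satisfies `φ` (for all values of the free variables). -/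
def Models (M : Set ZFSet.{u}) (φ : Fml) : Prop :=
  ∀ f : ℕ → M, Sat (fun x y : M => x.1 ∈ y.1) φ f

/-- `M` is a countable transitive model of ZFC. -/
structure CTM (M : Set ZFSet.{u}) : Prop where
  nonempty : M.Nonempty
  countable : M.Countable
  trans : ∀ x ∈ M, ∀ y ∈ x, y ∈ M
  zfc : ∀ ψ, ZFC ψ → Models M ψ

/-- The partial order `Q` is (via the coding `c` of its elements by sets) an element of `M`. -/
structure PosetIn (M : Set ZFSet.{u}) (Q : Type u) [PartialOrder Q] (c : Q → ZFSet.{u}) : Prop where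
  inj : Function.Injective c
  carrier : ∃ P ∈ M, ∀ z, z ∈ P ↔ ∃ q, z = c q
  order : ∃ R ∈ M, ∀ z, z ∈ R ↔ ∃ p q, p ≤ q ∧ z = ZFSet.pair (c p) (c q)

instance small_pairs {Q : Type u} (c : Q → ZFSet.{u}) (τ : ZFSet.{u}) :
    Small.{u} {t : ZFSet.{u} × Q // ZFSet.pair t.1 (c t.2) ∈ τ} := by
  refine small_of_injective (β := {z : ZFSet.{u} // z ∈ τ} × Q)
    (f := fun t => (⟨_, t.2⟩, t.1.2)) ?_
  rintro ⟨⟨a, p⟩, h⟩ ⟨⟨b, q⟩, h'⟩ heq
  simp only [Prod.mk.injEq, Subtype.mk.injEq, ZFSet.pair_inj] at heq ⊢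
  exact ⟨heq.1.1, heq.2⟩

theorem rank_fst_lt {a b τ : ZFSet.{u}} (h : ZFSet.pair a b ∈ τ) : a.rank < τ.rank := by
  have h1 : a ∈ ({a} : ZFSet.{u}) := ZFSet.mem_singleton.2 rfl
  have h2 : ({a} : ZFSet.{u}) ∈ ZFSet.pair a b := by
    rw [ZFSet.pair]; exact ZFSet.mem_insert _ _
  exact (ZFSet.rank_lt_of_mem h1).trans ((ZFSet.rank_lt_of_mem h2).trans (ZFSet.rank_lt_of_mem h))

/-- The set `τ`, read as a name: it denotes `{σ : (σ, c p) ∈ τ, p ∈ G}` (every set is a name). -/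
noncomputable def nm {Q : Type u} (c : Q → ZFSet.{u}) (τ : ZFSet.{u}) : Name Q :=
  Name.mk (Shrink.{u} {t : ZFSet.{u} × Q // ZFSet.pair t.1 (c t.2) ∈ τ})
    (fun i => nm c ((equivShrink _).symm i).1.1)
    (fun i => ((equivShrink _).symm i).1.2)
termination_by τ.rank
decreasing_by
  have h := ((equivShrink _).symm i).2
  exact rank_fst_lt h

/-- `M` is `A`-closed: for every partial order `Q ∈ M` and every `V`-generic `G ⊆ Q` there is
`σ ∈ M` whose value is `A_G ∩ M[G]`. -/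
def AClosed (A : Set (ℕ → ℕ)) (M : Set ZFSet.{u}) : Prop :=
  ∀ (Q : Type u) [PartialOrder Q] (c : Q → ZFSet.{u}), PosetIn M Q c →
    ∀ p : Q, ∃ q ≤ p, ∃ σ ∈ M, ∀ τ ∈ M, ∀ r ≤ q,
      (Name.fmem (nm c τ) (nm c σ) r ↔ ForcesAG A (nm c τ) r)

/-- `ZFC ⊢_Ω φ`. -/
def ProvOmega (φ : Fml) : Prop :=
  ∃ A : Set (ℕ → ℕ), UB.{u} A ∧ ∀ M : Set ZFSet.{u}, CTM M → AClosed A M → Models M φ

/-! ## `Π₂` sentences and witnesses -/

/-- The `Π₂` sentence `∀ x ∃ y ψ(x, y)` (`ψ` has no free variables besides `0` and `1`). -/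
def piTwo (ψ : Fml) : Fml := .all 0 (.ex 1 ψ)

/-- The assignment sending the variable `0` to `x` and all other variables to `y`. -/
def asg {α : Type v} (x y : α) : ℕ → α := fun k => if k = 0 then x else y

/-- `ψ(x, y)` is true in the universe of sets. -/
def Tr (ψ : Fml) (x y : ZFSet.{u}) : Prop := Sat (fun a b : ZFSet.{u} => a ∈ b) ψ (asg x y)

/-- The set `x` is hereditarily countable: it belongs to a countable transitive set. -/
def HC (x : ZFSet.{u}) : Prop :=
  ∃ T : Set ZFSet.{u}, T.Countable ∧ (∀ a ∈ T, ∀ b ∈ a, b ∈ T) ∧ x ∈ T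

/-- The relation on `ℕ` coded by the real `c`. -/
def Ec (c : ℕ → ℕ) (m n : ℕ) : Prop := c (Nat.pair m n) ≠ 0

/-- `x` is the value of `n` under the Mostowski collapse of the relation `E` on `ℕ`: the elements
of `x` are exactly the values of the `m` with `E m n`. -/
def IsVal (E : ℕ → ℕ → Prop) (x : ZFSet.{u}) : ℕ → Prop := fun n =>
  (∀ m, E m n → ∃ y : {y : ZFSet.{u} // y ∈ x}, IsVal E y.1 m) ∧
  ∀ y : {y : ZFSet.{u} // y ∈ x}, ∃ m, E m n ∧ IsVal E y.1 m
termination_by x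
decreasing_by all_goals exact y.2

/-- There is a perfect set of (codes of pairwise different) sets `y` with `ψ(x, y)`: a continuous
map `F` from the Cantor space to the Baire space and pairwise different sets `Y a`, such that the
real `F a` codes `Y a` (as the value of `0`) and `ψ(x, Y a)` holds. -/
def PerfectWitnesses (ψ : Fml) (x : ZFSet.{u}) : Prop :=
  ∃ F : (ℕ → Bool) → (ℕ → ℕ), Continuous F ∧ ∃ Y : (ℕ → Bool) → ZFSet.{u}, Function.Injective Y ∧
    ∀ a, IsVal (Ec (F a)) (Y a) 0 ∧ Tr ψ x (Y a)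

/-- There are unboundedly many inaccessible cardinals (this follows from the existence of a proper
class of Woodin cardinals). -/
def ManyInacc : Prop := ∀ μ : Cardinal.{u}, ∃ κ : Cardinal.{u}, μ < κ ∧ κ.IsInaccessible

end Pool.Agent.H17.Omega
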