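import Pool.Agent.H17.Omega.GenM
import Pool.Agent.H17.Omega.CtmN
import Pool.Agent.H17.Omega.Alive

/-!
# The root of the tree of certificates is alive
-/

set_option autoImplicit false
set_option linter.unusedVariables false
set_option linter.unusedSectionVars false
set_option linter.unusedSimpArgs false
set_option linter.deprecated false

universe u v w

namespace Pool.Agent.H17.Omega

open Name Cardinal CTM

theorem mem_upair' {x y z : ZFSet.{u}} : z ∈ ({x, y} : ZFSet.{u}) ↔ z = x ∨ z = y := ZFSet.mem_pair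

/-- A countable transitive set of parameters. -/
def HSet (Z : ℕ → ZFSet.{u}) : Set ZFSet.{u} :=
  Set.range natZ ∪ Set.range (fun t : ℕ × ℕ => ({natZ t.1, natZ t.2} : ZFSet.{u})) ∪
  Set.range (fun t : ℕ × ℕ => ZFSet.pair (natZ t.1) (natZ t.2)) ∪
  Set.range (fun t : ℕ × ℕ × ℕ =>
    ({natZ t.1, ZFSet.pair (natZ t.2.1) (natZ t.2.2)} : ZFSet.{u})) ∪
  Set.range (fun t : ℕ × ℕ × ℕ => ZFSet.pair (natZ t.1) (ZFSet.pair (natZ t.2.1) (natZ t.2.2))) ∪
  Set.range Z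

theorem HSet_countable (Z : ℕ → ZFSet.{u}) : (HSet Z).Countable := by
  unfold HSet
  exact (((((Set.countable_range _).union (Set.countable_range _)).union
    (Set.countable_range _)).union (Set.countable_range _)).union
    (Set.countable_range _)).union (Set.countable_range _)

theorem pair_mem_HSet (Z : ℕ → ZFSet.{u}) (m n : ℕ) : ZFSet.pair (natZ m) (natZ n) ∈ HSet Z := by
  left; left; left; right; exact ⟨(m, n), rfl⟩

theorem triple_mem_HSet (Z : ℕ → ZFSet.{u}) (k m n : ℕ) :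
    ZFSet.pair (natZ k) (ZFSet.pair (natZ m) (natZ n)) ∈ HSet Z := by
  left; right; exact ⟨(k, m, n), rfl⟩

theorem HSet_trans {Z : ℕ → ZFSet.{u}} (hZ : ∀ n, ∀ x ∈ Z n, x ∈ HSet Z) :
    ∀ x ∈ HSet Z, ∀ y ∈ x, y ∈ HSet Z := by
  have hn : ∀ n, natZ.{u} n ∈ HSet Z := fun n => by
    left; left; left; left; left; exact ⟨n, rfl⟩
  have hu : ∀ m n, ({natZ.{u} m, natZ n} : ZFSet.{u}) ∈ HSet Z := fun m n => by
    left; left; left; left; right; exact ⟨(m, n), rfl⟩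
  have hp := pair_mem_HSet Z
  have ht : ∀ k m n, ({natZ.{u} k, ZFSet.pair (natZ m) (natZ n)} : ZFSet.{u}) ∈ HSet Z :=
    fun k m n => by left; left; right; exact ⟨(k, m, n), rfl⟩
  rintro x (((((⟨n, rfl⟩ | ⟨t, rfl⟩) | ⟨t, rfl⟩) | ⟨t, rfl⟩) | ⟨t, rfl⟩) | ⟨n, rfl⟩) y hy
  · obtain ⟨m, _, rfl⟩ := mem_natZ.1 hy; exact hn m
  · rcases mem_upair'.1 hy with rfl | rfl <;> exact hn _
  · have hy : y ∈ ZFSet.pair _ _ := hy
    rw [pair_eq_upair] at hy
    rcases mem_upair'.1 hy with rfl | rfl <;> exact hu _ _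
  · rcases mem_upair'.1 hy with rfl | rfl
    · exact hn _
    · exact hp _ _
  · have hy : y ∈ ZFSet.pair _ _ := hy
    rw [pair_eq_upair] at hy
    rcases mem_upair'.1 hy with rfl | rfl
    · exact hu _ _
    · exact ht _ _ _
  · exact hZ n y hy

/-- The parameters. -/
noncomputable def Zpar (n : ℕ) : ZFSet.{u} :=
  if n = 0 then relThreeZ Ttwo else if n = 1 then relZ Tthree else relZ Tfour

theorem Zpar_sub (n : ℕ) : ∀ x ∈ Zpar.{u} n, x ∈ HSet Zpar := by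
  intro x hx
  unfold Zpar at hx
  split_ifs at hx
  · obtain ⟨k, i, j, _, rfl⟩ := mem_relThreeZ.1 hx; exact triple_mem_HSet _ _ _ _
  · obtain ⟨i, j, _, rfl⟩ := mem_relZ.1 hx; exact pair_mem_HSet _ _ _
  · obtain ⟨i, j, _, rfl⟩ := mem_relZ.1 hx; exact pair_mem_HSet _ _ _

/-- The ordinal named by a name of an ordinal. -/
noncomputable def gof {Q : Type u} [Preorder Q] [OrderTop Q] (X : Name Q) : Ordinal.{u} :=
  open Classical in if h : ∃ γ, X = oName Q γ then h.choose else 0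

theorem gof_oName {Q : Type u} [Preorder Q] [OrderTop Q] (γ : Ordinal.{u}) :
    gof (oName Q γ) = γ := by
  have h : ∃ γ', oName Q γ = oName Q γ' := ⟨γ, rfl⟩
  rw [gof, dif_pos h]
  have h1 := h.choose_spec
  have h2 : feq (oName Q γ) (oName Q h.choose) (⊤ : Q) := by
    rw [← h1]; exact feq_refl _ _
  exact (feq_oName_iff.1 h2).symm

/-- The root of the tree of certificates of a real in a generic extension is alive. -/
theorem exists_alive {ψ : Fml} (hψ : ψ.Delta0) (hfree : ∀ n, ψ.Free n → n = 0 ∨ n = 1)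
    {Kr : (ℕ → ℕ) → (ℕ → ℕ) → Prop} (hK : KrClosed Kr)
    (hKP : ∀ c ε, Pr ψ c ε ↔ ∃ w, Kr c w ∧ ∀ n, (w n).unpair.1 = ε n)
    (hI : ManyInacc.{u}) (hφ : ValidStar.{u} (piTwo ψ)) {P : Type u} [PartialOrder P] [OrderTop P]
    {bb : ℕ → ℕ → P → Prop} (hb : RName bb) (p : P) :
    ∃ r ≤ p, ∀ t, Alive bb Kr r 0 t := by
  classical
  -- the parameters
  obtain ⟨eH, heH⟩ := (HSet_countable Zpar.{u}).exists_eq_range ⟨_, pair_mem_HSet _ 0 0⟩
  have htr : ∀ x ∈ HSet Zpar.{u}, ∀ y ∈ x, y ∈ HSet Zpar.{u} := HSet_trans Zpar_sub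
  let β : Ordinal.{u} := ⨆ n, Order.succ (eH n).rank
  have hβ : ∀ x ∈ HSet Zpar.{u}, x.rank < β := by
    intro x hx
    rw [heH] at hx
    obtain ⟨n, rfl⟩ := hx
    exact (Order.lt_succ _).trans_le (Ordinal.le_iSup (fun n => Order.succ (eH n).rank) n)
  obtain ⟨κ, hκ, hκi⟩ := hI (max #P β.card)
  have hPκ : #P < κ := lt_of_le_of_lt (le_max_left _ _) hκ
  have hβκ : β < κ.ord := by rw [lt_ord]; exact lt_of_le_of_lt (le_max_right _ _) hκ
  -- the names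
  let I := ULift.{u} (ℕ × ℕ)
  let e : I → ZFSet.{u} := fun t => ZFSet.pair (natZ t.down.1) (natZ t.down.2)
  have heI : ∀ t, e t ∈ HSet Zpar.{u} := fun t => pair_mem_HSet _ _ _
  let B1 : I → P → Prop := fun t r => (t.down.2 = 0 ∧ t.down.1 ≠ 0) ∨
    ∃ m' n', t.down.1 = m' + 1 ∧ t.down.2 = n' + 1 ∧ ∃ j, j ≠ 0 ∧ bb (Nat.pair m' n') j r
  let B2 : I → P → Prop := fun t r => ∃ a, Ls t.down.1 = Ls t.down.2 ++ [a] ∧
    ∃ c' w', (∀ i < (Ls t.down.1).length, bb i (c' i) r) ∧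
      Agree (Ls t.down.1).length w' (fun i => (Ls t.down.1).getD i 0) ∧ Kr c' w'
  have hB1 : ∀ i p q, q ≤ p → B1 i p → B1 i q := by
    rintro i p q hqp (h | ⟨m', n', h1, h2, j, h3, h4⟩)
    · exact Or.inl h
    · exact Or.inr ⟨m', n', h1, h2, j, h3, hb.mono _ _ _ _ hqp h4⟩
  have hB2 : ∀ i p q, q ≤ p → B2 i p → B2 i q := by
    rintro i p q hqp ⟨a, h1, c', w', h2, h3, h4⟩
    exact ⟨a, h1, c', w', fun i hi => hb.mono _ _ _ _ hqp (h2 i hi), h3, h4⟩
  let S : ℕ → NmV P κ.ord := fun n =>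
    if n = 0 then ⟨subName e B1, InV_subName _ _ ⟨β, hβκ, fun i => hβ _ (heI i)⟩⟩
    else if n = 1 then ⟨subName e B2, InV_subName _ _ ⟨β, hβκ, fun i => hβ _ (heI i)⟩⟩
    else ⟨check (eH (n - 2)), InV_check ((hβ _ (by rw [heH]; exact ⟨_, rfl⟩)).trans hβκ)⟩
  -- the dense sets
  let tt : ℕ → List (NmV P κ.ord) → ℕ → ℕ × Ordinal.{u} := fun d l i =>
    ((Ls d).getD i 0, gof (l.getD i (S 0)).1)
  let 𝒟 : ℕ → List (NmV P κ.ord) → Set P := fun k l =>
    if k.unpair.1 = 0 then {r | ∃ j, bb k.unpair.2 j r}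
    else DSet bb Kr (k.unpair.1 - 1) (tt k.unpair.2 l)
  have h𝒟 : ∀ k l, ∀ q, ∃ r ≤ q, r ∈ 𝒟 k l := by
    intro k l q
    by_cases h : k.unpair.1 = 0
    · obtain ⟨r, hr, h1⟩ := hb.dense k.unpair.2 q
      exact ⟨r, hr, by simp only [𝒟, if_pos h]; exact h1⟩
    · obtain ⟨r, hr, h1⟩ := DSet_dense (bb := bb) (Kr := Kr) (k.unpair.1 - 1) (tt k.unpair.2 l) q
      exact ⟨r, hr, by simp only [𝒟, if_neg h]; exact h1⟩
  obtain ⟨G, hGS, hGD⟩ := exists_genModel κ.ord p S 𝒟 h𝒟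
  have hZFC : ∀ χ, ZFC χ → VForces κ.ord χ p := fun χ hχ => vforces_zfc hκi hPκ hχ p
  have hN : CTM G.N := G.ctm hZFC
  have hNφ : Models G.N (piTwo ψ) := G.models_of_vforces (hφ κ.ord P p hZFC)
  -- the real
  have hc0 : ∀ i, ∃ j, ∃ n, bb i j (G.q n) := by
    intro i
    obtain ⟨n, hn⟩ := hGD (Nat.pair 0 i) []
    have h1 : G.q n ∈ {r | ∃ j, bb i j r} := by
      have : (Nat.pair 0 i).unpair.1 = 0 := by simp
      simp only [𝒟, if_pos this, Nat.unpair_pair] at hn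
      exact hn
    obtain ⟨j, hj⟩ := h1
    exact ⟨j, n, hj⟩
  choose c hc using hc0
  have hcu : ∀ i j n, bb i j (G.q n) → c i = j := by
    intro i j n h
    obtain ⟨m, hm⟩ := hc i
    exact hb.uniq i _ _ (G.q (max m n)) (hb.mono _ _ _ _ (G.anti (le_max_left _ _)) hm)
      (hb.mono _ _ _ _ (G.anti (le_max_right _ _)) h)
  -- check names
  have hcheck : ∀ x ∈ HSet Zpar.{u}, ∃ i, (G.g i).1 = check x := by
    intro x hx
    rw [heH] at hx
    obtain ⟨n, rfl⟩ := hx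
    obtain ⟨j, hj⟩ := hGS (n + 2)
    refine ⟨j, ?_⟩
    rw [hj]
    have h0 : n + 2 ≠ 0 := by omega
    have h1 : n + 2 ≠ 1 := by omega
    simp only [S, if_neg h0, if_neg h1, Nat.add_sub_cancel]
  have hZN : ∀ n, Zpar n ∈ G.N := fun n =>
    G.mem_N_of_check htr hcheck (show Zpar n ∈ HSet Zpar.{u} from Or.inr ⟨n, rfl⟩)
  have hT2 : relThreeZ.{u} Ttwo ∈ G.N := hZN 0
  have hT3 : relZ.{u} Tthree ∈ G.N := hZN 1
  have hT4 : relZ.{u} Tfour ∈ G.N := hZN 2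
  have hEp : relZ.{u} (Ep c) ∈ G.N := by
    obtain ⟨j, hj⟩ := hGS 0
    refine ⟨j, ?_⟩
    ext z
    rw [G.mem_val_subName htr hcheck heI (j := j) (by rw [hj]; rfl) hB1, mem_relZ]
    constructor
    · rintro ⟨t, ⟨n, hn⟩, rfl⟩
      refine ⟨t.down.1, t.down.2, ?_, rfl⟩
      rcases hn with h | ⟨m', n', h1, h2, j, h3, h4⟩
      · exact Or.inl h
      · refine Or.inr ⟨m', n', h1, h2, ?_⟩
        rw [Ec, hcu _ _ _ h4]; exact h3
    · rintro ⟨m, n, h, rfl⟩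
      refine ⟨⟨(m, n)⟩, ?_, rfl⟩
      rcases h with h | ⟨m', n', h1, h2, h3⟩
      · exact ⟨0, Or.inl h⟩
      · obtain ⟨k, hk⟩ := hc (Nat.pair m' n')
        exact ⟨k, Or.inr ⟨m', n', h1, h2, _, h3, hk⟩⟩
  have hbbn : ∀ (c' : ℕ → ℕ) n, Agree n c' c → ∃ k, ∀ i < n, bb i (c' i) (G.q k) := by
    intro c' n
    induction n with
    | zero => exact fun _ => ⟨0, fun i hi => (Nat.not_lt_zero _ hi).elim⟩
    | succ n ih =>
      intro hag
      obtain ⟨k1, h1⟩ := ih (hag.mono (Nat.le_succ n))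
      obtain ⟨k2, h2⟩ := hc n
      refine ⟨max k1 k2, fun i hi => ?_⟩
      rcases Nat.lt_succ_iff_lt_or_eq.1 hi with h | rfl
      · exact hb.mono _ _ _ _ (G.anti (le_max_left _ _)) (h1 i h)
      · rw [hag i hi]
        exact hb.mono _ _ _ _ (G.anti (le_max_right _ _)) h2
  have hP1 : relZ.{u} (Pone Kr c) ∈ G.N := by
    obtain ⟨j, hj⟩ := hGS 1
    refine ⟨j, ?_⟩
    ext z
    rw [G.mem_val_subName htr hcheck heI (j := j) (by rw [hj]; rfl) hB2, mem_relZ]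
    constructor
    · rintro ⟨t, ⟨n, hn⟩, rfl⟩
      refine ⟨t.down.1, t.down.2, ?_, rfl⟩
      obtain ⟨a, h1, c', w', h2, h3, h4⟩ := hn
      exact ⟨a, h1, c', w', fun i hi => (hcu _ _ _ (h2 i hi)).symm, h3, h4⟩
    · rintro ⟨m, n, h, rfl⟩
      refine ⟨⟨(m, n)⟩, ?_, rfl⟩
      obtain ⟨a, h1, c', w', h2, h3, h4⟩ := h
      obtain ⟨k, hk⟩ := hbbn c' _ h2
      exact ⟨k, a, h1, c', w', hk, h3, h4⟩
  -- the certificate
  obtain ⟨h, hh, hhN⟩ := hN.exists_cert hP1 hT2 hT3 hT4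
    (hN.exists_branch hψ hfree hK hKP hNφ hEp)
  have hh' : Cert Kr c (fun i => ((h i).1, G.pull (h i).2)) :=
    hh.map fun i j => (G.pull_lt (hhN i) (hhN j)).symm
  obtain ⟨k, hk⟩ := exists_alive_of_generic hb G.anti (fun i => hc i) hh' (fun n => by
    choose jj hj1 hj2 using fun i => G.pull_spec (hhN i)
    obtain ⟨k, hk⟩ := hGD (Nat.pair (n + 1) (ini (fun i => (h i).1) n)) ((List.range n).map jj)
    refine ⟨k, ?_⟩
    have h0 : ¬ (Nat.pair (n + 1) (ini (fun i => (h i).1) n)).unpair.1 = 0 := by simp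
    simp only [𝒟, if_neg h0, Nat.unpair_pair, Nat.add_sub_cancel] at hk
    refine DSet_congr (fun i hi => ?_) hk
    simp only [tt]
    rw [getD_Ls_ini (fun i => (h i).1) hi, List.getD_eq_getElem _ _ (by simpa using hi)]
    simp only [List.getElem_map, List.getElem_range]
    rw [hj1, gof_oName])
  refine ⟨G.q k, (G.anti (Nat.zero_le k)).trans G.q0.le, fun t => hk.congr (agree_zero _ _)⟩

end Pool.Agent.H17.Omega
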