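import Pool.Agent.H17.Omega.Collapse

/-!
# Countable generic models: basic properties
-/

set_option autoImplicit false
set_option linter.unusedVariables false
set_option linter.unusedSectionVars false
set_option linter.unusedSimpArgs false
set_option linter.deprecated false

universe u v w

namespace Pool.Agent.H17.Omega

open Name

namespace Name

variable {Q : Type u}

theorem check_def (x : ZFSet.{u}) : (check x : Name Q) = Name.mk (Shrink.{u} {y : ZFSet.{u} // y ∈ x} × Q)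
    (fun i => check ((equivShrink _).symm i.1).1) (fun i => i.2) := by
  rw [check]

theorem check_el (x : ZFSet.{u}) (i : (check x : Name Q).ι) :
    ∃ y ∈ x, (check x : Name Q).el i = check y := by
  revert i
  rw [check_def]
  intro i
  exact ⟨_, ((equivShrink _).symm i.1).2, rfl⟩

theorem check_exists (x y : ZFSet.{u}) (h : y ∈ x) (q : Q) :
    ∃ i, (check x : Name Q).el i = check y ∧ (check x : Name Q).cd i = q := by
  rw [check_def]
  refine ⟨(equivShrink _ ⟨y, h⟩, q), ?_, rfl⟩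
  simp [Equiv.symm_apply_apply]

theorem rk_check_le (x : ZFSet.{u}) : (check x : Name Q).rk ≤ x.rank := by
  induction x using ZFSet.inductionOn with
  | _ x ih =>
    rw [rk_def]
    refine Ordinal.iSup_le fun i => ?_
    obtain ⟨y, hy, h⟩ := check_el (Q := Q) x i
    rw [h]
    exact Order.succ_le_of_lt ((ih y hy).trans_lt (ZFSet.rank_lt_of_mem hy))

theorem InV_check {x : ZFSet.{u}} {α : Ordinal.{u}} (h : x.rank < α) : (check x : Name Q).InV α :=
  InV_iff.2 ((rk_check_le x).trans_lt h)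

variable [Preorder Q]

theorem fmem_check {x : ZFSet.{u}} {X : Name Q} {p : Q} :
    fmem X (check x) p ↔ ∀ q ≤ p, ∃ r ≤ q, ∃ y ∈ x, feq X (check y) r := by
  constructor
  · intro h q hq
    obtain ⟨r, hr, i, h1, h2⟩ := h q hq
    obtain ⟨y, hy, h3⟩ := check_el (Q := Q) x i
    exact ⟨r, hr, y, hy, h3 ▸ h2⟩
  · intro h q hq
    obtain ⟨r, hr, y, hy, h2⟩ := h q hq
    obtain ⟨i, h3, h4⟩ := check_exists x y hy r
    exact ⟨r, hr, i, h4.ge, h3 ▸ h2⟩

theorem fmem_check_of_mem {x y : ZFSet.{u}} (h : y ∈ x) (p : Q) : fmem (check y) (check x) p :=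
  fmem_check.2 fun q _ => ⟨q, le_rfl, y, h, feq_refl _ _⟩

theorem feq_check_iff {x y : ZFSet.{u}} {p : Q} : feq (check x) (check y) p ↔ x = y := by
  constructor
  · revert y p
    induction x using ZFSet.inductionOn with
    | _ x ih =>
      intro y p h
      apply ZFSet.ext
      intro z
      constructor
      · intro hz
        have h1 := fmem_congr_right h (fmem_check_of_mem hz p)
        obtain ⟨r, hr, y', hy', h2⟩ := fmem_check.1 h1 p le_rfl
        rw [ih z hz h2]; exact hy'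
      · intro hz
        have h1 := fmem_congr_right (feq_symm h) (fmem_check_of_mem hz p)
        obtain ⟨r, hr, y', hy', h2⟩ := fmem_check.1 h1 p le_rfl
        rw [← ih y' hy' (feq_symm h2)]; exact hy'
  · rintro rfl; exact feq_refl _ _

theorem fmem_check_iff {x y : ZFSet.{u}} {p : Q} : fmem (check y) (check x) p ↔ y ∈ x := by
  constructor
  · intro h
    obtain ⟨r, hr, z, hz, h2⟩ := fmem_check.1 h p le_rfl
    rw [feq_check_iff.1 h2]; exact hz
  · intro h; exact fmem_check_of_mem h p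

end Name

namespace GenModel

variable {Q : Type u} [Preorder Q] [OrderTop Q] {α : Ordinal.{u}} {p : Q} (G : GenModel Q α p)

/-- The model. -/
def N : Set ZFSet.{u} := Set.range G.val

theorem val_mem_N (i : ℕ) : G.val i ∈ G.N := ⟨i, rfl⟩

theorem val_mem_val (i j : ℕ) : G.val i ∈ G.val j ↔ ∃ n, fmem (G.g i).1 (G.g j).1 (G.q n) := by
  rw [G.mem_val]
  constructor
  · rintro ⟨k, ⟨n, hn⟩, h⟩
    obtain ⟨m, hm⟩ := (G.val_eq _ _).1 h
    exact ⟨max n m, fmem_congr_left (feq_mono (G.anti (le_max_right _ _)) hm)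
      (fmem_mono (G.anti (le_max_left _ _)) hn)⟩
  · intro h; exact ⟨i, h, rfl⟩

theorem trans {x : ZFSet.{u}} (hx : x ∈ G.N) {y : ZFSet.{u}} (hy : y ∈ x) : y ∈ G.N := by
  obtain ⟨i, rfl⟩ := hx
  obtain ⟨j, _, rfl⟩ := (G.mem_val _ _).1 hy
  exact ⟨j, rfl⟩

theorem models_of_vforces {φ : Fml} (h : VForces α φ p) : Models G.N φ := by
  intro f
  choose k hk using fun i => (f i).2
  have hf : f = fun i => (⟨G.val (k i), _, rfl⟩ : Set.range G.val) := by
    funext i; exact Subtype.ext (hk i).symm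
  rw [hf]
  exact (G.truth φ k).2 ⟨0, by rw [G.q0]; exact h _⟩

theorem ctm (h : ∀ ψ, ZFC ψ → VForces α ψ p) : CTM G.N where
  nonempty := ⟨_, G.val_mem_N 0⟩
  countable := Set.countable_range _
  trans := fun x hx y hy => G.trans hx hy
  zfc := fun ψ hψ => G.models_of_vforces (h ψ hψ)

/-- Elements of a value have names in the support of the name. -/
theorem exists_el {z : ZFSet.{u}} {j : ℕ} (h : z ∈ G.val j) : ∃ k m a, (G.g k).1 = (G.g j).1.el a ∧
    G.q m ≤ (G.g j).1.cd a ∧ G.val k = z := by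
  obtain ⟨i, ⟨n, hn⟩, rfl⟩ := (G.mem_val _ _).1 h
  obtain ⟨m, k, a, h1, h2, h3⟩ := G.el i j n hn
  exact ⟨k, m, a, h1, h2, ((G.val_eq _ _).2 ⟨m, h3⟩).symm⟩

theorem val_congr {i j : ℕ} (h : (G.g i).1 = (G.g j).1) : G.val i = G.val j :=
  (G.val_eq _ _).2 ⟨0, h ▸ feq_refl _ _⟩

/-! ### Ordinals -/

theorem val_oName_lt {i j : ℕ} {β γ : Ordinal.{u}} (hi : (G.g i).1 = oName Q β)
    (hj : (G.g j).1 = oName Q γ) : G.val i ∈ G.val j ↔ β < γ := by
  rw [val_mem_val, hi, hj]
  constructor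
  · rintro ⟨n, h⟩; exact fmem_oName_iff.1 h
  · intro h; exact ⟨0, fmem_oName_iff.2 h⟩

theorem _root_.Pool.Agent.H17.Omega.Name.oName_el {X : Name Q} {γ : Ordinal.{u}}
    (h : X = oName Q γ) (a : X.ι) : ∃ β < γ, X.el a = oName Q β := by
  subst h
  revert a
  rw [oName]
  intro a
  exact ⟨_, (Ordinal.ToType.toOrd a).2, rfl⟩

theorem mem_val_oName {z : ZFSet.{u}} {j : ℕ} {γ : Ordinal.{u}} (hj : (G.g j).1 = oName Q γ)
    (h : z ∈ G.val j) : ∃ k, ∃ β < γ, (G.g k).1 = oName Q β ∧ G.val k = z := by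
  obtain ⟨k, m, a, h1, h2, rfl⟩ := G.exists_el h
  obtain ⟨β, hβ, h3⟩ := oName_el hj a
  exact ⟨k, β, hβ, h1.trans h3, rfl⟩

theorem isOrdinal_val {γ : Ordinal.{u}} : ∀ {j : ℕ}, (G.g j).1 = oName Q γ →
    (G.val j).IsOrdinal := by
  induction γ using WellFoundedLT.induction with
  | ind γ ih =>
    intro j hj
    rw [ZFSet.isOrdinal_iff_forall_mem_isOrdinal]
    constructor
    · intro y hy z hz
      obtain ⟨k, β, hβ, h1, rfl⟩ := G.mem_val_oName hj hy
      obtain ⟨l, δ, hδ, h2, rfl⟩ := G.mem_val_oName h1 hz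
      exact (G.val_oName_lt h2 hj).2 (hδ.trans hβ)
    · intro y hy
      obtain ⟨k, β, hβ, h1, rfl⟩ := G.mem_val_oName hj hy
      exact ih β hβ h1

theorem rank_val_le {γ : Ordinal.{u}} : ∀ {i j : ℕ}, rk (G.g i).1 = γ →
    (G.g j).1 = oName Q γ → (G.val i).rank ≤ (G.val j).rank := by
  induction γ using WellFoundedLT.induction with
  | ind γ ih =>
    intro i j hi hj
    rw [ZFSet.rank_le_iff]
    intro z hz
    obtain ⟨k, m, a, h1, h2, rfl⟩ := G.exists_el hz
    have hlt : rk (G.g k).1 < γ := by rw [← hi, h1]; exact rk_el_lt _ _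
    obtain ⟨l, hl⟩ := G.oname k
    exact (ih _ hlt rfl hl).trans_lt (ZFSet.rank_lt_of_mem ((G.val_oName_lt hl hj).2 hlt))

/-- Every ordinal of the model is the value of the name of an ordinal. -/
theorem exists_oName {i : ℕ} (h : (G.val i).IsOrdinal) :
    ∃ j γ, (G.g j).1 = oName Q γ ∧ G.val j = G.val i := by
  obtain ⟨j, hj⟩ := G.oname i
  have h1 := G.rank_val_le rfl hj
  have h2 := G.isOrdinal_val hj
  rw [ZFSet.IsOrdinal.rank_le_iff_subset h h2, ZFSet.IsOrdinal.subset_iff_eq_or_mem h h2] at h1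
  rcases h1 with h1 | h1
  · exact ⟨j, _, hj, h1.symm⟩
  · obtain ⟨k, β, hβ, h3, h4⟩ := G.mem_val_oName hj h1
    exact ⟨k, β, h3, h4⟩

/-- The pull back of the ordinals of the model: for an ordinal `o` of the model there is a name
`oName γ` whose value is `o`. -/
theorem exists_pull {o : Ordinal.{u}} (ho : o.toZFSet ∈ G.N) :
    ∃ γ : Ordinal.{u}, ∃ j, (G.g j).1 = oName Q γ ∧ G.val j = o.toZFSet := by
  obtain ⟨i, hi⟩ := ho
  obtain ⟨j, γ, h1, h2⟩ := G.exists_oName (i := i) (by rw [hi]; exact ZFSet.isOrdinal_toZFSet _)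
  exact ⟨γ, j, h1, h2.trans hi⟩

/-- The pull back function. -/
noncomputable def pull (o : Ordinal.{u}) : Ordinal.{u} :=
  open Classical in if ho : o.toZFSet ∈ G.N then (G.exists_pull ho).choose else 0

theorem pull_spec {o : Ordinal.{u}} (ho : o.toZFSet ∈ G.N) :
    ∃ j, (G.g j).1 = oName Q (G.pull o) ∧ G.val j = o.toZFSet := by
  rw [pull, dif_pos ho]
  exact (G.exists_pull ho).choose_spec

theorem pull_lt {o o' : Ordinal.{u}} (ho : o.toZFSet ∈ G.N) (ho' : o'.toZFSet ∈ G.N) :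
    G.pull o < G.pull o' ↔ o < o' := by
  obtain ⟨j, h1, h2⟩ := G.pull_spec ho
  obtain ⟨j', h1', h2'⟩ := G.pull_spec ho'
  rw [← G.val_oName_lt h1 h1', h2, h2', Ordinal.toZFSet_mem_toZFSet_iff]

/-! ### Check names -/

theorem val_check {H : Set ZFSet.{u}} (htr : ∀ x ∈ H, ∀ y ∈ x, y ∈ H)
    (hH : ∀ x ∈ H, ∃ i, (G.g i).1 = check x) (x : ZFSet.{u}) (hx : x ∈ H) :
    ∀ i, (G.g i).1 = check x → G.val i = x := by
  induction x using ZFSet.inductionOn with
  | _ x ih =>
    intro i hi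
    apply ZFSet.ext
    intro z
    constructor
    · intro hz
      obtain ⟨k, ⟨n, hn⟩, rfl⟩ := (G.mem_val _ _).1 hz
      rw [hi] at hn
      obtain ⟨m, j, a, h1, h2, h3⟩ := G.el k i n (by rw [hi]; exact hn)
      have : ∃ y ∈ x, (G.g i).1.el a = check y := by
        revert a
        rw [hi]
        intro a _ _
        exact check_el x a
      obtain ⟨y, hy, h4⟩ := this
      have h5 : (G.g j).1 = check y := h1.trans h4
      rw [(G.val_eq _ _).2 ⟨m, h3⟩, ih y hy (htr x hx y hy) j h5]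
      exact hy
    · intro hz
      obtain ⟨k, hk⟩ := hH z (htr x hx z hz)
      rw [← ih z hz (htr x hx z hz) k hk, val_mem_val, hk, hi]
      exact ⟨0, fmem_check_of_mem hz _⟩

theorem mem_N_of_check {H : Set ZFSet.{u}} (htr : ∀ x ∈ H, ∀ y ∈ x, y ∈ H)
    (hH : ∀ x ∈ H, ∃ i, (G.g i).1 = check x) {x : ZFSet.{u}} (hx : x ∈ H) : x ∈ G.N := by
  obtain ⟨i, hi⟩ := hH x hx
  exact ⟨i, G.val_check htr hH x hx i hi⟩

end GenModel

/-! ### Names of subsets of ground model sets -/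

/-- The name of a subset `{y : ∃ i, y = e i ∧ B i ∈ G}` of a ground model set. -/
noncomputable def subName {Q : Type u} {I : Type u} (e : I → ZFSet.{u}) (B : I → Q → Prop) : Name Q :=
  Name.mk {t : I × Q // B t.1 t.2} (fun t => check (e t.1.1)) (fun t => t.1.2)

theorem InV_subName {Q : Type u} [Preorder Q] {I : Type u} (e : I → ZFSet.{u}) (B : I → Q → Prop)
    {α : Ordinal.{u}} (h : ∃ β < α, ∀ i, (e i).rank < β) : (subName e B).InV α := by
  obtain ⟨β, hβ, h⟩ := h
  exact InV_mk ⟨β, hβ, fun t => InV_check (h _)⟩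

namespace GenModel

variable {Q : Type u} [Preorder Q] [OrderTop Q] {α : Ordinal.{u}} {p : Q} (G : GenModel Q α p)

theorem mem_val_subName {H : Set ZFSet.{u}} (htr : ∀ x ∈ H, ∀ y ∈ x, y ∈ H)
    (hH : ∀ x ∈ H, ∃ i, (G.g i).1 = check x) {I : Type u} {e : I → ZFSet.{u}} {B : I → Q → Prop}
    (he : ∀ i, e i ∈ H) {j : ℕ} (hj : (G.g j).1 = subName e B)
    (hB : ∀ i p q, q ≤ p → B i p → B i q) (z : ZFSet.{u}) :
    z ∈ G.val j ↔ ∃ i, (∃ n, B i (G.q n)) ∧ e i = z := by
  constructor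
  · intro hz
    obtain ⟨k, m, a, h1, h2, rfl⟩ := G.exists_el hz
    have : ∃ i, B i (G.q m) ∧ (G.g k).1 = check (e i) := by
      revert a
      rw [hj]
      rintro ⟨⟨i, q⟩, hq⟩ h1 h2
      exact ⟨i, hB i _ _ h2 hq, h1⟩
    obtain ⟨i, h3, h4⟩ := this
    exact ⟨i, ⟨m, h3⟩, (G.val_check htr hH _ (he i) k h4).symm⟩
  · rintro ⟨i, ⟨n, hn⟩, rfl⟩
    obtain ⟨k, hk⟩ := hH _ (he i)
    rw [← G.val_check htr hH _ (he i) k hk, val_mem_val, hk, hj]
    refine ⟨n, ?_⟩
    exact fmem_el (X := subName e B) (i := ⟨(i, G.q n), hn⟩) le_rfl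

end GenModel

end Pool.Agent.H17.Omega
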