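import Mathlib

/-!
# Category arguments in arbitrary topological spaces
-/

set_option autoImplicit false
set_option linter.unusedVariables false
set_option linter.unusedSectionVars false
set_option linter.unusedSimpArgs false
set_option linter.deprecated false

universe u v w

namespace Pool.Agent.H17.Omega

section Meager

variable {X : Type u} [TopologicalSpace X]

theorem isNowhereDense_of {s : Set X} (h : ∀ V : Set X, IsOpen V → V.Nonempty → ∃ V' ⊆ V, IsOpen V' ∧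
    V'.Nonempty ∧ Disjoint V' s) : IsNowhereDense s := by
  rw [IsNowhereDense]
  by_contra hne
  obtain ⟨V', hV', ho, hn, hd⟩ := h _ isOpen_interior (Set.nonempty_iff_ne_empty.2 hne)
  obtain ⟨x, hx⟩ := hn
  have h1 : x ∈ closure s := interior_subset (hV' hx)
  rw [mem_closure_iff] at h1
  obtain ⟨y, hy, hy'⟩ := h1 V' ho hx
  exact Set.disjoint_left.1 hd hy hy'

theorem exists_disjoint_of_nd {s : Set X} (h : IsNowhereDense s) {V : Set X}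
    (hV : IsOpen V) (hn : V.Nonempty) : ∃ V' ⊆ V, IsOpen V' ∧ V'.Nonempty ∧ Disjoint V' s := by
  refine ⟨V \ closure s, Set.sdiff_subset, hV.sdiff isClosed_closure, ?_, ?_⟩
  · by_contra hne
    rw [Set.not_nonempty_iff_eq_empty, Set.sdiff_eq_empty] at hne
    have h1 : V ⊆ interior (closure s) := interior_maximal hne hV
    rw [IsNowhereDense] at h
    rw [h] at h1
    obtain ⟨x, hx⟩ := hn
    exact h1 hx
  · exact Set.disjoint_left.2 fun x hx hx' => hx.2 (subset_closure hx')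

/-- Maximal disjoint families. -/
theorem exists_disjoint_family (𝒮 : Set (Set X)) (hne : ∀ V ∈ 𝒮, V.Nonempty) :
    ∃ 𝒜 ⊆ 𝒮, (∀ V ∈ 𝒜, ∀ V' ∈ 𝒜, (V ∩ V').Nonempty → V = V') ∧
      ∀ V ∈ 𝒮, ∃ V' ∈ 𝒜, (V ∩ V').Nonempty := by
  obtain ⟨𝒜, h𝒜⟩ := zorn_subset {𝒜 : Set (Set X) | 𝒜 ⊆ 𝒮 ∧
    ∀ V ∈ 𝒜, ∀ V' ∈ 𝒜, (V ∩ V').Nonempty → V = V'} (by
      intro C hC hchain
      refine ⟨⋃₀ C, ⟨?_, ?_⟩, fun s hs => Set.subset_sUnion_of_mem hs⟩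
      · exact Set.sUnion_subset fun s hs => (hC hs).1
      · rintro V ⟨s, hs, hVs⟩ V' ⟨s', hs', hVs'⟩ hVV'
        rcases hchain.total hs hs' with h | h
        · exact (hC hs').2 V (h hVs) V' hVs' hVV'
        · exact (hC hs).2 V hVs V' (h hVs') hVV')
  refine ⟨𝒜, h𝒜.prop.1, h𝒜.prop.2, fun V hV => ?_⟩
  by_contra hc
  push Not at hc
  have h1 : insert V 𝒜 ∈ {𝒜 : Set (Set X) | 𝒜 ⊆ 𝒮 ∧
      ∀ V ∈ 𝒜, ∀ V' ∈ 𝒜, (V ∩ V').Nonempty → V = V'} := by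
    refine ⟨Set.insert_subset hV h𝒜.prop.1, ?_⟩
    rintro W (rfl | hW) W' (rfl | hW') hWW'
    · rfl
    · exact (hWW'.ne_empty (hc W' hW')).elim
    · rw [Set.inter_comm] at hWW'
      exact (hWW'.ne_empty (hc W hW)).elim
    · exact h𝒜.prop.2 W hW W' hW' hWW'
  have h2 : V ∈ 𝒜 := h𝒜.le_of_ge h1 (Set.subset_insert _ _) (Set.mem_insert _ _)
  have := hc V h2
  rw [Set.inter_self] at this
  exact (hne V hV).ne_empty this

/-- A union of meager sets contained in pairwise disjoint open sets is meager. -/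
theorem isMeagre_of_disjoint (𝒜 : Set (Set X)) (ho : ∀ V ∈ 𝒜, IsOpen V)
    (hd : ∀ V ∈ 𝒜, ∀ V' ∈ 𝒜, (V ∩ V').Nonempty → V = V') (M : Set X)
    (hM : ∀ V ∈ 𝒜, IsMeagre (V ∩ M)) (hsub : M ⊆ ⋃₀ 𝒜) : IsMeagre M := by
  have h1 : ∀ V : 𝒜, ∃ C : ℕ → Set X, (∀ n, IsNowhereDense (C n)) ∧ V.1 ∩ M ⊆ ⋃ n, C n := by
    intro V
    obtain ⟨S, hS, hc, hsub⟩ := isMeagre_iff_countable_union_isNowhereDense.1 (hM V.1 V.2)
    rcases S.eq_empty_or_nonempty with rfl | hne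
    · exact ⟨fun _ => ∅, fun _ => isNowhereDense_empty, hsub.trans (by simp)⟩
    · obtain ⟨C, rfl⟩ := hc.exists_eq_range hne
      exact ⟨C, fun n => hS _ ⟨n, rfl⟩, by rwa [Set.sUnion_range] at hsub⟩
  choose C hC1 hC2 using h1
  have h2 : ∀ n, IsNowhereDense (⋃ V : 𝒜, V.1 ∩ C V n) := by
    intro n
    apply isNowhereDense_of
    intro W hW hWn
    by_cases h : ∃ V : 𝒜, (W ∩ V.1).Nonempty
    · obtain ⟨V, hV⟩ := h
      obtain ⟨W', h3, h4, h5, h6⟩ := exists_disjoint_of_nd (hC1 V n) (hW.inter (ho V.1 V.2)) hV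
      refine ⟨W', h3.trans Set.inter_subset_left, h4, h5, ?_⟩
      rw [Set.disjoint_left]
      intro x hx hx'
      obtain ⟨V', hxV', hxC⟩ := Set.mem_iUnion.1 hx'
      have h7 : V = V' := Subtype.ext (hd V.1 V.2 V'.1 V'.2 ⟨x, (h3 hx).2, hxV'⟩)
      subst h7
      exact Set.disjoint_left.1 h6 hx hxC
    · push Not at h
      refine ⟨W, subset_rfl, hW, hWn, ?_⟩
      rw [Set.disjoint_left]
      intro x hx hx'
      obtain ⟨V', hxV', _⟩ := Set.mem_iUnion.1 hx'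
      have := h V'
      exact (Set.eq_empty_iff_forall_notMem.1 this x) ⟨hx, hxV'⟩
  refine (isMeagre_iUnion fun n => (h2 n).isMeagre).mono ?_
  intro x hx
  obtain ⟨V, hV, hxV⟩ := hsub hx
  obtain ⟨n, hn⟩ := Set.mem_iUnion.1 (hC2 ⟨V, hV⟩ ⟨hxV, hx⟩)
  exact Set.mem_iUnion.2 ⟨n, Set.mem_iUnion.2 ⟨⟨V, hV⟩, hxV, hn⟩⟩

/-- The complement of the union of a maximal family is nowhere dense. -/
theorem isNowhereDense_compl {𝒮 : Set (Set X)} (hd : ∀ V : Set X, IsOpen V → V.Nonempty →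
    ∃ V' ⊆ V, V' ∈ 𝒮 ∧ IsOpen V') (𝒜 : Set (Set X)) (ho : ∀ V ∈ 𝒜, IsOpen V)
    (hA : ∀ V ∈ 𝒮, ∃ V' ∈ 𝒜, (V ∩ V').Nonempty) : IsNowhereDense (⋃₀ 𝒜)ᶜ := by
  apply isNowhereDense_of
  intro V hV hVn
  obtain ⟨V', h1, h2, h3⟩ := hd V hV hVn
  obtain ⟨W, hW, hW'⟩ := hA V' h2
  refine ⟨V' ∩ W, Set.inter_subset_left.trans h1, h3.inter (ho W hW), hW', ?_⟩
  rw [Set.disjoint_left]
  intro x hx hx'
  exact hx' ⟨W, hW, hx.2⟩

/-- A set that is locally (on a dense family of open sets) meager or comeager has the property of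
Baire. -/
theorem baireMeasurableSet_of_local {Y : Set X} (h : ∀ V : Set X, IsOpen V → V.Nonempty →
    ∃ V' ⊆ V, IsOpen V' ∧ V'.Nonempty ∧ (IsMeagre (V' ∩ Y) ∨ IsMeagre (V' \ Y))) :
    BaireMeasurableSet Y := by
  set 𝒮 : Set (Set X) := {V | IsOpen V ∧ V.Nonempty ∧ (IsMeagre (V ∩ Y) ∨ IsMeagre (V \ Y))} with h𝒮
  obtain ⟨𝒜, hA1, hA2, hA3⟩ := exists_disjoint_family 𝒮 fun V hV => hV.2.1
  have ho : ∀ V ∈ 𝒜, IsOpen V := fun V hV => (hA1 hV).1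
  have hnd : IsNowhereDense (⋃₀ 𝒜)ᶜ := isNowhereDense_compl (𝒮 := 𝒮) (fun V hV hVn => by
    obtain ⟨V', h1, h2, h3, h4⟩ := h V hV hVn
    exact ⟨V', h1, ⟨h2, h3, h4⟩, h2⟩) 𝒜 ho hA3
  set O : Set X := ⋃₀ {V | V ∈ 𝒜 ∧ IsMeagre (V \ Y)} with hO
  have hOo : IsOpen O := isOpen_sUnion fun V hV => ho V hV.1
  have hmem : ∀ V ∈ 𝒜, ∀ x ∈ V, x ∈ O ↔ IsMeagre (V \ Y) := by
    intro V hV x hx
    constructor
    · rintro ⟨V', ⟨hV', hm⟩, hx'⟩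
      rw [hA2 V hV V' hV' ⟨x, hx, hx'⟩]; exact hm
    · intro hm; exact ⟨V, ⟨hV, hm⟩, hx⟩
  refine hOo.baireMeasurableSet.congr ?_
  have hM : IsMeagre ((O \ Y) ∪ (Y \ O)) := by
    refine (hnd.isMeagre.union (isMeagre_of_disjoint 𝒜 ho hA2
      (((O \ Y) ∪ (Y \ O)) ∩ ⋃₀ 𝒜) (fun V hV => ?_) Set.inter_subset_right)).mono ?_
    · rcases (hA1 hV).2.2 with h1 | h1
      · by_cases h2 : IsMeagre (V \ Y)
        · refine (h1.union h2).mono fun x hx => ?_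
          by_cases hxY : x ∈ Y
          · exact Or.inl ⟨hx.1, hxY⟩
          · exact Or.inr ⟨hx.1, hxY⟩
        · refine h1.mono fun x hx => ?_
          rcases hx.2.1 with h3 | h3
          · exact (h2 ((hmem V hV x hx.1).1 h3.1)).elim
          · exact ⟨hx.1, h3.1⟩
      · refine h1.mono fun x hx => ?_
        rcases hx.2.1 with h3 | h3
        · exact ⟨hx.1, h3.2⟩
        · exact (h3.2 ((hmem V hV x hx.1).2 h1)).elim
    · intro x hx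
      by_cases hx' : x ∈ ⋃₀ 𝒜
      · exact Or.inr ⟨hx, hx'⟩
      · exact Or.inl hx'
  rw [IsMeagre] at hM
  filter_upwards [hM] with x hx
  apply propext
  constructor
  · intro h1
    by_contra h2
    exact hx (Or.inl ⟨h1, h2⟩)
  · intro h1
    by_contra h2
    exact hx (Or.inr ⟨h1, h2⟩)

/-- The branch lemma: in a system where every stage can be refined below every open set, almost
every point lies on a branch. -/
theorem branch_lemma {S : Type v} (𝒲 : Set X → S → Prop)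
    (hopen : ∀ V s, 𝒲 V s → IsOpen V ∧ V.Nonempty) (Ext : S → Set X → S → Prop)
    (hstep : ∀ V s, 𝒲 V s → ∀ V1 ⊆ V, IsOpen V1 → V1.Nonempty →
      ∃ V' ⊆ V1, ∃ s', 𝒲 V' s' ∧ Ext s V' s') (V0 : Set X) (s0 : S) (h0 : 𝒲 V0 s0) :
    IsMeagre {x ∈ V0 | ¬ ∃ st : ℕ → Set X × S, st 0 = (V0, s0) ∧
      ∀ m, 𝒲 (st m).1 (st m).2 ∧ Ext (st m).2 (st (m + 1)).1 (st (m + 1)).2 ∧ x ∈ (st m).1} := by
  -- next families
  have hnext : ∀ V s, ∃ 𝒜 : Set (Set X), 𝒲 V s →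
      ((∀ V' ∈ 𝒜, V' ⊆ V ∧ ∃ s', 𝒲 V' s' ∧ Ext s V' s') ∧
      (∀ V ∈ 𝒜, ∀ V' ∈ 𝒜, (V ∩ V').Nonempty → V = V') ∧
      ∀ V1 ⊆ V, IsOpen V1 → V1.Nonempty → ∃ V' ∈ 𝒜, (V1 ∩ V').Nonempty) := by
    intro V s
    by_cases hW : 𝒲 V s
    · obtain ⟨𝒜, hA1, hA2, hA3⟩ := exists_disjoint_family
        {V' | V' ⊆ V ∧ ∃ s', 𝒲 V' s' ∧ Ext s V' s'}
        (fun V' hV' => by obtain ⟨_, s', h1, _⟩ := hV'; exact (hopen _ _ h1).2)
      refine ⟨𝒜, fun _ => ⟨fun V' hV' => hA1 hV', hA2, fun V1 hV1 ho hn => ?_⟩⟩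
      obtain ⟨V', h1, s', h2, h3⟩ := hstep V s hW V1 hV1 ho hn
      obtain ⟨V'', h4, h5⟩ := hA3 V' ⟨h1.trans hV1, s', h2, h3⟩
      exact ⟨V'', h4, h5.mono (Set.inter_subset_inter_left _ h1)⟩
    · exact ⟨∅, fun h => (hW h).elim⟩
  choose 𝒩 h𝒩 using hnext
  have hsel : ∀ (V : Set X) (s : S) (V' : Set X), ∃ s', 𝒲 V s → V' ∈ 𝒩 V s →
      𝒲 V' s' ∧ Ext s V' s' := by
    intro V s V'
    by_cases h : 𝒲 V s ∧ V' ∈ 𝒩 V s
    · obtain ⟨_, s', h1⟩ := (h𝒩 V s h.1).1 V' h.2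
      exact ⟨s', fun _ _ => h1⟩
    · exact ⟨s, fun h1 h2 => (h ⟨h1, h2⟩).elim⟩
  choose σ hσ using hsel
  -- levels
  let 𝓕 : ℕ → Set (Set X × S) := fun m => Nat.rec {(V0, s0)}
    (fun _ F => {p | ∃ V s, (V, s) ∈ F ∧ p.1 ∈ 𝒩 V s ∧ p.2 = σ V s p.1}) m
  have hF0 : 𝓕 0 = {(V0, s0)} := rfl
  have hFs : ∀ m, 𝓕 (m + 1) = {p | ∃ V s, (V, s) ∈ 𝓕 m ∧ p.1 ∈ 𝒩 V s ∧ p.2 = σ V s p.1} :=
    fun m => rfl
  have hFW : ∀ m, ∀ p ∈ 𝓕 m, 𝒲 p.1 p.2 := by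
    intro m
    induction m with
    | zero => rintro p hp; rw [hF0, Set.mem_singleton_iff] at hp; rw [hp]; exact h0
    | succ m ih =>
      rintro ⟨V', s'⟩ ⟨V, s, h1, h2, h3⟩
      have h3 : s' = σ V s V' := h3
      rw [h3]
      exact (hσ V s V' (ih _ h1) h2).1
  have hFd : ∀ m, ∀ p ∈ 𝓕 m, ∀ p' ∈ 𝓕 m, (p.1 ∩ p'.1).Nonempty → p = p' := by
    intro m
    induction m with
    | zero =>
      intro p hp p' hp' _
      rw [hF0, Set.mem_singleton_iff] at hp hp'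
      rw [hp, hp']
    | succ m ih =>
      rintro ⟨V', s'⟩ ⟨V, s, h1, h2, h3⟩ ⟨V'', s''⟩ ⟨V1, s1, h1', h2', h3'⟩ ⟨x, hx, hx'⟩
      have h3 : s' = σ V s V' := h3
      have h3' : s'' = σ V1 s1 V'' := h3'
      have hs1 : V' ⊆ V := ((h𝒩 V s (hFW m _ h1)).1 V' h2).1
      have hs2 : V'' ⊆ V1 := ((h𝒩 V1 s1 (hFW m _ h1')).1 V'' h2').1
      have he := ih _ h1 _ h1' ⟨x, hs1 hx, hs2 hx'⟩
      rw [Prod.mk.injEq] at he
      obtain ⟨rfl, rfl⟩ := he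
      have h4 := (h𝒩 V s (hFW m _ h1)).2.1 V' h2 V'' h2' ⟨x, hx, hx'⟩
      subst h4
      rw [h3, h3']
  have hFdense : ∀ m, ∀ V1 ⊆ V0, IsOpen V1 → V1.Nonempty → ∃ p ∈ 𝓕 m, (V1 ∩ p.1).Nonempty := by
    intro m
    induction m with
    | zero =>
      intro V1 h1 ho hn
      refine ⟨(V0, s0), rfl, ?_⟩
      rwa [Set.inter_eq_left.2 h1]
    | succ m ih =>
      intro V1 h1 ho hn
      obtain ⟨⟨V, s⟩, h2, h3⟩ := ih V1 h1 ho hn
      obtain ⟨V', h4, h5⟩ := (h𝒩 V s (hFW m _ h2)).2.2 (V1 ∩ V) Set.inter_subset_right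
        (ho.inter (hopen _ _ (hFW m _ h2)).1) h3
      exact ⟨(V', σ V s V'), ⟨V, s, h2, h4, rfl⟩,
        h5.mono (Set.inter_subset_inter_left _ Set.inter_subset_left)⟩
  have hnd : ∀ m, IsNowhereDense (V0 \ ⋃ p ∈ 𝓕 m, p.1) := by
    intro m
    apply isNowhereDense_of
    intro V hV hVn
    by_cases h : (V ∩ V0).Nonempty
    · obtain ⟨p, hp, hp'⟩ := hFdense m (V ∩ V0) Set.inter_subset_right
        (hV.inter (hopen _ _ h0).1) h
      refine ⟨(V ∩ V0) ∩ p.1, Set.inter_subset_left.trans Set.inter_subset_left,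
        (hV.inter (hopen _ _ h0).1).inter (hopen _ _ (hFW m _ hp)).1, hp', ?_⟩
      rw [Set.disjoint_left]
      intro x hx hx'
      exact hx'.2 (Set.mem_biUnion hp hx.2)
    · refine ⟨V, subset_rfl, hV, hVn, ?_⟩
      rw [Set.disjoint_left]
      intro x hx hx'
      exact h ⟨x, hx, hx'.1⟩
  refine (isMeagre_iUnion fun m => (hnd m).isMeagre).mono ?_
  rintro x ⟨hx0, hx⟩
  by_contra hc
  apply hx
  have hall : ∀ m, ∃ p ∈ 𝓕 m, x ∈ p.1 := by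
    intro m
    by_contra hm
    apply hc
    refine Set.mem_iUnion.2 ⟨m, hx0, fun h => hm ?_⟩
    obtain ⟨p, hp, hxp⟩ := Set.mem_iUnion₂.1 h
    exact ⟨p, hp, hxp⟩
  choose st hst1 hst2 using hall
  refine ⟨st, ?_, fun m => ⟨hFW m _ (hst1 m), ?_, hst2 m⟩⟩
  · have := hst1 0
    rwa [hF0, Set.mem_singleton_iff] at this
  · obtain ⟨V, s, h1, h2, h3⟩ := hst1 (m + 1)
    have hs1 : (st (m + 1)).1 ⊆ V := ((h𝒩 V s (hFW m _ h1)).1 _ h2).1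
    have he := hFd m _ (hst1 m) _ h1 ⟨x, hst2 m, hs1 (hst2 (m + 1))⟩
    rw [he, h3]
    exact (hσ V s _ (hFW m _ h1) h2).2

end Meager

end Pool.Agent.H17.Omega
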