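import Mathlib

/-!
# Leftmost branches and their certificates
-/

set_option autoImplicit false
set_option linter.unusedVariables false
set_option linter.unusedSectionVars false
set_option linter.unusedSimpArgs false
set_option linter.deprecated false

universe u v w

namespace Pool.Agent.H17.Omega

/-- Two sequences agree below `n`. -/
def Agree {α : Type v} (n : ℕ) (x y : ℕ → α) : Prop := ∀ i < n, x i = y i

section Agree

variable {α : Type v} {n m : ℕ} {x y z : ℕ → α}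

theorem Agree.refl (n : ℕ) (x : ℕ → α) : Agree n x x := fun _ _ => rfl

theorem Agree.symm (h : Agree n x y) : Agree n y x := fun i hi => (h i hi).symm

theorem Agree.trans (h : Agree n x y) (h' : Agree n y z) : Agree n x z :=
  fun i hi => (h i hi).trans (h' i hi)

theorem Agree.mono (h : Agree n x y) (hmn : m ≤ n) : Agree m x y :=
  fun i hi => h i (hi.trans_le hmn)

theorem Agree.succ (h : Agree n x y) (h' : x n = y n) : Agree (n + 1) x y := by
  intro i hi
  rcases Nat.lt_succ_iff_lt_or_eq.1 hi with h1 | rfl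
  · exact h i h1
  · exact h'

theorem agree_zero (x y : ℕ → α) : Agree 0 x y := fun _ h => (Nat.not_lt_zero _ h).elim

theorem eq_of_agree (h : ∀ n, Agree n x y) : x = y := funext fun n => h (n + 1) n (Nat.lt_succ_self n)

end Agree

/-- The key of a pair (number, ordinal): the ordinal is compared first. -/
def ky (a : ℕ × Ordinal.{u}) : Ordinal.{u} ×ₗ ℕ := toLex (a.2, a.1)

theorem ky_lt {a a' : ℕ × Ordinal.{u}} : ky a < ky a' ↔ a.2 < a'.2 ∨ a.2 = a'.2 ∧ a.1 < a'.1 := by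
  rw [ky, ky, Prod.Lex.toLex_lt_toLex]

theorem ky_inj {a a' : ℕ × Ordinal.{u}} (h : ky a = ky a') : a = a' := by
  have := toLex.injective h
  simp only [Prod.mk.injEq] at this
  exact Prod.ext this.2 this.1

theorem le_of_ky_le {a a' : ℕ × Ordinal.{u}} (h : ky a ≤ ky a') : a.2 ≤ a'.2 := by
  by_contra hc
  exact absurd (ky_lt.2 (Or.inl (not_le.1 hc))) (not_lt.2 h)

/-- Leftmost element of a set of sequences. -/
def Leftmost (𝒰 : (ℕ → ℕ × Ordinal.{u}) → Prop) (b : ℕ → ℕ × Ordinal.{u}) : Prop :=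
  𝒰 b ∧ ∀ n b', 𝒰 b' → Agree n b' b → ky (b n) ≤ ky (b' n)

theorem Leftmost.unique {𝒰 : (ℕ → ℕ × Ordinal.{u}) → Prop} {b b' : ℕ → ℕ × Ordinal.{u}}
    (h : Leftmost 𝒰 b) (h' : Leftmost 𝒰 b') : b = b' := by
  apply eq_of_agree
  intro n
  induction n with
  | zero => exact agree_zero _ _
  | succ n ih =>
    refine ih.succ (ky_inj (le_antisymm ?_ ?_))
    · exact h.2 n b' h'.1 ih.symm
    · exact h'.2 n b h.1 ih

theorem exists_leftmost {𝒰 : (ℕ → ℕ × Ordinal.{u}) → Prop}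
    (hcl : ∀ b, (∀ n, ∃ b', 𝒰 b' ∧ Agree n b' b) → 𝒰 b) (hne : ∃ b, 𝒰 b) :
    ∃ b, Leftmost 𝒰 b := by
  have step : ∀ (n : ℕ) (b : {b // 𝒰 b}), ∃ b' : {b // 𝒰 b}, Agree n b'.1 b.1 ∧
      ∀ b'' : {b // 𝒰 b}, Agree n b''.1 b.1 → ky (b'.1 n) ≤ ky (b''.1 n) := by
    intro n b
    obtain ⟨k, ⟨b', hb', rfl⟩, hk⟩ := (wellFounded_lt (α := Ordinal.{u} ×ₗ ℕ)).has_min
      {k | ∃ b' : {b // 𝒰 b}, Agree n b'.1 b.1 ∧ ky (b'.1 n) = k} ⟨_, b, Agree.refl _ _, rfl⟩
    exact ⟨b', hb', fun b'' h'' => not_lt.1 (hk _ ⟨b'', h'', rfl⟩)⟩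
  choose F hF1 hF2 using step
  obtain ⟨b0, hb0⟩ := hne
  let st : ℕ → {b // 𝒰 b} := fun n => Nat.rec ⟨b0, hb0⟩ (fun n b => F n b) n
  have hst : ∀ n, st (n + 1) = F n (st n) := fun n => rfl
  let b : ℕ → ℕ × Ordinal.{u} := fun n => (st (n + 1)).1 n
  have h1 : ∀ n m, n ≤ m → Agree n (st m).1 (st n).1 := by
    intro n m h
    induction m, h using Nat.le_induction with
    | base => exact Agree.refl _ _
    | succ m hm ih =>
      rw [hst]
      exact ((hF1 m (st m)).mono hm).trans ih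
  have h2 : ∀ n, Agree n (st n).1 b := by
    intro n i hi
    exact h1 (i + 1) n hi i (Nat.lt_succ_self i)
  refine ⟨b, hcl b fun n => ⟨_, (st n).2, h2 n⟩, fun n b' hb' ha => ?_⟩
  exact hF2 n (st n) ⟨b', hb'⟩ (ha.trans (h2 n).symm)

section Tree

variable (Kr : (ℕ → ℕ) → (ℕ → ℕ) → Prop)

/-- The relation `Kr` is closed. -/
def KrClosed : Prop :=
  ∀ c w, (∀ n, ∃ c' w', Agree n c' c ∧ Agree n w' w ∧ Kr c' w') → Kr c w

/-- The sequence `b` below `n` is a node of the tree searching for a `w` with `Kr c w` together with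
a rank function for the relation coded by `w`. -/
def TU (c : ℕ → ℕ) (n : ℕ) (b : ℕ → ℕ × Ordinal.{u}) : Prop :=
  (∃ c' w', Agree n c' c ∧ Agree n w' (fun i => (b i).1) ∧ Kr c' w') ∧
  (∀ i < n, (b i).2 ≤ (b 0).2) ∧
  ∀ i j, i + 1 < n → j + 1 < n → Nat.pair i j < n → (b (Nat.pair i j)).1.unpair.1 ≠ 0 →
    (b (i + 1)).2 < (b (j + 1)).2

/-- Branches of the tree. -/
def UB' (c : ℕ → ℕ) (b : ℕ → ℕ × Ordinal.{u}) : Prop := ∀ n, TU Kr c n b

variable {Kr}

theorem TU.congr {c c' : ℕ → ℕ} {n : ℕ} {b b' : ℕ → ℕ × Ordinal.{u}} (hc : Agree n c c')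
    (hb : Agree n b b') (h : TU Kr c n b) : TU Kr c' n b' := by
  obtain ⟨⟨c1, w1, h1, h2, h3⟩, h4, h5⟩ := h
  refine ⟨⟨c1, w1, h1.trans hc, h2.trans fun i hi => congrArg Prod.fst (hb i hi), h3⟩, fun i hi => ?_,
    fun i j hi hj hij h => ?_⟩
  · rw [← hb i hi, ← hb 0 (by omega)]; exact h4 i hi
  · rw [← hb _ hi, ← hb _ hj]
    rw [← hb _ hij] at h
    exact h5 i j hi hj hij h

theorem TU.mono {c : ℕ → ℕ} {n m : ℕ} {b : ℕ → ℕ × Ordinal.{u}} (hmn : m ≤ n)
    (h : TU Kr c n b) : TU Kr c m b := by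
  obtain ⟨⟨c1, w1, h1, h2, h3⟩, h4, h5⟩ := h
  exact ⟨⟨c1, w1, h1.mono hmn, h2.mono hmn, h3⟩, fun i hi => h4 i (by omega),
    fun i j hi hj hij => h5 i j (by omega) (by omega) (by omega)⟩

theorem UB'.closed (c : ℕ → ℕ) (b : ℕ → ℕ × Ordinal.{u})
    (h : ∀ n, ∃ b', UB' Kr c b' ∧ Agree n b' b) : UB' Kr c b := by
  intro n
  obtain ⟨b', h1, h2⟩ := h n
  exact (h1 n).congr (Agree.refl _ _) h2

/-- The ordinals may be changed in an order preserving way. -/
theorem TU.map {c : ℕ → ℕ} {n : ℕ} {b : ℕ → ℕ × Ordinal.{u}} {π : Ordinal.{u} → Ordinal.{u}}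
    (hπ : ∀ i j, i < n → j < n → (b i).2 < (b j).2 → π (b i).2 < π (b j).2)
    (h : TU Kr c n b) : TU Kr c n (fun i => ((b i).1, π (b i).2)) := by
  obtain ⟨h1, h4, h5⟩ := h
  refine ⟨h1, fun i hi => ?_, fun i j hi hj hij h => ?_⟩
  · rcases (h4 i hi).lt_or_eq with h | h
    · exact (hπ i 0 hi (by omega) h).le
    · exact (congrArg π h).le
  · exact hπ _ _ hi hj (h5 i j hi hj hij h)

theorem UB'.map {c : ℕ → ℕ} {b : ℕ → ℕ × Ordinal.{u}} {π : Ordinal.{u} → Ordinal.{u}}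
    (hπ : ∀ i j, (b i).2 < (b j).2 → π (b i).2 < π (b j).2)
    (h : UB' Kr c b) : UB' Kr c (fun i => ((b i).1, π (b i).2)) :=
  fun n => (h n).map fun i j _ _ => hπ i j

theorem UB'.le {c : ℕ → ℕ} {b : ℕ → ℕ × Ordinal.{u}} (h : UB' Kr c b) (i : ℕ) :
    (b i).2 ≤ (b 0).2 := (h (i + 1)).2.1 i (Nat.lt_succ_self i)

theorem UB'.kr (hK : KrClosed Kr) {c : ℕ → ℕ} {b : ℕ → ℕ × Ordinal.{u}} (h : UB' Kr c b) :
    Kr c (fun i => (b i).1) := hK _ _ fun n => (h n).1

theorem UB'.lt {c : ℕ → ℕ} {b : ℕ → ℕ × Ordinal.{u}} (h : UB' Kr c b) {i j : ℕ}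
    (hij : (b (Nat.pair i j)).1.unpair.1 ≠ 0) : (b (i + 1)).2 < (b (j + 1)).2 :=
  (h (max (max (i + 2) (j + 2)) (Nat.pair i j + 1))).2.2 i j (by omega) (by omega) (by omega) hij

theorem UB'.of (c : ℕ → ℕ) (b : ℕ → ℕ × Ordinal.{u}) (h1 : Kr c (fun i => (b i).1))
    (h2 : ∀ i, (b i).2 ≤ (b 0).2)
    (h3 : ∀ i j, (b (Nat.pair i j)).1.unpair.1 ≠ 0 → (b (i + 1)).2 < (b (j + 1)).2) : UB' Kr c b :=
  fun n => ⟨⟨c, _, Agree.refl _ _, Agree.refl _ _, h1⟩, fun i _ => h2 i, fun i j _ _ _ => h3 i j⟩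

/-! ### Certificates -/

/-- The ordinals enumerated by a certificate. -/
def ca (h : ℕ → ℕ × Ordinal.{u}) (n : ℕ) : Ordinal.{u} := (h (2 * n)).2
/-- The ranks. -/
def cr (h : ℕ → ℕ × Ordinal.{u}) (n : ℕ) : Ordinal.{u} := (h (2 * n + 1)).2
/-- The digits. -/
def cw (h : ℕ → ℕ × Ordinal.{u}) (n : ℕ) : ℕ := (h (2 * n)).1
/-- The indices. -/
def ce (h : ℕ → ℕ × Ordinal.{u}) (n : ℕ) : ℕ := (h (2 * n + 1)).1
/-- The branch. -/
def cb (h : ℕ → ℕ × Ordinal.{u}) (n : ℕ) : ℕ × Ordinal.{u} := (cw h n, ca h (ce h n))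
/-- The sequence with given indices. -/
def ct (h : ℕ → ℕ × Ordinal.{u}) (x : ℕ → ℕ × ℕ) (n : ℕ) : ℕ × Ordinal.{u} :=
  ((x n).1, ca h (x n).2)
/-- Code of an initial segment. -/
def ini {α : Type v} [Encodable α] (x : ℕ → α) (n : ℕ) : ℕ := Encodable.encode ((List.range n).map x)

theorem ini_congr {α : Type v} [Encodable α] {x y : ℕ → α} {n : ℕ} (h : Agree n x y) :
    ini x n = ini y n := by
  unfold ini
  congr 1
  apply List.map_congr_left
  intro i hi
  exact h i (List.mem_range.1 hi)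

/-- `t` below `n` is (strictly) to the left of `b`. -/
def Left (n : ℕ) (t b : ℕ → ℕ × Ordinal.{u}) : Prop := ∃ q < n, Agree q t b ∧ ky (t q) < ky (b q)

variable (Kr) in
/-- `h` is a certificate for `c`. -/
structure Cert (c : ℕ → ℕ) (h : ℕ → ℕ × Ordinal.{u}) : Prop where
  br : ∀ n, TU Kr c n (cb h)
  rk : ∀ (x : ℕ → ℕ × ℕ) (n : ℕ), Left n (ct h x) (cb h) → TU Kr c (n + 1) (ct h x) →
    cr h (ini x (n + 1)) < cr h (ini x n)

theorem Left.congr {n : ℕ} {t b t' b' : ℕ → ℕ × Ordinal.{u}} (h : Left n t b) (ht : Agree n t t')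
    (hb : Agree n b b') : Left n t' b' := by
  obtain ⟨q, hq, h1, h2⟩ := h
  refine ⟨q, hq, ((ht.mono hq.le).symm.trans h1).trans (hb.mono hq.le), ?_⟩
  rw [← ht q hq, ← hb q hq]; exact h2

/-- Certificates form a closed relation. -/
theorem Cert.closed (c : ℕ → ℕ) (h : ℕ → ℕ × Ordinal.{u})
    (H : ∀ n, ∃ c' h', Agree n c' c ∧ Agree n h' h ∧ Cert Kr c' h') : Cert Kr c h := by
  have e1 : ∀ {h' : ℕ → ℕ × Ordinal.{u}} {n m : ℕ}, Agree m h' h → 2 * n < m → ca h' n = ca h n :=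
    fun h1 h2 => by unfold ca; rw [h1 _ h2]
  have e2 : ∀ {h' : ℕ → ℕ × Ordinal.{u}} {n m : ℕ}, Agree m h' h → 2 * n + 1 < m →
      cr h' n = cr h n := fun h1 h2 => by unfold cr; rw [h1 _ h2]
  have e3 : ∀ {h' : ℕ → ℕ × Ordinal.{u}} {n m : ℕ}, Agree m h' h → 2 * n < m → cw h' n = cw h n :=
    fun h1 h2 => by unfold cw; rw [h1 _ h2]
  have e4 : ∀ {h' : ℕ → ℕ × Ordinal.{u}} {n m : ℕ}, Agree m h' h → 2 * n + 1 < m →
      ce h' n = ce h n := fun h1 h2 => by unfold ce; rw [h1 _ h2]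
  have eb : ∀ n, ∃ m, ∀ h', Agree m h' h → Agree n (cb h') (cb h) := by
    intro n
    refine ⟨2 * n + 2 + 2 * ∑ i ∈ Finset.range n, ce h i, fun h' h1 i hi => ?_⟩
    have h2 : ce h i ≤ ∑ i ∈ Finset.range n, ce h i :=
      Finset.single_le_sum (f := fun i => ce h i) (fun _ _ => Nat.zero_le _) (Finset.mem_range.2 hi)
    unfold cb
    rw [e3 h1 (by omega), e4 h1 (by omega), e1 h1 (by omega)]
  have et : ∀ (x : ℕ → ℕ × ℕ) n, ∃ m, ∀ h', Agree m h' h → Agree n (ct h' x) (ct h x) := by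
    intro x n
    refine ⟨2 * n + 2 + 2 * ∑ i ∈ Finset.range n, (x i).2, fun h' h1 i hi => ?_⟩
    have h2 : (x i).2 ≤ ∑ i ∈ Finset.range n, (x i).2 :=
      Finset.single_le_sum (f := fun i => (x i).2) (fun _ _ => Nat.zero_le _)
        (Finset.mem_range.2 hi)
    unfold ct
    rw [e1 h1 (by omega)]
  refine ⟨fun n => ?_, fun x n hl ht => ?_⟩
  · obtain ⟨m, hm⟩ := eb n
    obtain ⟨c', h', h1, h2, h3⟩ := H (max m n)
    exact (h3.br n).congr (h1.mono (le_max_right _ _)) (hm h' (h2.mono (le_max_left _ _)))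
  · obtain ⟨m1, hm1⟩ := eb (n + 1)
    obtain ⟨m2, hm2⟩ := et x (n + 1)
    obtain ⟨c', h', h1, h2, h3⟩ := H (m1 + m2 + (n + 1) + (2 * ini x (n + 1) + 2) + (2 * ini x n + 2))
    have a1 := hm1 h' (h2.mono (by omega))
    have a2 := hm2 h' (h2.mono (by omega))
    have := h3.rk x n (hl.congr (a2.symm.mono (by omega)) (a1.symm.mono (by omega)))
      (ht.congr (h1.symm.mono (by omega)) a2.symm)
    rw [e2 h2 (by omega), e2 h2 (by omega)] at this
    exact this

/-- Certificates may be changed in an order preserving way. -/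
theorem Cert.map {c : ℕ → ℕ} {h : ℕ → ℕ × Ordinal.{u}} {π : Ordinal.{u} → Ordinal.{u}}
    (hπ : ∀ i j, (h i).2 < (h j).2 ↔ π (h i).2 < π (h j).2)
    (H : Cert Kr c h) : Cert Kr c (fun i => ((h i).1, π (h i).2)) := by
  set h' : ℕ → ℕ × Ordinal.{u} := fun i => ((h i).1, π (h i).2) with hh'
  have ea : ∀ n, ca h' n = π (ca h n) := fun n => rfl
  have er : ∀ n, cr h' n = π (cr h n) := fun n => rfl
  have ew : ∀ n, cw h' n = cw h n := fun n => rfl
  have ee : ∀ n, ce h' n = ce h n := fun n => rfl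
  have eb : cb h' = fun i => ((cb h i).1, π (cb h i).2) := rfl
  have et : ∀ x, ct h' x = fun i => ((ct h x i).1, π (ct h x i).2) := fun x => rfl
  have hinj : ∀ i j, π (h i).2 = π (h j).2 → (h i).2 = (h j).2 := by
    intro i j hij
    apply le_antisymm
    · by_contra hc
      have := (hπ j i).1 (not_le.1 hc)
      rw [hij] at this
      exact lt_irrefl _ this
    · by_contra hc
      have := (hπ i j).1 (not_le.1 hc)
      rw [hij] at this
      exact lt_irrefl _ this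
  refine ⟨fun n => ?_, fun x n hl ht => ?_⟩
  · rw [eb]
    exact (H.br n).map fun i j _ _ hij => (hπ _ _).1 hij
  · rw [er, er]
    refine (hπ _ _).1 (H.rk x n ?_ ?_)
    · obtain ⟨q, hq, h1, h2⟩ := hl
      refine ⟨q, hq, fun i hi => ?_, ?_⟩
      · have h3 := h1 i hi
        rw [et, eb] at h3
        simp only [Prod.mk.injEq] at h3
        exact Prod.ext h3.1 (hinj _ _ h3.2)
      · rw [ky_lt] at h2 ⊢
        rcases h2 with h2 | h2
        · exact Or.inl ((hπ _ _).2 h2)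
        · exact Or.inr ⟨hinj _ _ h2.1, h2.2⟩
    · obtain ⟨h1, h4, h5⟩ := ht
      refine ⟨h1, fun i hi => ?_, fun i j hi hj hij h => ?_⟩
      · by_contra hc
        exact absurd ((hπ _ _).1 (not_le.1 hc)) (not_lt.2 (h4 i hi))
      · exact (hπ _ _).2 (h5 i j hi hj hij h)

/-! ### Soundness of certificates -/

/-- The collapse of the ordinals relative to a countable set. -/
noncomputable def colp (a : ℕ → Ordinal.{u}) (o : Ordinal.{u}) : Ordinal.{u} :=
  ⨆ n : {n : ℕ // a n < o}, Order.succ (colp a (a n.1))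
termination_by o
decreasing_by exact n.2

theorem colp_lt {a : ℕ → Ordinal.{u}} {n : ℕ} {o : Ordinal.{u}} (h : a n < o) :
    colp a (a n) < colp a o := by
  rw [colp.eq_1 a o]
  exact (Order.lt_succ _).trans_le
    (Ordinal.le_iSup (fun n : {n : ℕ // a n < o} => Order.succ (colp a (a n.1))) ⟨n, h⟩)

theorem exists_of_lt_colp {a : ℕ → Ordinal.{u}} {o : Ordinal.{u}} :
    ∀ {o' : Ordinal.{u}}, o' < colp a o → ∃ n, a n < o ∧ colp a (a n) = o' := by
  induction o using WellFoundedLT.induction with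
  | ind o ih =>
    intro o' h
    rw [colp.eq_1 a o, Ordinal.lt_iSup_iff] at h
    obtain ⟨⟨n, hn⟩, h⟩ := h
    rcases (Order.lt_succ_iff.1 h).lt_or_eq with h1 | h1
    · obtain ⟨m, hm, h2⟩ := ih _ hn h1
      exact ⟨m, hm.trans hn, h2⟩
    · exact ⟨n, hn, h1.symm⟩

/-- The digits of a certificate are the digits of the leftmost branch. -/
theorem Cert.sound {c : ℕ → ℕ} {h : ℕ → ℕ × Ordinal.{u}} (H : Cert Kr c h)
    {b : ℕ → ℕ × Ordinal.{u}} (hb : Leftmost (UB' Kr c) b) (n : ℕ) : (b n).1 = cw h n := by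
  set a := ca h with ha
  set π := colp a with hπ
  have hcb : UB' Kr c (cb h) := H.br
  -- leftmost among the sequences with indices
  have left : ∀ (x : ℕ → ℕ × ℕ) (q : ℕ), UB' Kr c (ct h x) → Agree q (ct h x) (cb h) →
      ky (cb h q) ≤ ky (ct h x q) := by
    intro x q hx hq
    by_contra hc
    have hlt : ∀ n, cr h (ini x (q + 1 + n + 1)) < cr h (ini x (q + 1 + n)) := fun n =>
      H.rk x (q + 1 + n) ⟨q, by omega, hq, not_le.1 hc⟩ (hx _)
    exact (wellFounded_iff_isEmpty_descending_chain.1 (wellFounded_lt (α := Ordinal.{u}))).false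
      ⟨fun n => cr h (ini x (q + 1 + n)), fun n => hlt n⟩
  -- the collapse of the branch of the certificate
  have hπb : UB' Kr c (fun i => ((cb h i).1, π (cb h i).2)) :=
    hcb.map fun i j hij => colp_lt (a := a) (n := ce h i) hij
  -- the ordinals of `b` are in the image
  have h0 : (b 0).2 ≤ π (cb h 0).2 := le_of_ky_le (hb.2 0 _ hπb (agree_zero _ _))
  have himg : ∀ i, ∃ m, π (a m) = (b i).2 := by
    intro i
    have h1 : (b i).2 ≤ π (cb h 0).2 := (hb.1.le i).trans h0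
    rcases h1.lt_or_eq with h2 | h2
    · obtain ⟨m, _, hm⟩ := exists_of_lt_colp h2
      exact ⟨m, hm⟩
    · exact ⟨_, h2.symm⟩
  choose m hm using himg
  let x : ℕ → ℕ × ℕ := fun i => ((b i).1, m i)
  have hmono : ∀ i j, π (a i) < π (a j) → a i < a j := by
    intro i j hij
    by_contra hc
    rcases (not_lt.1 hc).lt_or_eq with h1 | h1
    · exact lt_asymm hij (colp_lt h1)
    · rw [h1] at hij; exact lt_irrefl _ hij
  have hle : ∀ i j, π (a i) ≤ π (a j) → a i ≤ a j := by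
    intro i j hij
    by_contra hc
    exact absurd (colp_lt (not_le.1 hc)) (not_lt.2 hij)
  have hinj : ∀ i j, π (a i) = π (a j) → a i = a j := fun i j hij =>
    le_antisymm (hle _ _ hij.le) (hle _ _ hij.ge)
  have hct : ∀ i, ct h x i = ((b i).1, a (m i)) := fun i => rfl
  have hxU : UB' Kr c (ct h x) := by
    intro n
    obtain ⟨h1, h4, h5⟩ := hb.1 n
    refine ⟨h1, fun i hi => ?_, fun i j hi hj hij h => ?_⟩
    · show a (m i) ≤ a (m 0)
      apply hle
      rw [hm, hm]; exact h4 i hi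
    · show a (m (i + 1)) < a (m (j + 1))
      apply hmono
      rw [hm, hm]; exact h5 i j hi hj hij h
  -- equality
  have key : ∀ q, Agree q (ct h x) (cb h) := by
    intro q
    induction q with
    | zero => exact agree_zero _ _
    | succ q ih =>
      refine ih.succ (ky_inj (le_antisymm ?_ (left x q hxU ih)))
      have h1 : Agree q (fun i => ((cb h i).1, π (cb h i).2)) b := by
        intro i hi
        have := ih i hi
        rw [hct] at this
        show ((cb h i).1, π (cb h i).2) = b i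
        rw [← this]
        exact Prod.ext rfl (hm i)
      have h2 := hb.2 q _ hπb h1
      by_contra hc
      rw [not_le, ky_lt] at hc
      apply absurd h2
      rw [not_le, ky_lt]
      rcases hc with hc | hc
      · left
        show π (a (ce h q)) < (b q).2
        rw [← hm]
        exact colp_lt hc
      · right
        refine ⟨?_, hc.2⟩
        show π (a (ce h q)) = (b q).2
        rw [← hm]
        exact congrArg π hc.1
  have := key (n + 1) n (Nat.lt_succ_self n)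
  rw [hct] at this
  have h9 : ((b n).1, a (m n)).1 = (cb h n).1 := congrArg Prod.fst this
  exact h9

end Tree

end Pool.Agent.H17.Omega
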