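import Pool.Agent.H17.Omega.GenM
import Pool.Agent.H17.Omega.Meager
import Pool.Agent.H17.Omega.Tree

/-!
# Forcing with finite sequences of natural numbers and category
-/

set_option autoImplicit false
set_option linter.unusedVariables false
set_option linter.unusedSectionVars false
set_option linter.unusedSimpArgs false
set_option linter.deprecated false

universe u v w

namespace Pool.Agent.H17.Omega

/-- Initial segments. -/
def sg (g : ℕ → ℕ) (n : ℕ) : List ℕ := (List.range n).map g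

@[simp] theorem sg_length (g : ℕ → ℕ) (n : ℕ) : (sg g n).length = n := by simp [sg]

theorem sg_getD {g : ℕ → ℕ} {n i : ℕ} (h : i < n) (d : ℕ) : (sg g n).getD i d = g i := by
  rw [List.getD_eq_getElem _ _ (by simpa using h)]
  simp [sg]

theorem sg_eq_iff {g h : ℕ → ℕ} {n : ℕ} : sg g n = sg h n ↔ Agree n g h := by
  unfold sg Agree
  rw [List.map_inj_left]
  simp

theorem sg_succ (g : ℕ → ℕ) (n : ℕ) : sg g (n + 1) = sg g n ++ [g n] := by
  simp [sg, List.range_succ]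

theorem sg_pre (g : ℕ → ℕ) {m n : ℕ} (h : m ≤ n) : sg g m <+: sg g n := by
  induction n, h using Nat.le_induction with
  | base => exact ⟨[], by simp⟩
  | succ n hn ih =>
    rw [sg_succ]
    exact ih.trans ⟨_, rfl⟩

/-- Basic open sets. -/
def cyl (l : List ℕ) : Set (ℕ → ℕ) := {g | sg g l.length = l}

theorem mem_cyl {g : ℕ → ℕ} {l : List ℕ} : g ∈ cyl l ↔ sg g l.length = l := Iff.rfl

theorem mem_cyl_sg_iff {g h : ℕ → ℕ} {n : ℕ} : h ∈ cyl (sg g n) ↔ Agree n h g := by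
  rw [mem_cyl, sg_length, sg_eq_iff]

theorem mem_cyl_sg (g : ℕ → ℕ) (n : ℕ) : g ∈ cyl (sg g n) := mem_cyl_sg_iff.2 (Agree.refl _ _)

theorem pre_sg {g : ℕ → ℕ} {l : List ℕ} (h : g ∈ cyl l) {n : ℕ} (hn : l.length ≤ n) :
    l <+: sg g n := by
  rw [mem_cyl] at h
  have h1 : sg g l.length <+: sg g n := sg_pre g hn
  rwa [h] at h1

theorem mem_cyl_of_pre {g : ℕ → ℕ} {l : List ℕ} {n : ℕ} (h : l <+: sg g n) : g ∈ cyl l := by
  have h1 : l.length ≤ n := by have := h.length_le; simpa using this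
  have h2 : sg g l.length <+: sg g n := sg_pre g h1
  rw [mem_cyl]
  exact (List.prefix_of_prefix_length_le h2 h (by simp)).eq_of_length (by simp)

theorem cyl_mono {l l' : List ℕ} (h : l <+: l') : cyl l' ⊆ cyl l := by
  intro g hg
  have h1 : l' <+: sg g l'.length := pre_sg hg le_rfl
  exact mem_cyl_of_pre (h.trans h1)

theorem cyl_comparable {g : ℕ → ℕ} {l l' : List ℕ} (h : g ∈ cyl l) (h' : g ∈ cyl l') :
    l <+: l' ∨ l' <+: l := by
  have h1 := pre_sg h (le_max_left l.length l'.length)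
  have h2 := pre_sg h' (le_max_right l.length l'.length)
  exact List.prefix_or_prefix_of_prefix h1 h2

theorem cyl_nonempty (l : List ℕ) : (cyl l).Nonempty := by
  refine ⟨fun i => l.getD i 0, ?_⟩
  rw [mem_cyl]
  apply List.ext_getElem (by simp)
  intro i h1 h2
  simp [sg, List.getD_eq_getElem _ _ h2, h2]

theorem isOpen_cyl (l : List ℕ) : IsOpen (cyl l) := by
  have : cyl l = ⋂ i : Fin l.length, {g | g i.1 = l[i.1]} := by
    ext g
    rw [Set.mem_iInter, mem_cyl]
    constructor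
    · intro h i
      show g i.1 = l[i.1]
      have h1 : (sg g l.length)[i.1]'(by simp) = l[i.1] := by
        simp only [h]
      rw [← h1]; simp [sg]
    · intro h
      apply List.ext_getElem (by simp)
      intro i h1 h2
      have h3 : g i = l[i] := h ⟨i, h2⟩
      rw [← h3]; simp [sg]
  rw [this]
  refine isOpen_iInter_of_finite fun i => ?_
  have h1 : Continuous (fun g : ℕ → ℕ => g i.1) := continuous_apply i.1
  exact (isOpen_discrete ({l[i.1]} : Set ℕ)).preimage h1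

theorem exists_cyl_subset {O : Set (ℕ → ℕ)} (hO : IsOpen O) {g : ℕ → ℕ} (hg : g ∈ O) :
    ∃ n, ∀ h, Agree n h g → h ∈ O := by
  obtain ⟨s, u, hu, hsub⟩ := isOpen_pi_iff.1 hO g hg
  refine ⟨s.sup id + 1, fun h hh => hsub fun i hi => ?_⟩
  have h1 : i ≤ s.sup id := Finset.le_sup (f := id) hi
  rw [hh i (by omega)]
  exact (hu i hi).2

theorem exists_pre_cyl_subset {O : Set (ℕ → ℕ)} (hO : IsOpen O) {l : List ℕ}
    (h : (cyl l ∩ O).Nonempty) : ∃ l', l <+: l' ∧ cyl l' ⊆ O := by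
  obtain ⟨g, hg, hgO⟩ := h
  obtain ⟨n, hn⟩ := exists_cyl_subset hO hgO
  refine ⟨sg g (max n l.length), pre_sg hg (le_max_right _ _), fun h hh => ?_⟩
  exact hn h ((mem_cyl_sg_iff.1 hh).mono (le_max_left _ _))

/-- Density below a sequence. -/
def DenseBelow (r : List ℕ) (D : Set (List ℕ)) : Prop := ∀ l, r <+: l → ∃ l', l <+: l' ∧ l' ∈ D

theorem nd_of_dense {r : List ℕ} {D : Set (List ℕ)} (h : DenseBelow r D) :
    IsNowhereDense {g | g ∈ cyl r ∧ ¬ ∃ k, sg g k ∈ D} := by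
  apply isNowhereDense_of
  intro V hV hVn
  by_cases hne : (cyl r ∩ V).Nonempty
  · obtain ⟨l, hl, hlV⟩ := exists_pre_cyl_subset hV hne
    obtain ⟨l', hl', hD⟩ := h l hl
    refine ⟨cyl l', (cyl_mono hl').trans hlV, isOpen_cyl _, cyl_nonempty _, ?_⟩
    rw [Set.disjoint_left]
    intro g hg hg'
    exact hg'.2 ⟨l'.length, by rw [mem_cyl.1 hg]; exact hD⟩
  · refine ⟨V, subset_rfl, hV, hVn, ?_⟩
    rw [Set.disjoint_left]
    intro g hg hg'
    exact hne ⟨g, hg'.1, hg⟩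

theorem meagre_of_dense {r : List ℕ} {D : Set (List ℕ)} (h : DenseBelow r D) :
    IsMeagre {g | g ∈ cyl r ∧ ¬ ∃ k, sg g k ∈ D} := (nd_of_dense h).isMeagre

theorem meagre_of_local {r : List ℕ} {S : Set (ℕ → ℕ)}
    (h : DenseBelow r {l | IsMeagre (cyl l ∩ S)}) : IsMeagre (cyl r ∩ S) := by
  have h1 : IsMeagre (⋃ l : {l : List ℕ // IsMeagre (cyl l ∩ S)}, cyl l.1 ∩ S) :=
    isMeagre_iUnion fun l => l.2
  refine ((meagre_of_dense h).union h1).mono fun g hg => ?_
  by_cases hk : ∃ k, sg g k ∈ {l | IsMeagre (cyl l ∩ S)}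
  · obtain ⟨k, hk⟩ := hk
    exact Or.inr (Set.mem_iUnion.2 ⟨⟨_, hk⟩, mem_cyl_sg g k, hg.2⟩)
  · exact Or.inl ⟨hg.1, hk⟩

theorem not_meagre_cyl (l : List ℕ) : ¬ IsMeagre (cyl l) := by
  have : PolishSpace (ℕ → ℕ) := inferInstance
  intro h
  have h1 := dense_of_mem_residual (h : (cyl l)ᶜ ∈ residual (ℕ → ℕ))
  obtain ⟨g, hg, hg'⟩ := h1.inter_open_nonempty (cyl l) (isOpen_cyl l) (cyl_nonempty l)
  exact hg' hg

/-- Finding a point of a cylinder outside of a meager set. -/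
theorem exists_mem_cyl {l : List ℕ} {S : Set (ℕ → ℕ)} (h : IsMeagre (cyl l ∩ S)) :
    ∃ g ∈ cyl l, g ∉ S := by
  by_contra hc
  push Not at hc
  apply not_meagre_cyl l
  have h1 : cyl l ⊆ cyl l ∩ S := fun g hg => ⟨hg, hc g hg⟩
  exact h.mono h1

/-! ### The forcing -/

/-- The partial order of finite sequences of natural numbers. -/
def Qs : Type u := ULift.{u} (List ℕ)

namespace Qs

/-- The condition given by a sequence. -/
def mk (l : List ℕ) : Qs.{u} := ULift.up l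
/-- The sequence of a condition. -/
def toL (q : Qs.{u}) : List ℕ := ULift.down q

@[simp] theorem toL_mk (l : List ℕ) : (mk.{u} l).toL = l := rfl

theorem ext {q r : Qs.{u}} (h : q.toL = r.toL) : q = r := ULift.down_injective h

@[simp] theorem mk_toL (q : Qs.{u}) : mk q.toL = q := rfl

instance : PartialOrder Qs.{u} where
  le a b := b.toL <+: a.toL
  le_refl a := ⟨[], by simp⟩
  le_trans a b c h h' := List.IsPrefix.trans h' h
  le_antisymm a b h h' := ext (List.IsPrefix.eq_of_length h' (le_antisymm h'.length_le h.length_le))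

theorem le_iff {a b : Qs.{u}} : a ≤ b ↔ b.toL <+: a.toL := Iff.rfl

theorem cyl_mono {a b : Qs.{u}} (h : a ≤ b) : cyl a.toL ⊆ cyl b.toL := Omega.cyl_mono h

end Qs

/-! ### Forcing `τ ∈ A_G` -/

section AG

variable {A : Set (ℕ → ℕ)} {a : (ℕ → ℕ) → ℕ → ℕ} {τ : Name Qs.{u}}

theorem cont_local (ha : Continuous a) (g : ℕ → ℕ) (n : ℕ) :
    ∃ N, ∀ h, Agree N h g → Agree n (a h) (a g) := by
  have h1 : IsOpen {h | ∀ i < n, a h i = a g i} := by
    have : {h | ∀ i < n, a h i = a g i} = ⋂ i : Fin n, (fun h => a h i.1) ⁻¹' {a g i.1} := by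
      ext h
      simp only [Set.mem_setOf_eq, Set.mem_iInter, Set.mem_preimage, Set.mem_singleton_iff]
      exact ⟨fun h i => h i.1 i.2, fun h i hi => h ⟨i, hi⟩⟩
    rw [this]
    exact isOpen_iInter_of_finite fun i =>
      (isOpen_discrete _).preimage ((continuous_apply i.1).comp ha)
  obtain ⟨N, hN⟩ := exists_cyl_subset h1 (g := g) (fun i _ => rfl)
  exact ⟨N, fun h hh i hi => hN h hh i hi⟩

theorem meagre_of_forcesAG (ha : Continuous a)
    (H1 : ∀ i j q, ForcesVal τ i j q ↔ ∀ g ∈ cyl q.toL, a g i = j) {r : Qs.{u}}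
    (h : ForcesAG A τ r) : IsMeagre (cyl r.toL \ {g | a g ∈ A}) := by
  have h0 : IsMeagre (cyl r.toL ∩ {g | a g ∉ A}) := by
    apply meagre_of_local
    intro l hl
    obtain ⟨s, hs, K, T, hT, hTA, -, B, hB1, hB2, hB3⟩ := h (Qs.mk l) hl
    refine ⟨s.toL, hs, ?_⟩
    have hD : ∀ n, DenseBelow s.toL {l' | ∃ (x : Fin n → ℕ) (b : Fin n → K),
        List.ofFn (fun i => (x i, b i)) ∈ T ∧
        ∀ i : Fin n, ForcesVal τ i (x i) (Qs.mk l') ∧ B i (b i) (Qs.mk l')} := by
      intro n l1 hl1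
      obtain ⟨s1, hs1, h1⟩ := hB3 n (Qs.mk l1) hl1
      exact ⟨s1.toL, hs1, h1⟩
    refine (isMeagre_iUnion fun n => meagre_of_dense (hD n)).mono fun g hg => ?_
    by_contra hc
    apply hg.2
    have hc' : ∀ n, ∃ k, sg g k ∈ {l' | ∃ (x : Fin n → ℕ) (b : Fin n → K),
        List.ofFn (fun i => (x i, b i)) ∈ T ∧
        ∀ i : Fin n, ForcesVal τ i (x i) (Qs.mk l') ∧ B i (b i) (Qs.mk l')} := by
      intro n
      by_contra hn
      exact hc (Set.mem_iUnion.2 ⟨n, hg.1, hn⟩)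
    choose k x b hT1 hT2 using hc'
    have hb : ∀ n m (i : ℕ) (hi : i < n) (hj : i < m), b n ⟨i, hi⟩ = b m ⟨i, hj⟩ := by
      intro n m i hi hj
      have h1 : B i (b n ⟨i, hi⟩) (Qs.mk (sg g (max (k n) (k m)))) :=
        hB1 i _ (Qs.mk (sg g (k n))) _ (sg_pre g (le_max_left _ _)) (hT2 n ⟨i, hi⟩).2
      have h2 : B i (b m ⟨i, hj⟩) (Qs.mk (sg g (max (k n) (k m)))) :=
        hB1 i _ (Qs.mk (sg g (k m))) _ (sg_pre g (le_max_right _ _)) (hT2 m ⟨i, hj⟩).2
      exact hB2 i _ _ _ h1 h2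
    show a g ∈ A
    rw [← hTA]
    refine ⟨fun i => b (i + 1) ⟨i, Nat.lt_succ_self i⟩, fun n => ?_⟩
    have h3 : List.ofFn (fun i : Fin n => (a g i, b (i.1 + 1) ⟨i.1, Nat.lt_succ_self i.1⟩)) =
        List.ofFn (fun i : Fin n => (x n i, b n i)) := by
      congr 1
      funext i
      rw [Prod.mk.injEq]
      refine ⟨(H1 _ _ _).1 (hT2 n i).1 g (mem_cyl_sg g _), hb _ _ _ _ _⟩
    rw [h3]
    exact hT1 n
  exact h0

/-- The dense open sets used to build the tree. -/
theorem exists_dense_open {S : Set (ℕ → ℕ)} (h : IsMeagre S) :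
    ∃ O : ℕ → Set (ℕ → ℕ), (∀ n, IsOpen (O n)) ∧ (∀ n, Dense (O n)) ∧ ∀ g, (∀ n, g ∈ O n) → g ∉ S := by
  obtain ⟨F, hF, hc, hsub⟩ := isMeagre_iff_countable_union_isNowhereDense.1 h
  rcases F.eq_empty_or_nonempty with rfl | hne
  · refine ⟨fun _ => Set.univ, fun _ => isOpen_univ, fun _ => dense_univ, fun g _ hg => ?_⟩
    simpa using hsub hg
  · obtain ⟨C, rfl⟩ := hc.exists_eq_range hne
    refine ⟨fun n => (closure (C n))ᶜ, fun n => isClosed_closure.isOpen_compl, fun n => ?_,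
      fun g hg hgS => ?_⟩
    · have h1 : IsNowhereDense (C n) := hF _ ⟨n, rfl⟩
      rw [IsNowhereDense, interior_eq_empty_iff_dense_compl] at h1
      exact h1
    · obtain ⟨_, ⟨n, rfl⟩, hgn⟩ := hsub hgS
      exact hg n (subset_closure hgn)

theorem exists_good {O : ℕ → Set (ℕ → ℕ)} (h1 : ∀ n, IsOpen (O n)) (h2 : ∀ n, Dense (O n))
    (l : List ℕ) : ∃ g ∈ cyl l, ∀ n, g ∈ O n := by
  have h3 : Dense (⋂ n, O n) := dense_iInter_of_isOpen h1 h2
  obtain ⟨g, hg, hg'⟩ := h3.inter_open_nonempty (cyl l) (isOpen_cyl l) (cyl_nonempty l)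
  exact ⟨g, hg, fun n => Set.mem_iInter.1 hg' n⟩

/-- The minimal sequence that is long and decides membership in `O i`. -/
def Wit (s : List ℕ) (O : ℕ → Set (ℕ → ℕ)) (i : ℕ) (l : List ℕ) : Prop :=
  (s <+: l ∧ i ≤ l.length ∧ cyl l ⊆ O i) ∧
  ∀ l', l' <+: l → (s <+: l' ∧ i ≤ l'.length ∧ cyl l' ⊆ O i) → l' = l

theorem exists_wit {s : List ℕ} {O : ℕ → Set (ℕ → ℕ)} (h1 : ∀ n, IsOpen (O n)) {g : ℕ → ℕ}
    (hg : g ∈ cyl s) (hgO : ∀ n, g ∈ O n) (i : ℕ) : ∃ l, g ∈ cyl l ∧ Wit s O i l := by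
  classical
  have hex : ∃ n, s <+: sg g n ∧ i ≤ (sg g n).length ∧ cyl (sg g n) ⊆ O i := by
    obtain ⟨N, hN⟩ := exists_cyl_subset (h1 i) (hgO i)
    refine ⟨N + s.length + i, pre_sg hg (by omega), by simp, fun h hh => ?_⟩
    exact hN h ((mem_cyl_sg_iff.1 hh).mono (by omega))
  refine ⟨sg g (Nat.find hex), mem_cyl_sg g _, Nat.find_spec hex, fun l' hl' h' => ?_⟩
  have hg' : g ∈ cyl l' := Omega.cyl_mono hl' (mem_cyl_sg g _)
  have h2 : l' = sg g l'.length := (mem_cyl.1 hg').symm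
  rw [h2] at h'
  have h3 : Nat.find hex ≤ l'.length := Nat.find_min' hex h'
  refine hl'.eq_of_length ?_
  have h4 := hl'.length_le
  rw [sg_length] at h4 ⊢
  omega

theorem wit_unique {s : List ℕ} {O : ℕ → Set (ℕ → ℕ)} {i : ℕ} {l l' : List ℕ} {q : List ℕ}
    (h : Wit s O i l) (h' : Wit s O i l') (hl : l <+: q) (hl' : l' <+: q) : l = l' := by
  rcases List.prefix_or_prefix_of_prefix hl hl' with h1 | h1
  · exact h'.2 l h1 h.1
  · exact (h.2 l' h1 h'.1).symm

theorem forcesAG_of_meagre (ha : Continuous a)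
    (H1 : ∀ i j q, ForcesVal τ i j q ↔ ∀ g ∈ cyl q.toL, a g i = j)
    (H2 : ∀ (X : Name Qs.{u}) (r : Qs.{u}), X.fmem τ r → ∃ s ≤ r, ∃ i j,
      X.feq (Name.check (ZFSet.pair (natZ i) (natZ j))) s) {r : Qs.{u}}
    (h : IsMeagre (cyl r.toL \ {g | a g ∈ A})) : ForcesAG A τ r := by
  intro r' hr'
  refine ⟨r', le_rfl, ?_⟩
  obtain ⟨O, hO1, hO2, hO3⟩ := exists_dense_open h
  have hO4 : ∀ g ∈ cyl r'.toL, (∀ n, g ∈ O n) → a g ∈ A := by
    intro g hg hgO
    by_contra hc
    exact hO3 g hgO ⟨Qs.cyl_mono hr' hg, hc⟩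
  let K : Type u := ULift.{u} ((ℕ → ℕ) ⊕ List ℕ)
  let kl : (ℕ → ℕ) → K := fun x => ULift.up (Sum.inl x)
  let kr : List ℕ → K := fun l => ULift.up (Sum.inr l)
  have hkl : ∀ x x', kl x = kl x' → x = x' := fun x x' h => by
    have := ULift.up_injective h
    exact Sum.inl_injective this
  have hkr : ∀ x x', kr x = kr x' → x = x' := fun x x' h => by
    have := ULift.up_injective h
    exact Sum.inr_injective this
  have hlr : ∀ x x', kl x ≠ kr x' := fun x x' h => by
    have := ULift.up_injective h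
    simp at this
  let T : Set (List (ℕ × K)) := {l | (∃ x ∈ A, ∀ i (hi : i < l.length), l[i] = (x i, kl x)) ∨
    ∃ g ∈ cyl r'.toL, (∀ n, g ∈ O n) ∧ ∀ i (hi : i < l.length), ∃ m, g ∈ cyl m ∧
      Wit r'.toL O i m ∧ l[i] = (a g i, kr m)}
  refine ⟨K, T, ?_, ?_, ⟨?_, ?_, ?_⟩, fun i k q => ∃ m, k = kr m ∧ Wit r'.toL O i m ∧ m <+: q.toL,
    ?_, ?_, ?_⟩
  · -- tree
    rintro s t (⟨x, hx, h1⟩ | ⟨g, hg, hgO, h1⟩)
    · refine Or.inl ⟨x, hx, fun i hi => ?_⟩
      rw [← h1 i (by simp; omega), List.getElem_append_left hi]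
    · refine Or.inr ⟨g, hg, hgO, fun i hi => ?_⟩
      obtain ⟨m, hm1, hm2, hm3⟩ := h1 i (by simp; omega)
      exact ⟨m, hm1, hm2, by rw [← hm3, List.getElem_append_left hi]⟩
  · -- projection
    ext x
    constructor
    · rintro ⟨b, hb⟩
      have hb1 : ∀ n, 0 < n → (∃ x' ∈ A, (∀ i < n, x i = x' i) ∧ b 0 = kl x') ∨
          ∃ g ∈ cyl r'.toL, (∀ n, g ∈ O n) ∧ ∀ i < n, x i = a g i ∧
            ∃ m, g ∈ cyl m ∧ Wit r'.toL O i m ∧ b i = kr m := by
        intro n hn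
        rcases hb n with ⟨x', hx', h1⟩ | ⟨g, hg, hgO, h1⟩
        · left
          refine ⟨x', hx', fun i hi => ?_, ?_⟩
          · have := h1 i (by simpa using hi)
            simp only [List.getElem_ofFn, Prod.mk.injEq] at this
            exact this.1
          · have := h1 0 (by simpa using hn)
            simp only [List.getElem_ofFn, Prod.mk.injEq] at this
            exact this.2
        · right
          refine ⟨g, hg, hgO, fun i hi => ?_⟩
          obtain ⟨m, hm1, hm2, hm3⟩ := h1 i (by simpa using hi)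
          simp only [List.getElem_ofFn, Prod.mk.injEq] at hm3
          exact ⟨hm3.1, m, hm1, hm2, hm3.2⟩
      by_cases hcase : ∃ x', b 0 = kl x'
      · obtain ⟨x', hx'⟩ := hcase
        have h2 : ∀ n, ∃ x'' ∈ A, (∀ i < n, x i = x'' i) ∧ b 0 = kl x'' := by
          intro n
          rcases hb1 (n + 1) (Nat.succ_pos n) with ⟨x'', h1, h2, h3⟩ | ⟨g, _, _, h1⟩
          · exact ⟨x'', h1, fun i hi => h2 i (by omega), h3⟩
          · obtain ⟨_, m, _, _, h4⟩ := h1 0 (Nat.succ_pos n)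
            exact (hlr _ _ (hx'.symm.trans h4)).elim
        have h3 : x = x' := by
          funext i
          obtain ⟨x'', _, h4, h5⟩ := h2 (i + 1)
          rw [h4 i (Nat.lt_succ_self i), hkl _ _ (hx'.symm.trans h5)]
        obtain ⟨x'', h4, _, h5⟩ := h2 0
        rw [h3, hkl _ _ (hx'.symm.trans h5)]; exact h4
      · have h2 : ∀ n, ∃ g ∈ cyl r'.toL, (∀ n, g ∈ O n) ∧ ∀ i < n + 1, x i = a g i ∧
            ∃ m, g ∈ cyl m ∧ Wit r'.toL O i m ∧ b i = kr m := by
          intro n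
          rcases hb1 (n + 1) (Nat.succ_pos n) with ⟨x'', h1, h2, h3⟩ | h1
          · exact (hcase ⟨_, h3⟩).elim
          · exact h1
        choose G hG1 hG2 hG3 using h2
        have hm : ∀ i, ∃ m, Wit r'.toL O i m ∧ b i = kr m := by
          intro i
          obtain ⟨_, m, _, h1, h2⟩ := hG3 i i (Nat.lt_succ_self i)
          exact ⟨m, h1, h2⟩
        choose m hm1 hm2 using hm
        have hGm : ∀ n i, i ≤ n → G n ∈ cyl (m i) := by
          intro n i hi
          obtain ⟨_, m', h1, _, h2⟩ := hG3 n i (by omega)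
          rw [hkr _ _ ((hm2 i).symm.trans h2)]; exact h1
        let g : ℕ → ℕ := fun i => G (i + 1) i
        have hgG : ∀ n, Agree n g (G n) := by
          intro n i hi
          have h1 : G n ∈ cyl (m (i + 1)) := hGm n (i + 1) hi
          have h2 : G (i + 1) ∈ cyl (m (i + 1)) := hGm _ _ le_rfl
          have h3 : i + 1 ≤ (m (i + 1)).length := (hm1 (i + 1)).1.2.1
          have h4 : Agree (m (i + 1)).length (G n) (G (i + 1)) := by
            rw [← sg_eq_iff, mem_cyl.1 h1, mem_cyl.1 h2]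
          exact (h4 i (by omega)).symm
        have hgm : ∀ i, g ∈ cyl (m i) := by
          intro i
          have h1 := hGm (max i (m i).length) i (le_max_left _ _)
          rw [mem_cyl] at h1 ⊢
          have h2 : sg g (m i).length = sg (G (max i (m i).length)) (m i).length :=
            sg_eq_iff.2 ((hgG _).mono (le_max_right _ _))
          rw [h2, h1]
        have hgr : g ∈ cyl r'.toL := Omega.cyl_mono (hm1 0).1.1 (hgm 0)
        have hgO : ∀ n, g ∈ O n := fun n => (hm1 n).1.2.2 (hgm n)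
        have hxg : x = a g := by
          funext i
          obtain ⟨N, hN⟩ := cont_local ha g (i + 1)
          have h1 := hN (G (max N i)) (((hgG _).symm).mono (le_max_left _ _)) i (Nat.lt_succ_self i)
          rw [← h1]
          exact (hG3 (max N i) i (by have := le_max_right N i; omega)).1
        rw [hxg]
        exact hO4 g hgr hgO
    · intro hx
      refine ⟨fun _ => kl x, fun n => Or.inl ⟨x, hx, fun i hi => ?_⟩⟩
      simp
  · -- elements are pairs
    exact fun X r1 hr1 hX => H2 X r1 hX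
  · -- total
    intro i r1 hr1
    obtain ⟨g, hg⟩ := cyl_nonempty r1.toL
    obtain ⟨N, hN⟩ := cont_local ha g (i + 1)
    refine ⟨Qs.mk (sg g (max N r1.toL.length)), pre_sg hg (le_max_right _ _), a g i, ?_⟩
    rw [H1]
    intro g' hg'
    exact hN g' ((mem_cyl_sg_iff.1 hg').mono (le_max_left _ _)) i (Nat.lt_succ_self i)
  · -- functional
    intro i j j' r1 hr1 h1 h2
    rw [H1] at h1 h2
    obtain ⟨g, hg⟩ := cyl_nonempty r1.toL
    rw [← h1 g hg, h2 g hg]
  · -- monotone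
    rintro i k q q' hq' ⟨m, h1, h2, h3⟩
    exact ⟨m, h1, h2, h3.trans hq'⟩
  · -- unique
    rintro i k k' q ⟨m, rfl, h2, h3⟩ ⟨m', rfl, h2', h3'⟩
    rw [wit_unique h2 h2' h3 h3']
  · -- dense
    intro n r1 hr1
    obtain ⟨g, hg, hgO⟩ := exists_good hO1 hO2 r1.toL
    have hgr : g ∈ cyl r'.toL := Qs.cyl_mono hr1 hg
    choose m hm1 hm2 using fun i => exists_wit (s := r'.toL) hO1 hgr hgO i
    obtain ⟨N, hN⟩ := cont_local ha g n
    let M := N + r1.toL.length + ∑ i ∈ Finset.range n, (m i).length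
    have hM : ∀ i < n, (m i).length ≤ M := by
      intro i hi
      have : (m i).length ≤ ∑ i ∈ Finset.range n, (m i).length :=
        Finset.single_le_sum (f := fun i => (m i).length) (fun _ _ => Nat.zero_le _)
          (Finset.mem_range.2 hi)
      omega
    refine ⟨Qs.mk (sg g M), pre_sg hg (by omega), fun i => a g i, fun i => kr (m i), ?_, ?_⟩
    · right
      refine ⟨g, hgr, hgO, fun i hi => ⟨m i, hm1 i, hm2 i, ?_⟩⟩
      simp
    · intro i
      refine ⟨?_, m i, rfl, hm2 i, pre_sg (hm1 i) (hM i i.2)⟩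
      rw [H1]
      intro g' hg'
      exact hN g' ((mem_cyl_sg_iff.1 hg').mono (by omega)) i i.2

/-- Almost every `g` below `r` has `a g ∈ A` if and only if `r` forces that `τ ∈ A_G`. -/
theorem forcesAG_iff (ha : Continuous a)
    (H1 : ∀ i j q, ForcesVal τ i j q ↔ ∀ g ∈ cyl q.toL, a g i = j)
    (H2 : ∀ (X : Name Qs.{u}) (r : Qs.{u}), X.fmem τ r → ∃ s ≤ r, ∃ i j,
      X.feq (Name.check (ZFSet.pair (natZ i) (natZ j))) s) {r : Qs.{u}} :
    ForcesAG A τ r ↔ IsMeagre (cyl r.toL \ {g | a g ∈ A}) :=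
  ⟨meagre_of_forcesAG ha H1, forcesAG_of_meagre ha H1 H2⟩

end AG

end Pool.Agent.H17.Omega
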