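import Pool.Agent.H17.Omega.CtmM
import Pool.Agent.H17.Omega.Tree

/-!
# Coding witnesses by reals
-/

set_option autoImplicit false
set_option linter.unusedVariables false
set_option linter.unusedSectionVars false
set_option linter.unusedSimpArgs false
set_option linter.deprecated false

universe u v w

namespace Pool.Agent.H17.Omega

/-- `ε` codes a structure with a witness for the set coded by `c`, or `c` is ill-founded. -/
def Pr (ψ : Fml) (c ε : ℕ → ℕ) : Prop :=
  (∃ d : ℕ → ℕ, (∀ n, Ec c (d (n + 1)) (d n)) ∧ ∀ n, ε n = 0) ∨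
  (∃ e : ℕ → ℕ, (∀ m n, Ec c m n → Ec ε (e m) (e n)) ∧
    (∀ k n, Ec ε k (e n) → ∃ m, Ec c m n ∧ k = e m) ∧
    (∀ i j, (∀ k, Ec ε k i ↔ Ec ε k j) → i = j) ∧ Sat (Ec ε) ψ (asg (e 0) 0))

section Analytic

open MeasureTheory

theorem measurable_eval {Ω : Type v} [MeasurableSpace Ω] {g : Ω → ℕ → ℕ} {f : Ω → ℕ}
    (hg : ∀ i, Measurable (fun q => g q i)) (hf : Measurable f) : Measurable (fun q => g q (f q)) := by
  intro s _
  have : (fun q => g q (f q)) ⁻¹' s = ⋃ a, {q | f q = a} ∩ {q | g q a ∈ s} := by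
    ext q; simp
  rw [this]
  refine MeasurableSet.iUnion fun a => MeasurableSet.inter ?_ ?_
  · exact hf (measurableSet_singleton a)
  · exact hg a (MeasurableSet.of_discrete)

theorem measurable_Ec {Ω : Type v} [MeasurableSpace Ω] {g : Ω → ℕ → ℕ} {f f' : Ω → ℕ}
    (hg : ∀ i, Measurable (fun q => g q i)) (hf : Measurable f) (hf' : Measurable f') :
    Measurable (fun q => Ec (g q) (f q) (f' q)) := by
  have h1 : Measurable (fun q => Nat.pair (f q) (f' q)) :=
    (measurable_from_nat (f := fun p => p)).comp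
      ((measurable_of_countable (fun p : ℕ × ℕ => Nat.pair p.1 p.2)).comp (hf.prodMk hf'))
  have h2 := measurable_eval hg h1
  exact (measurable_of_countable (fun n : ℕ => n ≠ 0)).comp h2

theorem measurable_sat {Ω : Type v} [MeasurableSpace Ω] {g : Ω → ℕ → ℕ}
    (hg : ∀ i, Measurable (fun q => g q i)) (θ : Fml) :
    ∀ f : ℕ → ℕ, Measurable (fun q => Sat (Ec (g q)) θ f) := by
  induction θ with
  | mem i j => intro f; exact measurable_Ec hg measurable_const measurable_const
  | eq i j => intro f; exact measurable_const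
  | bot => intro f; exact measurable_const
  | imp φ ψ ih1 ih2 => intro f; exact (ih1 f).imp (ih2 f)
  | and φ ψ ih1 ih2 => intro f; exact (ih1 f).and (ih2 f)
  | or φ ψ ih1 ih2 => intro f; exact (ih1 f).or (ih2 f)
  | all k φ ih => intro f; exact Measurable.forall fun x => ih _
  | ex k φ ih => intro f; exact Measurable.exists fun x => ih _

theorem analytic_Pr (ψ : Fml) :
    AnalyticSet {p : (ℕ → ℕ) × (ℕ → ℕ) | Pr ψ p.1 p.2} := by
  have m1 : ∀ i, Measurable (fun q : ((ℕ → ℕ) × (ℕ → ℕ)) × (ℕ → ℕ) => q.1.1 i) := fun i =>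
    (measurable_pi_apply i).comp (measurable_fst.comp measurable_fst)
  have m2 : ∀ i, Measurable (fun q : ((ℕ → ℕ) × (ℕ → ℕ)) × (ℕ → ℕ) => q.1.2 i) := fun i =>
    (measurable_pi_apply i).comp (measurable_snd.comp measurable_fst)
  have m3 : ∀ i, Measurable (fun q : ((ℕ → ℕ) × (ℕ → ℕ)) × (ℕ → ℕ) => q.2 i) := fun i =>
    (measurable_pi_apply i).comp measurable_snd
  have h1 : MeasurableSet {q : ((ℕ → ℕ) × (ℕ → ℕ)) × (ℕ → ℕ) |
      (∀ n, Ec q.1.1 (q.2 (n + 1)) (q.2 n)) ∧ ∀ n, q.1.2 n = 0} := by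
    rw [measurableSet_setOf]
    refine Measurable.and (Measurable.forall fun n => measurable_Ec m1 (m3 _) (m3 _))
      (Measurable.forall fun n => ?_)
    exact (measurable_of_countable (fun n : ℕ => n = 0)).comp (m2 n)
  have h2 : MeasurableSet {q : ((ℕ → ℕ) × (ℕ → ℕ)) × (ℕ → ℕ) |
      (∀ m n, Ec q.1.1 m n → Ec q.1.2 (q.2 m) (q.2 n)) ∧
      (∀ k n, Ec q.1.2 k (q.2 n) → ∃ m, Ec q.1.1 m n ∧ k = q.2 m) ∧
      (∀ i j, (∀ k, Ec q.1.2 k i ↔ Ec q.1.2 k j) → i = j) ∧
      Sat (Ec q.1.2) ψ (asg (q.2 0) 0)} := by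
    rw [measurableSet_setOf]
    refine Measurable.and ?_ (Measurable.and ?_ (Measurable.and ?_ ?_))
    · exact Measurable.forall fun m => Measurable.forall fun n =>
        (measurable_Ec m1 measurable_const measurable_const).imp (measurable_Ec m2 (m3 _) (m3 _))
    · exact Measurable.forall fun k => Measurable.forall fun n =>
        (measurable_Ec m2 measurable_const (m3 _)).imp (Measurable.exists fun m =>
          (measurable_Ec m1 measurable_const measurable_const).and
            ((measurable_of_countable (fun n : ℕ => k = n)).comp (m3 m)))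
    · exact Measurable.forall fun i => Measurable.forall fun j =>
        (Measurable.forall fun k => (measurable_Ec m2 measurable_const measurable_const).iff
          (measurable_Ec m2 measurable_const measurable_const)).imp measurable_const
    · have : (fun q : ((ℕ → ℕ) × (ℕ → ℕ)) × (ℕ → ℕ) => Sat (Ec q.1.2) ψ (asg (q.2 0) 0)) =
          fun q => ∃ a, q.2 0 = a ∧ Sat (Ec q.1.2) ψ (asg a 0) := by
        funext q; simp
      rw [this]
      exact Measurable.exists fun a =>
        ((measurable_of_countable (fun n : ℕ => n = a)).comp (m3 0)).and (measurable_sat m2 ψ _)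
  have : PolishSpace (((ℕ → ℕ) × (ℕ → ℕ)) × (ℕ → ℕ)) := PolishSpace.mk
  have h3 := (h1.union h2).analyticSet.image_of_continuous continuous_fst
  refine (congrArg AnalyticSet ?_).mp h3
  ext ⟨c, ε⟩
  constructor
  · rintro ⟨⟨⟨c', ε'⟩, d⟩, h | h, he⟩
    · simp only [Prod.mk.injEq] at he
      obtain ⟨rfl, rfl⟩ := he
      exact Or.inl ⟨d, h⟩
    · simp only [Prod.mk.injEq] at he
      obtain ⟨rfl, rfl⟩ := he
      exact Or.inr ⟨d, h⟩
  · rintro (⟨d, h⟩ | ⟨d, h⟩)
    · exact ⟨⟨⟨c, ε⟩, d⟩, Or.inl h, rfl⟩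
    · exact ⟨⟨⟨c, ε⟩, d⟩, Or.inr h, rfl⟩

theorem exists_Kr (ψ : Fml) : ∃ Kr : (ℕ → ℕ) → (ℕ → ℕ) → Prop, KrClosed Kr ∧
    ∀ c ε, Pr ψ c ε ↔ ∃ w, Kr c w ∧ ∀ n, (w n).unpair.1 = ε n := by
  have h := analytic_Pr ψ
  rw [AnalyticSet] at h
  rcases h with h | ⟨f, hf, hr⟩
  · refine ⟨fun _ _ => False, fun c w h => ?_, fun c ε => ?_⟩
    · obtain ⟨_, _, _, _, h⟩ := h 0; exact h
    · have : (c, ε) ∉ {p : (ℕ → ℕ) × (ℕ → ℕ) | Pr ψ p.1 p.2} := by rw [h]; simp
      constructor
      · intro h'; exact (this h').elim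
      · rintro ⟨w, hw, _⟩; exact hw.elim
  · refine ⟨fun c w => f (fun n => (w n).unpair.2) = (c, fun n => (w n).unpair.1), ?_, ?_⟩
    · intro c w h
      choose c' w' hc hw hk using h
      have t1 : Filter.Tendsto c' Filter.atTop (nhds c) := by
        rw [tendsto_pi_nhds]
        intro i
        refine tendsto_const_nhds.congr' ?_
        filter_upwards [Filter.eventually_gt_atTop i] with n hn
        exact (hc n i hn).symm
      have t2 : Filter.Tendsto (fun n i => (w' n i).unpair.2) Filter.atTop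
          (nhds (fun i => (w i).unpair.2)) := by
        rw [tendsto_pi_nhds]
        intro i
        refine tendsto_const_nhds.congr' ?_
        filter_upwards [Filter.eventually_gt_atTop i] with n hn
        rw [hw n i hn]
      have t3 : Filter.Tendsto (fun n i => (w' n i).unpair.1) Filter.atTop
          (nhds (fun i => (w i).unpair.1)) := by
        rw [tendsto_pi_nhds]
        intro i
        refine tendsto_const_nhds.congr' ?_
        filter_upwards [Filter.eventually_gt_atTop i] with n hn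
        rw [hw n i hn]
      have t4 := (hf.tendsto _).comp t2
      have t5 : Filter.Tendsto (fun n => f (fun i => (w' n i).unpair.2)) Filter.atTop
          (nhds (c, fun i => (w i).unpair.1)) := by
        simp_rw [hk]
        exact t1.prodMk_nhds t3
      exact tendsto_nhds_unique t4 t5
    · intro c ε
      have hiff : Pr ψ c ε ↔ (c, ε) ∈ Set.range f := by rw [hr]; exact Iff.rfl
      rw [hiff]
      constructor
      · rintro ⟨v, hv⟩
        refine ⟨fun n => Nat.pair (ε n) (v n), ?_, fun n => by simp⟩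
        simp only [Nat.unpair_pair]
        exact hv
      · rintro ⟨w, hw, hε⟩
        refine ⟨_, hw.trans ?_⟩
        rw [Prod.mk.injEq]
        exact ⟨rfl, funext hε⟩

end Analytic

/-! ### Absoluteness -/

/-- `Δ₀` formulas are absolute for transitive sets. -/
theorem Fml.Delta0.absolute {θ : Fml} (h : θ.Delta0) {T : Set ZFSet.{u}}
    (hT : ∀ x ∈ T, ∀ y ∈ x, y ∈ T) : ∀ f : ℕ → T,
    Sat (SMem T) θ f ↔ Sat (fun a b : ZFSet.{u} => a ∈ b) θ (fun i => (f i).1) := by
  have hu : ∀ (f : ℕ → T) k x, (fun i => (upd f k x i).1) = upd (fun i => (f i).1) k x.1 :=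
    fun f k x => upd_comp (fun x : T => x.1) f k x
  induction h with
  | mem i j => intro f; rfl
  | eq i j => intro f; exact Subtype.ext_iff
  | bot => intro f; rfl
  | imp _ _ ih1 ih2 => intro f; exact imp_congr (ih1 f) (ih2 f)
  | and _ _ ih1 ih2 => intro f; exact and_congr (ih1 f) (ih2 f)
  | or _ _ ih1 ih2 => intro f; exact or_congr (ih1 f) (ih2 f)
  | ball k j hkj _ ih =>
    intro f
    constructor
    · intro h x hx
      have hx' : x ∈ (f j).1 := by simpa [Sat, upd, hkj, hkj.symm] using hx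
      have hxT := hT _ (f j).2 x hx'
      have h1 := h ⟨x, hxT⟩ (by simpa [Sat, upd, hkj, hkj.symm] using hx')
      rw [ih, hu] at h1
      exact h1
    · intro h x hx
      rw [ih, hu]
      refine h x.1 ?_
      simpa [Sat, upd, hkj, hkj.symm] using hx
  | bex k j hkj _ ih =>
    intro f
    constructor
    · rintro ⟨x, hx, h⟩
      rw [ih, hu] at h
      exact ⟨x.1, by simpa [Sat, upd, hkj, hkj.symm] using hx, h⟩
    · rintro ⟨x, hx, h⟩
      have hx' : x ∈ (f j).1 := by simpa [Sat, upd, hkj, hkj.symm] using hx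
      have hxT := hT _ (f j).2 x hx'
      refine ⟨⟨x, hxT⟩, by simpa [Sat, upd, hkj, hkj.symm] using hx', ?_⟩
      rw [ih, hu]
      exact h

theorem exists_isVal_of_wf {E : ℕ → ℕ → Prop} (wf : WellFounded E) (n : ℕ) :
    ∃ x : ZFSet.{u}, IsVal E x n := by
  induction n using wf.induction with
  | _ n ih =>
    choose v hv using ih
    refine ⟨ZFSet.range (fun m : {m // E m n} => v m.1 m.2), ?_⟩
    rw [isVal_iff]
    constructor
    · intro m hm
      exact ⟨v m hm, ZFSet.mem_range.2 ⟨⟨m, hm⟩, rfl⟩, hv m hm⟩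
    · intro y hy
      obtain ⟨⟨m, hm⟩, rfl⟩ := ZFSet.mem_range.1 hy
      exact ⟨m, hm, hv m hm⟩

theorem IsVal.inj {E : ℕ → ℕ → Prop} (hext : ∀ i j, (∀ k, E k i ↔ E k j) → i = j)
    {x : ZFSet.{u}} : ∀ {i j : ℕ}, IsVal E x i → IsVal E x j → i = j := by
  induction x using ZFSet.inductionOn with
  | _ x ih =>
    intro i j hi hj
    rw [isVal_iff] at hi hj
    apply hext
    intro k
    constructor
    · intro hk
      obtain ⟨y, hy, hy'⟩ := hi.1 k hk
      obtain ⟨k', hk', hy''⟩ := hj.2 y hy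
      rw [ih y hy hy' hy'']; exact hk'
    · intro hk
      obtain ⟨y, hy, hy'⟩ := hj.1 k hk
      obtain ⟨k', hk', hy''⟩ := hi.2 y hy
      rw [ih y hy hy' hy'']; exact hk'

/-- The collapse of an extensional well-founded relation preserves truth of `Δ₀` formulas. -/
theorem sat_collapse {E : ℕ → ℕ → Prop} (hext : ∀ i j, (∀ k, E k i ↔ E k j) → i = j)
    {v : ℕ → ZFSet.{u}} (hv : ∀ n, IsVal E (v n) n) {θ : Fml} (hθ : θ.Delta0) (f : ℕ → ℕ) :
    Sat E θ f ↔ Sat (fun a b : ZFSet.{u} => a ∈ b) θ (fun i => v (f i)) := by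
  have hmem : ∀ m n, v m ∈ v n ↔ E m n := by
    intro m n
    constructor
    · intro h
      obtain ⟨k, hk, hk'⟩ := (isVal_iff.1 (hv n)).2 _ h
      rw [IsVal.inj hext (hv m) hk']; exact hk
    · intro h
      obtain ⟨y, hy, hy'⟩ := (isVal_iff.1 (hv n)).1 m h
      rw [(hv m).unique hy']; exact hy
  let T : Set ZFSet.{u} := Set.range v
  have hT : ∀ x ∈ T, ∀ y ∈ x, y ∈ T := by
    rintro _ ⟨n, rfl⟩ y hy
    obtain ⟨k, hk, hk'⟩ := (isVal_iff.1 (hv n)).2 _ hy
    exact ⟨k, (hv k).unique hk'⟩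
  let e : ℕ → T := fun n => ⟨v n, n, rfl⟩
  have h1 := Sat.iso (E := E) (F := SMem T) e (by rintro ⟨_, n, rfl⟩; exact ⟨n, rfl⟩)
    (fun i j h => IsVal.inj hext (hv i) (by
      have : v i = v j := congrArg Subtype.val h
      rw [this]; exact hv j)) (fun x y => hmem x y) (φ := θ) (f := f)
  rw [← h1, hθ.absolute hT]

section Witness

variable {ψ : Fml} (hψ : ψ.Delta0) {Kr : (ℕ → ℕ) → (ℕ → ℕ) → Prop} (hK : KrClosed Kr)
  (hKP : ∀ c ε, Pr ψ c ε ↔ ∃ w, Kr c w ∧ ∀ n, (w n).unpair.1 = ε n)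

/-- The structure coded by a branch. -/
def epsOf (w : ℕ → ℕ) : ℕ → ℕ := fun n => (w n).unpair.1

include hψ hK hKP

/-- A branch gives a witness. -/
theorem witness_of_branch {c : ℕ → ℕ} {b : ℕ → ℕ × Ordinal.{u}} (hb : UB' Kr c b)
    (wf : WellFounded (Ec c)) {x : ZFSet.{u}} (hx : IsVal (Ec c) x 0) :
    ∃ y : ZFSet.{u}, IsVal (Ec (epsOf fun n => (b n).1)) y 0 ∧ Tr ψ x y := by
  have h1 : Pr ψ c (epsOf fun n => (b n).1) := (hKP _ _).2 ⟨_, hb.kr hK, fun n => rfl⟩
  rcases h1 with ⟨d, hd, _⟩ | ⟨e, h1, h2, h3, h4⟩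
  · exact ((wellFounded_iff_isEmpty_descending_chain.1 wf).false ⟨d, hd⟩).elim
  · have wf' : WellFounded (Ec (epsOf fun n => (b n).1)) := by
      refine Subrelation.wf (r := InvImage (· < ·) (fun i => (b (i + 1)).2)) ?_
        (InvImage.wf _ wellFounded_lt)
      intro i j hij
      exact hb.lt hij
    choose v hv using exists_isVal_of_wf.{u} wf'
    refine ⟨v 0, hv 0, ?_⟩
    have h5 : ∀ x : ZFSet.{u}, ∀ n, IsVal (Ec c) x n → IsVal (Ec (epsOf fun n => (b n).1)) x (e n) := by
      intro x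
      induction x using ZFSet.inductionOn with
      | _ x ih =>
        intro n hn
        rw [isVal_iff] at hn ⊢
        constructor
        · intro k hk
          obtain ⟨m, hm, rfl⟩ := h2 k n hk
          obtain ⟨y, hy, hy'⟩ := hn.1 m hm
          exact ⟨y, hy, ih y hy m hy'⟩
        · intro y hy
          obtain ⟨m, hm, hm'⟩ := hn.2 y hy
          exact ⟨e m, h1 m n hm, ih y hy m hm'⟩
    have h6 : v (e 0) = x := (hv (e 0)).unique (h5 x 0 hx)
    rw [sat_collapse h3 hv hψ] at h4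
    rw [Tr]
    have : asg x (v 0) = fun i => v (asg (e 0) 0 i) := by
      funext i
      by_cases hi : i = 0
      · simp [asg, hi, h6]
      · simp [asg, hi]
    rw [this]
    exact h4

/-- An ill-founded code gives a branch. -/
theorem branch_of_illFounded {c : ℕ → ℕ} (hc : ¬ WellFounded (Ec c)) :
    ∃ b : ℕ → ℕ × Ordinal.{u}, UB' Kr c b ∧ (b 0).2 = 0 := by
  rw [wellFounded_iff_isEmpty_descending_chain, not_isEmpty_iff] at hc
  obtain ⟨⟨d, hd⟩⟩ := hc
  obtain ⟨w, hw, hw'⟩ := (hKP c (fun _ => 0)).1 (Or.inl ⟨d, hd, fun _ => rfl⟩)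
  refine ⟨fun i => (w i, 0), UB'.of c _ hw (fun i => le_rfl) (fun i j h => ?_), rfl⟩
  exact (h (hw' _)).elim

/-- A witness in a countable infinite transitive set gives a branch. -/
theorem branch_of_witness {c : ℕ → ℕ} {v : ℕ → ZFSet.{u}} (hv : ∀ n, IsVal (Ec c) (v n) n)
    {T : Set ZFSet.{u}} (hTc : T.Countable) (hTi : T.Infinite) (hT : ∀ x ∈ T, ∀ y ∈ x, y ∈ T)
    (hvT : ∀ n, v n ∈ T) {y : ZFSet.{u}} (hy : y ∈ T) (htr : Tr ψ (v 0) y) {β : Ordinal.{u}}
    (hβ : ∀ z ∈ T, z.rank < β) :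
    ∃ b : ℕ → ℕ × Ordinal.{u}, UB' Kr c b ∧ (b 0).2 = β := by
  classical
  have := hTc.to_subtype
  have := hTi.to_subtype
  obtain ⟨ι0⟩ : Nonempty (ℕ ≃ T) := by
    obtain ⟨hden⟩ := nonempty_denumerable T
    exact ⟨(Denumerable.eqv T).symm⟩
  let ι : ℕ ≃ T := (Equiv.swap 0 (ι0.symm ⟨y, hy⟩)).trans ι0
  have hι0 : (ι 0).1 = y := by simp [ι]
  let ε : ℕ → ℕ := fun k => if (ι k.unpair.1).1 ∈ (ι k.unpair.2).1 then 1 else 0
  have hε : ∀ m n, Ec ε m n ↔ (ι m).1 ∈ (ι n).1 := by
    intro m n; simp [Ec, ε]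
  have hι : ∀ n, IsVal (Ec ε) (ι n).1 n := by
    have : ∀ x : ZFSet.{u}, ∀ n, (ι n).1 = x → IsVal (Ec ε) x n := by
      intro x
      induction x using ZFSet.inductionOn with
      | _ x ih =>
        intro n hn
        rw [isVal_iff]
        constructor
        · intro m hm
          rw [hε, hn] at hm
          exact ⟨_, hm, ih _ hm m rfl⟩
        · intro z hz
          have hzT : z ∈ T := hT _ (ι n).2 z (hn ▸ hz)
          refine ⟨ι.symm ⟨z, hzT⟩, ?_, ih z hz _ (by simp)⟩
          rw [hε, hn]; simpa using hz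
    exact fun n => this _ n rfl
  let e : ℕ → ℕ := fun n => ι.symm ⟨v n, hvT n⟩
  have he : ∀ n, (ι (e n)).1 = v n := fun n => by simp [e]
  have hvmem : ∀ m n, Ec c m n → v m ∈ v n := by
    intro m n h
    obtain ⟨y, hy, hy'⟩ := (isVal_iff.1 (hv n)).1 m h
    rw [(hv m).unique hy']; exact hy
  have hext : ∀ i j, (∀ k, Ec ε k i ↔ Ec ε k j) → i = j := by
    intro i j h
    apply ι.injective
    apply Subtype.ext
    ext z
    constructor
    · intro hz
      have hzT := hT _ (ι i).2 z hz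
      have h1 := (h (ι.symm ⟨z, hzT⟩)).1 ((hε _ _).2 (by simpa using hz))
      rw [hε] at h1
      simpa using h1
    · intro hz
      have hzT := hT _ (ι j).2 z hz
      have h1 := (h (ι.symm ⟨z, hzT⟩)).2 ((hε _ _).2 (by simpa using hz))
      rw [hε] at h1
      simpa using h1
  have hPr : Pr ψ c ε := by
    refine Or.inr ⟨e, fun m n h => ?_, fun k n h => ?_, hext, ?_⟩
    · rw [hε, he, he]; exact hvmem m n h
    · rw [hε, he] at h
      obtain ⟨m, hm, hm'⟩ := (isVal_iff.1 (hv n)).2 _ h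
      refine ⟨m, hm, ?_⟩
      apply ι.injective
      apply Subtype.ext
      rw [he, (hv m).unique hm']
    · rw [sat_collapse hext hι hψ]
      have : (fun i => (ι (asg (e 0) 0 i)).1) = asg (v 0) y := by
        funext i
        by_cases hi : i = 0
        · simp [asg, hi, he]
        · simp [asg, hi, hι0]
      rw [this]
      exact htr
  obtain ⟨w, hw, hw'⟩ := (hKP _ _).1 hPr
  refine ⟨fun i => (w i, if i = 0 then β else (ι (i - 1)).1.rank),
    UB'.of c _ hw (fun i => ?_) (fun i j h => ?_), by simp⟩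
  · by_cases hi : i = 0
    · simp [hi]
    · simp only [hi, if_false, if_true]
      exact (hβ _ (ι _).2).le
  · simp only [Nat.add_sub_cancel, Nat.succ_ne_zero, if_false]
    apply ZFSet.rank_lt_of_mem
    rw [← hε]
    rw [Ec, ← hw']
    exact h

end Witness

end Pool.Agent.H17.Omega
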