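import Pool.Agent.H17.Omega.LSa

/-!
# Countable transitive models of ZFC: Skolem hulls
-/

set_option autoImplicit false
set_option linter.unusedVariables false
set_option linter.unusedSectionVars false
set_option linter.unusedSimpArgs false
set_option linter.deprecated false

universe u v w

namespace Pool.Agent.H17.Omega

/-! ### The Tarski-Vaught criterion for `Δ₀` formulas -/

/-- `X` is closed under witnesses for the formulas in the list, as far as they exist in `t`. -/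
def SkC (N : Set ZFSet.{u}) (t : ZFSet.{u}) (L : List (Fml × ℕ)) (X : Set ZFSet.{u}) : Prop :=
  ∀ p ∈ L, ∀ f : ℕ → N, (∀ i, (f i).1 ∈ X) → (∃ b : N, b.1 ∈ t ∧ Sat (SMem N) p.1 (upd f p.2 b)) →
    ∃ b : N, b.1 ∈ X ∧ Sat (SMem N) p.1 (upd f p.2 b)

theorem SkC.mono {N : Set ZFSet.{u}} {t : ZFSet.{u}} {L L' : List (Fml × ℕ)} {X : Set ZFSet.{u}}
    (h : SkC N t L' X) (hL : L ⊆ L') : SkC N t L X := fun p hp => h p (hL hp)

theorem exists_TV {χ : Fml} (hχ : χ.Delta0) : ∃ L : List (Fml × ℕ), ∀ (N : Set ZFSet.{u}) (t : ZFSet.{u})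
    (X : Set ZFSet.{u}) (hX : X ⊆ N), (∀ a ∈ X, a ∈ t) → t.IsTransitive → SkC N t L X → ∀ f : ℕ → X,
      (Sat (SMem X) χ f ↔ Sat (SMem N) χ (fun i => ⟨(f i).1, hX (f i).2⟩)) := by
  induction hχ with
  | mem i j => exact ⟨[], fun N t X hX _ _ _ f => Iff.rfl⟩
  | eq i j =>
    refine ⟨[], fun N t X hX _ _ _ f => ?_⟩
    show f i = f j ↔ (⟨(f i).1, hX (f i).2⟩ : N) = ⟨(f j).1, hX (f j).2⟩
    rw [Subtype.ext_iff, Subtype.mk.injEq]
  | bot => exact ⟨[], fun N t X hX _ _ _ f => Iff.rfl⟩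
  | imp _ _ ih1 ih2 =>
    obtain ⟨L1, h1⟩ := ih1
    obtain ⟨L2, h2⟩ := ih2
    refine ⟨L1 ++ L2, fun N t X hX hXt ht hL f => ?_⟩
    exact imp_congr (h1 N t X hX hXt ht (hL.mono (List.subset_append_left _ _)) f)
      (h2 N t X hX hXt ht (hL.mono (List.subset_append_right _ _)) f)
  | and _ _ ih1 ih2 =>
    obtain ⟨L1, h1⟩ := ih1
    obtain ⟨L2, h2⟩ := ih2
    refine ⟨L1 ++ L2, fun N t X hX hXt ht hL f => ?_⟩
    exact and_congr (h1 N t X hX hXt ht (hL.mono (List.subset_append_left _ _)) f)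
      (h2 N t X hX hXt ht (hL.mono (List.subset_append_right _ _)) f)
  | or _ _ ih1 ih2 =>
    obtain ⟨L1, h1⟩ := ih1
    obtain ⟨L2, h2⟩ := ih2
    refine ⟨L1 ++ L2, fun N t X hX hXt ht hL f => ?_⟩
    exact or_congr (h1 N t X hX hXt ht (hL.mono (List.subset_append_left _ _)) f)
      (h2 N t X hX hXt ht (hL.mono (List.subset_append_right _ _)) f)
  | @ball φ k j hkj _ ih =>
    obtain ⟨L, hL⟩ := ih
    refine ⟨((Fml.mem k j).and φ.not, k) :: L, fun N t X hX hXt ht hS f => ?_⟩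
    have hL' := hL N t X hX hXt ht (hS.mono (List.subset_cons_self _ _))
    have hc : ∀ x : X, (fun i => (⟨(upd f k x i).1, hX (upd f k x i).2⟩ : N)) =
        upd (fun i => (⟨(f i).1, hX (f i).2⟩ : N)) k ⟨x.1, hX x.2⟩ := fun x =>
      (upd_comp (fun x : X => (⟨x.1, hX x.2⟩ : N)) f k x)
    constructor
    · intro h b hb
      by_contra hc2
      obtain ⟨b', hb', h1, h2⟩ := hS _ (List.mem_cons_self) (fun i => (⟨(f i).1, hX (f i).2⟩ : N))
        (fun i => (f i).2) ⟨b, by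
          have hb1 : b.1 ∈ (f j).1 := by
            have : (upd (fun i => (⟨(f i).1, hX (f i).2⟩ : N)) k b j).1 = (f j).1 := by
              rw [upd_ne _ _ (Ne.symm hkj)]
            have h3 : (upd (fun i => (⟨(f i).1, hX (f i).2⟩ : N)) k b k).1 ∈
              (upd (fun i => (⟨(f i).1, hX (f i).2⟩ : N)) k b j).1 := hb
            rw [this, upd_same] at h3
            exact h3
          exact ht _ (hXt _ (f j).2) hb1, hb, hc2⟩
      apply h2
      rw [← hc ⟨b'.1, hb'⟩, ← hL']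
      apply h
      show (upd f k ⟨b'.1, hb'⟩ k).1 ∈ (upd f k ⟨b'.1, hb'⟩ j).1
      have h3 : (upd (fun i => (⟨(f i).1, hX (f i).2⟩ : N)) k b' k).1 ∈
        (upd (fun i => (⟨(f i).1, hX (f i).2⟩ : N)) k b' j).1 := h1
      rw [upd_same, upd_ne _ _ (Ne.symm hkj)] at h3
      rw [upd_same, upd_ne _ _ (Ne.symm hkj)]
      exact h3
    · intro h x hx
      rw [hL', hc x]
      apply h
      show (upd (fun i => (⟨(f i).1, hX (f i).2⟩ : N)) k ⟨x.1, hX x.2⟩ k).1 ∈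
        (upd (fun i => (⟨(f i).1, hX (f i).2⟩ : N)) k ⟨x.1, hX x.2⟩ j).1
      have h3 : (upd f k x k).1 ∈ (upd f k x j).1 := hx
      rw [upd_same, upd_ne _ _ (Ne.symm hkj)] at h3
      rw [upd_same, upd_ne _ _ (Ne.symm hkj)]
      exact h3
  | @bex φ k j hkj _ ih =>
    obtain ⟨L, hL⟩ := ih
    refine ⟨((Fml.mem k j).and φ, k) :: L, fun N t X hX hXt ht hS f => ?_⟩
    have hL' := hL N t X hX hXt ht (hS.mono (List.subset_cons_self _ _))
    have hc : ∀ x : X, (fun i => (⟨(upd f k x i).1, hX (upd f k x i).2⟩ : N)) =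
        upd (fun i => (⟨(f i).1, hX (f i).2⟩ : N)) k ⟨x.1, hX x.2⟩ := fun x =>
      (upd_comp (fun x : X => (⟨x.1, hX x.2⟩ : N)) f k x)
    constructor
    · rintro ⟨x, hx, h⟩
      rw [hL', hc x] at h
      refine ⟨⟨x.1, hX x.2⟩, ?_, h⟩
      show (upd (fun i => (⟨(f i).1, hX (f i).2⟩ : N)) k ⟨x.1, hX x.2⟩ k).1 ∈
        (upd (fun i => (⟨(f i).1, hX (f i).2⟩ : N)) k ⟨x.1, hX x.2⟩ j).1
      have h3 : (upd f k x k).1 ∈ (upd f k x j).1 := hx
      rw [upd_same, upd_ne _ _ (Ne.symm hkj)] at h3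
      rw [upd_same, upd_ne _ _ (Ne.symm hkj)]
      exact h3
    · rintro ⟨b, hb, h⟩
      obtain ⟨b', hb', h1, h2⟩ := hS _ (List.mem_cons_self) (fun i => (⟨(f i).1, hX (f i).2⟩ : N))
        (fun i => (f i).2) ⟨b, by
          have hb1 : b.1 ∈ (f j).1 := by
            have : (upd (fun i => (⟨(f i).1, hX (f i).2⟩ : N)) k b j).1 = (f j).1 := by
              rw [upd_ne _ _ (Ne.symm hkj)]
            have h3 : (upd (fun i => (⟨(f i).1, hX (f i).2⟩ : N)) k b k).1 ∈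
              (upd (fun i => (⟨(f i).1, hX (f i).2⟩ : N)) k b j).1 := hb
            rw [this, upd_same] at h3
            exact h3
          exact ht _ (hXt _ (f j).2) hb1, hb, h⟩
      refine ⟨⟨b'.1, hb'⟩, ?_, ?_⟩
      · show (upd f k ⟨b'.1, hb'⟩ k).1 ∈ (upd f k ⟨b'.1, hb'⟩ j).1
        have h3 : (upd (fun i => (⟨(f i).1, hX (f i).2⟩ : N)) k b' k).1 ∈
          (upd (fun i => (⟨(f i).1, hX (f i).2⟩ : N)) k b' j).1 := h1
        rw [upd_same, upd_ne _ _ (Ne.symm hkj)] at h3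
        rw [upd_same, upd_ne _ _ (Ne.symm hkj)]
        exact h3
      · rw [hL', hc ⟨b'.1, hb'⟩]
        exact h2

end Pool.Agent.H17.Omega
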