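import Pool.Agent.H17.Omega.LSb

/-!
# Countable transitive models of ZFC: Skolem hulls
-/

set_option autoImplicit false
set_option linter.unusedVariables false
set_option linter.unusedSectionVars false
set_option linter.unusedSimpArgs false
set_option linter.deprecated false

universe u v w

namespace Pool.Agent.H17.Omega

namespace CTM

variable {N : Set ZFSet.{u}} {hN : CTM N}

/-- `z'` is a component of the code `z`. -/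
def RC (z' z : N) : Prop := (∃ m : N, (∃ e : N, (∃ z1 : N, (∃ z2 : N, (z.1 = ZFSet.pair m.1 e.1 ∧ e.1 = ZFSet.pair z1.1 z2.1 ∧ ((z' = z1 ∨ z' = z2)))))))

theorem RC_dfn : hN.Dfn (fun v : Fin 2 → N => RC (v 0) (v 1)) := by
  exact (Dfn.ex (P := fun v m => (∃ e : N, (∃ z1 : N, (∃ z2 : N, ((v 1).1 = ZFSet.pair m.1 e.1 ∧ e.1 = ZFSet.pair z1.1 z2.1 ∧ (((v 0) = z1 ∨ (v 0) = z2)))))))
  (Dfn.ex (P := fun v e => (∃ z1 : N, (∃ z2 : N, ((v 1).1 = ZFSet.pair (v 2).1 e.1 ∧ e.1 = ZFSet.pair z1.1 z2.1 ∧ (((v 0) = z1 ∨ (v 0) = z2))))))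
  (Dfn.ex (P := fun v z1 => (∃ z2 : N, ((v 1).1 = ZFSet.pair (v 2).1 (v 3).1 ∧ (v 3).1 = ZFSet.pair z1.1 z2.1 ∧ (((v 0) = z1 ∨ (v 0) = z2)))))
  (Dfn.ex (P := fun v z2 => ((v 1).1 = ZFSet.pair (v 2).1 (v 3).1 ∧ (v 3).1 = ZFSet.pair (v 4).1 z2.1 ∧ (((v 0) = (v 4) ∨ (v 0) = z2))))
  (Dfn.and (Dfn.isPair (DT.var _) (DT.var _) (DT.var _))
  (Dfn.and (Dfn.isPair (DT.var _) (DT.var _) (DT.var _))
  (Dfn.or (Dfn.eq (DT.var _) (DT.var _))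
  (Dfn.eq (DT.var _) (DT.var _)))))))))

theorem RC_wf : WellFounded (RC (N := N)) := by
  refine Subrelation.wf (r := InvImage (· < ·) (fun z : N => z.1.rank)) ?_ (InvImage.wf _ wellFounded_lt)
  rintro z' z ⟨m, e, z1, z2, h1, h2, h3⟩
  show z'.1.rank < z.1.rank
  rw [h1]
  have h4 : e.1.rank < (ZFSet.pair m.1 e.1).rank := (rank_lt_pair _ _).2
  have h5 : z'.1.rank < e.1.rank := by
    rw [h2]
    rcases h3 with rfl | rfl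
    · exact (rank_lt_pair _ _).1
    · exact (rank_lt_pair _ _).2
  exact h5.trans h4

include hN in
theorem RC_set (z : N) : ∃ e ∈ N, ∀ y : N, y.1 ∈ e ↔ RC y z := by
  have h1 := hN.sUnion_mem (hN.sUnion_mem (hN.sUnion_mem z.2))
  obtain ⟨e, he, he'⟩ := hN.exists_sep (P := fun y => RC y z)
    (Dfn.subst2 (P := RC) RC_dfn (DT.var _) (DT.const z)) h1
  refine ⟨e, he, fun y => ?_⟩
  rw [he']
  constructor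
  · rintro ⟨_, _, h⟩; exact h
  · intro h
    refine ⟨?_, y.2, h⟩
    obtain ⟨m, e, z1, z2, h1, h2, h3⟩ := h
    have h4 : e.1 ∈ ZFSet.sUnion z.1 :=
      ZFSet.mem_sUnion.2 ⟨{m.1, e.1}, by rw [h1, ZFSet.pair, ZFSet.mem_pair]; exact Or.inr rfl, by simp⟩
    have h5 : ({z1.1, z2.1} : ZFSet.{u}) ∈ ZFSet.sUnion (ZFSet.sUnion z.1) :=
      ZFSet.mem_sUnion.2 ⟨e.1, h4, by rw [h2, ZFSet.pair, ZFSet.mem_pair]; exact Or.inr rfl⟩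
    rcases h3 with rfl | rfl
    · exact ZFSet.mem_sUnion.2 ⟨_, h5, by simp⟩
    · exact ZFSet.mem_sUnion.2 ⟨_, h5, by simp⟩

/-- The chosen witness. -/
def HR (hN : CTM N) (x0 : N) (L : List (Fml × ℕ)) (t c : ZFSet.{u}) (y : N) (g e v0 : N) : Prop := (∃ X : N, (((∀ b : N, (b.1 ∈ X.1 ↔ (b.1 ∈ t ∧ WW hN x0 L g e b)))) ∧ ((((X.1 = ∅ ∧ v0.1 = y.1)) ∨ ((v0.1 ∈ X.1 ∧ ZFSet.pair X.1 v0.1 ∈ c))))))

theorem HR_dfn (x0 : N) (L : List (Fml × ℕ)) {t c : ZFSet.{u}} (ht : t ∈ N) (hc : c ∈ N) (y : N) :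
    hN.Dfn (fun v : Fin 3 → N => HR hN x0 L t c y (v 0) (v 1) (v 2)) := by
  exact (Dfn.ex (P := fun v X => (((∀ b : N, (b.1 ∈ X.1 ↔ (b.1 ∈ t ∧ WW hN x0 L (v 0) (v 1) b)))) ∧ ((((X.1 = ∅ ∧ (v 2).1 = y.1)) ∨ (((v 2).1 ∈ X.1 ∧ ZFSet.pair X.1 (v 2).1 ∈ c))))))
  (Dfn.and (Dfn.all (P := fun v b => (b.1 ∈ (v 3).1 ↔ (b.1 ∈ t ∧ WW hN x0 L (v 0) (v 1) b)))
  (Dfn.iff (Dfn.mem (DT.var _) (DT.var _))
  (Dfn.and (Dfn.mem (DT.var _) (DT.const ⟨t, ht⟩))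
  (Dfn.subst3 (P := WW hN x0 L) (WW_dfn x0 L) (DT.var _) (DT.var _) (DT.var _)))))
  (Dfn.or (Dfn.and (Dfn.isEmpty (DT.var _))
  (Dfn.eqv (DT.var _) (DT.const y)))
  (Dfn.and (Dfn.mem (DT.var _) (DT.var _))
  (Dfn.pairMem (DT.var _) (DT.var _) (DT.const ⟨c, hc⟩))))))

/-- One step of the recursion that defines the hull. -/
def GG (hN : CTM N) (x0 : N) (L : List (Fml × ℕ)) (s t c : ZFSet.{u}) (y : N) (z : N)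
    (r : N → N → Prop) (v : N) : Prop := (((∃ a : N, (z.1 = ZFSet.pair s a.1 ∧ a.1 ∈ s ∧ v = a))) ∨ ((∃ e : N, (∃ z1 : N, (∃ z2 : N, (∃ a : N, (∃ b : N, (z.1 = ZFSet.pair ({s} : ZFSet.{u}) e.1 ∧ e.1 = ZFSet.pair z1.1 z2.1 ∧ r z1 a ∧ r z2 b ∧ v.1 = ZFSet.pair a.1 b.1))))))) ∨ ((∃ e : N, (∃ z1 : N, (∃ z2 : N, (∃ a : N, (∃ b : N, (z.1 = ZFSet.pair (ZFSet.pair s s) e.1 ∧ e.1 = ZFSet.pair z1.1 z2.1 ∧ r z1 a ∧ r z2 b ∧ HR hN x0 L t c y a b v))))))) ∨ (((¬ ((∃ a : N, (z.1 = ZFSet.pair s a.1 ∧ a.1 ∈ s)))) ∧ (¬ ((∃ e : N, (∃ z1 : N, (∃ z2 : N, (z.1 = ZFSet.pair ({s} : ZFSet.{u}) e.1 ∧ e.1 = ZFSet.pair z1.1 z2.1)))))) ∧ (¬ ((∃ e : N, (∃ z1 : N, (∃ z2 : N, (z.1 = ZFSet.pair (ZFSet.pair s s) e.1 ∧ e.1 = ZFSet.pair z1.1 z2.1)))))) ∧ v = y)))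

section

variable (x0 : N) (L : List (Fml × ℕ)) {s t c : ZFSet.{u}} (hs : s ∈ N) (ht : t ∈ N) (hc : c ∈ N) (y : N)
  {p : ZFSet.{u}} (hp : ∀ z, z ∈ p ↔ z ∈ N ∧ z ⊆ t)
  (hc' : ∀ b ∈ p, b ≠ ∅ → ∃ y ∈ b, ZFSet.pair b y ∈ c ∧ ∀ y' ∈ b, ZFSet.pair b y' ∈ c → y' = y)

include hp hc' in
theorem HR_unique {g e v v' : N} (h : HR hN x0 L t c y g e v) (h' : HR hN x0 L t c y g e v') : v = v' := by
  obtain ⟨X, h2, h3⟩ := h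
  obtain ⟨X', h2', h3'⟩ := h'
  have e2 : X = X' := Subtype.ext (hN.ext' X.2 X'.2 fun z => (h2 z).trans (h2' z).symm)
  subst e2
  have hXp : X.1 ∈ p := (hp _).2 ⟨X.2, fun a ha => ((h2 ⟨a, hN.mem_of_mem X.2 ha⟩).1 ha).1⟩
  rcases h3 with ⟨h3, h4⟩ | ⟨h3, h4⟩ <;> rcases h3' with ⟨h3', h4'⟩ | ⟨h3', h4'⟩
  · exact Subtype.ext (h4.trans h4'.symm)
  · rw [h3] at h3'; exact (ZFSet.notMem_empty _ h3').elim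
  · rw [h3'] at h3; exact (ZFSet.notMem_empty _ h3).elim
  · obtain ⟨y, hy, h5, h6⟩ := hc' X.1 hXp (fun h0 => by rw [h0] at h3; exact ZFSet.notMem_empty _ h3)
    exact Subtype.ext ((h6 _ h3 h4).trans (h6 _ h3' h4').symm)

include hp hc' ht in
theorem HR_exists (g e : N) : ∃ v, HR hN x0 L t c y g e v := by
  obtain ⟨X, hX, hX'⟩ := hN.exists_sep (P := fun b => WW hN x0 L g e b)
    (Dfn.subst3 (P := WW hN x0 L) (WW_dfn x0 L) (DT.const g) (DT.const e) (DT.var _)) ht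
  have g2 : ∀ b : N, (b.1 ∈ X ↔ (b.1 ∈ t ∧ WW hN x0 L g e b)) := by
    intro b; rw [hX']; exact and_congr_right fun _ => ⟨fun ⟨_, h⟩ => h, fun h => ⟨b.2, h⟩⟩
  by_cases h0 : X = ∅
  · exact ⟨y, ⟨X, hX⟩, g2, Or.inl ⟨h0, rfl⟩⟩
  · have hXp : X ∈ p := (hp _).2 ⟨hX, fun a ha => ((g2 ⟨a, hN.mem_of_mem hX ha⟩).1 ha).1⟩
    obtain ⟨v, hv, h5, h6⟩ := hc' X hXp h0
    exact ⟨⟨v, hN.mem_of_mem hX hv⟩, ⟨X, hX⟩, g2, Or.inr ⟨hv, h5⟩⟩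

theorem HR_spec {g e v : N} (h : HR hN x0 L t c y g e v) (hb : ∃ b : N, b.1 ∈ t ∧ WW hN x0 L g e b) :
    v.1 ∈ t ∧ WW hN x0 L g e v := by
  obtain ⟨X, h2, h3⟩ := h
  obtain ⟨b, hb⟩ := hb
  rcases h3 with ⟨h3, _⟩ | ⟨h3, _⟩
  · have := (h2 b).2 hb
    rw [h3] at this
    exact (ZFSet.notMem_empty _ this).elim
  · exact (h2 v).1 h3

theorem mk1 : s ≠ ({s} : ZFSet.{u}) := fun h => ZFSet.mem_irrefl s (by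
  have : s ∈ ({s} : ZFSet.{u}) := ZFSet.mem_singleton.2 rfl
  rwa [← h] at this)

theorem mk2 : s ≠ ZFSet.pair s s := ne_pair_right s s

theorem mk3 : ({s} : ZFSet.{u}) ≠ ZFSet.pair s s := fun h => by
  have h1 : ({s, s} : ZFSet.{u}) ∈ ZFSet.pair s s := by
    rw [ZFSet.pair, ZFSet.mem_pair]; exact Or.inr rfl
  rw [← h, ZFSet.mem_singleton] at h1
  have h2 : s ∈ ({s, s} : ZFSet.{u}) := by simp
  rw [h1] at h2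
  exact ZFSet.mem_irrefl _ h2

include hp hc' in
theorem GG_unique {z : N} {r : N → N → Prop} (hr : ∀ y w w', r y w → r y w' → w = w') {v v' : N}
    (h : GG hN x0 L s t c y z r v) (h' : GG hN x0 L s t c y z r v') : v = v' := by
  rcases h with ⟨a, h1, h2, h3⟩ | ⟨e, z1, z2, a, b, h1, h2, h3, h4, h5⟩ |
      ⟨e, z1, z2, a, b, h1, h2, h3, h4, h5⟩ | ⟨h1, h2, h3, h4⟩ <;>
    rcases h' with ⟨a', h1', h2', h3'⟩ | ⟨e', z1', z2', a', b', h1', h2', h3', h4', h5'⟩ |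
      ⟨e', z1', z2', a', b', h1', h2', h3', h4', h5'⟩ | ⟨h1', h2', h3', h4'⟩
  · rw [h1, ZFSet.pair_inj] at h1'
    rw [h3, h3']; exact Subtype.ext h1'.2
  · rw [h1, ZFSet.pair_inj] at h1'; exact (mk1 h1'.1).elim
  · rw [h1, ZFSet.pair_inj] at h1'; exact (mk2 h1'.1).elim
  · exact (h1' ⟨a, h1, h2⟩).elim
  · rw [h1, ZFSet.pair_inj] at h1'; exact (mk1 h1'.1.symm).elim
  · rw [h1, ZFSet.pair_inj] at h1'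
    have e1 : e = e' := Subtype.ext h1'.2
    subst e1
    rw [h2, ZFSet.pair_inj] at h2'
    have e2 : z1 = z1' := Subtype.ext h2'.1
    have e3 : z2 = z2' := Subtype.ext h2'.2
    subst e2; subst e3
    rw [hr _ _ _ h3 h3', hr _ _ _ h4 h4'] at h5
    exact Subtype.ext (h5.trans h5'.symm)
  · rw [h1, ZFSet.pair_inj] at h1'; exact (mk3 h1'.1).elim
  · exact (h2' ⟨e, z1, z2, h1, h2⟩).elim
  · rw [h1, ZFSet.pair_inj] at h1'; exact (mk2 h1'.1.symm).elim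
  · rw [h1, ZFSet.pair_inj] at h1'; exact (mk3 h1'.1.symm).elim
  · rw [h1, ZFSet.pair_inj] at h1'
    have e1 : e = e' := Subtype.ext h1'.2
    subst e1
    rw [h2, ZFSet.pair_inj] at h2'
    have e2 : z1 = z1' := Subtype.ext h2'.1
    have e3 : z2 = z2' := Subtype.ext h2'.2
    subst e2; subst e3
    rw [hr _ _ _ h3 h3', hr _ _ _ h4 h4'] at h5
    exact HR_unique x0 L y hp hc' h5 h5'
  · exact (h3' ⟨e, z1, z2, h1, h2⟩).elim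
  · exact (h1 ⟨a', h1', h2'⟩).elim
  · exact (h2 ⟨e', z1', z2', h1', h2'⟩).elim
  · exact (h3 ⟨e', z1', z2', h1', h2'⟩).elim
  · rw [h4, h4']

include hp hc' ht in
theorem GG_exists {z : N} {r : N → N → Prop} (hr : ∀ z', RC z' z → ∃ w, r z' w) :
    ∃ v, GG hN x0 L s t c y z r v := by
  by_cases h1 : ∃ a : N, z.1 = ZFSet.pair s a.1 ∧ a.1 ∈ s
  · obtain ⟨a, h1, h2⟩ := h1
    exact ⟨a, Or.inl ⟨a, h1, h2, rfl⟩⟩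
  · by_cases h2 : ∃ e z1 z2 : N, z.1 = ZFSet.pair {s} e.1 ∧ e.1 = ZFSet.pair z1.1 z2.1
    · obtain ⟨e, z1, z2, h2, h3⟩ := h2
      have hsN : ({s} : ZFSet.{u}) ∈ N := (hN.of_pair_mem (by rw [← h2]; exact z.2)).1
      obtain ⟨a, ha⟩ := hr z1 ⟨⟨_, hsN⟩, e, z1, z2, h2, h3, Or.inl rfl⟩
      obtain ⟨b, hb⟩ := hr z2 ⟨⟨_, hsN⟩, e, z1, z2, h2, h3, Or.inr rfl⟩
      exact ⟨⟨_, hN.pair_mem a.2 b.2⟩, Or.inr (Or.inl ⟨e, z1, z2, a, b, h2, h3, ha, hb, rfl⟩)⟩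
    · by_cases h3 : ∃ e z1 z2 : N, z.1 = ZFSet.pair (ZFSet.pair s s) e.1 ∧ e.1 = ZFSet.pair z1.1 z2.1
      · obtain ⟨e, z1, z2, h3, h4⟩ := h3
        have hsN : ZFSet.pair s s ∈ N := (hN.of_pair_mem (by rw [← h3]; exact z.2)).1
        obtain ⟨a, ha⟩ := hr z1 ⟨⟨_, hsN⟩, e, z1, z2, h3, h4, Or.inl rfl⟩
        obtain ⟨b, hb⟩ := hr z2 ⟨⟨_, hsN⟩, e, z1, z2, h3, h4, Or.inr rfl⟩
        obtain ⟨v, hv⟩ := HR_exists x0 L ht y hp hc' a b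
        exact ⟨v, Or.inr (Or.inr (Or.inl ⟨e, z1, z2, a, b, h3, h4, ha, hb, hv⟩))⟩
      · exact ⟨y, Or.inr (Or.inr (Or.inr ⟨h1, h2, h3, rfl⟩))⟩

end

/-- The Skolem hull function. -/
theorem exists_hull (hN : CTM N) (x0 : N) (L : List (Fml × ℕ)) {s t : ZFSet.{u}} (hs : s ∈ N) (ht : t ∈ N)
    (y : N) : ∃ F : N → N, hN.Dfn (fun v : Fin 2 → N => F (v 0) = v 1) ∧
      (∀ z a : N, z.1 = ZFSet.pair s a.1 → a.1 ∈ s → F z = a) ∧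
      (∀ z : N, z.1 = s → F z = y) ∧
      (∀ z e z1 z2 : N, z.1 = ZFSet.pair {s} e.1 → e.1 = ZFSet.pair z1.1 z2.1 →
        (F z).1 = ZFSet.pair (F z1).1 (F z2).1) ∧
      (∀ z e z1 z2 : N, z.1 = ZFSet.pair (ZFSet.pair s s) e.1 → e.1 = ZFSet.pair z1.1 z2.1 →
        (∃ b : N, b.1 ∈ t ∧ WW hN x0 L (F z1) (F z2) b) → (F z).1 ∈ t ∧ WW hN x0 L (F z1) (F z2) (F z)) := by
  obtain ⟨p, hp, hp'⟩ := hN.exists_pow ht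
  obtain ⟨c, hc, hc'⟩ := hN.exists_choice hp
  have hRCu : ∀ (z h : N), (∀ y, RC y z → ∃ w : N, ZFSet.pair y.1 w.1 ∈ h.1) →
      (∀ y, RC y z → ∀ w w' : N, ZFSet.pair y.1 w.1 ∈ h.1 → ZFSet.pair y.1 w'.1 ∈ h.1 → w = w') →
      ∃ v, GG hN x0 L s t c y z (fun y w => RC y z ∧ ZFSet.pair y.1 w.1 ∈ h.1) v ∧
        ∀ v', GG hN x0 L s t c y z (fun y w => RC y z ∧ ZFSet.pair y.1 w.1 ∈ h.1) v' → v' = v := by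
    intro z h h1 h2
    obtain ⟨v, hv⟩ := GG_exists (hN := hN) x0 L (s := s) ht y hp' hc' (z := z)
      (r := fun y w => RC y z ∧ ZFSet.pair y.1 w.1 ∈ h.1) (fun z' hz' => by
        obtain ⟨w, hw⟩ := h1 z' hz'; exact ⟨w, hz', hw⟩)
    exact ⟨v, hv, fun v' hv' => GG_unique x0 L y hp' hc'
      (fun y w w' h3 h4 => h2 y h3.1 w w' h3.2 h4.2) hv' hv⟩
  obtain ⟨F, hF, hF'⟩ := recursion (hN := hN) (R := RC) (𝒢 := fun z r v0 =>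
    ∀ cc : N, (cc.1 ∈ v0.1 ↔ ∃ v1 : N, (GG hN x0 L s t c y z r v1 ∧ cc.1 ∈ v1.1))) RC_dfn (by
      exact (Dfn.all (P := fun v cc => (cc.1 ∈ (v 2).1 ↔ (∃ v1 : N, (((((∃ a : N, ((v 0).1 = ZFSet.pair s a.1 ∧ a.1 ∈ s ∧ v1 = a))) ∨ ((∃ e : N, (∃ z1 : N, (∃ z2 : N, (∃ a : N, (∃ b : N, ((v 0).1 = ZFSet.pair ({s} : ZFSet.{u}) e.1 ∧ e.1 = ZFSet.pair z1.1 z2.1 ∧ ((RC z1 (v 0) ∧ ZFSet.pair z1.1 a.1 ∈ (v 1).1)) ∧ ((RC z2 (v 0) ∧ ZFSet.pair z2.1 b.1 ∈ (v 1).1)) ∧ v1.1 = ZFSet.pair a.1 b.1))))))) ∨ ((∃ e : N, (∃ z1 : N, (∃ z2 : N, (∃ a : N, (∃ b : N, ((v 0).1 = ZFSet.pair (ZFSet.pair s s) e.1 ∧ e.1 = ZFSet.pair z1.1 z2.1 ∧ ((RC z1 (v 0) ∧ ZFSet.pair z1.1 a.1 ∈ (v 1).1)) ∧ ((RC z2 (v 0) ∧ ZFSet.pair z2.1 b.1 ∈ (v 1).1)) ∧ HR hN x0 L t c y a b v1))))))) ∨ (((¬ ((∃ a : N, ((v 0).1 = ZFSet.pair s a.1 ∧ a.1 ∈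 s)))) ∧ (¬ ((∃ e : N, (∃ z1 : N, (∃ z2 : N, ((v 0).1 = ZFSet.pair ({s} : ZFSet.{u}) e.1 ∧ e.1 = ZFSet.pair z1.1 z2.1)))))) ∧ (¬ ((∃ e : N, (∃ z1 : N, (∃ z2 : N, ((v 0).1 = ZFSet.pair (ZFSet.pair s s) e.1 ∧ e.1 = ZFSet.pair z1.1 z2.1)))))) ∧ v1 = y)))) ∧ cc.1 ∈ v1.1))))
  (Dfn.iff (Dfn.mem (DT.var _) (DT.var _))
  (Dfn.ex (P := fun v v1 => (((((∃ a : N, ((v 0).1 = ZFSet.pair s a.1 ∧ a.1 ∈ s ∧ v1 = a))) ∨ ((∃ e : N, (∃ z1 : N, (∃ z2 : N, (∃ a : N, (∃ b : N, ((v 0).1 = ZFSet.pair ({s} : ZFSet.{u}) e.1 ∧ e.1 = ZFSet.pair z1.1 z2.1 ∧ ((RC z1 (v 0) ∧ ZFSet.pair z1.1 a.1 ∈ (v 1).1)) ∧ ((RC z2 (v 0) ∧ ZFSet.pair z2.1 b.1 ∈ (v 1).1)) ∧ v1.1 = ZFSet.pair a.1 b.1))))))) ∨ ((∃ e : N, (∃ z1 : N, (∃ z2 : N, (∃ a : N, (∃ b : N, ((v 0).1 = ZFSet.pair (ZFSet.pair s s) e.1 ∧ e.1 = ZFSet.pair z1.1 z2.1 ∧ ((RC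 z1 (v 0) ∧ ZFSet.pair z1.1 a.1 ∈ (v 1).1)) ∧ ((RC z2 (v 0) ∧ ZFSet.pair z2.1 b.1 ∈ (v 1).1)) ∧ HR hN x0 L t c y a b v1))))))) ∨ (((¬ ((∃ a : N, ((v 0).1 = ZFSet.pair s a.1 ∧ a.1 ∈ s)))) ∧ (¬ ((∃ e : N, (∃ z1 : N, (∃ z2 : N, ((v 0).1 = ZFSet.pair ({s} : ZFSet.{u}) e.1 ∧ e.1 = ZFSet.pair z1.1 z2.1)))))) ∧ (¬ ((∃ e : N, (∃ z1 : N, (∃ z2 : N, ((v 0).1 = ZFSet.pair (ZFSet.pair s s) e.1 ∧ e.1 = ZFSet.pair z1.1 z2.1)))))) ∧ v1 = y)))) ∧ (v 3).1 ∈ v1.1))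
  (Dfn.and (Dfn.or (Dfn.ex (P := fun v a => ((v 0).1 = ZFSet.pair s a.1 ∧ a.1 ∈ s ∧ (v 4) = a))
  (Dfn.and (Dfn.isPair (DT.var _) (DT.const ⟨s, hs⟩) (DT.var _))
  (Dfn.and (Dfn.mem (DT.var _) (DT.const ⟨s, hs⟩))
  (Dfn.eq (DT.var _) (DT.var _)))))
  (Dfn.or (Dfn.ex (P := fun v e => (∃ z1 : N, (∃ z2 : N, (∃ a : N, (∃ b : N, ((v 0).1 = ZFSet.pair ({s} : ZFSet.{u}) e.1 ∧ e.1 = ZFSet.pair z1.1 z2.1 ∧ ((RC z1 (v 0) ∧ ZFSet.pair z1.1 a.1 ∈ (v 1).1)) ∧ ((RC z2 (v 0) ∧ ZFSet.pair z2.1 b.1 ∈ (v 1).1)) ∧ (v 4).1 = ZFSet.pair a.1 b.1))))))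
  (Dfn.ex (P := fun v z1 => (∃ z2 : N, (∃ a : N, (∃ b : N, ((v 0).1 = ZFSet.pair ({s} : ZFSet.{u}) (v 5).1 ∧ (v 5).1 = ZFSet.pair z1.1 z2.1 ∧ ((RC z1 (v 0) ∧ ZFSet.pair z1.1 a.1 ∈ (v 1).1)) ∧ ((RC z2 (v 0) ∧ ZFSet.pair z2.1 b.1 ∈ (v 1).1)) ∧ (v 4).1 = ZFSet.pair a.1 b.1)))))
  (Dfn.ex (P := fun v z2 => (∃ a : N, (∃ b : N, ((v 0).1 = ZFSet.pair ({s} : ZFSet.{u}) (v 5).1 ∧ (v 5).1 = ZFSet.pair (v 6).1 z2.1 ∧ ((RC (v 6) (v 0) ∧ ZFSet.pair (v 6).1 a.1 ∈ (v 1).1)) ∧ ((RC z2 (v 0) ∧ ZFSet.pair z2.1 b.1 ∈ (v 1).1)) ∧ (v 4).1 = ZFSet.pair a.1 b.1))))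
  (Dfn.ex (P := fun v a => (∃ b : N, ((v 0).1 = ZFSet.pair ({s} : ZFSet.{u}) (v 5).1 ∧ (v 5).1 = ZFSet.pair (v 6).1 (v 7).1 ∧ ((RC (v 6) (v 0) ∧ ZFSet.pair (v 6).1 a.1 ∈ (v 1).1)) ∧ ((RC (v 7) (v 0) ∧ ZFSet.pair (v 7).1 b.1 ∈ (v 1).1)) ∧ (v 4).1 = ZFSet.pair a.1 b.1)))
  (Dfn.ex (P := fun v b => ((v 0).1 = ZFSet.pair ({s} : ZFSet.{u}) (v 5).1 ∧ (v 5).1 = ZFSet.pair (v 6).1 (v 7).1 ∧ ((RC (v 6) (v 0) ∧ ZFSet.pair (v 6).1 (v 8).1 ∈ (v 1).1)) ∧ ((RC (v 7) (v 0) ∧ ZFSet.pair (v 7).1 b.1 ∈ (v 1).1)) ∧ (v 4).1 = ZFSet.pair (v 8).1 b.1))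
  (Dfn.and (Dfn.isPair (DT.var _) (DT.const ⟨{s}, hN.singleton_mem hs⟩) (DT.var _))
  (Dfn.and (Dfn.isPair (DT.var _) (DT.var _) (DT.var _))
  (Dfn.and (Dfn.and (Dfn.subst2 (P := RC) RC_dfn (DT.var _) (DT.var _))
  (Dfn.pairMem (DT.var _) (DT.var _) (DT.var _)))
  (Dfn.and (Dfn.and (Dfn.subst2 (P := RC) RC_dfn (DT.var _) (DT.var _))
  (Dfn.pairMem (DT.var _) (DT.var _) (DT.var _)))
  (Dfn.isPair (DT.var _) (DT.var _) (DT.var _)))))))))))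
  (Dfn.or (Dfn.ex (P := fun v e => (∃ z1 : N, (∃ z2 : N, (∃ a : N, (∃ b : N, ((v 0).1 = ZFSet.pair (ZFSet.pair s s) e.1 ∧ e.1 = ZFSet.pair z1.1 z2.1 ∧ ((RC z1 (v 0) ∧ ZFSet.pair z1.1 a.1 ∈ (v 1).1)) ∧ ((RC z2 (v 0) ∧ ZFSet.pair z2.1 b.1 ∈ (v 1).1)) ∧ HR hN x0 L t c y a b (v 4)))))))
  (Dfn.ex (P := fun v z1 => (∃ z2 : N, (∃ a : N, (∃ b : N, ((v 0).1 = ZFSet.pair (ZFSet.pair s s) (v 5).1 ∧ (v 5).1 = ZFSet.pair z1.1 z2.1 ∧ ((RC z1 (v 0) ∧ ZFSet.pair z1.1 a.1 ∈ (v 1).1)) ∧ ((RC z2 (v 0) ∧ ZFSet.pair z2.1 b.1 ∈ (v 1).1)) ∧ HR hN x0 L t c y a b (v 4))))))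
  (Dfn.ex (P := fun v z2 => (∃ a : N, (∃ b : N, ((v 0).1 = ZFSet.pair (ZFSet.pair s s) (v 5).1 ∧ (v 5).1 = ZFSet.pair (v 6).1 z2.1 ∧ ((RC (v 6) (v 0) ∧ ZFSet.pair (v 6).1 a.1 ∈ (v 1).1)) ∧ ((RC z2 (v 0) ∧ ZFSet.pair z2.1 b.1 ∈ (v 1).1)) ∧ HR hN x0 L t c y a b (v 4)))))
  (Dfn.ex (P := fun v a => (∃ b : N, ((v 0).1 = ZFSet.pair (ZFSet.pair s s) (v 5).1 ∧ (v 5).1 = ZFSet.pair (v 6).1 (v 7).1 ∧ ((RC (v 6) (v 0) ∧ ZFSet.pair (v 6).1 a.1 ∈ (v 1).1)) ∧ ((RC (v 7) (v 0) ∧ ZFSet.pair (v 7).1 b.1 ∈ (v 1).1)) ∧ HR hN x0 L t c y a b (v 4))))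
  (Dfn.ex (P := fun v b => ((v 0).1 = ZFSet.pair (ZFSet.pair s s) (v 5).1 ∧ (v 5).1 = ZFSet.pair (v 6).1 (v 7).1 ∧ ((RC (v 6) (v 0) ∧ ZFSet.pair (v 6).1 (v 8).1 ∈ (v 1).1)) ∧ ((RC (v 7) (v 0) ∧ ZFSet.pair (v 7).1 b.1 ∈ (v 1).1)) ∧ HR hN x0 L t c y (v 8) b (v 4)))
  (Dfn.and (Dfn.isPair (DT.var _) (DT.const ⟨ZFSet.pair s s, hN.pair_mem hs hs⟩) (DT.var _))
  (Dfn.and (Dfn.isPair (DT.var _) (DT.var _) (DT.var _))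
  (Dfn.and (Dfn.and (Dfn.subst2 (P := RC) RC_dfn (DT.var _) (DT.var _))
  (Dfn.pairMem (DT.var _) (DT.var _) (DT.var _)))
  (Dfn.and (Dfn.and (Dfn.subst2 (P := RC) RC_dfn (DT.var _) (DT.var _))
  (Dfn.pairMem (DT.var _) (DT.var _) (DT.var _)))
  (Dfn.subst3 (P := HR hN x0 L t c y) (HR_dfn x0 L ht hc y) (DT.var _) (DT.var _) (DT.var _)))))))))))
  (Dfn.and (Dfn.not (Dfn.ex (P := fun v a => ((v 0).1 = ZFSet.pair s a.1 ∧ a.1 ∈ s))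
  (Dfn.and (Dfn.isPair (DT.var _) (DT.const ⟨s, hs⟩) (DT.var _))
  (Dfn.mem (DT.var _) (DT.const ⟨s, hs⟩)))))
  (Dfn.and (Dfn.not (Dfn.ex (P := fun v e => (∃ z1 : N, (∃ z2 : N, ((v 0).1 = ZFSet.pair ({s} : ZFSet.{u}) e.1 ∧ e.1 = ZFSet.pair z1.1 z2.1))))
  (Dfn.ex (P := fun v z1 => (∃ z2 : N, ((v 0).1 = ZFSet.pair ({s} : ZFSet.{u}) (v 5).1 ∧ (v 5).1 = ZFSet.pair z1.1 z2.1)))
  (Dfn.ex (P := fun v z2 => ((v 0).1 = ZFSet.pair ({s} : ZFSet.{u}) (v 5).1 ∧ (v 5).1 = ZFSet.pair (v 6).1 z2.1))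
  (Dfn.and (Dfn.isPair (DT.var _) (DT.const ⟨{s}, hN.singleton_mem hs⟩) (DT.var _))
  (Dfn.isPair (DT.var _) (DT.var _) (DT.var _)))))))
  (Dfn.and (Dfn.not (Dfn.ex (P := fun v e => (∃ z1 : N, (∃ z2 : N, ((v 0).1 = ZFSet.pair (ZFSet.pair s s) e.1 ∧ e.1 = ZFSet.pair z1.1 z2.1))))
  (Dfn.ex (P := fun v z1 => (∃ z2 : N, ((v 0).1 = ZFSet.pair (ZFSet.pair s s) (v 5).1 ∧ (v 5).1 = ZFSet.pair z1.1 z2.1)))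
  (Dfn.ex (P := fun v z2 => ((v 0).1 = ZFSet.pair (ZFSet.pair s s) (v 5).1 ∧ (v 5).1 = ZFSet.pair (v 6).1 z2.1))
  (Dfn.and (Dfn.isPair (DT.var _) (DT.const ⟨ZFSet.pair s s, hN.pair_mem hs hs⟩) (DT.var _))
  (Dfn.isPair (DT.var _) (DT.var _) (DT.var _)))))))
  (Dfn.eq (DT.var _) (DT.const y))))))))
  (Dfn.mem (DT.var _) (DT.var _))))))) (RC_set (hN := hN)) RC_wf (by
      intro x r v v' h h'
      exact Subtype.ext (hN.ext' v.2 v'.2 fun z => (h z).trans (h' z).symm)) (by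
      intro z h h1 h2
      obtain ⟨v, hv, hv'⟩ := hRCu z h h1 h2
      refine ⟨v, fun cc => ⟨fun h3 => ⟨v, hv, h3⟩, ?_⟩⟩
      rintro ⟨v1, h3, h4⟩
      rw [hv' v1 h3] at h4; exact h4)
  have hFG : ∀ z : N, GG hN x0 L s t c y z (fun y w => RC y z ∧ F y = w) (F z) := by
    intro z
    obtain ⟨v, hv⟩ := GG_exists (hN := hN) x0 L (s := s) ht y hp' hc' (z := z)
      (r := fun y w => RC y z ∧ F y = w) (fun z' hz' => ⟨F z', hz', rfl⟩)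
    have hu : ∀ v', GG hN x0 L s t c y z (fun y w => RC y z ∧ F y = w) v' → v' = v := fun v' hv' =>
      GG_unique x0 L y hp' hc' (fun y w w' h3 h4 => h3.2.symm.trans h4.2) hv' hv
    have : F z = v := by
      apply Subtype.ext
      apply hN.ext' (F z).2 v.2
      intro cc
      rw [hF' z cc]
      constructor
      · rintro ⟨v1, h3, h4⟩
        rw [hu v1 h3] at h4; exact h4
      · intro h3; exact ⟨v, hv, h3⟩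
    rw [this]; exact hv
  refine ⟨F, hF, ?_, ?_, ?_, ?_⟩
  · intro z a h1 h2
    rcases hFG z with ⟨a', h1', h2', h3'⟩ | ⟨e', z1', z2', a', b', h1', h2', h3', h4', h5'⟩ |
      ⟨e', z1', z2', a', b', h1', h2', h3', h4', h5'⟩ | ⟨h1', h2', h3', h4'⟩
    · rw [h1, ZFSet.pair_inj] at h1'
      rw [h3']; exact Subtype.ext h1'.2.symm
    · rw [h1, ZFSet.pair_inj] at h1'; exact (mk1 h1'.1).elim
    · rw [h1, ZFSet.pair_inj] at h1'; exact (mk2 h1'.1).elim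
    · exact (h1' ⟨a, h1, h2⟩).elim
  · intro z hz
    rcases hFG z with ⟨a', h1', h2', h3'⟩ | ⟨e', z1', z2', a', b', h1', h2', h3', h4', h5'⟩ |
      ⟨e', z1', z2', a', b', h1', h2', h3', h4', h5'⟩ | ⟨h1', h2', h3', h4'⟩
    · have := (rank_lt_pair s a'.1).1
      rw [← h1', hz] at this
      exact (lt_irrefl _ this).elim
    · have h6 := (rank_lt_pair ({s} : ZFSet.{u}) e'.1).1
      rw [← h1', hz] at h6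
      have h7 : s.rank < ({s} : ZFSet.{u}).rank := ZFSet.rank_lt_of_mem (by simp)
      exact (lt_asymm h6 h7).elim
    · have h6 := (rank_lt_pair (ZFSet.pair s s) e'.1).1
      rw [← h1', hz] at h6
      exact (lt_asymm h6 (rank_lt_pair s s).1).elim
    · exact h4'
  · intro z e z1 z2 h1 h2
    rcases hFG z with ⟨a', h1', h2', h3'⟩ | ⟨e', z1', z2', a', b', h1', h2', ⟨_, h3'⟩, ⟨_, h4'⟩, h5'⟩ |
      ⟨e', z1', z2', a', b', h1', h2', h3', h4', h5'⟩ | ⟨h1', h2', h3', h4'⟩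
    · rw [h1, ZFSet.pair_inj] at h1'; exact (mk1 h1'.1.symm).elim
    · rw [h1, ZFSet.pair_inj] at h1'
      rw [← h1'.2, h2, ZFSet.pair_inj] at h2'
      have e2 : z1 = z1' := Subtype.ext h2'.1
      have e3 : z2 = z2' := Subtype.ext h2'.2
      rw [h5', ← h3', ← h4', e2, e3]
    · rw [h1, ZFSet.pair_inj] at h1'; exact (mk3 h1'.1).elim
    · exact (h2' ⟨e, z1, z2, h1, h2⟩).elim
  · intro z e z1 z2 h1 h2 hb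
    rcases hFG z with ⟨a', h1', h2', h3'⟩ | ⟨e', z1', z2', a', b', h1', h2', h3', h4', h5'⟩ |
      ⟨e', z1', z2', a', b', h1', h2', ⟨_, h3'⟩, ⟨_, h4'⟩, h5'⟩ | ⟨h1', h2', h3', h4'⟩
    · rw [h1, ZFSet.pair_inj] at h1'; exact (mk2 h1'.1.symm).elim
    · rw [h1, ZFSet.pair_inj] at h1'; exact (mk3 h1'.1.symm).elim
    · rw [h1, ZFSet.pair_inj] at h1'
      rw [← h1'.2, h2, ZFSet.pair_inj] at h2'
      have e2 : z1 = z1' := Subtype.ext h2'.1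
      have e3 : z2 = z2' := Subtype.ext h2'.2
      rw [← e2] at h3'
      rw [← e3] at h4'
      rw [← h3', ← h4'] at h5'
      exact HR_spec x0 L y h5' hb
    · exact (h3' ⟨e, z1, z2, h1, h2⟩).elim

end CTM

end Pool.Agent.H17.Omega
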