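import Pool.Agent.H17.Omega.D0

/-!
# A normal form for `Π₂` sentences
-/

set_option autoImplicit false
set_option linter.unusedVariables false
set_option linter.unusedSectionVars false
set_option linter.unusedSimpArgs false
set_option linter.deprecated false

universe u v w

namespace Pool.Agent.H17.Omega

/-- `z = v ∪ {u}`, where `u` contains `v` as a subset, `v` is transitive and closed under subsets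
(as far as they are elements of `u`), products and collapses. -/
structure Suit (z u : ZFSet.{u}) : Prop where
  s0 : (∀ a ∈ z, (¬ (a = u) → a ∈ u))
  s1 : (∀ a ∈ z, (¬ (a = u) → (∀ b ∈ a, (b ∈ z ∧ (¬ (b = u))))))
  s2 : (∀ b ∈ u, (∀ c ∈ b, (c ∈ z ∧ (¬ (c = u)))))
  s3 : (∀ a ∈ z, (¬ (a = u) → (∀ b ∈ u, (b ⊆ a → (b ∈ z ∧ (¬ (b = u)))))))
  s5 : (∀ x ∈ z, (¬ (x = u) → (∃ s ∈ z, ((¬ (s = u)) ∧ ((∃ s' ∈ z, ((¬ (s' = u)) ∧ ((∃ q ∈ z, ((¬ (q = u)) ∧ x ∈ s ∧ s.IsTransitive ∧ s ∈ s' ∧ s'.IsTransitive ∧ ((∀ a ∈ s', (∀ b ∈ s', (∃ p ∈ s', p = ZFSet.pair a b)))) ∧ ((∀ a ∈ s', (∀ b ∈ s', (∃ p ∈ q, p = ZFSet.pair a b))))))))))))))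
  s7 : (∀ D ∈ z, (¬ (D = u) → (∀ E ∈ z, (¬ (E = u) → ((∀ c ∈ z, (¬ (c = u) → (c ⊆ D → ((∃ e ∈ c, e = e) → (∃ m ∈ c, (∀ y ∈ c, ¬ (ZFSet.pair y m ∈ E))))))) → (∃ f ∈ z, ((¬ (f = u)) ∧ ((((∀ y ∈ D, (∃ a ∈ z, ((¬ (a = u)) ∧ ZFSet.pair y a ∈ f)))) ∧ ((∀ y ∈ D, (∀ a ∈ z, (¬ (a = u) → (ZFSet.pair y a ∈ f → (((∀ b ∈ a, (∃ y' ∈ D, (ZFSet.pair y' y ∈ E ∧ ZFSet.pair y' b ∈ f)))) ∧ ((∀ y' ∈ D, (ZFSet.pair y' y ∈ E → (∀ b ∈ z, (¬ (b = u) → (ZFSet.pair y' b ∈ f → b ∈ a)))))))))))))))))))))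

/-- The normal form. -/
def NF (ψ : Fml) (z w : ZFSet.{u}) : Prop := w ⊆ z ∧ ∀ u ∈ z, Suit z u →
  (∃ x ∈ z, ¬ (x = u) ∧ ∀ y ∈ z, ¬ (y = u) → ¬ Tr ψ x y) → ∀ b ∈ u, ∃ c ∈ z, ¬ (c = u) ∧ ¬ (c ∈ w ↔ c ∈ b)

theorem d0_NF {ψ : Fml} (hψ : ψ.Delta0) (hfree : ∀ n, ψ.Free n → n = 0 ∨ n = 1) :
    D0 (fun v : Fin 2 → ZFSet.{u} => NF ψ (v 0) (v 1)) := by
  refine D0.congr (P := fun v => ((v 1) ⊆ (v 0) ∧ ((∀ u ∈ (v 0), ((((∀ a ∈ (v 0), (¬ (a = u) → a ∈ u))) ∧ ((∀ a ∈ (v 0), (¬ (a = u) → (∀ b ∈ a, (b ∈ (v 0) ∧ (¬ (b = u))))))) ∧ ((∀ b ∈ u, (∀ c ∈ b, (c ∈ (v 0) ∧ (¬ (c = u)))))) ∧ ((∀ a ∈ (v 0), (¬ (a = u) → (∀ b ∈ u, (b ⊆ a → (b ∈ (v 0) ∧ (¬ (b = u)))))))) ∧ ((∀ x ∈ (v 0), (¬ (x = u) → (∃ s ∈ (v 0), ((¬ (s = u)) ∧ ((∃ s' ∈ (v 0), ((¬ (s' = u)) ∧ ((∃ q ∈ (v 0),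 ((¬ (q = u)) ∧ x ∈ s ∧ s.IsTransitive ∧ s ∈ s' ∧ s'.IsTransitive ∧ ((∀ a ∈ s', (∀ b ∈ s', (∃ p ∈ s', p = ZFSet.pair a b)))) ∧ ((∀ a ∈ s', (∀ b ∈ s', (∃ p ∈ q, p = ZFSet.pair a b))))))))))))))) ∧ ((∀ D ∈ (v 0), (¬ (D = u) → (∀ E ∈ (v 0), (¬ (E = u) → ((∀ c ∈ (v 0), (¬ (c = u) → (c ⊆ D → ((∃ e ∈ c, e = e) → (∃ m ∈ c, (∀ y ∈ c, ¬ (ZFSet.pair y m ∈ E))))))) → (∃ f ∈ (v 0), ((¬ (f = u)) ∧ ((((∀ y ∈ D, (∃ a ∈ (v 0), ((¬ (a = u)) ∧ ZFSet.pair y a ∈ f)))) ∧ ((∀ y ∈ D, (∀ a ∈ (v 0), (¬ (a = u) → (ZFSet.pair y a ∈ f → (((∀ b ∈ a, (∃ y' ∈ D, (ZFSet.pair y' y ∈ E ∧ ZFSet.pair y' b ∈ f)))) ∧ ((∀ y' ∈ D, (ZFSet.pair y' y ∈ E → (∀ b ∈ (v 0), (¬ (b = u) → (ZFSet.pair y' b ∈ f → b ∈ a))))))))))))))))))))))) → ((∃ x ∈ (v 0), ((¬ (x = u)) ∧ ((∀ y ∈ (v 0), (¬ (y = u)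 → ¬ (Tr ψ x y)))))) → (∀ b ∈ u, (∃ c ∈ (v 0), ((¬ (c = u)) ∧ (¬ ((c ∈ (v 1) ↔ c ∈ b)))))))))))) ?_ ?_
  · intro v
    refine and_congr Iff.rfl (forall_congr' fun u => forall_congr' fun _ => imp_congr ?_ Iff.rfl)
    constructor
    · rintro ⟨h0, h1, h2, h3, h5, h7⟩; exact ⟨h0, h1, h2, h3, h5, h7⟩
    · rintro ⟨h0, h1, h2, h3, h5, h7⟩; exact ⟨h0, h1, h2, h3, h5, h7⟩
  · exact (D0.and (D0.subset (D0T.var _) (D0T.var _))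
  (D0.ballZ (s := fun v => v 0) (p := fun v u => ((((∀ a ∈ (v 0), (¬ (a = u) → a ∈ u))) ∧ ((∀ a ∈ (v 0), (¬ (a = u) → (∀ b ∈ a, (b ∈ (v 0) ∧ (¬ (b = u))))))) ∧ ((∀ b ∈ u, (∀ c ∈ b, (c ∈ (v 0) ∧ (¬ (c = u)))))) ∧ ((∀ a ∈ (v 0), (¬ (a = u) → (∀ b ∈ u, (b ⊆ a → (b ∈ (v 0) ∧ (¬ (b = u)))))))) ∧ ((∀ x ∈ (v 0), (¬ (x = u) → (∃ s ∈ (v 0), ((¬ (s = u)) ∧ ((∃ s' ∈ (v 0), ((¬ (s' = u)) ∧ ((∃ q ∈ (v 0), ((¬ (q = u)) ∧ x ∈ s ∧ s.IsTransitive ∧ s ∈ s' ∧ s'.IsTransitive ∧ ((∀ a ∈ s', (∀ b ∈ s', (∃ p ∈ s', p = ZFSet.pair a b)))) ∧ ((∀ a ∈ s', (∀ b ∈ s', (∃ p ∈ q, p = ZFSet.pair a b))))))))))))))) ∧ ((∀ D ∈ (v 0), (¬ (D = u) → (∀ E ∈ (v 0), (¬ (E = u) → ((∀ c ∈ (v 0), (¬ (c = u) → (c ⊆ D → ((∃ e ∈ c, e = e) → (∃ m ∈ c, (∀ y ∈ c, ¬ (ZFSet.pair y m ∈ E))))))) → (∃ f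 ∈ (v 0), ((¬ (f = u)) ∧ ((((∀ y ∈ D, (∃ a ∈ (v 0), ((¬ (a = u)) ∧ ZFSet.pair y a ∈ f)))) ∧ ((∀ y ∈ D, (∀ a ∈ (v 0), (¬ (a = u) → (ZFSet.pair y a ∈ f → (((∀ b ∈ a, (∃ y' ∈ D, (ZFSet.pair y' y ∈ E ∧ ZFSet.pair y' b ∈ f)))) ∧ ((∀ y' ∈ D, (ZFSet.pair y' y ∈ E → (∀ b ∈ (v 0), (¬ (b = u) → (ZFSet.pair y' b ∈ f → b ∈ a))))))))))))))))))))))) → ((∃ x ∈ (v 0), ((¬ (x = u)) ∧ ((∀ y ∈ (v 0), (¬ (y = u) → ¬ (Tr ψ x y)))))) → (∀ b ∈ u, (∃ c ∈ (v 0), ((¬ (c = u)) ∧ (¬ ((c ∈ (v 1) ↔ c ∈ b))))))))) (D0T.var _)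
  (D0.imp (D0.and (D0.ballZ (s := fun v => v 0) (p := fun v a => (¬ (a = (v 2)) → a ∈ (v 2))) (D0T.var _)
  (D0.imp (D0.not (D0.eqv (D0T.var _) (D0T.var _)))
  (D0.mem (D0T.var _) (D0T.var _))))
  (D0.and (D0.ballZ (s := fun v => v 0) (p := fun v a => (¬ (a = (v 2)) → (∀ b ∈ a, (b ∈ (v 0) ∧ (¬ (b = (v 2))))))) (D0T.var _)
  (D0.imp (D0.not (D0.eqv (D0T.var _) (D0T.var _)))
  (D0.ballZ (s := fun v => v 3) (p := fun v b => (b ∈ (v 0) ∧ (¬ (b = (v 2))))) (D0T.var _)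
  (D0.and (D0.mem (D0T.var _) (D0T.var _))
  (D0.not (D0.eqv (D0T.var _) (D0T.var _)))))))
  (D0.and (D0.ballZ (s := fun v => v 2) (p := fun v b => (∀ c ∈ b, (c ∈ (v 0) ∧ (¬ (c = (v 2)))))) (D0T.var _)
  (D0.ballZ (s := fun v => v 3) (p := fun v c => (c ∈ (v 0) ∧ (¬ (c = (v 2))))) (D0T.var _)
  (D0.and (D0.mem (D0T.var _) (D0T.var _))
  (D0.not (D0.eqv (D0T.var _) (D0T.var _))))))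
  (D0.and (D0.ballZ (s := fun v => v 0) (p := fun v a => (¬ (a = (v 2)) → (∀ b ∈ (v 2), (b ⊆ a → (b ∈ (v 0) ∧ (¬ (b = (v 2)))))))) (D0T.var _)
  (D0.imp (D0.not (D0.eqv (D0T.var _) (D0T.var _)))
  (D0.ballZ (s := fun v => v 2) (p := fun v b => (b ⊆ (v 3) → (b ∈ (v 0) ∧ (¬ (b = (v 2)))))) (D0T.var _)
  (D0.imp (D0.subset (D0T.var _) (D0T.var _))
  (D0.and (D0.mem (D0T.var _) (D0T.var _))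
  (D0.not (D0.eqv (D0T.var _) (D0T.var _))))))))
  (D0.and (D0.ballZ (s := fun v => v 0) (p := fun v x => (¬ (x = (v 2)) → (∃ s ∈ (v 0), ((¬ (s = (v 2))) ∧ ((∃ s' ∈ (v 0), ((¬ (s' = (v 2))) ∧ ((∃ q ∈ (v 0), ((¬ (q = (v 2))) ∧ x ∈ s ∧ s.IsTransitive ∧ s ∈ s' ∧ s'.IsTransitive ∧ ((∀ a ∈ s', (∀ b ∈ s', (∃ p ∈ s', p = ZFSet.pair a b)))) ∧ ((∀ a ∈ s', (∀ b ∈ s', (∃ p ∈ q, p = ZFSet.pair a b)))))))))))))) (D0T.var _)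
  (D0.imp (D0.not (D0.eqv (D0T.var _) (D0T.var _)))
  (D0.bexZ (s := fun v => v 0) (p := fun v s => ((¬ (s = (v 2))) ∧ ((∃ s' ∈ (v 0), ((¬ (s' = (v 2))) ∧ ((∃ q ∈ (v 0), ((¬ (q = (v 2))) ∧ (v 3) ∈ s ∧ s.IsTransitive ∧ s ∈ s' ∧ s'.IsTransitive ∧ ((∀ a ∈ s', (∀ b ∈ s', (∃ p ∈ s', p = ZFSet.pair a b)))) ∧ ((∀ a ∈ s', (∀ b ∈ s', (∃ p ∈ q, p = ZFSet.pair a b)))))))))))) (D0T.var _)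
  (D0.and (D0.not (D0.eqv (D0T.var _) (D0T.var _)))
  (D0.bexZ (s := fun v => v 0) (p := fun v s' => ((¬ (s' = (v 2))) ∧ ((∃ q ∈ (v 0), ((¬ (q = (v 2))) ∧ (v 3) ∈ (v 4) ∧ (v 4).IsTransitive ∧ (v 4) ∈ s' ∧ s'.IsTransitive ∧ ((∀ a ∈ s', (∀ b ∈ s', (∃ p ∈ s', p = ZFSet.pair a b)))) ∧ ((∀ a ∈ s', (∀ b ∈ s', (∃ p ∈ q, p = ZFSet.pair a b))))))))) (D0T.var _)
  (D0.and (D0.not (D0.eqv (D0T.var _) (D0T.var _)))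
  (D0.bexZ (s := fun v => v 0) (p := fun v q => ((¬ (q = (v 2))) ∧ (v 3) ∈ (v 4) ∧ (v 4).IsTransitive ∧ (v 4) ∈ (v 5) ∧ (v 5).IsTransitive ∧ ((∀ a ∈ (v 5), (∀ b ∈ (v 5), (∃ p ∈ (v 5), p = ZFSet.pair a b)))) ∧ ((∀ a ∈ (v 5), (∀ b ∈ (v 5), (∃ p ∈ q, p = ZFSet.pair a b)))))) (D0T.var _)
  (D0.and (D0.not (D0.eqv (D0T.var _) (D0T.var _)))
  (D0.and (D0.mem (D0T.var _) (D0T.var _))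
  (D0.and (D0.isTrans (D0T.var _))
  (D0.and (D0.mem (D0T.var _) (D0T.var _))
  (D0.and (D0.isTrans (D0T.var _))
  (D0.and (D0.ballZ (s := fun v => v 5) (p := fun v a => (∀ b ∈ (v 5), (∃ p ∈ (v 5), p = ZFSet.pair a b))) (D0T.var _)
  (D0.ballZ (s := fun v => v 5) (p := fun v b => (∃ p ∈ (v 5), p = ZFSet.pair (v 7) b)) (D0T.var _)
  (D0.bexZ (s := fun v => v 5) (p := fun v p => p = ZFSet.pair (v 7) (v 8)) (D0T.var _)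
  (D0.isPair (D0T.var _) (D0T.var _) (D0T.var _)))))
  (D0.ballZ (s := fun v => v 5) (p := fun v a => (∀ b ∈ (v 5), (∃ p ∈ (v 6), p = ZFSet.pair a b))) (D0T.var _)
  (D0.ballZ (s := fun v => v 5) (p := fun v b => (∃ p ∈ (v 6), p = ZFSet.pair (v 7) b)) (D0T.var _)
  (D0.bexZ (s := fun v => v 6) (p := fun v p => p = ZFSet.pair (v 7) (v 8)) (D0T.var _)
  (D0.isPair (D0T.var _) (D0T.var _) (D0T.var _))))))))))))))))))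
  (D0.ballZ (s := fun v => v 0) (p := fun v D => (¬ (D = (v 2)) → (∀ E ∈ (v 0), (¬ (E = (v 2)) → ((∀ c ∈ (v 0), (¬ (c = (v 2)) → (c ⊆ D → ((∃ e ∈ c, e = e) → (∃ m ∈ c, (∀ y ∈ c, ¬ (ZFSet.pair y m ∈ E))))))) → (∃ f ∈ (v 0), ((¬ (f = (v 2))) ∧ ((((∀ y ∈ D, (∃ a ∈ (v 0), ((¬ (a = (v 2))) ∧ ZFSet.pair y a ∈ f)))) ∧ ((∀ y ∈ D, (∀ a ∈ (v 0), (¬ (a = (v 2)) → (ZFSet.pair y a ∈ f → (((∀ b ∈ a, (∃ y' ∈ D, (ZFSet.pair y' y ∈ E ∧ ZFSet.pair y' b ∈ f)))) ∧ ((∀ y' ∈ D, (ZFSet.pair y' y ∈ E → (∀ b ∈ (v 0), (¬ (b = (v 2)) → (ZFSet.pair y' b ∈ f → b ∈ a))))))))))))))))))))) (D0T.var _)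
  (D0.imp (D0.not (D0.eqv (D0T.var _) (D0T.var _)))
  (D0.ballZ (s := fun v => v 0) (p := fun v E => (¬ (E = (v 2)) → ((∀ c ∈ (v 0), (¬ (c = (v 2)) → (c ⊆ (v 3) → ((∃ e ∈ c, e = e) → (∃ m ∈ c, (∀ y ∈ c, ¬ (ZFSet.pair y m ∈ E))))))) → (∃ f ∈ (v 0), ((¬ (f = (v 2))) ∧ ((((∀ y ∈ (v 3), (∃ a ∈ (v 0), ((¬ (a = (v 2))) ∧ ZFSet.pair y a ∈ f)))) ∧ ((∀ y ∈ (v 3), (∀ a ∈ (v 0), (¬ (a = (v 2)) → (ZFSet.pair y a ∈ f → (((∀ b ∈ a, (∃ y' ∈ (v 3), (ZFSet.pair y' y ∈ E ∧ ZFSet.pair y' b ∈ f)))) ∧ ((∀ y' ∈ (v 3), (ZFSet.pair y' y ∈ E → (∀ b ∈ (v 0), (¬ (b = (v 2)) → (ZFSet.pair y' b ∈ f → b ∈ a))))))))))))))))))) (D0T.var _)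
  (D0.imp (D0.not (D0.eqv (D0T.var _) (D0T.var _)))
  (D0.imp (D0.ballZ (s := fun v => v 0) (p := fun v c => (¬ (c = (v 2)) → (c ⊆ (v 3) → ((∃ e ∈ c, e = e) → (∃ m ∈ c, (∀ y ∈ c, ¬ (ZFSet.pair y m ∈ (v 4)))))))) (D0T.var _)
  (D0.imp (D0.not (D0.eqv (D0T.var _) (D0T.var _)))
  (D0.imp (D0.subset (D0T.var _) (D0T.var _))
  (D0.imp (D0.bexZ (s := fun v => v 5) (p := fun v e => e = e) (D0T.var _)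
  (D0.eqv (D0T.var _) (D0T.var _)))
  (D0.bexZ (s := fun v => v 5) (p := fun v m => (∀ y ∈ (v 5), ¬ (ZFSet.pair y m ∈ (v 4)))) (D0T.var _)
  (D0.ballZ (s := fun v => v 5) (p := fun v y => ¬ (ZFSet.pair y (v 6) ∈ (v 4))) (D0T.var _)
  (D0.not (D0.pairMem (D0T.var _) (D0T.var _) (D0T.var _)))))))))
  (D0.bexZ (s := fun v => v 0) (p := fun v f => ((¬ (f = (v 2))) ∧ ((((∀ y ∈ (v 3), (∃ a ∈ (v 0), ((¬ (a = (v 2))) ∧ ZFSet.pair y a ∈ f)))) ∧ ((∀ y ∈ (v 3), (∀ a ∈ (v 0), (¬ (a = (v 2)) → (ZFSet.pair y a ∈ f → (((∀ b ∈ a, (∃ y' ∈ (v 3), (ZFSet.pair y' y ∈ (v 4) ∧ ZFSet.pair y' b ∈ f)))) ∧ ((∀ y' ∈ (v 3), (ZFSet.pair y' y ∈ (v 4) → (∀ b ∈ (v 0), (¬ (b = (v 2)) → (ZFSet.pair y' b ∈ f → b ∈ a)))))))))))))))) (D0T.var _)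
  (D0.and (D0.not (D0.eqv (D0T.var _) (D0T.var _)))
  (D0.and (D0.ballZ (s := fun v => v 3) (p := fun v y => (∃ a ∈ (v 0), ((¬ (a = (v 2))) ∧ ZFSet.pair y a ∈ (v 5)))) (D0T.var _)
  (D0.bexZ (s := fun v => v 0) (p := fun v a => ((¬ (a = (v 2))) ∧ ZFSet.pair (v 6) a ∈ (v 5))) (D0T.var _)
  (D0.and (D0.not (D0.eqv (D0T.var _) (D0T.var _)))
  (D0.pairMem (D0T.var _) (D0T.var _) (D0T.var _)))))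
  (D0.ballZ (s := fun v => v 3) (p := fun v y => (∀ a ∈ (v 0), (¬ (a = (v 2)) → (ZFSet.pair y a ∈ (v 5) → (((∀ b ∈ a, (∃ y' ∈ (v 3), (ZFSet.pair y' y ∈ (v 4) ∧ ZFSet.pair y' b ∈ (v 5))))) ∧ ((∀ y' ∈ (v 3), (ZFSet.pair y' y ∈ (v 4) → (∀ b ∈ (v 0), (¬ (b = (v 2)) → (ZFSet.pair y' b ∈ (v 5) → b ∈ a))))))))))) (D0T.var _)
  (D0.ballZ (s := fun v => v 0) (p := fun v a => (¬ (a = (v 2)) → (ZFSet.pair (v 6) a ∈ (v 5) → (((∀ b ∈ a, (∃ y' ∈ (v 3), (ZFSet.pair y' (v 6) ∈ (v 4) ∧ ZFSet.pair y' b ∈ (v 5))))) ∧ ((∀ y' ∈ (v 3), (ZFSet.pair y' (v 6) ∈ (v 4) → (∀ b ∈ (v 0), (¬ (b = (v 2)) → (ZFSet.pair y' b ∈ (v 5) → b ∈ a)))))))))) (D0T.var _)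
  (D0.imp (D0.not (D0.eqv (D0T.var _) (D0T.var _)))
  (D0.imp (D0.pairMem (D0T.var _) (D0T.var _) (D0T.var _))
  (D0.and (D0.ballZ (s := fun v => v 7) (p := fun v b => (∃ y' ∈ (v 3), (ZFSet.pair y' (v 6) ∈ (v 4) ∧ ZFSet.pair y' b ∈ (v 5)))) (D0T.var _)
  (D0.bexZ (s := fun v => v 3) (p := fun v y' => (ZFSet.pair y' (v 6) ∈ (v 4) ∧ ZFSet.pair y' (v 8) ∈ (v 5))) (D0T.var _)
  (D0.and (D0.pairMem (D0T.var _) (D0T.var _) (D0T.var _))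
  (D0.pairMem (D0T.var _) (D0T.var _) (D0T.var _)))))
  (D0.ballZ (s := fun v => v 3) (p := fun v y' => (ZFSet.pair y' (v 6) ∈ (v 4) → (∀ b ∈ (v 0), (¬ (b = (v 2)) → (ZFSet.pair y' b ∈ (v 5) → b ∈ (v 7)))))) (D0T.var _)
  (D0.imp (D0.pairMem (D0T.var _) (D0T.var _) (D0T.var _))
  (D0.ballZ (s := fun v => v 0) (p := fun v b => (¬ (b = (v 2)) → (ZFSet.pair (v 8) b ∈ (v 5) → b ∈ (v 7)))) (D0T.var _)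
  (D0.imp (D0.not (D0.eqv (D0T.var _) (D0T.var _)))
  (D0.imp (D0.pairMem (D0T.var _) (D0T.var _) (D0T.var _))
  (D0.mem (D0T.var _) (D0T.var _)))))))))))))))))))))))))
  (D0.imp (D0.bexZ (s := fun v => v 0) (p := fun v x => ((¬ (x = (v 2))) ∧ ((∀ y ∈ (v 0), (¬ (y = (v 2)) → ¬ (Tr ψ x y)))))) (D0T.var _)
  (D0.and (D0.not (D0.eqv (D0T.var _) (D0T.var _)))
  (D0.ballZ (s := fun v => v 0) (p := fun v y => (¬ (y = (v 2)) → ¬ (Tr ψ (v 3) y))) (D0T.var _)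
  (D0.imp (D0.not (D0.eqv (D0T.var _) (D0T.var _)))
  (D0.not (D0.tr hψ hfree _ _ (by decide)))))))
  (D0.ballZ (s := fun v => v 2) (p := fun v b => (∃ c ∈ (v 0), ((¬ (c = (v 2))) ∧ (¬ ((c ∈ (v 1) ↔ c ∈ b)))))) (D0T.var _)
  (D0.bexZ (s := fun v => v 0) (p := fun v c => ((¬ (c = (v 2))) ∧ (¬ ((c ∈ (v 1) ↔ c ∈ (v 3)))))) (D0T.var _)
  (D0.and (D0.not (D0.eqv (D0T.var _) (D0T.var _)))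
  (D0.not (D0.iff (D0.mem (D0T.var _) (D0T.var _))
  (D0.mem (D0T.var _) (D0T.var _)))))))))))

end Pool.Agent.H17.Omega
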