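import Pool.Agent.H17.Omega.LSc
import Pool.Agent.H17.Omega.NF
import Pool.Agent.H17.Omega.Kr
import Pool.Agent.H17.Omega.MPair

/-!
# Countable transitive models of ZFC: downward Löwenheim-Skolem for suitable sets
-/

set_option autoImplicit false
set_option linter.unusedVariables false
set_option linter.unusedSectionVars false
set_option linter.unusedSimpArgs false
set_option linter.deprecated false

universe u v w

namespace Pool.Agent.H17.Omega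

/-- The formula for extensionality. -/
def thExt : Fml := ((Fml.mem 2 0).and (Fml.mem 2 1).not).or ((Fml.mem 2 1).and (Fml.mem 2 0).not)

theorem exists_bd (L : List (Fml × ℕ)) : ∃ n, ∀ p ∈ L, p.1.bd ≤ n := by
  induction L with
  | nil => exact ⟨0, fun p hp => by simp at hp⟩
  | cons q L ih =>
    obtain ⟨n, hn⟩ := ih
    refine ⟨max q.1.bd n, fun p hp => ?_⟩
    rcases List.mem_cons.1 hp with rfl | hp
    · exact le_max_left _ _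
    · exact (hn p hp).trans (le_max_right _ _)

namespace CTM

variable {N : Set ZFSet.{u}} (hN : CTM N)

include hN in
/-- Löwenheim-Skolem: in a suitable set there are witnesses. -/
theorem exists_small {ψ : Fml} (hψ : ψ.Delta0) (hfree : ∀ n, ψ.Free n → n = 0 ∨ n = 1)
    {z u : ZFSet.{u}} (hz : z ∈ N) (hu : u ∈ z) (hS : Suit z u)
    (hP : ∀ w ∈ N, (∀ a ∈ w, a ∈ z ∧ a ≠ u) → w ∈ u) {x : ZFSet.{u}} (hx : x ∈ z) (hxu : x ≠ u)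
    {y : ZFSet.{u}} (hy : y ∈ N) (hxy : Tr ψ x y) : ∃ y' ∈ z, y' ≠ u ∧ Tr ψ x y' := by
  classical
  -- basic facts
  have vN : ∀ a, a ∈ z → a ∈ N := fun a ha => hN.mem_of_mem hz ha
  have vtr : ∀ a, a ∈ z ∧ a ≠ u → ∀ b ∈ a, b ∈ z ∧ b ≠ u := fun a ha b hb => hS.s1 a ha.1 ha.2 b hb
  have vsub : ∀ a, a ∈ z ∧ a ≠ u → ∀ b ∈ N, b ⊆ a → b ∈ z ∧ b ≠ u := by
    intro a ha b hb hba
    exact hS.s3 a ha.1 ha.2 b (hP b hb fun c hc => vtr a ha c (hba hc)) hba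
  obtain ⟨s, hsz, hsu, s', hs'z, hs'u, q, hqz, hqu, hxs, hstr, hss', hs'tr, hpr, hprq⟩ := hS.s5 x hx hxu
  have hsN := vN s hsz
  have hs'N := vN s' hs'z
  have hqN := vN q hqz
  have hxN := vN x hx
  have hpair' : ∀ a ∈ s', ∀ b ∈ s', ZFSet.pair a b ∈ s' := fun a ha b hb => by
    obtain ⟨p, hp, h1⟩ := hpr a ha b hb; rw [← h1]; exact hp
  have hpairq : ∀ a ∈ s', ∀ b ∈ s', ZFSet.pair a b ∈ q := fun a ha b hb => by
    obtain ⟨p, hp, h1⟩ := hprq a ha b hb; rw [← h1]; exact hp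
  have hsing : ({s} : ZFSet.{u}) ∈ s' := by
    have h1 : ({s} : ZFSet.{u}) ∈ ZFSet.pair s s := by
      rw [ZFSet.pair, ZFSet.mem_pair]; exact Or.inl rfl
    exact hs'tr _ (hpair' s hss' s hss') h1
  have hss : ZFSet.pair s s ∈ s' := hpair' s hss' s hss'
  have hs's : ∀ a ∈ s, a ∈ s' := fun a ha => hs'tr s hss' ha
  -- a transitive set that contains everything
  obtain ⟨t, ht, httr, htm⟩ := hN.exists_transitive (hN.pair_mem hsN (hN.pair_mem hxN hy))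
  have hpm : ∀ a b w : ZFSet.{u}, w.IsTransitive → ZFSet.pair a b ∈ w → a ∈ w ∧ b ∈ w := by
    intro a b w hw h
    have h1 : ({a, b} : ZFSet.{u}) ∈ w := hw _ h (by rw [ZFSet.pair, ZFSet.mem_pair]; exact Or.inr rfl)
    exact ⟨hw _ h1 (by simp), hw _ h1 (by simp)⟩
  have hst : s ∈ t := (hpm _ _ _ httr htm).1
  have hxt : x ∈ t := (hpm _ _ _ httr (hpm _ _ _ httr htm).2).1
  have hyt : y ∈ t := (hpm _ _ _ httr (hpm _ _ _ httr htm).2).2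
  -- the hull
  obtain ⟨L1, hL1⟩ := exists_TV hψ
  let L : List (Fml × ℕ) := (thExt, 2) :: L1
  obtain ⟨n, hn⟩ := exists_bd L
  let x0 : N := ⟨x, hxN⟩
  obtain ⟨F, hF, hF1, hF2, hF3, hF4⟩ := exists_hull hN x0 L hsN ht ⟨y, hy⟩
  let W : Set N := {a | ∃ z1 : N, z1.1 ∈ s' ∧ F z1 = a}
  have hWs : ∀ a : N, a.1 ∈ s → a ∈ W := by
    intro a ha
    have h1 : ZFSet.pair s a.1 ∈ s' := hpair' s hss' _ (hs's _ ha)
    exact ⟨⟨_, hN.mem_of_mem hs'N h1⟩, h1, hF1 _ a rfl ha⟩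
  have hWy : (⟨y, hy⟩ : N) ∈ W := ⟨⟨s, hsN⟩, hss', hF2 _ rfl⟩
  have hWp : ∀ a b : N, a ∈ W → b ∈ W → ∀ c : N, c.1 = ZFSet.pair a.1 b.1 → c ∈ W := by
    rintro a b ⟨z1, h1, rfl⟩ ⟨z2, h2, rfl⟩ c hc
    have h3 := hpair' _ h1 _ h2
    have h4 := hpair' _ hsing _ h3
    refine ⟨⟨_, hN.mem_of_mem hs'N h4⟩, h4, Subtype.ext ?_⟩
    rw [hc]
    exact hF3 _ ⟨_, hN.mem_of_mem hs'N h3⟩ z1 z2 rfl rfl
  have hWx : x0 ∈ W := hWs x0 hxs
  have hWtg : ∀ i, ∃ c : N, c ∈ W ∧ c.1 = tg x i := by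
    intro i
    induction i with
    | zero => exact ⟨x0, hWx, rfl⟩
    | succ i ih =>
      obtain ⟨c, hc, hc'⟩ := ih
      refine ⟨⟨_, hN.pair_mem c.2 hxN⟩, hWp c x0 hc hWx _ rfl, ?_⟩
      show ZFSet.pair c.1 x = ZFSet.pair (tg x i) x
      rw [hc']
  have hWtup : ∀ m (f : ℕ → N), (∀ i, f i ∈ W) → ∃ c : N, c ∈ W ∧ c.1 = tup x m (fun i => (f i).1) := by
    intro m
    induction m with
    | zero => intro f _; exact ⟨x0, hWx, rfl⟩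
    | succ m ih =>
      intro f hf
      obtain ⟨c, hc, hc'⟩ := ih (fun i => f (i + 1)) fun i => hf (i + 1)
      refine ⟨⟨_, hN.pair_mem (f 0).2 c.2⟩, hWp (f 0) c (hf 0) hc _ rfl, ?_⟩
      show ZFSet.pair (f 0).1 c.1 = ZFSet.pair (f 0).1 (tup x m fun i => (f (i + 1)).1)
      rw [hc']
  let X : Set ZFSet.{u} := {a | a ∈ t ∧ ∃ h : a ∈ N, (⟨a, h⟩ : N) ∈ W}
  have hXN : X ⊆ N := fun a ha => ha.2.1
  have hXt : ∀ a ∈ X, a ∈ t := fun a ha => ha.1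
  have hSk : SkC N t L X := by
    intro p hp f hf hb
    obtain ⟨i, hi, hpi⟩ := List.getElem_of_mem hp
    obtain ⟨g, ⟨z1, hz1, hg1⟩, hg⟩ := hWtg i
    obtain ⟨e, ⟨z2, hz2, he1⟩, he⟩ := hWtup n f (fun i => (hf i).2.2)
    have hdec : ∀ b : N, Sat (SMem N) p.1 (upd (hN.dec e) p.2 b) ↔ Sat (SMem N) p.1 (upd f p.2 b) := by
      intro b
      apply Sat.congr
      intro j hj
      by_cases hjp : j = p.2
      · rw [hjp, upd_same, upd_same]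
      · rw [upd_ne _ _ hjp, upd_ne _ _ hjp]
        exact Subtype.ext (hN.dec_tup x n _ e he j (lt_of_lt_of_le hj (hn p hp)))
    have hWWp : ∀ b : N, WW hN x0 L g e b ↔ Sat (SMem N) p.1 (upd f p.2 b) := by
      intro b
      rw [WW_iff x0 L i hi g e b hg, hpi]
      exact hdec b
    have h3 := hpair' _ hz1 _ hz2
    have h4 := hpair' _ hss _ h3
    have h5 := hF4 ⟨_, hN.mem_of_mem hs'N h4⟩ ⟨_, hN.mem_of_mem hs'N h3⟩ z1 z2 rfl rfl (by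
      obtain ⟨b, hb1, hb2⟩ := hb
      refine ⟨b, hb1, ?_⟩
      rw [hg1, he1]
      exact (hWWp b).2 hb2)
    rw [hg1, he1] at h5
    refine ⟨F ⟨_, hN.mem_of_mem hs'N h4⟩, ⟨h5.1, (F _).2, _, h4, rfl⟩, (hWWp _).1 h5.2⟩
  have hsX : ∀ a ∈ s, a ∈ X := fun a ha => by
    have hat := httr _ hst ha
    exact ⟨hat, hN.mem_of_mem ht hat, hWs ⟨a, hN.mem_of_mem ht hat⟩ ha⟩
  have hyX : y ∈ X := ⟨hyt, hy, hWy⟩
  have hxX : x ∈ X := hsX x hxs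
  -- extensionality of `X`
  have hext : ∀ a ∈ X, ∀ b ∈ X, (∀ c ∈ X, c ∈ a ↔ c ∈ b) → a = b := by
    intro a ha b hb h
    by_contra hab
    have hdiff : ∃ c, (c ∈ a ∧ c ∉ b) ∨ (c ∈ b ∧ c ∉ a) := by
      by_contra hc
      push Not at hc
      exact hab (ZFSet.ext fun c => ⟨fun h1 => (hc c).1 h1, fun h1 => (hc c).2 h1⟩)
    let f : ℕ → N := asg ⟨a, hXN ha⟩ ⟨b, hXN hb⟩
    have hsat : ∀ c : N, Sat (SMem N) thExt (upd f 2 c) ↔ (c.1 ∈ a ∧ c.1 ∉ b) ∨ (c.1 ∈ b ∧ c.1 ∉ a) := by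
      intro c; rfl
    obtain ⟨c, hc⟩ := hdiff
    have hct : c ∈ t := by
      rcases hc with hc | hc
      · exact httr _ ha.1 hc.1
      · exact httr _ hb.1 hc.1
    obtain ⟨c', hc', h1⟩ := hSk (thExt, 2) (List.mem_cons_self) f (fun i => by
      show (asg (⟨a, hXN ha⟩ : N) ⟨b, hXN hb⟩ i).1 ∈ X
      unfold asg; split_ifs
      · exact ha
      · exact hb) ⟨⟨c, hN.mem_of_mem ht hct⟩, hct, (hsat _).2 hc⟩
    rcases (hsat c').1 h1 with h2 | h2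
    · exact h2.2 ((h _ hc').1 h2.1)
    · exact h2.2 ((h _ hc').2 h2.1)
  -- the coded structure
  obtain ⟨D, hD, hD'⟩ := hN.exists_sep (P := fun z1 => ∃ w : N, F z1 = w ∧ w.1 ∈ t)
    (Dfn.ex (P := fun v w => F (v 0) = w ∧ w.1 ∈ t) (Dfn.and
      (Dfn.subst2 (P := fun a b => F a = b) hF (DT.var _) (DT.var _))
      (Dfn.mem (DT.var _) (DT.const ⟨t, ht⟩)))) hs'N
  have hDs : D ⊆ s' := fun a ha => ((hD' a).1 ha).1
  have hDV := vsub s' ⟨hs'z, hs'u⟩ D hD hDs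
  have hDm : ∀ z1 : N, z1.1 ∈ D ↔ z1.1 ∈ s' ∧ (F z1).1 ∈ t := by
    intro z1
    rw [hD']
    constructor
    · rintro ⟨h1, _, w, h2, h3⟩
      have h2 : F z1 = w := h2
      rw [h2]; exact ⟨h1, h3⟩
    · rintro ⟨h1, h2⟩; exact ⟨h1, z1.2, _, rfl, h2⟩
  obtain ⟨E, hE, hE'⟩ := hN.exists_sep (P := fun p => ∃ z1 z2 a b : N, p.1 = ZFSet.pair z1.1 z2.1 ∧
      z1.1 ∈ D ∧ z2.1 ∈ D ∧ F z1 = a ∧ F z2 = b ∧ a.1 ∈ b.1)
    (Dfn.ex (P := fun v z1 => ∃ z2 a b : N, (v 0).1 = ZFSet.pair z1.1 z2.1 ∧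
      z1.1 ∈ D ∧ z2.1 ∈ D ∧ F z1 = a ∧ F z2 = b ∧ a.1 ∈ b.1)
    (Dfn.ex (P := fun v z2 => ∃ a b : N, (v 0).1 = ZFSet.pair (v 1).1 z2.1 ∧
      (v 1).1 ∈ D ∧ z2.1 ∈ D ∧ F (v 1) = a ∧ F z2 = b ∧ a.1 ∈ b.1)
    (Dfn.ex (P := fun v a => ∃ b : N, (v 0).1 = ZFSet.pair (v 1).1 (v 2).1 ∧
      (v 1).1 ∈ D ∧ (v 2).1 ∈ D ∧ F (v 1) = a ∧ F (v 2) = b ∧ a.1 ∈ b.1)
    (Dfn.ex (P := fun v b => (v 0).1 = ZFSet.pair (v 1).1 (v 2).1 ∧
      (v 1).1 ∈ D ∧ (v 2).1 ∈ D ∧ F (v 1) = (v 3) ∧ F (v 2) = b ∧ (v 3).1 ∈ b.1)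
    (Dfn.and (Dfn.isPair (DT.var _) (DT.var _) (DT.var _))
    (Dfn.and (Dfn.mem (DT.var _) (DT.const ⟨D, hD⟩))
    (Dfn.and (Dfn.mem (DT.var _) (DT.const ⟨D, hD⟩))
    (Dfn.and (Dfn.subst2 (P := fun a b => F a = b) hF (DT.var _) (DT.var _))
    (Dfn.and (Dfn.subst2 (P := fun a b => F a = b) hF (DT.var _) (DT.var _))
    (Dfn.mem (DT.var _) (DT.var _))))))))))) hqN
  have hEV := vsub q ⟨hqz, hqu⟩ E hE fun a ha => ((hE' a).1 ha).1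
  have hEm : ∀ z1 z2 : N, z1.1 ∈ D → z2.1 ∈ D → (ZFSet.pair z1.1 z2.1 ∈ E ↔ (F z1).1 ∈ (F z2).1) := by
    intro z1 z2 h1 h2
    rw [hE']
    constructor
    · rintro ⟨_, _, z1', z2', a, b, h3, _, _, h4, h5, h6⟩
      have h3 : ZFSet.pair z1.1 z2.1 = ZFSet.pair z1'.1 z2'.1 := h3
      rw [ZFSet.pair_inj] at h3
      have e1 : z1 = z1' := Subtype.ext h3.1
      have e2 : z2 = z2' := Subtype.ext h3.2
      subst e1; subst e2
      have h4 : F z1 = a := h4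
      have h5 : F z2 = b := h5
      rw [h4, h5]; exact h6
    · intro h3
      exact ⟨hpairq _ (hDs h1) _ (hDs h2), hN.pair_mem z1.2 z2.2, z1, z2, _, _, rfl, h1, h2, rfl, rfl, h3⟩
  obtain ⟨f, hfz, hfu, hf1, hf2⟩ := hS.s7 D hDV.1 hDV.2 E hEV.1 hEV.2 (by
    intro c hcz hcu hcD hce
    obtain ⟨e, he, _⟩ := hce
    have hcN := vN c hcz
    obtain ⟨m, hm, hmin⟩ := (InvImage.wf (fun z1 : N => (F z1).1) ZFSet.mem_wf).has_min
      {z1 : N | z1.1 ∈ c} ⟨⟨e, hN.mem_of_mem hcN he⟩, he⟩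
    refine ⟨m.1, hm, fun y1 hy1 h1 => ?_⟩
    have hy1N := hN.mem_of_mem hcN hy1
    exact hmin ⟨y1, hy1N⟩ hy1 ((hEm ⟨y1, hy1N⟩ m (hcD hy1) (hcD hm)).1 h1))
  -- the collapse
  let Pi : ZFSet.{u} → ZFSet.{u} → Prop := fun a a' => ∃ y1 : N, y1.1 ∈ D ∧ (F y1).1 = a ∧
    (a' ∈ z ∧ a' ≠ u) ∧ ZFSet.pair y1.1 a' ∈ f
  have hcode : ∀ a ∈ X, ∃ y1 : N, y1.1 ∈ D ∧ (F y1).1 = a := by
    rintro a ⟨hat, haN, z1, hz1, h1⟩
    have h2 : (F z1).1 = a := congrArg Subtype.val h1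
    exact ⟨z1, (hDm z1).2 ⟨hz1, by rw [h2]; exact hat⟩, h2⟩
  have hcodeX : ∀ y1 : N, y1.1 ∈ D → (F y1).1 ∈ X := fun y1 h1 =>
    ⟨((hDm y1).1 h1).2, (F y1).2, y1, ((hDm y1).1 h1).1, rfl⟩
  have hPtot : ∀ a ∈ X, ∃ a', Pi a a' := by
    intro a ha
    obtain ⟨y1, h1, h2⟩ := hcode a ha
    obtain ⟨a', h3, h4, h5⟩ := hf1 y1.1 h1
    exact ⟨a', y1, h1, h2, ⟨h3, h4⟩, h5⟩
  have hPmem : ∀ a a', Pi a a' → ∀ b', b' ∈ a' ↔ ∃ b ∈ a, b ∈ X ∧ Pi b b' := by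
    rintro a a' ⟨y1, h1, h2, h3, h4⟩ b'
    have h5 := hf2 y1.1 h1 a' h3.1 h3.2 h4
    constructor
    · intro hb'
      obtain ⟨y2, hy2, h6, h7⟩ := h5.1 b' hb'
      have hy2N := hN.mem_of_mem hD hy2
      have h8 := (hEm ⟨y2, hy2N⟩ y1 hy2 h1).1 h6
      rw [h2] at h8
      exact ⟨_, h8, hcodeX _ hy2, ⟨y2, hy2N⟩, hy2, rfl, vtr a' h3 b' hb', h7⟩
    · rintro ⟨b, hb, hbX, y2, h6, h7, h8, h9⟩
      exact h5.2 y2.1 h6 ((hEm y2 y1 h6 h1).2 (by rw [h7, h2]; exact hb)) b' h8.1 h8.2 h9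
  have hPu : ∀ a a' a'', Pi a a' → Pi a a'' → a' = a'' := by
    intro a a' a'' h h'
    ext b'
    rw [hPmem a a' h, hPmem a a'' h']
  have hPX : ∀ a a', Pi a a' → a ∈ X := by
    rintro a a' ⟨y1, h1, h2, _⟩
    rw [← h2]; exact hcodeX y1 h1
  have hPinj : ∀ a : ZFSet.{u}, ∀ b c, Pi a c → Pi b c → a = b := by
    intro a
    induction a using ZFSet.inductionOn with
    | _ a ih =>
      intro b c ha hb
      apply hext a (hPX _ _ ha) b (hPX _ _ hb)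
      intro d hd
      obtain ⟨d', hd'⟩ := hPtot d hd
      constructor
      · intro hda
        have h1 : d' ∈ c := (hPmem a c ha d').2 ⟨d, hda, hd, hd'⟩
        obtain ⟨e, he, _, he'⟩ := (hPmem b c hb d').1 h1
        rw [ih d hda e d' hd' he']; exact he
      · intro hdb
        have h1 : d' ∈ c := (hPmem b c hb d').2 ⟨d, hdb, hd, hd'⟩
        obtain ⟨e, he, _, he'⟩ := (hPmem a c ha d').1 h1
        rw [← ih e he d d' he' hd']; exact he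
  have hPs : ∀ a : ZFSet.{u}, a ∈ s → Pi a a := by
    intro a
    induction a using ZFSet.inductionOn with
    | _ a ih =>
      intro ha
      obtain ⟨a', ha'⟩ := hPtot a (hsX a ha)
      have : a' = a := by
        ext b'
        rw [hPmem a a' ha']
        constructor
        · rintro ⟨b, hb, _, h1⟩
          rw [hPu _ _ _ h1 (ih b hb (hstr a ha hb))]; exact hb
        · intro hb'
          have h1 := hstr a ha hb'
          exact ⟨b', hb', hsX b' h1, ih b' hb' h1⟩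
      rw [this] at ha'; exact ha'
  let Xb : Set ZFSet.{u} := {a' | ∃ a, Pi a a'}
  have hXb : ∀ a' ∈ Xb, ∀ b' ∈ a', b' ∈ Xb := by
    rintro a' ⟨a, ha⟩ b' hb'
    obtain ⟨b, _, _, h1⟩ := (hPmem a a' ha b').1 hb'
    exact ⟨b, h1⟩
  choose π hπ using hPtot
  let e : X → Xb := fun a => ⟨π a.1 a.2, a.1, hπ a.1 a.2⟩
  have he1 : Function.Surjective e := by
    rintro ⟨a', a, ha⟩
    exact ⟨⟨a, hPX _ _ ha⟩, Subtype.ext (hPu _ _ _ (hπ a (hPX _ _ ha)) ha)⟩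
  have he2 : Function.Injective e := by
    intro a b h
    have h1 : π a.1 a.2 = π b.1 b.2 := congrArg Subtype.val h
    have h2 := hπ a.1 a.2
    rw [h1] at h2
    exact Subtype.ext (hPinj _ _ _ h2 (hπ b.1 b.2))
  have he3 : ∀ a b : X, SMem Xb (e a) (e b) ↔ SMem X a b := by
    intro a b
    show π a.1 a.2 ∈ π b.1 b.2 ↔ a.1 ∈ b.1
    rw [hPmem b.1 _ (hπ b.1 b.2)]
    constructor
    · rintro ⟨c, hc, _, h1⟩
      rw [hPinj _ _ _ (hπ a.1 a.2) h1]; exact hc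
    · intro h1; exact ⟨a.1, h1, a.2, hπ a.1 a.2⟩
  have h1 : Sat (SMem N) ψ (asg ⟨x, hxN⟩ ⟨y, hy⟩) := by
    rw [hψ.absolute hN.trans]
    have : (fun i => (asg (⟨x, hxN⟩ : N) ⟨y, hy⟩ i).1) = asg x y := by
      funext i; simp only [asg]; split_ifs <;> rfl
    rw [this]; exact hxy
  have h2 : Sat (SMem X) ψ (asg ⟨x, hxX⟩ ⟨y, hyX⟩) := by
    rw [hL1 N t X hXN hXt httr (hSk.mono (List.subset_cons_self _ _))]
    have : (fun i => (⟨(asg (⟨x, hxX⟩ : X) ⟨y, hyX⟩ i).1, hXN (asg (⟨x, hxX⟩ : X) ⟨y, hyX⟩ i).2⟩ : N)) =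
        asg ⟨x, hxN⟩ ⟨y, hy⟩ := by
      funext i; simp only [asg]; split_ifs <;> rfl
    rw [this]; exact h1
  rw [← Sat.iso e he1 he2 he3, hψ.absolute hXb] at h2
  have h3 : (fun i => (e (asg (⟨x, hxX⟩ : X) ⟨y, hyX⟩ i)).1) = asg x (π y hyX) := by
    funext i
    simp only [asg]
    split_ifs
    · exact hPu _ _ _ (hπ x hxX) (hPs x hxs)
    · rfl
  rw [h3] at h2
  obtain ⟨y1, _, _, h4, _⟩ := hπ y hyX
  exact ⟨π y hyX, h4.1, h4.2, h2⟩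

end CTM

end Pool.Agent.H17.Omega
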