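import Pool.Agent.H17.Omega.MForce
import Pool.Agent.H17.Omega.Col

/-!
# Names for reals in a countable transitive model
-/

set_option autoImplicit false
set_option linter.unusedVariables false
set_option linter.unusedSectionVars false
set_option linter.unusedSimpArgs false
set_option linter.deprecated false

universe u v w

namespace Pool.Agent.H17.Omega

open Name CTM

namespace CTM

variable {N : Set ZFSet.{u}} (hN : CTM N) {Q : Type u} [PartialOrder Q] {c : Q → ZFSet.{u}}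

/-- Names of the elements of the model. -/
theorem exists_chk {P R : ZFSet.{u}} (h : PR N c P R) :
    ∃ F : N → N, hN.Dfn (fun v : Fin 2 → N => F (v 0) = v 1) ∧
      ∀ x : N, ∀ q : Q, feq (nm c (F x).1) (check x.1) q := by
  refine Exists.elim (recursion (hN := hN) (R := fun x y : N => x.1 ∈ y.1) (𝒢 := fun x r v =>
    ∀ w : N, w.1 ∈ v.1 ↔ ∃ y u p : N, r y u ∧ p.1 ∈ P ∧ w.1 = ZFSet.pair u.1 p.1)
    (Dfn.mem (DT.var _) (DT.var _)) ?_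
    (fun x => ⟨x.1, x.2, fun y => Iff.rfl⟩) mem_membership_wf ?_ ?_) ?_
  · show hN.Dfn (fun v : Fin 3 → N => (∀ w : N, (w.1 ∈ (v 2).1 ↔ (∃ y : N, (∃ u : N, (∃ p : N, (((y.1 ∈ (v 0).1 ∧ ZFSet.pair y.1 u.1 ∈ (v 1).1)) ∧ p.1 ∈ P ∧ w.1 = ZFSet.pair u.1 p.1)))))))
    exact (Dfn.all (P := fun v w => (w.1 ∈ (v 2).1 ↔ (∃ y : N, (∃ u : N, (∃ p : N, (((y.1 ∈ (v 0).1 ∧ ZFSet.pair y.1 u.1 ∈ (v 1).1)) ∧ p.1 ∈ P ∧ w.1 = ZFSet.pair u.1 p.1))))))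
  (Dfn.iff (Dfn.mem (DT.var _) (DT.var _))
  (Dfn.ex (P := fun v y => (∃ u : N, (∃ p : N, (((y.1 ∈ (v 0).1 ∧ ZFSet.pair y.1 u.1 ∈ (v 1).1)) ∧ p.1 ∈ P ∧ (v 3).1 = ZFSet.pair u.1 p.1))))
  (Dfn.ex (P := fun v u => (∃ p : N, ((((v 4).1 ∈ (v 0).1 ∧ ZFSet.pair (v 4).1 u.1 ∈ (v 1).1)) ∧ p.1 ∈ P ∧ (v 3).1 = ZFSet.pair u.1 p.1)))
  (Dfn.ex (P := fun v p => ((((v 4).1 ∈ (v 0).1 ∧ ZFSet.pair (v 4).1 (v 5).1 ∈ (v 1).1)) ∧ p.1 ∈ P ∧ (v 3).1 = ZFSet.pair (v 5).1 p.1))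
  (Dfn.and (Dfn.and (Dfn.mem (DT.var _) (DT.var _))
  (Dfn.pairMem (DT.var _) (DT.var _) (DT.var _)))
  (Dfn.and (Dfn.mem (DT.var _) (DT.const ⟨P, h.hP⟩))
  (Dfn.isPair (DT.var _) (DT.var _) (DT.var _)))))))))
  · intro x r v v' h1 h2
    exact Subtype.ext (hN.ext' v.2 v'.2 fun z => (h1 z).trans (h2 z).symm)
  · intro x g hd hu
    have hU := hN.prod_mem (hN.sUnion_mem (hN.sUnion_mem g.2)) h.hP
    have hd' : hN.Dfn (fun v : Fin 1 → N => (∃ y : N, (∃ u : N, (∃ p : N, (((y.1 ∈ x.1 ∧ ZFSet.pair y.1 u.1 ∈ g.1)) ∧ p.1 ∈ P ∧ (v 0).1 = ZFSet.pair u.1 p.1))))) :=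
      (Dfn.ex (P := fun v y => (∃ u : N, (∃ p : N, (((y.1 ∈ x.1 ∧ ZFSet.pair y.1 u.1 ∈ g.1)) ∧ p.1 ∈ P ∧ (v 0).1 = ZFSet.pair u.1 p.1))))
  (Dfn.ex (P := fun v u => (∃ p : N, ((((v 1).1 ∈ x.1 ∧ ZFSet.pair (v 1).1 u.1 ∈ g.1)) ∧ p.1 ∈ P ∧ (v 0).1 = ZFSet.pair u.1 p.1)))
  (Dfn.ex (P := fun v p => ((((v 1).1 ∈ x.1 ∧ ZFSet.pair (v 1).1 (v 2).1 ∈ g.1)) ∧ p.1 ∈ P ∧ (v 0).1 = ZFSet.pair (v 2).1 p.1))
  (Dfn.and (Dfn.and (Dfn.mem (DT.var _) (DT.const x))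
  (Dfn.pairMem (DT.var _) (DT.var _) (DT.const g)))
  (Dfn.and (Dfn.mem (DT.var _) (DT.const ⟨P, h.hP⟩))
  (Dfn.isPair (DT.var _) (DT.var _) (DT.var _)))))))
    obtain ⟨b, hb, hb'⟩ := hN.exists_sep (P := fun w => ∃ y u p : N,
      (y.1 ∈ x.1 ∧ ZFSet.pair y.1 u.1 ∈ g.1) ∧ p.1 ∈ P ∧ w.1 = ZFSet.pair u.1 p.1) hd' hU
    refine ⟨⟨b, hb⟩, fun z => ?_⟩
    rw [hb']
    constructor
    · rintro ⟨_, _, h1⟩; exact h1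
    · intro h1
      refine ⟨?_, z.2, h1⟩
      obtain ⟨y, u, p, ⟨_, h2⟩, h3, h4⟩ := h1
      exact ZFSet.mem_prod.2 ⟨_, (mem_sUnion_sUnion_pair h2).2, _, h3, h4⟩
  rintro F ⟨hF, hF'⟩
  refine ⟨F, hF, ?_⟩
  intro x
  induction x using mem_membership_wf.induction with
  | _ x ih =>
    intro q
    rw [feq_iff_mem]
    constructor
    · intro i q1 hq1 hi
      obtain ⟨a, h1, h2⟩ := nm_el c (F x).1 i
      have haN := (hN.of_pair_mem (hN.mem_of_mem (F x).2 h1))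
      obtain ⟨y, u, p, ⟨h3, h4⟩, h5, h6⟩ := (hF' x ⟨_, hN.mem_of_mem (F x).2 h1⟩).1 h1
      have h6 : ZFSet.pair a (c ((nm c (F x).1).cd i)) = ZFSet.pair u.1 p.1 := h6
      rw [ZFSet.pair_inj] at h6
      rw [h2, h6.1, ← h4]
      exact fmem_congr_left (feq_symm (ih y h3 q1)) (fmem_check_of_mem h3 q1)
    · intro j q1 hq1 hj
      obtain ⟨y, hy, h2⟩ := check_el x.1 j
      have hyN := hN.mem_of_mem x.2 hy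
      have h3 : ZFSet.pair (F ⟨y, hyN⟩).1 (c q1) ∈ (F x).1 :=
        (hF' x ⟨_, hN.pair_mem (F ⟨y, hyN⟩).2 (h.c_mem_N hN q1)⟩).2
          ⟨⟨y, hyN⟩, F ⟨y, hyN⟩, ⟨c q1, h.c_mem_N hN q1⟩, ⟨hy, rfl⟩, h.c_mem_P q1, rfl⟩
      obtain ⟨i, h4, h5⟩ := nm_exists c h3
      rw [h2]
      refine fmem_congr_left (ih ⟨y, hyN⟩ hy q1) ?_
      rw [← h4]
      exact fmem_el (by rw [h5])

end CTM

/-! ### The names of the reals `a` -/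

namespace Col

variable {M : Set ZFSet.{u}} (C : Col M)

open Classical in
/-- The code of `t` given by `g`. -/
noncomputable def cgv (g : ℕ → ℕ) (k : ℕ) : ℕ :=
  if C.ι (g k.unpair.1) ∈ C.ι (g k.unpair.2) then 1 else 0

/-- The real `(m, n) ⌢ cgv g`. -/
noncomputable def av (m n : ℕ) (g : ℕ → ℕ) (i : ℕ) : ℕ :=
  if i = 0 then m else if i = 1 then n else C.cgv g (i - 2)

theorem av_zero (m n : ℕ) (g : ℕ → ℕ) : C.av m n g 0 = m := rfl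
theorem av_one (m n : ℕ) (g : ℕ → ℕ) : C.av m n g 1 = n := rfl
theorem av_add (m n : ℕ) (g : ℕ → ℕ) (k : ℕ) : C.av m n g (k + 2) = C.cgv g k := rfl

theorem cont_av (m n : ℕ) : Continuous (C.av m n) := by
  classical
  refine continuous_pi fun i => ?_
  by_cases h0 : i = 0
  · subst h0; exact continuous_const
  by_cases h1 : i = 1
  · subst h1; exact continuous_const
  obtain ⟨k, rfl⟩ : ∃ k, i = k + 2 := ⟨i - 2, by omega⟩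
  have h2 : Continuous (fun p : ℕ × ℕ => if C.ι p.1 ∈ C.ι p.2 then 1 else 0) :=
    continuous_of_discreteTopology
  have h3 : Continuous (fun g : ℕ → ℕ => (g k.unpair.1, g k.unpair.2)) :=
    (continuous_apply _).prodMk (continuous_apply _)
  exact h2.comp h3

/-- The sequence `l` decides that `av m n g i = j`. -/
def Dec (m n i j : ℕ) (l : List ℕ) : Prop :=
  (i = 0 ∧ j = m) ∨ (i = 1 ∧ j = n) ∨ ∃ k, i = k + 2 ∧ ∃ h1 : k.unpair.1 < l.length,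
    ∃ h2 : k.unpair.2 < l.length, (C.ι l[k.unpair.1] ∈ C.ι l[k.unpair.2] ∧ j = 1) ∨
      (C.ι l[k.unpair.1] ∉ C.ι l[k.unpair.2] ∧ j = 0)

variable {C}

theorem Dec.mono {m n i j : ℕ} {l l' : List ℕ} (h : l <+: l') (hD : C.Dec m n i j l) :
    C.Dec m n i j l' := by
  rcases hD with h0 | h0 | ⟨k, hk, h1, h2, h3⟩
  · exact Or.inl h0
  · exact Or.inr (Or.inl h0)
  · obtain ⟨s, rfl⟩ := h
    refine Or.inr (Or.inr ⟨k, hk, by simp; omega, by simp; omega, ?_⟩)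
    rw [List.getElem_append_left h1, List.getElem_append_left h2]
    exact h3

theorem Dec.unique {m n i j j' : ℕ} {l : List ℕ} (h : C.Dec m n i j l)
    (h' : C.Dec m n i j' l) : j = j' := by
  rcases h with ⟨h0, h1⟩ | ⟨h0, h1⟩ | ⟨k, hk, h1, h2, h3⟩ <;>
    rcases h' with ⟨h0', h1'⟩ | ⟨h0', h1'⟩ | ⟨k', hk', h1', h2', h3'⟩
  · omega
  · omega
  · omega
  · omega
  · omega
  · omega
  · omega
  · omega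
  · have : k = k' := by omega
    subst this
    rcases h3 with ⟨h3, h4⟩ | ⟨h3, h4⟩ <;> rcases h3' with ⟨h3', h4'⟩ | ⟨h3', h4'⟩
    · omega
    · exact (h3' h3).elim
    · exact (h3 h3').elim
    · omega

variable (C)

theorem dec_sg (m n i : ℕ) (g : ℕ → ℕ) : ∃ N0, ∀ N, N0 ≤ N → C.Dec m n i (C.av m n g i) (sg g N) := by
  classical
  by_cases h0 : i = 0
  · exact ⟨0, fun N _ => Or.inl ⟨h0, by subst h0; rfl⟩⟩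
  by_cases h1 : i = 1
  · exact ⟨0, fun N _ => Or.inr (Or.inl ⟨h1, by subst h1; rfl⟩)⟩
  obtain ⟨k, rfl⟩ : ∃ k, i = k + 2 := ⟨i - 2, by omega⟩
  refine ⟨k.unpair.1 + k.unpair.2 + 1, fun N hN => Or.inr (Or.inr ⟨k, rfl, by simp; omega,
    by simp; omega, ?_⟩)⟩
  have e1 : (sg g N)[k.unpair.1]'(by simp; omega) = g k.unpair.1 := by simp [sg]
  have e2 : (sg g N)[k.unpair.2]'(by simp; omega) = g k.unpair.2 := by simp [sg]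
  rw [e1, e2, av_add, cgv]
  by_cases h : C.ι (g k.unpair.1) ∈ C.ι (g k.unpair.2)
  · left; exact ⟨h, if_pos h⟩
  · right; exact ⟨h, if_neg h⟩

/-- Names for the reals `av m n`. -/
def IsTau (F : M → M) (m n : ℕ) (τ : ZFSet.{u}) : Prop :=
  ∀ w, w ∈ τ ↔ ∃ i j, ∃ p : Qs.{u}, C.Dec m n i j p.toL ∧ ∃ e : M,
    e.1 = ZFSet.pair (natZ i) (natZ j) ∧ w = ZFSet.pair (F e).1 (C.c p)

section Tau

variable {C} {F : M → M} (hF : ∀ x : M, ∀ q : Qs.{u}, feq (nm C.c (F x).1) (check x.1) q)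

include hF in
theorem feq_tau {i j : ℕ} {e : M} (he : e.1 = ZFSet.pair (natZ i) (natZ j)) {i' j' : ℕ}
    {q : Qs.{u}} (h : feq (check (ZFSet.pair (natZ i') (natZ j'))) (nm C.c (F e).1) q) :
    i' = i ∧ j' = j := by
  have h1 := feq_trans h (hF e q)
  rw [feq_check_iff, he, ZFSet.pair_inj, natZ_inj, natZ_inj] at h1
  exact h1

include hF in
theorem forcesVal_tau {m n : ℕ} {τ : ZFSet.{u}} (hτ : C.IsTau F m n τ) (i j : ℕ) (q : Qs.{u}) :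
    ForcesVal (nm C.c τ) i j q ↔ ∀ g ∈ cyl q.toL, C.av m n g i = j := by
  unfold ForcesVal
  rw [fmem_nm]
  constructor
  · intro h g hg
    obtain ⟨N0, hN0⟩ := C.dec_sg m n i g
    obtain ⟨q2, h1, b, r, h2, h3, h4⟩ := h (Qs.mk (sg g (max N0 q.toL.length)))
      (pre_sg hg (le_max_right _ _))
    obtain ⟨i', j', p, h5, e, he, h6⟩ := (hτ _).1 h2
    rw [ZFSet.pair_inj] at h6
    have h7 := C.c_inj h6.2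
    subst h7
    rw [h6.1] at h4
    obtain ⟨rfl, rfl⟩ := feq_tau hF he h4
    have h8 := Dec.mono (C := C) h1 (hN0 (max N0 q.toL.length) (le_max_left _ _))
    exact h8.unique (h5.mono h3)
  · intro h q1 hq1
    obtain ⟨g, hg⟩ := cyl_nonempty q1.toL
    obtain ⟨N0, hN0⟩ := C.dec_sg m n i g
    have h1 := hN0 (max N0 q1.toL.length) (le_max_left _ _)
    rw [h g (Qs.cyl_mono hq1 hg)] at h1
    let e : M := ⟨ZFSet.pair (natZ i) (natZ j), C.hM.pair_mem (C.hM.natZ_mem_N i) (C.hM.natZ_mem_N j)⟩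
    refine ⟨Qs.mk (sg g (max N0 q1.toL.length)), pre_sg hg (le_max_right _ _), (F e).1,
      Qs.mk (sg g (max N0 q1.toL.length)), (hτ _).2 ⟨i, j, _, h1, e, rfl, rfl⟩, le_rfl,
      feq_symm (hF e _)⟩

include hF in
theorem pairs_tau {m n : ℕ} {τ : ZFSet.{u}} (hτ : C.IsTau F m n τ) (X : Name Qs.{u}) (r : Qs.{u})
    (h : X.fmem (nm C.c τ) r) : ∃ s ≤ r, ∃ i j,
      X.feq (Name.check (ZFSet.pair (natZ i) (natZ j))) s := by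
  rw [fmem_nm] at h
  obtain ⟨q2, h1, b, r', h2, h3, h4⟩ := h r le_rfl
  obtain ⟨i', j', p, h5, e, he, h6⟩ := (hτ _).1 h2
  rw [ZFSet.pair_inj] at h6
  refine ⟨q2, h1, i', j', ?_⟩
  rw [h6.1] at h4
  have h7 := feq_trans h4 (hF e q2)
  rwa [he] at h7

include hF in
/-- Forcing `τ ∈ A_G` for the names `τ` of the reals `av m n`. -/
theorem forcesAG_tau {A : Set (ℕ → ℕ)} {m n : ℕ} {τ : ZFSet.{u}} (hτ : C.IsTau F m n τ)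
    {r : Qs.{u}} : ForcesAG A (nm C.c τ) r ↔ IsMeagre (cyl r.toL \ {g | C.av m n g ∈ A}) :=
  forcesAG_iff (C.cont_av m n) (forcesVal_tau hF hτ) (pairs_tau hF hτ)

end Tau

section Def

variable (hM : CTM M) {P G : ZFSet.{u}} {F : M → M}

/-- The decision predicate in the model. -/
def DecM (G : ZFSet.{u}) (m n i j p : M) : Prop := (((i.1 = ∅ ∧ j.1 = m.1)) ∨ ((i.1 = (natZ 1) ∧ j.1 = n.1)) ∨ ((∃ k : M, (∃ k1 : M, (k1.1 = insert k.1 k.1 ∧ i.1 = insert k1.1 k1.1 ∧ ((∃ a : M, (∃ b : M, (∃ e : M, (∃ z1 : M, (∃ z2 : M, (e.1 = ZFSet.pair a.1 b.1 ∧ ZFSet.pair k.1 e.1 ∈ G ∧ ZFSet.pair a.1 z1.1 ∈ p.1 ∧ ZFSet.pair b.1 z2.1 ∈ p.1 ∧ ((((z1.1 ∈ z2.1 ∧ j.1 = (natZ 1))) ∨ (((¬ (z1.1 ∈ z2.1)) ∧ j.1 = ∅))))))))))))))))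

variable {hM}

theorem decM_dfn (hG : G ∈ M) : hM.Dfn (fun v : Fin 5 → M => DecM G (v 0) (v 1) (v 2) (v 3) (v 4)) := by
  show hM.Dfn (fun v : Fin 5 → M => ((((v 2).1 = ∅ ∧ (v 3).1 = (v 0).1)) ∨ (((v 2).1 = (natZ 1) ∧ (v 3).1 = (v 1).1)) ∨ ((∃ k : M, (∃ k1 : M, (k1.1 = insert k.1 k.1 ∧ (v 2).1 = insert k1.1 k1.1 ∧ ((∃ a : M, (∃ b : M, (∃ e : M, (∃ z1 : M, (∃ z2 : M, (e.1 = ZFSet.pair a.1 b.1 ∧ ZFSet.pair k.1 e.1 ∈ G ∧ ZFSet.pair a.1 z1.1 ∈ (v 4).1 ∧ ZFSet.pair b.1 z2.1 ∈ (v 4).1 ∧ ((((z1.1 ∈ z2.1 ∧ (v 3).1 = (natZ 1))) ∨ (((¬ (z1.1 ∈ z2.1)) ∧ (v 3).1 = ∅)))))))))))))))))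
  exact (Dfn.or (Dfn.and (Dfn.isEmpty (DT.var _))
  (Dfn.eqv (DT.var _) (DT.var _)))
  (Dfn.or (Dfn.and (Dfn.eqv (DT.var _) (DT.const ⟨_, hM.natZ_mem_N 1⟩))
  (Dfn.eqv (DT.var _) (DT.var _)))
  (Dfn.ex (P := fun v k => (∃ k1 : M, (k1.1 = insert k.1 k.1 ∧ (v 2).1 = insert k1.1 k1.1 ∧ ((∃ a : M, (∃ b : M, (∃ e : M, (∃ z1 : M, (∃ z2 : M, (e.1 = ZFSet.pair a.1 b.1 ∧ ZFSet.pair k.1 e.1 ∈ G ∧ ZFSet.pair a.1 z1.1 ∈ (v 4).1 ∧ ZFSet.pair b.1 z2.1 ∈ (v 4).1 ∧ ((((z1.1 ∈ z2.1 ∧ (v 3).1 = (natZ 1))) ∨ (((¬ (z1.1 ∈ z2.1)) ∧ (v 3).1 = ∅))))))))))))))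
  (Dfn.ex (P := fun v k1 => (k1.1 = insert (v 5).1 (v 5).1 ∧ (v 2).1 = insert k1.1 k1.1 ∧ ((∃ a : M, (∃ b : M, (∃ e : M, (∃ z1 : M, (∃ z2 : M, (e.1 = ZFSet.pair a.1 b.1 ∧ ZFSet.pair (v 5).1 e.1 ∈ G ∧ ZFSet.pair a.1 z1.1 ∈ (v 4).1 ∧ ZFSet.pair b.1 z2.1 ∈ (v 4).1 ∧ ((((z1.1 ∈ z2.1 ∧ (v 3).1 = (natZ 1))) ∨ (((¬ (z1.1 ∈ z2.1)) ∧ (v 3).1 = ∅)))))))))))))
  (Dfn.and (Dfn.isInsert (DT.var _) (DT.var _) (DT.var _))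
  (Dfn.and (Dfn.isInsert (DT.var _) (DT.var _) (DT.var _))
  (Dfn.ex (P := fun v a => (∃ b : M, (∃ e : M, (∃ z1 : M, (∃ z2 : M, (e.1 = ZFSet.pair a.1 b.1 ∧ ZFSet.pair (v 5).1 e.1 ∈ G ∧ ZFSet.pair a.1 z1.1 ∈ (v 4).1 ∧ ZFSet.pair b.1 z2.1 ∈ (v 4).1 ∧ ((((z1.1 ∈ z2.1 ∧ (v 3).1 = (natZ 1))) ∨ (((¬ (z1.1 ∈ z2.1)) ∧ (v 3).1 = ∅))))))))))
  (Dfn.ex (P := fun v b => (∃ e : M, (∃ z1 : M, (∃ z2 : M, (e.1 = ZFSet.pair (v 7).1 b.1 ∧ ZFSet.pair (v 5).1 e.1 ∈ G ∧ ZFSet.pair (v 7).1 z1.1 ∈ (v 4).1 ∧ ZFSet.pair b.1 z2.1 ∈ (v 4).1 ∧ ((((z1.1 ∈ z2.1 ∧ (v 3).1 = (natZ 1))) ∨ (((¬ (z1.1 ∈ z2.1)) ∧ (v 3).1 = ∅)))))))))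
  (Dfn.ex (P := fun v e => (∃ z1 : M, (∃ z2 : M, (e.1 = ZFSet.pair (v 7).1 (v 8).1 ∧ ZFSet.pair (v 5).1 e.1 ∈ G ∧ ZFSet.pair (v 7).1 z1.1 ∈ (v 4).1 ∧ ZFSet.pair (v 8).1 z2.1 ∈ (v 4).1 ∧ ((((z1.1 ∈ z2.1 ∧ (v 3).1 = (natZ 1))) ∨ (((¬ (z1.1 ∈ z2.1)) ∧ (v 3).1 = ∅))))))))
  (Dfn.ex (P := fun v z1 => (∃ z2 : M, ((v 9).1 = ZFSet.pair (v 7).1 (v 8).1 ∧ ZFSet.pair (v 5).1 (v 9).1 ∈ G ∧ ZFSet.pair (v 7).1 z1.1 ∈ (v 4).1 ∧ ZFSet.pair (v 8).1 z2.1 ∈ (v 4).1 ∧ ((((z1.1 ∈ z2.1 ∧ (v 3).1 = (natZ 1))) ∨ (((¬ (z1.1 ∈ z2.1)) ∧ (v 3).1 = ∅)))))))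
  (Dfn.ex (P := fun v z2 => ((v 9).1 = ZFSet.pair (v 7).1 (v 8).1 ∧ ZFSet.pair (v 5).1 (v 9).1 ∈ G ∧ ZFSet.pair (v 7).1 (v 10).1 ∈ (v 4).1 ∧ ZFSet.pair (v 8).1 z2.1 ∈ (v 4).1 ∧ (((((v 10).1 ∈ z2.1 ∧ (v 3).1 = (natZ 1))) ∨ (((¬ ((v 10).1 ∈ z2.1)) ∧ (v 3).1 = ∅))))))
  (Dfn.and (Dfn.isPair (DT.var _) (DT.var _) (DT.var _))
  (Dfn.and (Dfn.pairMem (DT.var _) (DT.var _) (DT.const ⟨G, hG⟩))
  (Dfn.and (Dfn.pairMem (DT.var _) (DT.var _) (DT.var _))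
  (Dfn.and (Dfn.pairMem (DT.var _) (DT.var _) (DT.var _))
  (Dfn.or (Dfn.and (Dfn.mem (DT.var _) (DT.var _))
  (Dfn.eqv (DT.var _) (DT.const ⟨_, hM.natZ_mem_N 1⟩)))
  (Dfn.and (Dfn.not (Dfn.mem (DT.var _) (DT.var _)))
  (Dfn.isEmpty (DT.var _)))))))))))))))))))

/-- The elements of the name in the model. -/
def ElM (P G : ZFSet.{u}) (F : M → M) (m n w : M) : Prop := (∃ i : M, (∃ j : M, (∃ p : M, (∃ e : M, (∃ u : M, (i.1 ∈ omZ ∧ j.1 ∈ omZ ∧ p.1 ∈ P ∧ e.1 = ZFSet.pair i.1 j.1 ∧ (fun e u => F e = u) e u ∧ w.1 = ZFSet.pair u.1 p.1 ∧ DecM G m n i j p))))))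

theorem elM_dfn (hF : hM.Dfn (fun v : Fin 2 → M => F (v 0) = v 1)) (hP : P ∈ M) (hG : G ∈ M) :
    hM.Dfn (fun v : Fin 3 → M => ElM P G F (v 0) (v 1) (v 2)) := by
  show hM.Dfn (fun v : Fin 3 → M => (∃ i : M, (∃ j : M, (∃ p : M, (∃ e : M, (∃ u : M, (i.1 ∈ omZ ∧ j.1 ∈ omZ ∧ p.1 ∈ P ∧ e.1 = ZFSet.pair i.1 j.1 ∧ (fun e u => F e = u) e u ∧ (v 2).1 = ZFSet.pair u.1 p.1 ∧ DecM G (v 0) (v 1) i j p)))))))
  exact (Dfn.ex (P := fun v i => (∃ j : M, (∃ p : M, (∃ e : M, (∃ u : M, (i.1 ∈ omZ ∧ j.1 ∈ omZ ∧ p.1 ∈ P ∧ e.1 = ZFSet.pair i.1 j.1 ∧ (fun e u => F e = u) e u ∧ (v 2).1 = ZFSet.pair u.1 p.1 ∧ DecM G (v 0) (v 1) i j p))))))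
  (Dfn.ex (P := fun v j => (∃ p : M, (∃ e : M, (∃ u : M, ((v 3).1 ∈ omZ ∧ j.1 ∈ omZ ∧ p.1 ∈ P ∧ e.1 = ZFSet.pair (v 3).1 j.1 ∧ (fun e u => F e = u) e u ∧ (v 2).1 = ZFSet.pair u.1 p.1 ∧ DecM G (v 0) (v 1) (v 3) j p)))))
  (Dfn.ex (P := fun v p => (∃ e : M, (∃ u : M, ((v 3).1 ∈ omZ ∧ (v 4).1 ∈ omZ ∧ p.1 ∈ P ∧ e.1 = ZFSet.pair (v 3).1 (v 4).1 ∧ (fun e u => F e = u) e u ∧ (v 2).1 = ZFSet.pair u.1 p.1 ∧ DecM G (v 0) (v 1) (v 3) (v 4) p))))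
  (Dfn.ex (P := fun v e => (∃ u : M, ((v 3).1 ∈ omZ ∧ (v 4).1 ∈ omZ ∧ (v 5).1 ∈ P ∧ e.1 = ZFSet.pair (v 3).1 (v 4).1 ∧ (fun e u => F e = u) e u ∧ (v 2).1 = ZFSet.pair u.1 (v 5).1 ∧ DecM G (v 0) (v 1) (v 3) (v 4) (v 5))))
  (Dfn.ex (P := fun v u => ((v 3).1 ∈ omZ ∧ (v 4).1 ∈ omZ ∧ (v 5).1 ∈ P ∧ (v 6).1 = ZFSet.pair (v 3).1 (v 4).1 ∧ (fun e u => F e = u) (v 6) u ∧ (v 2).1 = ZFSet.pair u.1 (v 5).1 ∧ DecM G (v 0) (v 1) (v 3) (v 4) (v 5)))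
  (Dfn.and (Dfn.mem (DT.var _) (DT.const ⟨omZ, hM.omZ_mem⟩))
  (Dfn.and (Dfn.mem (DT.var _) (DT.const ⟨omZ, hM.omZ_mem⟩))
  (Dfn.and (Dfn.mem (DT.var _) (DT.const ⟨P, hP⟩))
  (Dfn.and (Dfn.isPair (DT.var _) (DT.var _) (DT.var _))
  (Dfn.and (Dfn.subst2 (P := (fun e u => F e = u)) hF (DT.var _) (DT.var _))
  (Dfn.and (Dfn.isPair (DT.var _) (DT.var _) (DT.var _))
  (Dfn.subst5 (P := DecM G) (decM_dfn hG) (DT.var _) (DT.var _) (DT.var _) (DT.var _) (DT.var _)))))))))))))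

/-- The name in the model. -/
def TauM (P G : ZFSet.{u}) (F : M → M) (m n t : M) : Prop := (∀ w : M, (w.1 ∈ t.1 ↔ ElM P G F m n w))

theorem tauM_dfn (hF : hM.Dfn (fun v : Fin 2 → M => F (v 0) = v 1)) (hP : P ∈ M) (hG : G ∈ M) :
    hM.Dfn (fun v : Fin 3 → M => TauM P G F (v 0) (v 1) (v 2)) := by
  show hM.Dfn (fun v : Fin 3 → M => (∀ w : M, (w.1 ∈ (v 2).1 ↔ ElM P G F (v 0) (v 1) w)))
  exact (Dfn.all (P := fun v w => (w.1 ∈ (v 2).1 ↔ ElM P G F (v 0) (v 1) w))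
  (Dfn.iff (Dfn.mem (DT.var _) (DT.var _))
  (Dfn.subst3 (P := ElM P G F) (elM_dfn hF hP hG) (DT.var _) (DT.var _) (DT.var _))))

end Def

end Col

end Pool.Agent.H17.Omega
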