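import Pool.Agent.H17.Omega.MName

/-!
# Values of names of structures in a countable transitive model
-/

set_option autoImplicit false
set_option linter.unusedVariables false
set_option linter.unusedSectionVars false
set_option linter.unusedSimpArgs false
set_option linter.deprecated false

universe u v w

namespace Pool.Agent.H17.Omega

open Name CTM

theorem insert_self_natZ {x : ZFSet.{u}} {k : ℕ} (h : x = natZ k) : insert x x = natZ.{u} (k + 1) := by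
  rw [h]; rfl

namespace Col

variable {M : Set ZFSet.{u}} (C : Col M)

theorem decM_iff {hM : CTM M} {m n i j : ℕ} {p : Qs.{u}} {mm nn ii jj pp : M} (hm : mm.1 = natZ m)
    (hn : nn.1 = natZ n) (hi : ii.1 = natZ i) (hj : jj.1 = natZ j) (hp : pp.1 = C.c p) :
    DecM (relThreeZ.{u} (fun k i j => k = Nat.pair i j)) mm nn ii jj pp ↔ C.Dec m n i j p.toL := by
  have h0 : ∀ k, natZ.{u} k = ∅ ↔ k = 0 := fun k => by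
    rw [show (∅ : ZFSet.{u}) = natZ 0 from rfl, natZ_inj]
  constructor
  · rintro (⟨h1, h2⟩ | ⟨h1, h2⟩ | ⟨k, k1, h1, h2, a, b, e, z1, z2, h3, h4, h5, h6, h7⟩)
    · rw [hi, h0] at h1
      rw [hj, hm, natZ_inj] at h2
      exact Or.inl ⟨h1, h2⟩
    · rw [hi, natZ_inj] at h1
      rw [hj, hn, natZ_inj] at h2
      exact Or.inr (Or.inl ⟨h1, h2⟩)
    · obtain ⟨k', a', b', h8, h9⟩ := mem_relThreeZ.1 h4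
      rw [ZFSet.pair_inj] at h9
      have h10 := h3.symm.trans h9.2
      rw [ZFSet.pair_inj] at h10
      rw [h10.1, hp] at h5
      rw [h10.2, hp] at h6
      obtain ⟨l1, h11⟩ := C.pair_mem_cq.1 h5
      obtain ⟨l2, h12⟩ := C.pair_mem_cq.1 h6
      rw [insert_self_natZ h9.1] at h1
      rw [insert_self_natZ h1, hi, natZ_inj] at h2
      have e1 : k'.unpair.1 = a' := by rw [h8]; simp
      have e2 : k'.unpair.2 = b' := by rw [h8]; simp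
      refine Or.inr (Or.inr ⟨k', h2, ?_⟩)
      simp only [e1, e2]
      refine ⟨l1, l2, ?_⟩
      rw [← h11, ← h12]
      rcases h7 with ⟨h7, h7'⟩ | ⟨h7, h7'⟩
      · left; rw [hj, natZ_inj] at h7'; exact ⟨h7, h7'⟩
      · right; rw [hj, h0] at h7'; exact ⟨h7, h7'⟩
  · rintro (⟨h1, h2⟩ | ⟨h1, h2⟩ | ⟨k, h1, l1, l2, h7⟩)
    · exact Or.inl ⟨by rw [hi, h1]; rfl, by rw [hj, hm, h2]⟩
    · exact Or.inr (Or.inl ⟨by rw [hi, h1], by rw [hj, hn, h2]⟩)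
    · refine Or.inr (Or.inr ⟨⟨natZ k, C.hM.natZ_mem_N k⟩, ⟨natZ (k + 1), C.hM.natZ_mem_N _⟩, rfl, ?_,
        ⟨natZ k.unpair.1, C.hM.natZ_mem_N _⟩, ⟨natZ k.unpair.2, C.hM.natZ_mem_N _⟩,
        ⟨_, C.hM.pair_mem (C.hM.natZ_mem_N k.unpair.1) (C.hM.natZ_mem_N k.unpair.2)⟩,
        ⟨_, C.ι_mem p.toL[k.unpair.1]⟩, ⟨_, C.ι_mem p.toL[k.unpair.2]⟩, rfl, ?_, ?_, ?_, ?_⟩)
      · rw [hi, h1]; rfl
      · exact pair_mem_relThreeZ.2 (Nat.pair_unpair k).symm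
      · rw [hp]; exact C.pair_mem_cq.2 ⟨l1, rfl⟩
      · rw [hp]; exact C.pair_mem_cq.2 ⟨l2, rfl⟩
      · rcases h7 with ⟨h7, h7'⟩ | ⟨h7, h7'⟩
        · left; exact ⟨h7, by rw [hj, h7']⟩
        · right; exact ⟨h7, by rw [hj, h7']; rfl⟩

theorem elM_iff {F : M → M} {m n : ℕ} {mm nn w : M} (hm : mm.1 = natZ m) (hn : nn.1 = natZ n) :
    ElM C.PZ (relThreeZ.{u} (fun k i j => k = Nat.pair i j)) F mm nn w ↔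
      ∃ i j, ∃ p : Qs.{u}, C.Dec m n i j p.toL ∧ ∃ e : M,
    e.1 = ZFSet.pair (natZ i) (natZ j) ∧ w.1 = ZFSet.pair (F e).1 (C.c p) := by
  constructor
  · rintro ⟨i, j, p, e, u, h1, h2, h3, h4, h5, h6, h7⟩
    obtain ⟨i', hi⟩ := mem_omZ.1 h1
    obtain ⟨j', hj⟩ := mem_omZ.1 h2
    obtain ⟨p', hp⟩ := C.mem_PZ'.1 h3
    refine ⟨i', j', p', (C.decM_iff (hM := C.hM) hm hn hi hj hp).1 h7, e, by rw [h4, hi, hj], ?_⟩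
    have h5 : F e = u := h5
    rw [h5, ← hp]; exact h6
  · rintro ⟨i, j, p, h1, e, h2, h3⟩
    refine ⟨⟨natZ i, C.hM.natZ_mem_N i⟩, ⟨natZ j, C.hM.natZ_mem_N j⟩, ⟨C.c p, C.c_mem p⟩, e, F e,
      natZ_mem_omZ i, natZ_mem_omZ j, C.mem_PZ'.2 ⟨p, rfl⟩, h2, rfl, h3,
      (C.decM_iff (hM := C.hM) hm hn rfl rfl rfl).2 h1⟩

theorem tauM_iff {F : M → M} {m n : ℕ} {mm nn t : M} (hm : mm.1 = natZ m) (hn : nn.1 = natZ n) :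
    TauM C.PZ (relThreeZ.{u} (fun k i j => k = Nat.pair i j)) F mm nn t ↔ C.IsTau F m n t.1 := by
  constructor
  · intro h w
    constructor
    · intro hw
      exact (C.elM_iff (w := ⟨w, C.hM.mem_of_mem t.2 hw⟩) hm hn).1 ((h ⟨w, C.hM.mem_of_mem t.2 hw⟩).1 hw)
    · rintro ⟨i, j, p, h1, e, h2, rfl⟩
      exact (h ⟨_, C.hM.pair_mem (F e).2 (C.c_mem p)⟩).2 ((C.elM_iff hm hn).2 ⟨i, j, p, h1, e, h2, rfl⟩)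
  · intro h w
    rw [C.elM_iff hm hn]
    exact h w.1

theorem exists_isTau {F : M → M} (hF : C.hM.Dfn (fun v : Fin 2 → M => F (v 0) = v 1)) (m n : ℕ) :
    ∃ τ ∈ M, C.IsTau F m n τ := by
  have hM := C.hM
  obtain ⟨b, hb, hb'⟩ := hM.exists_repl (F := fun e u => F e = u) hF
    (hM.prod_mem hM.omZ_mem hM.omZ_mem) (fun x _ y y' h1 h2 => h1.symm.trans h2)
  have hG := hM.pairGraph_mem
  obtain ⟨τ, hτ, hτ'⟩ := hM.exists_sep (P := fun w => ElM C.PZ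
    (relThreeZ.{u} (fun k i j => k = Nat.pair i j)) F ⟨natZ m, hM.natZ_mem_N m⟩
      ⟨natZ n, hM.natZ_mem_N n⟩ w)
    (Dfn.subst3 (P := ElM C.PZ (relThreeZ.{u} (fun k i j => k = Nat.pair i j)) F)
      (elM_dfn hF C.PZ_mem hG) (DT.const _) (DT.const _) (DT.var _))
    (hM.prod_mem hb C.PZ_mem)
  refine ⟨τ, hτ, fun w => ?_⟩
  rw [hτ']
  constructor
  · rintro ⟨_, hw, h1⟩
    exact (C.elM_iff rfl rfl).1 h1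
  · rintro ⟨i, j, p, h1, e, h2, rfl⟩
    have hw := hM.pair_mem (F e).2 (C.c_mem p)
    refine ⟨ZFSet.mem_prod.2 ⟨_, ?_, _, C.mem_PZ'.2 ⟨p, rfl⟩, rfl⟩, hw, ?_⟩
    · rw [hb']
      exact ⟨e, by rw [h2]; exact ZFSet.mem_prod.2 ⟨_, natZ_mem_omZ i, _, natZ_mem_omZ j, rfl⟩, rfl⟩
    · exact (C.elM_iff rfl rfl).2 ⟨i, j, p, h1, e, h2, rfl⟩

/-- The relation `r` forces that `av m n ∈ A`. -/
def FE (A : Set (ℕ → ℕ)) (r : Qs.{u}) (m n : ℕ) : Prop := IsMeagre (cyl r.toL \ {g | C.av m n g ∈ A})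

/-- The digits of the generic structure are forced in the model. -/
theorem exists_E {A : Set (ℕ → ℕ)} {q : Qs.{u}} {σ : ZFSet.{u}} (hσ : σ ∈ M)
    (hA : ∀ τ ∈ M, ∀ r ≤ q, (fmem (nm C.c τ) (nm C.c σ) r ↔ ForcesAG A (nm C.c τ) r)) :
    ∃ E ∈ M, ∀ z, z ∈ E ↔ ∃ r ≤ q, ∃ m n, C.FE A r m n ∧
      z = ZFSet.pair (C.c r) (ZFSet.pair (natZ m) (natZ n)) := by
  have hM := C.hM
  obtain ⟨P, R, h⟩ := C.posetIn.exists_PR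
  obtain ⟨F, hF, hF'⟩ := hM.exists_chk h
  obtain ⟨MF, hMF, hMF'⟩ := hM.exists_fmem h
  have hG := hM.pairGraph_mem
  have hoo := hM.prod_mem hM.omZ_mem hM.omZ_mem
  set G : ZFSet.{u} := relThreeZ.{u} (fun k i j => k = Nat.pair i j) with hGdef
  have hd : hM.Dfn (fun v : Fin 1 → M => (∃ r : M, (∃ m : M, (∃ n : M, (∃ e : M, (∃ t : M, ((v 0).1 = ZFSet.pair r.1 e.1 ∧ e.1 = ZFSet.pair m.1 n.1 ∧ m.1 ∈ omZ ∧ n.1 ∈ omZ ∧ ZFSet.pair r.1 (C.c q) ∈ R ∧ TauM C.PZ G F m n t ∧ MF r t ⟨σ, hσ⟩))))))) := by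
    exact (Dfn.ex (P := fun v r => (∃ m : M, (∃ n : M, (∃ e : M, (∃ t : M, ((v 0).1 = ZFSet.pair r.1 e.1 ∧ e.1 = ZFSet.pair m.1 n.1 ∧ m.1 ∈ omZ ∧ n.1 ∈ omZ ∧ ZFSet.pair r.1 (C.c q) ∈ R ∧ TauM C.PZ G F m n t ∧ MF r t ⟨σ, hσ⟩))))))
  (Dfn.ex (P := fun v m => (∃ n : M, (∃ e : M, (∃ t : M, ((v 0).1 = ZFSet.pair (v 1).1 e.1 ∧ e.1 = ZFSet.pair m.1 n.1 ∧ m.1 ∈ omZ ∧ n.1 ∈ omZ ∧ ZFSet.pair (v 1).1 (C.c q) ∈ R ∧ TauM C.PZ G F m n t ∧ MF (v 1) t ⟨σ, hσ⟩)))))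
  (Dfn.ex (P := fun v n => (∃ e : M, (∃ t : M, ((v 0).1 = ZFSet.pair (v 1).1 e.1 ∧ e.1 = ZFSet.pair (v 2).1 n.1 ∧ (v 2).1 ∈ omZ ∧ n.1 ∈ omZ ∧ ZFSet.pair (v 1).1 (C.c q) ∈ R ∧ TauM C.PZ G F (v 2) n t ∧ MF (v 1) t ⟨σ, hσ⟩))))
  (Dfn.ex (P := fun v e => (∃ t : M, ((v 0).1 = ZFSet.pair (v 1).1 e.1 ∧ e.1 = ZFSet.pair (v 2).1 (v 3).1 ∧ (v 2).1 ∈ omZ ∧ (v 3).1 ∈ omZ ∧ ZFSet.pair (v 1).1 (C.c q) ∈ R ∧ TauM C.PZ G F (v 2) (v 3) t ∧ MF (v 1) t ⟨σ, hσ⟩)))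
  (Dfn.ex (P := fun v t => ((v 0).1 = ZFSet.pair (v 1).1 (v 4).1 ∧ (v 4).1 = ZFSet.pair (v 2).1 (v 3).1 ∧ (v 2).1 ∈ omZ ∧ (v 3).1 ∈ omZ ∧ ZFSet.pair (v 1).1 (C.c q) ∈ R ∧ TauM C.PZ G F (v 2) (v 3) t ∧ MF (v 1) t ⟨σ, hσ⟩))
  (Dfn.and (Dfn.isPair (DT.var _) (DT.var _) (DT.var _))
  (Dfn.and (Dfn.isPair (DT.var _) (DT.var _) (DT.var _))
  (Dfn.and (Dfn.mem (DT.var _) (DT.const ⟨omZ, hM.omZ_mem⟩))
  (Dfn.and (Dfn.mem (DT.var _) (DT.const ⟨omZ, hM.omZ_mem⟩))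
  (Dfn.and (Dfn.pairMem (DT.var _) (DT.const ⟨C.c q, C.c_mem q⟩) (DT.const ⟨R, h.hR⟩))
  (Dfn.and (Dfn.subst3 (P := TauM C.PZ G F) (tauM_dfn hF C.PZ_mem hG) (DT.var _) (DT.var _) (DT.var _))
  (Dfn.subst3 (P := MF) hMF (DT.var _) (DT.var _) (DT.const ⟨σ, hσ⟩)))))))))))))
  obtain ⟨E, hE, hE'⟩ := hM.exists_sep (P := fun z => (∃ r : M, (∃ m : M, (∃ n : M, (∃ e : M, (∃ t : M, (z.1 = ZFSet.pair r.1 e.1 ∧ e.1 = ZFSet.pair m.1 n.1 ∧ m.1 ∈ omZ ∧ n.1 ∈ omZ ∧ ZFSet.pair r.1 (C.c q) ∈ R ∧ TauM C.PZ G F m n t ∧ MF r t ⟨σ, hσ⟩))))))) hd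
    (hM.prod_mem C.PZ_mem hoo)
  refine ⟨E, hE, fun z => ?_⟩
  rw [hE']
  constructor
  · rintro ⟨h1, hz, r, m, n, e, t, h2, h3, h4, h5, h6, h7, h8⟩
    obtain ⟨m', hm⟩ := mem_omZ.1 h4
    obtain ⟨n', hn⟩ := mem_omZ.1 h5
    obtain ⟨r', q', h9, h10, h11⟩ := h.of_pair_mem h6
    have h11 := h.inj h11
    subst h11
    have h12 := (C.tauM_iff hm hn).1 h7
    refine ⟨r', h9, m', n', ?_, ?_⟩
    · rw [hMF' r' _ _ _ h10, hA t.1 t.2 r' h9, C.forcesAG_tau hF' h12] at h8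
      exact h8
    · have h2 : z = ZFSet.pair r.1 e.1 := h2
      rw [h2, h3, hm, hn, h10]
  · rintro ⟨r, hr, m, n, h1, rfl⟩
    have hz := hM.pair_mem (C.c_mem r) (hM.pair_mem (hM.natZ_mem_N m) (hM.natZ_mem_N n))
    refine ⟨ZFSet.mem_prod.2 ⟨_, C.mem_PZ'.2 ⟨r, rfl⟩, _, ZFSet.mem_prod.2 ⟨_, natZ_mem_omZ m, _,
      natZ_mem_omZ n, rfl⟩, rfl⟩, hz, ?_⟩
    obtain ⟨τ, hτ, hτ'⟩ := C.exists_isTau hF m n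
    refine ⟨⟨C.c r, C.c_mem r⟩, ⟨natZ m, hM.natZ_mem_N m⟩, ⟨natZ n, hM.natZ_mem_N n⟩,
      ⟨_, hM.pair_mem (hM.natZ_mem_N m) (hM.natZ_mem_N n)⟩, ⟨τ, hτ⟩, rfl, rfl, natZ_mem_omZ m,
      natZ_mem_omZ n, h.le_iff.2 hr, (C.tauM_iff rfl rfl).2 hτ', ?_⟩
    rw [hMF' r _ _ _ rfl, hA τ hτ r hr, C.forcesAG_tau hF' hτ']
    exact h1

end Col

/-! ### Values -/

section VZ

variable {Q : Type u} [PartialOrder Q] (FE : Q → ℕ → ℕ → Prop)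

/-- `r` forces that `n` has the value `z` in the generic structure. -/
def VZ (z : ZFSet.{u}) : Q → ℕ → Prop := fun r n =>
  (∀ u : {u : ZFSet.{u} // u ∈ z}, ∀ r' ≤ r, ∃ r'' ≤ r', ∃ m, FE r'' m n ∧ VZ u.1 r'' m) ∧
  (∀ m, ∀ r' ≤ r, FE r' m n → ∃ r'' ≤ r', ∃ u : {u : ZFSet.{u} // u ∈ z}, VZ u.1 r'' m)
termination_by z
decreasing_by all_goals exact u.2

variable {FE}

theorem vz_iff {z : ZFSet.{u}} {r : Q} {n : ℕ} : VZ FE z r n ↔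
    (∀ u ∈ z, ∀ r' ≤ r, ∃ r'' ≤ r', ∃ m, FE r'' m n ∧ VZ FE u r'' m) ∧
    (∀ m, ∀ r' ≤ r, FE r' m n → ∃ r'' ≤ r', ∃ u ∈ z, VZ FE u r'' m) := by
  rw [VZ]
  simp

theorem VZ.mono {z : ZFSet.{u}} {r r' : Q} {n : ℕ} (h : r' ≤ r) (hz : VZ FE z r n) : VZ FE z r' n := by
  rw [vz_iff] at hz ⊢
  exact ⟨fun u hu r'' hr'' => hz.1 u hu r'' (hr''.trans h), fun m r'' hr'' => hz.2 m r'' (hr''.trans h)⟩

theorem VZ.unique {z : ZFSet.{u}} : ∀ {z' : ZFSet.{u}} {r : Q} {n : ℕ}, VZ FE z r n →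
    VZ FE z' r n → z = z' := by
  induction z using ZFSet.inductionOn with
  | _ z ih =>
    intro z' r n h h'
    have h0 := h
    have h0' := h'
    rw [vz_iff] at h h'
    ext u
    constructor
    · intro hu
      obtain ⟨r1, hr1, m, h1, h2⟩ := h.1 u hu r le_rfl
      obtain ⟨r2, hr2, u', hu', h3⟩ := h'.2 m r1 hr1 h1
      rw [ih u hu (h2.mono hr2) h3]; exact hu'
    · intro hu
      obtain ⟨r1, hr1, m, h1, h2⟩ := h'.1 u hu r le_rfl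
      obtain ⟨r2, hr2, u', hu', h3⟩ := h.2 m r1 hr1 h1
      rw [← ih u' hu' h3 (h2.mono hr2)]; exact hu'

end VZ

namespace CTM

variable {M : Set ZFSet.{u}} (hM : CTM M) {Q : Type u} [PartialOrder Q] {c : Q → ZFSet.{u}}

/-- The clause of the recursion. -/
def KV (c : Q → ZFSet.{u}) (q : Q) (R E : ZFSet.{u}) (x h w : M) : Prop := (∃ r : M, (∃ n : M, (w.1 = ZFSet.pair r.1 n.1 ∧ ZFSet.pair r.1 (c q) ∈ R ∧ n.1 ∈ omZ ∧ ((∀ u : M, (u.1 ∈ x.1 → (∀ r1 : M, (ZFSet.pair r1.1 r.1 ∈ R → (∃ r2 : M, (ZFSet.pair r2.1 r1.1 ∈ R ∧ ((∃ m : M, (∃ e : M, (∃ e1 : M, (∃ s : M, (e.1 = ZFSet.pair m.1 n.1 ∧ ZFSet.pair r2.1 e.1 ∈ E ∧ e1.1 = ZFSet.pair r2.1 m.1 ∧ ((u.1 ∈ x.1 ∧ ZFSet.pair u.1 s.1 ∈ h.1)) ∧ e1.1 ∈ s.1))))))))))))) ∧ ((∀ m : M, (m.1 ∈ omZ → (∀ r1 : M, (ZFSet.pair r1.1 r.1 ∈ R → (∀ e : M, (e.1 = ZFSet.pair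 m.1 n.1 → (ZFSet.pair r1.1 e.1 ∈ E → (∃ r2 : M, (ZFSet.pair r2.1 r1.1 ∈ R ∧ ((∃ u : M, (∃ s : M, (∃ e1 : M, (((u.1 ∈ x.1 ∧ ZFSet.pair u.1 s.1 ∈ h.1)) ∧ e1.1 = ZFSet.pair r2.1 m.1 ∧ e1.1 ∈ s.1))))))))))))))))))

theorem KV_dfn {P R E : ZFSet.{u}} (h : PR M c P R) (hE : E ∈ M) (q : Q) :
    hM.Dfn (fun v : Fin 3 → M => KV c q R E (v 0) (v 1) (v 2)) := by
  show hM.Dfn (fun v : Fin 3 → M => (∃ r : M, (∃ n : M, ((v 2).1 = ZFSet.pair r.1 n.1 ∧ ZFSet.pair r.1 (c q) ∈ R ∧ n.1 ∈ omZ ∧ ((∀ u : M, (u.1 ∈ (v 0).1 → (∀ r1 : M, (ZFSet.pair r1.1 r.1 ∈ R → (∃ r2 : M, (ZFSet.pair r2.1 r1.1 ∈ R ∧ ((∃ m : M, (∃ e : M, (∃ e1 : M, (∃ s : M, (e.1 = ZFSet.pair m.1 n.1 ∧ ZFSet.pair r2.1 e.1 ∈ E ∧ e1.1 = ZFSet.pair r2.1 m.1 ∧ ((u.1 ∈ (v 0).1 ∧ ZFSet.pair u.1 s.1 ∈ (v 1).1)) ∧ e1.1 ∈ s.1))))))))))))) ∧ ((∀ m :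 M, (m.1 ∈ omZ → (∀ r1 : M, (ZFSet.pair r1.1 r.1 ∈ R → (∀ e : M, (e.1 = ZFSet.pair m.1 n.1 → (ZFSet.pair r1.1 e.1 ∈ E → (∃ r2 : M, (ZFSet.pair r2.1 r1.1 ∈ R ∧ ((∃ u : M, (∃ s : M, (∃ e1 : M, (((u.1 ∈ (v 0).1 ∧ ZFSet.pair u.1 s.1 ∈ (v 1).1)) ∧ e1.1 = ZFSet.pair r2.1 m.1 ∧ e1.1 ∈ s.1)))))))))))))))))))
  exact (Dfn.ex (P := fun v r => (∃ n : M, ((v 2).1 = ZFSet.pair r.1 n.1 ∧ ZFSet.pair r.1 (c q) ∈ R ∧ n.1 ∈ omZ ∧ ((∀ u : M, (u.1 ∈ (v 0).1 → (∀ r1 : M, (ZFSet.pair r1.1 r.1 ∈ R → (∃ r2 : M, (ZFSet.pair r2.1 r1.1 ∈ R ∧ ((∃ m : M, (∃ e : M, (∃ e1 : M, (∃ s : M, (e.1 = ZFSet.pair m.1 n.1 ∧ ZFSet.pair r2.1 e.1 ∈ E ∧ e1.1 = ZFSet.pair r2.1 m.1 ∧ ((u.1 ∈ (v 0).1 ∧ ZFSet.pair u.1 s.1 ∈ (v 1).1)) ∧ e1.1 ∈ s.1))))))))))))) ∧ ((∀ m : M, (m.1 ∈ omZ → (∀ r1 : M, (ZFSet.pair r1.1 r.1 ∈ R → (∀ e : M, (e.1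 = ZFSet.pair m.1 n.1 → (ZFSet.pair r1.1 e.1 ∈ E → (∃ r2 : M, (ZFSet.pair r2.1 r1.1 ∈ R ∧ ((∃ u : M, (∃ s : M, (∃ e1 : M, (((u.1 ∈ (v 0).1 ∧ ZFSet.pair u.1 s.1 ∈ (v 1).1)) ∧ e1.1 = ZFSet.pair r2.1 m.1 ∧ e1.1 ∈ s.1))))))))))))))))))
  (Dfn.ex (P := fun v n => ((v 2).1 = ZFSet.pair (v 3).1 n.1 ∧ ZFSet.pair (v 3).1 (c q) ∈ R ∧ n.1 ∈ omZ ∧ ((∀ u : M, (u.1 ∈ (v 0).1 → (∀ r1 : M, (ZFSet.pair r1.1 (v 3).1 ∈ R → (∃ r2 : M, (ZFSet.pair r2.1 r1.1 ∈ R ∧ ((∃ m : M, (∃ e : M, (∃ e1 : M, (∃ s : M, (e.1 = ZFSet.pair m.1 n.1 ∧ ZFSet.pair r2.1 e.1 ∈ E ∧ e1.1 = ZFSet.pair r2.1 m.1 ∧ ((u.1 ∈ (v 0).1 ∧ ZFSet.pair u.1 s.1 ∈ (v 1).1)) ∧ e1.1 ∈ s.1))))))))))))) ∧ ((∀ m : M, (m.1 ∈ omZ → (∀ r1 : M, (ZFSet.pair r1.1 (v 3).1 ∈ R → (∀ e : M, (e.1 = ZFSet.pair m.1 n.1 → (ZFSet.pair r1.1 e.1 ∈ E → (∃ r2 : M, (ZFSet.pair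 r2.1 r1.1 ∈ R ∧ ((∃ u : M, (∃ s : M, (∃ e1 : M, (((u.1 ∈ (v 0).1 ∧ ZFSet.pair u.1 s.1 ∈ (v 1).1)) ∧ e1.1 = ZFSet.pair r2.1 m.1 ∧ e1.1 ∈ s.1)))))))))))))))))
  (Dfn.and (Dfn.isPair (DT.var _) (DT.var _) (DT.var _))
  (Dfn.and (Dfn.pairMem (DT.var _) (DT.const ⟨c q, h.c_mem_N hM q⟩) (DT.const ⟨R, h.hR⟩))
  (Dfn.and (Dfn.mem (DT.var _) (DT.const ⟨omZ, hM.omZ_mem⟩))
  (Dfn.and (Dfn.all (P := fun v u => (u.1 ∈ (v 0).1 → (∀ r1 : M, (ZFSet.pair r1.1 (v 3).1 ∈ R → (∃ r2 : M, (ZFSet.pair r2.1 r1.1 ∈ R ∧ ((∃ m : M, (∃ e : M, (∃ e1 : M, (∃ s : M, (e.1 = ZFSet.pair m.1 (v 4).1 ∧ ZFSet.pair r2.1 e.1 ∈ E ∧ e1.1 = ZFSet.pair r2.1 m.1 ∧ ((u.1 ∈ (v 0).1 ∧ ZFSet.pair u.1 s.1 ∈ (v 1).1)) ∧ e1.1 ∈ s.1))))))))))))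
  (Dfn.imp (Dfn.mem (DT.var _) (DT.var _))
  (Dfn.all (P := fun v r1 => (ZFSet.pair r1.1 (v 3).1 ∈ R → (∃ r2 : M, (ZFSet.pair r2.1 r1.1 ∈ R ∧ ((∃ m : M, (∃ e : M, (∃ e1 : M, (∃ s : M, (e.1 = ZFSet.pair m.1 (v 4).1 ∧ ZFSet.pair r2.1 e.1 ∈ E ∧ e1.1 = ZFSet.pair r2.1 m.1 ∧ (((v 5).1 ∈ (v 0).1 ∧ ZFSet.pair (v 5).1 s.1 ∈ (v 1).1)) ∧ e1.1 ∈ s.1))))))))))
  (Dfn.imp (Dfn.pairMem (DT.var _) (DT.var _) (DT.const ⟨R, h.hR⟩))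
  (Dfn.ex (P := fun v r2 => (ZFSet.pair r2.1 (v 6).1 ∈ R ∧ ((∃ m : M, (∃ e : M, (∃ e1 : M, (∃ s : M, (e.1 = ZFSet.pair m.1 (v 4).1 ∧ ZFSet.pair r2.1 e.1 ∈ E ∧ e1.1 = ZFSet.pair r2.1 m.1 ∧ (((v 5).1 ∈ (v 0).1 ∧ ZFSet.pair (v 5).1 s.1 ∈ (v 1).1)) ∧ e1.1 ∈ s.1))))))))
  (Dfn.and (Dfn.pairMem (DT.var _) (DT.var _) (DT.const ⟨R, h.hR⟩))
  (Dfn.ex (P := fun v m => (∃ e : M, (∃ e1 : M, (∃ s : M, (e.1 = ZFSet.pair m.1 (v 4).1 ∧ ZFSet.pair (v 7).1 e.1 ∈ E ∧ e1.1 = ZFSet.pair (v 7).1 m.1 ∧ (((v 5).1 ∈ (v 0).1 ∧ ZFSet.pair (v 5).1 s.1 ∈ (v 1).1)) ∧ e1.1 ∈ s.1)))))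
  (Dfn.ex (P := fun v e => (∃ e1 : M, (∃ s : M, (e.1 = ZFSet.pair (v 8).1 (v 4).1 ∧ ZFSet.pair (v 7).1 e.1 ∈ E ∧ e1.1 = ZFSet.pair (v 7).1 (v 8).1 ∧ (((v 5).1 ∈ (v 0).1 ∧ ZFSet.pair (v 5).1 s.1 ∈ (v 1).1)) ∧ e1.1 ∈ s.1))))
  (Dfn.ex (P := fun v e1 => (∃ s : M, ((v 9).1 = ZFSet.pair (v 8).1 (v 4).1 ∧ ZFSet.pair (v 7).1 (v 9).1 ∈ E ∧ e1.1 = ZFSet.pair (v 7).1 (v 8).1 ∧ (((v 5).1 ∈ (v 0).1 ∧ ZFSet.pair (v 5).1 s.1 ∈ (v 1).1)) ∧ e1.1 ∈ s.1)))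
  (Dfn.ex (P := fun v s => ((v 9).1 = ZFSet.pair (v 8).1 (v 4).1 ∧ ZFSet.pair (v 7).1 (v 9).1 ∈ E ∧ (v 10).1 = ZFSet.pair (v 7).1 (v 8).1 ∧ (((v 5).1 ∈ (v 0).1 ∧ ZFSet.pair (v 5).1 s.1 ∈ (v 1).1)) ∧ (v 10).1 ∈ s.1))
  (Dfn.and (Dfn.isPair (DT.var _) (DT.var _) (DT.var _))
  (Dfn.and (Dfn.pairMem (DT.var _) (DT.var _) (DT.const ⟨E, hE⟩))
  (Dfn.and (Dfn.isPair (DT.var _) (DT.var _) (DT.var _))
  (Dfn.and (Dfn.and (Dfn.mem (DT.var _) (DT.var _))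
  (Dfn.pairMem (DT.var _) (DT.var _) (DT.var _)))
  (Dfn.mem (DT.var _) (DT.var _))))))))))))))))
  (Dfn.all (P := fun v m => (m.1 ∈ omZ → (∀ r1 : M, (ZFSet.pair r1.1 (v 3).1 ∈ R → (∀ e : M, (e.1 = ZFSet.pair m.1 (v 4).1 → (ZFSet.pair r1.1 e.1 ∈ E → (∃ r2 : M, (ZFSet.pair r2.1 r1.1 ∈ R ∧ ((∃ u : M, (∃ s : M, (∃ e1 : M, (((u.1 ∈ (v 0).1 ∧ ZFSet.pair u.1 s.1 ∈ (v 1).1)) ∧ e1.1 = ZFSet.pair r2.1 m.1 ∧ e1.1 ∈ s.1))))))))))))))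
  (Dfn.imp (Dfn.mem (DT.var _) (DT.const ⟨omZ, hM.omZ_mem⟩))
  (Dfn.all (P := fun v r1 => (ZFSet.pair r1.1 (v 3).1 ∈ R → (∀ e : M, (e.1 = ZFSet.pair (v 5).1 (v 4).1 → (ZFSet.pair r1.1 e.1 ∈ E → (∃ r2 : M, (ZFSet.pair r2.1 r1.1 ∈ R ∧ ((∃ u : M, (∃ s : M, (∃ e1 : M, (((u.1 ∈ (v 0).1 ∧ ZFSet.pair u.1 s.1 ∈ (v 1).1)) ∧ e1.1 = ZFSet.pair r2.1 (v 5).1 ∧ e1.1 ∈ s.1))))))))))))
  (Dfn.imp (Dfn.pairMem (DT.var _) (DT.var _) (DT.const ⟨R, h.hR⟩))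
  (Dfn.all (P := fun v e => (e.1 = ZFSet.pair (v 5).1 (v 4).1 → (ZFSet.pair (v 6).1 e.1 ∈ E → (∃ r2 : M, (ZFSet.pair r2.1 (v 6).1 ∈ R ∧ ((∃ u : M, (∃ s : M, (∃ e1 : M, (((u.1 ∈ (v 0).1 ∧ ZFSet.pair u.1 s.1 ∈ (v 1).1)) ∧ e1.1 = ZFSet.pair r2.1 (v 5).1 ∧ e1.1 ∈ s.1))))))))))
  (Dfn.imp (Dfn.isPair (DT.var _) (DT.var _) (DT.var _))
  (Dfn.imp (Dfn.pairMem (DT.var _) (DT.var _) (DT.const ⟨E, hE⟩))
  (Dfn.ex (P := fun v r2 => (ZFSet.pair r2.1 (v 6).1 ∈ R ∧ ((∃ u : M, (∃ s : M, (∃ e1 : M, (((u.1 ∈ (v 0).1 ∧ ZFSet.pair u.1 s.1 ∈ (v 1).1)) ∧ e1.1 = ZFSet.pair r2.1 (v 5).1 ∧ e1.1 ∈ s.1)))))))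
  (Dfn.and (Dfn.pairMem (DT.var _) (DT.var _) (DT.const ⟨R, h.hR⟩))
  (Dfn.ex (P := fun v u => (∃ s : M, (∃ e1 : M, (((u.1 ∈ (v 0).1 ∧ ZFSet.pair u.1 s.1 ∈ (v 1).1)) ∧ e1.1 = ZFSet.pair (v 8).1 (v 5).1 ∧ e1.1 ∈ s.1))))
  (Dfn.ex (P := fun v s => (∃ e1 : M, ((((v 9).1 ∈ (v 0).1 ∧ ZFSet.pair (v 9).1 s.1 ∈ (v 1).1)) ∧ e1.1 = ZFSet.pair (v 8).1 (v 5).1 ∧ e1.1 ∈ s.1)))
  (Dfn.ex (P := fun v e1 => ((((v 9).1 ∈ (v 0).1 ∧ ZFSet.pair (v 9).1 (v 10).1 ∈ (v 1).1)) ∧ e1.1 = ZFSet.pair (v 8).1 (v 5).1 ∧ e1.1 ∈ (v 10).1))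
  (Dfn.and (Dfn.and (Dfn.mem (DT.var _) (DT.var _))
  (Dfn.pairMem (DT.var _) (DT.var _) (DT.var _)))
  (Dfn.and (Dfn.isPair (DT.var _) (DT.var _) (DT.var _))
  (Dfn.mem (DT.var _) (DT.var _))))))))))))))))))))))

/-- The values of the nodes of a generic structure are definable in the model. -/
theorem exists_VZ {P R : ZFSet.{u}} (h : PR M c P R) {FE : Q → ℕ → ℕ → Prop} {q : Q}
    {E : ZFSet.{u}} (hE : E ∈ M) (hE' : ∀ z, z ∈ E ↔ ∃ r ≤ q, ∃ m n, FE r m n ∧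
      z = ZFSet.pair (c r) (ZFSet.pair (natZ m) (natZ n))) :
    ∃ F : M → M, hM.Dfn (fun v : Fin 2 → M => F (v 0) = v 1) ∧
      ∀ z : M, ∀ w, w ∈ (F z).1 ↔ ∃ r ≤ q, ∃ n, w = ZFSet.pair (c r) (natZ n) ∧ VZ FE z.1 r n := by
  have hmE : ∀ r m n, ZFSet.pair (c r) (ZFSet.pair (natZ m) (natZ n)) ∈ E ↔ r ≤ q ∧ FE r m n := by
    intro r m n
    rw [hE']
    constructor
    · rintro ⟨r', hr', m', n', h1, h2⟩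
      rw [ZFSet.pair_inj, ZFSet.pair_inj, natZ_inj, natZ_inj] at h2
      obtain ⟨h2, rfl, rfl⟩ := h2
      have h2 := h.inj h2
      subst h2
      exact ⟨hr', h1⟩
    · rintro ⟨h1, h2⟩; exact ⟨r, h1, m, n, h2, rfl⟩
  have hK : hM.Dfn (fun v : Fin 3 → M => KV c q R E (v 0) (v 1) (v 2)) := hM.KV_dfn h hE q
  refine Exists.elim (recursion (hN := hM) (R := fun x y : M => x.1 ∈ y.1) (𝒢 := fun x rel v =>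
    ∀ w : M, w.1 ∈ v.1 ↔ ∃ r n : M, w.1 = ZFSet.pair r.1 n.1 ∧ ZFSet.pair r.1 (c q) ∈ R ∧ n.1 ∈ omZ ∧
      (∀ u : M, u.1 ∈ x.1 → ∀ r1 : M, ZFSet.pair r1.1 r.1 ∈ R → ∃ r2 : M, ZFSet.pair r2.1 r1.1 ∈ R ∧
        ∃ m e e1 s : M, e.1 = ZFSet.pair m.1 n.1 ∧ ZFSet.pair r2.1 e.1 ∈ E ∧
        e1.1 = ZFSet.pair r2.1 m.1 ∧ rel u s ∧ e1.1 ∈ s.1) ∧
      (∀ m : M, m.1 ∈ omZ → ∀ r1 : M, ZFSet.pair r1.1 r.1 ∈ R → ∀ e : M, e.1 = ZFSet.pair m.1 n.1 →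
        ZFSet.pair r1.1 e.1 ∈ E → ∃ r2 : M, ZFSet.pair r2.1 r1.1 ∈ R ∧ ∃ u s e1 : M, rel u s ∧
        e1.1 = ZFSet.pair r2.1 m.1 ∧ e1.1 ∈ s.1))
    (Dfn.mem (DT.var _) (DT.var _)) ?_
    (fun x => ⟨x.1, x.2, fun y => Iff.rfl⟩) mem_membership_wf ?_ ?_) ?_
  · have h1 : hM.Dfn (fun v : Fin 3 → M => ∀ w : M, w.1 ∈ (v 2).1 ↔ KV c q R E (v 0) (v 1) w) := by
      refine Dfn.all (P := fun v w => w.1 ∈ (v 2).1 ↔ KV c q R E (v 0) (v 1) w) ?_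
      exact Dfn.iff (Dfn.mem (DT.var _) (DT.var _))
        (Dfn.subst3 (P := KV c q R E) hK (DT.var _) (DT.var _) (DT.var _))
    exact h1
  · intro x r v v' h1 h2
    exact Subtype.ext (hM.ext' v.2 v'.2 fun z => (h1 z).trans (h2 z).symm)
  · intro x g hd hu
    have hd' : hM.Dfn (fun v : Fin 1 → M => KV c q R E x g (v 0)) :=
      Dfn.subst3 (P := KV c q R E) hK (DT.const x) (DT.const g) (DT.var _)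
    obtain ⟨b, hb, hb'⟩ := hM.exists_sep (P := fun w => KV c q R E x g w) hd'
      (hM.prod_mem h.hP hM.omZ_mem)
    refine ⟨⟨b, hb⟩, fun z => ?_⟩
    rw [hb']
    constructor
    · rintro ⟨_, _, h2⟩; exact h2
    · intro h2
      refine ⟨?_, z.2, h2⟩
      obtain ⟨r, n, h3, h4, h5, _⟩ := h2
      obtain ⟨r', q', _, h6, _⟩ := h.of_pair_mem h4
      exact ZFSet.mem_prod.2 ⟨_, by rw [h6]; exact h.c_mem_P r', _, h5, h3⟩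
  rintro F ⟨hF, hF'⟩
  refine ⟨F, hF, ?_⟩
  intro z
  induction z using mem_membership_wf.induction with
  | _ z ih =>
    have ih' : ∀ u : M, u.1 ∈ z.1 → ∀ r m, ZFSet.pair (c r) (natZ m) ∈ (F u).1 ↔ r ≤ q ∧ VZ FE u.1 r m := by
      intro u hu r m
      rw [ih u hu]
      constructor
      · rintro ⟨r', hr', n', h1, h2⟩
        rw [ZFSet.pair_inj, natZ_inj] at h1
        obtain ⟨h1, rfl⟩ := h1
        have h1 := h.inj h1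
        subst h1
        exact ⟨hr', h2⟩
      · rintro ⟨h1, h2⟩; exact ⟨r, h1, m, rfl, h2⟩
    intro w
    constructor
    · intro hw
      obtain ⟨r, n, h1, h2, h3, h4, h5⟩ := (hF' z ⟨w, hM.mem_of_mem (F z).2 hw⟩).1 hw
      obtain ⟨n', hn⟩ := mem_omZ.1 h3
      obtain ⟨r', q', h6, h7, h8⟩ := h.of_pair_mem h2
      have h8 := h.inj h8
      subst h8
      refine ⟨r', h6, n', by rw [← h7, ← hn]; exact h1, ?_⟩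
      rw [vz_iff]
      constructor
      · intro u hu r1 hr1
        have huM := hM.mem_of_mem z.2 hu
        obtain ⟨r2, h9, m, e, e1, s, h10, h11, h12, ⟨h13, h14⟩, h15⟩ := h4 ⟨u, huM⟩ hu
          ⟨c r1, h.c_mem_N hM r1⟩ (by rw [h7]; exact h.le_iff.2 hr1)
        obtain ⟨r2', r1', h16, h17, h18⟩ := h.of_pair_mem h9
        have h18 := h.inj h18
        subst h18
        obtain ⟨_, _, m', n'', _, h19⟩ := (hE' _).1 h11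
        rw [ZFSet.pair_inj, h10, ZFSet.pair_inj] at h19
        rw [h10, h17, h19.2.1, hn, hmE] at h11
        rw [← h14, h12, h17, h19.2.1, ih' _ hu] at h15
        exact ⟨r2', h16, m', h11.2, h15.2⟩
      · intro m r1 hr1 hFE
        obtain ⟨r2, h9, u, s, e1, ⟨h13, h14⟩, h12, h15⟩ := h5 ⟨natZ m, hM.natZ_mem_N m⟩ (natZ_mem_omZ m)
          ⟨c r1, h.c_mem_N hM r1⟩ (by rw [h7]; exact h.le_iff.2 hr1)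
          ⟨_, hM.pair_mem (hM.natZ_mem_N m) n.2⟩ rfl
          (by
            show ZFSet.pair (c r1) (ZFSet.pair (natZ m) n.1) ∈ E
            rw [hn]; exact (hmE _ _ _).2 ⟨hr1.trans h6, hFE⟩)
        obtain ⟨r2', r1', h16, h17, h18⟩ := h.of_pair_mem h9
        have h18 := h.inj h18
        subst h18
        rw [← h14, h12, h17, ih' _ h13] at h15
        exact ⟨r2', h16, u.1, h13, h15.2⟩
    · rintro ⟨r, hr, n, rfl, h1⟩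
      rw [vz_iff] at h1
      refine (hF' z ⟨_, hM.pair_mem (h.c_mem_N hM r) (hM.natZ_mem_N n)⟩).2
        ⟨⟨c r, h.c_mem_N hM r⟩, ⟨natZ n, hM.natZ_mem_N n⟩, rfl, h.le_iff.2 hr, natZ_mem_omZ n, ?_, ?_⟩
      · intro u hu r1 hr1
        obtain ⟨r1', r', h6, h7, h8⟩ := h.of_pair_mem hr1
        have h8 := h.inj h8
        subst h8
        obtain ⟨r2, hr2, m, h9, h10⟩ := h1.1 u.1 hu r1' h6
        have hr2q : r2 ≤ q := (hr2.trans h6).trans hr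
        refine ⟨⟨c r2, h.c_mem_N hM r2⟩, by rw [h7]; exact h.le_iff.2 hr2,
          ⟨natZ m, hM.natZ_mem_N m⟩, ⟨_, hM.pair_mem (hM.natZ_mem_N m) (hM.natZ_mem_N n)⟩,
          ⟨_, hM.pair_mem (h.c_mem_N hM r2) (hM.natZ_mem_N m)⟩, F u, rfl,
          (hmE _ _ _).2 ⟨hr2q, h9⟩, rfl, ⟨hu, rfl⟩, (ih' u hu r2 m).2 ⟨hr2q, h10⟩⟩
      · intro m hm r1 hr1 e he hFE
        obtain ⟨m', hm'⟩ := mem_omZ.1 hm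
        obtain ⟨r1', r', h6, h7, h8⟩ := h.of_pair_mem hr1
        have h8 := h.inj h8
        subst h8
        rw [he, h7, hm', hmE] at hFE
        obtain ⟨r2, hr2, u, hu, h10⟩ := h1.2 m' r1' h6 hFE.2
        have hr2q : r2 ≤ q := (hr2.trans h6).trans hr
        have huM := hM.mem_of_mem z.2 hu
        refine ⟨⟨c r2, h.c_mem_N hM r2⟩, by rw [h7]; exact h.le_iff.2 hr2, ⟨u, huM⟩, F ⟨u, huM⟩,
          ⟨_, hM.pair_mem (h.c_mem_N hM r2) (hM.natZ_mem_N m')⟩, ⟨hu, rfl⟩, by rw [hm'], ?_⟩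
        exact (ih' ⟨u, huM⟩ hu r2 m').2 ⟨hr2q, h10⟩

include hM in
/-- If a condition decides the value of a node, then the value belongs to the model. -/
theorem mem_of_VZ {P R : ZFSet.{u}} (h : PR M c P R) {FE : Q → ℕ → ℕ → Prop} {q : Q}
    {E : ZFSet.{u}} (hE : E ∈ M) (hE' : ∀ z, z ∈ E ↔ ∃ r ≤ q, ∃ m n, FE r m n ∧
      z = ZFSet.pair (c r) (ZFSet.pair (natZ m) (natZ n))) (z : ZFSet.{u}) :
    ∀ r ≤ q, ∀ n, VZ FE z r n → z ∈ M := by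
  obtain ⟨F, hF, hF'⟩ := hM.exists_VZ h hE hE'
  have hmE : ∀ r m n, ZFSet.pair (c r) (ZFSet.pair (natZ m) (natZ n)) ∈ E ↔ r ≤ q ∧ FE r m n := by
    intro r m n
    rw [hE']
    constructor
    · rintro ⟨r', hr', m', n', h1, h2⟩
      rw [ZFSet.pair_inj, ZFSet.pair_inj, natZ_inj, natZ_inj] at h2
      obtain ⟨h2, rfl, rfl⟩ := h2
      have h2 := h.inj h2
      subst h2
      exact ⟨hr', h1⟩
    · rintro ⟨h1, h2⟩; exact ⟨r, h1, m, n, h2, rfl⟩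
  induction z using ZFSet.inductionOn with
  | _ z ih =>
    intro r hr n hz
    rw [vz_iff] at hz
    have hsub : ∀ u ∈ z, u ∈ M := by
      intro u hu
      obtain ⟨r2, hr2, m, _, h1⟩ := hz.1 u hu r le_rfl
      exact ih u hu r2 (hr2.trans hr) m h1
    have hd : hM.Dfn (fun v : Fin 1 → M => (∃ r1 : M, (∃ m : M, (∃ e : M, ((v 0).1 = ZFSet.pair r1.1 m.1 ∧ ZFSet.pair r1.1 (c r) ∈ R ∧ e.1 = ZFSet.pair m.1 (natZ n) ∧ ZFSet.pair r1.1 e.1 ∈ E))))) := by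
      exact (Dfn.ex (P := fun v r1 => (∃ m : M, (∃ e : M, ((v 0).1 = ZFSet.pair r1.1 m.1 ∧ ZFSet.pair r1.1 (c r) ∈ R ∧ e.1 = ZFSet.pair m.1 (natZ n) ∧ ZFSet.pair r1.1 e.1 ∈ E))))
  (Dfn.ex (P := fun v m => (∃ e : M, ((v 0).1 = ZFSet.pair (v 1).1 m.1 ∧ ZFSet.pair (v 1).1 (c r) ∈ R ∧ e.1 = ZFSet.pair m.1 (natZ n) ∧ ZFSet.pair (v 1).1 e.1 ∈ E)))
  (Dfn.ex (P := fun v e => ((v 0).1 = ZFSet.pair (v 1).1 (v 2).1 ∧ ZFSet.pair (v 1).1 (c r) ∈ R ∧ e.1 = ZFSet.pair (v 2).1 (natZ n) ∧ ZFSet.pair (v 1).1 e.1 ∈ E))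
  (Dfn.and (Dfn.isPair (DT.var _) (DT.var _) (DT.var _))
  (Dfn.and (Dfn.pairMem (DT.var _) (DT.const ⟨c r, h.c_mem_N hM r⟩) (DT.const ⟨R, h.hR⟩))
  (Dfn.and (Dfn.isPair (DT.var _) (DT.var _) (DT.const ⟨natZ n, hM.natZ_mem_N n⟩))
  (Dfn.pairMem (DT.var _) (DT.var _) (DT.const ⟨E, hE⟩))))))))
    obtain ⟨a, ha, ha'⟩ := hM.exists_sep (P := fun x => (∃ r1 : M, (∃ m : M, (∃ e : M, (x.1 = ZFSet.pair r1.1 m.1 ∧ ZFSet.pair r1.1 (c r) ∈ R ∧ e.1 = ZFSet.pair m.1 (natZ n) ∧ ZFSet.pair r1.1 e.1 ∈ E))))) hd (hM.prod_mem h.hP hM.omZ_mem)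
    have ha2 : ∀ x, x ∈ a ↔ ∃ r1 ≤ r, ∃ m, FE r1 m n ∧ x = ZFSet.pair (c r1) (natZ m) := by
      intro x
      rw [ha']
      constructor
      · rintro ⟨h0, hx, r1, m, e, h1, h2, h3, h4⟩
        obtain ⟨r1', r', h6, h7, h8⟩ := h.of_pair_mem h2
        have h8 := h.inj h8
        subst h8
        have h1 : x = ZFSet.pair r1.1 m.1 := h1
        rw [h1, ZFSet.pair_mem_prod] at h0
        obtain ⟨m', hm'⟩ := mem_omZ.1 h0.2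
        rw [h3, hm', h7, hmE] at h4
        exact ⟨r1', h6, m', h4.2, by rw [h1, h7, hm']⟩
      · rintro ⟨r1, hr1, m, h1, rfl⟩
        refine ⟨ZFSet.pair_mem_prod.2 ⟨h.c_mem_P r1, natZ_mem_omZ m⟩,
          hM.pair_mem (h.c_mem_N hM r1) (hM.natZ_mem_N m), ⟨c r1, h.c_mem_N hM r1⟩,
          ⟨natZ m, hM.natZ_mem_N m⟩, ⟨_, hM.pair_mem (hM.natZ_mem_N m) (hM.natZ_mem_N n)⟩, rfl,
          h.le_iff.2 hr1, rfl, (hmE _ _ _).2 ⟨hr1.trans hr, h1⟩⟩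
    have hFd : hM.Dfn (fun v : Fin 2 → M => (fun x y => x.1 ∈ (F y).1) (v 0) (v 1)) := by
      refine (Dfn.ex (P := fun v s => F (v 1) = s ∧ (v 0).1 ∈ s.1) (Dfn.and
        (Dfn.subst2 (P := fun y s => F y = s) hF (DT.var _) (DT.var _))
        (Dfn.mem (DT.var _) (DT.var _)))).congr fun v => ?_
      constructor
      · rintro ⟨s, rfl, h1⟩; exact h1
      · intro h1; exact ⟨_, rfl, h1⟩
    have hmF : ∀ (y : M) r1 m, ZFSet.pair (c r1) (natZ m) ∈ (F y).1 ↔ r1 ≤ q ∧ VZ FE y.1 r1 m := by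
      intro y r1 m
      rw [hF']
      constructor
      · rintro ⟨r', hr', n', h1, h2⟩
        rw [ZFSet.pair_inj, natZ_inj] at h1
        obtain ⟨h1, rfl⟩ := h1
        have h1 := h.inj h1
        subst h1
        exact ⟨hr', h2⟩
      · rintro ⟨h1, h2⟩; exact ⟨r1, h1, m, rfl, h2⟩
    obtain ⟨b, hb, hb'⟩ := hM.exists_repl hFd ha (by
      intro x hx y y' h1 h2
      obtain ⟨r1, hr1, m, h3, h4⟩ := (ha2 _).1 hx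
      have h1 : x.1 ∈ (F y).1 := h1
      have h2 : x.1 ∈ (F y').1 := h2
      rw [h4, hmF] at h1 h2
      exact Subtype.ext (h1.2.unique h2.2))
    have hzb : z = b := by
      ext y
      constructor
      · intro hy
        obtain ⟨r2, hr2, m, h1, h2⟩ := hz.1 y hy r le_rfl
        refine (hb' ⟨y, hsub y hy⟩).2 ⟨⟨ZFSet.pair (c r2) (natZ m),
          hM.pair_mem (h.c_mem_N hM r2) (hM.natZ_mem_N m)⟩, (ha2 _).2 ⟨r2, hr2, m, h1, rfl⟩, ?_⟩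
        exact (hmF ⟨y, hsub y hy⟩ r2 m).2 ⟨hr2.trans hr, h2⟩
      · intro hy
        have hyM := hM.mem_of_mem hb hy
        obtain ⟨x, hx, h1⟩ := (hb' ⟨y, hyM⟩).1 hy
        obtain ⟨r1, hr1, m, h3, h4⟩ := (ha2 _).1 hx
        have h1 : x.1 ∈ (F ⟨y, hyM⟩).1 := h1
        rw [h4, hmF] at h1
        obtain ⟨r2, hr2, u, hu, h5⟩ := hz.2 m r1 hr1 h3
        have h6 : u = y := h5.unique (h1.2.mono hr2)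
        rw [← h6]; exact hu
    rw [hzb]; exact hb

end CTM

end Pool.Agent.H17.Omega
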