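import Pool.Agent.H17.Omega.MTau
import Pool.Agent.H17.Omega.Cpt

/-!
# The elements of generic values, in a countable transitive model
-/

set_option autoImplicit false
set_option linter.unusedVariables false
set_option linter.unusedSectionVars false
set_option linter.unusedSimpArgs false
set_option linter.deprecated false

universe u v w

namespace Pool.Agent.H17.Omega

open Name CTM

namespace CTM

variable {M : Set ZFSet.{u}} (hM : CTM M) {Q : Type u} [PartialOrder Q] {c : Q → ZFSet.{u}}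

include hM in
/-- The set of the sets that are forced, by some condition below `r`, to be elements of the value of
`n`. -/
theorem exists_vals {P R : ZFSet.{u}} (h : PR M c P R) {FE : Q → ℕ → ℕ → Prop} {q : Q}
    {E : ZFSet.{u}} (hE : E ∈ M) (hE' : ∀ z, z ∈ E ↔ ∃ r ≤ q, ∃ m n, FE r m n ∧
      z = ZFSet.pair (c r) (ZFSet.pair (natZ m) (natZ n))) (r : Q) (hr : r ≤ q) (n : ℕ) :
    ∃ b ∈ M, ∀ y, y ∈ b ↔ y ∈ M ∧ ∃ r1 ≤ r, ∃ m, FE r1 m n ∧ VZ FE y r1 m := by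
  obtain ⟨F, hF, hF'⟩ := hM.exists_VZ h hE hE'
  have hmE : ∀ r m n, ZFSet.pair (c r) (ZFSet.pair (natZ m) (natZ n)) ∈ E ↔ r ≤ q ∧ FE r m n := by
    intro r m n
    rw [hE']
    constructor
    · rintro ⟨r', hr', m', n', h1, h2⟩
      rw [ZFSet.pair_inj, ZFSet.pair_inj, natZ_inj, natZ_inj] at h2
      obtain ⟨h2, rfl, rfl⟩ := h2
      have h2 := h.inj h2
      subst h2
      exact ⟨hr', h1⟩
    · rintro ⟨h1, h2⟩; exact ⟨r, h1, m, n, h2, rfl⟩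
  have hd : hM.Dfn (fun v : Fin 1 → M => (∃ r1 : M, (∃ m : M, (∃ e : M, ((v 0).1 = ZFSet.pair r1.1 m.1 ∧ ZFSet.pair r1.1 (c r) ∈ R ∧ e.1 = ZFSet.pair m.1 (natZ n) ∧ ZFSet.pair r1.1 e.1 ∈ E))))) := by
    exact (Dfn.ex (P := fun v r1 => (∃ m : M, (∃ e : M, ((v 0).1 = ZFSet.pair r1.1 m.1 ∧ ZFSet.pair r1.1 (c r) ∈ R ∧ e.1 = ZFSet.pair m.1 (natZ n) ∧ ZFSet.pair r1.1 e.1 ∈ E))))
  (Dfn.ex (P := fun v m => (∃ e : M, ((v 0).1 = ZFSet.pair (v 1).1 m.1 ∧ ZFSet.pair (v 1).1 (c r) ∈ R ∧ e.1 = ZFSet.pair m.1 (natZ n) ∧ ZFSet.pair (v 1).1 e.1 ∈ E)))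
  (Dfn.ex (P := fun v e => ((v 0).1 = ZFSet.pair (v 1).1 (v 2).1 ∧ ZFSet.pair (v 1).1 (c r) ∈ R ∧ e.1 = ZFSet.pair (v 2).1 (natZ n) ∧ ZFSet.pair (v 1).1 e.1 ∈ E))
  (Dfn.and (Dfn.isPair (DT.var _) (DT.var _) (DT.var _))
  (Dfn.and (Dfn.pairMem (DT.var _) (DT.const ⟨c r, h.c_mem_N hM r⟩) (DT.const ⟨R, h.hR⟩))
  (Dfn.and (Dfn.isPair (DT.var _) (DT.var _) (DT.const ⟨natZ n, hM.natZ_mem_N n⟩))
  (Dfn.pairMem (DT.var _) (DT.var _) (DT.const ⟨E, hE⟩))))))))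
  obtain ⟨a, ha, ha'⟩ := hM.exists_sep (P := fun x => (∃ r1 : M, (∃ m : M, (∃ e : M, (x.1 = ZFSet.pair r1.1 m.1 ∧ ZFSet.pair r1.1 (c r) ∈ R ∧ e.1 = ZFSet.pair m.1 (natZ n) ∧ ZFSet.pair r1.1 e.1 ∈ E))))) hd (hM.prod_mem h.hP hM.omZ_mem)
  have ha2 : ∀ x, x ∈ a ↔ ∃ r1 ≤ r, ∃ m, FE r1 m n ∧ x = ZFSet.pair (c r1) (natZ m) := by
    intro x
    rw [ha']
    constructor
    · rintro ⟨h0, hx, r1, m, e, h1, h2, h3, h4⟩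
      obtain ⟨r1', r', h6, h7, h8⟩ := h.of_pair_mem h2
      have h8 := h.inj h8
      subst h8
      have h1 : x = ZFSet.pair r1.1 m.1 := h1
      rw [h1, ZFSet.pair_mem_prod] at h0
      obtain ⟨m', hm'⟩ := mem_omZ.1 h0.2
      rw [h3, hm', h7, hmE] at h4
      exact ⟨r1', h6, m', h4.2, by rw [h1, h7, hm']⟩
    · rintro ⟨r1, hr1, m, h1, rfl⟩
      refine ⟨ZFSet.pair_mem_prod.2 ⟨h.c_mem_P r1, natZ_mem_omZ m⟩,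
        hM.pair_mem (h.c_mem_N hM r1) (hM.natZ_mem_N m), ⟨c r1, h.c_mem_N hM r1⟩,
        ⟨natZ m, hM.natZ_mem_N m⟩, ⟨_, hM.pair_mem (hM.natZ_mem_N m) (hM.natZ_mem_N n)⟩, rfl,
        h.le_iff.2 hr1, rfl, (hmE _ _ _).2 ⟨hr1.trans hr, h1⟩⟩
  have hFd : hM.Dfn (fun v : Fin 2 → M => (fun x y => x.1 ∈ (F y).1) (v 0) (v 1)) := by
    refine (Dfn.ex (P := fun v s => F (v 1) = s ∧ (v 0).1 ∈ s.1) (Dfn.and
      (Dfn.subst2 (P := fun y s => F y = s) hF (DT.var _) (DT.var _))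
      (Dfn.mem (DT.var _) (DT.var _)))).congr fun v => ?_
    constructor
    · rintro ⟨s, rfl, h1⟩; exact h1
    · intro h1; exact ⟨_, rfl, h1⟩
  have hmF : ∀ (y : M) r1 m, ZFSet.pair (c r1) (natZ m) ∈ (F y).1 ↔ r1 ≤ q ∧ VZ FE y.1 r1 m := by
    intro y r1 m
    rw [hF']
    constructor
    · rintro ⟨r', hr', n', h1, h2⟩
      rw [ZFSet.pair_inj, natZ_inj] at h1
      obtain ⟨h1, rfl⟩ := h1
      have h1 := h.inj h1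
      subst h1
      exact ⟨hr', h2⟩
    · rintro ⟨h1, h2⟩; exact ⟨r1, h1, m, rfl, h2⟩
  obtain ⟨b, hb, hb'⟩ := hM.exists_repl hFd ha (by
    intro x hx y y' h1 h2
    obtain ⟨r1, hr1, m, h3, h4⟩ := (ha2 _).1 hx
    have h1 : x.1 ∈ (F y).1 := h1
    have h2 : x.1 ∈ (F y').1 := h2
    rw [h4, hmF] at h1 h2
    exact Subtype.ext (h1.2.unique h2.2))
  refine ⟨b, hb, fun y => ?_⟩
  constructor
  · intro hy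
    have hyM := hM.mem_of_mem hb hy
    obtain ⟨x, hx, h1⟩ := (hb' ⟨y, hyM⟩).1 hy
    obtain ⟨r1, hr1, m, h3, h4⟩ := (ha2 _).1 hx
    have h1 : x.1 ∈ (F ⟨y, hyM⟩).1 := h1
    rw [h4, hmF] at h1
    exact ⟨hyM, r1, hr1, m, h3, h1.2⟩
  · rintro ⟨hyM, r1, hr1, m, h1, h2⟩
    exact (hb' ⟨y, hyM⟩).2 ⟨⟨ZFSet.pair (c r1) (natZ m),
      hM.pair_mem (h.c_mem_N hM r1) (hM.natZ_mem_N m)⟩, (ha2 _).2 ⟨r1, hr1, m, h1, rfl⟩,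
      (hmF ⟨y, hyM⟩ r1 m).2 ⟨hr1.trans hr, h2⟩⟩

/-- `r` forces that `a` is an element of the value of `0`. -/
def SA (FE : Q → ℕ → ℕ → Prop) (a : ZFSet.{u}) (r : Q) : Prop := ∃ m, FE r m 0 ∧ VZ FE a r m

theorem SA.mono {FE : Q → ℕ → ℕ → Prop} (hFE : ∀ r r' m n, r' ≤ r → FE r m n → FE r' m n)
    {a : ZFSet.{u}} {r r' : Q} (hr : r' ≤ r) (h : SA FE a r) : SA FE a r' := by
  obtain ⟨m, h1, h2⟩ := h
  exact ⟨m, hFE _ _ _ _ hr h1, h2.mono hr⟩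

/-- The version of `SA` in the model. -/
def SM (E : ZFSet.{u}) (F : M → M) (r a : M) : Prop := (∃ m : M, (∃ e : M, (∃ s : M, (∃ e1 : M, (m.1 ∈ omZ ∧ e.1 = ZFSet.pair m.1 (natZ 0) ∧ ZFSet.pair r.1 e.1 ∈ E ∧ (fun x y => F x = y) a s ∧ e1.1 = ZFSet.pair r.1 m.1 ∧ e1.1 ∈ s.1)))))

theorem SM_dfn {F : M → M} (hF : hM.Dfn (fun v : Fin 2 → M => F (v 0) = v 1)) {E : ZFSet.{u}} (hE : E ∈ M) :
    hM.Dfn (fun v : Fin 2 → M => SM E F (v 0) (v 1)) := by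
  exact (Dfn.ex (P := fun v m => (∃ e : M, (∃ s : M, (∃ e1 : M, (m.1 ∈ omZ ∧ e.1 = ZFSet.pair m.1 (natZ 0) ∧ ZFSet.pair (v 0).1 e.1 ∈ E ∧ (fun x y => F x = y) (v 1) s ∧ e1.1 = ZFSet.pair (v 0).1 m.1 ∧ e1.1 ∈ s.1)))))
  (Dfn.ex (P := fun v e => (∃ s : M, (∃ e1 : M, ((v 2).1 ∈ omZ ∧ e.1 = ZFSet.pair (v 2).1 (natZ 0) ∧ ZFSet.pair (v 0).1 e.1 ∈ E ∧ (fun x y => F x = y) (v 1) s ∧ e1.1 = ZFSet.pair (v 0).1 (v 2).1 ∧ e1.1 ∈ s.1))))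
  (Dfn.ex (P := fun v s => (∃ e1 : M, ((v 2).1 ∈ omZ ∧ (v 3).1 = ZFSet.pair (v 2).1 (natZ 0) ∧ ZFSet.pair (v 0).1 (v 3).1 ∈ E ∧ (fun x y => F x = y) (v 1) s ∧ e1.1 = ZFSet.pair (v 0).1 (v 2).1 ∧ e1.1 ∈ s.1)))
  (Dfn.ex (P := fun v e1 => ((v 2).1 ∈ omZ ∧ (v 3).1 = ZFSet.pair (v 2).1 (natZ 0) ∧ ZFSet.pair (v 0).1 (v 3).1 ∈ E ∧ (fun x y => F x = y) (v 1) (v 4) ∧ e1.1 = ZFSet.pair (v 0).1 (v 2).1 ∧ e1.1 ∈ (v 4).1))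
  (Dfn.and (Dfn.mem (DT.var _) (DT.const ⟨omZ, hM.omZ_mem⟩))
  (Dfn.and (Dfn.isPair (DT.var _) (DT.var _) (DT.const ⟨natZ 0, hM.natZ_mem_N 0⟩))
  (Dfn.and (Dfn.pairMem (DT.var _) (DT.var _) (DT.const ⟨E, hE⟩))
  (Dfn.and (Dfn.subst2 (P := (fun x y => F x = y)) hF (DT.var _) (DT.var _))
  (Dfn.and (Dfn.isPair (DT.var _) (DT.var _) (DT.var _))
  (Dfn.mem (DT.var _) (DT.var _)))))))))))

include hM in
/-- Compactness for the generic value of `0`: if every condition below `r0` forces only elements of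
`d` into the value, then there is a subset `y` of `d` in the model such that every finite piece of
`y` is forced by some condition below `r0`. -/
theorem exists_approx {P R : ZFSet.{u}} (h : PR M c P R) {FE : Q → ℕ → ℕ → Prop}
    (hFE : ∀ r r' m n, r' ≤ r → FE r m n → FE r' m n) {q : Q}
    {E : ZFSet.{u}} (hE : E ∈ M) (hE' : ∀ z, z ∈ E ↔ ∃ r ≤ q, ∃ m n, FE r m n ∧
      z = ZFSet.pair (c r) (ZFSet.pair (natZ m) (natZ n))) (r0 : Q) (hr0 : r0 ≤ q) {d : ZFSet.{u}}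
    (hd : d ∈ M) :
    ∃ y ∈ M, y ⊆ d ∧ ∀ T : Set ZFSet.{u}, T.Finite → (∀ a ∈ T, a ∈ d) →
      ∃ r ≤ r0, ∀ a ∈ T, (a ∈ y → SA FE a r) ∧ (a ∉ y → ∀ r' ≤ r, ¬ SA FE a r') := by
  obtain ⟨F, hF, hF'⟩ := hM.exists_VZ h hE hE'
  have hmE : ∀ r m n, ZFSet.pair (c r) (ZFSet.pair (natZ m) (natZ n)) ∈ E ↔ r ≤ q ∧ FE r m n := by
    intro r m n
    rw [hE']
    constructor
    · rintro ⟨r', hr', m', n', h1, h2⟩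
      rw [ZFSet.pair_inj, ZFSet.pair_inj, natZ_inj, natZ_inj] at h2
      obtain ⟨h2, rfl, rfl⟩ := h2
      have h2 := h.inj h2
      subst h2
      exact ⟨hr', h1⟩
    · rintro ⟨h1, h2⟩; exact ⟨r, h1, m, n, h2, rfl⟩
  have hmF : ∀ (y : M) r1 m, ZFSet.pair (c r1) (natZ m) ∈ (F y).1 ↔ r1 ≤ q ∧ VZ FE y.1 r1 m := by
    intro y r1 m
    rw [hF']
    constructor
    · rintro ⟨r', hr', n', h1, h2⟩
      rw [ZFSet.pair_inj, natZ_inj] at h1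
      obtain ⟨h1, rfl⟩ := h1
      have h1 := h.inj h1
      subst h1
      exact ⟨hr', h2⟩
    · rintro ⟨h1, h2⟩; exact ⟨r1, h1, m, rfl, h2⟩
  have hSM : ∀ (r : Q) (a rr : M), rr.1 = c r → r ≤ q → (SM E F rr a ↔ SA FE a.1 r) := by
    intro r a rr hrr hr
    constructor
    · rintro ⟨m, e, s, e1, h1, h2, h3, h4, h5, h6⟩
      obtain ⟨m', hm'⟩ := mem_omZ.1 h1
      have h4 : F a = s := h4
      subst h4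
      rw [h2, hm', hrr, hmE] at h3
      rw [h5, hm', hrr, hmF] at h6
      exact ⟨m', h3.2, h6.2⟩
    · rintro ⟨m, h1, h2⟩
      refine ⟨⟨natZ m, hM.natZ_mem_N m⟩, ⟨_, hM.pair_mem (hM.natZ_mem_N m) (hM.natZ_mem_N 0)⟩, F a,
        ⟨_, hM.pair_mem (h.c_mem_N hM r) (hM.natZ_mem_N m)⟩, natZ_mem_omZ m, rfl, ?_, rfl, ?_, ?_⟩
      · rw [hrr]; exact (hmE _ _ _).2 ⟨hr, h1⟩
      · rw [hrr]
      · exact (hmF a r m).2 ⟨hr, h2⟩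
  have hSr : ∀ (r' : M) (r : Q) (rr : M), rr.1 = c r → r ≤ q → ZFSet.pair r'.1 rr.1 ∈ R → ∀ a : M,
      SM E F r' a → ∃ s ≤ r, r'.1 = c s ∧ SA FE a.1 s := by
    intro r' r rr hrr hr h1 a h2
    obtain ⟨s, s', h3, h4, h5⟩ := h.of_pair_mem h1
    have h6 := h.inj (hrr.symm.trans h5)
    subst h6
    exact ⟨s, h3, h4, (hSM s a r' h4 (h3.trans hr)).1 h2⟩
  have hdd : hM.Dfn (fun v : Fin 1 → M => (∃ r : M, (∃ a : M, (∃ i : M, (∃ e : M, ((v 0).1 = ZFSet.pair r.1 e.1 ∧ e.1 = ZFSet.pair a.1 i.1 ∧ ZFSet.pair r.1 (c r0) ∈ R ∧ ((((i.1 = (natZ 1) ∧ (SM E F) r a)) ∨ ((i.1 = (natZ 0) ∧ ((∀ r' : M, (ZFSet.pair r'.1 r.1 ∈ R → ¬ ((SM E F) r' a)))))))))))))) := by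
    exact (Dfn.ex (P := fun v r => (∃ a : M, (∃ i : M, (∃ e : M, ((v 0).1 = ZFSet.pair r.1 e.1 ∧ e.1 = ZFSet.pair a.1 i.1 ∧ ZFSet.pair r.1 (c r0) ∈ R ∧ ((((i.1 = (natZ 1) ∧ (SM E F) r a)) ∨ ((i.1 = (natZ 0) ∧ ((∀ r' : M, (ZFSet.pair r'.1 r.1 ∈ R → ¬ ((SM E F) r' a)))))))))))))
  (Dfn.ex (P := fun v a => (∃ i : M, (∃ e : M, ((v 0).1 = ZFSet.pair (v 1).1 e.1 ∧ e.1 = ZFSet.pair a.1 i.1 ∧ ZFSet.pair (v 1).1 (c r0) ∈ R ∧ ((((i.1 = (natZ 1) ∧ (SM E F) (v 1) a)) ∨ ((i.1 = (natZ 0) ∧ ((∀ r' : M, (ZFSet.pair r'.1 (v 1).1 ∈ R → ¬ ((SM E F) r' a))))))))))))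
  (Dfn.ex (P := fun v i => (∃ e : M, ((v 0).1 = ZFSet.pair (v 1).1 e.1 ∧ e.1 = ZFSet.pair (v 2).1 i.1 ∧ ZFSet.pair (v 1).1 (c r0) ∈ R ∧ ((((i.1 = (natZ 1) ∧ (SM E F) (v 1) (v 2))) ∨ ((i.1 = (natZ 0) ∧ ((∀ r' : M, (ZFSet.pair r'.1 (v 1).1 ∈ R → ¬ ((SM E F) r' (v 2))))))))))))
  (Dfn.ex (P := fun v e => ((v 0).1 = ZFSet.pair (v 1).1 e.1 ∧ e.1 = ZFSet.pair (v 2).1 (v 3).1 ∧ ZFSet.pair (v 1).1 (c r0) ∈ R ∧ (((((v 3).1 = (natZ 1) ∧ (SM E F) (v 1) (v 2))) ∨ (((v 3).1 = (natZ 0) ∧ ((∀ r' : M, (ZFSet.pair r'.1 (v 1).1 ∈ R → ¬ ((SM E F) r' (v 2)))))))))))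
  (Dfn.and (Dfn.isPair (DT.var _) (DT.var _) (DT.var _))
  (Dfn.and (Dfn.isPair (DT.var _) (DT.var _) (DT.var _))
  (Dfn.and (Dfn.pairMem (DT.var _) (DT.const ⟨c r0, h.c_mem_N hM r0⟩) (DT.const ⟨R, h.hR⟩))
  (Dfn.or (Dfn.and (Dfn.eqv (DT.var _) (DT.const ⟨natZ 1, hM.natZ_mem_N 1⟩))
  (Dfn.subst2 (P := (SM E F)) (SM_dfn hM hF hE) (DT.var _) (DT.var _)))
  (Dfn.and (Dfn.eqv (DT.var _) (DT.const ⟨natZ 0, hM.natZ_mem_N 0⟩))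
  (Dfn.all (P := fun v r' => (ZFSet.pair r'.1 (v 1).1 ∈ R → ¬ ((SM E F) r' (v 2))))
  (Dfn.imp (Dfn.pairMem (DT.var _) (DT.var _) (DT.const ⟨R, h.hR⟩))
  (Dfn.not (Dfn.subst2 (P := (SM E F)) (SM_dfn hM hF hE) (DT.var _) (DT.var _))))))))))))))
  obtain ⟨Δ, hΔ, hΔ'⟩ := hM.exists_sep (P := fun z => (∃ r : M, (∃ a : M, (∃ i : M, (∃ e : M, (z.1 = ZFSet.pair r.1 e.1 ∧ e.1 = ZFSet.pair a.1 i.1 ∧ ZFSet.pair r.1 (c r0) ∈ R ∧ ((((i.1 = (natZ 1) ∧ (SM E F) r a)) ∨ ((i.1 = (natZ 0) ∧ ((∀ r' : M, (ZFSet.pair r'.1 r.1 ∈ R → ¬ ((SM E F) r' a)))))))))))))) hdd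
    (hM.prod_mem h.hP (hM.prod_mem hd (hM.natZ_mem_N 2)))
  have g1 : ∀ (r : Q) (a : ZFSet.{u}), a ∈ d → (ZFSet.pair (c r) (ZFSet.pair a (natZ 1)) ∈ Δ ↔
      r ≤ r0 ∧ SA FE a r) := by
    intro r a ha
    rw [hΔ']
    constructor
    · rintro ⟨_, hz, r1, a1, i, e, h1, h2, h3, h4⟩
      have h1 : ZFSet.pair (c r) (ZFSet.pair a (natZ 1)) = ZFSet.pair r1.1 e.1 := h1
      rw [h2, ZFSet.pair_inj, ZFSet.pair_inj] at h1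
      obtain ⟨h1, h5, h6⟩ := h1
      have h7 : r ≤ r0 := h.le_iff.1 (by rw [h1]; exact h3)
      rcases h4 with ⟨_, h4⟩ | ⟨h4, _⟩
      · refine ⟨h7, ?_⟩
        rw [h5]
        exact (hSM r a1 r1 h1.symm (h7.trans hr0)).1 h4
      · rw [← h6, natZ_inj] at h4; omega
    · rintro ⟨h1, h2⟩
      have haM := hM.mem_of_mem hd ha
      refine ⟨ZFSet.pair_mem_prod.2 ⟨h.c_mem_P r, ZFSet.pair_mem_prod.2 ⟨ha, natZ_mem.2 (by omega)⟩⟩,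
        hM.pair_mem (h.c_mem_N hM r) (hM.pair_mem haM (hM.natZ_mem_N 1)), ⟨c r, h.c_mem_N hM r⟩,
        ⟨a, haM⟩, ⟨natZ 1, hM.natZ_mem_N 1⟩, ⟨_, hM.pair_mem haM (hM.natZ_mem_N 1)⟩, rfl, rfl,
        h.le_iff.2 h1, Or.inl ⟨rfl, (hSM r ⟨a, haM⟩ _ rfl (h1.trans hr0)).2 h2⟩⟩
  have g0 : ∀ (r : Q) (a : ZFSet.{u}), a ∈ d → (ZFSet.pair (c r) (ZFSet.pair a (natZ 0)) ∈ Δ ↔
      r ≤ r0 ∧ ∀ r' ≤ r, ¬ SA FE a r') := by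
    intro r a ha
    have haM := hM.mem_of_mem hd ha
    rw [hΔ']
    constructor
    · rintro ⟨_, hz, r1, a1, i, e, h1, h2, h3, h4⟩
      have h1 : ZFSet.pair (c r) (ZFSet.pair a (natZ 0)) = ZFSet.pair r1.1 e.1 := h1
      rw [h2, ZFSet.pair_inj, ZFSet.pair_inj] at h1
      obtain ⟨h1, h5, h6⟩ := h1
      have h7 : r ≤ r0 := h.le_iff.1 (by rw [h1]; exact h3)
      rcases h4 with ⟨h4, _⟩ | ⟨_, h4⟩
      · rw [← h6, natZ_inj] at h4; omega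
      · refine ⟨h7, fun r' hr' h8 => ?_⟩
        rw [h5] at h8
        exact h4 ⟨c r', h.c_mem_N hM r'⟩ (by rw [← h1]; exact h.le_iff.2 hr')
          ((hSM r' a1 _ rfl ((hr'.trans h7).trans hr0)).2 h8)
    · rintro ⟨h1, h2⟩
      refine ⟨ZFSet.pair_mem_prod.2 ⟨h.c_mem_P r, ZFSet.pair_mem_prod.2 ⟨ha, natZ_mem.2 (by omega)⟩⟩,
        hM.pair_mem (h.c_mem_N hM r) (hM.pair_mem haM (hM.natZ_mem_N 0)), ⟨c r, h.c_mem_N hM r⟩,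
        ⟨a, haM⟩, ⟨natZ 0, hM.natZ_mem_N 0⟩, ⟨_, hM.pair_mem haM (hM.natZ_mem_N 0)⟩, rfl, rfl,
        h.le_iff.2 h1, Or.inr ⟨rfl, fun r' hr' h3 => ?_⟩⟩
      obtain ⟨s, hs, _, h4⟩ := hSr r' r ⟨c r, h.c_mem_N hM r⟩ rfl (h1.trans hr0) hr' _ h3
      exact h2 s hs h4
  have hΔd : ∀ z r, ZFSet.pair r z ∈ Δ → ∃ a ∈ d, z = ZFSet.pair a (natZ 0) ∨ z = ZFSet.pair a (natZ 1) := by
    intro z r hz
    obtain ⟨h1, _⟩ := (hΔ' _).1 hz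
    rw [ZFSet.pair_mem_prod] at h1
    obtain ⟨_, h1⟩ := h1
    obtain ⟨a, ha, i, hi, rfl⟩ := ZFSet.mem_prod.1 h1
    obtain ⟨k, hk, rfl⟩ := mem_natZ.1 hi
    refine ⟨a, ha, ?_⟩
    interval_cases k
    · exact Or.inl rfl
    · exact Or.inr rfl
  have hmono : ∀ r r' : Q, r' ≤ r → ∀ z, ZFSet.pair (c r) z ∈ Δ → ZFSet.pair (c r') z ∈ Δ := by
    intro r r' hr z hz
    obtain ⟨a, ha, rfl | rfl⟩ := hΔd _ _ hz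
    · rw [g0 _ _ ha] at hz ⊢
      exact ⟨hr.trans hz.1, fun r'' hr'' => hz.2 r'' (hr''.trans hr)⟩
    · rw [g1 _ _ ha] at hz ⊢
      exact ⟨hr.trans hz.1, hz.2.mono hFE hr⟩
  obtain ⟨P0, hP0, hP0'⟩ := hM.exists_sep (P := fun r => ZFSet.pair r.1 (c r0) ∈ R)
    (Dfn.pairMem (DT.var _) (DT.const ⟨c r0, h.c_mem_N hM r0⟩) (DT.const ⟨R, h.hR⟩)) h.hP
  have hP1 : ∀ ρ, ρ ∈ P0 ↔ ∃ r ≤ r0, ρ = c r := by
    intro ρ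
    rw [hP0']
    constructor
    · rintro ⟨_, _, h1⟩
      obtain ⟨s, s', h3, h4, h5⟩ := h.of_pair_mem h1
      have h6 := h.inj h5
      subst h6
      exact ⟨s, h3, h4⟩
    · rintro ⟨r, hr, rfl⟩
      exact ⟨h.c_mem_P r, h.c_mem_N hM r, h.le_iff.2 hr⟩
  obtain ⟨y, hy, hyd, hy'⟩ := hM.exists_total hP0 hd hΔ ⟨c r0, (hP1 _).2 ⟨r0, le_rfl, rfl⟩⟩ (by
    intro T hT ρ hρ hTρ a ha
    obtain ⟨r, hr, rfl⟩ := (hP1 _).1 hρ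
    by_cases hc : ∃ r' ≤ r, SA FE a r'
    · obtain ⟨r', hr', h1⟩ := hc
      exact ⟨c r', (hP1 _).2 ⟨r', hr'.trans hr, rfl⟩, fun z hz => hmono r r' hr' z (hTρ z hz),
        Or.inr ((g1 _ _ ha).2 ⟨hr'.trans hr, h1⟩)⟩
    · push Not at hc
      exact ⟨c r, hρ, hTρ, Or.inl ((g0 _ _ ha).2 ⟨hr, hc⟩)⟩)
  refine ⟨y, hy, hyd, fun T hT hTd => ?_⟩
  obtain ⟨ρ, hρ, h1⟩ := hy' T hT hTd
  obtain ⟨r, hr, rfl⟩ := (hP1 _).1 hρ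
  exact ⟨r, hr, fun a ha => ⟨fun hay => ((g1 _ _ (hTd a ha)).1 ((h1 a ha).1 hay)).2,
    fun hay => ((g0 _ _ (hTd a ha)).1 ((h1 a ha).2 hay)).2⟩⟩

end CTM

end Pool.Agent.H17.Omega
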