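import Pool.Agent.H17.Omega.LSd

/-!
# The normal form of a `Π₂` sentence is equivalent to the sentence
-/

set_option autoImplicit false
set_option linter.unusedVariables false
set_option linter.unusedSectionVars false
set_option linter.unusedSimpArgs false
set_option linter.deprecated false

universe u v w

namespace Pool.Agent.H17.Omega

theorem rank_pair_lt {a b : ZFSet.{u}} {o : Ordinal.{u}} (ho : ∀ γ < o, Order.succ γ < o)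
    (ha : a.rank < o) (hb : b.rank < o) : (ZFSet.pair a b).rank < o := by
  rw [ZFSet.pair]
  simp only [ZFSet.rank_insert, ZFSet.rank_singleton, max_lt_iff]
  exact ⟨ho _ (ho _ ha), ho _ (max_lt (ho _ ha) (ho _ hb))⟩

namespace CTM

variable {N : Set ZFSet.{u}} (hN : CTM N)

include hN in
/-- Suitable sets exist: `z = v ∪ {u}` for a level `v` of the hierarchy with its power set `u`. -/
theorem exists_suit {x : ZFSet.{u}} (hx : x ∈ N) : ∃ z ∈ N, ∃ u ∈ z, x ∈ z ∧ x ≠ u ∧ Suit z u ∧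
    ∀ w ∈ N, (∀ a ∈ w, a ∈ z ∧ a ≠ u) → w ∈ u := by
  classical
  let P1 : N → N → Prop := fun z w => (∃ s : N, (∃ s' : N, (w.1 = ZFSet.pair s.1 s'.1 ∧ z.1 ∈ s.1 ∧ s.1.IsTransitive ∧ s.1 ∈ s'.1 ∧ s'.1.IsTransitive ∧ ((∀ a ∈ s'.1, (∀ b ∈ s'.1, (∃ p ∈ s'.1, p = ZFSet.pair a b)))))))
  have hP1 : hN.Dfn (fun v : Fin 2 → N => P1 (v 0) (v 1)) := by
    exact (Dfn.ex (P := fun v s => (∃ s' : N, ((v 1).1 = ZFSet.pair s.1 s'.1 ∧ (v 0).1 ∈ s.1 ∧ s.1.IsTransitive ∧ s.1 ∈ s'.1 ∧ s'.1.IsTransitive ∧ ((∀ a ∈ s'.1, (∀ b ∈ s'.1, (∃ p ∈ s'.1, p = ZFSet.pair a b)))))))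
  (Dfn.ex (P := fun v s' => ((v 1).1 = ZFSet.pair (v 2).1 s'.1 ∧ (v 0).1 ∈ (v 2).1 ∧ (v 2).1.IsTransitive ∧ (v 2).1 ∈ s'.1 ∧ s'.1.IsTransitive ∧ ((∀ a ∈ s'.1, (∀ b ∈ s'.1, (∃ p ∈ s'.1, p = ZFSet.pair a b))))))
  (Dfn.and (Dfn.isPair (DT.var _) (DT.var _) (DT.var _))
  (Dfn.and (Dfn.mem (DT.var _) (DT.var _))
  (Dfn.and (Dfn.isTrans (DT.var _))
  (Dfn.and (Dfn.mem (DT.var _) (DT.var _))
  (Dfn.and (Dfn.isTrans (DT.var _))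
  (Dfn.ballZ (s := fun v => v 3) (p := fun v a => (∀ b ∈ (v 3).1, (∃ p ∈ (v 3).1, p = ZFSet.pair a b))) (DT.var _)
  (Dfn.ballZ (s := fun v => v 3) (p := fun v b => (∃ p ∈ (v 3).1, p = ZFSet.pair (v 4).1 b)) (DT.var _)
  (Dfn.bexZ (s := fun v => v 3) (p := fun v p => p = ZFSet.pair (v 4).1 (v 5).1) (DT.var _)
  (Dfn.isPair (DT.var _) (DT.var _) (DT.var _))))))))))))
  let P2 : N → N → Prop := fun z f => (∀ D : N, (∀ E : N, (z.1 = ZFSet.pair D.1 E.1 → ((∀ c : N, (c.1 ⊆ D.1 → ((∃ e ∈ c.1, e = e) → (∃ m ∈ c.1, (∀ y ∈ c.1, ¬ (ZFSet.pair y m ∈ E.1)))))) → (((∀ y ∈ D.1, (∃ a : N, ZFSet.pair y a.1 ∈ f.1))) ∧ ((∀ y ∈ D.1, (∀ a : N, (ZFSet.pair y a.1 ∈ f.1 → (((∀ b ∈ a.1, (∃ y' ∈ D.1, (ZFSet.pair y' y ∈ E.1 ∧ ZFSet.pair y' b ∈ f.1)))) ∧ ((∀ y' ∈ D.1, (ZFSet.pair y' y ∈ E.1 → (∀ b : N, (ZFSet.pair y' b.1 ∈ f.1 → b.1 ∈ a.1)))))))))))))))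
  have hP2 : hN.Dfn (fun v : Fin 2 → N => P2 (v 0) (v 1)) := by
    exact (Dfn.all (P := fun v D => (∀ E : N, ((v 0).1 = ZFSet.pair D.1 E.1 → ((∀ c : N, (c.1 ⊆ D.1 → ((∃ e ∈ c.1, e = e) → (∃ m ∈ c.1, (∀ y ∈ c.1, ¬ (ZFSet.pair y m ∈ E.1)))))) → (((∀ y ∈ D.1, (∃ a : N, ZFSet.pair y a.1 ∈ (v 1).1))) ∧ ((∀ y ∈ D.1, (∀ a : N, (ZFSet.pair y a.1 ∈ (v 1).1 → (((∀ b ∈ a.1, (∃ y' ∈ D.1, (ZFSet.pair y' y ∈ E.1 ∧ ZFSet.pair y' b ∈ (v 1).1)))) ∧ ((∀ y' ∈ D.1, (ZFSet.pair y' y ∈ E.1 → (∀ b : N, (ZFSet.pair y' b.1 ∈ (v 1).1 → b.1 ∈ a.1)))))))))))))))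
  (Dfn.all (P := fun v E => ((v 0).1 = ZFSet.pair (v 2).1 E.1 → ((∀ c : N, (c.1 ⊆ (v 2).1 → ((∃ e ∈ c.1, e = e) → (∃ m ∈ c.1, (∀ y ∈ c.1, ¬ (ZFSet.pair y m ∈ E.1)))))) → (((∀ y ∈ (v 2).1, (∃ a : N, ZFSet.pair y a.1 ∈ (v 1).1))) ∧ ((∀ y ∈ (v 2).1, (∀ a : N, (ZFSet.pair y a.1 ∈ (v 1).1 → (((∀ b ∈ a.1, (∃ y' ∈ (v 2).1, (ZFSet.pair y' y ∈ E.1 ∧ ZFSet.pair y' b ∈ (v 1).1)))) ∧ ((∀ y' ∈ (v 2).1, (ZFSet.pair y' y ∈ E.1 → (∀ b : N, (ZFSet.pair y' b.1 ∈ (v 1).1 → b.1 ∈ a.1))))))))))))))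
  (Dfn.imp (Dfn.isPair (DT.var _) (DT.var _) (DT.var _))
  (Dfn.imp (Dfn.all (P := fun v c => (c.1 ⊆ (v 2).1 → ((∃ e ∈ c.1, e = e) → (∃ m ∈ c.1, (∀ y ∈ c.1, ¬ (ZFSet.pair y m ∈ (v 3).1))))))
  (Dfn.imp (Dfn.subset (DT.var _) (DT.var _))
  (Dfn.imp (Dfn.bexZ (s := fun v => v 4) (p := fun v e => e = e) (DT.var _)
  (Dfn.eqv (DT.var _) (DT.var _)))
  (Dfn.bexZ (s := fun v => v 4) (p := fun v m => (∀ y ∈ (v 4).1, ¬ (ZFSet.pair y m ∈ (v 3).1))) (DT.var _)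
  (Dfn.ballZ (s := fun v => v 4) (p := fun v y => ¬ (ZFSet.pair y (v 5).1 ∈ (v 3).1)) (DT.var _)
  (Dfn.not (Dfn.pairMem (DT.var _) (DT.var _) (DT.var _))))))))
  (Dfn.and (Dfn.ballZ (s := fun v => v 2) (p := fun v y => (∃ a : N, ZFSet.pair y a.1 ∈ (v 1).1)) (DT.var _)
  (Dfn.ex (P := fun v a => ZFSet.pair (v 4).1 a.1 ∈ (v 1).1)
  (Dfn.pairMem (DT.var _) (DT.var _) (DT.var _))))
  (Dfn.ballZ (s := fun v => v 2) (p := fun v y => (∀ a : N, (ZFSet.pair y a.1 ∈ (v 1).1 → (((∀ b ∈ a.1, (∃ y' ∈ (v 2).1, (ZFSet.pair y' y ∈ (v 3).1 ∧ ZFSet.pair y' b ∈ (v 1).1)))) ∧ ((∀ y' ∈ (v 2).1, (ZFSet.pair y' y ∈ (v 3).1 → (∀ b : N, (ZFSet.pair y' b.1 ∈ (v 1).1 → b.1 ∈ a.1))))))))) (DT.var _)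
  (Dfn.all (P := fun v a => (ZFSet.pair (v 4).1 a.1 ∈ (v 1).1 → (((∀ b ∈ a.1, (∃ y' ∈ (v 2).1, (ZFSet.pair y' (v 4).1 ∈ (v 3).1 ∧ ZFSet.pair y' b ∈ (v 1).1)))) ∧ ((∀ y' ∈ (v 2).1, (ZFSet.pair y' (v 4).1 ∈ (v 3).1 → (∀ b : N, (ZFSet.pair y' b.1 ∈ (v 1).1 → b.1 ∈ a.1))))))))
  (Dfn.imp (Dfn.pairMem (DT.var _) (DT.var _) (DT.var _))
  (Dfn.and (Dfn.ballZ (s := fun v => v 5) (p := fun v b => (∃ y' ∈ (v 2).1, (ZFSet.pair y' (v 4).1 ∈ (v 3).1 ∧ ZFSet.pair y' b ∈ (v 1).1))) (DT.var _)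
  (Dfn.bexZ (s := fun v => v 2) (p := fun v y' => (ZFSet.pair y' (v 4).1 ∈ (v 3).1 ∧ ZFSet.pair y' (v 6).1 ∈ (v 1).1)) (DT.var _)
  (Dfn.and (Dfn.pairMem (DT.var _) (DT.var _) (DT.var _))
  (Dfn.pairMem (DT.var _) (DT.var _) (DT.var _)))))
  (Dfn.ballZ (s := fun v => v 2) (p := fun v y' => (ZFSet.pair y' (v 4).1 ∈ (v 3).1 → (∀ b : N, (ZFSet.pair y' b.1 ∈ (v 1).1 → b.1 ∈ (v 5).1)))) (DT.var _)
  (Dfn.imp (Dfn.pairMem (DT.var _) (DT.var _) (DT.var _))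
  (Dfn.all (P := fun v b => (ZFSet.pair (v 6).1 b.1 ∈ (v 1).1 → b.1 ∈ (v 5).1))
  (Dfn.imp (Dfn.pairMem (DT.var _) (DT.var _) (DT.var _))
  (Dfn.mem (DT.var _) (DT.var _)))))))))))))))
  let PP : N → N → Prop := fun z w => (∃ w1 : N, (∃ w2 : N, (w.1 = ZFSet.pair w1.1 w2.1 ∧ P1 z w1 ∧ P2 z w2)))
  have hPP : hN.Dfn (fun v : Fin 2 → N => PP (v 0) (v 1)) := by
    exact (Dfn.ex (P := fun v w1 => (∃ w2 : N, ((v 1).1 = ZFSet.pair w1.1 w2.1 ∧ P1 (v 0) w1 ∧ P2 (v 0) w2)))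
  (Dfn.ex (P := fun v w2 => ((v 1).1 = ZFSet.pair (v 2).1 w2.1 ∧ P1 (v 0) (v 2) ∧ P2 (v 0) w2))
  (Dfn.and (Dfn.isPair (DT.var _) (DT.var _) (DT.var _))
  (Dfn.and (Dfn.subst2 (P := P1) hP1 (DT.var _) (DT.var _))
  (Dfn.subst2 (P := P2) hP2 (DT.var _) (DT.var _))))))
  have ht1 : ∀ z, ∃ w, P1 z w := by
    intro z
    obtain ⟨t, ht, httr, hzt⟩ := hN.exists_transitive z.2
    obtain ⟨o, hoN, ho1, ho2, _⟩ := hN.exists_closed (Φ := fun a b => a = b)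
      (Dfn.eq (DT.var _) (DT.var _)) (fun z => ⟨z, rfl⟩) ⟨t, ht⟩
    obtain ⟨s', hs', hs''⟩ := hN.exists_level o hoN
    refine ⟨⟨ZFSet.pair t s', hN.pair_mem ht hs'⟩, ⟨t, ht⟩, ⟨s', hs'⟩, rfl, hzt, httr,
      (hs'' _).2 ⟨ht, ho1⟩, ?_, ?_⟩
    · intro a ha b hb
      obtain ⟨h1, h2⟩ := (hs'' a).1 ha
      exact (hs'' b).2 ⟨hN.mem_of_mem h1 hb, (ZFSet.rank_lt_of_mem hb).trans h2⟩
    · intro a ha b hb
      obtain ⟨h1, h2⟩ := (hs'' a).1 ha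
      obtain ⟨h3, h4⟩ := (hs'' b).1 hb
      exact ⟨_, (hs'' _).2 ⟨hN.pair_mem h1 h3, rank_pair_lt ho2 h2 h4⟩, rfl⟩
  have ht2 : ∀ z, ∃ w, P2 z w := by
    intro z
    by_cases hz : ∃ D E : N, z.1 = ZFSet.pair D.1 E.1 ∧ (∀ c : N, (c.1 ⊆ D.1 → ((∃ e ∈ c.1, e = e) → (∃ m ∈ c.1, (∀ y ∈ c.1, ¬ (ZFSet.pair y m ∈ E.1))))))
    · obtain ⟨D, E, hz1, hz2⟩ := hz
      obtain ⟨E', hE', hE''⟩ := hN.exists_sep (P := fun p => ∃ y x : N, p.1 = ZFSet.pair y.1 x.1 ∧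
          y.1 ∈ D.1 ∧ x.1 ∈ D.1)
        (Dfn.ex (P := fun v y => ∃ x : N, (v 0).1 = ZFSet.pair y.1 x.1 ∧ y.1 ∈ D.1 ∧ x.1 ∈ D.1)
        (Dfn.ex (P := fun v x => (v 0).1 = ZFSet.pair (v 1).1 x.1 ∧ (v 1).1 ∈ D.1 ∧ x.1 ∈ D.1)
        (Dfn.and (Dfn.isPair (DT.var _) (DT.var _) (DT.var _))
        (Dfn.and (Dfn.mem (DT.var _) (DT.const D)) (Dfn.mem (DT.var _) (DT.const D)))))) E.2
      have hEm : ∀ y x : ZFSet.{u}, ZFSet.pair y x ∈ E' ↔ ZFSet.pair y x ∈ E.1 ∧ y ∈ D.1 ∧ x ∈ D.1 := by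
        intro y x
        rw [hE'']
        constructor
        · rintro ⟨h1, h2, y', x', h3, h4, h5⟩
          have h3 : ZFSet.pair y x = ZFSet.pair y'.1 x'.1 := h3
          rw [ZFSet.pair_inj] at h3
          rw [h3.1, h3.2]
          rw [h3.1, h3.2] at h1
          exact ⟨h1, h4, h5⟩
        · rintro ⟨h1, h2, h3⟩
          exact ⟨h1, hN.mem_of_mem E.2 h1, ⟨y, hN.mem_of_mem D.2 h2⟩, ⟨x, hN.mem_of_mem D.2 h3⟩, rfl, h2, h3⟩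
      obtain ⟨F, hF, hF'⟩ := exists_collapse_of_min hN D.2 hE' (fun y x h => ((hEm y x).1 h).2) (by
        intro c hc hcD hc0
        obtain ⟨e, he⟩ : ∃ e, e ∈ c := by
          by_contra hc1
          push Not at hc1
          exact hc0 ((ZFSet.eq_empty c).2 hc1)
        obtain ⟨m, hm, h1⟩ := hz2 ⟨c, hc⟩ hcD ⟨e, he, rfl⟩
        exact ⟨m, hm, fun z1 hz1 h2 => h1 z1 hz1 ((hEm _ _).1 h2).1⟩)
      obtain ⟨b, hb, hb'⟩ := hN.exists_repl (F := fun y p : N => ∃ a : N, F y = a ∧ p.1 = ZFSet.pair y.1 a.1)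
        (Dfn.ex (P := fun v a => F (v 0) = a ∧ (v 1).1 = ZFSet.pair (v 0).1 a.1)
          (Dfn.and (Dfn.subst2 (P := fun a b => F a = b) hF (DT.var _) (DT.var _))
            (Dfn.isPair (DT.var _) (DT.var _) (DT.var _)))) D.2 (by
          rintro y _ p p' ⟨a, h1, h2⟩ ⟨a', h3, h4⟩
          apply Subtype.ext
          rw [h2, h4, ← h1, ← h3])
      have hbm : ∀ y a : ZFSet.{u}, ZFSet.pair y a ∈ b ↔ ∃ h : y ∈ D.1, (F ⟨y, hN.mem_of_mem D.2 h⟩).1 = a := by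
        intro y a
        constructor
        · intro h
          obtain ⟨y', h1, a', h2, h3⟩ := (hb' ⟨_, hN.mem_of_mem hb h⟩).1 h
          have h3 : ZFSet.pair y a = ZFSet.pair y'.1 a'.1 := h3
          rw [ZFSet.pair_inj] at h3
          obtain ⟨h4, h5⟩ := h3
          subst h4
          exact ⟨h1, by rw [h5, ← h2]⟩
        · rintro ⟨h, rfl⟩
          exact (hb' ⟨_, hN.pair_mem (hN.mem_of_mem D.2 h) (F ⟨y, hN.mem_of_mem D.2 h⟩).2⟩).2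
            ⟨⟨y, hN.mem_of_mem D.2 h⟩, h, _, rfl, rfl⟩
      refine ⟨⟨b, hb⟩, ?_⟩
      intro D' E' hz' hw'
      rw [hz', ZFSet.pair_inj] at hz1
      obtain ⟨h1, h2⟩ := hz1
      have h1 : D' = D := Subtype.ext h1
      have h2 : E' = E := Subtype.ext h2
      subst h1; subst h2
      refine ⟨fun y hy => ⟨F ⟨y, hN.mem_of_mem D'.2 hy⟩, (hbm _ _).2 ⟨hy, rfl⟩⟩, fun y hy a ha => ⟨?_, ?_⟩⟩
      · intro b1 hb1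
        obtain ⟨_, h3⟩ := (hbm y a.1).1 ha
        rw [← h3] at hb1
        obtain ⟨y', h4, h5⟩ := (hF' ⟨y, hN.mem_of_mem D'.2 hy⟩ ⟨b1, hN.mem_of_mem (F _).2 hb1⟩).1 hb1
        have h6 := (hEm _ _).1 h4
        refine ⟨y'.1, h6.2.1, h6.1, (hbm _ _).2 ⟨h6.2.1, ?_⟩⟩
        have h7 := congrArg Subtype.val h5
        exact h7
      · intro y' hy' hE1 b1 hb1
        obtain ⟨_, h3⟩ := (hbm y a.1).1 ha
        obtain ⟨_, h4⟩ := (hbm y' b1.1).1 hb1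
        rw [← h3]
        refine (hF' ⟨y, hN.mem_of_mem D'.2 hy⟩ b1).2 ⟨⟨y', hN.mem_of_mem D'.2 hy'⟩, (hEm _ _).2 ⟨hE1, hy', hy⟩, ?_⟩
        exact Subtype.ext h4
    · refine ⟨z, ?_⟩
      intro D E h1 h2
      exact (hz ⟨D, E, h1, h2⟩).elim
  obtain ⟨o, hoN, hxo, ho, hcl⟩ := hN.exists_closed (Φ := PP) hPP (fun z => by
    obtain ⟨w1, h1⟩ := ht1 z
    obtain ⟨w2, h2⟩ := ht2 z
    exact ⟨⟨ZFSet.pair w1.1 w2.1, hN.pair_mem w1.2 w2.2⟩, w1, w2, rfl, h1, h2⟩) ⟨x, hx⟩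
  obtain ⟨v, hv, hv'⟩ := hN.exists_level o hoN
  obtain ⟨u1, hu, hu'⟩ := hN.exists_pow hv
  have hvtr : ∀ a ∈ v, ∀ b ∈ a, b ∈ v := by
    intro a ha b hb
    obtain ⟨h1, h2⟩ := (hv' a).1 ha
    exact (hv' b).2 ⟨hN.mem_of_mem h1 hb, (ZFSet.rank_lt_of_mem hb).trans h2⟩
  have hvu : v ∈ u1 := (hu' v).2 ⟨hv, fun a ha => ha⟩
  have huv : u1 ∉ v := fun h => ZFSet.mem_irrefl v (hvtr u1 h v hvu)
  have hne : ∀ a ∈ v, a ≠ u1 := fun a ha h => huv (h ▸ ha)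
  have hz : ∀ a, a ∈ insert u1 v ↔ a = u1 ∨ a ∈ v := fun a => ZFSet.mem_insert_iff
  have hzv : ∀ a, (a ∈ insert u1 v ∧ a ≠ u1) ↔ a ∈ v := by
    intro a
    rw [hz]
    exact ⟨fun h => h.1.resolve_left h.2, fun h => ⟨Or.inr h, hne a h⟩⟩
  have hmk : ∀ a ∈ v, a ∈ insert u1 v := fun a ha => ((hzv a).2 ha).1
  refine ⟨insert u1 v, hN.insert_mem hu hv, u1, (hz _).2 (Or.inl rfl), hmk x ((hv' x).2 ⟨hx, hxo⟩),
    hne x ((hv' x).2 ⟨hx, hxo⟩), ?_, ?_⟩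
  · constructor
    · intro a ha hau
      have h1 := (hzv a).1 ⟨ha, hau⟩
      exact (hu' a).2 ⟨hN.mem_of_mem hv h1, fun b hb => hvtr a h1 b hb⟩
    · intro a ha hau b hb
      exact (hzv b).2 (hvtr a ((hzv a).1 ⟨ha, hau⟩) b hb)
    · intro b hb c hc
      exact (hzv c).2 (((hu' b).1 hb).2 hc)
    · intro a ha hau b hb hba
      have h1 := (hzv a).1 ⟨ha, hau⟩
      have h2 := (hu' b).1 hb
      refine (hzv b).2 ((hv' b).2 ⟨h2.1, lt_of_le_of_lt ?_ ((hv' a).1 h1).2⟩)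
      exact ZFSet.rank_mono hba
    · intro a ha hau
      have h1 := (hzv a).1 ⟨ha, hau⟩
      have haN := hN.mem_of_mem hv h1
      obtain ⟨w, hw, w1, w2, h2, ⟨s, s', h3, h4, h5, h6, h7, h8⟩, _⟩ := hcl ⟨a, haN⟩ ((hv' a).1 h1).2
      have r1 : w1.1.rank < o := lt_of_lt_of_le (rank_lt_pair w1.1 w2.1).1 (h2 ▸ hw.le)
      have r2 : s'.1.rank < o := lt_of_lt_of_le (rank_lt_pair s.1 s'.1).2 (h3 ▸ r1.le)
      have r3 : s.1.rank < o := (ZFSet.rank_lt_of_mem h6).trans r2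
      have v1 : s.1 ∈ v := (hv' _).2 ⟨s.2, r3⟩
      have v2 : s'.1 ∈ v := (hv' _).2 ⟨s'.2, r2⟩
      exact ⟨s.1, hmk _ v1, hne _ v1, s'.1, hmk _ v2, hne _ v2, s'.1, hmk _ v2, hne _ v2, h4, h5, h6, h7, h8, h8⟩
    · intro D hD hDu E hE hEu hwf
      have hDv := (hzv D).1 ⟨hD, hDu⟩
      have hEv := (hzv E).1 ⟨hE, hEu⟩
      have hDN := hN.mem_of_mem hv hDv
      have hEN := hN.mem_of_mem hv hEv
      obtain ⟨w, hw, w1, w2, h2, _, h3⟩ := hcl ⟨ZFSet.pair D E, hN.pair_mem hDN hEN⟩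
        (rank_pair_lt ho ((hv' D).1 hDv).2 ((hv' E).1 hEv).2)
      have r2 : w2.1.rank < o := lt_of_lt_of_le (rank_lt_pair w1.1 w2.1).2 (h2 ▸ hw.le)
      have v2 : w2.1 ∈ v := (hv' _).2 ⟨w2.2, r2⟩
      obtain ⟨h4, h5⟩ := h3 ⟨D, hDN⟩ ⟨E, hEN⟩ rfl (by
        intro c hcD hce
        have hcv : c.1 ∈ v := (hv' _).2 ⟨c.2, lt_of_le_of_lt (ZFSet.rank_mono hcD) ((hv' D).1 hDv).2⟩
        exact hwf c.1 (hmk _ hcv) (hne _ hcv) hcD hce)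
      have hpv : ∀ y a, ZFSet.pair y a ∈ w2.1 → a ∈ v := by
        intro y a h
        have h1 := hvtr _ v2 _ h
        have h2 : ({y, a} : ZFSet.{u}) ∈ v := hvtr _ h1 _ (by rw [ZFSet.pair, ZFSet.mem_pair]; exact Or.inr rfl)
        exact hvtr _ h2 _ (by simp)
      refine ⟨w2.1, hmk _ v2, hne _ v2, fun y hy => ?_, fun y hy a ha hau hya => ?_⟩
      · obtain ⟨a, ha⟩ := h4 y hy
        have h6 := hpv _ _ ha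
        exact ⟨a.1, hmk _ h6, hne _ h6, ha⟩
      · obtain ⟨h6, h7⟩ := h5 y hy ⟨a, hN.mem_of_mem hv (hpv _ _ hya)⟩ hya
        refine ⟨h6, fun y' hy' hE' b hb hbu hyb => ?_⟩
        exact h7 y' hy' hE' ⟨b, hN.mem_of_mem hv (hpv _ _ hyb)⟩ hyb
  · intro w hw hwz
    exact (hu' w).2 ⟨hw, fun a ha => (hzv a).1 (hwz a ha)⟩

include hN in
/-- The normal form is equivalent to the sentence in every countable transitive model. -/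
theorem nf_of_witness {ψ : Fml} (hψ : ψ.Delta0) (hfree : ∀ n, ψ.Free n → n = 0 ∨ n = 1)
    (h : ∀ x ∈ N, ∃ y ∈ N, Tr ψ x y) : ∀ z ∈ N, ∃ w ∈ N, NF ψ z w := by
  intro z hz
  by_cases hu : ∃ u ∈ z, Suit z u ∧ (∃ x ∈ z, ¬ (x = u) ∧ ∀ y ∈ z, ¬ (y = u) → ¬ Tr ψ x y)
  · obtain ⟨u, huz, hS, x, hxz, hxu, hbad⟩ := hu
    have hxN := hN.mem_of_mem hz hxz
    obtain ⟨y, hy, hxy⟩ := h x hxN
    have hw : ∃ w ∈ N, (∀ a ∈ w, a ∈ z ∧ a ≠ u) ∧ w ∉ u := by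
      by_contra hc
      push Not at hc
      obtain ⟨y', h1, h2, h3⟩ := hN.exists_small hψ hfree hz huz hS (fun w hw hw' => hc w hw hw')
        hxz hxu hy hxy
      exact hbad y' h1 h2 h3
    obtain ⟨w, hwN, hwz, hwu⟩ := hw
    refine ⟨w, hwN, fun a ha => (hwz a ha).1, ?_⟩
    intro u' hu'z hS' _ b hb
    have : u' = u := by
      by_contra hne
      exact ZFSet.mem_asymm (hS'.s0 u huz (fun h => hne h.symm)) (hS.s0 u' hu'z hne)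
    subst this
    by_contra hc
    push Not at hc
    apply hwu
    have : w = b := by
      ext c
      constructor
      · intro hcw
        exact (hc c (hwz c hcw).1 (hwz c hcw).2).1 hcw
      · intro hcb
        have h1 := hS'.s2 b hb c hcb
        exact (hc c h1.1 h1.2).2 hcb
    rw [this]; exact hb
  · refine ⟨z, hz, fun a ha => ha, fun u huz hS hbad => (hu ⟨u, huz, hS, hbad⟩).elim⟩

include hN in
theorem witness_of_nf {ψ : Fml} (h : ∀ z ∈ N, ∃ w ∈ N, NF ψ z w) :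
    ∀ x ∈ N, ∃ y ∈ N, Tr ψ x y := by
  intro x hx
  by_contra hc
  push Not at hc
  obtain ⟨z, hz, u, hu, hxz, hxu, hS, hP⟩ := hN.exists_suit hx
  obtain ⟨w, hw, hwz, hNF⟩ := h z hz
  obtain ⟨b, hb, hb'⟩ := hN.exists_sep (P := fun c => ¬ c.1 = u)
    (Dfn.not (Dfn.eqv (DT.var _) (DT.const ⟨u, hN.mem_of_mem hz hu⟩))) hw
  have hb1 : ∀ c, c ∈ b ↔ c ∈ w ∧ c ≠ u := by
    intro c
    rw [hb']
    exact ⟨fun ⟨h1, _, h2⟩ => ⟨h1, h2⟩, fun ⟨h1, h2⟩ => ⟨h1, hN.mem_of_mem hw h1, h2⟩⟩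
  obtain ⟨c, hcz, hcu, h1⟩ := hNF u hu hS ⟨x, hxz, hxu, fun y hy _ => hc y (hN.mem_of_mem hz hy)⟩ b
    (hP b hb fun a ha => ⟨hwz ((hb1 a).1 ha).1, ((hb1 a).1 ha).2⟩)
  exact h1 ⟨fun h2 => (hb1 c).2 ⟨h2, hcu⟩, fun h2 => ((hb1 c).1 h2).1⟩

end CTM

end Pool.Agent.H17.Omega
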