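import Pool.Agent.H17.Omega.KL

/-!
# Category in the square of the Baire space: perfect sets of inequivalent elements
-/

set_option autoImplicit false
set_option linter.unusedVariables false
set_option linter.unusedSectionVars false
set_option linter.unusedSimpArgs false
set_option linter.deprecated false

universe u v w

namespace Pool.Agent.H17.Omega

/-- Basic open subsets of the square. -/
theorem exists_box {O : Set ((ℕ → ℕ) × (ℕ → ℕ))} (hO : IsOpen O) {g h : ℕ → ℕ}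
    (hgh : (g, h) ∈ O) (l l' : List ℕ) (hg : g ∈ cyl l) (hh : h ∈ cyl l') :
    ∃ l1 l1', l <+: l1 ∧ l' <+: l1' ∧ g ∈ cyl l1 ∧ h ∈ cyl l1' ∧ cyl l1 ×ˢ cyl l1' ⊆ O := by
  obtain ⟨u, v, hu, hv, hgu, hhv, hsub⟩ := isOpen_prod_iff.1 hO g h hgh
  obtain ⟨n, hn⟩ := exists_cyl_subset hu hgu
  obtain ⟨m, hm⟩ := exists_cyl_subset hv hhv
  refine ⟨sg g (max n l.length), sg h (max m l'.length), pre_sg hg (le_max_right _ _),
    pre_sg hh (le_max_right _ _), mem_cyl_sg _ _, mem_cyl_sg _ _, ?_⟩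
  rintro ⟨g', h'⟩ ⟨h1, h2⟩
  exact hsub ⟨hn g' ((mem_cyl_sg_iff.1 h1).mono (le_max_left _ _)),
    hm h' ((mem_cyl_sg_iff.1 h2).mono (le_max_left _ _))⟩

/-- Shrinking boxes away from a nowhere dense set. -/
theorem exists_box_disjoint {N : Set ((ℕ → ℕ) × (ℕ → ℕ))} (hN : IsNowhereDense N) (l l' : List ℕ) :
    ∃ l1 l1', l <+: l1 ∧ l' <+: l1' ∧ Disjoint (cyl l1 ×ˢ cyl l1') N := by
  obtain ⟨V', h1, h2, ⟨⟨g, h⟩, hgh⟩, h4⟩ := exists_disjoint_of_nd hN
    ((isOpen_cyl l).prod (isOpen_cyl l')) ((cyl_nonempty l).prod (cyl_nonempty l'))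
  obtain ⟨l1, l1', h5, h6, _, _, h7⟩ := exists_box h2 hgh l l' (h1 hgh).1 (h1 hgh).2
  exact ⟨l1, l1', h5, h6, h4.mono_left h7⟩

theorem exists_cover_of_meagre {X : Type u} [TopologicalSpace X] {S : Set X} (h : IsMeagre S) :
    ∃ C : ℕ → Set X, (∀ n, IsNowhereDense (C n)) ∧ S ⊆ ⋃ n, C n := by
  obtain ⟨F, hF, hc, hsub⟩ := isMeagre_iff_countable_union_isNowhereDense.1 h
  rcases F.eq_empty_or_nonempty with rfl | hne
  · exact ⟨fun _ => ∅, fun _ => isNowhereDense_empty, by simpa using hsub⟩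
  · obtain ⟨C, rfl⟩ := hc.exists_eq_range hne
    exact ⟨C, fun n => hF _ ⟨n, rfl⟩, by rwa [Set.sUnion_range] at hsub⟩

/-- The easy half of the Kuratowski-Ulam theorem. -/
theorem meagre_section {N : Set ((ℕ → ℕ) × (ℕ → ℕ))} (hN : IsMeagre N) :
    IsMeagre {h | ¬ IsMeagre {g | (g, h) ∈ N}} := by
  obtain ⟨C, hC, hsub⟩ := exists_cover_of_meagre hN
  have hd : ∀ (n : ℕ) (l l' : List ℕ), DenseBelow l'
      {l2 | ∃ l1, l <+: l1 ∧ Disjoint (cyl l1 ×ˢ cyl l2) (C n)} := by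
    intro n l l' l3 _
    obtain ⟨l1, l1', h1, h2, h3⟩ := exists_box_disjoint (hC n) l l3
    exact ⟨l1', h2, l1, h1, h3⟩
  have hm : IsMeagre (⋃ n, ⋃ l, {h | h ∈ cyl [] ∧
      ¬ ∃ k, sg h k ∈ {l2 | ∃ l1, l <+: l1 ∧ Disjoint (cyl l1 ×ˢ cyl l2) (C n)}}) :=
    isMeagre_iUnion fun n => isMeagre_iUnion fun l => meagre_of_dense (hd n l [])
  refine IsMeagre.mono ?_ hm
  intro h hh
  by_contra hc
  apply hh
  have h1 : ∀ n, IsNowhereDense {g | (g, h) ∈ C n} := by
    intro n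
    apply isNowhereDense_of
    intro V hV hVn
    obtain ⟨g, hg⟩ := hVn
    obtain ⟨k, hk⟩ := exists_cyl_subset hV hg
    have h2 : ∃ k', sg h k' ∈ {l2 | ∃ l1, sg g k <+: l1 ∧ Disjoint (cyl l1 ×ˢ cyl l2) (C n)} := by
      by_contra hn
      exact hc (Set.mem_iUnion.2 ⟨n, Set.mem_iUnion.2 ⟨sg g k, rfl, hn⟩⟩)
    obtain ⟨k', l1, h3, h4⟩ := h2
    refine ⟨cyl l1, fun g' hg' => hk g' (mem_cyl_sg_iff.1 (cyl_mono h3 hg')), isOpen_cyl _,
      cyl_nonempty _, ?_⟩
    rw [Set.disjoint_left] at h4 ⊢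
    intro g' hg' hg''
    exact h4 ⟨hg', mem_cyl_sg h k'⟩ hg''
  refine IsMeagre.mono ?_ (isMeagre_iUnion fun n => (h1 n).isMeagre)
  intro g hg
  obtain ⟨n, hn⟩ := Set.mem_iUnion.1 (hsub hg)
  exact Set.mem_iUnion.2 ⟨n, hn⟩

/-! ### Mycielski's theorem -/

section Mycielski

/-- Simultaneous shrinking for finitely many pairs. -/
theorem shrink_pairs {α : Type} {N : Set ((ℕ → ℕ) × (ℕ → ℕ))} (hN : IsNowhereDense N)
    (S : Finset (α × α)) (hS : ∀ p ∈ S, p.1 ≠ p.2) (l : α → List ℕ) :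
    ∃ l' : α → List ℕ, (∀ a, l a <+: l' a) ∧
      ∀ p ∈ S, Disjoint (cyl (l' p.1) ×ˢ cyl (l' p.2)) N := by
  classical
  induction S using Finset.induction_on with
  | empty => exact ⟨l, fun a => ⟨[], by simp⟩, by simp⟩
  | insert p S _ ih =>
    obtain ⟨l', h1, h2⟩ := ih (fun p' hp' => hS p' (Finset.mem_insert_of_mem hp'))
    have hne : p.1 ≠ p.2 := hS p (Finset.mem_insert_self _ _)
    obtain ⟨l1, l2, h3, h4, h5⟩ := exists_box_disjoint hN (l' p.1) (l' p.2)
    let l'' : α → List ℕ := fun a => if a = p.1 then l1 else if a = p.2 then l2 else l' a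
    have hle : ∀ a, l' a <+: l'' a := by
      intro a
      by_cases ha : a = p.1
      · subst ha; simpa [l''] using h3
      · by_cases ha' : a = p.2
        · subst ha'; simpa [l'', ha] using h4
        · simp [l'', ha, ha']
    refine ⟨l'', fun a => (h1 a).trans (hle a), ?_⟩
    intro p' hp'
    rcases Finset.mem_insert.1 hp' with rfl | hp'
    · have e1 : l'' p'.1 = l1 := by simp [l'']
      have e2 : l'' p'.2 = l2 := by simp [l'', hne.symm]
      rw [e1, e2]; exact h5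
    · exact (h2 p' hp').mono_left (Set.prod_mono (cyl_mono (hle _)) (cyl_mono (hle _)))

/-- One step of the construction. -/
theorem perfect_step {N : Set ((ℕ → ℕ) × (ℕ → ℕ))} (hN : IsNowhereDense N) {O : Set (ℕ → ℕ)}
    (hO : IsOpen O) (hOd : Dense O) (n : ℕ) (l : (Fin n → Bool) → List ℕ) :
    ∃ l' : (Fin (n + 1) → Bool) → List ℕ,
      (∀ s, l (fun i => s i.castSucc) <+: l' s ∧ n < (l' s).length ∧ cyl (l' s) ⊆ O) ∧
      ∀ s t, s ≠ t → Disjoint (cyl (l' s) ×ˢ cyl (l' t)) N := by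
  classical
  have h1 : ∀ s : Fin (n + 1) → Bool, ∃ l1 : List ℕ, l (fun i => s i.castSucc) <+: l1 ∧
      n < l1.length ∧ cyl l1 ⊆ O := by
    intro s
    obtain ⟨g, hg, hg'⟩ := hOd.inter_open_nonempty _ (isOpen_cyl (l (fun i => s i.castSucc)))
      (cyl_nonempty _)
    obtain ⟨k, hk⟩ := exists_cyl_subset hO hg'
    refine ⟨sg g (k + n + 1 + (l (fun i => s i.castSucc)).length), pre_sg hg (by omega),
      by simp; omega, fun h hh => hk h ((mem_cyl_sg_iff.1 hh).mono (by omega))⟩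
  choose l1 h2 h3 h4 using h1
  obtain ⟨l', h5, h6⟩ := shrink_pairs hN
    ((Finset.univ : Finset ((Fin (n + 1) → Bool) × (Fin (n + 1) → Bool))).filter
      (fun p => p.1 ≠ p.2)) (by intro p hp; exact (Finset.mem_filter.1 hp).2) l1
  refine ⟨l', fun s => ⟨(h2 s).trans (h5 s), (h3 s).trans_le (h5 s).length_le,
    (cyl_mono (h5 s)).trans (h4 s)⟩, fun s t hst => h6 (s, t) ?_⟩
  exact Finset.mem_filter.2 ⟨Finset.mem_univ _, hst⟩

/-- Mycielski's theorem for binary relations on the Baire space. -/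
theorem mycielski {R : Set ((ℕ → ℕ) × (ℕ → ℕ))} (hR : IsMeagre R) {S : Set (ℕ → ℕ)}
    (hS : IsMeagre S) (l0 : List ℕ) :
    ∃ F : (ℕ → Bool) → (ℕ → ℕ), Continuous F ∧ (∀ a, F a ∈ cyl l0 ∧ F a ∉ S) ∧
      ∀ a b, a ≠ b → (F a, F b) ∉ R := by
  classical
  obtain ⟨C, hC, hsub⟩ := exists_cover_of_meagre hR
  obtain ⟨O, hO1, hO2, hO3⟩ := exists_dense_open hS
  -- finite unions of the nowhere dense sets
  have hC' : ∀ n, IsNowhereDense (⋃ m ∈ Finset.range (n + 1), C m) := by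
    intro n
    apply isNowhereDense_of
    intro V hV hVn
    have : ∀ k, ∃ V' ⊆ V, IsOpen V' ∧ V'.Nonempty ∧ Disjoint V' (⋃ m ∈ Finset.range k, C m) := by
      intro k
      induction k with
      | zero => exact ⟨V, subset_rfl, hV, hVn, by simp⟩
      | succ k ih =>
        obtain ⟨V', h1, h2, h3, h4⟩ := ih
        obtain ⟨V'', h5, h6, h7, h8⟩ := exists_disjoint_of_nd (hC k) h2 h3
        refine ⟨V'', h5.trans h1, h6, h7, ?_⟩
        rw [Set.disjoint_left]
        intro x hx hx'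
        obtain ⟨m, hm, hxm⟩ := Set.mem_iUnion₂.1 hx'
        rcases Nat.lt_succ_iff_lt_or_eq.1 (Finset.mem_range.1 hm) with hm | rfl
        · exact Set.disjoint_left.1 h4 (h5 hx) (Set.mem_iUnion₂.2 ⟨m, Finset.mem_range.2 hm, hxm⟩)
        · exact Set.disjoint_left.1 h8 hx hxm
    exact this (n + 1)
  have hstep := fun n => perfect_step (hC' n) (hO1 n) (hO2 n) n
  choose L hL1 hL2 using hstep
  let lv : (n : ℕ) → (Fin n → Bool) → List ℕ := fun n => Nat.rec (fun _ => l0) (fun n l => L n l) n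
  have hlv : ∀ n, lv (n + 1) = L n (lv n) := fun n => rfl
  let res : (ℕ → Bool) → (n : ℕ) → (Fin n → Bool) := fun a n i => a i.1
  have hpre1 : ∀ a n, lv n (res a n) <+: lv (n + 1) (res a (n + 1)) := by
    intro a n
    rw [hlv]
    exact (hL1 n (lv n) (res a (n + 1))).1
  have hpre : ∀ a n m, n ≤ m → lv n (res a n) <+: lv m (res a m) := by
    intro a n m h
    induction m, h using Nat.le_induction with
    | base => exact ⟨[], by simp⟩
    | succ m hm ih => exact ih.trans (hpre1 a m)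
  have hlen : ∀ a n, n < (lv (n + 1) (res a (n + 1))).length := by
    intro a n
    rw [hlv]
    exact (hL1 n (lv n) _).2.1
  let F : (ℕ → Bool) → ℕ → ℕ := fun a i => (lv (i + 1) (res a (i + 1))).getD i 0
  have hF : ∀ a n, F a ∈ cyl (lv n (res a n)) := by
    intro a n
    rw [mem_cyl]
    apply List.ext_getElem (by simp)
    intro i h1 h2
    have h3 : (sg (F a) (lv n (res a n)).length)[i] = F a i := by simp [sg]
    rw [h3]
    show (lv (i + 1) (res a (i + 1))).getD i 0 = _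
    have h4 := hlen a i
    rw [List.getD_eq_getElem _ _ h4]
    rcases le_total n (i + 1) with h5 | h5
    · obtain ⟨s, hs⟩ := hpre a n (i + 1) h5
      have : (lv (i + 1) (res a (i + 1)))[i] = (lv n (res a n) ++ s)[i]'(by rw [hs]; exact h4) := by
        simp only [hs]
      rw [this, List.getElem_append_left h2]
    · obtain ⟨s, hs⟩ := hpre a (i + 1) n h5
      have : (lv n (res a n))[i] = (lv (i + 1) (res a (i + 1)) ++ s)[i]'(by rw [hs]; exact h2) := by
        simp only [hs]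
      rw [this, List.getElem_append_left h4]
  refine ⟨F, ?_, fun a => ⟨hF a 0, ?_⟩, ?_⟩
  · refine continuous_pi fun i => ?_
    have h1 : (fun a => F a i) = (fun s : Fin (i + 1) → Bool => (lv (i + 1) s).getD i 0) ∘
        (fun a : ℕ → Bool => res a (i + 1)) := rfl
    rw [h1]
    refine continuous_of_discreteTopology.comp ?_
    exact continuous_pi fun j => continuous_apply j.1
  · apply hO3
    intro n
    have h1 := hF a (n + 1)
    have h2 := (hL1 n (lv n) (res a (n + 1))).2.2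
    rw [hlv] at h1
    exact h2 h1
  · intro a b hab hR'
    obtain ⟨i, hi⟩ := Function.ne_iff.1 hab
    obtain ⟨n, hn⟩ := Set.mem_iUnion.1 (hsub hR')
    let k := max i n
    have hne : res a (k + 1) ≠ res b (k + 1) := by
      intro h
      have h1 := congrFun h ⟨i, by have := le_max_left i n; omega⟩
      exact hi h1
    have h1 := hL2 k (lv k) _ _ hne
    rw [← hlv] at h1
    exact Set.disjoint_left.1 h1 ⟨hF a (k + 1), hF b (k + 1)⟩
      (Set.mem_iUnion₂.2 ⟨n, Finset.mem_range.2 (by have := le_max_right i n; omega), hn⟩)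

end Mycielski

end Pool.Agent.H17.Omega
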