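import Pool.Agent.H17.Omega.Perf
import Pool.Agent.H17.Omega.MTau

/-!
# Generic structures with different values
-/

set_option autoImplicit false
set_option linter.unusedVariables false
set_option linter.unusedSectionVars false
set_option linter.unusedSimpArgs false
set_option linter.deprecated false

universe u v w

namespace Pool.Agent.H17.Omega

instance : Countable Qs.{u} := inferInstanceAs (Countable (ULift.{u} (List ℕ)))

/-- Limits of increasing sequences of finite sequences. -/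
theorem exists_limit {l : ℕ → List ℕ} (h1 : ∀ n, l n <+: l (n + 1)) (h2 : ∀ n, n ≤ (l n).length) :
    ∃ g, ∀ n, g ∈ cyl (l n) := by
  have hpre : ∀ n m, n ≤ m → l n <+: l m := by
    intro n m h
    induction m, h using Nat.le_induction with
    | base => exact ⟨[], by simp⟩
    | succ m hm ih => exact ih.trans (h1 m)
  refine ⟨fun i => (l (i + 1)).getD i 0, fun n => ?_⟩
  rw [mem_cyl]
  apply List.ext_getElem (by simp)
  intro i h3 h4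
  have h5 : (sg (fun i => (l (i + 1)).getD i 0) (l n).length)[i] = (l (i + 1)).getD i 0 := by
    simp [sg]
  rw [h5]
  have h6 : i < (l (i + 1)).length := h2 (i + 1)
  rw [List.getD_eq_getElem _ _ h6]
  rcases le_total n (i + 1) with h | h
  · obtain ⟨s, hs⟩ := hpre n (i + 1) h
    have : (l (i + 1))[i] = (l n ++ s)[i]'(by rw [hs]; exact h6) := by simp only [hs]
    rw [this, List.getElem_append_left h4]
  · obtain ⟨s, hs⟩ := hpre (i + 1) n h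
    have : (l n)[i] = (l (i + 1) ++ s)[i]'(by rw [hs]; exact h4) := by simp only [hs]
    rw [this, List.getElem_append_left h6]

section Rank

variable (FE : Qs.{u} → ℕ → ℕ → Prop)

/-- `r` forces that the rank of `n` is at most `β`. -/
def RV (β : Ordinal.{u}) : Qs.{u} → ℕ → Prop := fun r n =>
  ∀ m, ∀ r' ≤ r, FE r' m n → ∃ r'' ≤ r', ∃ γ : {γ : Ordinal.{u} // γ < β}, RV γ.1 r'' m
termination_by β
decreasing_by exact γ.2

variable {FE}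

theorem rv_iff {β : Ordinal.{u}} {r : Qs.{u}} {n : ℕ} : RV FE β r n ↔
    ∀ m, ∀ r' ≤ r, FE r' m n → ∃ r'' ≤ r', ∃ γ < β, RV FE γ r'' m := by
  rw [RV]; simp

theorem RV.mono {β : Ordinal.{u}} {r r' : Qs.{u}} {n : ℕ} (h : r' ≤ r) (hr : RV FE β r n) :
    RV FE β r' n := by
  rw [rv_iff] at hr ⊢
  exact fun m r'' hr'' => hr m r'' (hr''.trans h)

variable (FE) in
/-- No extension bounds the rank. -/
def Bad (r : Qs.{u}) (n : ℕ) : Prop := ∀ r' ≤ r, ∀ β, ¬ RV FE β r' n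

theorem Bad.mono {r r' : Qs.{u}} {n : ℕ} (h : r' ≤ r) (hr : Bad FE r n) : Bad FE r' n :=
  fun r'' hr'' => hr r'' (hr''.trans h)

theorem Bad.step (hmono : ∀ r r' m n, r' ≤ r → FE r m n → FE r' m n) {r : Qs.{u}} {n : ℕ}
    (h : Bad FE r n) {O : Set (ℕ → ℕ)} (hO : IsOpen O) (hOd : Dense O) (k : ℕ) :
    ∃ r' ≤ r, k ≤ r'.toL.length ∧ cyl r'.toL ⊆ O ∧ ∃ m, FE r' m n ∧ Bad FE r' m := by
  classical
  have h0 : ∀ p : Qs.{u} × ℕ, ∃ ξ : Ordinal.{u}, (∃ β, RV FE β p.1 p.2) → RV FE ξ p.1 p.2 := by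
    intro p
    by_cases hp : ∃ β, RV FE β p.1 p.2
    · obtain ⟨β, hβ⟩ := hp
      exact ⟨β, fun _ => hβ⟩
    · exact ⟨0, fun h => (hp h).elim⟩
  choose Ξ hΞ using h0
  let B : Ordinal.{u} := Order.succ (⨆ p : Qs.{u} × ℕ, Ξ p)
  have hB : ∀ p, Ξ p < B := fun p => Order.lt_succ_of_le (Ordinal.le_iSup Ξ p)
  have h1 := h r le_rfl B
  rw [rv_iff] at h1
  push Not at h1
  obtain ⟨m, r1, hr1, h2, h3⟩ := h1
  have hbad : Bad FE r1 m := fun r2 hr2 β hβ => h3 r2 hr2 _ (hB (r2, m)) (hΞ (r2, m) ⟨β, hβ⟩)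
  obtain ⟨g, hg, hg'⟩ := hOd.inter_open_nonempty _ (isOpen_cyl r1.toL) (cyl_nonempty _)
  obtain ⟨N, hN⟩ := exists_cyl_subset hO hg'
  have hle : Qs.mk (sg g (N + k + r1.toL.length)) ≤ r1 := pre_sg hg (by omega)
  refine ⟨Qs.mk (sg g (N + k + r1.toL.length)), hle.trans hr1, by simp; omega,
    fun h hh => hN h ((mem_cyl_sg_iff.1 hh).mono (by omega)), m, hmono _ _ _ _ hle h2, hbad.mono hle⟩

/-- The ranks are bounded densely often. -/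
theorem exists_RV (hmono : ∀ r r' m n, r' ≤ r → FE r m n → FE r' m n)
    {ε : (ℕ → ℕ) → ℕ → ℕ → Prop} {S : Set (ℕ → ℕ)} (hS : IsMeagre S)
    (hε : ∀ g, g ∉ S → (∀ m n, ε g m n ↔ ∃ k, FE (Qs.mk (sg g k)) m n) ∧ WellFounded (ε g))
    (r : Qs.{u}) (n : ℕ) : ∃ r' ≤ r, ∃ β, RV FE β r' n := by
  by_contra hc
  push Not at hc
  have hbad : Bad FE r n := hc
  obtain ⟨O, hO1, hO2, hO3⟩ := exists_dense_open hS
  have hstep : ∀ (k : ℕ) (p : {p : Qs.{u} × ℕ // Bad FE p.1 p.2}),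
      ∃ p' : {p : Qs.{u} × ℕ // Bad FE p.1 p.2}, p'.1.1 ≤ p.1.1 ∧ k + 1 ≤ p'.1.1.toL.length ∧
        cyl p'.1.1.toL ⊆ O k ∧ FE p'.1.1 p'.1.2 p.1.2 := by
    intro k p
    obtain ⟨r', h1, h2, h3, m, h4, h5⟩ := p.2.step hmono (hO1 k) (hO2 k) (k + 1)
    exact ⟨⟨(r', m), h5⟩, h1, h2, h3, h4⟩
  choose F hF1 hF2 hF3 hF4 using hstep
  let st : ℕ → {p : Qs.{u} × ℕ // Bad FE p.1 p.2} := fun k =>
    Nat.rec ⟨(r, n), hbad⟩ (fun k p => F k p) k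
  have hst : ∀ k, st (k + 1) = F k (st k) := fun k => rfl
  obtain ⟨g, hg⟩ := exists_limit (l := fun k => (st k).1.1.toL)
    (fun k => by
      show (st k).1.1.toL <+: (st (k + 1)).1.1.toL
      rw [hst]; exact hF1 k (st k))
    (fun k => by
      cases k with
      | zero => exact Nat.zero_le _
      | succ k =>
        show k + 1 ≤ (st (k + 1)).1.1.toL.length
        rw [hst]; exact hF2 k (st k))
  have hgO : ∀ k, g ∈ O k := by
    intro k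
    have h1 := hg (k + 1)
    have h2 := hF3 k (st k)
    exact h2 h1
  obtain ⟨h1, h2⟩ := hε g (hO3 g hgO)
  refine (wellFounded_iff_isEmpty_descending_chain.1 h2).false ⟨fun k => (st k).1.2, fun k => ?_⟩
  rw [h1]
  refine ⟨(st (k + 1)).1.1.toL.length, ?_⟩
  have h3 := hg (k + 1)
  rw [mem_cyl] at h3
  rw [h3]
  exact hF4 k (st k)

variable (FE) in
/-- The minimal bounds. -/
def BB : Set Ordinal.{u} := {β | ∃ r n, RV FE β r n ∧ ∀ β' < β, ¬ RV FE β' r n}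

theorem countable_BB : (BB FE).Countable := by
  classical
  have : BB FE ⊆ Set.range (fun p : Qs.{u} × ℕ =>
      if h : ∃ β, RV FE β p.1 p.2 then (wellFounded_lt (α := Ordinal.{u})).min {β | RV FE β p.1 p.2} h
      else 0) := by
    rintro β ⟨r, n, h1, h2⟩
    have hne : ∃ β, RV FE β r n := ⟨β, h1⟩
    refine ⟨(r, n), ?_⟩
    simp only [dif_pos hne]
    apply le_antisymm
    · exact not_lt.1 ((wellFounded_lt (α := Ordinal.{u})).not_lt_min {β | RV FE β r n} (x := β) h1)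
    · by_contra hc
      exact h2 _ (not_le.1 hc) ((wellFounded_lt (α := Ordinal.{u})).min_mem {β | RV FE β r n} hne)
  exact (Set.countable_range _).mono this

theorem exists_mem_BB {β : Ordinal.{u}} {r : Qs.{u}} {n : ℕ} (h : RV FE β r n) :
    ∃ β' ≤ β, β' ∈ BB FE ∧ RV FE β' r n := by
  obtain ⟨β', h1, h2⟩ := (wellFounded_lt (α := Ordinal.{u})).has_min {β | RV FE β r n} ⟨β, h⟩
  refine ⟨β', not_lt.1 (h2 β h), ⟨r, n, h1, fun γ hγ hγ' => h2 γ hγ' hγ⟩, h1⟩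

/-- Almost all `g` have rank functions with values in a fixed countable set. -/
theorem meagre_no_rank (hmono : ∀ r r' m n, r' ≤ r → FE r m n → FE r' m n)
    {ε : (ℕ → ℕ) → ℕ → ℕ → Prop} {S : Set (ℕ → ℕ)} (hS : IsMeagre S)
    (hε : ∀ g, g ∉ S → (∀ m n, ε g m n ↔ ∃ k, FE (Qs.mk (sg g k)) m n) ∧ WellFounded (ε g)) :
    IsMeagre {g | ¬ ∃ ρ : ℕ → Ordinal.{u}, (∀ n, ρ n ∈ BB FE) ∧ ∀ m n, ε g m n → ρ m < ρ n} := by
  classical
  have hd1 : ∀ n, DenseBelow [] {l | ∃ β, RV FE β (Qs.mk l) n} := by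
    intro n l _
    obtain ⟨r', h1, β, h2⟩ := exists_RV hmono hS hε (Qs.mk l) n
    exact ⟨r'.toL, h1, β, h2⟩
  have hd2 : ∀ m (β : Ordinal.{u}), DenseBelow [] {l | (∃ γ < β, RV FE γ (Qs.mk l) m) ∨
      ∀ r ≤ Qs.mk l, ¬ ∃ γ < β, RV FE γ r m} := by
    intro m β l _
    by_cases h : ∃ r ≤ Qs.mk.{u} l, ∃ γ < β, RV FE γ r m
    · obtain ⟨r, hr, h1⟩ := h
      exact ⟨r.toL, hr, Or.inl h1⟩
    · push Not at h
      exact ⟨l, ⟨[], by simp⟩, Or.inr fun r hr ⟨γ, h1, h2⟩ => h r hr γ h1 h2⟩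
  have := (countable_BB (FE := FE)).to_subtype
  refine IsMeagre.mono ?_ (hS.union ((isMeagre_iUnion fun n => meagre_of_dense (hd1 n)).union
    (isMeagre_iUnion fun m => isMeagre_iUnion fun β : BB FE => meagre_of_dense (hd2 m β.1))))
  intro g hg
  by_contra hc
  rw [Set.mem_union, Set.mem_union, not_or, not_or] at hc
  obtain ⟨c1, c2, c3⟩ := hc
  have h1 : ∀ n, ∃ k, ∃ β, RV FE β (Qs.mk (sg g k)) n := by
    intro n
    by_contra hn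
    exact c2 (Set.mem_iUnion.2 ⟨n, rfl, hn⟩)
  have h2 : ∀ m, ∀ β ∈ BB FE, ∃ k, (∃ γ < β, RV FE γ (Qs.mk (sg g k)) m) ∨
      ∀ r ≤ Qs.mk (sg g k), ¬ ∃ γ < β, RV FE γ r m := by
    intro m β hβ
    by_contra hn
    exact c3 (Set.mem_iUnion.2 ⟨m, Set.mem_iUnion.2 ⟨⟨β, hβ⟩, rfl, hn⟩⟩)
  have h3 : ∀ n, ∃ β, (∃ k, RV FE β (Qs.mk (sg g k)) n) ∧
      ∀ γ, (∃ k, RV FE γ (Qs.mk (sg g k)) n) → β ≤ γ := by
    intro n
    obtain ⟨k, β, hβ⟩ := h1 n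
    obtain ⟨β', h4, h5⟩ := (wellFounded_lt (α := Ordinal.{u})).has_min
      {β | ∃ k, RV FE β (Qs.mk (sg g k)) n} ⟨β, k, hβ⟩
    exact ⟨β', h4, fun γ hγ => not_lt.1 (h5 γ hγ)⟩
  choose ρ hρ1 hρ2 using h3
  have hρB : ∀ n, ρ n ∈ BB FE := by
    intro n
    obtain ⟨k, hk⟩ := hρ1 n
    exact ⟨_, _, hk, fun β' hβ' h => absurd (hρ2 n β' ⟨k, h⟩) (not_le.2 hβ')⟩
  refine hg ⟨ρ, hρB, fun m n hmn => ?_⟩
  obtain ⟨k, hk⟩ := hρ1 n
  obtain ⟨k1, hk1⟩ := ((hε g c1).1 m n).1 hmn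
  obtain ⟨k2, hk2⟩ := h2 m (ρ n) (hρB n)
  rcases hk2 with ⟨γ, h4, h5⟩ | hk2
  · exact (hρ2 m γ ⟨k2, h5⟩).trans_lt h4
  · exfalso
    rw [rv_iff] at hk
    have l0 : Qs.mk (sg g (max k (max k1 k2))) ≤ Qs.mk.{u} (sg g k) := sg_pre g (by omega)
    have l1 : Qs.mk (sg g (max k (max k1 k2))) ≤ Qs.mk.{u} (sg g k1) := sg_pre g (by omega)
    have l2 : Qs.mk (sg g (max k (max k1 k2))) ≤ Qs.mk.{u} (sg g k2) := sg_pre g (by omega)
    obtain ⟨r, hr, γ, h4, h5⟩ := hk m _ l0 (hmono _ _ _ _ l1 hk1)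
    exact hk2 r (hr.trans l2) ⟨γ, h4, h5⟩

end Rank

/-! ### Equality of values -/

section Eq

variable (ε : (ℕ → ℕ) → ℕ → ℕ → Prop) (B : Set Ordinal.{u})

/-- Approximations to the equality of values. -/
def RB (b : Ordinal.{u}) : ℕ → ℕ → Set ((ℕ → ℕ) × (ℕ → ℕ)) := fun n n' => {p |
  (∀ m, ε p.1 m n → ∃ m', ε p.2 m' n' ∧ ∃ b' : {b' : Ordinal.{u} // b' ∈ B ∧ b' < b},
    p ∈ RB b'.1 m m') ∧
  (∀ m', ε p.2 m' n' → ∃ m, ε p.1 m n ∧ ∃ b' : {b' : Ordinal.{u} // b' ∈ B ∧ b' < b},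
    p ∈ RB b'.1 m m')}
termination_by b
decreasing_by all_goals exact b'.2.2

variable {ε B}

theorem mem_RB {b : Ordinal.{u}} {n n' : ℕ} {p : (ℕ → ℕ) × (ℕ → ℕ)} : p ∈ RB ε B b n n' ↔
    (∀ m, ε p.1 m n → ∃ m', ε p.2 m' n' ∧ ∃ b' : {b' : Ordinal.{u} // b' ∈ B ∧ b' < b},
      p ∈ RB ε B b'.1 m m') ∧
    (∀ m', ε p.2 m' n' → ∃ m, ε p.1 m n ∧ ∃ b' : {b' : Ordinal.{u} // b' ∈ B ∧ b' < b},
      p ∈ RB ε B b'.1 m m') := by
  rw [RB]; rfl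

theorem bp_RB (hB : B.Countable) (hbp : ∀ m n, BaireMeasurableSet {g | ε g m n}) (b : Ordinal.{u}) :
    ∀ n n', BaireMeasurableSet (RB ε B b n n') := by
  induction b using WellFoundedLT.induction with
  | ind b ih =>
    intro n n'
    have hB' : Countable {b' : Ordinal.{u} // b' ∈ B ∧ b' < b} :=
      (hB.mono (fun x hx => hx.1 : {b' | b' ∈ B ∧ b' < b} ⊆ B)).to_subtype
    have h1 : ∀ m n, BaireMeasurableSet {p : (ℕ → ℕ) × (ℕ → ℕ) | ε p.1 m n} := fun m n =>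
      (hbp m n).preimage continuous_fst isOpenMap_fst
    have h2 : ∀ m n, BaireMeasurableSet {p : (ℕ → ℕ) × (ℕ → ℕ) | ε p.2 m n} := fun m n =>
      (hbp m n).preimage continuous_snd isOpenMap_snd
    have h3 : ∀ m m', BaireMeasurableSet
        (⋃ b' : {b' : Ordinal.{u} // b' ∈ B ∧ b' < b}, RB ε B b'.1 m m') := fun m m' =>
      BaireMeasurableSet.iUnion fun b' => ih b'.1 b'.2.2 m m'
    have h4 : RB ε B b n n' =
        (⋂ m, ({p | ε p.1 m n}ᶜ ∪ ⋃ m', ({p | ε p.2 m' n'} ∩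
          ⋃ b' : {b' : Ordinal.{u} // b' ∈ B ∧ b' < b}, RB ε B b'.1 m m'))) ∩
        (⋂ m', ({p | ε p.2 m' n'}ᶜ ∪ ⋃ m, ({p | ε p.1 m n} ∩
          ⋃ b' : {b' : Ordinal.{u} // b' ∈ B ∧ b' < b}, RB ε B b'.1 m m'))) := by
      ext p
      rw [mem_RB]
      simp only [Set.mem_inter_iff, Set.mem_iInter, Set.mem_union, Set.mem_compl_iff,
        Set.mem_setOf_eq, Set.mem_iUnion, imp_iff_not_or]
    rw [h4]
    exact (BaireMeasurableSet.iInter fun m => (h1 m n).compl.union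
      (BaireMeasurableSet.iUnion fun m' => (h2 m' n').inter (h3 m m'))).inter
      (BaireMeasurableSet.iInter fun m' => (h2 m' n').compl.union
      (BaireMeasurableSet.iUnion fun m => (h1 m n).inter (h3 m m')))

theorem RB_sound {p : (ℕ → ℕ) × (ℕ → ℕ)} (b : Ordinal.{u}) : ∀ {n n' : ℕ} {z : ZFSet.{v}},
    p ∈ RB ε B b n n' → IsVal (ε p.1) z n → IsVal (ε p.2) z n' := by
  induction b using WellFoundedLT.induction with
  | ind b ih =>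
    intro n n' z h hz
    rw [mem_RB] at h
    rw [isVal_iff] at hz ⊢
    constructor
    · intro m' hm'
      obtain ⟨m, h1, b', h2⟩ := h.2 m' hm'
      obtain ⟨y, hy, hy'⟩ := hz.1 m h1
      exact ⟨y, hy, ih b'.1 b'.2.2 h2 hy'⟩
    · intro y hy
      obtain ⟨m, h1, h2⟩ := hz.2 y hy
      obtain ⟨m', h3, b', h4⟩ := h.1 m h1
      exact ⟨m', h3, ih b'.1 b'.2.2 h4 h2⟩

theorem RB_complete {p : (ℕ → ℕ) × (ℕ → ℕ)} {ρ : ℕ → Ordinal.{u}} (hρ : ∀ n, ρ n ∈ B)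
    (hρ' : ∀ m n, ε p.1 m n → ρ m < ρ n) (z : ZFSet.{v}) : ∀ {n n' : ℕ},
    IsVal (ε p.1) z n → IsVal (ε p.2) z n' → p ∈ RB ε B (ρ n) n n' := by
  induction z using ZFSet.inductionOn with
  | _ z ih =>
    intro n n' h h'
    rw [isVal_iff] at h h'
    rw [mem_RB]
    constructor
    · intro m hm
      obtain ⟨y, hy, hy'⟩ := h.1 m hm
      obtain ⟨m', hm', hy''⟩ := h'.2 y hy
      exact ⟨m', hm', ⟨ρ m, hρ m, hρ' m n hm⟩, ih y hy hy' hy''⟩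
    · intro m' hm'
      obtain ⟨y, hy, hy'⟩ := h'.1 m' hm'
      obtain ⟨m, hm, hy''⟩ := h.2 y hy
      exact ⟨m, hm, ⟨ρ m, hρ m, hρ' m n hm⟩, ih y hy hy'' hy'⟩

end Eq

/-- If no set is the value for nonmeager many `g`, then there is a perfect set of `g` with
different values. -/
theorem exists_perfect {FE : Qs.{u} → ℕ → ℕ → Prop}
    (hmono : ∀ r r' m n, r' ≤ r → FE r m n → FE r' m n)
    {ε : (ℕ → ℕ) → ℕ → ℕ → Prop} {S : Set (ℕ → ℕ)} (hS : IsMeagre S)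
    (hε : ∀ g, g ∉ S → (∀ m n, ε g m n ↔ ∃ k, FE (Qs.mk (sg g k)) m n) ∧ WellFounded (ε g))
    (hbp : ∀ m n, BaireMeasurableSet {g | ε g m n}) {l0 : List ℕ}
    (h0 : ∀ g, g ∈ cyl l0 → g ∉ S → ∃ y : ZFSet.{u}, IsVal (ε g) y 0)
    (h1 : ∀ y : ZFSet.{u}, IsMeagre (cyl l0 ∩ {g | IsVal (ε g) y 0})) :
    ∃ F : (ℕ → Bool) → (ℕ → ℕ), Continuous F ∧ (∀ a, F a ∈ cyl l0 ∧ F a ∉ S) ∧
      ∀ a b, a ≠ b → ¬ ∃ y : ZFSet.{u}, IsVal (ε (F a)) y 0 ∧ IsVal (ε (F b)) y 0 := by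
  classical
  set B : Set Ordinal.{u} := BB FE with hBdef
  have hB : B.Countable := countable_BB
  have hS2 := meagre_no_rank hmono hS hε
  set S' : Set (ℕ → ℕ) := S ∪ {g | ¬ ∃ ρ : ℕ → Ordinal.{u}, (∀ n, ρ n ∈ BB FE) ∧
    ∀ m n, ε g m n → ρ m < ρ n} with hS'
  have hS'm : IsMeagre S' := hS.union hS2
  set R0 : Set ((ℕ → ℕ) × (ℕ → ℕ)) := ⋃ b : B, RB ε B b.1 0 0 with hR0
  have hR0bp : BaireMeasurableSet R0 := by
    have := hB.to_subtype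
    exact BaireMeasurableSet.iUnion fun b => bp_RB hB hbp b.1 0 0
  obtain ⟨U, hU, hUe⟩ := hR0bp.residualEq_isOpen
  have hd : IsMeagre {p | ¬ (p ∈ R0 ↔ p ∈ U)} := by
    have h2 : {p | (p ∈ R0) = (p ∈ U)} ∈ residual ((ℕ → ℕ) × (ℕ → ℕ)) := hUe
    rw [IsMeagre]
    exact Filter.mem_of_superset h2 fun g hg hg' => hg' (iff_of_eq hg)
  have hempty : ∀ p ∈ U, p.1 ∈ cyl l0 → p.2 ∉ cyl l0 := by
    rintro ⟨g, h⟩ hp hg hh
    obtain ⟨l1, l1', h2, h3, h4, h5, h6⟩ := exists_box hU hp l0 l0 hg hh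
    have h7 := meagre_section hd
    have h8 : ∃ h' ∈ cyl l1', h' ∉ S ∪ {h | ¬ IsMeagre {g | (g, h) ∈ {p | ¬ (p ∈ R0 ↔ p ∈ U)}}} := by
      refine exists_mem_cyl (IsMeagre.mono Set.inter_subset_right (hS.union h7))
    obtain ⟨h', h9, h10⟩ := h8
    rw [Set.mem_union, not_or] at h10
    have h11 : IsMeagre {g | (g, h') ∈ {p | ¬ (p ∈ R0 ↔ p ∈ U)}} := not_not.1 h10.2
    obtain ⟨y, hy⟩ := h0 h' (cyl_mono h3 h9) h10.1
    apply not_meagre_cyl l1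
    refine IsMeagre.mono ?_ (((h1 y).union hS).union h11)
    intro g' hg'
    by_contra hc
    rw [Set.mem_union, Set.mem_union, not_or, not_or] at hc
    obtain ⟨⟨c1, c2⟩, c3⟩ := hc
    have c4 : (g', h') ∈ R0 ↔ (g', h') ∈ U := not_not.1 c3
    have c5 : (g', h') ∈ R0 := c4.2 (h6 ⟨hg', h9⟩)
    obtain ⟨b, hb⟩ := Set.mem_iUnion.1 c5
    obtain ⟨y', hy'⟩ := h0 g' (cyl_mono h2 hg') c2
    have c6 := RB_sound b.1 hb hy'
    have c7 : y' = y := c6.unique hy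
    exact c1 ⟨cyl_mono h2 hg', c7 ▸ hy'⟩
  have hR1 : IsMeagre (R0 ∩ (cyl l0 ×ˢ cyl l0)) := by
    refine IsMeagre.mono ?_ hd
    rintro p ⟨hp, hp'⟩ hiff
    exact hempty p (hiff.1 hp) hp'.1 hp'.2
  obtain ⟨F, hF1, hF2, hF3⟩ := mycielski hR1 hS'm l0
  refine ⟨F, hF1, fun a => ⟨(hF2 a).1, fun h => (hF2 a).2 (Or.inl h)⟩, ?_⟩
  rintro a b hab ⟨y, hya, hyb⟩
  apply hF3 a b hab
  refine ⟨?_, (hF2 a).1, (hF2 b).1⟩
  have h2 : ¬ (F a ∈ {g | ¬ ∃ ρ : ℕ → Ordinal.{u}, (∀ n, ρ n ∈ BB FE) ∧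
    ∀ m n, ε g m n → ρ m < ρ n}) := fun h => (hF2 a).2 (Or.inr h)
  obtain ⟨ρ, hρ1, hρ2⟩ := not_not.1 h2
  exact Set.mem_iUnion.2 ⟨⟨ρ 0, hρ1 0⟩, RB_complete (p := (F a, F b)) hρ1 hρ2 y hya hyb⟩

end Pool.Agent.H17.Omega
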