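import Pool.Agent.H17.Omega.TOne
import Pool.Agent.H17.Omega.PerfB

/-!
# The perfect set dichotomy for witnesses
-/

set_option autoImplicit false
set_option linter.unusedVariables false
set_option linter.unusedSectionVars false
set_option linter.unusedSimpArgs false
set_option linter.deprecated false

universe u v w

namespace Pool.Agent.H17.Omega

open Name CTM

section Main

variable {ψ : Fml} (hψ : ψ.Delta0) (hfree : ∀ n, ψ.Free n → n = 0 ∨ n = 1)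
  {Kr : (ℕ → ℕ) → (ℕ → ℕ) → Prop} (hK : KrClosed Kr)
  (hKP : ∀ c ε, Pr ψ c ε ↔ ∃ w, Kr c w ∧ ∀ n, (w n).unpair.1 = ε n)
  (hI : ManyInacc.{u}) (hφ : ValidStar.{u} (piTwo ψ))

include hψ hfree hK hKP hI hφ in
theorem wf_epsG {M : Set ZFSet.{u}} (C : Col M) (g : ℕ → ℕ) : WellFounded (Ec (epsG C Kr g)) := by
  have hb := (lmb_spec (exists_branch_real hψ hfree hK hKP hI hφ (C.cgv g))).1
  refine Subrelation.wf (r := InvImage (· < ·) (fun i => (lmb.{u} Kr (C.cgv g) (i + 1)).2)) ?_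
    (InvImage.wf _ wellFounded_lt)
  intro i j hij
  exact hb.lt hij

/-- The set of `g` that are not good enough. -/
def SG {M : Set ZFSet.{u}} (C : Col M) (A : Set (ℕ → ℕ)) : Set (ℕ → ℕ) :=
  {g | ¬ (C.Good A g ∧ ∀ m n, C.av m n g ∉ A →
    ∃ k, IsMeagre (cyl (sg g k) \ {g | C.av m n g ∉ A}))}

theorem meagre_SG {M : Set ZFSet.{u}} (C : Col M) {A : Set (ℕ → ℕ)} (hA : UB.{u} A) :
    IsMeagre (SG C A) := by
  have h2 : ∀ m n, IsMeagre {g | g ∈ {g | C.av m n g ∉ A} ∧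
      ¬ ∃ k, IsMeagre (cyl (sg g k) \ {g | C.av m n g ∉ A})} := fun m n =>
    meagre_undecided (hA.bp (C.cont_av m n)).compl
  refine IsMeagre.mono ?_ ((C.meagre_not_good hA).union (isMeagre_iUnion fun m =>
    isMeagre_iUnion (h2 m)))
  intro g hg
  by_contra hc
  rw [Set.mem_union, not_or] at hc
  refine hg ⟨not_not.1 hc.1, fun m n h => ?_⟩
  by_contra hn
  exact hc.2 (Set.mem_iUnion.2 ⟨m, Set.mem_iUnion.2 ⟨n, h, hn⟩⟩)

include hψ hfree hK hKP hI hφ in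
/-- The dichotomy: a set in a closed model has a witness in the model or perfectly many
witnesses. -/
theorem witness_or_perfect {M : Set ZFSet.{u}} (hM : CTM M)
    (hcl : AClosed (ASet.{u} Kr) M) {x : ZFSet.{u}} (hx : x ∈ M) :
    (∃ y ∈ M, Tr ψ x y) ∨ PerfectWitnesses ψ x := by
  classical
  rw [or_iff_not_imp_left]
  intro hne
  push Not at hne
  obtain ⟨C, n0, hx0⟩ := Col.exists_col hM hx
  obtain ⟨q, hq, σ, hσ, hA⟩ := hcl Qs C.c C.posetIn (Qs.mk [n0])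
  have hUB := ub_ASet hψ hfree hK hKP hI hφ
  have hg0 : ∀ g ∈ cyl q.toL, C.ι (g 0) = x := by
    intro g hg
    have h1 : g ∈ cyl [n0] := Qs.cyl_mono hq hg
    rw [mem_cyl] at h1
    have h2 : g 0 = n0 := by simpa [sg] using h1
    rw [h2, hx0]
  have hS := meagre_SG C hUB
  have hgood : ∀ g, g ∉ SG C (ASet.{u} Kr) → C.Good (ASet.{u} Kr) g ∧
      ∀ m n, C.av m n g ∉ ASet.{u} Kr →
        ∃ k, IsMeagre (cyl (sg g k) \ {g | C.av m n g ∉ ASet.{u} Kr}) := fun g hg => not_not.1 hg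
  have hwit : ∀ g, g ∈ cyl q.toL → g ∉ SG C (ASet.{u} Kr) →
      ∃ y : ZFSet.{u}, IsVal (Ec (epsG C Kr g)) y 0 ∧ Tr ψ x y := by
    intro g hg hgS
    obtain ⟨y, h1, h2⟩ := exists_generic_witness hψ hfree hK hKP hI hφ C (hgood g hgS).1.1
    rw [hg0 g hg] at h2
    exact ⟨y, h1, h2⟩
  have h1 : ∀ y : ZFSet.{u}, IsMeagre (cyl q.toL ∩ {g | IsVal (Ec (epsG C Kr g)) y 0}) := by
    intro y
    by_contra hn
    have h2 : ∃ g ∈ cyl q.toL, g ∉ SG C (ASet.{u} Kr) ∧ IsVal (Ec (epsG C Kr g)) y 0 := by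
      by_contra hc
      apply hn
      refine IsMeagre.mono ?_ hS
      rintro g ⟨hg, hgy⟩
      by_contra hgS
      exact hc ⟨g, hg, hgS, hgy⟩
    obtain ⟨g, hg, hgS, hgy⟩ := h2
    obtain ⟨y', hy', hxy⟩ := hwit g hg hgS
    have h3 : y' = y := hy'.unique hgy
    subst h3
    exact hne y' (mem_of_nonmeagre C hUB hσ hA (ε := fun g => Ec (epsG C Kr g))
      (fun g m n => ec_epsG C Kr g m n) (hc_of_isVal hgy) hn) hxy
  obtain ⟨G, hG1, hG2, hG3⟩ := exists_perfect (FE := C.FE (ASet.{u} Kr)) C.FE_mono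
    (ε := fun g => Ec (epsG C Kr g)) hS
    (fun g hg => ⟨fun m n => (ec_epsG C Kr g m n).trans ((hgood g hg).1.2 m n),
      wf_epsG hψ hfree hK hKP hI hφ C g⟩)
    (fun m n => hUB.bp (C.cont_av m n)) (l0 := q.toL)
    (fun g hg hgS => by obtain ⟨y, hy, _⟩ := hwit g hg hgS; exact ⟨y, hy⟩) h1
  choose Y hY1 hY2 using fun a => hwit (G a) (hG2 a).1 (hG2 a).2
  let F : (ℕ → Bool) → (ℕ → ℕ) := fun a k =>
    if Ec (epsG C Kr (G a)) k.unpair.1 k.unpair.2 then 1 else 0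
  have hF : ∀ a, Ec (F a) = Ec (epsG C Kr (G a)) := by
    intro a
    funext m n
    apply propext
    show F a (Nat.pair m n) ≠ 0 ↔ _
    simp only [F, Nat.unpair_pair]
    by_cases h : Ec (epsG C Kr (G a)) m n
    · simp [h]
    · simp [h]
  refine ⟨F, ?_, Y, ?_, fun a => ⟨by rw [hF]; exact hY1 a, hY2 a⟩⟩
  · refine continuous_pi fun k => ?_
    refine IsLocallyConstant.continuous ((IsLocallyConstant.iff_exists_open _).2 fun a => ?_)
    have hiff : ∀ b, Ec (epsG C Kr (G b)) k.unpair.1 k.unpair.2 ↔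
        C.av k.unpair.1 k.unpair.2 (G b) ∈ ASet.{u} Kr := fun b => ec_epsG C Kr (G b) _ _
    have key : ∃ j, ∀ b, G b ∈ cyl (sg (G a) j) →
        (C.av k.unpair.1 k.unpair.2 (G b) ∈ ASet.{u} Kr ↔
          C.av k.unpair.1 k.unpair.2 (G a) ∈ ASet.{u} Kr) := by
      by_cases h : C.av k.unpair.1 k.unpair.2 (G a) ∈ ASet.{u} Kr
      · obtain ⟨j, hj⟩ := ((hgood (G a) (hG2 a).2).1.2 _ _).1 h
        refine ⟨j, fun b hb => ⟨fun _ => h, fun _ => ?_⟩⟩
        refine ((hgood (G b) (hG2 b).2).1.2 _ _).2 ⟨j, ?_⟩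
        rw [sg_eq_iff.2 (mem_cyl_sg_iff.1 hb)]
        exact hj
      · obtain ⟨j, hj⟩ := (hgood (G a) (hG2 a).2).2 _ _ h
        refine ⟨j, fun b hb => ⟨fun hb' => ?_, fun h' => (h h').elim⟩⟩
        exfalso
        obtain ⟨j', hj'⟩ := ((hgood (G b) (hG2 b).2).1.2 _ _).1 hb'
        apply not_meagre_cyl (sg (G b) (max j j'))
        refine IsMeagre.mono ?_ (hj.union hj')
        intro g hg
        have e1 : g ∈ cyl (sg (G a) j) := by
          rw [← sg_eq_iff.2 (mem_cyl_sg_iff.1 hb)]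
          exact cyl_mono (sg_pre (G b) (le_max_left _ _)) hg
        have e2 : g ∈ cyl (sg (G b) j') := cyl_mono (sg_pre (G b) (le_max_right _ _)) hg
        by_cases hgA : C.av k.unpair.1 k.unpair.2 g ∈ ASet.{u} Kr
        · left; exact ⟨e1, fun h => h hgA⟩
        · right; exact ⟨e2, hgA⟩
    obtain ⟨j, hj⟩ := key
    refine ⟨G ⁻¹' cyl (sg (G a) j), (isOpen_cyl _).preimage hG1, mem_cyl_sg _ _, fun b hb => ?_⟩
    show F b k = F a k
    simp only [F, hiff]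
    rw [if_congr (hj b hb) rfl rfl]
  · intro a b hab
    by_contra hne'
    exact hG3 a b hne' ⟨Y a, hY1 a, hab ▸ hY1 b⟩

end Main

/-- The Omega conjecture for `Π₂` sentences without perfect sets of witnesses, and the local
dichotomy. -/
theorem perfect_dichotomy (hI : ManyInacc.{u}) {ψ : Fml} (hψ : ψ.Delta0)
    (hfree : ∀ n, ψ.Free n → n = 0 ∨ n = 1) (hφ : ValidStar.{u} (piTwo ψ)) :
    (∃ A : Set (ℕ → ℕ), UB.{u} A ∧ ∀ M : Set ZFSet.{u}, CTM M → AClosed A M →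
      ∀ x ∈ M, (∃ y ∈ M, Tr ψ x y) ∨ PerfectWitnesses ψ x) ∧
    ((∀ x : ZFSet.{u}, HC x → ¬ PerfectWitnesses ψ x) → ProvOmega.{u} (piTwo ψ)) := by
  obtain ⟨Kr, hK, hKP⟩ := exists_Kr ψ
  have h1 : ∀ M : Set ZFSet.{u}, CTM M → AClosed (ASet.{u} Kr) M →
      ∀ x ∈ M, (∃ y ∈ M, Tr ψ x y) ∨ PerfectWitnesses ψ x := fun M hM hcl x hx =>
    witness_or_perfect hψ hfree hK hKP hI hφ hM hcl hx
  refine ⟨⟨_, ub_ASet hψ hfree hK hKP hI hφ, h1⟩, fun hno =>
    ⟨_, ub_ASet hψ hfree hK hKP hI hφ, fun M hM hcl => ?_⟩⟩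
  apply hM.models_of_witness hψ hfree
  intro x hx
  rcases h1 M hM hcl x hx with h | h
  · exact h
  · exact (hno x ⟨M, hM.countable, hM.trans, hx⟩ h).elim

end Pool.Agent.H17.Omega
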