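import Pool.Agent.H17.Omega.TOne
import Pool.Agent.H17.Omega.TOneP
import Pool.Agent.H17.Omega.DefsB
import Pool.Agent.H17.Omega.MVal

/-!
# The Omega conjecture for sigma-compact families of witnesses
-/

set_option autoImplicit false
set_option linter.unusedVariables false
set_option linter.unusedSectionVars false
set_option linter.unusedSimpArgs false
set_option linter.deprecated false

universe u v w

namespace Pool.Agent.H17.Omega

open Name CTM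

theorem mem_of_approx {I : Type v} {K : Set (I → Bool)} (hK : IsClosed K) {χ : I → Bool}
    (h : ∀ F : Set I, F.Finite → ∃ χ' ∈ K, ∀ i ∈ F, χ' i = χ i) : χ ∈ K := by
  rw [← hK.closure_eq, mem_closure_iff]
  intro o ho hχ
  rw [isOpen_pi_iff] at ho
  obtain ⟨F, U, hU, hsub⟩ := ho χ hχ
  obtain ⟨χ', h1, h2⟩ := h F F.finite_toSet
  refine ⟨χ', hsub fun i hi => ?_, h1⟩
  rw [h2 i hi]
  exact (hU i hi).2

theorem IsVal.mem_iff {E : ℕ → ℕ → Prop} {y : ZFSet.{u}} {n : ℕ} (h : IsVal E y n) {a : ZFSet.{u}} :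
    a ∈ y ↔ ∃ m, E m n ∧ IsVal E a m := by
  rw [isVal_iff] at h
  constructor
  · intro ha
    exact h.2 a ha
  · rintro ⟨m, hm, ha⟩
    obtain ⟨b, hb, hb'⟩ := h.1 m hm
    rw [ha.unique hb']; exact hb

section Main

variable {ψ : Fml} (hψ : ψ.Delta0) (hfree : ∀ n, ψ.Free n → n = 0 ∨ n = 1)
  {Kr : (ℕ → ℕ) → (ℕ → ℕ) → Prop} (hK : KrClosed Kr)
  (hKP : ∀ c ε, Pr ψ c ε ↔ ∃ w, Kr c w ∧ ∀ n, (w n).unpair.1 = ε n)
  (hI : ManyInacc.{u}) (hφ : ValidStar.{u} (piTwo ψ))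

include hψ hfree hK hKP hI hφ in
theorem exists_witness_of_sigmaCompact {M : Set ZFSet.{u}} (hM : CTM M)
    (hcl : AClosed (ASet.{u} Kr) M) {x : ZFSet.{u}} (hx : x ∈ M)
    (hc : SigmaCompactWitnesses ψ x) : ∃ y ∈ M, Tr ψ x y := by
  classical
  obtain ⟨C, n0, hx0⟩ := Col.exists_col hM hx
  obtain ⟨q, hq, σ, hσ, hA⟩ := hcl Qs C.c C.posetIn (Qs.mk [n0])
  have hUB := ub_ASet hψ hfree hK hKP hI hφ
  have hg0 : ∀ g ∈ cyl q.toL, C.ι (g 0) = x := by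
    intro g hg
    have h1 : g ∈ cyl [n0] := Qs.cyl_mono hq hg
    rw [mem_cyl] at h1
    have h2 : g 0 = n0 := by simpa [sg] using h1
    rw [h2, hx0]
  obtain ⟨E, hE, hE'⟩ := C.exists_E hσ hA
  obtain ⟨P, R, hPR⟩ := C.posetIn.exists_PR
  obtain ⟨t, K, ht, hKc, hW⟩ := hc
  choose T hTc hTt htT using ht
  -- a countable transitive set that contains everything
  let T' : Set ZFSet.{u} := M ∪ ⋃ n, T n
  have hT'c : T'.Countable := hM.countable.union (Set.countable_iUnion hTc)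
  have hT't : ∀ a ∈ T', ∀ b ∈ a, b ∈ T' := by
    rintro a (ha | ha) b hb
    · exact Or.inl (hM.mem_of_mem ha hb)
    · obtain ⟨n, hn⟩ := Set.mem_iUnion.1 ha
      exact Or.inr (Set.mem_iUnion.2 ⟨n, hTt n a hn b hb⟩)
  let ε : (ℕ → ℕ) → ℕ → ℕ → Prop := fun g => Ec (epsG C Kr g)
  let FE := C.FE (ASet.{u} Kr)
  have hmono : ∀ r r' m n, r' ≤ r → FE r m n → FE r' m n := C.FE_mono
  -- the good functions
  let G : Set (ℕ → ℕ) := {g | g ∈ cyl q.toL ∧ C.Good (ASet.{u} Kr) g ∧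
    ∀ z ∈ T', ∀ n, ∃ k, sg g k ∈ DV FE z n}
  have hGm : IsMeagre (cyl q.toL \ G) := by
    have hm : IsMeagre (⋃ z : T', ⋃ n, {g | g ∈ cyl q.toL ∧ ¬ ∃ k, sg g k ∈ DV FE z.1 n}) := by
      have := hT'c.to_subtype
      exact isMeagre_iUnion fun z => isMeagre_iUnion fun n => meagre_of_dense (denseBelow_DV _ _ _)
    refine IsMeagre.mono ?_ ((C.meagre_not_good hUB).union hm)
    rintro g ⟨hg, hgG⟩
    by_contra hc'
    rw [Set.mem_union, not_or] at hc'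
    refine hgG ⟨hg, not_not.1 hc'.1, fun z hz n => ?_⟩
    by_contra hk
    exact hc'.2 (Set.mem_iUnion.2 ⟨⟨z, hz⟩, Set.mem_iUnion.2 ⟨n, hg, hk⟩⟩)
  have hεFE : ∀ g ∈ G, ∀ m n, ε g m n ↔ ∃ k, FE (Qs.mk (sg g k)) m n := fun g hg m n =>
    (ec_epsG C Kr g m n).trans (hg.2.1.2 m n)
  -- membership in the generic value is decided
  have key : ∀ g ∈ G, ∀ y : ZFSet.{u}, IsVal (ε g) y 0 → (∀ a ∈ y, a ∈ T') → ∀ a ∈ T',
      (a ∈ y ↔ ∃ k, SA FE a (Qs.mk (sg g k))) := by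
    intro g hg y hy hyT a haT
    have hcomp := exists_VZ_of_isVal (FE := FE) hmono (ε := ε g) (hεFE g hg) hT't hg.2.2
    constructor
    · intro ha
      obtain ⟨m, h1, h2⟩ := hy.mem_iff.1 ha
      obtain ⟨k1, h3⟩ := hcomp a haT m h2
      obtain ⟨k2, h4⟩ := (hεFE g hg m 0).1 h1
      have l1 : Qs.mk (sg g (max k1 k2)) ≤ Qs.mk.{u} (sg g k1) := sg_pre g (by omega)
      have l2 : Qs.mk (sg g (max k1 k2)) ≤ Qs.mk.{u} (sg g k2) := sg_pre g (by omega)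
      exact ⟨max k1 k2, m, hmono _ _ _ _ l2 h4, h3.mono l1⟩
    · rintro ⟨k, m, h1, h2⟩
      have h3 : ε g m 0 := (hεFE g hg m 0).2 ⟨k, h1⟩
      obtain ⟨b, hb, hb'⟩ := (isVal_iff.1 hy).1 m h3
      obtain ⟨k1, h4⟩ := hcomp b (hyT b hb) m hb'
      have l1 : Qs.mk (sg g (max k k1)) ≤ Qs.mk.{u} (sg g k) := sg_pre g (by omega)
      have l2 : Qs.mk (sg g (max k k1)) ≤ Qs.mk.{u} (sg g k1) := sg_pre g (by omega)
      have h5 : a = b := (h2.mono l1).unique (h4.mono l2)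
      rw [h5]; exact hb
  have hSAcyl : ∀ (a : ZFSet.{u}) (g : ℕ → ℕ) (r : Qs.{u}), g ∈ cyl r.toL →
      (∃ k, SA FE a (Qs.mk (sg g k))) → ∃ s ≤ r, SA FE a s := by
    rintro a g r hg ⟨k, hk⟩
    have l1 : Qs.mk (sg g (max k r.toL.length)) ≤ Qs.mk.{u} (sg g k) := sg_pre g (le_max_left _ _)
    have l2 : Qs.mk (sg g (max k r.toL.length)) ≤ r := pre_sg hg (le_max_right _ _)
    exact ⟨_, l2, hk.mono hmono l1⟩
  -- one of the compact families is met by a nonmeager set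
  let B : ℕ → Set (ℕ → ℕ) := fun n => {g | g ∈ G ∧ ∃ y : ZFSet.{u}, IsVal (ε g) y 0 ∧
    ∃ χ ∈ K n, IsSub χ y}
  have hB : ∃ n, ¬ IsMeagre (cyl q.toL ∩ B n) := by
    by_contra hcon
    push Not at hcon
    apply not_meagre_cyl q.toL
    refine IsMeagre.mono ?_ (hGm.union (isMeagre_iUnion hcon))
    intro g hg
    by_cases hgG : g ∈ G
    · right
      obtain ⟨y, h1, h2⟩ := exists_generic_witness hψ hfree hK hKP hI hφ C hgG.2.1.1
      rw [hg0 g hg] at h2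
      obtain ⟨n, hn⟩ := (hW y (hc_of_isVal h1)).1 h2
      exact Set.mem_iUnion.2 ⟨n, hg, hgG, y, h1, hn⟩
    · exact Or.inl ⟨hg, hgG⟩
  obtain ⟨n, hn⟩ := hB
  have hr0 : ∃ r0 ≤ q, ∀ r ≤ r0, ∃ g ∈ B n, g ∈ cyl r.toL := by
    by_contra hcon
    push Not at hcon
    apply hn
    apply meagre_of_local
    intro l hl
    obtain ⟨r, hr, h1⟩ := hcon (Qs.mk l) hl
    refine ⟨r.toL, hr, ?_⟩
    have : cyl r.toL ∩ B n = ∅ := by
      ext g
      simp only [Set.mem_inter_iff, Set.mem_empty_iff_false, iff_false, not_and]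
      intro h2 h3
      exact h1 g h3 h2
    show IsMeagre (cyl r.toL ∩ B n)
    rw [this]
    exact IsMeagre.empty
  obtain ⟨r0, hr0q, hr0⟩ := hr0
  have htT' : ∀ a ∈ t n, a ∈ T' := fun a ha => Or.inr (Set.mem_iUnion.2 ⟨n, hTt n _ (htT n) a ha⟩)
  obtain ⟨d, hd, hd'⟩ := hM.exists_vals hPR hE hE' r0 hr0q 0
  obtain ⟨y, hyM, hyd, hy⟩ := hM.exists_approx hPR hmono hE hE' r0 hr0q hd
  refine ⟨y, hyM, ?_⟩
  -- every member of `y` belongs to `t n`
  have hyt : ∀ a ∈ y, a ∈ t n := by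
    intro a ha
    obtain ⟨haM, r, hr, m, h1, h2⟩ := (hd' a).1 (hyd ha)
    obtain ⟨g, ⟨hgG, y', h3, χ, hχ, h4⟩, hg⟩ := hr0 r hr
    have hyT : ∀ b ∈ y', b ∈ T' := fun b hb => htT' b ((h4 b).1 hb).1
    have h5 : a ∈ y' := (key g hgG y' h3 hyT a (Or.inl haM)).2 ⟨r.toL.length, by
      rw [mem_cyl.1 hg]; exact ⟨m, h1, h2⟩⟩
    exact ((h4 a).1 h5).1
  let χ : {a : ZFSet.{u} // a ∈ t n} → Bool := fun a => decide (a.1 ∈ y)
  have hχy : IsSub χ y := by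
    intro a
    constructor
    · intro ha; exact ⟨hyt a ha, by simp [χ, ha]⟩
    · rintro ⟨h, h1⟩; simpa [χ] using h1
  have hχK : χ ∈ K n := by
    apply mem_of_approx (hKc n)
    intro F hF
    obtain ⟨r, hr, h1⟩ := hy {a | a ∈ d ∧ ∃ h : a ∈ t n, (⟨a, h⟩ : {a // a ∈ t n}) ∈ F} (by
      refine (hF.image (fun a : {a // a ∈ t n} => a.1)).subset ?_
      rintro a ⟨_, h, ha⟩
      exact ⟨_, ha, rfl⟩) (fun a ha => ha.1)
    obtain ⟨g, ⟨hgG, y', h3, χ', hχ', h4⟩, hg⟩ := hr0 r hr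
    have hyT : ∀ b ∈ y', b ∈ T' := fun b hb => htT' b ((h4 b).1 hb).1
    have hkey := key g hgG y' h3 hyT
    refine ⟨χ', hχ', ?_⟩
    rintro ⟨a, ha⟩ haF
    have h5 : a ∈ y' ↔ a ∈ y := by
      by_cases had : a ∈ d
      · obtain ⟨h6, h7⟩ := h1 a ⟨had, ha, haF⟩
        constructor
        · intro h8
          by_contra h9
          obtain ⟨s, hs, h10⟩ := hSAcyl a g r hg ((hkey a (htT' a ha)).1 h8)
          exact h7 h9 s hs h10
        · intro h8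
          exact (hkey a (htT' a ha)).2 ⟨r.toL.length, by rw [mem_cyl.1 hg]; exact h6 h8⟩
      · constructor
        · intro h8
          exfalso
          obtain ⟨s, hs, m, h9, h10⟩ := hSAcyl a g r hg ((hkey a (htT' a ha)).1 h8)
          have haM : a ∈ M := hM.mem_of_VZ hPR hE hE' a s ((hs.trans hr).trans hr0q) m h10
          exact had ((hd' a).2 ⟨haM, s, hs.trans hr, m, h9, h10⟩)
        · intro h8; exact (had (hyd h8)).elim
    have h6 : χ' ⟨a, ha⟩ = true ↔ a ∈ y' := by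
      rw [h4 a]
      exact ⟨fun h => ⟨ha, h⟩, fun ⟨_, h⟩ => h⟩
    have h7 : χ ⟨a, ha⟩ = true ↔ a ∈ y := by simp [χ]
    exact Bool.eq_iff_iff.2 (h6.trans (h5.trans h7.symm))
  exact (hW y ⟨M, hM.countable, hM.trans, hyM⟩).2 ⟨n, χ, hχK, hχy⟩

end Main

/-- The Omega conjecture for `Π₂` sentences with sigma-compact or thin families of witnesses. -/
theorem provOmega_of_sigmaCompact (hI : ManyInacc.{u}) {ψ : Fml} (hψ : ψ.Delta0)
    (hfree : ∀ n, ψ.Free n → n = 0 ∨ n = 1)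
    (hc : ∀ x : ZFSet.{u}, HC x → SigmaCompactWitnesses ψ x ∨ ¬ PerfectWitnesses ψ x)
    (hφ : ValidStar.{u} (piTwo ψ)) : ProvOmega.{u} (piTwo ψ) := by
  obtain ⟨Kr, hK, hKP⟩ := exists_Kr ψ
  refine ⟨ASet.{u} Kr, ub_ASet hψ hfree hK hKP hI hφ, fun M hM hcl => ?_⟩
  apply hM.models_of_witness hψ hfree
  intro x hx
  rcases hc x ⟨M, hM.countable, hM.trans, hx⟩ with h | h
  · exact exists_witness_of_sigmaCompact hψ hfree hK hKP hI hφ hM hcl hx h
  · exact (witness_or_perfect hψ hfree hK hKP hI hφ hM hcl hx).resolve_right h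

end Pool.Agent.H17.Omega
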