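import Pool.Agent.H17.Omega.GenAlive
import Pool.Agent.H17.Omega.Meager

/-!
# A universally Baire set
-/

set_option autoImplicit false
set_option linter.unusedVariables false
set_option linter.unusedSectionVars false
set_option linter.unusedSimpArgs false
set_option linter.deprecated false

universe u v w

namespace Pool.Agent.H17.Omega

open Classical in
/-- The leftmost branch. -/
noncomputable def lmb (Kr : (ℕ → ℕ) → (ℕ → ℕ) → Prop) (c : ℕ → ℕ) : ℕ → ℕ × Ordinal.{u} :=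
  if h : ∃ b : ℕ → ℕ × Ordinal.{u}, Leftmost (UB' Kr c) b then h.choose else fun _ => (0, 0)

theorem lmb_spec {Kr : (ℕ → ℕ) → (ℕ → ℕ) → Prop} {c : ℕ → ℕ}
    (h : ∃ b : ℕ → ℕ × Ordinal.{u}, UB' Kr c b) : Leftmost (UB' Kr c) (lmb.{u} Kr c) := by
  have h1 := exists_leftmost (UB'.closed c) h
  rw [lmb, dif_pos h1]
  exact h1.choose_spec

/-- The universally Baire set. -/
def ASet (Kr : (ℕ → ℕ) → (ℕ → ℕ) → Prop) : Set (ℕ → ℕ) :=
  {a | (lmb.{u} Kr (fun k => a (k + 2)) (Nat.pair (a 0) (a 1))).1.unpair.1 ≠ 0}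

/-- Certificates compute the digits. -/
theorem Cert.digit {Kr : (ℕ → ℕ) → (ℕ → ℕ) → Prop} {c : ℕ → ℕ} {h : ℕ → ℕ × Ordinal.{u}}
    (H : Cert Kr c h) (n : ℕ) : (lmb.{u} Kr c n).1 = (h (2 * n)).1 :=
  H.sound (lmb_spec ⟨_, H.br⟩) n

theorem ub_ASet {ψ : Fml} (hψ : ψ.Delta0) (hfree : ∀ n, ψ.Free n → n = 0 ∨ n = 1)
    {Kr : (ℕ → ℕ) → (ℕ → ℕ) → Prop} (hK : KrClosed Kr)
    (hKP : ∀ c ε, Pr ψ c ε ↔ ∃ w, Kr c w ∧ ∀ n, (w n).unpair.1 = ε n)
    (hI : ManyInacc.{u}) (hφ : ValidStar.{u} (piTwo ψ)) : UB.{u} (ASet.{u} Kr) := by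
  intro X _ F hF
  rcases isEmpty_or_nonempty X with hX | hX
  · have : F ⁻¹' ASet.{u} Kr = ∅ := Set.eq_empty_of_isEmpty _
    rw [this]; exact isOpen_empty.baireMeasurableSet
  let F' : X → ℕ → ℕ := fun x k => F x (k + 2)
  have hF' : ∀ i, Continuous (fun x => F' x i) := fun i => (continuous_apply (i + 2)).comp hF
  -- the key claim
  have hY : ∀ k, BaireMeasurableSet {x | (lmb.{u} Kr (F' x) k).1.unpair.1 ≠ 0} := by
    intro k
    apply baireMeasurableSet_of_local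
    intro V hV hVn
    let P := {U : TopologicalSpace.Opens X // (U : Set X).Nonempty}
    let _ : OrderTop P :=
      { top := ⟨⊤, by simp⟩
        le_top := fun U => (le_top : U.1 ≤ ⊤) }
    let bb : ℕ → ℕ → P → Prop := fun i j U => ∀ x ∈ (U.1 : Set X), F' x i = j
    have hb : RName bb := by
      refine ⟨fun i j p q h h' x hx => h' x (h hx), fun i j j' p h h' => ?_, fun i p => ?_⟩
      · obtain ⟨x, hx⟩ := p.2
        rw [← h x hx, h' x hx]
      · obtain ⟨x, hx⟩ := p.2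
        refine ⟨⟨⟨(p.1 : Set X) ∩ (fun y => F' y i) ⁻¹' {F' x i},
          p.1.isOpen.inter ((hF' i).isOpen_preimage _ (isOpen_discrete _))⟩, ⟨x, hx, rfl⟩⟩,
          fun y hy => hy.1, F' x i, fun y hy => hy.2⟩
    obtain ⟨r, hr, hal⟩ := exists_alive hψ hfree hK hKP hI hφ hb (⟨⟨V, hV⟩, hVn⟩ : P)
    have hlev : ∀ n, ∃ r' ≤ r, ∃ t, Alive bb Kr r' n t := by
      intro n
      induction n with
      | zero => exact ⟨r, le_rfl, fun _ => (0, 0), hal _⟩
      | succ n ih =>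
        obtain ⟨r', hr', t, ht⟩ := ih
        obtain ⟨r2, hr2, _, a, ha⟩ := ht.step hb le_rfl
        exact ⟨r2, hr2.trans hr', _, ha⟩
    obtain ⟨r', hr', t, ht⟩ := hlev (2 * k + 1)
    have hM := branch_lemma (X := X) (S := ℕ × (ℕ → ℕ × Ordinal.{u}))
      (fun V s => ∃ (ho : IsOpen V) (hn : V.Nonempty),
        Alive bb Kr (⟨⟨V, ho⟩, hn⟩ : P) s.1 s.2)
      (fun V s h => ⟨h.1, h.2.1⟩)
      (fun s V' s' => s'.1 = s.1 + 1 ∧ (∃ a, s'.2 = Function.update s.2 s.1 a) ∧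
        ∃ (ho : IsOpen V') (hn : V'.Nonempty), OK bb Kr (⟨⟨V', ho⟩, hn⟩ : P) s.1 s.2)
      (fun V s ⟨ho, hn, hA⟩ V1 h1 ho1 hn1 => by
        obtain ⟨r2, hr2, hO, a, ha⟩ := hA.step hb (r1 := (⟨⟨V1, ho1⟩, hn1⟩ : P)) h1
        exact ⟨r2.1, hr2, (s.1 + 1, Function.update s.2 s.1 a), ⟨r2.1.isOpen, r2.2, ha⟩,
          rfl, ⟨a, rfl⟩, r2.1.isOpen, r2.2, hO⟩)
      (r'.1 : Set X) (2 * k + 1, t) ⟨r'.1.isOpen, r'.2, ht⟩
    have hdig : ∀ x ∈ (r'.1 : Set X), (lmb.{u} Kr (F' x) k).1 ≠ (t (2 * k)).1 →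
        x ∈ {x ∈ (r'.1 : Set X) | ¬ ∃ st : ℕ → Set X × (ℕ × (ℕ → ℕ × Ordinal.{u})),
          st 0 = ((r'.1 : Set X), (2 * k + 1, t)) ∧
          ∀ m, (∃ (ho : IsOpen (st m).1) (hn : (st m).1.Nonempty),
            Alive bb Kr (⟨⟨(st m).1, ho⟩, hn⟩ : P) (st m).2.1 (st m).2.2) ∧
            ((st (m + 1)).2.1 = (st m).2.1 + 1 ∧
              (∃ a, (st (m + 1)).2.2 = Function.update (st m).2.2 (st m).2.1 a) ∧
            ∃ (ho : IsOpen (st (m + 1)).1) (hn : (st (m + 1)).1.Nonempty),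
              OK bb Kr (⟨⟨(st (m + 1)).1, ho⟩, hn⟩ : P) (st m).2.1 (st m).2.2) ∧
            x ∈ (st m).1} := by
      intro x hx hne
      refine ⟨hx, fun ⟨st, hst0, hst⟩ => hne ?_⟩
      have hlen : ∀ m, (st m).2.1 = 2 * k + 1 + m := by
        intro m
        induction m with
        | zero => rw [hst0]
        | succ m ih => rw [(hst m).2.1.1, ih]; rfl
      have hag1 : ∀ m, Agree (2 * k + 1 + m) (st (m + 1)).2.2 (st m).2.2 := by
        intro m i hi
        obtain ⟨a, ha⟩ := (hst m).2.1.2.1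
        rw [ha, hlen m, Function.update_of_ne (by omega)]
      have hag2 : ∀ m j, Agree (2 * k + 1 + m) (st (m + j)).2.2 (st m).2.2 := by
        intro m j
        induction j with
        | zero => exact Agree.refl _ _
        | succ j ih => exact ((hag1 (m + j)).mono (by omega)).trans ih
      let h : ℕ → ℕ × Ordinal.{u} := fun i => (st i).2.2 i
      have hag3 : ∀ m, Agree (2 * k + 1 + m) (st m).2.2 h := by
        intro m i hi
        rcases le_total m i with h1 | h1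
        · obtain ⟨j, rfl⟩ := Nat.exists_eq_add_of_le h1
          exact (hag2 m j _ hi).symm
        · obtain ⟨j, rfl⟩ := Nat.exists_eq_add_of_le h1
          exact hag2 i j i (by omega)
      have hcert : Cert Kr (F' x) h := by
        apply Cert.closed
        intro n
        obtain ⟨ho, hn, c', h', h1, h2, h3⟩ := (hst n).2.1.2.2
        rw [hlen] at h1 h2
        refine ⟨c', h', fun i hi => ?_, (h2.trans (hag3 n)).mono (by omega), h3⟩
        exact (h1 i (by omega) x (hst (n + 1)).2.2).symm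
      rw [hcert.digit]
      have := hag3 0 (2 * k) (by omega)
      rw [← this, hst0]
    refine ⟨(r'.1 : Set X), fun x hx => hr (hr' hx), r'.1.isOpen, r'.2, ?_⟩
    by_cases hj : (t (2 * k)).1.unpair.1 ≠ 0
    · right
      refine hM.mono fun x hx => hdig x hx.1 fun he => hx.2 ?_
      show (lmb.{u} Kr (F' x) k).1.unpair.1 ≠ 0
      rw [he]; exact hj
    · left
      refine hM.mono fun x hx => hdig x hx.1 fun he => hj ?_
      rw [← he]; exact hx.2
  have hset : F ⁻¹' ASet.{u} Kr = ⋃ p : ℕ × ℕ, ({x | F x 0 = p.1} ∩ {x | F x 1 = p.2}) ∩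
      {x | (lmb.{u} Kr (F' x) (Nat.pair p.1 p.2)).1.unpair.1 ≠ 0} := by
    ext x
    simp only [Set.mem_preimage, Set.mem_iUnion, Set.mem_inter_iff, Set.mem_setOf_eq, ASet]
    constructor
    · intro h; exact ⟨(F x 0, F x 1), ⟨rfl, rfl⟩, h⟩
    · rintro ⟨⟨m, n⟩, ⟨rfl, rfl⟩, h⟩; exact h
  rw [hset]
  refine BaireMeasurableSet.iUnion fun p => (BaireMeasurableSet.inter ?_ ?_).inter (hY _)
  · exact (IsOpen.preimage ((continuous_apply 0).comp hF)
      (isOpen_discrete ({p.1} : Set ℕ))).baireMeasurableSet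
  · exact (IsOpen.preimage ((continuous_apply 1).comp hF)
      (isOpen_discrete ({p.2} : Set ℕ))).baireMeasurableSet

end Pool.Agent.H17.Omega
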