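import Pool.Agent.H17.Omega.MTau
import Pool.Agent.H17.Omega.UBA

/-!
# Witnesses in models that are closed under the universally Baire set
-/

set_option autoImplicit false
set_option linter.unusedVariables false
set_option linter.unusedSectionVars false
set_option linter.unusedSimpArgs false
set_option linter.deprecated false

universe u v w

namespace Pool.Agent.H17.Omega

open Name CTM

theorem hc_of_isVal {E : ℕ → ℕ → Prop} {x : ZFSet.{u}} {n : ℕ} (h : IsVal E x n) : HC x := by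
  classical
  refine ⟨{z | ∃ n, IsVal E z n}, ?_, ?_, ⟨n, h⟩⟩
  · have : {z : ZFSet.{u} | ∃ n, IsVal E z n} ⊆
        Set.range (fun n => if h : ∃ z : ZFSet.{u}, IsVal E z n then h.choose else ∅) := by
      rintro z ⟨n, hn⟩
      refine ⟨n, ?_⟩
      have h1 : ∃ z : ZFSet.{u}, IsVal E z n := ⟨z, hn⟩
      simp only [dif_pos h1]
      exact h1.choose_spec.unique hn
    exact (Set.countable_range _).mono this
  · rintro a ⟨n, hn⟩ b hb
    obtain ⟨m, _, hm⟩ := (isVal_iff.1 hn).2 b hb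
    exact ⟨m, hm⟩

section Branch

variable {ψ : Fml} (hψ : ψ.Delta0) (hfree : ∀ n, ψ.Free n → n = 0 ∨ n = 1)
  {Kr : (ℕ → ℕ) → (ℕ → ℕ) → Prop} (hK : KrClosed Kr)
  (hKP : ∀ c ε, Pr ψ c ε ↔ ∃ w, Kr c w ∧ ∀ n, (w n).unpair.1 = ε n)
  (hI : ManyInacc.{u}) (hφ : ValidStar.{u} (piTwo ψ))

include hψ hfree hK hKP hI hφ in
/-- Every real has a branch. -/
theorem exists_branch_real (c : ℕ → ℕ) : ∃ b : ℕ → ℕ × Ordinal.{u}, UB' Kr c b := by
  let bb : ℕ → ℕ → PUnit.{u + 1} → Prop := fun i j _ => c i = j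
  have hb : RName bb := by
    refine ⟨fun i j p q _ h => h, fun i j j' p h h' => ?_, fun i p => ⟨p, le_rfl, c i, rfl⟩⟩
    exact (h : c i = j).symm.trans h'
  obtain ⟨r, hr, hal⟩ := exists_alive hψ hfree hK hKP hI hφ hb (PUnit.unit)
  have hstep : ∀ (n : ℕ) (t : {t : ℕ → ℕ × Ordinal.{u} // Alive bb Kr r n t}),
      ∃ t' : {t : ℕ → ℕ × Ordinal.{u} // Alive bb Kr r (n + 1) t}, OK bb Kr r n t.1 ∧
        ∃ a, t'.1 = Function.update t.1 n a := by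
    intro n t
    obtain ⟨r2, _, h1, a, h2⟩ := t.2.step hb le_rfl
    exact ⟨⟨_, h2⟩, h1, a, rfl⟩
  choose F hF1 hF2 using hstep
  let st : (n : ℕ) → {t : ℕ → ℕ × Ordinal.{u} // Alive bb Kr r n t} := fun n =>
    Nat.rec ⟨fun _ => (0, 0), hal _⟩ (fun n t => F n t) n
  have hst : ∀ n, st (n + 1) = F n (st n) := fun n => rfl
  have h1 : ∀ n, Agree n (st (n + 1)).1 (st n).1 := by
    intro n i hi
    obtain ⟨a, ha⟩ := hF2 n (st n)
    rw [hst, ha, Function.update_of_ne (by omega)]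
  have h2 : ∀ n k, Agree n (st (n + k)).1 (st n).1 := by
    intro n k
    induction k with
    | zero => exact Agree.refl _ _
    | succ k ih => exact ((h1 (n + k)).mono (by omega)).trans ih
  let h : ℕ → ℕ × Ordinal.{u} := fun i => (st (i + 1)).1 i
  have h3 : ∀ n, Agree n (st n).1 h := by
    intro n i hi
    obtain ⟨k, rfl⟩ := Nat.exists_eq_add_of_lt hi
    have := h2 (i + 1) k i (by omega)
    rw [show i + 1 + k = i + k + 1 from by omega] at this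
    exact this
  have hcert : Cert Kr c h := by
    apply Cert.closed
    intro n
    obtain ⟨c', h', h4, h5, h6⟩ := hF1 n (st n)
    exact ⟨c', h', fun i hi => (h4 i hi : c i = c' i).symm, h5.trans (h3 n), h6⟩
  exact ⟨_, hcert.br⟩

end Branch

/-! ### Truth -/

section Truth

variable (FE : Qs.{u} → ℕ → ℕ → Prop)

/-- The dense set attached to a value. -/
def DV (z : ZFSet.{u}) (n : ℕ) : Set (List ℕ) :=
  {l | VZ FE z (Qs.mk l) n ∨ (∃ u ∈ z, ∀ r ≤ Qs.mk l, ¬ ∃ m, FE r m n ∧ VZ FE u r m) ∨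
    ∃ m, FE (Qs.mk l) m n ∧ ∀ r ≤ Qs.mk l, ∀ u ∈ z, ¬ VZ FE u r m}

variable {FE}

theorem denseBelow_DV (z : ZFSet.{u}) (n : ℕ) (l : List ℕ) : DenseBelow l (DV FE z n) := by
  intro l1 _
  by_cases h : VZ FE z (Qs.mk l1) n
  · exact ⟨l1, ⟨[], by simp⟩, Or.inl h⟩
  · rw [vz_iff, not_and_or] at h
    rcases h with h | h
    · push Not at h
      obtain ⟨u, hu, r1, hr1, h1⟩ := h
      exact ⟨r1.toL, hr1, Or.inr (Or.inl ⟨u, hu, fun r hr ⟨m, h2, h3⟩ => h1 r hr m h2 h3⟩)⟩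
    · push Not at h
      obtain ⟨m, r1, hr1, hFE, h1⟩ := h
      exact ⟨r1.toL, hr1, Or.inr (Or.inr ⟨m, hFE, fun r hr u hu => h1 r hr u hu⟩)⟩

/-- Truth lemma for values. -/
theorem exists_VZ_of_isVal (hmono : ∀ r r' m n, r' ≤ r → FE r m n → FE r' m n) {g : ℕ → ℕ}
    {ε : ℕ → ℕ → Prop} (hε : ∀ m n, ε m n ↔ ∃ k, FE (Qs.mk (sg g k)) m n) {T : Set ZFSet.{u}}
    (hT : ∀ a ∈ T, ∀ b ∈ a, b ∈ T) (hD : ∀ z ∈ T, ∀ n, ∃ k, sg g k ∈ DV FE z n)
    (z : ZFSet.{u}) : z ∈ T → ∀ n, IsVal ε z n → ∃ k, VZ FE z (Qs.mk (sg g k)) n := by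
  induction z using ZFSet.inductionOn with
  | _ z ih =>
    intro hz n hn
    obtain ⟨k, hk⟩ := hD z hz n
    rw [isVal_iff] at hn
    rcases hk with hk | ⟨u, hu, hk⟩ | ⟨m, hm, hk⟩
    · exact ⟨k, hk⟩
    · exfalso
      obtain ⟨m, h1, h2⟩ := hn.2 u hu
      obtain ⟨k1, h3⟩ := ih u hu (hT z hz u hu) m h2
      obtain ⟨k2, h4⟩ := (hε m n).1 h1
      have l1 : Qs.mk (sg g (max k (max k1 k2))) ≤ Qs.mk.{u} (sg g k) := sg_pre g (by omega)
      have l2 : Qs.mk (sg g (max k (max k1 k2))) ≤ Qs.mk.{u} (sg g k1) := sg_pre g (by omega)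
      have l3 : Qs.mk (sg g (max k (max k1 k2))) ≤ Qs.mk.{u} (sg g k2) := sg_pre g (by omega)
      exact hk _ l1 ⟨m, hmono _ _ _ _ l3 h4, h3.mono l2⟩
    · exfalso
      have h1 : ε m n := (hε m n).2 ⟨k, hm⟩
      obtain ⟨u, hu, h2⟩ := hn.1 m h1
      obtain ⟨k1, h3⟩ := ih u hu (hT z hz u hu) m h2
      have l1 : Qs.mk (sg g (max k k1)) ≤ Qs.mk.{u} (sg g k) := sg_pre g (by omega)
      have l2 : Qs.mk (sg g (max k k1)) ≤ Qs.mk.{u} (sg g k1) := sg_pre g (by omega)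
      exact hk _ l1 u hu (h3.mono l2)

end Truth

namespace Col

variable {M : Set ZFSet.{u}} (C : Col M)

theorem FE_mono {A : Set (ℕ → ℕ)} (r r' : Qs.{u}) (m n : ℕ) (h : r' ≤ r) (hF : C.FE A r m n) :
    C.FE A r' m n :=
  IsMeagre.mono (Set.sdiff_subset_sdiff_left (Qs.cyl_mono h)) hF

theorem isVal_cgv {g : ℕ → ℕ} (hg : ∀ n, ∃ k, g k = n) (n : ℕ) :
    IsVal (Ec (C.cgv g)) (C.ι (g n)) n := by
  classical
  have hE : ∀ m n, Ec (C.cgv g) m n ↔ C.ι (g m) ∈ C.ι (g n) := by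
    intro m n
    unfold Ec cgv
    simp
  have key : ∀ x : ZFSet.{u}, ∀ n, C.ι (g n) = x → IsVal (Ec (C.cgv g)) x n := by
    intro x
    induction x using ZFSet.inductionOn with
    | _ x ih =>
      intro n hn
      rw [isVal_iff]
      constructor
      · intro m hm
        rw [hE, hn] at hm
        exact ⟨_, hm, ih _ hm m rfl⟩
      · intro y hy
        have hyt : y ∈ C.t := C.tr _ (C.mem (g n)) (hn ▸ hy)
        obtain ⟨j, hj⟩ := C.surj y hyt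
        obtain ⟨k, hk⟩ := hg j
        refine ⟨k, ?_, ih y hy k (by rw [hk, hj])⟩
        rw [hE, hn, hk, hj]; exact hy
  exact key _ n rfl

theorem wf_cgv (g : ℕ → ℕ) : WellFounded (Ec (C.cgv g)) := by
  classical
  refine Subrelation.wf (r := InvImage (fun a b : ZFSet.{u} => a ∈ b) (fun n => C.ι (g n))) ?_
    (InvImage.wf _ ZFSet.mem_wf)
  intro m n h
  show C.ι (g m) ∈ C.ι (g n)
  unfold Ec cgv at h
  simpa using h

/-- The good generic functions. -/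
def Good (A : Set (ℕ → ℕ)) (g : ℕ → ℕ) : Prop :=
  (∀ n, ∃ k, g k = n) ∧ ∀ m n, C.av m n g ∈ A ↔ ∃ k, C.FE A (Qs.mk.{u} (sg g k)) m n

theorem meagre_not_good {A : Set (ℕ → ℕ)} (hA : UB.{u} A) : IsMeagre {g | ¬ C.Good A g} := by
  have h1 : ∀ n : ℕ, IsMeagre {g : ℕ → ℕ | ¬ ∃ k, g k = n} := by
    intro n
    have hd : DenseBelow [] {l | n ∈ l} := fun l _ => ⟨l ++ [n], ⟨_, rfl⟩, by simp⟩
    refine IsMeagre.mono ?_ (meagre_of_dense hd)
    intro g hg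
    refine ⟨by rw [mem_cyl]; rfl, fun ⟨k, hk⟩ => hg ?_⟩
    have hk' : n ∈ sg g k := hk
    simp only [sg, List.mem_map, List.mem_range] at hk'
    obtain ⟨i, _, hi⟩ := hk'
    exact ⟨i, hi⟩
  have h2 : ∀ m n, IsMeagre {g | g ∈ {g | C.av m n g ∈ A} ∧
      ¬ ∃ k, IsMeagre (cyl (sg g k) \ {g | C.av m n g ∈ A})} := fun m n =>
    meagre_undecided (hA.bp (C.cont_av m n))
  have h3 : ∀ m n, IsMeagre {g | g ∉ {g | C.av m n g ∈ A} ∧
      ∃ k, IsMeagre (cyl (sg g k) \ {g | C.av m n g ∈ A})} := fun m n => meagre_wrong _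
  refine IsMeagre.mono ?_ ((isMeagre_iUnion h1).union ((isMeagre_iUnion fun m =>
    isMeagre_iUnion (h2 m)).union (isMeagre_iUnion fun m => isMeagre_iUnion (h3 m))))
  intro g hg
  by_contra hc
  rw [Set.mem_union, Set.mem_union, not_or, not_or] at hc
  obtain ⟨c1, c2, c3⟩ := hc
  rw [Set.mem_iUnion, not_exists] at c1
  have c2' : ∀ m n, g ∉ {g | g ∈ {g | C.av m n g ∈ A} ∧
      ¬ ∃ k, IsMeagre (cyl (sg g k) \ {g | C.av m n g ∈ A})} := fun m n h =>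
    c2 (Set.mem_iUnion.2 ⟨m, Set.mem_iUnion.2 ⟨n, h⟩⟩)
  have c3' : ∀ m n, g ∉ {g | g ∉ {g | C.av m n g ∈ A} ∧
      ∃ k, IsMeagre (cyl (sg g k) \ {g | C.av m n g ∈ A})} := fun m n h =>
    c3 (Set.mem_iUnion.2 ⟨m, Set.mem_iUnion.2 ⟨n, h⟩⟩)
  refine hg ⟨fun n => ?_, fun m n => ⟨fun h => ?_, fun h => ?_⟩⟩
  · by_contra hn
    exact c1 n hn
  · by_contra hn
    exact c2' m n ⟨h, hn⟩
  · by_contra hn
    exact c3' m n ⟨hn, h⟩

end Col

section Main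

variable {ψ : Fml} (hψ : ψ.Delta0) (hfree : ∀ n, ψ.Free n → n = 0 ∨ n = 1)
  {Kr : (ℕ → ℕ) → (ℕ → ℕ) → Prop} (hK : KrClosed Kr)
  (hKP : ∀ c ε, Pr ψ c ε ↔ ∃ w, Kr c w ∧ ∀ n, (w n).unpair.1 = ε n)
  (hI : ManyInacc.{u}) (hφ : ValidStar.{u} (piTwo ψ))

/-- The structure coded by the leftmost branch for `cgv g`. -/
noncomputable def epsG {M : Set ZFSet.{u}} (C : Col M) (Kr : (ℕ → ℕ) → (ℕ → ℕ) → Prop) (g : ℕ → ℕ) :
    ℕ → ℕ :=
  epsOf fun n => (lmb.{u} Kr (C.cgv g) n).1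

theorem ec_epsG {M : Set ZFSet.{u}} (C : Col M) (Kr : (ℕ → ℕ) → (ℕ → ℕ) → Prop) (g : ℕ → ℕ)
    (m n : ℕ) : Ec (epsG C Kr g) m n ↔ C.av m n g ∈ ASet.{u} Kr := Iff.rfl

include hψ hfree hK hKP hI hφ in
/-- The generic witness. -/
theorem exists_generic_witness {M : Set ZFSet.{u}} (C : Col M) {g : ℕ → ℕ}
    (hg : ∀ n, ∃ k, g k = n) : ∃ y : ZFSet.{u}, IsVal (Ec (epsG C Kr g)) y 0 ∧ Tr ψ (C.ι (g 0)) y :=
  witness_of_branch hψ hK hKP
    (lmb_spec (exists_branch_real hψ hfree hK hKP hI hφ (C.cgv g))).1 (C.wf_cgv g)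
    (C.isVal_cgv hg 0)

/-- If a set is the generic witness for a nonmeager set of `g`, then it belongs to the model. -/
theorem mem_of_nonmeagre {M : Set ZFSet.{u}} (C : Col M) {A : Set (ℕ → ℕ)} (hA : UB.{u} A)
    {q : Qs.{u}} {σ : ZFSet.{u}} (hσ : σ ∈ M)
    (hAσ : ∀ τ ∈ M, ∀ r ≤ q, (fmem (nm C.c τ) (nm C.c σ) r ↔ ForcesAG A (nm C.c τ) r))
    {ε : (ℕ → ℕ) → ℕ → ℕ → Prop} (hε : ∀ g m n, ε g m n ↔ C.av m n g ∈ A) {y : ZFSet.{u}}
    (hy : HC y) (hn : ¬ IsMeagre (cyl q.toL ∩ {g | IsVal (ε g) y 0})) : y ∈ M := by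
  obtain ⟨E, hE, hE'⟩ := C.exists_E hσ hAσ
  obtain ⟨P, R, h⟩ := C.posetIn.exists_PR
  obtain ⟨T, hTc, hT, hyT⟩ := hy
  have hm : IsMeagre (⋃ z : T, ⋃ n, {g | g ∈ cyl q.toL ∧ ¬ ∃ k, sg g k ∈ DV (C.FE A) z.1 n}) := by
    have := hTc.to_subtype
    exact isMeagre_iUnion fun z => isMeagre_iUnion fun n => meagre_of_dense (denseBelow_DV _ _ _)
  have hex : ∃ g ∈ cyl q.toL, C.Good A g ∧ IsVal (ε g) y 0 ∧
      ∀ z ∈ T, ∀ n, ∃ k, sg g k ∈ DV (C.FE A) z n := by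
    by_contra hc
    apply hn
    refine IsMeagre.mono ?_ ((C.meagre_not_good hA).union hm)
    rintro g ⟨hg, hgy⟩
    by_contra hc'
    rw [Set.mem_union, not_or] at hc'
    refine hc ⟨g, hg, not_not.1 hc'.1, hgy, fun z hz n => ?_⟩
    by_contra hk
    exact hc'.2 (Set.mem_iUnion.2 ⟨⟨z, hz⟩, Set.mem_iUnion.2 ⟨n, hg, hk⟩⟩)
  obtain ⟨g, hg, hgood, hgy, hgD⟩ := hex
  obtain ⟨k, hk⟩ := exists_VZ_of_isVal (FE := C.FE A) C.FE_mono (ε := ε g)
    (fun m n => (hε g m n).trans (hgood.2 m n)) hT hgD y hyT 0 hgy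
  have h1 : Qs.mk (sg g (max k q.toL.length)) ≤ Qs.mk.{u} (sg g k) := sg_pre g (le_max_left _ _)
  have h2 : Qs.mk (sg g (max k q.toL.length)) ≤ q := pre_sg hg (le_max_right _ _)
  exact C.hM.mem_of_VZ h hE hE' y _ h2 0 (hk.mono h1)

include hψ hfree hK hKP hI hφ in
theorem exists_witness_of_countable {M : Set ZFSet.{u}} (hM : CTM M)
    (hcl : AClosed (ASet.{u} Kr) M) {x : ZFSet.{u}} (hx : x ∈ M)
    (hc : {y : ZFSet.{u} | HC y ∧ Tr ψ x y}.Countable) : ∃ y ∈ M, Tr ψ x y := by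
  obtain ⟨C, n0, hx0⟩ := Col.exists_col hM hx
  obtain ⟨q, hq, σ, hσ, hA⟩ := hcl Qs C.c C.posetIn (Qs.mk [n0])
  have hUB := ub_ASet hψ hfree hK hKP hI hφ
  have hg0 : ∀ g ∈ cyl q.toL, C.ι (g 0) = x := by
    intro g hg
    have h1 : g ∈ cyl [n0] := Qs.cyl_mono hq hg
    rw [mem_cyl] at h1
    have h2 : g 0 = n0 := by simpa [sg] using h1
    rw [h2, hx0]
  by_contra hne
  push Not at hne
  have hall : ∀ y ∈ {y : ZFSet.{u} | HC y ∧ Tr ψ x y},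
      IsMeagre (cyl q.toL ∩ {g | IsVal (Ec (epsG C Kr g)) y 0}) := by
    rintro y ⟨hy, hxy⟩
    by_contra hn
    exact hne y (mem_of_nonmeagre C hUB hσ hA (ε := fun g => Ec (epsG C Kr g))
      (fun g m n => ec_epsG C Kr g m n) hy hn) hxy
  apply not_meagre_cyl q.toL
  have hu : IsMeagre (⋃ y : {y : ZFSet.{u} | HC y ∧ Tr ψ x y},
      cyl q.toL ∩ {g | IsVal (Ec (epsG C Kr g)) y.1 0}) := by
    have := hc.to_subtype
    exact isMeagre_iUnion fun y => hall y.1 y.2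
  refine IsMeagre.mono ?_ ((C.meagre_not_good hUB).union hu)
  intro g hg
  by_cases hgood : C.Good (ASet.{u} Kr) g
  · right
    obtain ⟨y, h1, h2⟩ := exists_generic_witness hψ hfree hK hKP hI hφ C hgood.1
    rw [hg0 g hg] at h2
    exact Set.mem_iUnion.2 ⟨⟨y, hc_of_isVal h1, h2⟩, hg, h1⟩
  · exact Or.inl hgood

end Main

/-- The Omega conjecture for `Π₂` sentences with countably many witnesses. -/
theorem provOmega_of_countable (hI : ManyInacc.{u}) {ψ : Fml} (hψ : ψ.Delta0)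
    (hfree : ∀ n, ψ.Free n → n = 0 ∨ n = 1)
    (hc : ∀ x : ZFSet.{u}, HC x → {y : ZFSet.{u} | HC y ∧ Tr ψ x y}.Countable)
    (hφ : ValidStar.{u} (piTwo ψ)) : ProvOmega.{u} (piTwo ψ) := by
  obtain ⟨Kr, hK, hKP⟩ := exists_Kr ψ
  refine ⟨ASet.{u} Kr, ub_ASet hψ hfree hK hKP hI hφ, fun M hM hcl => ?_⟩
  apply hM.models_of_witness hψ hfree
  intro x hx
  exact exists_witness_of_countable hψ hfree hK hKP hI hφ hM hcl hx
    (hc x ⟨M, hM.countable, hM.trans, hx⟩)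

end Pool.Agent.H17.Omega
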