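import Pool.Agent.H17.Omega.Base

/-!
# `V_κ` of a small forcing extension satisfies ZFC, for `κ` inaccessible
-/

set_option autoImplicit false
set_option linter.unusedVariables false
set_option linter.unusedSectionVars false
set_option linter.unusedSimpArgs false
set_option linter.deprecated false

universe u v w

namespace Pool.Agent.H17.Omega

open Cardinal Ordinal

namespace Name

variable {Q : Type u} [Preorder Q]

/-- Sub-name of a name given by a family of sets of conditions. -/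
def sub (X : Name Q) (A : X.ι → Q → Prop) : Name Q :=
  mk {iq : X.ι × Q // iq.2 ≤ X.cd iq.1 ∧ A iq.1 iq.2} (fun iq => X.el iq.1.1) (fun iq => iq.1.2)

theorem fmem_sub {X : Name Q} {A : X.ι → Q → Prop} (hA : ∀ i p q, q ≤ p → A i p → A i q)
    {Z : Name Q} {q : Q} :
    fmem Z (X.sub A) q ↔
      ∀ q' ≤ q, ∃ q'' ≤ q', ∃ i : X.ι, q'' ≤ X.cd i ∧ A i q'' ∧ feq Z (X.el i) q'' := by
  constructor
  · intro h q' hq'
    obtain ⟨q1, a1, ⟨⟨i, r⟩, hr1, hr2⟩, a2, a3⟩ := h q' hq'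
    exact ⟨q1, a1, i, le_trans a2 hr1, hA i _ _ a2 hr2, a3⟩
  · intro h q' hq'
    obtain ⟨q1, a1, i, a2, a3, a4⟩ := h q' hq'
    exact ⟨q1, a1, ⟨⟨i, q1⟩, a2, a3⟩, le_rfl, a4⟩

theorem InV_sub {X : Name Q} {A : X.ι → Q → Prop} {α : Ordinal.{u}} (h : X.InV α) :
    (X.sub A).InV α := by
  rw [InV_def] at h ⊢
  obtain ⟨β, hβ, h⟩ := h
  exact ⟨β, hβ, fun i => h i.1.1⟩

/-- Names whose elements all have rank `< β` and condition top. -/
theorem InV_mk {ι : Type u} {x : ι → Name Q} {p : ι → Q} {α : Ordinal.{u}}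
    (h : ∃ β < α, ∀ i, (x i).InV β) : (mk ι x p).InV α := by
  rw [InV_def]; exact h

/-- Unordered pair of names. -/
def upair [OrderTop Q] (X Y : Name Q) : Name Q :=
  mk (ULift.{u} Bool) (fun b => cond b.down X Y) (fun _ => ⊤)

theorem fmem_upair [OrderTop Q] {X Y Z : Name Q} {q : Q} :
    fmem Z (upair X Y) q ↔ ∀ q' ≤ q, ∃ q'' ≤ q', feq Z X q'' ∨ feq Z Y q'' := by
  constructor
  · intro h q' hq'
    obtain ⟨q1, a1, ⟨b⟩, a2, a3⟩ := h q' hq'
    cases b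
    · exact ⟨q1, a1, Or.inr a3⟩
    · exact ⟨q1, a1, Or.inl a3⟩
  · intro h q' hq'
    obtain ⟨q1, a1, a2 | a2⟩ := h q' hq'
    · exact ⟨q1, a1, ⟨true⟩, le_top, a2⟩
    · exact ⟨q1, a1, ⟨false⟩, le_top, a2⟩

theorem InV_upair [OrderTop Q] {X Y : Name Q} {α : Ordinal.{u}} (hα : Order.IsSuccLimit α)
    (hX : X.InV α) (hY : Y.InV α) : (upair X Y).InV α := by
  rw [InV_iff] at hX hY
  refine InV_mk ⟨max (Order.succ X.rk) (Order.succ Y.rk),
    max_lt (hα.succ_lt hX) (hα.succ_lt hY), fun i => ?_⟩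
  rw [InV_iff]
  obtain ⟨b⟩ := i
  cases b
  · exact (Order.lt_succ _).trans_le (le_max_right _ _)
  · exact (Order.lt_succ _).trans_le (le_max_left _ _)

/-- Union of a name. -/
def sUnion (X : Name Q) : Name Q :=
  mk {t : (Σ i : X.ι, (X.el i).ι) × Q // t.2 ≤ X.cd t.1.1 ∧ t.2 ≤ (X.el t.1.1).cd t.1.2}
    (fun t => (X.el t.1.1.1).el t.1.1.2) (fun t => t.1.2)

theorem fmem_sUnion {X Z : Name Q} {q : Q} :
    fmem Z X.sUnion q ↔ ∀ q' ≤ q, ∃ q'' ≤ q', ∃ i : X.ι, q'' ≤ X.cd i ∧ fmem Z (X.el i) q'' := by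
  constructor
  · intro h q' hq'
    obtain ⟨q1, a1, ⟨⟨⟨i, j⟩, r⟩, hr1, hr2⟩, a2, a3⟩ := h q' hq'
    refine ⟨q1, a1, i, le_trans a2 hr1, ?_⟩
    exact fmem_congr_left (feq_symm a3) (fmem_el (le_trans a2 hr2))
  · intro h q' hq'
    obtain ⟨q1, a1, i, a2, a3⟩ := h q' hq'
    obtain ⟨q2, b1, j, b2, b3⟩ := a3 q1 le_rfl
    exact ⟨q2, b1.trans a1, ⟨⟨⟨i, j⟩, q2⟩, b1.trans a2, b2⟩, le_rfl, b3⟩

theorem InV_sUnion {X : Name Q} {α : Ordinal.{u}} (h : X.InV α) : X.sUnion.InV α := by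
  rw [InV_def] at h
  obtain ⟨β, hβ, h⟩ := h
  exact InV_mk ⟨β, hβ, fun t => (h t.1.1.1).el _⟩

/-- Power set name. -/
def pow [OrderTop Q] (X : Name Q) : Name Q :=
  mk {A : X.ι → Q → Prop // ∀ i p q, q ≤ p → A i p → A i q} (fun A => X.sub A.1) (fun _ => ⊤)

theorem fmem_pow [OrderTop Q] {X : Name Q} {α : Ordinal.{u}} (hX : X.InV α) (Z : Name Q)
    (hZ : Z.InV α) (p : Q) :
    fmem Z X.pow p ↔ ∀ W : Name Q, W.InV α → ∀ q ≤ p, fmem W Z q → fmem W X q := by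
  constructor
  · intro h W hWα q hq hW
    apply fmem_reg
    intro q' hq'
    obtain ⟨q2, a1, ⟨A, hA⟩, a2, a3⟩ := h q' (hq'.trans hq)
    refine ⟨q2, a1, ?_⟩
    have h1 : fmem W (X.sub A) q2 := fmem_congr_right a3 (fmem_mono (a1.trans hq') hW)
    rw [fmem_sub hA] at h1
    intro r hr
    obtain ⟨r', hr', i, b1, b2, b3⟩ := h1 r hr
    exact ⟨r', hr', i, b1, b3⟩
  · intro h
    set A : X.ι → Q → Prop := fun i r => fmem (X.el i) Z r
    have hA : ∀ i p q, q ≤ p → A i p → A i q := fun i p q hqp => fmem_mono hqp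
    intro q' hq'
    refine ⟨q', le_rfl, ⟨A, hA⟩, le_top, ?_⟩
    show feq Z (X.sub A) q'
    rw [feq_iff_mem]
    constructor
    · intro i q1 hq1 hi
      rw [fmem_sub hA]
      have h3 := h _ (hZ.el i) q1 (hq1.trans hq') (fmem_el hi)
      intro r hr
      obtain ⟨r', hr', j, b1, b2⟩ := h3 r hr
      exact ⟨r', hr', j, b1, fmem_congr_left b2 (fmem_el (hr'.trans (hr.trans hi))), b2⟩
    · rintro ⟨⟨i, r⟩, hr1, hr2⟩ q1 hq1 hi
      exact fmem_mono hi hr2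

theorem InV_pow [OrderTop Q] {X : Name Q} {α : Ordinal.{u}} (hα : Order.IsSuccLimit α)
    (hX : X.InV α) : X.pow.InV α := by
  rw [InV_iff] at hX
  refine InV_mk ⟨Order.succ X.rk, hα.succ_lt hX, fun A => InV_sub ?_⟩
  rw [InV_iff]; exact Order.lt_succ _

/-- Name of an ordinal. -/
noncomputable def oName (Q : Type u) [Preorder Q] [OrderTop Q] (α : Ordinal.{u}) : Name Q :=
  Name.mk α.ToType (fun i => oName Q (Ordinal.ToType.toOrd i).1) (fun _ => ⊤)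
termination_by α
decreasing_by exact (Ordinal.ToType.toOrd i).2

section oName

variable [OrderTop Q]

theorem fmem_oName {α : Ordinal.{u}} {X : Name Q} {p : Q} :
    fmem X (oName Q α) p ↔ ∀ q ≤ p, ∃ r ≤ q, ∃ β < α, feq X (oName Q β) r := by
  rw [oName]
  constructor
  · intro h q hq
    obtain ⟨r, hr, i, _, h2⟩ := h q hq
    exact ⟨r, hr, _, (Ordinal.ToType.toOrd i).2, h2⟩
  · intro h q hq
    obtain ⟨r, hr, β, hβ, h2⟩ := h q hq
    refine ⟨r, hr, Ordinal.ToType.mk ⟨β, hβ⟩, le_top, ?_⟩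
    simpa [Ordinal.ToType.toOrd] using h2

theorem InV_oName (α : Ordinal.{u}) : ∀ {β : Ordinal.{u}}, α < β → (oName Q α).InV β := by
  induction α using WellFoundedLT.induction with
  | ind α ih =>
    intro β hβ
    rw [oName]
    exact InV_mk ⟨α, hβ, fun i => ih _ (Ordinal.ToType.toOrd i).2 (Ordinal.ToType.toOrd i).2⟩

theorem fmem_oName_of_lt {α β : Ordinal.{u}} (h : β < α) (p : Q) :
    fmem (oName Q β) (oName Q α) p :=
  fmem_oName.2 fun q _ => ⟨q, le_rfl, β, h, feq_refl _ _⟩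

theorem feq_oName_iff {α β : Ordinal.{u}} {p : Q} : feq (oName Q α) (oName Q β) p ↔ α = β := by
  constructor
  · intro h
    rcases lt_trichotomy α β with h1 | h1 | h1
    · exact (not_fmem_self _ _ (fmem_congr_right (feq_symm h) (fmem_oName_of_lt h1 p))).elim
    · exact h1
    · exact (not_fmem_self _ _ (fmem_congr_right h (fmem_oName_of_lt h1 p))).elim
  · rintro rfl; exact feq_refl _ _

theorem fmem_oName_iff {α β : Ordinal.{u}} {p : Q} : fmem (oName Q β) (oName Q α) p ↔ β < α := by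
  constructor
  · intro h
    obtain ⟨r, hr, γ, hγ, h2⟩ := fmem_oName.1 h p le_rfl
    rw [feq_oName_iff.1 h2]; exact hγ
  · intro h; exact fmem_oName_of_lt h p

theorem fmem_oName_add_one {α : Ordinal.{u}} {X : Name Q} {p : Q} :
    fmem X (oName Q (α + 1)) p ↔
      ∀ q ≤ p, ∃ r ≤ q, fmem X (oName Q α) r ∨ feq X (oName Q α) r := by
  constructor
  · intro h q hq
    obtain ⟨r, hr, β, hβ, h2⟩ := fmem_oName.1 h q hq
    refine ⟨r, hr, ?_⟩
    rcases (Order.lt_add_one_iff.1 hβ).lt_or_eq with h3 | rfl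
    · exact Or.inl (fmem_congr_left (feq_symm h2) (fmem_oName_of_lt h3 r))
    · exact Or.inr h2
  · intro h
    apply fmem_reg
    intro q hq
    obtain ⟨r, hr, h1 | h1⟩ := h q hq
    · refine ⟨r, hr, fmem_oName.2 fun s hs => ?_⟩
      obtain ⟨t, ht, β, hβ, h2⟩ := fmem_oName.1 h1 s hs
      exact ⟨t, ht, β, hβ.trans (Order.lt_add_one_iff.2 le_rfl), h2⟩
    · exact ⟨r, hr, fmem_congr_left (feq_symm h1)
        (fmem_oName_of_lt (Order.lt_add_one_iff.2 le_rfl) r)⟩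

end oName

/-- Up to forced equality, there are few names of small rank. -/
theorem exists_reps {κ : Cardinal.{u}} (hκ : κ.IsInaccessible) (hQ : #Q < κ) (ρ : Ordinal.{u}) :
    ρ < κ.ord → ∃ (R : Type u) (e : R → Name Q), #R < κ ∧ (∀ r, (e r).rk < ρ) ∧
      ∀ X : Name Q, X.rk < ρ → ∃ r, ∀ p, feq X (e r) p := by
  induction ρ using WellFoundedLT.induction with
  | ind ρ ih =>
    intro hρ
    have ih' : ∀ i : ρ.ToType, ∃ (R : Type u) (e : R → Name Q), #R < κ ∧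
        (∀ r, (e r).rk < (Ordinal.ToType.toOrd i).1) ∧
        ∀ X : Name Q, X.rk < (Ordinal.ToType.toOrd i).1 → ∃ r, ∀ p, feq X (e r) p :=
      fun i => ih _ (Ordinal.ToType.toOrd i).2 ((Ordinal.ToType.toOrd i).2.trans hρ)
    choose R e hR he hX using ih'
    refine ⟨Σ i : ρ.ToType, (R i → Set Q),
      fun t => Name.mk (Σ s : R t.1, {q // q ∈ t.2 s}) (fun s => e t.1 s.1) (fun s => s.2.1),
      ?_, ?_, ?_⟩
    · rw [mk_sigma]
      refine sum_lt_of_isRegular hκ.isRegular ?_ fun i => ?_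
      · rw [mk_toType]; rwa [← lt_ord]
      · have h1 : #(R i → Set Q) = 2 ^ (#(R i) * #Q) := by
          simp [Cardinal.mk_set, Cardinal.power_mul, mul_comm]
        rw [h1]
        exact hκ.isStrongLimit.two_power_lt (mul_lt_of_lt hκ.aleph0_lt.le (hR i) hQ)
    · rintro ⟨i, g⟩
      rw [rk_def]
      have h1 : (Ordinal.ToType.toOrd i).1 < ρ := (Ordinal.ToType.toOrd i).2
      refine lt_of_le_of_lt (Ordinal.iSup_le fun s => ?_) h1
      exact Order.succ_le_of_lt (he i s.1)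
    · intro X hXρ
      set i : ρ.ToType := Ordinal.ToType.mk ⟨X.rk, hXρ⟩ with hi
      have hi' : (Ordinal.ToType.toOrd i).1 = X.rk := by simp [hi, Ordinal.ToType.toOrd]
      refine ⟨⟨i, fun s => {q | fmem (e i s) X q}⟩, fun p => ?_⟩
      rw [feq_iff_mem]
      constructor
      · intro j q hq hj
        obtain ⟨s, hs⟩ := hX i (X.el j) (by rw [hi']; exact rk_el_lt X j)
        have h1 : fmem (e i s) X q := fmem_congr_left (hs q) (fmem_el hj)
        intro q' hq'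
        exact ⟨q', le_rfl, ⟨s, q', fmem_mono hq' h1⟩, le_rfl, hs q'⟩
      · rintro ⟨s, r, hr⟩ q hq hj
        exact fmem_mono hj hr

end Name

open Name

section Axioms

variable {Q : Type u} [Preorder Q]

theorem vforces_ext (α : Ordinal.{u}) (p : Q) : VForces α axExt p := by
  intro f X Y q hq h
  show Name.feq X.1 Y.1 q
  rw [feq_iff_mem]
  refine ⟨fun i q' hq' hi => ?_, fun i q' hq' hi => ?_⟩
  · exact (h ⟨_, X.2.el i⟩).1 q' hq' (fmem_el hi)
  · exact (h ⟨_, Y.2.el i⟩).2 q' hq' (fmem_el hi)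

theorem vforces_found (α : Ordinal.{u}) (p : Q) : VForces α axFound p := by
  intro f X q hq h
  have key : ∀ Y : Name Q, Y.InV α → ∀ r, fmem Y X.1 r → ∃ s ≤ r,
      ∃ Z : {X : Name Q // X.InV α}, fmem Z.1 X.1 s ∧
        ∀ z : {X : Name Q // X.InV α}, ∀ t ≤ s, fmem z.1 X.1 t → ∀ t' ≤ t, ¬ fmem z.1 Z.1 t' := by
    intro Y
    induction Y using ind with
    | h Y ih =>
      intro hY r hr
      by_cases hc : ∀ z : {X : Name Q // X.InV α}, ∀ t ≤ r, fmem z.1 X.1 t →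
        ∀ t' ≤ t, ¬ fmem z.1 Y t'
      · exact ⟨r, le_rfl, ⟨Y, hY⟩, hr, hc⟩
      · push Not at hc
        obtain ⟨z, t, ht, h1, t', ht', h2⟩ := hc
        obtain ⟨t2, ht2, i, h3, h4⟩ := h2 t' le_rfl
        obtain ⟨s, hs, Z, hZ⟩ := ih i (InV.el hY i) t2
          (fmem_congr_left h4 (fmem_mono (ht2.trans ht') h1))
        exact ⟨s, hs.trans (ht2.trans (ht'.trans ht)), Z, hZ⟩
  intro q' hq'
  obtain ⟨r, hr, Y, hY⟩ := h q' hq'
  have hY : fmem Y.1 X.1 r := hY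
  obtain ⟨s, hs, Z, hZ⟩ := key Y.1 Y.2 r hY
  exact ⟨s, hs.trans hr, Z, hZ.1, fun z t ht h1 t' ht' h2 => hZ.2 z t ht h1 t' ht' h2⟩

theorem vforces_pair [OrderTop Q] {α : Ordinal.{u}} (hα : Order.IsSuccLimit α) (p : Q) :
    VForces α axPair p := by
  intro f X Y q hq
  refine ⟨q, le_rfl, ⟨upair X.1 Y.1, InV_upair hα X.2 Y.2⟩, fun Z => ⟨fun r hr h => ?_,
    fun r hr h => ?_⟩⟩
  · exact fmem_upair.1 h
  · exact fmem_upair.2 h

theorem vforces_union (α : Ordinal.{u}) (p : Q) : VForces α axUnion p := by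
  intro f X q hq
  refine ⟨q, le_rfl, ⟨_, InV_sUnion X.2⟩, fun Z => ⟨fun r hr h => ?_, fun r hr h => ?_⟩⟩
  · intro s hs
    obtain ⟨t, ht, i, h1, h2⟩ := fmem_sUnion.1 h s hs
    exact ⟨t, ht, ⟨_, X.2.el i⟩, fmem_el h1, h2⟩
  · refine fmem_sUnion.2 fun s hs => ?_
    obtain ⟨t, ht, Y, h1, h2⟩ := h s hs
    obtain ⟨t', ht', i, h3, h4⟩ := h1 t le_rfl
    exact ⟨t', ht'.trans ht, i, h3, fmem_congr_right h4 (fmem_mono ht' h2)⟩

theorem vforces_power [OrderTop Q] {α : Ordinal.{u}} (hα : Order.IsSuccLimit α) (p : Q) :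
    VForces α axPower p := by
  intro f X q hq
  refine ⟨q, le_rfl, ⟨_, InV_pow hα X.2⟩, fun Z => ⟨fun r hr h => ?_, fun r hr h => ?_⟩⟩
  · intro W s hs h'
    exact (fmem_pow X.2 Z.1 Z.2 r).1 h W.1 W.2 s hs h'
  · exact (fmem_pow X.2 Z.1 Z.2 r).2 fun W hW s hs h' => h ⟨W, hW⟩ s hs h'

theorem vforces_inf [OrderTop Q] {α : Ordinal.{u}} (hα : Order.IsSuccLimit α)
    (h0 : Ordinal.omega0 < α) (p : Q) : VForces α axInf p := by
  have hO : ∀ {β : Ordinal.{u}}, β < α → (oName Q β).InV α := fun h => InV_oName _ h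
  intro f q hq
  refine ⟨q, le_rfl, ⟨oName Q Ordinal.omega0, hO h0⟩, ?_, ?_⟩
  · intro r hr
    refine ⟨r, le_rfl, ⟨oName Q 0, hO (Ordinal.omega0_pos.trans h0)⟩,
      fmem_oName_of_lt Ordinal.omega0_pos r, ?_⟩
    intro Z s hs h
    obtain ⟨t, _, β, hβ, _⟩ := fmem_oName.1 h s le_rfl
    exact absurd hβ (not_lt_of_ge (zero_le (a := β)))
  · intro Y r hr hY s hs
    obtain ⟨t, ht, β, hβ, h⟩ := fmem_oName.1 hY s hs
    have hβ1 : β + 1 < Ordinal.omega0 := Ordinal.isSuccLimit_omega0.add_one_lt hβ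
    refine ⟨t, ht, ⟨oName Q (β + 1), hO (hβ1.trans h0)⟩, ?_,
      fun Z => ⟨fun t' ht' h' => ?_, fun t' ht' h' => ?_⟩⟩
    · exact fmem_oName_of_lt hβ1 t
    · intro a ha
      obtain ⟨b, hb, h2⟩ := fmem_oName_add_one.1 h' a ha
      have h3 : feq Y.1 (oName Q β) b := feq_mono (hb.trans (ha.trans ht')) h
      exact ⟨b, hb, h2.imp (fun h4 => fmem_congr_right (feq_symm h3) h4)
        (fun h4 => feq_trans h4 (feq_symm h3))⟩
    · show fmem Z.1 (oName Q (β + 1)) t'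
      rw [fmem_oName_add_one]
      intro a ha
      obtain ⟨b, hb, h2⟩ := h' a ha
      have h3 : feq Y.1 (oName Q β) b := feq_mono (hb.trans (ha.trans ht')) h
      exact ⟨b, hb, h2.imp (fun h4 => fmem_congr_right h3 h4) (fun h4 => feq_trans h4 h3)⟩

/-- Choice. -/
theorem vforces_choice {α : Ordinal.{u}} (p : Q) : VForces α axChoice p := by
  classical
  intro f X q hq h
  obtain ⟨hne, hdis⟩ := h
  -- index set of all elements of elements
  let J : Type u := Σ i : X.1.ι, (X.1.el i).ι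
  let el : J → Name Q := fun j => (X.1.el j.1).el j.2
  have hel : ∀ j, (el j).InV α := fun j => (X.2.el j.1).el j.2
  let lt : J → J → Prop := WellOrderingRel
  have wo : IsWellOrder J lt := WellOrderingRel.isWellOrder
  -- `el j` is the first element of the member `Y`
  let First : J → Name Q → Q → Prop := fun j Y r =>
    fmem (el j) Y r ∧ ∀ k, lt k j → ∀ s ≤ r, ¬ fmem (el k) Y s
  have First_mono : ∀ j Y r s, s ≤ r → First j Y r → First j Y s := fun j Y r s hs h =>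
    ⟨fmem_mono hs h.1, fun k hk t ht => h.2 k hk t (ht.trans hs)⟩
  let C : Name Q := Name.mk {t : (J × X.1.ι) × Q // t.2 ≤ X.1.cd t.1.2 ∧
    First t.1.1 (X.1.el t.1.2) t.2} (fun t => el t.1.1.1) (fun t => t.1.2)
  have hC : C.InV α := by
    have h : X.1.InV α := X.2
    rw [InV_def] at h
    obtain ⟨β, hβ, h⟩ := h
    exact InV_mk ⟨β, hβ, fun t => (h t.1.1.1.1).el _⟩
  have mem_C : ∀ (Z : Name Q) r, fmem Z C r ↔ ∀ s ≤ r, ∃ t ≤ s, ∃ j i, t ≤ X.1.cd i ∧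
      First j (X.1.el i) t ∧ feq Z (el j) t := by
    intro Z r
    constructor
    · intro h s hs
      obtain ⟨t, ht, ⟨⟨⟨j, i⟩, t0⟩, h1, h2⟩, h3, h4⟩ := h s hs
      exact ⟨t, ht, j, i, le_trans h3 h1, First_mono _ _ _ _ h3 h2, h4⟩
    · intro h s hs
      obtain ⟨t, ht, j, i, h1, h2, h3⟩ := h s hs
      exact ⟨t, ht, ⟨⟨⟨j, i⟩, t⟩, h1, h2⟩, le_rfl, h3⟩
  intro q' hq'
  refine ⟨q', le_rfl, ⟨C, hC⟩, ?_⟩
  intro Y r hr hY s hs
  have hY : fmem Y.1 X.1 r := hY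
  have hne : ∀ Y : {X : Name Q // X.InV α}, ∀ r ≤ q, fmem Y.1 X.1 r →
    ∀ s ≤ r, ∃ t ≤ s, ∃ Z : {X : Name Q // X.InV α}, fmem Z.1 Y.1 t := hne
  -- find an element of `Y`
  have hsq : s ≤ q := hs.trans (hr.trans hq')
  obtain ⟨s1, hs1, i, hi1, hi2⟩ := hY s hs
  obtain ⟨s2, hs2, Z, hZ⟩ := hne Y s1 (hs1.trans hsq)
    (fmem_mono (hs1.trans hs) hY) s1 le_rfl
  obtain ⟨s3, hs3, j, hj1, hj2⟩ := (fmem_congr_right (feq_mono hs2 hi2) hZ : fmem Z.1 (X.1.el i) s2)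
    s2 le_rfl
  -- the set of `k` such that some extension forces `el k ∈ X.el i`
  obtain ⟨k, hk, hmin⟩ := wo.wf.has_min {k : J | ∃ t ≤ s3, fmem (el k) (X.1.el i) t}
    ⟨⟨i, j⟩, s3, le_rfl, fmem_el hj1⟩
  obtain ⟨t, ht, hkt⟩ := hk
  have hFirst : First k (X.1.el i) t := ⟨hkt, fun l hl t' ht' hl' =>
    hmin l ⟨t', ht'.trans ht, hl'⟩ hl⟩
  have ht1 : t ≤ s1 := ht.trans (hs3.trans hs2)
  have hYi : feq Y.1 (X.1.el i) t := feq_mono ht1 hi2
  refine ⟨t, ht1.trans hs1, ⟨el k, hel k⟩, ?_⟩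
  intro W
  constructor
  · rintro t' ht' ⟨hWY, hWC⟩
    show feq W.1 (el k) t'
    have hWY : fmem W.1 Y.1 t' := hWY
    have hWC : fmem W.1 C t' := hWC
    apply feq_reg
    intro a ha
    obtain ⟨b, hb, j', i', h1, h2, h3⟩ := (mem_C _ _).1 hWC a ha
    have hbt : b ≤ t := hb.trans (ha.trans ht')
    -- `X.el i' = Y` since they share `W`
    have hXi' : fmem (X.1.el i') X.1 b := fmem_el h1
    have hbq : b ≤ q := hbt.trans (ht1.trans (hs1.trans hsq))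
    have hYX : fmem Y.1 X.1 b := fmem_mono (hbt.trans (ht1.trans (hs1.trans hs))) hY
    have heq : feq Y.1 (X.1.el i') b := by
      refine hdis Y ⟨X.1.el i', X.2.el i'⟩ b hbq ⟨hYX, hXi', ?_⟩
      intro c hc
      refine ⟨c, le_rfl, W, fmem_mono (hc.trans (hb.trans ha)) hWY, ?_⟩
      exact fmem_congr_left (feq_symm (feq_mono hc h3)) (fmem_mono hc h2.1)
    have heq' : feq (X.1.el i') (X.1.el i) b := feq_trans (feq_symm heq) (feq_mono hbt hYi)
    -- `j'` and `k` are both first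
    rcases trichotomous_of lt j' k with h4 | h4 | h4
    · exact absurd (fmem_congr_right heq' h2.1) (hFirst.2 j' h4 b hbt)
    · subst h4; exact ⟨b, hb, h3⟩
    · exact absurd (fmem_congr_right (feq_symm heq') (fmem_mono hbt hkt)) (h2.2 k h4 b le_rfl)
  · intro t' ht' hW
    have hW : feq W.1 (el k) t' := hW
    refine ⟨?_, ?_⟩
    · show fmem W.1 Y.1 t'
      exact fmem_congr_left (feq_symm hW)
        (fmem_congr_right (feq_symm (feq_mono ht' hYi)) (fmem_mono ht' hkt))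
    · show fmem W.1 C t'
      refine fmem_congr_left (feq_symm hW) ((mem_C _ _).2 fun a ha => ?_)
      exact ⟨a, le_rfl, k, i, (ha.trans ht').trans (ht1.trans hi1),
        First_mono _ _ _ _ (ha.trans ht') hFirst, feq_refl _ _⟩

/-- Separation. -/
theorem vforces_sep' {α : Ordinal.{u}} (φ : Fml) (p : Q) (n : ℕ) (hb : φ.bd ≤ n) (hn0 : n ≠ 0) :
    VForces α (.all n (.ex (n + 1) (.all 0 (.iff (.mem 0 (n + 1)) (.and (.mem 0 n) φ))))) p := by
  intro f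
  intro X q hq
  let A : X.1.ι → Q → Prop := fun i r =>
    Forces (fun X : Name Q => X.InV α) φ (upd f 0 ⟨X.1.el i, X.2.el i⟩) r
  have hA : ∀ i p q, q ≤ p → A i p → A i q := fun i p q h h' => Forces.mono h h'
  refine ⟨q, le_rfl, ⟨X.1.sub A, InV_sub X.2⟩, fun Z => ?_⟩
  have hcongr : ∀ r, Forces (fun X : Name Q => X.InV α) φ
      (upd (upd (upd f n X) (n + 1) ⟨X.1.sub A, InV_sub X.2⟩) 0 Z) r ↔
      Forces (fun X : Name Q => X.InV α) φ (upd f 0 Z) r := by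
    intro r
    apply Forces.congr
    intro i hi
    by_cases h0 : i = 0
    · subst h0; simp
    · rw [upd_ne _ _ h0, upd_ne _ _ h0, upd_ne _ _ (by omega), upd_ne _ _ (by omega)]
  have e1 : (upd (upd (upd f n X) (n + 1) ⟨X.1.sub A, InV_sub X.2⟩) 0 Z) (n + 1) =
      ⟨X.1.sub A, InV_sub X.2⟩ := by
    rw [upd_ne _ _ (by omega), upd_same]
  have e2 : (upd (upd (upd f n X) (n + 1) ⟨X.1.sub A, InV_sub X.2⟩) 0 Z) n = X := by
    rw [upd_ne _ _ hn0, upd_ne _ _ (by omega), upd_same]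
  have e3 : (upd (upd (upd f n X) (n + 1) ⟨X.1.sub A, InV_sub X.2⟩) 0 Z) 0 = Z := by
    rw [upd_same]
  have hsub : ∀ i : X.1.ι, ∀ r, feq Z.1 (X.1.el i) r →
      (A i r ↔ Forces (fun X : Name Q => X.InV α) φ (upd f 0 Z) r) := by
    intro i r h
    refine Forces.eq_iff φ fun j _ => ?_
    by_cases h0 : j = 0
    · subst h0; simpa using feq_symm h
    · rw [upd_ne _ _ h0, upd_ne _ _ h0]; exact feq_refl _ _
  constructor
  · intro r hr h
    simp only [Forces, e1, e2, e3, hcongr] at h ⊢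
    rw [fmem_sub hA] at h
    constructor
    · intro r' hr'
      obtain ⟨t, ht, i, h1, h2, h3⟩ := h r' hr'
      exact ⟨t, ht, i, h1, h3⟩
    · refine Forces.reg fun r' hr' => ?_
      obtain ⟨t, ht, i, h1, h2, h3⟩ := h r' hr'
      exact ⟨t, ht, (hsub i t h3).1 h2⟩
  · intro r hr h
    simp only [Forces, e1, e2, e3, hcongr] at h ⊢
    rw [fmem_sub hA]
    intro r' hr'
    obtain ⟨t, ht, i, h1, h2⟩ := h.1 r' hr'
    exact ⟨t, ht, i, h1, (hsub i t h2).2 (Forces.mono (ht.trans hr') h.2), h2⟩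

theorem vforces_sep {α : Ordinal.{u}} (φ : Fml) (p : Q) : VForces α (axSep φ) p :=
  vforces_sep' φ p _ (le_max_left _ _) (by have := le_max_right φ.bd 1; omega)

/-- Replacement. -/
theorem vforces_repl' {κ : Cardinal.{u}} (hκ : κ.IsInaccessible) (hQ : #Q < κ) (φ : Fml) (p : Q)
    (n : ℕ) (hb : φ.bd ≤ n) (hn2 : 2 ≤ n) :
    VForces κ.ord (.all n (.imp
    (.all 0 (.imp (.mem 0 n) (.ex (n + 1) (.all 1 (.iff φ (.eq 1 (n + 1)))))))
    (.ex (n + 1) (.all 1 (.iff (.mem 1 (n + 1)) (.ex 0 (.and (.mem 0 n) φ))))))) p := by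
  classical
  intro f
  intro X q hq hfun
  have hX : X.1.rk < κ.ord := InV_iff.1 X.2
  -- the relation
  let Φ : {X : Name Q // X.InV κ.ord} → {X : Name Q // X.InV κ.ord} → Q → Prop := fun Z W r =>
    Forces (fun X : Name Q => X.InV κ.ord) φ (upd (upd f 0 Z) 1 W) r
  have Φmono : ∀ {Z W r s}, s ≤ r → Φ Z W r → Φ Z W s := fun h h' => Forces.mono h h'
  have Φcongr : ∀ {Z Z' W W' r}, feq Z.1 Z'.1 r → feq W.1 W'.1 r → (Φ Z W r ↔ Φ Z' W' r) := by
    intro Z Z' W W' r h1 h2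
    refine Forces.eq_iff φ fun j _ => ?_
    by_cases hj1 : j = 1
    · subst hj1; simpa using h2
    · by_cases hj0 : j = 0
      · subst hj0; simpa [upd] using h1
      · rw [upd_ne _ _ hj1, upd_ne _ _ hj0, upd_ne _ _ hj1, upd_ne _ _ hj0]; exact feq_refl _ _
  -- uniqueness
  have huniq : ∀ Z : {X : Name Q // X.InV κ.ord}, ∀ r ≤ q, fmem Z.1 X.1 r → ∀ s ≤ r, ∃ t ≤ s,
      ∃ W : {X : Name Q // X.InV κ.ord}, ∀ Y : {X : Name Q // X.InV κ.ord}, ∀ t' ≤ t,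
        (Φ Z Y t' ↔ feq Y.1 W.1 t') := by
    intro Z r hr hZ s hs
    have h1 := hfun Z r hr (by
      show fmem _ _ _
      rw [upd_same, upd_ne _ _ (by omega), upd_same]; exact hZ) s hs
    obtain ⟨t, ht, W, hW⟩ := h1
    refine ⟨t, ht, W, fun Y t' ht' => ?_⟩
    have e1 : (upd (upd (upd (upd f n X) 0 Z) (n + 1) W) 1 Y) 1 = Y := by rw [upd_same]
    have e2 : (upd (upd (upd (upd f n X) 0 Z) (n + 1) W) 1 Y) (n + 1) = W := by
      rw [upd_ne _ _ (by omega), upd_same]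
    have hc : ∀ t', Forces (fun X : Name Q => X.InV κ.ord) φ
        (upd (upd (upd (upd f n X) 0 Z) (n + 1) W) 1 Y) t' ↔ Φ Z Y t' := by
      intro t'
      apply Forces.congr
      intro i hi
      by_cases h1 : i = 1
      · subst h1; simp
      · rw [upd_ne _ _ h1, upd_ne _ _ h1, upd_ne _ _ (by omega)]
        by_cases h0 : i = 0
        · subst h0; simp
        · rw [upd_ne _ _ h0, upd_ne _ _ h0, upd_ne _ _ (by omega)]
    have h2 := hW Y
    simp only [Fml.iff, Forces, e1, e2, hc] at h2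
    exact ⟨fun h => h2.1 t' ht' h, fun h => h2.2 t' ht' h⟩
  obtain ⟨R, e, hR, he, hrep⟩ := exists_reps hκ hQ (Order.succ X.1.rk)
    ((Cardinal.isSuccLimit_ord hκ.aleph0_lt.le).succ_lt hX)
  have heV : ∀ s, (e s).InV κ.ord := fun s => InV_iff.2 ((Order.lt_succ_iff.1 (he s)).trans_lt hX)
  -- bound for the ranks
  let W0 : R × Q → {X : Name Q // X.InV κ.ord} := fun t =>
    if h : ∃ W, Φ ⟨e t.1, heV t.1⟩ W t.2 then h.choose else X
  have hW0 : ∀ s r W, Φ ⟨e s, heV s⟩ W r → Φ ⟨e s, heV s⟩ (W0 (s, r)) r := by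
    intro s r W h
    have hex : ∃ W, Φ ⟨e s, heV s⟩ W r := ⟨W, h⟩
    simp only [W0, dif_pos hex]
    exact hex.choose_spec
  let ρ : Ordinal.{u} := ⨆ t : R × Q, Order.succ (W0 t).1.rk
  have hρ : ρ < κ.ord := by
    refine Ordinal.iSup_lt_of_lt_cof ?_ fun t => ?_
    · rw [hκ.isRegular.cof_ord, mk_prod, Cardinal.lift_id, Cardinal.lift_id]
      exact mul_lt_of_lt hκ.aleph0_lt.le hR hQ
    · exact (Cardinal.isSuccLimit_ord hκ.aleph0_lt.le).succ_lt (InV_iff.1 (W0 t).2)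
  have hW0ρ : ∀ t, (W0 t).1.rk < ρ := fun t =>
    (Order.lt_succ _).trans_le (Ordinal.le_iSup (fun t : R × Q => Order.succ (W0 t).1.rk) t)
  obtain ⟨R', e', hR', he', hrep'⟩ := exists_reps hκ hQ ρ hρ
  have heV' : ∀ s, (e' s).InV κ.ord := fun s => InV_iff.2 ((he' s).trans hρ)
  let Y : Name Q := Name.mk {t : (X.1.ι × Q) × R' // t.1.2 ≤ X.1.cd t.1.1 ∧
    Φ ⟨X.1.el t.1.1, X.2.el t.1.1⟩ ⟨e' t.2, heV' t.2⟩ t.1.2} (fun t => e' t.1.2) (fun t => t.1.1.2)
  have hY : Y.InV κ.ord := InV_mk ⟨ρ, hρ, fun t => InV_iff.2 (he' _)⟩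
  have mem_Y : ∀ (Z : Name Q) r, fmem Z Y r ↔ ∀ s ≤ r, ∃ t ≤ s, ∃ i w, t ≤ X.1.cd i ∧
      Φ ⟨X.1.el i, X.2.el i⟩ ⟨e' w, heV' w⟩ t ∧ feq Z (e' w) t := by
    intro Z r
    constructor
    · intro h s hs
      obtain ⟨t, ht, ⟨⟨⟨i, t0⟩, w⟩, h1, h2⟩, h3, h4⟩ := h s hs
      exact ⟨t, ht, i, w, le_trans h3 h1, Φmono h3 h2, h4⟩
    · intro h s hs
      obtain ⟨t, ht, i, w, h1, h2, h3⟩ := h s hs
      exact ⟨t, ht, ⟨⟨⟨i, t⟩, w⟩, h1, h2⟩, le_rfl, h3⟩
  intro q' hq'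
  refine ⟨q', le_rfl, ⟨Y, hY⟩, fun Z => ?_⟩
  have e1 : (upd (upd (upd f n X) (n + 1) ⟨Y, hY⟩) 1 Z) 1 = Z := by rw [upd_same]
  have e2 : (upd (upd (upd f n X) (n + 1) ⟨Y, hY⟩) 1 Z) (n + 1) = ⟨Y, hY⟩ := by
    rw [upd_ne _ _ (by omega), upd_same]
  have e3 : ∀ W, (upd (upd (upd (upd f n X) (n + 1) ⟨Y, hY⟩) 1 Z) 0 W) 0 = W := by
    intro W; rw [upd_same]
  have e4 : ∀ W, (upd (upd (upd (upd f n X) (n + 1) ⟨Y, hY⟩) 1 Z) 0 W) n = X := by
    intro W
    rw [upd_ne _ _ (by omega), upd_ne _ _ (by omega), upd_ne _ _ (by omega), upd_same]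
  have hc : ∀ W r, Forces (fun X : Name Q => X.InV κ.ord) φ
      (upd (upd (upd (upd f n X) (n + 1) ⟨Y, hY⟩) 1 Z) 0 W) r ↔ Φ W Z r := by
    intro W r
    apply Forces.congr
    intro i hi
    by_cases h0 : i = 0
    · subst h0; simp [upd]
    · by_cases h1 : i = 1
      · subst h1; simp [upd]
      · rw [upd_ne _ _ h0, upd_ne _ _ h1, upd_ne _ _ (by omega), upd_ne _ _ (by omega),
          upd_ne _ _ h1, upd_ne _ _ h0]
  constructor
  · intro r hr h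
    simp only [Forces, e1, e2, e3, e4, hc] at h ⊢
    intro s hs
    obtain ⟨t, ht, i, w, h1, h2, h3⟩ := (mem_Y _ _).1 h s hs
    exact ⟨t, ht, ⟨X.1.el i, X.2.el i⟩, fmem_el h1,
      (Φcongr (feq_refl _ _) (feq_symm h3)).1 h2⟩
  · intro r hr h
    simp only [Forces, e1, e2, e3, e4, hc] at h ⊢
    rw [mem_Y]
    intro s hs
    obtain ⟨t, ht, W, h1, h2⟩ := h s hs
    obtain ⟨t1, ht1, i, h3, h4⟩ := h1 t le_rfl
    have hr1 : t1 ≤ q := ht1.trans (ht.trans (hs.trans (hr.trans hq')))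
    have h5 : fmem W.1 X.1 t1 := fmem_mono ht1 h1
    obtain ⟨t2, ht2, W', hW'⟩ := huniq W t1 hr1 h5 t1 le_rfl
    have h6 : feq Z.1 W'.1 t2 := (hW' Z t2 le_rfl).1 (Φmono (ht2.trans ht1) h2)
    obtain ⟨s0, hs0⟩ := hrep (X.1.el i) ((rk_el_lt _ _).trans (Order.lt_succ _))
    have h7 : feq W.1 (e s0) t2 := feq_trans (feq_mono ht2 h4) (hs0 _)
    have h8 : Φ ⟨e s0, heV s0⟩ Z t2 := (Φcongr h7 (feq_refl _ _)).1 (Φmono (ht2.trans ht1) h2)
    have h9 := hW0 s0 t2 Z h8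
    have h10 : Φ W (W0 (s0, t2)) t2 := (Φcongr h7 (feq_refl _ _)).2 h9
    have h11 : feq (W0 (s0, t2)).1 W'.1 t2 := (hW' _ t2 le_rfl).1 h10
    have h12 : feq Z.1 (W0 (s0, t2)).1 t2 := feq_trans h6 (feq_symm h11)
    obtain ⟨w, hw⟩ := hrep' (W0 (s0, t2)).1 (hW0ρ _)
    have h13 : feq Z.1 (e' w) t2 := feq_trans h12 (hw _)
    refine ⟨t2, (ht2.trans ht1).trans ht, i, w, ht2.trans h3, ?_, h13⟩
    exact (Φcongr (feq_mono ht2 h4) h13).1 (Φmono (ht2.trans ht1) h2)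

theorem vforces_repl {κ : Cardinal.{u}} (hκ : κ.IsInaccessible) (hQ : #Q < κ) (φ : Fml) (p : Q) :
    VForces κ.ord (axRepl φ) p :=
  vforces_repl' hκ hQ φ p _ (le_max_left _ _) (le_max_right φ.bd 2)

/-- `V_κ` of a small forcing extension satisfies ZFC. -/
theorem vforces_zfc [OrderTop Q] {κ : Cardinal.{u}} (hκ : κ.IsInaccessible) (hQ : #Q < κ)
    {ψ : Fml} (hψ : ZFC ψ) (p : Q) : VForces κ.ord ψ p := by
  have hlim : Order.IsSuccLimit κ.ord := Cardinal.isSuccLimit_ord hκ.aleph0_lt.le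
  cases hψ with
  | ext => exact vforces_ext _ p
  | found => exact vforces_found _ p
  | pair => exact vforces_pair hlim p
  | union => exact vforces_union _ p
  | power => exact vforces_power hlim p
  | inf =>
    refine vforces_inf hlim ?_ p
    rw [lt_ord, card_omega0]; exact hκ.aleph0_lt
  | choice => exact vforces_choice p
  | sep φ => exact vforces_sep φ p
  | repl φ => exact vforces_repl hκ hQ φ p

end Axioms

end Pool.Agent.H17.Omega
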